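import Mathlib

/-! Words in two letters: number of letter changes, counting words with few runs,
the swap order and the splitting of two words with equal letter counts. -/

namespace Pool.Agent.Lib.MP_34a884_an

/-- Number of adjacent letter changes. -/
def chg : List Bool → ℕ
  | [] => 0
  | [_] => 0
  | a :: b :: t => (if a = b then 0 else 1) + chg (b :: t)

@[simp] lemma chg_nil : chg [] = 0 := rfl
@[simp] lemma chg_single (a : Bool) : chg [a] = 0 := rfl
lemma chg_cons2 (a b : Bool) (t : List Bool) :
    chg (a :: b :: t) = (if a = b then 0 else 1) + chg (b :: t) := rfl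

lemma chg_cons_le (a : Bool) (t : List Bool) : chg (a :: t) ≤ chg t + 1 := by
  cases t with
  | nil => simp
  | cons b t => rw [chg_cons2]; split_ifs <;> omega

lemma le_chg_cons (a : Bool) (t : List Bool) : chg t ≤ chg (a :: t) := by
  cases t with
  | nil => simp
  | cons b t => rw [chg_cons2]; omega

lemma chg_append_le (u v : List Bool) : chg (u ++ v) ≤ chg u + chg v + 1 := by
  induction u with
  | nil => simp
  | cons a u ih =>
    cases u with
    | nil => simpa using chg_cons_le a v
    | cons b u =>
      have : chg (b :: u ++ v) ≤ chg (b :: u) + chg v + 1 := ih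
      simp only [List.cons_append] at this ⊢
      rw [chg_cons2, chg_cons2]; omega

lemma le_chg_append (u v : List Bool) : chg u + chg v ≤ chg (u ++ v) := by
  induction u with
  | nil => simp
  | cons a u ih =>
    cases u with
    | nil => simpa using le_chg_cons a v
    | cons b u =>
      have : chg (b :: u) + chg v ≤ chg (b :: u ++ v) := ih
      simp only [List.cons_append] at this ⊢
      rw [chg_cons2, chg_cons2]; omega

lemma chg_le_length (w : List Bool) : chg w ≤ w.length := by
  induction w with
  | nil => simp
  | cons a w ih => have := chg_cons_le a w; simp; omega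

lemma chg_snoc2 (t : List Bool) (b a : Bool) :
    chg (t ++ [b, a]) = chg (t ++ [b]) + (if a = b then 0 else 1) := by
  induction t with
  | nil => cases a <;> cases b <;> simp [chg]
  | cons c t ih =>
    cases t with
    | nil => cases a <;> cases b <;> cases c <;> simp [chg]
    | cons d t =>
      simp only [List.cons_append] at ih ⊢
      rw [chg_cons2, chg_cons2, ih]; omega

lemma chg_reverse (w : List Bool) : chg w.reverse = chg w := by
  induction w with
  | nil => simp
  | cons a w ih =>
    cases w with
    | nil => simp
    | cons b w =>
      have h1 : (a :: b :: w).reverse = w.reverse ++ [b, a] := by simp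
      have h2 : (b :: w).reverse = w.reverse ++ [b] := by simp
      rw [h1, chg_snoc2, ← h2, ih, chg_cons2]; omega

lemma chg_map_not (w : List Bool) : chg (w.map not) = chg w := by
  induction w with
  | nil => simp
  | cons a w ih =>
    cases w with
    | nil => simp
    | cons b w =>
      simp only [List.map_cons] at ih ⊢
      rw [chg_cons2, chg_cons2, ih]; cases a <;> cases b <;> simp

lemma chg_replicate (n : ℕ) (b : Bool) : chg (List.replicate n b) = 0 := by
  induction n with
  | zero => simp
  | succ n ih =>
    cases n with
    | zero => simp
    | succ n =>
      simp only [List.replicate_succ] at ih ⊢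
      rw [chg_cons2, ih]; simp

lemma exists_suffix_chg (w : List Bool) (i : ℕ) (h : i ≤ chg w) :
    ∃ t v, w = t ++ v ∧ chg v = i := by
  induction w with
  | nil => exact ⟨[], [], rfl, by simpa using h.antisymm (Nat.zero_le _) |>.symm⟩
  | cons a w ih =>
    by_cases h2 : i ≤ chg w
    · obtain ⟨t, v, rfl, hv⟩ := ih h2
      exact ⟨a :: t, v, rfl, hv⟩
    · have := chg_cons_le a w
      exact ⟨[], a :: w, rfl, by omega⟩

lemma exists_split_suffix (w : List Bool) (i j : ℕ) (h : i + j + 1 ≤ chg w) :
    ∃ t v, w = t ++ v ∧ chg v = i ∧ j ≤ chg t := by
  obtain ⟨t, v, rfl, hv⟩ := exists_suffix_chg w i (by omega)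
  have := chg_append_le t v
  exact ⟨t, v, rfl, hv, by omega⟩

lemma exists_split_front (w : List Bool) (i j : ℕ) (h : i + j + 1 ≤ chg w) :
    ∃ u t, w = u ++ t ∧ chg u = i ∧ j ≤ chg t := by
  obtain ⟨t, v, h1, hv, ht⟩ := exists_split_suffix w.reverse i j (by rwa [chg_reverse])
  refine ⟨v.reverse, t.reverse, ?_, by rwa [chg_reverse], by rwa [chg_reverse]⟩
  have := congrArg List.reverse h1
  simpa using this

lemma exists_pair (w : List Bool) (h : 1 ≤ chg w) :
    ∃ t b v, w = t ++ [b, !b] ++ v := by
  induction w with
  | nil => simp at h
  | cons a w ih =>
    cases w with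
    | nil => simp at h
    | cons b w =>
      by_cases hab : a = b
      · rw [chg_cons2, if_pos hab] at h
        obtain ⟨t, c, v, h1⟩ := ih (by omega)
        exact ⟨a :: t, c, v, by rw [h1]; simp⟩
      · refine ⟨[], a, w, ?_⟩
        cases a <;> cases b <;> simp_all

lemma exists_ft_aux (j : ℕ) (w : List Bool) (h : j + 1 ≤ chg (false :: w)) :
    ∃ t v, false :: w = t ++ [false, true] ++ v ∧ j ≤ chg (true :: v) := by
  induction w with
  | nil => simp at h
  | cons c w ih =>
    cases c with
    | true =>
      rw [chg_cons2] at h
      exact ⟨[], w, rfl, by simp at h; omega⟩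
    | false =>
      rw [chg_cons2] at h
      obtain ⟨t, v, h1, h2⟩ := ih (by simpa using h)
      exact ⟨false :: t, v, by rw [h1]; simp, h2⟩

lemma exists_ft (j : ℕ) (w : List Bool) (h : j + 2 ≤ chg w) :
    ∃ t v, w = t ++ [false, true] ++ v ∧ j ≤ chg (true :: v) := by
  induction w with
  | nil => simp at h
  | cons a w ih =>
    cases a with
    | false => exact exists_ft_aux j w (by omega)
    | true =>
      cases w with
      | nil => simp at h
      | cons b w =>
        rw [chg_cons2] at h
        cases b with
        | true =>
          obtain ⟨t, v, h1, h2⟩ := ih (by simpa using h)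
          exact ⟨true :: t, v, by rw [h1]; simp, h2⟩
        | false =>
          obtain ⟨t, v, h1, h2⟩ := exists_ft_aux j w (by simp at h; omega)
          exact ⟨true :: t, v, by rw [h1]; simp, h2⟩

lemma exists_false (v : List Bool) (h : 1 ≤ chg (true :: v)) :
    ∃ x y, v = x ++ [false] ++ y := by
  induction v with
  | nil => simp at h
  | cons c v ih =>
    cases c with
    | false => exact ⟨[], v, rfl⟩
    | true =>
      rw [chg_cons2] at h
      obtain ⟨x, y, h1⟩ := ih (by simpa using h)
      exact ⟨true :: x, y, by rw [h1]; simp⟩

/-- A word with three changes contains two letters `A` separated by a `B`. -/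
lemma exists_AWA (w : List Bool) (h : 3 ≤ chg w) :
    ∃ u W v, w = u ++ [false] ++ W ++ [false] ++ v ∧ 1 ≤ W.count true := by
  obtain ⟨t, v, h1, h2⟩ := exists_ft 1 w h
  obtain ⟨x, y, h3⟩ := exists_false v h2
  exact ⟨t, true :: x, y, by rw [h1, h3]; simp, by simp⟩

lemma rep_comm (n : ℕ) (a : Bool) : [a] ++ List.replicate n a = List.replicate n a ++ [a] := by
  rw [← List.replicate_succ', List.singleton_append, ← List.replicate_succ]

/-- Words that are a concatenation of at most `R` runs, each of length at most `k`. -/
def runs : ℕ → ℕ → Finset (List Bool)
  | 0, _ => {[]}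
  | R + 1, k => ((Finset.univ : Finset Bool) ×ˢ (Finset.range (k + 1)) ×ˢ runs R k).image
      (fun z => List.replicate z.2.1 z.1 ++ z.2.2)

lemma card_runs (R k : ℕ) : (runs R k).card ≤ (2 * (k + 1)) ^ R := by
  induction R with
  | zero => simp [runs]
  | succ R ih =>
    refine Finset.card_image_le.trans ?_
    simp only [Finset.card_product, Finset.card_univ, Fintype.card_bool, Finset.card_range]
    calc 2 * ((k + 1) * (runs R k).card) ≤ 2 * ((k + 1) * (2 * (k + 1)) ^ R) := by gcongr
      _ = (2 * (k + 1)) ^ (R + 1) := by ring

lemma mem_runs_succ {R k : ℕ} {w : List Bool} (b : Bool) (n : ℕ) (hn : n ≤ k)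
    (hw : w ∈ runs R k) : List.replicate n b ++ w ∈ runs (R + 1) k := by
  simp only [runs, Finset.mem_image]
  exact ⟨(b, n, w), by simp [hw]; omega, rfl⟩

lemma nil_mem_runs (R k : ℕ) : [] ∈ runs R k := by
  induction R with
  | zero => simp [runs]
  | succ R ih => simpa using mem_runs_succ true 0 (Nat.zero_le k) ih

lemma exists_run (a : Bool) (w : List Bool) :
    ∃ n t, a :: w = List.replicate n a ++ t ∧ 1 ≤ n ∧ (t = [] ∨ chg t + 1 ≤ chg (a :: w)) := by
  induction w with
  | nil => exact ⟨1, [], rfl, le_rfl, Or.inl rfl⟩
  | cons b w ih =>
    by_cases hab : a = b
    · subst hab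
      obtain ⟨n, t, h1, h2, h3⟩ := ih
      refine ⟨n + 1, t, by rw [h1]; simp [List.replicate_succ], by omega, ?_⟩
      rcases h3 with h3 | h3
      · exact Or.inl h3
      · right; rw [chg_cons2]; omega
    · exact ⟨1, b :: w, rfl, le_rfl, Or.inr (by rw [chg_cons2, if_neg hab]; omega)⟩

lemma mem_runs (R k : ℕ) (w : List Bool) (h : chg w ≤ R) (hk : w.length ≤ k) :
    w ∈ runs (R + 1) k := by
  induction R generalizing w with
  | zero =>
    cases w with
    | nil => exact nil_mem_runs _ _
    | cons a w =>
      obtain ⟨n, t, h1, _, h3⟩ := exists_run a w
      have ht : t = [] := by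
        rcases h3 with h3 | h3
        · exact h3
        · omega
      subst ht
      have hl := congrArg List.length h1
      rw [h1]
      exact mem_runs_succ a n (by simp at hl hk; omega) (nil_mem_runs _ _)
  | succ R ih =>
    cases w with
    | nil => exact nil_mem_runs _ _
    | cons a w =>
      obtain ⟨n, t, h1, _, h3⟩ := exists_run a w
      have hl := congrArg List.length h1
      rw [h1]
      refine mem_runs_succ a n (by simp at hl hk; omega) ?_
      rcases h3 with h3 | h3
      · subst h3; exact nil_mem_runs _ _
      · exact ih t (by omega) (by simp at hl hk; omega)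

/-- Number of pairs (false before true). -/
def phi : List Bool → ℕ
  | [] => 0
  | true :: w => phi w
  | false :: w => w.count true + phi w

lemma phi_append (u v : List Bool) :
    phi (u ++ v) = phi u + phi v + u.count false * v.count true := by
  induction u with
  | nil => simp [phi]
  | cons a u ih =>
    cases a with
    | true => simp [phi, ih]
    | false => simp [phi, ih]; ring

lemma count_add_count (w : List Bool) : w.count false + w.count true = w.length := by
  induction w with
  | nil => simp
  | cons a w ih => cases a <;> simp <;> omega

lemma phi_le (w : List Bool) : phi w ≤ w.length ^ 2 := by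
  induction w with
  | nil => simp [phi]
  | cons a w ih =>
    have := count_add_count w
    cases a with
    | true => simp only [phi, List.length_cons]; nlinarith
    | false => simp only [phi, List.length_cons]; nlinarith

/-- One swap: `u A B v` is above `u B A v` (`A` is false, `B` is true). -/
def Sw1 (w w' : List Bool) : Prop := ∃ u v, w = u ++ [false, true] ++ v ∧ w' = u ++ [true, false] ++ v

/-- The swap order. -/
def Sw (w w' : List Bool) : Prop := Relation.ReflTransGen Sw1 w w'

lemma Sw.refl (w : List Bool) : Sw w w := Relation.ReflTransGen.refl

lemma Sw.trans {a b c : List Bool} (h : Sw a b) (h' : Sw b c) : Sw a c :=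
  Relation.ReflTransGen.trans h h'

lemma Sw.ctx {w w' : List Bool} (h : Sw w w') (u v : List Bool) :
    Sw (u ++ w ++ v) (u ++ w' ++ v) := by
  induction h with
  | refl => exact Sw.refl _
  | tail _ h2 ih =>
    obtain ⟨x, y, rfl, rfl⟩ := h2
    exact Relation.ReflTransGen.tail ih ⟨u ++ x, y ++ v, by simp, by simp⟩

lemma Sw.app {a a' b b' : List Bool} (h : Sw a a') (h' : Sw b b') : Sw (a ++ b) (a' ++ b') := by
  have h1 := h.ctx [] b
  have h2 := h'.ctx a' []
  simp only [List.nil_append, List.append_nil] at h1 h2
  exact h1.trans h2

lemma Sw.perm {w w' : List Bool} (h : Sw w w') : w.Perm w' := by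
  induction h with
  | refl => exact List.Perm.refl _
  | tail _ h2 ih =>
    obtain ⟨x, y, rfl, rfl⟩ := h2
    exact ih.trans (((List.Perm.swap true false []).append_left x).append_right y)

lemma Sw.phi_lt {w w' : List Bool} (h : Sw w w') : w = w' ∨ phi w' < phi w := by
  induction h with
  | refl => exact Or.inl rfl
  | tail _ h2 ih =>
    obtain ⟨x, y, rfl, rfl⟩ := h2
    right
    have : phi (x ++ [true, false] ++ y) < phi (x ++ [false, true] ++ y) := by
      simp [phi_append, phi]
    rcases ih with ih | ih
    · rw [ih]; exact this
    · exact this.trans ih

lemma sw_A_B (n : ℕ) : Sw (List.replicate n false ++ [true]) (true :: List.replicate n false) := by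
  induction n with
  | zero => exact Sw.refl _
  | succ n ih =>
    have h1 := ih.ctx [false] []
    simp only [List.append_nil, List.singleton_append] at h1
    have h2 : Sw (false :: true :: List.replicate n false) (true :: false :: List.replicate n false) :=
      Relation.ReflTransGen.single ⟨[], List.replicate n false, rfl, rfl⟩
    simpa [List.replicate_succ] using h1.trans h2

lemma sw_A_Bn (n : ℕ) : Sw (false :: List.replicate n true) (List.replicate n true ++ [false]) := by
  induction n with
  | zero => exact Sw.refl _
  | succ n ih =>
    have h1 := ih.ctx [true] []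
    simp only [List.append_nil, List.singleton_append] at h1
    have h2 : Sw (false :: true :: List.replicate n true) (true :: false :: List.replicate n true) :=
      Relation.ReflTransGen.single ⟨[], List.replicate n true, rfl, rfl⟩
    simpa [List.replicate_succ] using h2.trans h1

lemma seg_aux (t : List Bool) : ∀ (t' s s' : List Bool) (d : ℕ), t.length = t'.length →
    t.count true = t'.count true + d →
    Sw (s ++ List.replicate d true) (s' ++ List.replicate d false) →
    ∃ y z y' z', t = y ++ z ∧ t' = y' ++ z' ∧ Sw (s ++ y) (s' ++ y') ∧
      z.length = z'.length ∧ z.count true = z'.count true := by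
  induction t with
  | nil =>
    intro t' s s' d hl hc h
    have ht' : t' = [] := List.length_eq_zero_iff.mp hl.symm
    subst ht'
    have : d = 0 := by simpa using hc.symm
    subst this
    exact ⟨[], [], [], [], rfl, rfl, by simpa using h, rfl, rfl⟩
  | cons a t ih =>
    intro t' s s' d hl hc h
    cases d with
    | zero => exact ⟨[], a :: t, [], t', rfl, rfl, by simpa using h, hl, by simpa using hc⟩
    | succ d =>
      cases t' with
      | nil => simp at hl
      | cons a' t' =>
        have hl' : t.length = t'.length := by simpa using hl
        have key : ∀ e : ℕ, t.count true = t'.count true + e →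
            Sw ((s ++ [a]) ++ List.replicate e true) ((s' ++ [a']) ++ List.replicate e false) →
            ∃ y z y' z', a :: t = y ++ z ∧ a' :: t' = y' ++ z' ∧ Sw (s ++ y) (s' ++ y') ∧
              z.length = z'.length ∧ z.count true = z'.count true := by
          intro e he hs
          obtain ⟨y, z, y', z', h1, h2, h3, h4, h5⟩ := ih t' (s ++ [a]) (s' ++ [a']) e hl' he hs
          exact ⟨a :: y, z, a' :: y', z', by rw [h1]; rfl, by rw [h2]; rfl,
            by simpa using h3, h4, h5⟩
        cases a with
        | true =>
          cases a' with
          | false =>
            refine key d (by simp at hc; omega) ?_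
            simpa [List.replicate_succ] using h
          | true =>
            refine key (d + 1) (by simp at hc; omega) ?_
            have h1 := h.app (Sw.refl [true])
            have h2 := (sw_A_B (d + 1)).ctx s' []
            simp only [List.append_nil] at h2
            have e1 : s ++ [true] ++ List.replicate (d + 1) true
                = s ++ List.replicate (d + 1) true ++ [true] := by
              rw [List.append_assoc, rep_comm, List.append_assoc]
            rw [e1]
            refine h1.trans ?_
            simpa using h2
        | false =>
          cases a' with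
          | false =>
            refine key (d + 1) (by simp at hc; omega) ?_
            have h1 := (sw_A_Bn (d + 1)).ctx s []
            have h2 := h.app (Sw.refl [false])
            simp only [List.append_nil] at h1
            have e1 : s' ++ [false] ++ List.replicate (d + 1) false
                = s' ++ List.replicate (d + 1) false ++ [false] := by
              rw [List.append_assoc, rep_comm, List.append_assoc]
            rw [e1]
            refine Sw.trans ?_ h2
            simpa using h1
          | true =>
            refine key (d + 2) (by simp at hc; omega) ?_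
            have h1 := (sw_A_Bn (d + 1)).ctx s [true]
            have h2 := h.app (Sw.refl [false, true])
            have h3 := (sw_A_B (d + 2)).ctx s' []
            simp only [List.append_nil] at h3
            have e1 : s ++ [false] ++ List.replicate (d + 2) true
                = s ++ false :: List.replicate (d + 1) true ++ [true] := by
              simp [List.replicate_succ' (n := d + 1)]
            have e2 : s ++ (List.replicate (d + 1) true ++ [false]) ++ [true]
                = s ++ List.replicate (d + 1) true ++ [false, true] := by simp
            have e3 : s' ++ List.replicate (d + 1) false ++ [false, true]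
                = s' ++ (List.replicate (d + 2) false ++ [true]) := by
              simp [List.replicate_succ' (n := d + 1)]
            rw [e1]
            rw [e2] at h1
            rw [e3] at h2
            refine (h1.trans h2).trans ?_
            simpa using h3

/-- Two nonempty words with equal length and letter count start with comparable segments. -/
lemma seg (w w' : List Bool) (hl : w.length = w'.length) (hc : w.count true = w'.count true)
    (hne : w ≠ []) :
    ∃ s z s' z', w = s ++ z ∧ w' = s' ++ z' ∧ (Sw s s' ∨ Sw s' s) ∧ z.length < w.length ∧
      z.length = z'.length ∧ z.count true = z'.count true := by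
  cases w with
  | nil => exact absurd rfl hne
  | cons a t =>
    cases w' with
    | nil => simp at hl
    | cons a' t' =>
      have hl' : t.length = t'.length := by simpa using hl
      by_cases h : a = a'
      · subst h
        refine ⟨[a], t, [a], t', rfl, rfl, Or.inl (Sw.refl _), by simp, hl', ?_⟩
        cases a <;> simpa using hc
      · have h0 : Sw ([false] ++ List.replicate 1 true) ([true] ++ List.replicate 1 false) :=
          Relation.ReflTransGen.single ⟨[], [], rfl, rfl⟩
        cases a with
        | false =>
          have : a' = true := by cases a' <;> simp_all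
          subst this
          obtain ⟨y, z, y', z', h1, h2, h3, h4, h5⟩ :=
            seg_aux t t' [false] [true] 1 hl' (by simpa using hc) h0
          refine ⟨false :: y, z, true :: y', z', by rw [h1]; rfl, by rw [h2]; rfl,
            Or.inl h3, ?_, h4, h5⟩
          rw [h1]; simp
        | true =>
          have : a' = false := by cases a' <;> simp_all
          subst this
          obtain ⟨y, z, y', z', h1, h2, h3, h4, h5⟩ :=
            seg_aux t' t [false] [true] 1 hl'.symm (by simpa using hc.symm) h0
          refine ⟨true :: y', z', false :: y, z, by rw [h2]; rfl, by rw [h1]; rfl,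
            Or.inr h3, ?_, h4.symm, h5.symm⟩
          rw [h2]; simp

end Pool.Agent.Lib.MP_34a884_an
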