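import Mathlib
import Pool.Agent.Lib.MP_34a884_an.Words

/-! The normal form `A = [[l,p],[0,m]]`, `B = [[n,0],[r,q]]` and its basic algebra. -/

namespace Pool.Agent.Lib.MP_34a884_an

/-- Parameters of the normal form. -/
structure Par where
  l : ℝ
  m : ℝ
  n : ℝ
  q : ℝ
  p : ℝ
  r : ℝ

/-- All parameters are positive. -/
structure Par.Pos (P : Par) : Prop where
  hl : 0 < P.l
  hm : 0 < P.m
  hn : 0 < P.n
  hq : 0 < P.q
  hp : 0 < P.p
  hr : 0 < P.r

/-- The fixed coordinate axes are attracting. -/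
structure Par.Ord (P : Par) : Prop where
  hA : P.m ≤ P.l
  hB : P.n ≤ P.q

/-- One letter (`false` is `A`, `true` is `B`). -/
def stp (P : Par) : Bool → ℝ × ℝ → ℝ × ℝ
  | true, x => (P.n * x.1, P.r * x.1 + P.q * x.2)
  | false, x => (P.l * x.1 + P.p * x.2, P.m * x.2)

/-- Action of a word, the rightmost letter acts first. -/
def act (P : Par) : List Bool → ℝ × ℝ → ℝ × ℝ
  | [], x => x
  | b :: w, x => stp P b (act P w x)

/-- The dual system. -/
def Par.dual (P : Par) : Par := ⟨P.l, P.m, P.n, P.q, P.r, P.p⟩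
/-- The system in the coordinates `xi`. -/
def Par.til (P : Par) : Par := ⟨P.m, P.l, P.q, P.n, P.r, P.p⟩
/-- The system with coordinates and letters exchanged. -/
def Par.sw (P : Par) : Par := ⟨P.q, P.n, P.m, P.l, P.r, P.p⟩

/-- The two leading left eigenvectors evaluated at `x`. -/
def xi (P : Par) (x : ℝ × ℝ) : ℝ × ℝ :=
  (P.r * x.1 + (P.q - P.n) * x.2, (P.l - P.m) * x.1 + P.p * x.2)

/-- The pairing `g^T L x`. -/
def pr (P : Par) (g x : ℝ × ℝ) : ℝ := g.1 * (xi P x).2 + g.2 * (xi P x).1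

/-- The determinant of `L`. -/
def Par.dL (P : Par) : ℝ := (P.l - P.m) * (P.q - P.n) - P.p * P.r

/-- Determinant of two vectors. -/
def dt (x y : ℝ × ℝ) : ℝ := x.1 * y.2 - x.2 * y.1

/-- Determinant of a word. -/
def dw (P : Par) : List Bool → ℝ
  | [] => 1
  | true :: w => P.n * P.q * dw P w
  | false :: w => P.l * P.m * dw P w

/-- Nonnegative vectors. -/
def NN (x : ℝ × ℝ) : Prop := 0 ≤ x.1 ∧ 0 ≤ x.2
/-- Positive vectors. -/
def PP (x : ℝ × ℝ) : Prop := 0 < x.1 ∧ 0 < x.2

lemma PP.nn {x : ℝ × ℝ} (h : PP x) : NN x := ⟨h.1.le, h.2.le⟩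

lemma Par.Pos.dual {P : Par} (h : P.Pos) : P.dual.Pos := ⟨h.hl, h.hm, h.hn, h.hq, h.hr, h.hp⟩
lemma Par.Pos.til {P : Par} (h : P.Pos) : P.til.Pos := ⟨h.hm, h.hl, h.hq, h.hn, h.hr, h.hp⟩
lemma Par.Pos.sw {P : Par} (h : P.Pos) : P.sw.Pos := ⟨h.hq, h.hn, h.hm, h.hl, h.hr, h.hp⟩
lemma Par.Ord.dual {P : Par} (h : P.Ord) : P.dual.Ord := ⟨h.hA, h.hB⟩
lemma Par.Ord.sw {P : Par} (h : P.Ord) : P.sw.Ord := ⟨h.hB, h.hA⟩
lemma Par.dL_dual (P : Par) : P.dual.dL = P.dL := by simp [Par.dL, Par.dual]; ring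
lemma Par.dL_sw (P : Par) : P.sw.dL = P.dL := by simp [Par.dL, Par.sw]; ring
lemma Par.dual_dual (P : Par) : P.dual.dual = P := rfl

variable {P : Par}

@[simp] lemma act_nil (x : ℝ × ℝ) : act P [] x = x := rfl
@[simp] lemma act_cons (b : Bool) (w : List Bool) (x : ℝ × ℝ) :
    act P (b :: w) x = stp P b (act P w x) := rfl

lemma act_append (u v : List Bool) (x : ℝ × ℝ) : act P (u ++ v) x = act P u (act P v x) := by
  induction u with
  | nil => rfl
  | cons b u ih => simp [ih]

lemma stp_lin (b : Bool) (s t : ℝ) (x y : ℝ × ℝ) :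
    stp P b (s • x + t • y) = s • stp P b x + t • stp P b y := by
  cases b <;> simp only [stp] <;> ext <;> simp <;> ring

lemma act_lin (w : List Bool) (s t : ℝ) (x y : ℝ × ℝ) :
    act P w (s • x + t • y) = s • act P w x + t • act P w y := by
  induction w with
  | nil => rfl
  | cons b w ih => simp [ih, stp_lin]

lemma act_smul (w : List Bool) (s : ℝ) (x : ℝ × ℝ) : act P w (s • x) = s • act P w x := by
  simpa using act_lin (P := P) w s 0 x 0

lemma act_neg (w : List Bool) (x : ℝ × ℝ) : act P w (-x) = -act P w x := by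
  simpa using act_smul (P := P) w (-1) x

lemma act_coord (w : List Bool) (x : ℝ × ℝ) :
    act P w x = x.1 • act P w (1, 0) + x.2 • act P w (0, 1) := by
  rw [← act_lin]; congr 1; ext <;> simp

lemma act_fst (w : List Bool) (x : ℝ × ℝ) :
    (act P w x).1 = x.1 * (act P w (1, 0)).1 + x.2 * (act P w (0, 1)).1 := by
  rw [act_coord]; simp

lemma act_snd (w : List Bool) (x : ℝ × ℝ) :
    (act P w x).2 = x.1 * (act P w (1, 0)).2 + x.2 * (act P w (0, 1)).2 := by
  rw [act_coord]; simp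

lemma stp_nn (h : P.Pos) (b : Bool) {x : ℝ × ℝ} (hx : NN x) : NN (stp P b x) := by
  obtain ⟨h1, h2⟩ := hx
  obtain ⟨hl, hm, hn, hq, hp, hr⟩ := h
  cases b <;> simp only [stp, NN] <;> constructor <;> positivity

lemma act_nn (h : P.Pos) (w : List Bool) {x : ℝ × ℝ} (hx : NN x) : NN (act P w x) := by
  induction w with
  | nil => exact hx
  | cons b w ih => exact stp_nn h b ih

lemma stp_pp (h : P.Pos) (b : Bool) {x : ℝ × ℝ} (hx : PP x) : PP (stp P b x) := by
  obtain ⟨h1, h2⟩ := hx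
  obtain ⟨hl, hm, hn, hq, hp, hr⟩ := h
  cases b <;> simp only [stp, PP] <;> constructor <;> positivity

lemma act_pp (h : P.Pos) (w : List Bool) {x : ℝ × ℝ} (hx : PP x) : PP (act P w x) := by
  induction w with
  | nil => exact hx
  | cons b w ih => exact stp_pp h b ih

lemma nn_e1 : NN (1, 0) := ⟨by norm_num, by norm_num⟩
lemma nn_e2 : NN (0, 1) := ⟨by norm_num, by norm_num⟩
lemma pp_one : PP (1, 1) := ⟨by norm_num, by norm_num⟩

lemma act_e1_pos (h : P.Pos) (w : List Bool) : 0 < (act P w (1, 0)).1 := by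
  induction w with
  | nil => simp
  | cons b w ih =>
    have h2 := (act_nn h w nn_e1).2
    obtain ⟨hl, hm, hn, hq, hp, hr⟩ := h
    cases b <;> simp only [act_cons, stp] <;> positivity

lemma act_e2_pos (h : P.Pos) (w : List Bool) : 0 < (act P w (0, 1)).2 := by
  induction w with
  | nil => simp
  | cons b w ih =>
    have h2 := (act_nn h w nn_e2).1
    obtain ⟨hl, hm, hn, hq, hp, hr⟩ := h
    cases b <;> simp only [act_cons, stp] <;> positivity

lemma dt_act (w : List Bool) (x y : ℝ × ℝ) :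
    dt (act P w x) (act P w y) = dw P w * dt x y := by
  induction w with
  | nil => simp [dw]
  | cons b w ih =>
    simp only [dt] at ih
    cases b
    · simp only [act_cons, stp, dw, dt]; linear_combination (P.l * P.m) * ih
    · simp only [act_cons, stp, dw, dt]; linear_combination (P.n * P.q) * ih

lemma dw_pos (h : P.Pos) (w : List Bool) : 0 < dw P w := by
  obtain ⟨hl, hm, hn, hq, hp, hr⟩ := h
  induction w with
  | nil => simp [dw]
  | cons b w ih => cases b <;> simp only [dw] <;> positivity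

lemma dw_append (u v : List Bool) : dw P (u ++ v) = dw P u * dw P v := by
  induction u with
  | nil => simp [dw]
  | cons b u ih => cases b <;> simp [dw, ih] <;> ring

lemma dw_eq (w : List Bool) : dw P w = (act P w (1, 0)).1 * (act P w (0, 1)).2
    - (act P w (1, 0)).2 * (act P w (0, 1)).1 := by
  have := dt_act (P := P) w (1, 0) (0, 1)
  simp [dt] at this; linarith

lemma act_ne_zero (h : P.Pos) (w : List Bool) {x : ℝ × ℝ} (hx : x ≠ 0) : act P w x ≠ 0 := by
  intro h0
  have h1 := dt_act (P := P) w x (1, 0)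
  have h2 := dt_act (P := P) w x (0, 1)
  rw [h0] at h1 h2
  have hd := (dw_pos h w).ne'
  simp [dt, hd] at h1 h2
  exact hx (Prod.ext h2 h1)

lemma act_inj (h : P.Pos) (w : List Bool) {x y : ℝ × ℝ} (hxy : act P w x = act P w y) :
    x = y := by
  by_contra hne
  have h1 : x - y ≠ 0 := sub_ne_zero.mpr hne
  apply act_ne_zero h w h1
  have := act_lin (P := P) w 1 (-1) x y
  simp only [one_smul, neg_smul, ← sub_eq_add_neg] at this
  rw [this, hxy, sub_self]

lemma xi_stp (b : Bool) (x : ℝ × ℝ) : xi P (stp P b x) = stp P.til b (xi P x) := by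
  cases b <;> simp only [xi, stp, Par.til] <;> ext <;> simp <;> ring

lemma xi_act (w : List Bool) (x : ℝ × ℝ) : xi P (act P w x) = act P.til w (xi P x) := by
  induction w with
  | nil => rfl
  | cons b w ih => simp [xi_stp, ih]

lemma xi_neg (x : ℝ × ℝ) : xi P (-x) = -xi P x := by
  simp only [xi]; ext <;> simp <;> ring

lemma xi_smul (s : ℝ) (x : ℝ × ℝ) : xi P (s • x) = s • xi P x := by
  simp only [xi]; ext <;> simp <;> ring

lemma pr_stp (b : Bool) (g x : ℝ × ℝ) : pr P g (stp P b x) = pr P (stp P.dual b g) x := by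
  cases b <;> simp only [pr, xi, stp, Par.dual] <;> ring

lemma pr_act (w : List Bool) (g x : ℝ × ℝ) :
    pr P g (act P w x) = pr P (act P.dual w.reverse g) x := by
  induction w generalizing g with
  | nil => rfl
  | cons b w ih => simp [pr_stp, ih, act_append]

lemma pr_dual (g x : ℝ × ℝ) : pr P.dual x g = pr P g x := by
  simp only [pr, xi, Par.dual]; ring

lemma pr_smul_left (s : ℝ) (g x : ℝ × ℝ) : pr P (s • g) x = s * pr P g x := by
  simp [pr]; ring

lemma pr_smul_right (s : ℝ) (g x : ℝ × ℝ) : pr P g (s • x) = s * pr P g x := by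
  simp [pr, xi]; ring

lemma xi_pp (h : P.Pos) (ho : P.Ord) {x : ℝ × ℝ} (hx : PP x) : PP (xi P x) := by
  obtain ⟨h1, h2⟩ := hx
  have := sub_nonneg.mpr ho.hA
  have := sub_nonneg.mpr ho.hB
  obtain ⟨hl, hm, hn, hq, hp, hr⟩ := h
  simp only [xi, PP]; constructor <;> positivity

lemma xi_nn (h : P.Pos) (ho : P.Ord) {x : ℝ × ℝ} (hx : NN x) : NN (xi P x) := by
  obtain ⟨h1, h2⟩ := hx
  have := sub_nonneg.mpr ho.hA
  have := sub_nonneg.mpr ho.hB
  obtain ⟨hl, hm, hn, hq, hp, hr⟩ := h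
  simp only [xi, NN]; constructor <;> positivity

lemma pr_pos (h : P.Pos) (ho : P.Ord) {g x : ℝ × ℝ} (hg : PP g) (hx : PP x) : 0 < pr P g x := by
  obtain ⟨h1, h2⟩ := xi_pp h ho hx
  obtain ⟨h3, h4⟩ := hg
  simp only [pr]; positivity

lemma plucker (g g' x x' : ℝ × ℝ) :
    pr P g x * pr P g' x' - pr P g x' * pr P g' x = P.dL * (dt g g' * dt x x') := by
  simp only [pr, xi, dt, Par.dL]; ring

lemma stp_sw (b : Bool) (x : ℝ × ℝ) : stp P.sw (!b) x.swap = (stp P b x).swap := by
  cases b <;> simp only [stp, Par.sw, Bool.not_false, Bool.not_true] <;> ext <;> simp <;> ring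

lemma act_sw (w : List Bool) (x : ℝ × ℝ) :
    act P.sw (w.map not) x.swap = (act P w x).swap := by
  induction w with
  | nil => rfl
  | cons b w ih => simp only [List.map_cons, act_cons, ih]; exact stp_sw b _

lemma xi_sw (x : ℝ × ℝ) : xi P.sw x.swap = (xi P x).swap := by
  simp only [xi, Par.sw]; ext <;> simp <;> ring

/-- A nonzero nonnegative vector becomes positive after one change. -/
lemma act_pp_of_chg (h : P.Pos) (w : List Bool) (hw : 1 ≤ chg w) {x : ℝ × ℝ} (hx : NN x)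
    (h0 : x ≠ 0) : PP (act P w x) := by
  obtain ⟨t, b, v, rfl⟩ := exists_pair w hw
  rw [act_append, act_append]
  apply act_pp h
  have hy := act_nn h v hx
  have hy0 := act_ne_zero h v h0
  generalize act P v x = y at hy hy0
  obtain ⟨h1, h2⟩ := hy
  have hs : 0 < y.1 ∨ 0 < y.2 := by
    by_contra hc
    push Not at hc
    exact hy0 (Prod.ext (le_antisymm hc.1 h1) (le_antisymm hc.2 h2))
  obtain ⟨hl, hm, hn, hq, hp, hr⟩ := h
  cases b <;> simp only [act_cons, act_nil, stp, PP, Bool.not_false, Bool.not_true] <;>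
    rcases hs with hs | hs <;> constructor <;> positivity

/-- Birkhoff-type contraction. -/
def Th (P : Par) (θ : ℝ) (w : List Bool) : Prop :=
  dw P w ≤ θ * ((act P w (1, 0)).1 * (act P w (0, 1)).2)

lemma th_one (h : P.Pos) (w : List Bool) : Th P 1 w := by
  have h1 := (act_nn h w nn_e1).2
  have h2 := (act_nn h w nn_e2).1
  unfold Th; rw [dw_eq]; nlinarith [mul_nonneg h1 h2]

lemma Th.app (h : P.Pos) {θ θ' : ℝ} (h0 : 0 ≤ θ) (h0' : 0 ≤ θ') {u v : List Bool}
    (hu : Th P θ u) (hv : Th P θ' v) : Th P (θ * θ') (u ++ v) := by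
  unfold Th at *
  rw [dw_append, act_append, act_append, act_fst u (act P v (1, 0)), act_snd u (act P v (0, 1))]
  have a1 := act_e1_pos h u
  have a2 := act_e2_pos h u
  have b1 := act_e1_pos h v
  have b2 := act_e2_pos h v
  have c1 := (act_nn h u nn_e1).2
  have c2 := (act_nn h u nn_e2).1
  have d1 := (act_nn h v nn_e1).2
  have d2 := (act_nn h v nn_e2).1
  have e1 := dw_pos h u
  have e2 := dw_pos h v
  calc dw P u * dw P v ≤ (θ * ((act P u (1, 0)).1 * (act P u (0, 1)).2)) *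
        (θ' * ((act P v (1, 0)).1 * (act P v (0, 1)).2)) := by gcongr
    _ = θ * θ' * (((act P v (1, 0)).1 * (act P u (1, 0)).1) *
        ((act P v (0, 1)).2 * (act P u (0, 1)).2)) := by ring
    _ ≤ _ := by
      gcongr
      · nlinarith [mul_nonneg d1 c2]
      · nlinarith [mul_nonneg d2 c1]

lemma exists_theta (h : P.Pos) : ∃ θ : ℝ, 0 ≤ θ ∧ θ < 1 ∧
    ∀ (j : ℕ) (w : List Bool), 2 * j ≤ chg w → Th P (θ ^ j) w := by
  obtain ⟨θ, h0, h1, h2⟩ : ∃ θ : ℝ, 0 ≤ θ ∧ θ < 1 ∧ ∀ b, Th P θ [b, !b] := by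
    obtain ⟨hl, hm, hn, hq, hp, hr⟩ := h
    set a := P.l * P.n / (P.l * P.n + P.p * P.r) with ha
    set c := P.m * P.q / (P.m * P.q + P.p * P.r) with hc
    have ha1 : a < 1 := by rw [ha, div_lt_one (by positivity)]; nlinarith [mul_pos hp hr]
    have hc1 : c < 1 := by rw [hc, div_lt_one (by positivity)]; nlinarith [mul_pos hp hr]
    have ha2 : a * (P.l * P.n + P.p * P.r) = P.l * P.n := by rw [ha]; field_simp
    have hc2 : c * (P.m * P.q + P.p * P.r) = P.m * P.q := by rw [hc]; field_simp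
    refine ⟨max a c, le_max_of_le_left (by positivity), max_lt ha1 hc1, fun b => ?_⟩
    cases b
    · simp only [Th, dw, act_cons, act_nil, stp, Bool.not_false]
      have : a * ((P.l * P.n + P.p * P.r) * (P.m * P.q))
          ≤ max a c * ((P.l * P.n + P.p * P.r) * (P.m * P.q)) := by
        gcongr; exact le_max_left _ _
      rw [← mul_assoc, ha2] at this
      linarith
    · simp only [Th, dw, act_cons, act_nil, stp, Bool.not_true]
      have : c * ((P.m * P.q + P.p * P.r) * (P.l * P.n))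
          ≤ max a c * ((P.m * P.q + P.p * P.r) * (P.l * P.n)) := by
        gcongr; exact le_max_right _ _
      rw [← mul_assoc, hc2] at this
      linarith
  refine ⟨θ, h0, h1, fun j => ?_⟩
  have base : ∀ w, 1 ≤ chg w → Th P θ w := by
    intro w hw
    obtain ⟨t, b, v, rfl⟩ := exists_pair w hw
    have := Th.app h (by positivity) zero_le_one
      (Th.app h zero_le_one h0 (th_one h t) (h2 b)) (th_one h v)
    simpa using this
  induction j with
  | zero => intro w _; simpa using th_one h w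
  | succ j ih =>
    intro w hw
    obtain ⟨t, v, rfl, hv, ht⟩ := exists_split_suffix w 1 (2 * j) (by omega)
    rw [pow_succ]
    exact Th.app h (by positivity) h0 (ih t ht) (base v hv.ge)

lemma small_of_th (h : P.Pos) {θ : ℝ} {w : List Bool} (hw : Th P θ w) (y : ℝ × ℝ)
    (hz : (act P w y).1 * (act P w y).2 < 0) :
    |(act P w y).1| ≤ θ * (act P w (1, 0)).1 * |y.1| ∧
      |(act P w y).2| ≤ θ * (act P w (0, 1)).2 * |y.2| := by
  have a1 := act_e1_pos h w
  have a2 := act_e2_pos h w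
  have c1 := (act_nn h w nn_e1).2
  have c2 := (act_nn h w nn_e2).1
  have e1 := dw_pos h w
  have e2 := dw_eq (P := P) w
  have f1 := act_fst (P := P) w y
  have f2 := act_snd (P := P) w y
  unfold Th at hw
  generalize (act P w y).1 = z1 at *
  generalize (act P w y).2 = z2 at *
  generalize (act P w (1, 0)).1 = a at *
  generalize (act P w (1, 0)).2 = c at *
  generalize (act P w (0, 1)).1 = b at *
  generalize (act P w (0, 1)).2 = d at *
  generalize dw P w = D at *
  have i1 : d * z1 - b * z2 = D * y.1 := by rw [f1, f2, e2]; ring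
  have i2 : a * z2 - c * z1 = D * y.2 := by rw [f1, f2, e2]; ring
  have j1 : D * |y.1| ≤ θ * (a * d) * |y.1| := by gcongr
  have j2 : D * |y.2| ≤ θ * (a * d) * |y.2| := by gcongr
  have k1 : D * y.1 ≤ D * |y.1| := by gcongr; exact le_abs_self _
  have k2 : D * y.2 ≤ D * |y.2| := by gcongr; exact le_abs_self _
  have k3 : D * (-y.1) ≤ D * |y.1| := by gcongr; exact neg_le_abs _
  have k4 : D * (-y.2) ≤ D * |y.2| := by gcongr; exact neg_le_abs _
  rcases lt_or_gt_of_ne (show z1 ≠ 0 by rintro rfl; simp at hz) with h1 | h1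
  · have h2 : 0 < z2 := by by_contra hc; push Not at hc; nlinarith
    rw [abs_of_neg h1, abs_of_pos h2]
    constructor
    · refine le_of_mul_le_mul_left ?_ a2
      nlinarith [mul_nonneg c2 h2.le]
    · refine le_of_mul_le_mul_left ?_ a1
      nlinarith [mul_nonneg c1 (neg_nonneg.mpr h1.le)]
  · have h2 : z2 < 0 := by by_contra hc; push Not at hc; nlinarith
    rw [abs_of_pos h1, abs_of_neg h2]
    constructor
    · refine le_of_mul_le_mul_left ?_ a2
      nlinarith [mul_nonneg c2 (neg_nonneg.mpr h2.le)]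
    · refine le_of_mul_le_mul_left ?_ a1
      nlinarith [mul_nonneg c1 h1.le]

/-- Sum of the entries of the matrix of a word. -/
def sm (P : Par) (w : List Bool) : ℝ := (act P w (1, 1)).1 + (act P w (1, 1)).2

lemma sm_pos (h : P.Pos) (w : List Bool) : 0 < sm P w := by
  obtain ⟨h1, h2⟩ := act_pp h w pp_one
  unfold sm; positivity

lemma act_mono (h : P.Pos) (w : List Bool) {c : ℝ} {x : ℝ × ℝ} (h1 : c ≤ x.1) (h2 : c ≤ x.2) :
    c * (act P w (1, 1)).1 ≤ (act P w x).1 ∧ c * (act P w (1, 1)).2 ≤ (act P w x).2 := by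
  have := act_nn h w (x := (1 : ℝ) • x + (-c) • ((1, 1) : ℝ × ℝ)) ⟨by simpa using h1, by simpa using h2⟩
  rw [act_lin] at this
  obtain ⟨h3, h4⟩ := this
  simp at h3 h4
  exact ⟨by linarith, by linarith⟩

lemma act_mono' (h : P.Pos) (w : List Bool) {c : ℝ} {x : ℝ × ℝ} (h1 : x.1 ≤ c) (h2 : x.2 ≤ c) :
    (act P w x).1 ≤ c * (act P w (1, 1)).1 ∧ (act P w x).2 ≤ c * (act P w (1, 1)).2 := by
  have := act_nn h w (x := (-1 : ℝ) • x + c • ((1, 1) : ℝ × ℝ)) ⟨by simpa using h1, by simpa using h2⟩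
  rw [act_lin] at this
  obtain ⟨h3, h4⟩ := this
  simp at h3 h4
  exact ⟨by linarith, by linarith⟩

lemma act_sum_le (h : P.Pos) (w : List Bool) {x : ℝ × ℝ} (hx : NN x) :
    (act P w x).1 + (act P w x).2
      ≤ (P.l + P.m + P.n + P.q + P.p + P.r) ^ w.length * (x.1 + x.2) := by
  induction w with
  | nil => simp
  | cons b w ih =>
    obtain ⟨h1, h2⟩ := act_nn h w hx
    obtain ⟨hl, hm, hn, hq, hp, hr⟩ := h
    have : (stp P b (act P w x)).1 + (stp P b (act P w x)).2 ≤
        (P.l + P.m + P.n + P.q + P.p + P.r) * ((act P w x).1 + (act P w x).2) := by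
      cases b <;> simp only [stp] <;>
        nlinarith [mul_nonneg hl.le h1, mul_nonneg hl.le h2, mul_nonneg hm.le h1,
          mul_nonneg hm.le h2, mul_nonneg hn.le h1, mul_nonneg hn.le h2, mul_nonneg hq.le h1,
          mul_nonneg hq.le h2, mul_nonneg hp.le h1, mul_nonneg hp.le h2, mul_nonneg hr.le h1,
          mul_nonneg hr.le h2]
    rw [act_cons, List.length_cons, pow_succ]
    calc _ ≤ _ := this
      _ ≤ (P.l + P.m + P.n + P.q + P.p + P.r) *
          ((P.l + P.m + P.n + P.q + P.p + P.r) ^ w.length * (x.1 + x.2)) := by gcongr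
      _ = _ := by ring

lemma sm_three (h : P.Pos) (N : ℕ) : ∃ K : ℝ, 0 < K ∧ ∀ z1 y z2 : List Bool, z1.length = N →
    z2.length = N → sm P (z1 ++ y ++ z2) ≤ K * sm P y := by
  have hK : 0 < P.l + P.m + P.n + P.q + P.p + P.r := by
    obtain ⟨hl, hm, hn, hq, hp, hr⟩ := h; positivity
  set K0 := P.l + P.m + P.n + P.q + P.p + P.r with hK0
  refine ⟨K0 ^ N * (K0 ^ N * 2), by positivity, fun z1 y z2 h1 h2 => ?_⟩
  have a1 := act_sum_le h z2 pp_one.nn
  obtain ⟨a2, a3⟩ := act_nn h z2 pp_one.nn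
  rw [h2, ← hK0] at a1
  obtain ⟨b1, b2⟩ := act_mono' h y (c := K0 ^ N * 2) (x := act P z2 (1, 1))
    (by norm_num at a1 ⊢; linarith) (by norm_num at a1 ⊢; linarith)
  have c1 := act_sum_le h z1 (act_nn h y (act_nn h z2 pp_one.nn))
  rw [h1, ← hK0] at c1
  unfold sm
  rw [act_append, act_append]
  calc _ ≤ _ := c1
    _ ≤ K0 ^ N * (K0 ^ N * 2 * (act P y (1, 1)).1 + K0 ^ N * 2 * (act P y (1, 1)).2) := by gcongr
    _ = _ := by ring

lemma diag_le_sm (h : P.Pos) (w : List Bool) :
    (act P w (1, 0)).1 ≤ sm P w ∧ (act P w (0, 1)).2 ≤ sm P w := by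
  have a1 := act_nn h w nn_e1
  have a2 := act_nn h w nn_e2
  unfold sm
  rw [act_fst w (1, 1), act_snd w (1, 1)]
  obtain ⟨a1, a3⟩ := a1
  obtain ⟨a2, a4⟩ := a2
  constructor <;> simp <;> linarith

end Pool.Agent.Lib.MP_34a884_an
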