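import Mathlib
import Pool.Agent.Lib.MP_34a884_an.Tri

/-! Inside the positive cone: log-supermodularity on one side, merging of blocks on the other. -/

namespace Pool.Agent.Lib.MP_34a884_an

variable {P : Par}

lemma dt_trans {x y z : ℝ × ℝ} (hx : PP x) (hy : PP y) (hz : PP z) (h1 : 0 ≤ dt x y)
    (h2 : 0 ≤ dt y z) : 0 ≤ dt x z := by
  obtain ⟨x1, x2⟩ := hx
  obtain ⟨y1, y2⟩ := hy
  obtain ⟨z1, z2⟩ := hz
  unfold dt at *
  have : y.1 * (x.1 * z.2 - x.2 * z.1)
      = x.1 * (y.1 * z.2 - y.2 * z.1) + z.1 * (x.1 * y.2 - x.2 * y.1) := by ring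
  have h3 : 0 ≤ y.1 * (x.1 * z.2 - x.2 * z.1) := by rw [this]; positivity
  exact (mul_nonneg_iff_of_pos_left y1).mp h3

lemma dt_swap (x y : ℝ × ℝ) : dt x y = -dt y x := by unfold dt; ring

lemma dt_AB (h : P.Pos) (ho : P.Ord) {y : ℝ × ℝ} (hy : PP y) :
    0 ≤ dt (act P [false, true] y) (act P [true, false] y) := by
  obtain ⟨b1, b2⟩ := act_pp h [true, false] hy
  obtain ⟨c1, c2⟩ := xi_pp h ho hy
  have e1 : (act P [false, true] y).1 = (act P [true, false] y).1 + P.p * (xi P y).1 := by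
    simp only [act_cons, act_nil, stp, xi]; ring
  have e2 : (act P [false, true] y).2 = (act P [true, false] y).2 - P.r * (xi P y).2 := by
    simp only [act_cons, act_nil, stp, xi]; ring
  have hp := h.hp
  have hr := h.hr
  unfold dt
  rw [e1, e2]
  nlinarith [mul_pos (mul_pos hp c1) b2, mul_pos (mul_pos hr c2) b1]

lemma Sw.dt_nonneg (h : P.Pos) (ho : P.Ord) {s s' : List Bool} (hs : Sw s s') {y : ℝ × ℝ}
    (hy : PP y) : 0 ≤ dt (act P s y) (act P s' y) := by
  induction hs with
  | refl => unfold dt; linarith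
  | tail _ h2 ih =>
    refine dt_trans (act_pp h _ hy) (act_pp h _ hy) (act_pp h _ hy) ih ?_
    obtain ⟨u, v, rfl, rfl⟩ := h2
    simp only [act_append]
    rw [dt_act]
    exact mul_nonneg (dw_pos h u).le (dt_AB h ho (act_pp h v hy))

lemma Sw.rev {s s' : List Bool} (hs : Sw s s') : Sw s'.reverse s.reverse := by
  induction hs with
  | refl => exact Sw.refl _
  | tail _ h2 ih =>
    obtain ⟨u, v, rfl, rfl⟩ := h2
    exact Sw.trans (Relation.ReflTransGen.single ⟨v.reverse, u.reverse, by simp, by simp⟩) ih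

lemma pl_le {d d' y y' : ℝ × ℝ} (h1 : 0 ≤ dt d d') (h2 : 0 ≤ dt y y') :
    -P.dL * (pr P d' y' * pr P d y) ≤ -P.dL * (pr P d' y * pr P d y') := by
  have := plucker (P := P) d d' y y'
  have h3 : 0 ≤ P.dL * P.dL * (dt d d' * dt y y') :=
    mul_nonneg (mul_self_nonneg _) (mul_nonneg h1 h2)
  have : -P.dL * (pr P d' y * pr P d y') - -P.dL * (pr P d' y' * pr P d y)
      = P.dL * P.dL * (dt d d' * dt y y') := by linear_combination P.dL * this
  linarith

/-- Invariant of the four-vector induction. -/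
def Inv (P : Par) (x x' y y' : ℝ × ℝ) : Prop :=
  PP y ∧ PP y' ∧ 0 ≤ dt y y' ∧ ∀ d d', PP d → PP d' → 0 ≤ dt d d' →
    -P.dL * (pr P d' x' * pr P d x) ≤ -P.dL * (pr P d' y * pr P d y') ∧
    -P.dL * (pr P d' x * pr P d x') ≤ -P.dL * (pr P d' y * pr P d y')

lemma Inv.symm {x x' y y' : ℝ × ℝ} (h : Inv P x x' y y') : Inv P x' x y y' :=
  ⟨h.1, h.2.1, h.2.2.1, fun d d' a b c => (h.2.2.2 d d' a b c).symm⟩

lemma Inv.step (h : P.Pos) (ho : P.Ord) {x x' y y' : ℝ × ℝ} (hi : Inv P x x' y y')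
    {s s' : List Bool} (hs : Sw s s') :
    Inv P (act P s x) (act P s' x') (act P s y) (act P s' y') := by
  obtain ⟨py, py', hy, H⟩ := hi
  have a1 : 0 ≤ dt (act P s y) (act P s' y) := hs.dt_nonneg h ho py
  have a2 : 0 ≤ dt (act P s y) (act P s' y') := by
    refine dt_trans (act_pp h _ py) (act_pp h _ py) (act_pp h _ py') a1 ?_
    rw [dt_act]; exact mul_nonneg (dw_pos h _).le hy
  refine ⟨act_pp h _ py, act_pp h _ py', a2, fun d d' pd pd' hd => ?_⟩
  have q1 := act_pp h.dual s.reverse pd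
  have q2 := act_pp h.dual s'.reverse pd
  have q3 := act_pp h.dual s.reverse pd'
  have q4 := act_pp h.dual s'.reverse pd'
  have b1 : 0 ≤ dt (act P.dual s'.reverse d) (act P.dual s.reverse d) :=
    hs.rev.dt_nonneg h.dual ho.dual pd
  constructor
  · rcases le_total 0 (dt (act P.dual s.reverse d) (act P.dual s'.reverse d')) with c | c
    · have i0 := (H _ _ q1 q4 c).1
      rw [← pr_act, ← pr_act, ← pr_act, ← pr_act] at i0
      refine i0.trans ?_
      have i1 := pl_le (P := P) hd a1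
      have i2 := pl_le (P := P) b1 hy
      rw [← pr_act, ← pr_act, ← pr_act, ← pr_act] at i2
      have p1 := pr_pos h ho pd' (act_pp h s' py)
      have p2 := pr_pos h ho pd (act_pp h s' py)
      have p3 := pr_pos h ho pd (act_pp h s' py')
      refine le_of_mul_le_mul_left ?_ p2
      nlinarith [mul_le_mul_of_nonneg_left i1 p3.le, mul_le_mul_of_nonneg_left i2 p1.le]
    · have c' : 0 ≤ dt (act P.dual s'.reverse d') (act P.dual s.reverse d) := by
        rw [dt_swap]; linarith
      have i0 := (H _ _ q4 q1 c').2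
      rw [← pr_act, ← pr_act, ← pr_act, ← pr_act] at i0
      have i1 := pl_le (P := P) hd a2
      linarith [mul_comm (pr P d (act P s x)) (pr P d' (act P s' x')),
        mul_comm (pr P d (act P s y)) (pr P d' (act P s' y'))]
  · have c : 0 ≤ dt (act P.dual s'.reverse d) (act P.dual s.reverse d') := by
      refine dt_trans q2 q1 q3 b1 ?_
      rw [dt_act]; exact mul_nonneg (dw_pos h.dual _).le hd
    have i0 := (H _ _ q2 q3 c).2
    rwa [← pr_act, ← pr_act, ← pr_act, ← pr_act] at i0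

lemma topkis (h : P.Pos) (ho : P.Ord) {a : ℝ × ℝ} (ha : PP a) (n : ℕ) :
    ∀ w w' : List Bool, w.length = n → w.length = w'.length → w.count true = w'.count true →
      ∃ J M : List Bool, Sw J w ∧ Sw J w' ∧ M.Perm w ∧
        Inv P (act P w a) (act P w' a) (act P J a) (act P M a) := by
  induction n using Nat.strong_induction_on with
  | _ n ih =>
    intro w w' hn hl hc
    by_cases hne : w = []
    · subst hne
      have : w' = [] := List.length_eq_zero_iff.mp hl.symm
      subst this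
      exact ⟨[], [], Sw.refl _, Sw.refl _, List.Perm.refl _, ha, ha, by simp [dt, mul_comm],
        fun d d' _ _ _ => ⟨le_rfl, le_rfl⟩⟩
    obtain ⟨s, z, s', z', rfl, rfl, hs, h1, h2, h3⟩ := seg w w' hl hc hne
    obtain ⟨J, M, j1, j2, m1, hi⟩ := ih z.length (hn ▸ h1) z z' rfl h2 h3
    rcases hs with hs | hs
    · refine ⟨s ++ J, s' ++ M, (Sw.refl s).app j1, hs.app j2, hs.perm.symm.append m1, ?_⟩
      simp only [act_append]
      exact hi.step h ho hs
    · refine ⟨s' ++ J, s ++ M, hs.app j1, (Sw.refl s').app j2, (List.Perm.refl s).append m1, ?_⟩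
      simp only [act_append]
      exact (hi.symm.step h ho hs).symm

/-- `y` is optimal among its rearrangements and has the largest rank among the optimal ones. -/
def CoreMax (P : Par) (σ : ℝ) (g a : ℝ × ℝ) (y : List Bool) : Prop :=
  (∀ y', y'.Perm y → σ * pr P g (act P y' a) ≤ σ * pr P g (act P y a)) ∧
  ∀ y', y'.Perm y → σ * pr P g (act P y a) ≤ σ * pr P g (act P y' a) → phi y' ≤ phi y

lemma chain_aux (h : P.Pos) (ho : P.Ord) {σ : ℝ} (hσ : σ * P.dL < 0) {a g g' : ℝ × ℝ}
    (ha : PP a) (hg : PP g) (hg' : PP g') (hgg : 0 ≤ dt g g') {w w' : List Bool}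
    (hp : w.Perm w') (hw : CoreMax P σ g a w) (hw' : CoreMax P σ g' a w')
    (hphi : phi w = phi w') : w = w' := by
  obtain ⟨J, M, j1, j2, m1, hi⟩ := topkis h ho ha _ w w' rfl hp.length_eq (hp.count_eq _)
  have i0 := (hi.2.2.2 g g' hg hg' hgg).1
  have i1 := hw.1 M m1
  have p1 := pr_pos h ho hg (act_pp h M ha)
  have p2 := pr_pos h ho hg' (act_pp h w' ha)
  have hd : P.dL ≠ 0 := by rintro h0; rw [h0] at hσ; simp at hσ
  have hdd : 0 < P.dL * P.dL := mul_self_pos.mpr hd
  have i2 : σ * (pr P g' (act P w' a) * pr P g (act P w a))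
      ≤ σ * (pr P g' (act P J a) * pr P g (act P M a)) := by
    refine le_of_mul_le_mul_left ?_ hdd
    nlinarith [mul_le_mul_of_nonneg_left i0 (neg_nonneg.mpr hσ.le)]
  have i3 : σ * pr P g' (act P w' a) ≤ σ * pr P g' (act P J a) := by
    refine le_of_mul_le_mul_left ?_ p1
    nlinarith [mul_le_mul_of_nonneg_left i1 p2.le]
  have i4 := hw'.2 J j2.perm i3
  have e1 : J = w' := by
    rcases j2.phi_lt with e | e
    · exact e
    · omega
  subst e1
  rcases j1.phi_lt with e | e
  · exact e.symm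
  · omega

lemma chain (h : P.Pos) (ho : P.Ord) {σ : ℝ} (hσ : σ * P.dL < 0) {a g g' : ℝ × ℝ}
    (ha : PP a) (hg : PP g) (hg' : PP g') {w w' : List Bool}
    (hp : w.Perm w') (hw : CoreMax P σ g a w) (hw' : CoreMax P σ g' a w')
    (hphi : phi w = phi w') : w = w' := by
  rcases le_total 0 (dt g g') with c | c
  · exact chain_aux h ho hσ ha hg hg' c hp hw hw' hphi
  · exact (chain_aux h ho hσ ha hg' hg (by rw [dt_swap]; linarith) hp.symm hw' hw hphi.symm).symm

lemma second_diff (h : P.Pos) (ho : P.Ord) (W : List Bool) {g x : ℝ × ℝ} (hg : PP g)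
    (hx : PP x) : 0 ≤ P.dL * (pr P g (act P ([false, false] ++ W) x)
      + pr P g (act P (W ++ [false, false]) x)
      - 2 * pr P g (act P ([false] ++ W ++ [false]) x)) := by
  have k1 := pr_act (P := P) W (1, 0) (P.p, P.m - P.l)
  have k2 := (act_nn h.dual W.reverse nn_e1).2
  have k3 := (act_nn h W nn_e1).2
  generalize act P.dual W.reverse (1, 0) = g2 at k1 k2
  have k4 : pr P g2 (P.p, P.m - P.l) = -g2.2 * P.dL := by simp only [pr, xi, Par.dL]; ring
  rw [k4] at k1
  simp only [pr, xi, act_fst W (P.p, P.m - P.l), act_snd W (P.p, P.m - P.l)] at k1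
  have hA := sub_nonneg.mpr ho.hA
  have c1 : 0 ≤ g.1 * (P.l - P.m) + g.2 * P.r :=
    add_nonneg (mul_nonneg hg.1.le hA) (mul_nonneg hg.2.le h.hr.le)
  have c2 := (xi_pp h ho hx).2
  have key : pr P g (act P ([false, false] ++ W) x) + pr P g (act P (W ++ [false, false]) x)
      - 2 * pr P g (act P ([false] ++ W ++ [false]) x)
      = P.dL * ((g.1 * (P.l - P.m) + g.2 * P.r) * g2.2 * x.2
        + g.2 * (act P W (1, 0)).2 * (xi P x).2) := by
    simp only [act_append, act_cons, act_nil, pr, xi, stp]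
    rw [act_fst W x, act_snd W x, act_fst W (P.l * (P.l * x.1 + P.p * x.2) + P.p * (P.m * x.2), _),
      act_snd W (P.l * (P.l * x.1 + P.p * x.2) + P.p * (P.m * x.2), _),
      act_fst W (P.l * x.1 + P.p * x.2, _), act_snd W (P.l * x.1 + P.p * x.2, _)]
    simp only [Par.dL] at k1 ⊢
    linear_combination (-(g.1 * (P.l - P.m) + g.2 * P.r) * x.2) * k1
  rw [key, ← mul_assoc]
  have := hx.2
  have := hg.2
  exact mul_nonneg (mul_self_nonneg _) (by positivity)

lemma merge (h : P.Pos) (ho : P.Ord) {σ : ℝ} (hσ : 0 < σ * P.dL) {a g : ℝ × ℝ}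
    (ha : PP a) (hg : PP g) {w : List Bool} (hw : CoreMax P σ g a w) : chg w ≤ 2 := by
  by_contra hc
  obtain ⟨u, W, v, rfl, hW⟩ := exists_AWA w (by omega)
  have sd := second_diff h ho W (act_pp h.dual u.reverse hg) (act_pp h v ha)
  rw [← pr_act, ← pr_act, ← pr_act, ← act_append, ← act_append, ← act_append, ← act_append,
    ← act_append, ← act_append] at sd
  have e0 : u ++ ([false] ++ W ++ [false]) ++ v = u ++ [false] ++ W ++ [false] ++ v := by simp
  rw [e0] at sd
  have p1 : (u ++ ([false, false] ++ W) ++ v).Perm (u ++ [false] ++ W ++ [false] ++ v) := by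
    rw [List.perm_iff_count]; intro b; simp [List.count_cons]; omega
  have p2 : (u ++ (W ++ [false, false]) ++ v).Perm (u ++ [false] ++ W ++ [false] ++ v) := by
    rw [List.perm_iff_count]; intro b; simp [List.count_cons]; omega
  have i1 := hw.1 _ p1
  have i2 := hw.1 _ p2
  have hd : P.dL ≠ 0 := by rintro h0; rw [h0] at hσ; simp at hσ
  have hdd : 0 < P.dL * P.dL := mul_self_pos.mpr hd
  have i3 : σ * pr P g (act P (u ++ [false] ++ W ++ [false] ++ v) a)
      ≤ σ * pr P g (act P (u ++ ([false, false] ++ W) ++ v) a) := by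
    refine le_of_mul_le_mul_left ?_ hdd
    nlinarith [mul_nonneg hσ.le sd, mul_le_mul_of_nonneg_left i2 hdd.le]
  have i4 := hw.2 _ p1 i3
  simp [phi_append, phi] at i4
  nlinarith

end Pool.Agent.Lib.MP_34a884_an
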