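import Mathlib
import Pool.Agent.Lib.MP_34a884_an.Tri

/-! Outside the positive cone an optimal word has boundedly many letter changes. -/

namespace Pool.Agent.Lib.MP_34a884_an

variable {P : Par}

/-- Invariant for the gap next to the second axis. -/
def HG (P : Par) (τ : ℝ) (x : ℝ × ℝ) : Prop :=
  NN x ∨ (NN (xi P x) ∧ x.1 < 0 ∧ 0 < x.2 ∧ -x.1 ≤ τ * x.2)

lemma HG.stp (h : P.Pos) {τ : ℝ} {x : ℝ × ℝ} (hx : HG P τ x) (b : Bool) :
    HG P τ (stp P b x) := by
  rcases hx with hx | ⟨h1, h2, h3, h4⟩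
  · exact Or.inl (stp_nn h b hx)
  have h5 : NN (xi P (MP_34a884_an.stp P b x)) := by rw [xi_stp]; exact stp_nn h.til b h1
  have hτ : 0 < τ := by by_contra hc; push Not at hc; nlinarith
  obtain ⟨k1, k2⟩ := h1
  simp only [xi] at k1 k2
  obtain ⟨hl, hm, hn, hq, hp, hr⟩ := h
  cases b
  · by_cases hc : 0 ≤ P.l * x.1 + P.p * x.2
    · left; exact ⟨hc, by simp only [MP_34a884_an.stp]; positivity⟩
    · right
      refine ⟨h5, by simpa [MP_34a884_an.stp] using hc, by simp only [MP_34a884_an.stp]; positivity, ?_⟩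
      simp only [MP_34a884_an.stp]
      nlinarith [mul_le_mul_of_nonneg_left h4 hm.le]
  · right
    have : P.n * x.2 ≤ P.r * x.1 + P.q * x.2 := by linarith
    refine ⟨h5, by simp only [MP_34a884_an.stp]; nlinarith,
      by simp only [MP_34a884_an.stp]; nlinarith [mul_pos hn h3], ?_⟩
    simp only [MP_34a884_an.stp]
    nlinarith [mul_le_mul_of_nonneg_left h4 hn.le, mul_le_mul_of_nonneg_left this hτ.le]

lemma HG.act (h : P.Pos) {τ : ℝ} {x : ℝ × ℝ} (hx : HG P τ x) (w : List Bool) :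
    HG P τ (act P w x) := by
  induction w with
  | nil => exact hx
  | cons b w ih => exact ih.stp h b

lemma exists_delta (h : P.Pos) (ho : P.Ord) (hd : P.dL ≠ 0) : ∃ δ : ℝ, 0 < δ ∧
    ∀ τ x, HG P τ x → HG P (τ - δ) (act P [false, true] x) := by
  have hA := sub_nonneg.mpr ho.hA
  have hB := sub_nonneg.mpr ho.hB
  have hD : 0 < |P.dL| := abs_pos.mpr hd
  have h' := h
  obtain ⟨hl, hm, hn, hq, hp, hr⟩ := h'
  set K := P.r + (P.l - P.m) with hK
  have hK0 : 0 < K := by positivity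
  set c := min P.n P.p with hc
  have hc0 : 0 < c := lt_min hn hp
  refine ⟨c * |P.dL| / (K * P.q * P.m), by positivity, fun τ x hx => ?_⟩
  have hx' := hx.stp h true
  rcases hx with hx | ⟨h1, h2, h3, h4⟩
  · exact Or.inl (act_nn h _ hx)
  rcases hx' with hx' | ⟨g1, g2, g3, g4⟩
  · exact Or.inl (stp_nn h false hx')
  have h5 : NN (xi P (act P [false, true] x)) := by rw [xi_act]; exact act_nn h.til _ h1
  by_cases hc : 0 ≤ (act P [false, true] x).1
  · left; refine ⟨hc, ?_⟩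
    simp only [act_cons, act_nil]
    change 0 ≤ P.m * (stp P true x).2
    positivity
  right
  push Not at hc
  refine ⟨h5, hc, by change 0 < P.m * (stp P true x).2; positivity, ?_⟩
  obtain ⟨k1, k2⟩ := h1
  have e1 : P.dL * x.2 = -P.r * (xi P x).2 + (P.l - P.m) * (xi P x).1 := by
    simp only [xi, Par.dL]; ring
  have e2 : |P.dL| * x.2 ≤ K * ((xi P x).1 + (xi P x).2) := by
    have : |P.dL| * x.2 = |P.dL * x.2| := by rw [abs_mul, abs_of_pos h3]
    rw [this, e1, abs_le]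
    constructor <;> nlinarith [mul_nonneg hr.le k1, mul_nonneg hr.le k2, mul_nonneg hA k1,
      mul_nonneg hA k2]
  have e3 : (xi P (stp P true x)).2 = P.n * (xi P x).2 + P.p * (xi P x).1 := by
    simp only [xi, stp]; ring
  have e4 : c * ((xi P x).1 + (xi P x).2) ≤ (xi P (stp P true x)).2 := by
    rw [e3]
    nlinarith [mul_le_mul_of_nonneg_right (min_le_left P.n P.p) k2,
      mul_le_mul_of_nonneg_right (min_le_right P.n P.p) k1]
  have e5 : (stp P true x).2 ≤ P.q * x.2 := by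
    simp only [stp]; nlinarith [mul_pos hr (neg_pos.mpr h2)]
  have e6 : c * |P.dL| / (K * P.q * P.m) * (P.m * (stp P true x).2) ≤ (xi P (stp P true x)).2 := by
    calc c * |P.dL| / (K * P.q * P.m) * (P.m * (stp P true x).2)
        ≤ c * |P.dL| / (K * P.q * P.m) * (P.m * (P.q * x.2)) := by gcongr
      _ = c * (|P.dL| * x.2) / K := by field_simp
      _ ≤ c * (K * ((xi P x).1 + (xi P x).2)) / K := by gcongr
      _ = c * ((xi P x).1 + (xi P x).2) := by field_simp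
      _ ≤ _ := e4
  change -(P.l * (stp P true x).1 + P.p * (stp P true x).2) ≤ _ * (P.m * (stp P true x).2)
  have e7 : (xi P (stp P true x)).2 = (P.l - P.m) * (stp P true x).1 + P.p * (stp P true x).2 := rfl
  nlinarith [mul_le_mul_of_nonneg_left g4 hm.le]

lemma gap1 (h : P.Pos) (ho : P.Ord) (hd : P.dL ≠ 0) : ∃ R : ℕ, ∀ x, NN (xi P x) → x.1 < 0 →
    ∀ w, R ≤ chg w → NN (act P w x) := by
  obtain ⟨δ, hδ, H⟩ := exists_delta h ho hd
  have key : ∀ (j : ℕ) (w : List Bool) (τ : ℝ) (x : ℝ × ℝ), 3 * j ≤ chg w → HG P τ x →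
      HG P (τ - j * δ) (act P w x) := by
    intro j
    induction j with
    | zero => intro w τ x _ hx; simpa using hx.act h w
    | succ j ih =>
      intro w τ x hw hx
      obtain ⟨u, t, rfl, hu, ht⟩ := exists_split_front w 2 (3 * j) (by omega)
      obtain ⟨a, b, rfl, -⟩ := exists_ft 0 u hu.ge
      rw [act_append, act_append, act_append]
      have := (H _ _ ((ih t τ x ht hx).act h b)).act h a
      have e : τ - (j + 1 : ℕ) * δ = τ - j * δ - δ := by push_cast; ring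
      rw [e]; exact this
  obtain ⟨j, hj⟩ := exists_nat_ge ((P.q - P.n) / P.r / δ)
  refine ⟨3 * j, fun x h1 h2 w hw => ?_⟩
  have hB := sub_nonneg.mpr ho.hB
  have k1 : 0 ≤ P.r * x.1 + (P.q - P.n) * x.2 := h1.1
  have hr := h.hr
  have h3 : 0 < x.2 := by
    by_contra hc; push Not at hc
    nlinarith [mul_pos hr (neg_pos.mpr h2), mul_nonneg hB (neg_nonneg.mpr hc)]
  have h4 : -x.1 ≤ (P.q - P.n) / P.r * x.2 := by
    rw [div_mul_eq_mul_div, le_div_iff₀ hr]; linarith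
  rcases key j w _ x hw (Or.inr ⟨h1, h2, h3, h4⟩) with h5 | ⟨-, g2, g3, g4⟩
  · exact h5
  · rw [div_le_iff₀ hδ] at hj
    nlinarith

lemma gap (h : P.Pos) (ho : P.Ord) (hd : P.dL ≠ 0) : ∃ R : ℕ, ∀ x, x ≠ 0 → NN (xi P x) →
    ∀ w, R ≤ chg w → PP (act P w x) := by
  obtain ⟨R1, H1⟩ := gap1 h ho hd
  obtain ⟨R2, H2⟩ := gap1 h.sw ho.sw (by rwa [Par.dL_sw])
  refine ⟨(R1 + R2) + 1 + 1, fun x h0 hx w hw => ?_⟩
  obtain ⟨t, v, rfl, hv, ht⟩ := exists_split_suffix w (R1 + R2) 1 hw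
  rw [act_append]
  refine act_pp_of_chg h t ht ?_ (act_ne_zero h v h0)
  by_cases c1 : x.1 < 0
  · exact H1 x hx c1 v (by omega)
  by_cases c2 : x.2 < 0
  · have := H2 x.swap (by rw [xi_sw]; exact ⟨hx.2, hx.1⟩) c2 (v.map not)
      (by rw [chg_map_not]; omega)
    rw [act_sw] at this
    exact ⟨this.2, this.1⟩
  · exact act_nn h v ⟨not_lt.mp c1, not_lt.mp c2⟩

lemma rep_false (h : P.Pos) (ho : P.Ord) (N : ℕ) (y : ℝ × ℝ) (hy : 0 ≤ y.2) :
    (act P.til (List.replicate N false) y).2 = P.l ^ N * y.2 ∧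
      P.m ^ N * (y.1 + N * (P.r / P.m) * y.2) ≤ (act P.til (List.replicate N false) y).1 := by
  induction N with
  | zero => simp
  | succ N ih =>
    obtain ⟨i1, i2⟩ := ih
    have hm := h.hm
    have hr := h.hr
    rw [List.replicate_succ, act_cons]
    generalize act P.til (List.replicate N false) y = z at *
    simp only [stp, Par.til]
    refine ⟨by rw [i1]; ring, ?_⟩
    have e1 : P.m ^ N * y.2 ≤ z.2 := by
      rw [i1]; gcongr; exact ho.hA
    have e2 : P.m ^ (N + 1) * (y.1 + (N + 1 : ℕ) * (P.r / P.m) * y.2)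
        = P.m * (P.m ^ N * (y.1 + N * (P.r / P.m) * y.2)) + P.r * (P.m ^ N * y.2) := by
      push_cast; field_simp; ring
    rw [e2]
    gcongr

lemma steer_false (h : P.Pos) (ho : P.Ord) {κ : ℝ} (hκ : 0 < κ) : ∃ N0 : ℕ, ∀ N, N0 ≤ N →
    ∀ y : ℝ × ℝ, κ * |y.1| ≤ y.2 →
      P.m ^ N * y.2 ≤ (act P.til (List.replicate N false) y).1 ∧
      P.m ^ N * y.2 ≤ (act P.til (List.replicate N false) y).2 := by
  have hm := h.hm
  have hr := h.hr
  obtain ⟨N0, hN0⟩ := exists_nat_ge ((1 / κ + 1) / (P.r / P.m))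
  refine ⟨N0, fun N hN y hy => ?_⟩
  have hy2 : 0 ≤ y.2 := le_trans (by positivity) hy
  obtain ⟨i1, i2⟩ := rep_false h ho N y hy2
  constructor
  · refine le_trans ?_ i2
    gcongr
    rw [div_le_iff₀ (by positivity)] at hN0
    have e1 : (N0 : ℝ) ≤ N := by exact_mod_cast hN
    have e2 : 1 / κ + 1 ≤ N * (P.r / P.m) := hN0.trans (by gcongr)
    have e3 : |y.1| ≤ 1 / κ * y.2 := by
      rw [one_div, ← div_eq_inv_mul, le_div_iff₀ hκ]; linarith
    nlinarith [neg_abs_le y.1, mul_le_mul_of_nonneg_right e2 hy2]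
  · rw [i1]; gcongr; exact ho.hA

lemma til_sw (P : Par) : P.sw.til = P.til.sw := rfl

/-- Both coordinates of `s • z` are at least `c`. -/
def Ge (s c : ℝ) (z : ℝ × ℝ) : Prop := c ≤ s * z.1 ∧ c ≤ s * z.2

lemma steer_big (h : P.Pos) (ho : P.Ord) {κ : ℝ} (hκ : 0 < κ) : ∃ N0 : ℕ, ∀ N, N0 ≤ N →
    ∃ c : ℝ, 0 < c ∧ ∀ (s : ℝ) (y : ℝ × ℝ), (s = 1 ∨ s = -1) →
      (κ * (|y.1| + |y.2|) ≤ s * y.1 ∨ κ * (|y.1| + |y.2|) ≤ s * y.2) →
      ∃ b, Ge s (c * (|y.1| + |y.2|)) (act P.til (List.replicate N b) y) := by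
  obtain ⟨N1, H1⟩ := steer_false h ho hκ
  obtain ⟨N2, H2⟩ := steer_false h.sw ho.sw hκ
  refine ⟨N1 + N2, fun N hN => ⟨min (P.m ^ N) (P.n ^ N) * κ,
    mul_pos (lt_min (pow_pos h.hm _) (pow_pos h.hn _)) hκ, fun s y hs hy => ?_⟩⟩
  have hs1 : |s| = 1 := by rcases hs with rfl | rfl <;> simp
  have a1 := abs_nonneg y.1
  have a2 := abs_nonneg y.2
  rcases hy with hy | hy
  · refine ⟨true, ?_⟩
    have := H2 N (by omega) (s • y).swap (by
      simp only [Prod.fst_swap, Prod.snd_swap, Prod.smul_fst, Prod.smul_snd, smul_eq_mul, abs_mul,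
        hs1, one_mul]; nlinarith)
    have e : List.replicate N false = (List.replicate N true).map not := by simp
    rw [til_sw, e, act_sw, act_smul] at this
    simp only [Prod.fst_swap, Prod.snd_swap, Prod.smul_fst, Prod.smul_snd, smul_eq_mul] at this
    have e2 : min (P.m ^ N) (P.n ^ N) * κ * (|y.1| + |y.2|) ≤ P.sw.m ^ N * (s * y.1) := by
      rw [mul_assoc]
      have : 0 ≤ κ * (|y.1| + |y.2|) := by positivity
      have h3 := pow_pos h.hn N
      exact mul_le_mul (min_le_right _ _) hy this h3.le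
    exact ⟨e2.trans this.2, e2.trans this.1⟩
  · refine ⟨false, ?_⟩
    have := H1 N (by omega) (s • y) (by
      simp only [Prod.smul_fst, Prod.smul_snd, smul_eq_mul, abs_mul, hs1, one_mul]; nlinarith)
    rw [act_smul] at this
    simp only [Prod.smul_fst, Prod.smul_snd, smul_eq_mul] at this
    have e2 : min (P.m ^ N) (P.n ^ N) * κ * (|y.1| + |y.2|) ≤ P.m ^ N * (s * y.2) := by
      rw [mul_assoc]
      have : 0 ≤ κ * (|y.1| + |y.2|) := by positivity
      have h3 := pow_pos h.hm N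
      exact mul_le_mul (min_le_left _ _) hy this h3.le
    exact ⟨e2.trans this.1, e2.trans this.2⟩

lemma exists_chg (R : ℕ) : ∃ Z : List Bool, R ≤ chg Z := by
  suffices ∀ R : ℕ, ∃ (b : Bool) (Z : List Bool), R ≤ chg (b :: Z) by
    obtain ⟨b, Z, h⟩ := this R; exact ⟨_, h⟩
  intro R
  induction R with
  | zero => exact ⟨true, [], le_rfl⟩
  | succ R ih =>
    obtain ⟨b, Z, h⟩ := ih
    refine ⟨!b, b :: Z, ?_⟩
    rw [chg_cons2]; cases b <;> simp <;> omega

lemma xi_lower (h : P.Pos) (ho : P.Ord) (hd : P.dL ≠ 0) : ∃ c : ℝ, 0 < c ∧ ∀ x : ℝ × ℝ,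
    c * (|x.1| + |x.2|) ≤ |(xi P x).1| + |(xi P x).2| := by
  have hA := sub_nonneg.mpr ho.hA
  have hB := sub_nonneg.mpr ho.hB
  have hD : 0 < |P.dL| := abs_pos.mpr hd
  have hp := h.hp
  have hr := h.hr
  set K := P.r + (P.l - P.m) + P.p + (P.q - P.n) with hK
  have hK0 : 0 < K := by positivity
  refine ⟨|P.dL| / K, by positivity, fun x => ?_⟩
  have e1 : P.dL * x.2 = -P.r * (xi P x).2 + (P.l - P.m) * (xi P x).1 := by
    simp only [xi, Par.dL]; ring
  have e2 : P.dL * x.1 = (P.q - P.n) * (xi P x).2 + -P.p * (xi P x).1 := by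
    simp only [xi, Par.dL]; ring
  have f1 : |P.dL| * |x.2| ≤ P.r * |(xi P x).2| + (P.l - P.m) * |(xi P x).1| := by
    rw [← abs_mul, e1]
    refine (abs_add_le _ _).trans ?_
    rw [abs_mul, abs_mul, abs_neg, abs_of_pos hr, abs_of_nonneg hA]
  have f2 : |P.dL| * |x.1| ≤ (P.q - P.n) * |(xi P x).2| + P.p * |(xi P x).1| := by
    rw [← abs_mul, e2]
    refine (abs_add_le _ _).trans ?_
    rw [abs_mul, abs_mul, abs_neg, abs_of_pos hp, abs_of_nonneg hB]
  rw [div_mul_eq_mul_div, div_le_iff₀ hK0]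
  have a1 := abs_nonneg (xi P x).1
  have a2 := abs_nonneg (xi P x).2
  nlinarith [mul_nonneg hr.le a1, mul_nonneg hA a2, mul_nonneg hp.le a2, mul_nonneg hB a1]

lemma steer_small (h : P.Pos) (ho : P.Ord) (hd : P.dL ≠ 0) : ∃ N0 : ℕ, ∀ N, N0 ≤ N →
    ∃ c : ℝ, 0 < c ∧ ∀ x : ℝ × ℝ, ∃ (W : List Bool) (s : ℝ), W.length = N ∧ (s = 1 ∨ s = -1) ∧
      Ge s (c * (|x.1| + |x.2|)) (act P W x) := by
  obtain ⟨R, HR⟩ := gap h ho hd
  obtain ⟨Z, hZ⟩ := exists_chg R
  obtain ⟨N1, H1⟩ := steer_big h ho (κ := 1 / 2) (by norm_num)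
  obtain ⟨c0, hc0, H0⟩ := xi_lower h ho hd
  set u1 : ℝ × ℝ := (-P.p / P.dL, (P.l - P.m) / P.dL) with hu1
  set u2 : ℝ × ℝ := ((P.q - P.n) / P.dL, -P.r / P.dL) with hu2
  have x1 : xi P u1 = (1, 0) := by
    simp only [xi, hu1]; ext <;> simp <;> field_simp <;> simp [Par.dL] <;> ring
  have x2 : xi P u2 = (0, 1) := by
    simp only [xi, hu2]; ext <;> simp <;> field_simp <;> simp [Par.dL] <;> ring
  have p1 : PP (act P Z u1) := HR u1 (by
    intro h0; rw [h0] at x1; simp [xi] at x1) (by rw [x1]; exact nn_e1) Z hZ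
  have p2 : PP (act P Z u2) := HR u2 (by
    intro h0; rw [h0] at x2; simp [xi] at x2) (by rw [x2]; exact nn_e2) Z hZ
  have dec : ∀ x : ℝ × ℝ, x = (xi P x).1 • u1 + (xi P x).2 • u2 := by
    intro x
    simp only [xi, hu1, hu2]; ext <;> simp <;> field_simp <;> simp [Par.dL] <;> ring
  refine ⟨N1 + Z.length, fun N hN => ?_⟩
  obtain ⟨c1, hc1, H2⟩ := H1 (N - Z.length) (by omega)
  set c2 := min (act P Z u1).1 (act P Z u1).2 with hc2
  have hc2' : 0 < c2 := lt_min p1.1 p1.2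
  refine ⟨c2 * (c1 * c0), by positivity, fun x => ?_⟩
  obtain ⟨s, hs, hs2⟩ : ∃ s : ℝ, (s = 1 ∨ s = -1) ∧
      (1 / 2 * (|(xi P x).1| + |(xi P x).2|) ≤ s * (xi P x).1 ∨
        1 / 2 * (|(xi P x).1| + |(xi P x).2|) ≤ s * (xi P x).2) := by
    rcases le_total |(xi P x).1| |(xi P x).2| with hc | hc
    · rcases abs_cases (xi P x).2 with h2 | h2
      · exact ⟨1, Or.inl rfl, Or.inr (by linarith [h2.1])⟩
      · exact ⟨-1, Or.inr rfl, Or.inr (by linarith [h2.1])⟩
    · rcases abs_cases (xi P x).1 with h2 | h2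
      · exact ⟨1, Or.inl rfl, Or.inl (by linarith [h2.1])⟩
      · exact ⟨-1, Or.inr rfl, Or.inl (by linarith [h2.1])⟩
  obtain ⟨b, g1, g2⟩ := H2 s (xi P x) hs hs2
  refine ⟨Z ++ List.replicate (N - Z.length) b, s, by simp; omega, hs, ?_⟩
  rw [← xi_act] at g1 g2
  rw [act_append]
  generalize act P (List.replicate (N - Z.length) b) x = y at g1 g2
  have e1 : c1 * (c0 * (|x.1| + |x.2|)) ≤ c1 * (|(xi P x).1| + |(xi P x).2|) := by
    gcongr; exact H0 x
  have e0 : 0 ≤ c1 * (c0 * (|x.1| + |x.2|)) := by positivity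
  rw [dec y, act_lin]
  have m1 : c2 ≤ (act P Z u1).1 := min_le_left _ _
  have m2 : c2 ≤ (act P Z u1).2 := min_le_right _ _
  have q1 := mul_le_mul m1 (e1.trans g1) e0 p1.1.le
  have q2 := mul_le_mul m2 (e1.trans g1) e0 p1.2.le
  have q3 := mul_nonneg p2.1.le (e0.trans (e1.trans g2))
  have q4 := mul_nonneg p2.2.le (e0.trans (e1.trans g2))
  constructor <;> simp only [Prod.fst_add, Prod.snd_add, Prod.smul_fst, Prod.smul_snd,
    smul_eq_mul] <;> nlinarith

lemma comparable {α β γ δ : ℝ} (ha : 0 < α) (hb : 0 < β) (hc : 0 < γ) (hd : 0 < δ) :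
    ∃ κ : ℝ, 0 < κ ∧ ∀ y1 y2 : ℝ, (y1 * α + y2 * β) * (y1 * γ + y2 * δ) < 0 →
      y1 * y2 < 0 ∧ κ * (|y1| + |y2|) ≤ |y1| ∧ κ * (|y1| + |y2|) ≤ |y2| := by
  set S := α * δ + β * γ + α * γ + β * δ with hS
  have hS0 : 0 < S := by positivity
  refine ⟨min (α * γ) (β * δ) / S, by positivity, fun y1 y2 hy => ?_⟩
  have e : (y1 * α + y2 * β) * (y1 * γ + y2 * δ)
      = α * γ * (y1 * y1) + (α * δ + β * γ) * (y1 * y2) + β * δ * (y2 * y2) := by ring
  rw [e] at hy
  have s1 : 0 ≤ α * γ * (y1 * y1) := mul_nonneg (by positivity) (mul_self_nonneg _)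
  have s2 : 0 ≤ β * δ * (y2 * y2) := mul_nonneg (by positivity) (mul_self_nonneg _)
  have h12 : y1 * y2 < 0 := by
    by_contra hc'; push Not at hc'
    have : 0 ≤ (α * δ + β * γ) * (y1 * y2) := by positivity
    linarith
  have a1 : 0 < |y1| := abs_pos.mpr (by rintro rfl; simp at h12)
  have a2 : 0 < |y2| := abs_pos.mpr (by rintro rfl; simp at h12)
  have e1 : y1 * y2 = -(|y1| * |y2|) := by rw [← abs_mul, abs_of_neg h12]; ring
  rw [e1] at hy
  rw [← abs_mul_abs_self y1] at hy s1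
  rw [← abs_mul_abs_self y2] at hy s2
  have f1 : α * γ * |y1| ≤ (α * δ + β * γ) * |y2| := by
    refine le_of_mul_le_mul_left ?_ a1; nlinarith
  have f2 : β * δ * |y2| ≤ (α * δ + β * γ) * |y1| := by
    refine le_of_mul_le_mul_left ?_ a2; nlinarith
  have m1 : min (α * γ) (β * δ) * (|y1| + |y2|) ≤ α * γ * (|y1| + |y2|) := by
    gcongr; exact min_le_left _ _
  have m2 : min (α * γ) (β * δ) * (|y1| + |y2|) ≤ β * δ * (|y1| + |y2|) := by
    gcongr; exact min_le_right _ _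
  refine ⟨h12, ?_, ?_⟩ <;> rw [div_mul_eq_mul_div, div_le_iff₀ hS0]
  · nlinarith [mul_pos (mul_pos ha hc) a1]
  · nlinarith [mul_pos (mul_pos hb hd) a2]

/-- The sign of a word. -/
def sg (s t : ℝ) (w : List Bool) : ℝ := s ^ w.count false * t ^ w.count true

lemma sg_append (s t : ℝ) (u v : List Bool) : sg s t (u ++ v) = sg s t u * sg s t v := by
  simp [sg, pow_add]; ring

lemma sg_perm (s t : ℝ) {u v : List Bool} (h : u.Perm v) : sg s t u = sg s t v := by
  simp [sg, h.count_eq]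

lemma sg_cases {s t : ℝ} (hs : s = 1 ∨ s = -1) (ht : t = 1 ∨ t = -1) (w : List Bool) :
    sg s t w = 1 ∨ sg s t w = -1 := by
  have h1 : ∀ (x : ℝ) (n : ℕ), (x = 1 ∨ x = -1) → x ^ n = 1 ∨ x ^ n = -1 := by
    rintro x n (rfl | rfl)
    · simp
    · exact neg_one_pow_eq_or ℝ n
  unfold sg
  rcases h1 s (w.count false) hs with a | a <;> rcases h1 t (w.count true) ht with b | b <;>
    simp [a, b]

lemma sg_rep {s t : ℝ} (hs : s = 1 ∨ s = -1) (ht : t = 1 ∨ t = -1) (N : ℕ) (b : Bool) :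
    sg s t (List.replicate (2 * N) b) = 1 := by
  cases b <;> rcases hs with rfl | rfl <;> rcases ht with rfl | rfl <;>
    simp [sg, List.count_replicate]

/-- The value of a word. -/
def val (P : Par) (s t : ℝ) (g a : ℝ × ℝ) (w : List Bool) : ℝ := sg s t w * pr P g (act P w a)

/-- Optimal words. -/
def Opt (P : Par) (s t : ℝ) (g a : ℝ × ℝ) (w : List Bool) : Prop :=
  ∀ w' : List Bool, w'.length = w.length → val P s t g a w' ≤ val P s t g a w

lemma early1 (h : P.Pos) (ho : P.Ord) (hd : P.dL ≠ 0) {s t : ℝ} (hs : s = 1 ∨ s = -1)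
    (ht : t = 1 ∨ t = -1) : ∃ R : ℕ, ∀ (g a : ℝ × ℝ) (u v : List Bool), g ≠ 0 →
      Opt P s t g a (u ++ v) → R ≤ chg v →
      0 ≤ (xi P (act P v a)).1 * (xi P (act P v a)).2 := by
  have pos2 : ∀ b : Bool, PP (act P.til [b, !b] (1, 0)) ∧ PP (act P.til [b, !b] (0, 1)) :=
    fun b => ⟨act_pp_of_chg h.til _ (by cases b <;> simp [chg]) nn_e1 (by simp),
      act_pp_of_chg h.til _ (by cases b <;> simp [chg]) nn_e2 (by simp)⟩
  obtain ⟨κ, hκ, Hκ⟩ : ∃ κ : ℝ, 0 < κ ∧ ∀ (b : Bool) (y : ℝ × ℝ),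
      (act P.til [b, !b] y).1 * (act P.til [b, !b] y).2 < 0 →
      y.1 * y.2 < 0 ∧ κ * (|y.1| + |y.2|) ≤ |y.1| ∧ κ * (|y.1| + |y.2|) ≤ |y.2| := by
    obtain ⟨k1, hk1, H1⟩ := comparable (pos2 false).1.1 (pos2 false).2.1 (pos2 false).1.2
      (pos2 false).2.2
    obtain ⟨k2, hk2, H2⟩ := comparable (pos2 true).1.1 (pos2 true).2.1 (pos2 true).1.2
      (pos2 true).2.2
    refine ⟨min k1 k2, lt_min hk1 hk2, fun b y hy => ?_⟩
    rw [act_fst, act_snd] at hy
    have m1 : min k1 k2 * (|y.1| + |y.2|) ≤ k1 * (|y.1| + |y.2|) := by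
      gcongr; exact min_le_left _ _
    have m2 : min k1 k2 * (|y.1| + |y.2|) ≤ k2 * (|y.1| + |y.2|) := by
      gcongr; exact min_le_right _ _
    cases b
    · obtain ⟨a1, a2, a3⟩ := H1 _ _ hy
      exact ⟨a1, m1.trans a2, m1.trans a3⟩
    · obtain ⟨a1, a2, a3⟩ := H2 _ _ hy
      exact ⟨a1, m2.trans a2, m2.trans a3⟩
  obtain ⟨N1, H1⟩ := steer_big h ho hκ
  obtain ⟨N2, H2⟩ := steer_small h.dual ho.dual (by rwa [Par.dL_dual])
  obtain ⟨c1, hc1, H1⟩ := H1 (2 * (N1 + N2)) (by omega)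
  obtain ⟨c2, hc2, H2⟩ := H2 (2 * (N1 + N2)) (by omega)
  set N := 2 * (N1 + N2) with hN
  obtain ⟨K, hK, HK⟩ := sm_three h.til N
  obtain ⟨θ, hθ0, hθ1, Hθ⟩ := exists_theta h.til
  obtain ⟨j, hj⟩ := exists_pow_lt_of_lt_one (show 0 < c1 * c2 / K by positivity) hθ1
  refine ⟨1 + (2 * j + 2 * N) + 1, fun g a u v hg hopt hv => ?_⟩
  by_contra hneg
  push Not at hneg
  obtain ⟨z, v', rfl, hv', hz⟩ := exists_split_suffix v 1 (2 * j + 2 * N) hv
  obtain ⟨t1, b, v0, rfl⟩ := exists_pair v' hv'.ge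
  set vt := z ++ t1 ++ [b, !b] with hvt
  have evt : z ++ (t1 ++ [b, !b] ++ v0) = vt ++ v0 := by simp [hvt]
  rw [evt] at hopt hneg
  have hch : 2 * j + 2 * N ≤ chg vt := by
    have := le_chg_append z (t1 ++ [b, !b])
    rw [hvt, List.append_assoc]; omega
  rw [act_append, xi_act] at hneg
  set y := xi P (act P v0 a) with hy
  have hy2 : (act P.til [b, !b] y).1 * (act P.til [b, !b] y).2 < 0 := by
    by_contra hc
    push Not at hc
    rw [hvt, act_append] at hneg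
    generalize act P.til [b, !b] y = y' at hc hneg
    rcases mul_nonneg_iff.mp hc with hc | hc
    · have := act_nn h.til (z ++ t1) (x := y') hc
      nlinarith [mul_nonneg this.1 this.2]
    · have := act_nn h.til (z ++ t1) (x := -y') ⟨by simpa using hc.1, by simpa using hc.2⟩
      rw [act_neg] at this
      have := mul_nonneg this.1 this.2
      simp at this; linarith
  obtain ⟨y12, yk1, yk2⟩ := Hκ b y hy2
  have hlen : 2 * N ≤ vt.length := le_trans (by omega) (chg_le_length vt)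
  obtain ⟨z1, mid, z2, e, l1, l2⟩ : ∃ z1 mid z2 : List Bool, vt = z1 ++ mid ++ z2 ∧
      z1.length = N ∧ z2.length = N := by
    refine ⟨vt.take N, (vt.drop N).take (vt.length - 2 * N), (vt.drop N).drop (vt.length - 2 * N),
      by simp, by simp; omega, by simp; omega⟩
  set gu := act P.dual u.reverse g with hgu
  have hgu0 : gu ≠ 0 := act_ne_zero h.dual _ hg
  obtain ⟨W, s1, lW, hs1, G1⟩ := H2 gu
  set s0 := sg s t (u ++ W.reverse ++ mid ++ v0) with hs0
  have hs0' : s0 = 1 ∨ s0 = -1 := sg_cases hs ht _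
  have hs2 : s0 * s1 = 1 ∨ s0 * s1 = -1 := by
    rcases hs0' with a | a <;> rcases hs1 with b | b <;> simp [a, b]
  obtain ⟨b2, G2⟩ := H1 (s0 * s1) y hs2 (by
    rcases hs2 with e2 | e2 <;> rw [e2] <;> rcases abs_cases y.1 with a1 | a1 <;>
      rcases abs_cases y.2 with a2 | a2
    all_goals first
      | (left; linarith [a1.1])
      | (right; linarith [a2.1])
      | (exfalso; nlinarith [a1.2, a2.2]))
  have hlenw : (u ++ W.reverse ++ mid ++ List.replicate N b2 ++ v0).length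
      = (u ++ (vt ++ v0)).length := by rw [e]; simp [lW, l1, l2]
  have hle := hopt _ hlenw
  have gpos : 0 < |gu.1| + |gu.2| := by
    by_contra hc
    push Not at hc
    have a1 := abs_nonneg gu.1
    have a2 := abs_nonneg gu.2
    exact hgu0 (Prod.ext (abs_eq_zero.mp (by linarith)) (abs_eq_zero.mp (by linarith)))
  have ypos : 0 < |y.1| + |y.2| := by
    have : 0 < |y.1| := abs_pos.mpr (by intro h0; rw [h0] at y12; simp at y12)
    positivity
  have smpos := sm_pos h.til mid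
  have up : val P s t g a (u ++ (vt ++ v0))
      ≤ θ ^ j * (K * sm P.til mid) * ((|gu.1| + |gu.2|) * (|y.1| + |y.2|)) := by
    unfold val
    rw [act_append, pr_act, ← hgu, act_append, pr, xi_act, ← hy]
    obtain ⟨b1, b2⟩ := small_of_th h.til (Hθ j vt (by omega)) y hneg
    obtain ⟨d1, d2⟩ := diag_le_sm h.til vt
    have d3 : sm P.til vt ≤ K * sm P.til mid := by rw [e]; exact HK _ _ _ l1 l2
    have θj : 0 ≤ θ ^ j := by positivity
    have b3 : |(act P.til vt y).1| ≤ θ ^ j * (K * sm P.til mid) * (|y.1| + |y.2|) := by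
      refine b1.trans ?_
      gcongr
      · exact d1.trans d3
      · linarith [abs_nonneg y.2]
    have b4 : |(act P.til vt y).2| ≤ θ ^ j * (K * sm P.til mid) * (|y.1| + |y.2|) := by
      refine b2.trans ?_
      gcongr
      · exact d2.trans d3
      · linarith [abs_nonneg y.1]
    refine (le_abs_self _).trans ?_
    have : |sg s t (u ++ (vt ++ v0))| = 1 := by
      rcases sg_cases hs ht (u ++ (vt ++ v0)) with a | a <;> simp [a]
    rw [abs_mul, this, one_mul]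
    refine (abs_add_le _ _).trans ?_
    rw [abs_mul, abs_mul]
    nlinarith [mul_le_mul_of_nonneg_left b4 (abs_nonneg gu.1),
      mul_le_mul_of_nonneg_left b3 (abs_nonneg gu.2)]
  have lo : c1 * c2 * sm P.til mid * ((|gu.1| + |gu.2|) * (|y.1| + |y.2|))
      ≤ val P s t g a (u ++ W.reverse ++ mid ++ List.replicate N b2 ++ v0) := by
    unfold val
    have e1 : sg s t (u ++ W.reverse ++ mid ++ List.replicate N b2 ++ v0) = s0 := by
      rw [hs0]; simp only [sg_append, hN, sg_rep hs ht, mul_one]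
    rw [e1, List.append_assoc, List.append_assoc, act_append, pr_act, List.reverse_append,
      List.reverse_reverse, act_append, ← hgu, act_append, act_append, pr, xi_act, xi_act, ← hy]
    generalize act P.dual W gu = g' at G1
    generalize act P.til (List.replicate N b2) y = y' at G2
    obtain ⟨m1, m2⟩ := act_mono h.til mid (x := (s0 * s1) • y') (c := c1 * (|y.1| + |y.2|))
      (by simpa using G2.1) (by simpa using G2.2)
    rw [act_smul] at m1 m2
    simp only [Prod.smul_fst, Prod.smul_snd, smul_eq_mul] at m1 m2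
    obtain ⟨p1, p2⟩ := act_pp h.til mid pp_one
    have n0 : 0 ≤ c2 * (|gu.1| + |gu.2|) := by positivity
    have q1 := mul_le_mul G1.1 m2 (by positivity) (n0.trans G1.1)
    have q2 := mul_le_mul G1.2 m1 (by positivity) (n0.trans G1.2)
    have ss : s1 * s1 = 1 := by rcases hs1 with a | a <;> simp [a]
    unfold sm
    have : s0 * (g'.1 * (act P.til mid y').2 + g'.2 * (act P.til mid y').1)
        = s1 * g'.1 * (s0 * s1 * (act P.til mid y').2)
          + s1 * g'.2 * (s0 * s1 * (act P.til mid y').1) := by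
      linear_combination (-(s0 * (g'.1 * (act P.til mid y').2 + g'.2 * (act P.til mid y').1))) * ss
    rw [this]
    nlinarith
  have fin := lo.trans (hle.trans up)
  rw [lt_div_iff₀ hK] at hj
  have : θ ^ j * (K * sm P.til mid) * ((|gu.1| + |gu.2|) * (|y.1| + |y.2|))
      < c1 * c2 * sm P.til mid * ((|gu.1| + |gu.2|) * (|y.1| + |y.2|)) := by
    rw [← mul_assoc (θ ^ j) K]
    exact mul_lt_mul_of_pos_right (mul_lt_mul_of_pos_right hj smpos) (mul_pos gpos ypos)
  linarith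

lemma xi_ne_zero (h : P.Pos) (ho : P.Ord) (hd : P.dL ≠ 0) {x : ℝ × ℝ} (hx : x ≠ 0) :
    xi P x ≠ 0 := by
  obtain ⟨c, hc, H⟩ := xi_lower h ho hd
  intro h0
  have := H x
  rw [h0] at this
  simp only [Prod.fst_zero, abs_zero, Prod.snd_zero, add_zero] at this
  have a1 := abs_nonneg x.1
  have a2 := abs_nonneg x.2
  have : |x.1| + |x.2| ≤ 0 := by
    by_contra hc'; push Not at hc'; nlinarith [mul_pos hc hc']
  exact hx (Prod.ext (abs_eq_zero.mp (by linarith)) (abs_eq_zero.mp (by linarith)))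

lemma early (h : P.Pos) (ho : P.Ord) (hd : P.dL ≠ 0) {s t : ℝ} (hs : s = 1 ∨ s = -1)
    (ht : t = 1 ∨ t = -1) : ∃ R : ℕ, ∀ (g a : ℝ × ℝ) (u v : List Bool), g ≠ 0 → a ≠ 0 →
      Opt P s t g a (u ++ v) → R ≤ chg v →
      ∃ e : ℝ, (e = 1 ∨ e = -1) ∧ PP (e • act P v a) := by
  obtain ⟨R1, H1⟩ := early1 h ho hd hs ht
  obtain ⟨R2, H2⟩ := gap h ho hd
  refine ⟨R1 + R2 + 1, fun g a u v hg ha hopt hv => ?_⟩
  obtain ⟨v2, v1, rfl, h1, h2⟩ := exists_split_suffix v R1 R2 hv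
  have := H1 g a (u ++ v2) v1 hg (by simpa using hopt) h1.ge
  have h0 := act_ne_zero h v1 ha
  rw [act_append]
  rcases mul_nonneg_iff.mp this with hc | hc
  · exact ⟨1, Or.inl rfl, by simpa using H2 _ h0 hc v2 h2⟩
  · refine ⟨-1, Or.inr rfl, ?_⟩
    have := H2 (-act P v1 a) (neg_ne_zero.mpr h0)
      (by rw [xi_neg]; exact ⟨by simpa using hc.1, by simpa using hc.2⟩) v2 h2
    rw [act_neg] at this
    simpa using this

lemma val_dual (s t : ℝ) (g a : ℝ × ℝ) (w : List Bool) :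
    val P.dual s t a g w.reverse = val P s t g a w := by
  unfold val
  rw [sg_perm s t (List.reverse_perm w), pr_act (P := P) w, pr_dual]

lemma late (h : P.Pos) (ho : P.Ord) (hd : P.dL ≠ 0) {s t : ℝ} (hs : s = 1 ∨ s = -1)
    (ht : t = 1 ∨ t = -1) : ∃ R : ℕ, ∀ (g a : ℝ × ℝ) (u v : List Bool), g ≠ 0 → a ≠ 0 →
      Opt P s t g a (u ++ v) → R ≤ chg u →
      ∃ e : ℝ, (e = 1 ∨ e = -1) ∧ PP (e • act P.dual u.reverse g) := by
  obtain ⟨R, H⟩ := early h.dual ho.dual (by rwa [Par.dL_dual]) hs ht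
  refine ⟨R, fun g a u v hg ha hopt hu => ?_⟩
  refine H a g v.reverse u.reverse ha hg ?_ (by rwa [chg_reverse])
  intro w' hw'
  have := hopt w'.reverse (by simpa [add_comm] using hw')
  rw [← val_dual s t g a w'.reverse, ← val_dual s t g a (u ++ v)] at this
  simpa using this

end Pool.Agent.Lib.MP_34a884_an
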