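import Mathlib
import Pool.Agent.Lib.MP_34a884_an.Early
import Pool.Agent.Lib.MP_34a884_an.Core

/-! Counting the exposed points of the orbit in normal form. -/

namespace Pool.Agent.Lib.MP_34a884_an

lemma code_bound {α β : Type} [Nonempty α] (S : Set α) (C : Finset β) (Rel : β → α → Prop)
    (h1 : ∀ x ∈ S, ∃ c ∈ C, Rel c x) (h2 : ∀ c x y, Rel c x → Rel c y → x = y) :
    S.Finite ∧ S.ncard ≤ C.card := by
  classical
  have hsub : S ⊆ ↑(C.image fun c => Classical.epsilon (Rel c)) := by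
    intro x hx
    obtain ⟨c, hc, hr⟩ := h1 x hx
    simp only [Finset.coe_image, Set.mem_image, Finset.mem_coe]
    exact ⟨c, hc, h2 c _ _ (Classical.epsilon_spec ⟨x, hr⟩) hr⟩
  refine ⟨(Finset.finite_toSet _).subset hsub, ?_⟩
  refine (Set.ncard_le_ncard hsub (Finset.finite_toSet _)).trans ?_
  rw [Set.ncard_coe_finset]
  exact Finset.card_image_le

variable {P : Par}

/-- The point reached by a word. -/
def pt (P : Par) (s t : ℝ) (a : ℝ × ℝ) (w : List Bool) : ℝ × ℝ := sg s t w • act P w a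

/-- Exposed points of the orbit of length `k`. -/
def Ex (P : Par) (s t : ℝ) (k : ℕ) (a : ℝ × ℝ) : Set (ℝ × ℝ) :=
  {x | ∃ g : ℝ × ℝ, (∃ w : List Bool, w.length = k ∧ x = pt P s t a w) ∧
    ∀ w' : List Bool, w'.length = k → pt P s t a w' = x ∨ pr P g (pt P s t a w') < pr P g x}

lemma val_eq (s t : ℝ) (g a : ℝ × ℝ) (w : List Bool) :
    val P s t g a w = pr P g (pt P s t a w) := by
  simp [val, pt, pr_smul_right]

lemma perm_of_count {y y' : List Bool} (h1 : y.length = y'.length)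
    (h2 : y.count true = y'.count true) : y.Perm y' := by
  rw [List.perm_iff_count]
  intro b
  have := count_add_count y
  have := count_add_count y'
  cases b
  · omega
  · exact h2

lemma exists_max_phi (Q : List Bool → Prop) (y : List Bool) (hy : Q y)
    (hl : ∀ z, Q z → z.length = y.length) : ∃ z, Q z ∧ ∀ z', Q z' → phi z' ≤ phi z := by
  have hb : BddAbove (phi '' {z | Q z}) := by
    refine ⟨y.length ^ 2, ?_⟩
    rintro _ ⟨z, hz, rfl⟩
    rw [← hl z hz]; exact phi_le z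
  obtain ⟨z, hz, e⟩ := Nat.sSup_mem (s := phi '' {z | Q z}) ⟨_, y, hy, rfl⟩ hb
  exact ⟨z, hz, fun z' hz' => e ▸ le_csSup hb ⟨z', hz', rfl⟩⟩

/-- Words with a canonical middle part. -/
def Mid (P : Par) (a : ℝ × ℝ) (k : ℕ) (c : List Bool × List Bool × ℕ × ℕ) (w : List Bool) : Prop :=
  w.length = k ∧ ∃ y, w = c.1 ++ y ++ c.2.1 ∧ y.count true = c.2.2.1 ∧ phi y = c.2.2.2 ∧
    ∃ (σ e : ℝ) (g : ℝ × ℝ), (σ = 1 ∨ σ = -1) ∧ (e = 1 ∨ e = -1) ∧ σ * P.dL < 0 ∧ PP g ∧
      PP (e • act P c.2.1 a) ∧ CoreMax P σ g (e • act P c.2.1 a) y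

lemma Mid.unique (h : P.Pos) (ho : P.Ord) {a : ℝ × ℝ} {k : ℕ}
    {c : List Bool × List Bool × ℕ × ℕ} {w w' : List Bool} (h1 : Mid P a k c w)
    (h2 : Mid P a k c w') : w = w' := by
  obtain ⟨l1, y, rfl, c1, p1, σ, e, g, s1, e1, d1, g1, a1, m1⟩ := h1
  obtain ⟨l2, y', rfl, c2, p2, σ', e', g', s2, e2, d2, g2, a2, m2⟩ := h2
  have hσ : σ' = σ := by
    rcases s1 with rfl | rfl <;> rcases s2 with rfl | rfl <;> linarith
  have he : e' = e := by
    have b1 := a1.1
    have b2 := a2.1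
    simp only [Prod.smul_fst, smul_eq_mul] at b1 b2
    rcases e1 with rfl | rfl <;> rcases e2 with rfl | rfl <;> linarith
  subst hσ he
  have hl : y.length = y'.length := by simp at l1 l2; omega
  rw [chain h ho d1 a1 g1 g2 (perm_of_count hl (by omega)) m1 m2 (by omega)]

lemma exists_word (h : P.Pos) (ho : P.Ord) (hd : P.dL ≠ 0) {s t : ℝ} (hs : s = 1 ∨ s = -1)
    (ht : t = 1 ∨ t = -1) : ∃ R : ℕ, ∀ (k : ℕ) (a : ℝ × ℝ), ∀ x ∈ Ex P s t k a,
      ∃ w, x = pt P s t a w ∧ ((w.length = k ∧ chg w ≤ R) ∨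
        ∃ c, chg c.1 ≤ R ∧ chg c.2.1 ≤ R ∧ Mid P a k c w) := by
  obtain ⟨R1, H1⟩ := late h ho hd hs ht
  obtain ⟨R2, H2⟩ := early h ho hd hs ht
  refine ⟨R1 + R2 + 4, fun k a x hx => ?_⟩
  obtain ⟨g, ⟨w, hw, rfl⟩, hx⟩ := hx
  by_cases hg : g = 0
  · refine ⟨List.replicate k false, ?_, Or.inl ⟨by simp, by simp [chg_replicate]⟩⟩
    rcases hx (List.replicate k false) (by simp) with e | e
    · exact e.symm
    · simp [hg, pr] at e
  by_cases ha : a = 0
  · refine ⟨List.replicate k false, ?_, Or.inl ⟨by simp, by simp [chg_replicate]⟩⟩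
    have : ∀ w, act P w (0 : ℝ × ℝ) = 0 := fun w => by
      simpa using act_smul (P := P) w 0 0
    simp [pt, ha, this]
  by_cases hc : chg w ≤ R1 + R2 + 4
  · exact ⟨w, rfl, Or.inl ⟨hw, hc⟩⟩
  have hopt : Opt P s t g a w := by
    intro w' hw'
    rw [val_eq, val_eq]
    rcases hx w' (hw'.trans hw) with e | e
    · rw [e]
    · exact e.le
  obtain ⟨u, z, rfl, hu, hz⟩ := exists_split_front w R1 (R2 + 1) (by omega)
  obtain ⟨y, v, rfl, hv, -⟩ := exists_split_suffix z R2 0 (by omega)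
  obtain ⟨e1, he1, p1⟩ := H1 g a u (y ++ v) hg ha hopt hu.ge
  obtain ⟨e2, he2, p2⟩ := H2 g a (u ++ y) v hg ha (by simpa using hopt) hv.ge
  set σ := sg s t (u ++ (y ++ v)) * e1 * e2 with hσ
  have hσ1 : σ = 1 ∨ σ = -1 := by
    rw [hσ]
    rcases sg_cases hs ht (u ++ (y ++ v)) with e | e <;> rcases he1 with rfl | rfl <;>
      rcases he2 with rfl | rfl <;> simp [e]
  have key : ∀ y', y'.Perm y → σ * pr P (e1 • act P.dual u.reverse g) (act P y' (e2 • act P v a))
      = val P s t g a (u ++ (y' ++ v)) := by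
    intro y' hy'
    have e : sg s t (u ++ (y' ++ v)) = sg s t (u ++ (y ++ v)) :=
      sg_perm s t ((hy'.append_right v).append_left u)
    rw [act_smul, pr_smul_left, pr_smul_right, val, e, act_append, act_append, pr_act (P := P) u,
      hσ]
    rcases he1 with rfl | rfl <;> rcases he2 with rfl | rfl <;> ring
  obtain ⟨y0, ⟨q1, q2⟩, q3⟩ := exists_max_phi
    (fun z => z.Perm y ∧ val P s t g a (u ++ (y ++ v)) ≤ val P s t g a (u ++ (z ++ v))) y
    ⟨List.Perm.refl _, le_rfl⟩ (fun z hz => hz.1.length_eq)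
  have hl0 : (u ++ (y0 ++ v)).length = k := by
    rw [← hw]; simp [q1.length_eq]
  have hcore : CoreMax P σ (e1 • act P.dual u.reverse g) (e2 • act P v a) y0 := by
    constructor
    · intro y' hy'
      rw [key y' (hy'.trans q1), key y0 q1]
      exact (hopt _ (by simp [(hy'.trans q1).length_eq])).trans q2
    · intro y' hy' hle
      rw [key y' (hy'.trans q1), key y0 q1] at hle
      exact q3 y' ⟨hy'.trans q1, q2.trans hle⟩
  refine ⟨u ++ (y0 ++ v), ?_, ?_⟩
  · rcases hx _ hl0 with e | e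
    · exact e.symm
    · rw [← val_eq, ← val_eq] at e; linarith
  have hne : σ * P.dL ≠ 0 := mul_ne_zero (by rcases hσ1 with e | e <;> simp [e]) hd
  rcases lt_or_gt_of_ne hne with hlt | hlt
  · right
    exact ⟨(u, v, y0.count true, phi y0), by simp only; omega, by simp only; omega, hl0, y0,
      by simp, rfl, rfl, σ, e2, _, hσ1, he2, hlt, p1, p2, hcore⟩
  · left
    have b1 := merge h ho hlt p2 p1 hcore
    have b2 := chg_append_le u (y0 ++ v)
    have b3 := chg_append_le y0 v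
    exact ⟨hl0, by omega⟩

lemma count_normal (h : P.Pos) (ho : P.Ord) (hd : P.dL ≠ 0) {s t : ℝ} (hs : s = 1 ∨ s = -1)
    (ht : t = 1 ∨ t = -1) : ∃ C D : ℕ, ∀ (k : ℕ) (a : ℝ × ℝ),
      (Ex P s t k a).Finite ∧ (Ex P s t k a).ncard ≤ C * (k + 1) ^ D := by
  classical
  obtain ⟨R, H⟩ := exists_word h ho hd hs ht
  refine ⟨2 * (2 ^ (R + 1) * 2 ^ (R + 1)), 2 * (R + 1) + 3, fun k a => ?_⟩
  let C1 : Finset (List Bool ⊕ (List Bool × List Bool × ℕ × ℕ)) :=
    (runs (R + 1) k).disjSum (runs (R + 1) k ×ˢ runs (R + 1) k ×ˢ Finset.range (k + 1) ×ˢ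
      Finset.range (k ^ 2 + 1))
  have := code_bound (Ex P s t k a) C1
    (fun c x => ∃ w, x = pt P s t a w ∧ Sum.elim (fun w0 => w = w0) (fun c => Mid P a k c w) c)
    (by
      intro x hx
      obtain ⟨w, rfl, ⟨h1, h2⟩ | ⟨c, h1, h2, h3⟩⟩ := H k a x hx
      · exact ⟨Sum.inl w, by simp [C1, mem_runs R k w h2 h1.le], w, rfl, rfl⟩
      · refine ⟨Sum.inr c, ?_, w, rfl, h3⟩
        obtain ⟨l1, y, rfl, c1, p1, -⟩ := h3
        have := count_add_count y
        have := phi_le y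
        simp only [List.length_append] at l1
        have : y.length ^ 2 ≤ k ^ 2 := Nat.pow_le_pow_left (by omega) 2
        simp only [C1, Finset.inr_mem_disjSum, Finset.mem_product, Finset.mem_range]
        exact ⟨mem_runs R k _ h1 (by omega), mem_runs R k _ h2 (by omega), by omega, by omega⟩)
    (by
      rintro (c | c) x y ⟨w, rfl, h1⟩ ⟨w', rfl, h2⟩
      · simp only [Sum.elim_inl] at h1 h2; rw [h1, h2]
      · simp only [Sum.elim_inr] at h1 h2; rw [Mid.unique h ho h1 h2])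
  refine ⟨this.1, this.2.trans ?_⟩
  simp only [C1, Finset.card_disjSum, Finset.card_product, Finset.card_range]
  have c1 := card_runs (R + 1) k
  rw [mul_pow] at c1
  have c2 : k ^ 2 + 1 ≤ (k + 1) ^ 2 := by rw [add_sq]; omega
  have c3 : 1 ≤ 2 ^ (R + 1) * (k + 1) ^ (R + 1) * ((k + 1) * (k + 1) ^ 2) :=
    Nat.one_le_iff_ne_zero.mpr (by positivity)
  calc _ ≤ 2 ^ (R + 1) * (k + 1) ^ (R + 1) *
        (2 ^ (R + 1) * (k + 1) ^ (R + 1) * ((k + 1) * (k + 1) ^ 2))
        + 2 ^ (R + 1) * (k + 1) ^ (R + 1) *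
        (2 ^ (R + 1) * (k + 1) ^ (R + 1) * ((k + 1) * (k + 1) ^ 2)) := by
        gcongr
        exact c1.trans (Nat.le_mul_of_pos_right _ c3)
    _ = _ := by ring

end Pool.Agent.Lib.MP_34a884_an
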