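import Mathlib
import Pool.Agent.Lib.MP_34a884_an.Count

/-! Reduction of a pair of matrices preserving a cone to the normal form. -/

namespace Pool.Agent.Lib.MP_34a884_an

open Matrix

/-- Real `2 × 2` matrices. -/
abbrev M2 := Matrix (Fin 2) (Fin 2) ℝ

/-- The product of a word in two matrices. -/
noncomputable def mw (A B : M2) (w : List Bool) : M2 := (w.map fun b => bif b then B else A).prod

@[simp] lemma mw_nil (A B : M2) : mw A B [] = 1 := rfl
@[simp] lemma mw_true (A B : M2) (w : List Bool) : mw A B (true :: w) = B * mw A B w := by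
  simp [mw]
@[simp] lemma mw_false (A B : M2) (w : List Bool) : mw A B (false :: w) = A * mw A B w := by
  simp [mw]

/-- Exposed points of the orbit of length `k`. -/
def ExM (A B : M2) (k : ℕ) (a : Fin 2 → ℝ) : Set (Fin 2 → ℝ) :=
  {x | ∃ f : (Fin 2 → ℝ) →ₗ[ℝ] ℝ, (∃ w : List Bool, w.length = k ∧ x = mw A B w *ᵥ a) ∧
    ∀ w' : List Bool, w'.length = k → mw A B w' *ᵥ a = x ∨ f (mw A B w' *ᵥ a) < f x}

/-- Polynomial bound on the number of exposed points. -/
def PB (A B : M2) : Prop :=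
  ∃ C D : ℕ, ∀ (k : ℕ) (a : Fin 2 → ℝ), (ExM A B k a).Finite ∧ (ExM A B k a).ncard ≤ C * (k + 1) ^ D

/-- Determinant of two vectors. -/
def d2 (x y : Fin 2 → ℝ) : ℝ := x 0 * y 1 - x 1 * y 0

lemma mulVec2 (A : M2) (x : Fin 2 → ℝ) (i : Fin 2) : (A *ᵥ x) i = A i 0 * x 0 + A i 1 * x 1 := by
  simp [Matrix.mulVec, dotProduct, Fin.sum_univ_two]

lemma ext2 {x y : Fin 2 → ℝ} (h0 : x 0 = y 0) (h1 : x 1 = y 1) : x = y := by
  ext i; fin_cases i
  · exact h0
  · exact h1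

lemma d2_eig {A : M2} {e : Fin 2 → ℝ} {c : ℝ} (h : A *ᵥ e = c • e) (x : Fin 2 → ℝ) :
    d2 e (A *ᵥ x) = (A 0 0 + A 1 1 - c) * d2 e x := by
  have h0 := congrFun h 0
  have h1 := congrFun h 1
  simp only [mulVec2, Pi.smul_apply, smul_eq_mul] at h0 h1
  simp only [d2, mulVec2]
  linear_combination (x 0) * h1 - (x 1) * h0

lemma par_of_d2 {e x : Fin 2 → ℝ} (he : e ≠ 0) (h : d2 e x = 0) : ∃ τ : ℝ, x = τ • e := by
  unfold d2 at h
  by_cases h0 : e 0 = 0
  · have h1 : e 1 ≠ 0 := fun h1 => he (ext2 h0 h1)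
    refine ⟨x 1 / e 1, ext2 ?_ ?_⟩
    · rw [h0] at h
      have : e 1 * x 0 = 0 := by linarith
      simp [h0, (mul_eq_zero.mp this).resolve_left h1]
    · simp [h1]
  · refine ⟨x 0 / e 0, ext2 ?_ ?_⟩
    · simp [h0]
    · simp only [Pi.smul_apply, smul_eq_mul]; field_simp; linarith

lemma pb_eig {A B : M2} {e : Fin 2 → ℝ} (he : e ≠ 0) {c c' : ℝ} (hA : A *ᵥ e = c • e)
    (hB : B *ᵥ e = c' • e) : PB A B := by
  classical
  have key : ∀ (w : List Bool) (a : Fin 2 → ℝ), d2 e (mw A B w *ᵥ a)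
      = (A 0 0 + A 1 1 - c) ^ w.count false * (B 0 0 + B 1 1 - c') ^ w.count true * d2 e a := by
    intro w a
    induction w with
    | nil => simp
    | cons b w ih =>
      cases b
      · rw [mw_false, ← Matrix.mulVec_mulVec, d2_eig hA, ih]; simp; ring
      · rw [mw_true, ← Matrix.mulVec_mulVec, d2_eig hB, ih]; simp; ring
  refine ⟨2, 1, fun k a => ?_⟩
  have := code_bound (ExM A B k a) (Finset.range (k + 1) ×ˢ (Finset.univ : Finset Bool))
    (fun c x => ∃ f : (Fin 2 → ℝ) →ₗ[ℝ] ℝ, (∃ w : List Bool, w.length = k ∧ x = mw A B w *ᵥ a ∧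
      w.count true = c.1) ∧ (c.2 = true ↔ 0 < f e) ∧
      ∀ w' : List Bool, w'.length = k → mw A B w' *ᵥ a = x ∨ f (mw A B w' *ᵥ a) < f x)
    (by
      rintro x ⟨f, ⟨w, h1, rfl⟩, h2⟩
      have := count_add_count w
      have hk : w.count true ≤ k := by omega
      exact ⟨(w.count true, decide (0 < f e)), Finset.mem_product.mpr
        ⟨Finset.mem_range.mpr (Nat.lt_succ_of_le hk), Finset.mem_univ _⟩, f,
        ⟨w, h1, rfl, rfl⟩, by simp, h2⟩)
    (by
      rintro c x y ⟨f, ⟨w, h1, rfl, h2⟩, h3, h4⟩ ⟨f', ⟨w', h1', rfl, h2'⟩, h3', h4'⟩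
      have hp := perm_of_count (h1.trans h1'.symm) (h2.trans h2'.symm)
      have e1 : d2 e (mw A B w *ᵥ a - mw A B w' *ᵥ a) = 0 := by
        have k1 := key w a
        have k2 := key w' a
        rw [hp.count_eq, hp.count_eq, ← k2] at k1
        simp only [d2, Pi.sub_apply] at k1 ⊢
        linarith
      obtain ⟨τ, hτ⟩ := par_of_d2 he e1
      rcases h4 w' h1' with g1 | g1
      · exact g1.symm
      rcases h4' w h1 with g2 | g2
      · exact g2
      have m1 := congrArg f hτ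
      have m2 := congrArg f' hτ
      simp only [map_sub, map_smul, smul_eq_mul] at m1 m2
      have n1 : 0 < τ * f e := by linarith
      have n2 : τ * f' e < 0 := by linarith
      by_cases hc : c.2 = true
      · have := h3.mp hc
        have := h3'.mp hc
        nlinarith
      · have a1 : f e ≤ 0 := not_lt.mp (fun h => hc (h3.mpr h))
        have a2 : f' e ≤ 0 := not_lt.mp (fun h => hc (h3'.mpr h))
        rcases le_total τ 0 with b | b
        · nlinarith [mul_nonneg_of_nonpos_of_nonpos b a2]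
        · nlinarith [mul_nonneg b (neg_nonneg.mpr a1)])
  refine ⟨this.1, this.2.trans ?_⟩
  simp [mul_comm]

lemma pb_normal {A B : M2} {P : Par} (h : P.Pos) (ho : P.Ord) (hd : P.dL ≠ 0) {s t : ℝ}
    (hs : s = 1 ∨ s = -1) (ht : t = 1 ∨ t = -1) {u v : Fin 2 → ℝ} (huv : d2 u v ≠ 0)
    (h1 : A *ᵥ u = (s * P.l) • u) (h2 : A *ᵥ v = (s * P.p) • u + (s * P.m) • v)
    (h3 : B *ᵥ u = (t * P.n) • u + (t * P.r) • v) (h4 : B *ᵥ v = (t * P.q) • v) : PB A B := by
  obtain ⟨C, D, H⟩ := count_normal h ho hd hs ht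
  set φ : ℝ × ℝ → (Fin 2 → ℝ) := fun x => x.1 • u + x.2 • v with hφ
  have key : ∀ (w : List Bool) (x : ℝ × ℝ), mw A B w *ᵥ φ x = φ (pt P s t x w) := by
    intro w x
    induction w with
    | nil => simp [pt, sg]
    | cons b w ih =>
      cases b
      · rw [mw_false, ← Matrix.mulVec_mulVec, ih]
        simp only [hφ, Matrix.mulVec_add, Matrix.mulVec_smul, h1, h2, pt, sg, act_cons, stp]
        refine ext2 ?_ ?_ <;> simp <;> ring
      · rw [mw_true, ← Matrix.mulVec_mulVec, ih]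
        simp only [hφ, Matrix.mulVec_add, Matrix.mulVec_smul, h3, h4, pt, sg, act_cons, stp]
        refine ext2 ?_ ?_ <;> simp <;> ring
  have inj : ∀ x y, φ x = φ y → x = y := by
    intro x y hxy
    have a0 := congrFun hxy 0
    have a1 := congrFun hxy 1
    simp only [hφ, Pi.add_apply, Pi.smul_apply, smul_eq_mul] at a0 a1
    unfold d2 at huv
    refine Prod.ext (mul_right_cancel₀ huv ?_) (mul_right_cancel₀ huv ?_)
    · linear_combination (v 1) * a0 - (v 0) * a1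
    · linear_combination (u 0) * a1 - (u 1) * a0
  refine ⟨C, D, fun k a => ?_⟩
  obtain ⟨a', rfl⟩ : ∃ a', a = φ a' := by
    refine ⟨(d2 a v / d2 u v, d2 u a / d2 u v), ext2 ?_ ?_⟩ <;>
      simp only [hφ, Pi.add_apply, Pi.smul_apply, smul_eq_mul] <;> field_simp <;>
      simp only [d2] <;> ring
  have hsub : ExM A B k (φ a') ⊆ φ '' Ex P s t k a' := by
    rintro x ⟨f, ⟨w, hw, rfl⟩, hx⟩
    set g : ℝ × ℝ := ((f u * (P.q - P.n) - f v * P.r) / P.dL,
      ((P.l - P.m) * f v - P.p * f u) / P.dL) with hg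
    have hf : ∀ y, pr P g y = f (φ y) := by
      intro y
      simp only [hφ, map_add, map_smul, smul_eq_mul, pr, xi, hg]
      field_simp
      simp only [Par.dL]; ring
    refine ⟨pt P s t a' w, ⟨g, ⟨w, hw, rfl⟩, fun w' hw' => ?_⟩, (key w a').symm⟩
    rcases hx w' hw' with e | e
    · left; rw [key, key] at e; exact inj _ _ e
    · right; rw [key, key] at e; rwa [hf, hf]
  obtain ⟨f1, f2⟩ := H k a'
  exact ⟨(f1.image φ).subset hsub,
    (Set.ncard_le_ncard hsub (f1.image φ)).trans ((Set.ncard_image_le f1).trans f2)⟩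

lemma pf2 {A : M2} (h0 : ∀ i j, 0 ≤ A i j) (hdet : 0 < A 0 0 * A 1 1 - A 0 1 * A 1 0) :
    ∃ (l m : ℝ) (e : Fin 2 → ℝ), 0 < m ∧ m ≤ l ∧ 0 ≤ e 0 ∧ 0 ≤ e 1 ∧ e ≠ 0 ∧ A *ᵥ e = l • e ∧
      ∀ y : Fin 2 → ℝ, 0 ≤ y 0 → 0 ≤ y 1 → ∃ p : ℝ, 0 ≤ p ∧ A *ᵥ y = p • e + m • y := by
  have ha := h0 0 0
  have hb := h0 0 1
  have hc := h0 1 0
  have hd := h0 1 1
  generalize hα : A 0 0 = α at *
  generalize hβ : A 0 1 = β at *
  generalize hγ : A 1 0 = γ at *
  generalize hδ : A 1 1 = δ at *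
  have hD : 0 ≤ (α - δ) ^ 2 + 4 * (β * γ) := by positivity
  set z := Real.sqrt ((α - δ) ^ 2 + 4 * (β * γ)) with hz
  have z0 : 0 ≤ z := Real.sqrt_nonneg _
  have z2 : z * z = (α - δ) ^ 2 + 4 * (β * γ) := Real.mul_self_sqrt hD
  have hbc := mul_nonneg hb hc
  have z3 : |α - δ| ≤ z := by
    rw [hz]; exact Real.abs_le_sqrt (by linarith)
  obtain ⟨z4, z5⟩ := abs_le.mp z3
  have z6 : z < α + δ := by
    by_contra hc'; push Not at hc'; nlinarith
  set a' := (α - δ + z) / 2 with ha'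
  set d' := (δ - α + z) / 2 with hd'
  have a0 : 0 ≤ a' := by rw [ha']; linarith
  have d0 : 0 ≤ d' := by rw [hd']; linarith
  have ad : a' * d' = β * γ := by rw [ha', hd']; linear_combination (1 / 4) * z2
  have eα : α = a' + (α + δ - z) / 2 := by rw [ha']; ring
  have eδ : δ = d' + (α + δ - z) / 2 := by rw [hd']; ring
  have ez : z = a' + d' := by rw [ha', hd']; ring
  generalize (α + δ - z) / 2 = m at *
  have m0 : 0 < m := by linarith
  clear_value a' d'
  by_cases hS : a' + β + γ + d' = 0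
  · have t1 : α = m := by linarith
    have t2 : β = 0 := by linarith
    have t3 : γ = 0 := by linarith
    have t4 : δ = m := by linarith
    refine ⟨m, m, ![1, 0], m0, le_rfl, by simp, by simp, by simp, ext2 ?_ ?_,
      fun y _ _ => ⟨0, le_rfl, ext2 ?_ ?_⟩⟩ <;> simp [mulVec2, hα, hβ, hγ, hδ, t1, t2, t3, t4]
  have hS' : 0 < a' + β + γ + d' := lt_of_le_of_ne (by positivity) (Ne.symm hS)
  refine ⟨m + (a' + d'), m, ![a' + β, γ + d'], m0, by linarith, by simpa using by positivity,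
    by simpa using by positivity, ?_, ext2 ?_ ?_, fun y y0 y1 =>
      ⟨((a' + γ) * y 0 + (β + d') * y 1) / (a' + β + γ + d'), by positivity, ext2 ?_ ?_⟩⟩
  · intro h
    have b0 := congrFun h 0
    have b1 := congrFun h 1
    simp at b0 b1
    linarith
  · simp [mulVec2, hα, hβ]; rw [eα]; linear_combination -ad
  · simp [mulVec2, hγ, hδ]; rw [eδ]; linear_combination -ad
  · simp [mulVec2, hα, hβ]; rw [eα]; field_simp; linear_combination (y 0 - y 1) * ad
  · simp [mulVec2, hγ, hδ]; rw [eδ]; field_simp; linear_combination (y 1 - y 0) * ad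

lemma pb_cone {A B S A' B' : M2} {s t : ℝ} (hA : 0 < A.det) (hB : 0 < B.det) (hS : S.det ≠ 0)
    (hs : s = 1 ∨ s = -1) (ht : t = 1 ∨ t = -1) (hA' : ∀ i j, 0 ≤ A' i j)
    (hB' : ∀ i j, 0 ≤ B' i j) (eA : A * S = s • (S * A')) (eB : B * S = t • (S * B')) :
    PB A B := by
  have dpos : ∀ {X X' : M2} {c : ℝ}, (c = 1 ∨ c = -1) → 0 < X.det → X * S = c • (S * X') →
      0 < X' 0 0 * X' 1 1 - X' 0 1 * X' 1 0 := by
    intro X X' c hc hX e
    have := congrArg Matrix.det e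
    rw [Matrix.det_smul, Matrix.det_mul, Matrix.det_mul, Fintype.card_fin] at this
    have c2 : c ^ 2 = 1 := by rcases hc with rfl | rfl <;> norm_num
    rw [c2, one_mul, mul_comm] at this
    rw [← Matrix.det_fin_two, ← mul_left_cancel₀ hS this]; exact hX
  have tr : ∀ {X X' : M2} {c : ℝ}, X * S = c • (S * X') → ∀ y,
      X *ᵥ (S *ᵥ y) = c • (S *ᵥ (X' *ᵥ y)) := by
    intro X X' c e y
    rw [Matrix.mulVec_mulVec, e, Matrix.smul_mulVec, Matrix.mulVec_mulVec]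
  have dS : ∀ x y, d2 (S *ᵥ x) (S *ᵥ y) = S.det * d2 x y := by
    intro x y; simp only [d2, mulVec2, Matrix.det_fin_two]; ring
  have nz : ∀ x, x ≠ 0 → S *ᵥ x ≠ 0 := by
    intro x hx h0
    have a1 := dS x ![1, 0]
    have a2 := dS x ![0, 1]
    rw [h0] at a1 a2
    simp [d2, hS] at a1 a2
    exact hx (ext2 a2 a1)
  obtain ⟨l, m, u, m0, ml, u0, u1, hu, Au, HA⟩ := pf2 hA' (dpos hs hA eA)
  obtain ⟨q, n, v, n0, nq, v0, v1, hv, Bv, HB⟩ := pf2 hB' (dpos ht hB eB)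
  obtain ⟨p, p0, Av⟩ := HA v v0 v1
  obtain ⟨r, r0, Bu⟩ := HB u u0 u1
  have h1 : A *ᵥ (S *ᵥ u) = (s * l) • (S *ᵥ u) := by
    rw [tr eA, Au, Matrix.mulVec_smul, smul_smul]
  have h2 : A *ᵥ (S *ᵥ v) = (s * p) • (S *ᵥ u) + (s * m) • (S *ᵥ v) := by
    rw [tr eA, Av, Matrix.mulVec_add, Matrix.mulVec_smul, Matrix.mulVec_smul, smul_add, smul_smul,
      smul_smul]
  have h3 : B *ᵥ (S *ᵥ u) = (t * n) • (S *ᵥ u) + (t * r) • (S *ᵥ v) := by
    rw [tr eB, Bu, Matrix.mulVec_add, Matrix.mulVec_smul, Matrix.mulVec_smul, smul_add, smul_smul,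
      smul_smul, add_comm]
  have h4 : B *ᵥ (S *ᵥ v) = (t * q) • (S *ᵥ v) := by
    rw [tr eB, Bv, Matrix.mulVec_smul, smul_smul]
  have hu' := nz u hu
  have hv' := nz v hv
  generalize S *ᵥ u = U at *
  generalize S *ᵥ v = V at *
  rcases p0.eq_or_lt with rfl | p1
  · exact pb_eig hv' (c := s * m) (by simpa using h2) h4
  rcases r0.eq_or_lt with rfl | r1
  · exact pb_eig hu' h1 (c' := t * n) (by simpa using h3)
  by_cases hUV : d2 U V = 0
  · obtain ⟨τ, hτ⟩ := par_of_d2 hu' hUV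
    exact pb_eig hu' h1 (c' := t * n + t * r * τ) (by rw [h3, hτ, smul_smul, add_smul])
  by_cases hd : (l - m) * (q - n) - p * r = 0
  · refine pb_eig (e := p • U + (m - l) • V) ?_ (c := s * m) (c' := t * n) ?_ ?_
    · intro h0
      have a0 := congrFun h0 0
      have a1 := congrFun h0 1
      simp only [Pi.add_apply, Pi.smul_apply, smul_eq_mul, Pi.zero_apply] at a0 a1
      apply mul_ne_zero p1.ne' hUV
      unfold d2
      linear_combination (V 1) * a0 - (V 0) * a1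
    · rw [Matrix.mulVec_add, Matrix.mulVec_smul, Matrix.mulVec_smul, h1, h2]
      refine ext2 ?_ ?_ <;> simp <;> ring
    · rw [Matrix.mulVec_add, Matrix.mulVec_smul, Matrix.mulVec_smul, h3, h4]
      refine ext2 ?_ ?_ <;> simp
      · linear_combination (-(t * V 0)) * hd
      · linear_combination (-(t * V 1)) * hd
  exact pb_normal (P := ⟨l, m, n, q, p, r⟩) ⟨by linarith, m0, n0, by linarith, p1, r1⟩ ⟨ml, nq⟩
    hd hs ht hUV h1 h2 h3 h4

lemma extreme_exposed {X : Set (Fin 2 → ℝ)} (hX : X.Finite) {x : Fin 2 → ℝ}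
    (hx : x ∈ (convexHull ℝ X).extremePoints ℝ) :
    x ∈ X ∧ ∃ f : (Fin 2 → ℝ) →ₗ[ℝ] ℝ, ∀ y ∈ X, y = x ∨ f y < f x := by
  have h1 : x ∈ X := extremePoints_convexHull_subset hx
  refine ⟨h1, ?_⟩
  have h2 := ((convex_convexHull ℝ X).mem_extremePoints_iff_mem_sdiff_convexHull_sdiff.mp hx).2
  have h3 : x ∉ convexHull ℝ (X \ {x}) := fun h =>
    h2 (convexHull_mono (Set.sdiff_subset_sdiff_left (subset_convexHull ℝ X)) h)
  have h4 : IsClosed (convexHull ℝ (X \ {x})) :=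
    ((hX.subset Set.sdiff_subset).isCompact_convexHull ℝ).isClosed
  obtain ⟨f, c, f1, f2⟩ := geometric_hahn_banach_closed_point (convex_convexHull ℝ _) h4 h3
  refine ⟨f, fun y hy => ?_⟩
  by_cases hyx : y = x
  · exact Or.inl hyx
  · exact Or.inr ((f1 y (subset_convexHull ℝ _ ⟨hy, hyx⟩)).trans f2)

lemma exists_bool (A B : M2) (L : List M2) (h : ∀ T ∈ L, T ∈ ({A, B} : Set M2)) :
    ∃ w : List Bool, w.length = L.length ∧ mw A B w = L.prod := by
  induction L with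
  | nil => exact ⟨[], rfl, rfl⟩
  | cons T L ih =>
    obtain ⟨w, h1, h2⟩ := ih fun T hT => h T (List.mem_cons_of_mem _ hT)
    rcases h T List.mem_cons_self with rfl | rfl
    · exact ⟨false :: w, by simp [h1], by simp [h2]⟩
    · exact ⟨true :: w, by simp [h1], by simp [h2]⟩

lemma orbit_eq (A B : M2) (k : ℕ) (a : Fin 2 → ℝ) :
    {x | ∃ L : List M2, L.length = k ∧ (∀ T ∈ L, T ∈ ({A, B} : Set M2)) ∧ x = L.prod *ᵥ a}
      = (fun w => mw A B w *ᵥ a) '' {w : List Bool | w.length = k} := by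
  ext x
  constructor
  · rintro ⟨L, rfl, h, rfl⟩
    obtain ⟨w, h1, h2⟩ := exists_bool A B L h
    exact ⟨w, h1, by simp [h2]⟩
  · rintro ⟨w, hw, rfl⟩
    refine ⟨w.map fun b => bif b then B else A, by simpa using hw, ?_, rfl⟩
    intro T hT
    obtain ⟨b, -, rfl⟩ := List.mem_map.mp hT
    cases b <;> simp

lemma pv_of_pb {A B : M2} (h : PB A B) : ∃ α d : ℝ, 0 < α ∧ 0 < d ∧ ∃ k0 : ℕ, 1 ≤ k0 ∧
    ∀ k : ℕ, k0 ≤ k → ∀ a : Fin 2 → ℝ,
      ((convexHull ℝ {x | ∃ L : List M2, L.length = k ∧ (∀ T ∈ L, T ∈ ({A, B} : Set M2)) ∧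
        x = L.prod *ᵥ a}).extremePoints ℝ).Finite ∧
      (((convexHull ℝ {x | ∃ L : List M2, L.length = k ∧ (∀ T ∈ L, T ∈ ({A, B} : Set M2)) ∧
        x = L.prod *ᵥ a}).extremePoints ℝ).ncard : ℝ) ≤ α * (k : ℝ) ^ d := by
  obtain ⟨C, D, H⟩ := h
  refine ⟨(C + 1) * 2 ^ (D + 1), ((D + 1 : ℕ) : ℝ), by positivity, by positivity, 1, le_rfl,
    fun k hk a => ?_⟩
  rw [orbit_eq]
  have hfin : ((fun w => mw A B w *ᵥ a) '' {w : List Bool | w.length = k}).Finite :=
    (List.finite_length_eq Bool k).image _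
  have hsub : (convexHull ℝ ((fun w => mw A B w *ᵥ a) '' {w : List Bool | w.length = k})
      ).extremePoints ℝ ⊆ ExM A B k a := by
    intro x hx
    obtain ⟨⟨w, hw, rfl⟩, f, hf⟩ := extreme_exposed hfin hx
    exact ⟨f, ⟨w, hw, rfl⟩, fun w' hw' => hf _ ⟨w', hw', rfl⟩⟩
  obtain ⟨f1, f2⟩ := H k a
  refine ⟨f1.subset hsub, ?_⟩
  have h1 := (Set.ncard_le_ncard hsub f1).trans f2
  have h2 : C * (k + 1) ^ D ≤ (C + 1) * 2 ^ (D + 1) * k ^ (D + 1) := by
    rw [mul_assoc, ← mul_pow]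
    calc C * (k + 1) ^ D ≤ (C + 1) * (2 * k) ^ D := by gcongr <;> omega
      _ ≤ (C + 1) * (2 * k) ^ (D + 1) := by gcongr <;> omega
  rw [Real.rpow_natCast]
  exact_mod_cast h1.trans h2

end Pool.Agent.Lib.MP_34a884_an
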