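import Mathlib

/-! Sequences of run lengths: segments, lists with few changes, and the bound on the number of
changes from the square rule and the equalisation rule. -/

namespace Pool.Agent.Lib.MP_34a884_an.Neg

/-- The list of the values `n p, …, n (p + d - 1)`. -/
def sg (n : ℕ → ℕ) (p d : ℕ) : List ℕ := (List.range' p d).map n

variable {n : ℕ → ℕ}

@[simp] lemma sg_zero (p : ℕ) : sg n p 0 = [] := rfl

lemma sg_succ (p d : ℕ) : sg n p (d + 1) = n p :: sg n (p + 1) d := by
  simp [sg, List.range'_succ]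

lemma sg_add (p d e : ℕ) : sg n p (d + e) = sg n p d ++ sg n (p + d) e := by
  induction d generalizing p with
  | zero => simp
  | succ d ih =>
    rw [show d + 1 + e = (d + e) + 1 by omega, sg_succ, sg_succ, ih,
      show p + 1 + d = p + (d + 1) by omega]
    rfl

@[simp] lemma sg_length (p d : ℕ) : (sg n p d).length = d := by simp [sg]

lemma mem_sg {p d x : ℕ} (h : x ∈ sg n p d) : ∃ i, p ≤ i ∧ i < p + d ∧ x = n i := by
  simp only [sg, List.mem_map, List.mem_range'_1] at h
  obtain ⟨i, ⟨h1, h2⟩, rfl⟩ := h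
  exact ⟨i, h1, h2, rfl⟩

lemma sg_mem {p d i : ℕ} (h1 : p ≤ i) (h2 : i < p + d) : n i ∈ sg n p d := by
  simp only [sg, List.mem_map, List.mem_range'_1]
  exact ⟨i, ⟨h1, h2⟩, rfl⟩

lemma exists_sg (l : List ℕ) : ∃ n : ℕ → ℕ, l = sg n 0 l.length := by
  refine ⟨fun i => l.getD i 0, ?_⟩
  apply List.ext_getElem
  · simp
  · intro i h1 h2
    simp [sg, List.getD_eq_getElem?_getD, List.getElem?_eq_getElem h1]

/-- Splitting a segment at one position. -/
lemma sg_split {p e i : ℕ} (h1 : p ≤ i) (h2 : i < e) :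
    sg n p (e - p) = sg n p (i - p) ++ n i :: sg n (i + 1) (e - (i + 1)) := by
  rw [show e - p = (i - p) + ((e - (i + 1)) + 1) by omega, sg_add, sg_succ,
    show p + (i - p) = i by omega]

lemma sg_cons {e i : ℕ} (h2 : i < e) :
    sg n i (e - i) = n i :: sg n (i + 1) (e - (i + 1)) := by
  have := sg_split (n := n) (le_refl i) h2
  simpa using this

lemma sg_const (p d : ℕ) (h : ∀ i, p ≤ i → i + 1 < p + d → n i = n (i + 1)) :
    sg n p d = List.replicate d (n p) := by
  induction d generalizing p with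
  | zero => simp
  | succ d ih =>
    rw [sg_succ, ih (p + 1) fun i h1 h2 => h i (by omega) (by omega), List.replicate_succ]
    cases d with
    | zero => rfl
    | succ d => rw [← h p le_rfl (by omega)]

/-- Lists that are a concatenation of at most `R` constant blocks. -/
def runsN : ℕ → ℕ → Finset (List ℕ)
  | 0, _ => {[]}
  | R + 1, k => ((Finset.range (k + 1)) ×ˢ (Finset.range (k + 1)) ×ˢ runsN R k).image
      (fun z => List.replicate z.2.1 z.1 ++ z.2.2)

lemma card_runsN (R k : ℕ) : (runsN R k).card ≤ (k + 1) ^ (2 * R) := by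
  induction R with
  | zero => simp [runsN]
  | succ R ih =>
    refine Finset.card_image_le.trans ?_
    simp only [Finset.card_product, Finset.card_range]
    calc (k + 1) * ((k + 1) * (runsN R k).card) ≤ (k + 1) * ((k + 1) * (k + 1) ^ (2 * R)) := by
          gcongr
      _ = (k + 1) ^ (2 * (R + 1)) := by ring

lemma mem_runsN_succ {R k : ℕ} {w : List ℕ} (v c : ℕ) (hv : v ≤ k) (hc : c ≤ k)
    (hw : w ∈ runsN R k) : List.replicate c v ++ w ∈ runsN (R + 1) k := by
  simp only [runsN, Finset.mem_image]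
  exact ⟨(v, c, w), by simp [hw]; omega, rfl⟩

lemma nil_mem_runsN (R k : ℕ) : [] ∈ runsN R k := by
  induction R with
  | zero => simp [runsN]
  | succ R ih => simpa using mem_runsN_succ 0 0 (Nat.zero_le k) (Nat.zero_le k) ih

/-- Positions where the sequence changes its value. -/
def Ch (n : ℕ → ℕ) (p e : ℕ) : Finset ℕ :=
  (Finset.Ico p e).filter fun i => i + 1 < e ∧ n i ≠ n (i + 1)

lemma mem_Ch {p e i : ℕ} : i ∈ Ch n p e ↔ p ≤ i ∧ i + 1 < e ∧ n i ≠ n (i + 1) := by
  simp only [Ch, Finset.mem_filter, Finset.mem_Ico]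
  constructor
  · rintro ⟨⟨a, -⟩, b, c⟩; exact ⟨a, b, c⟩
  · rintro ⟨a, b, c⟩; exact ⟨⟨a, by omega⟩, b, c⟩

lemma mem_runsN_of_empty {R k p e : ℕ} (he : e ≤ k) (hn : ∀ i, i < e → n i ≤ k)
    (h : Ch n p e = ∅) : sg n p (e - p) ∈ runsN (R + 1) k := by
  rcases le_or_gt e p with hp | hp
  · rw [show e - p = 0 by omega]; exact nil_mem_runsN _ _
  rw [sg_const p (e - p) fun i h1 h2 => by
    by_contra hc
    have : i ∈ Ch n p e := mem_Ch.mpr ⟨h1, by omega, hc⟩
    rw [h] at this; simp at this]
  simpa using mem_runsN_succ (n p) (e - p) (hn p hp) (by omega) (nil_mem_runsN R k)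

lemma mem_runsN {k e : ℕ} (he : e ≤ k) (hn : ∀ i, i < e → n i ≤ k) (R : ℕ) :
    ∀ p, (Ch n p e).card ≤ R → sg n p (e - p) ∈ runsN (R + 1) k := by
  induction R with
  | zero => exact fun p h => mem_runsN_of_empty he hn (Finset.card_eq_zero.mp (by omega))
  | succ R ih =>
    intro p h
    rcases (Ch n p e).eq_empty_or_nonempty with h0 | h0
    · exact mem_runsN_of_empty he hn h0
    have m0 := (Ch n p e).min'_mem h0
    have l0 : ∀ i ∈ Ch n p e, (Ch n p e).min' h0 ≤ i := fun i hi => Finset.min'_le _ _ hi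
    generalize (Ch n p e).min' h0 = i0 at m0 l0
    obtain ⟨a1, a2, a3⟩ := mem_Ch.mp m0
    rw [show e - p = (i0 + 1 - p) + (e - (i0 + 1)) by omega, sg_add,
      show p + (i0 + 1 - p) = i0 + 1 by omega, sg_const p _ fun i h1 h2 => by
        by_contra hc
        have := l0 i (mem_Ch.mpr ⟨h1, by omega, hc⟩)
        omega]
    refine mem_runsN_succ _ _ (hn p (by omega)) (by omega) (ih _ ?_)
    have hs : Ch n (i0 + 1) e ⊆ (Ch n p e).erase i0 := by
      intro i hi
      obtain ⟨b1, b2, b3⟩ := mem_Ch.mp hi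
      exact Finset.mem_erase.mpr ⟨by omega, mem_Ch.mpr ⟨by omega, b2, b3⟩⟩
    have := Finset.card_le_card hs
    rw [Finset.card_erase_of_mem m0] at this
    omega

/-- The square rule. -/
def Sq (n : ℕ → ℕ) (m : ℕ) : Prop :=
  ∀ i q, 1 ≤ i → i + 3 ≤ q → q + 1 < m → n i = n q → n i ≤ n (i - 1) + n (i + 1) →
    n q ≤ n (q - 1) + n (q + 1) → n (i + 1) = n i

/-- The equalisation rule in a stretch of long runs. -/
def Eqz (L D : ℕ) (n : ℕ → ℕ) (m : ℕ) : Prop :=
  ∀ i j, i + 1 ≤ j → j + 2 < m → (∀ l, i ≤ l → l ≤ j + 2 → L ≤ n l) →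
    n j ≤ n (i + 1) + D ∧ n (i + 1) ≤ n j + D

/-- A change at a position which is not a peak. -/
def NP (n : ℕ → ℕ) (m i : ℕ) : Prop :=
  1 ≤ i ∧ i + 1 < m ∧ n i ≠ n (i + 1) ∧ n i ≤ n (i - 1) + n (i + 1)

lemma np_card {m : ℕ} (h : Sq n m) (V X : Finset ℕ) (hX : ∀ i ∈ X, NP n m i ∧ n i ∈ V) :
    X.card ≤ V.card * 3 := by
  have aux : ∀ i ∈ X, ∀ q ∈ X, n i = n q → i % 3 = q % 3 → ¬ i < q := by
    intro i hi q hq e1 e2 hlt
    obtain ⟨⟨a1, a2, a3, a4⟩, -⟩ := hX i hi
    obtain ⟨⟨b1, b2, b3, b4⟩, -⟩ := hX q hq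
    exact a3 (h i q a1 (by omega) b2 e1 a4 b4).symm
  have := Finset.card_le_card_of_injOn (s := X) (t := V ×ˢ Finset.range 3)
    (fun i => (n i, i % 3))
    (fun i hi => by
      simp only [Finset.coe_product, Set.mem_prod, Finset.mem_coe, Finset.mem_range]
      exact ⟨(hX i hi).2, Nat.mod_lt _ (by norm_num)⟩)
    (fun i hi q hq e => by
      simp only [Prod.mk.injEq] at e
      have h1 := aux i hi q hq e.1 e.2
      have h2 := aux q hq i hi e.1.symm e.2.symm
      omega)
  simpa using this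

lemma values {m L D : ℕ} (h : Sq n m) (h2 : Eqz L D n m) :
    ∃ V : Finset ℕ, V.card ≤ L + (L * 3 + 2) * (3 + (2 * D + 1)) ∧ ∀ i, i < m → n i ∈ V := by
  classical
  have ex : ∀ u, ∃ q, u ≤ q ∧ (m ≤ q ∨ n q < L) := fun u =>
    ⟨max u m, le_max_left _ _, Or.inl (le_max_right _ _)⟩
  let S := (Finset.range m).filter fun i => NP n m i ∧ n i < L
  have hS : S.card ≤ L * 3 := by
    have := np_card h (Finset.range L) S fun i hi => by
      simp only [S, Finset.mem_filter] at hi
      exact ⟨hi.2.1, Finset.mem_range.mpr hi.2.2⟩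
    simpa using this
  let Y := insert 0 (insert 1 (S.image (· + 1)))
  have hY : Y.card ≤ L * 3 + 2 := by
    have a1 := Finset.card_insert_le 0 (insert 1 (S.image (· + 1)))
    have a2 := Finset.card_insert_le 1 (S.image (· + 1))
    have a3 := Finset.card_image_le (s := S) (f := (· + 1))
    simp only [Y]; omega
  let W : ℕ → Finset ℕ := fun u =>
    {n u, n (Nat.find (ex u) - 1), n (Nat.find (ex u) - 2)} ∪
      Finset.Icc (n (u + 1) - D) (n (u + 1) + D)
  refine ⟨Finset.range L ∪ Y.biUnion W, ?_, fun i hi => ?_⟩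
  · refine (Finset.card_union_le _ _).trans ?_
    rw [Finset.card_range]
    gcongr
    refine (Finset.card_biUnion_le_card_mul Y W (3 + (2 * D + 1)) fun u _ => ?_).trans ?_
    · refine (Finset.card_union_le _ _).trans ?_
      have a1 := Finset.card_le_three (a := n u) (b := n (Nat.find (ex u) - 1))
        (c := n (Nat.find (ex u) - 2))
      rw [Nat.card_Icc]
      omega
    · gcongr
  by_cases hL : n i < L
  · exact Finset.mem_union_left _ (Finset.mem_range.mpr hL)
  refine Finset.mem_union_right _ ?_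
  have ex2 : ∃ u, ∀ l, u ≤ l → l ≤ i → L ≤ n l :=
    ⟨i, fun l a b => by rw [show l = i by omega]; omega⟩
  have u1 := Nat.find_spec ex2
  have u2 : ∀ v, v < Nat.find ex2 → ¬ ∀ l, v ≤ l → l ≤ i → L ≤ n l := fun v => Nat.find_min ex2
  have u3 : Nat.find ex2 ≤ i :=
    Nat.find_min' ex2 fun l a b => by rw [show l = i by omega]; omega
  generalize Nat.find ex2 = u at u1 u2 u3
  refine Finset.mem_biUnion.mpr ⟨u, ?_, ?_⟩
  · simp only [Y, Finset.mem_insert, Finset.mem_image]
    rcases Nat.lt_or_ge u 2 with hu | hu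
    · omega
    right; right
    have b1 : n (u - 1) < L := by
      by_contra hc
      refine u2 (u - 1) (by omega) fun l a b => ?_
      rcases Nat.lt_or_ge l u with c | c
      · rw [show l = u - 1 by omega]; omega
      · exact u1 l c b
    have b2 := u1 u le_rfl u3
    refine ⟨u - 1, ?_, by omega⟩
    simp only [S, Finset.mem_filter, Finset.mem_range, NP]
    rw [show u - 1 + 1 = u by omega]
    omega
  · have e1 := Nat.find_spec (ex u)
    have e2 : ∀ q, q < Nat.find (ex u) → ¬ (u ≤ q ∧ (m ≤ q ∨ n q < L)) :=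
      fun q => Nat.find_min (ex u)
    simp only [W]
    generalize Nat.find (ex u) = e at e1 e2
    have e3 : i < e := by
      by_contra hc
      have := u1 e e1.1 (by omega)
      omega
    simp only [Finset.mem_union, Finset.mem_insert, Finset.mem_singleton, Finset.mem_Icc]
    rcases u3.eq_or_lt with rfl | hlt
    · simp
    by_cases c1 : i + 2 < e
    · right
      have a1 := e2 (i + 2) c1
      have := h2 u i hlt (by omega) fun l a b => by
        have := e2 l (by omega)
        omega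
      omega
    · left; right
      rcases Nat.lt_or_ge (i + 1) e with c | c
      · right; rw [show e - 2 = i by omega]
      · left; rw [show e - 1 = i by omega]

lemma chg_bound (L D : ℕ) : ∃ C : ℕ, ∀ (n : ℕ → ℕ) (m : ℕ), Sq n m → Eqz L D n m →
    (Ch n 0 m).card ≤ C := by
  classical
  refine ⟨2 * ((L + (L * 3 + 2) * (3 + (2 * D + 1))) * 3) + 2, fun n m h h2 => ?_⟩
  obtain ⟨V, v1, v2⟩ := values h h2
  let X := (Finset.range m).filter fun i => NP n m i
  have hX : X.card ≤ V.card * 3 := np_card h V X fun i hi => by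
    simp only [X, Finset.mem_filter, Finset.mem_range] at hi
    exact ⟨hi.2, v2 i hi.1⟩
  have hs : Ch n 0 m ⊆ insert 0 (insert 1 (X ∪ X.image (· + 1))) := by
    intro i hi
    obtain ⟨-, a2, a3⟩ := mem_Ch.mp hi
    simp only [Finset.mem_insert, Finset.mem_union, Finset.mem_image, X, Finset.mem_filter,
      Finset.mem_range, NP]
    rcases Nat.lt_or_ge i 2 with c | c
    · omega
    right; right
    by_cases c2 : n i ≤ n (i - 1) + n (i + 1)
    · left; omega
    · right
      refine ⟨i - 1, ?_, by omega⟩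
      rw [show i - 1 + 1 = i by omega]
      omega
  have a0 := Finset.card_le_card hs
  have a1 := Finset.card_insert_le 0 (insert 1 (X ∪ X.image (· + 1)))
  have a2 := Finset.card_insert_le 1 (X ∪ X.image (· + 1))
  have a3 := Finset.card_union_le X (X.image (· + 1))
  have a4 := Finset.card_image_le (s := X) (f := (· + 1))
  have a5 : V.card * 3 ≤ (L + (L * 3 + 2) * (3 + (2 * D + 1))) * 3 := by gcongr
  omega

lemma lex_cancel (l : List ℕ) {r r' : List ℕ} (h : l ++ r ≤ l ++ r') : r ≤ r' := by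
  by_contra hc
  push Not at hc
  exact absurd h (not_le.mpr (List.append_left_lt hc))

lemma lex_head (l : List ℕ) {x y : ℕ} {r r' : List ℕ} (h : l ++ x :: r ≤ l ++ y :: r') :
    x ≤ y := by
  have h1 := lex_cancel l h
  by_contra hc
  push Not at hc
  have : y :: r' < x :: r := List.cons_lt_cons_iff.mpr (Or.inl hc)
  exact absurd h1 (not_le.mpr this)

end Pool.Agent.Lib.MP_34a884_an.Neg
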