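import Mathlib
import Pool.Agent.Lib.MP_34a884_an.NWords

/-! Multiples of an irrational number modulo one, and a second bound on the number of changes. -/

namespace Pool.Agent.Lib.MP_34a884_an.Neg

variable {τ : ℝ}

lemma irr_ne (h : Irrational τ) {n : ℕ} (hn : 1 ≤ n) (j : ℤ) : (n : ℝ) * τ - j ≠ 0 := by
  have := (h.natCast_mul (m := n) (by omega)).ne_int j
  exact sub_ne_zero.mpr this

lemma dense_mul (h : Irrational τ) {ε : ℝ} (hε : 0 < ε) : ∃ L : ℕ, ∀ x : ℝ,
    ∃ n : ℕ, n ≤ L ∧ ∃ j : ℤ, |n * τ - j - x| ≤ ε := by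
  obtain ⟨N, hN⟩ := exists_nat_one_div_lt hε
  obtain ⟨k, k0, -, hk⟩ := Real.exists_nat_abs_mul_sub_round_le τ (n := N + 1) (by omega)
  have b0 := irr_ne h k0 (round ((k : ℝ) * τ))
  generalize round ((k : ℝ) * τ) = r at hk b0
  have b1 : |k * τ - r| ≤ ε := by
    refine hk.trans (le_trans ?_ hN.le)
    push_cast
    gcongr
    linarith
  set β := k * τ - r with hβ
  refine ⟨⌈1 / |β|⌉₊ * k, fun x => ?_⟩
  obtain ⟨j0, a1, a2⟩ : ∃ j0 : ℤ, 0 ≤ (x - j0) / β ∧ |x - j0| ≤ 1 := by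
    rcases lt_or_gt_of_ne b0 with c | c
    · refine ⟨⌈x⌉, div_nonneg_of_nonpos (by linarith [Int.le_ceil x]) c.le, ?_⟩
      rw [abs_le]; constructor <;> linarith [Int.le_ceil x, Int.ceil_lt_add_one x]
    · refine ⟨⌊x⌋, div_nonneg (by linarith [Int.floor_le x]) c.le, ?_⟩
      rw [abs_le]; constructor <;> linarith [Int.floor_le x, Int.lt_floor_add_one x]
  have ab : 0 < |β| := abs_pos.mpr b0
  have a3 : (x - j0) / β ≤ 1 / |β| := by
    refine (le_abs_self _).trans ?_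
    rw [abs_div]; gcongr
  refine ⟨⌊(x - j0) / β⌋₊ * k, ?_, ⌊(x - j0) / β⌋₊ * r - j0, ?_⟩
  · gcongr
    exact (Nat.floor_le_ceil _).trans (Nat.ceil_le_ceil a3)
  have f1 := Nat.floor_le a1
  have f2 := Nat.lt_floor_add_one ((x - j0) / β)
  generalize ⌊(x - j0) / β⌋₊ = i at *
  have e : ((i * k : ℕ) : ℝ) * τ - ((i * r - j0 : ℤ) : ℝ) - x = (i - (x - j0) / β) * β := by
    push_cast
    field_simp
    rw [hβ]; ring
  rw [e, abs_mul]
  have : |(i : ℝ) - (x - j0) / β| ≤ 1 := by rw [abs_le]; constructor <;> linarith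
  nlinarith

lemma fract_le' {x : ℝ} {j : ℤ} (h : 0 ≤ x - j) : Int.fract x ≤ x - j := by
  have : j ≤ ⌊x⌋ := Int.le_floor.mpr (by linarith)
  have : (j : ℝ) ≤ ⌊x⌋ := by exact_mod_cast this
  rw [Int.fract]; linarith

lemma steps_aux (h : Irrational τ) {H q q' : ℕ} (q1 : 1 ≤ q) (q2 : q ≤ H) (q1' : 1 ≤ q')
    (m1 : ∀ r, 1 ≤ r → r ≤ H → Int.fract (q * τ) ≤ Int.fract (r * τ))
    (m2 : ∀ r, 1 ≤ r → r ≤ H → Int.fract (q' * -τ) ≤ Int.fract (r * -τ))
    (c : Int.fract (q * τ) ≤ Int.fract (q' * -τ)) :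
    ∃ (k k' : ℤ), (q * τ - k) * (q' * τ - k') < 0 ∧ |q' * τ - k'| = Int.fract (q' * -τ) ∧
      |q * τ - k| ≤ |q' * τ - k'| ∧
      (∀ r : ℕ, 1 ≤ r → r < H + 1 → ∀ j : ℤ, |q * τ - k| ≤ |r * τ - j|) ∧
      ∀ r : ℕ, 1 ≤ r → r < q → ∀ j : ℤ, |q' * τ - k'| ≤ |r * τ - j| := by
  have e1 : q * τ - (⌊q * τ⌋ : ℤ) = Int.fract (q * τ) := rfl
  have e2 : q' * τ - (-⌊q' * -τ⌋ : ℤ) = -Int.fract (q' * -τ) := by
    rw [Int.fract]; push_cast; ring
  have p1 : 0 < Int.fract (q * τ) :=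
    lt_of_le_of_ne (Int.fract_nonneg _) (e1 ▸ (irr_ne h q1 _).symm)
  have neg : ∀ (r : ℕ) (j : ℤ), 1 ≤ r → r ≤ H → r * τ - j ≤ 0 →
      Int.fract (q' * -τ) ≤ -(r * τ - j) := by
    intro r j r1 r2 hc
    refine (m2 r r1 r2).trans ?_
    have := fract_le' (x := r * -τ) (j := -j) (by push_cast; linarith)
    push_cast at this; linarith
  refine ⟨⌊q * τ⌋, -⌊q' * -τ⌋, ?_, ?_, ?_, fun r r1 r2 j => ?_, fun r r1 r2 j => ?_⟩
  · rw [e1, e2]; nlinarith
  · rw [e2, abs_neg, abs_of_nonneg (Int.fract_nonneg _)]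
  · rwa [e1, e2, abs_neg, abs_of_pos p1, abs_of_nonneg (Int.fract_nonneg _)]
  · rw [e1, abs_of_pos p1]
    rcases le_total 0 (r * τ - j) with d | d
    · rw [abs_of_nonneg d]; exact (m1 r r1 (by omega)).trans (fract_le' d)
    · rw [abs_of_nonpos d]; exact c.trans (neg r j r1 (by omega) d)
  · rw [e2, abs_neg, abs_of_nonneg (Int.fract_nonneg _)]
    rcases le_total 0 (r * τ - j) with d | d
    · rw [abs_of_nonneg d]
      have a1 := (m1 r r1 (by omega)).trans (fract_le' d)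
      have a2 := neg (q - r) (⌊q * τ⌋ - j) (by omega) (by omega)
      rw [Nat.cast_sub r2.le] at a2
      push_cast at a2
      have := a2 (by linarith)
      linarith
    · rw [abs_of_nonpos d]; exact neg r j r1 (by omega) d

lemma steps (h : Irrational τ) {ε : ℝ} (hε : 0 < ε) (hε1 : ε < 1) : ∃ H0 : ℕ, ∀ H, H0 ≤ H →
    ∃ (q q' : ℕ) (k k' : ℤ), 1 ≤ q ∧ q ≤ H ∧ q' ≤ H ∧ (q * τ - k) * (q' * τ - k') < 0 ∧
      |q' * τ - k'| ≤ ε ∧ |q * τ - k| ≤ |q' * τ - k'| ∧
      (∀ r : ℕ, 1 ≤ r → r < H + 1 → ∀ j : ℤ, |q * τ - k| ≤ |r * τ - j|) ∧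
      ∀ r : ℕ, 1 ≤ r → r < q → ∀ j : ℤ, |q' * τ - k'| ≤ |r * τ - j| := by
  have small : ∀ σ : ℝ, Irrational σ → ∃ r : ℕ, 1 ≤ r ∧ Int.fract (r * σ) ≤ ε := by
    intro σ hσ
    obtain ⟨L, hL⟩ := dense_mul hσ (ε := ε / 4) (by positivity)
    obtain ⟨n, -, j, hj⟩ := hL (ε / 2)
    obtain ⟨a1, a2⟩ := abs_le.mp hj
    refine ⟨n, ?_, (fract_le' (j := j) (by linarith)).trans (by linarith)⟩
    by_contra hc
    obtain rfl : n = 0 := by omega
    have b1 : (j : ℝ) < 0 := by simp at a1; linarith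
    have b2 : (-1 : ℝ) < j := by simp at a2; linarith
    have b3 : j < 0 := by exact_mod_cast b1
    have b4 : -1 < j := by exact_mod_cast b2
    omega
  obtain ⟨r1, a1, b1⟩ := small τ h
  obtain ⟨r2, a2, b2⟩ := small (-τ) h.neg
  refine ⟨r1 + r2, fun H hH => ?_⟩
  obtain ⟨q, hq, m1⟩ := (Finset.Icc 1 H).exists_min_image (fun r : ℕ => Int.fract (r * τ))
    ⟨1, by simp; omega⟩
  obtain ⟨q', hq', m2⟩ := (Finset.Icc 1 H).exists_min_image (fun r : ℕ => Int.fract (r * -τ))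
    ⟨1, by simp; omega⟩
  simp only [Finset.mem_Icc, and_imp] at hq hq' m1 m2
  rcases le_total (Int.fract (q * τ)) (Int.fract (q' * -τ)) with c | c
  · obtain ⟨k, k', s1, s2, s3, s4, s5⟩ := steps_aux h hq.1 hq.2 hq'.1 m1 m2 c
    exact ⟨q, q', k, k', hq.1, hq.2, hq'.2, s1, s2 ▸ (m2 r2 a2 (by omega)).trans b2, s3, s4, s5⟩
  · obtain ⟨k, k', s1, s2, s3, s4, s5⟩ := steps_aux h.neg hq'.1 hq'.2 hq.1 m2
      (by simpa using m1) (by simpa using c)
    have e : ∀ (r : ℕ) (j : ℤ), |r * -τ - j| = |r * τ - (-j : ℤ)| := fun r j => by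
      rw [← abs_neg]; congr 1; push_cast; ring
    simp only [e, neg_neg] at s2 s3 s4 s5
    refine ⟨q', q, -k, -k', hq'.1, hq'.2, hq.2, by push_cast; linarith,
      s2 ▸ (m1 r1 a1 (by omega)).trans b1, s3, fun r c1 c2 j => ?_, fun r c1 c2 j => ?_⟩
    · simpa using s4 r c1 c2 (-j)
    · simpa using s5 r c1 c2 (-j)

lemma pack {u : ℝ} (hu : 0 < u) (K Q : ℕ)
    (hsep : ∀ r : ℕ, 1 ≤ r → r < Q → ∀ j : ℤ, u ≤ |r * τ - j|) (x0 : ℝ) :
    ∃ V : Finset ℕ, V.card ≤ 2 * K + 1 ∧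
      ∀ n : ℕ, n < Q → (∃ j : ℤ, |n * τ - x0 - j| ≤ K * u) → n ∈ V := by
  classical
  refine ⟨(Finset.range Q).filter fun n => ∃ j : ℤ, |n * τ - x0 - j| ≤ K * u, ?_,
    fun n h1 h2 => Finset.mem_filter.mpr ⟨Finset.mem_range.mpr h1, h2⟩⟩
  let J : ℕ → ℤ := fun n => Classical.epsilon fun j : ℤ => |n * τ - x0 - j| ≤ K * u
  have aux : ∀ n n' : ℕ, n < n' → n' < Q →
      ⌊(n * τ - x0 - J n) / u⌋ ≠ ⌊(n' * τ - x0 - J n') / u⌋ := by
    intro n n' h1 h2 e
    have a := Int.abs_sub_lt_one_of_floor_eq_floor e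
    rw [← sub_div, abs_div, abs_of_pos hu, div_lt_one hu, ← abs_neg] at a
    have b := hsep (n' - n) (by omega) (by omega) (J n' - J n)
    rw [Nat.cast_sub h1.le] at b
    push_cast at b
    have : -(n * τ - x0 - J n - (n' * τ - x0 - J n')) = (n' - n) * τ - (J n' - J n) := by ring
    rw [this] at a
    linarith
  have := Finset.card_le_card_of_injOn
    (s := (Finset.range Q).filter fun n : ℕ => ∃ j : ℤ, |n * τ - x0 - j| ≤ K * u)
    (t := Finset.Icc (-(K : ℤ)) K) (fun n : ℕ => ⌊(n * τ - x0 - J n) / u⌋)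
    (fun n hn => by
      simp only [Finset.coe_filter, Set.mem_ofPred_eq] at hn
      obtain ⟨a1, a2⟩ := abs_le.mp (show |n * τ - x0 - J n| ≤ K * u from
        Classical.epsilon_spec hn.2)
      simp only [Finset.coe_Icc, Set.mem_Icc]
      constructor
      · rw [Int.le_floor, le_div_iff₀ hu]; push_cast; linarith
      · refine Int.floor_le_iff.mpr ?_
        rw [div_lt_iff₀ hu]; push_cast; linarith)
    (fun n hn n' hn' e => by
      simp only [Finset.coe_filter, Set.mem_ofPred_eq, Finset.mem_range] at hn hn'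
      by_contra hc
      rcases lt_or_gt_of_ne hc with c | c
      · exact aux n n' c hn'.1 e
      · exact aux n' n c hn.1 e.symm)
  rw [Int.card_Icc] at this
  omega

variable {n : ℕ → ℕ}

lemma values3 {m L C : ℕ} (h : Sq n m) {Vs : Finset ℕ} (hC : Vs.card ≤ C)
    (h1 : ∀ i, 1 ≤ i → i + 1 < m → n i < L → n i ∈ Vs)
    (h2 : ∀ u, ∃ V : Finset ℕ, V.card ≤ C ∧ ∀ j, u + 1 ≤ j → j + 2 < m →
      (∀ l, u ≤ l → l ≤ j + 2 → L ≤ n l) → n j ∈ V) :
    ∃ V : Finset ℕ, V.card ≤ C + (C * 3 + 2) * (3 + C) ∧ ∀ i, 1 ≤ i → i + 1 < m → n i ∈ V := by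
  classical
  choose Vl v1 v2 using h2
  have ex : ∀ u, ∃ q, u ≤ q ∧ (m ≤ q ∨ n q < L) := fun u =>
    ⟨max u m, le_max_left _ _, Or.inl (le_max_right _ _)⟩
  let S := (Finset.range m).filter fun i => NP n m i ∧ n i < L
  have hS : S.card ≤ C * 3 := by
    have := np_card h Vs S fun i hi => by
      simp only [S, Finset.mem_filter] at hi
      exact ⟨hi.2.1, h1 i hi.2.1.1 hi.2.1.2.1 hi.2.2⟩
    omega
  let Y := insert 0 (insert 1 (S.image (· + 1)))
  have hY : Y.card ≤ C * 3 + 2 := by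
    have a1 := Finset.card_insert_le 0 (insert 1 (S.image (· + 1)))
    have a2 := Finset.card_insert_le 1 (S.image (· + 1))
    have a3 := Finset.card_image_le (s := S) (f := (· + 1))
    simp only [Y]; omega
  let W : ℕ → Finset ℕ := fun u =>
    {n u, n (Nat.find (ex u) - 1), n (Nat.find (ex u) - 2)} ∪ Vl u
  refine ⟨Vs ∪ Y.biUnion W, ?_, fun i hi0 hi => ?_⟩
  · refine (Finset.card_union_le _ _).trans ?_
    gcongr
    refine (Finset.card_biUnion_le_card_mul Y W (3 + C) fun u _ => ?_).trans ?_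
    · refine (Finset.card_union_le _ _).trans ?_
      have a1 := Finset.card_le_three (a := n u) (b := n (Nat.find (ex u) - 1))
        (c := n (Nat.find (ex u) - 2))
      have := v1 u
      omega
    · gcongr
  by_cases hL : n i < L
  · exact Finset.mem_union_left _ (h1 i hi0 hi hL)
  refine Finset.mem_union_right _ ?_
  have ex2 : ∃ u, ∀ l, u ≤ l → l ≤ i → L ≤ n l :=
    ⟨i, fun l a b => by rw [show l = i by omega]; omega⟩
  have u1 := Nat.find_spec ex2
  have u2 : ∀ v, v < Nat.find ex2 → ¬ ∀ l, v ≤ l → l ≤ i → L ≤ n l := fun v => Nat.find_min ex2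
  have u3 : Nat.find ex2 ≤ i :=
    Nat.find_min' ex2 fun l a b => by rw [show l = i by omega]; omega
  generalize Nat.find ex2 = u at u1 u2 u3
  refine Finset.mem_biUnion.mpr ⟨u, ?_, ?_⟩
  · simp only [Y, Finset.mem_insert, Finset.mem_image]
    rcases Nat.lt_or_ge u 2 with hu | hu
    · omega
    right; right
    have b1 : n (u - 1) < L := by
      by_contra hc
      refine u2 (u - 1) (by omega) fun l a b => ?_
      rcases Nat.lt_or_ge l u with c | c
      · rw [show l = u - 1 by omega]; omega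
      · exact u1 l c b
    have b2 := u1 u le_rfl u3
    refine ⟨u - 1, ?_, by omega⟩
    simp only [S, Finset.mem_filter, Finset.mem_range, NP]
    rw [show u - 1 + 1 = u by omega]
    omega
  · have e1 := Nat.find_spec (ex u)
    have e2 : ∀ q, q < Nat.find (ex u) → ¬ (u ≤ q ∧ (m ≤ q ∨ n q < L)) :=
      fun q => Nat.find_min (ex u)
    simp only [W]
    generalize Nat.find (ex u) = e at e1 e2
    have e3 : i < e := by
      by_contra hc
      have := u1 e e1.1 (by omega)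
      omega
    simp only [Finset.mem_union, Finset.mem_insert, Finset.mem_singleton]
    rcases u3.eq_or_lt with rfl | hlt
    · simp
    by_cases c1 : i + 2 < e
    · right
      have a1 := e2 (i + 2) c1
      exact v2 u i hlt (by omega) fun l a b => by
        have := e2 l (by omega)
        omega
    · left; right
      rcases Nat.lt_or_ge (i + 1) e with c | c
      · right; rw [show e - 2 = i by omega]
      · left; rw [show e - 1 = i by omega]

lemma chg_of_values {m : ℕ} (h : Sq n m) {V : Finset ℕ}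
    (v2 : ∀ i, 1 ≤ i → i + 1 < m → n i ∈ V) : (Ch n 0 m).card ≤ 2 * (V.card * 3) + 2 := by
  classical
  let X := (Finset.range m).filter fun i => NP n m i
  have hX : X.card ≤ V.card * 3 := np_card h V X fun i hi => by
    simp only [X, Finset.mem_filter, Finset.mem_range] at hi
    exact ⟨hi.2, v2 i hi.2.1 hi.2.2.1⟩
  have hs : Ch n 0 m ⊆ insert 0 (insert 1 (X ∪ X.image (· + 1))) := by
    intro i hi
    obtain ⟨-, a2, a3⟩ := mem_Ch.mp hi
    simp only [Finset.mem_insert, Finset.mem_union, Finset.mem_image, X, Finset.mem_filter,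
      Finset.mem_range, NP]
    rcases Nat.lt_or_ge i 2 with c | c
    · omega
    right; right
    by_cases c2 : n i ≤ n (i - 1) + n (i + 1)
    · left; omega
    · right
      refine ⟨i - 1, ?_, by omega⟩
      rw [show i - 1 + 1 = i by omega]
      omega
  have a0 := Finset.card_le_card hs
  have a1 := Finset.card_insert_le 0 (insert 1 (X ∪ X.image (· + 1)))
  have a2 := Finset.card_insert_le 1 (X ∪ X.image (· + 1))
  have a3 := Finset.card_union_le X (X.image (· + 1))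
  have a4 := Finset.card_image_le (s := X) (f := (· + 1))
  omega

end Pool.Agent.Lib.MP_34a884_an.Neg
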