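import Mathlib
import Pool.Agent.Lib.MP_34a884_an.Mat
import Pool.Agent.Lib.MP_34a884_an.NWords

/-! Words written by the lengths of the runs of `A`; the square identity; the reduction of the
polynomial bound to a bound on the number of changes. -/

namespace Pool.Agent.Lib.MP_34a884_an.Neg

open Matrix

/-- The product of the blocks `A ^ n * B`. -/
noncomputable def pl (A B : M2) (l : List ℕ) : M2 := (l.map fun n => A ^ n * B).prod

variable {A B : M2}

@[simp] lemma pl_nil : pl A B [] = 1 := rfl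
lemma pl_cons (n : ℕ) (l : List ℕ) : pl A B (n :: l) = A ^ n * B * pl A B l := by simp [pl]
lemma pl_append (l l' : List ℕ) : pl A B (l ++ l') = pl A B l * pl A B l' := by simp [pl]

/-- `l` maximises the functional among the lists of the same length and sum, and is the
lexicographically largest maximiser. -/
def Opt (A B : M2) (f : (Fin 2 → ℝ) →ₗ[ℝ] ℝ) (a : Fin 2 → ℝ) (l : List ℕ) : Prop :=
  ∀ l' : List ℕ, l'.length = l.length → l'.sum = l.sum →
    f (pl A B l' *ᵥ a) ≤ f (pl A B l *ᵥ a) ∧ (f (pl A B l *ᵥ a) ≤ f (pl A B l' *ᵥ a) → l' ≤ l)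

/-- Optimal lists have boundedly many changes. -/
def Few (A B : M2) : Prop :=
  ∃ C : ℕ, ∀ f a n m, Opt A B f a (sg n 0 m) → (Ch n 0 m).card ≤ C

lemma ch2 (P : M2) : P * P = P.trace • P - P.det • (1 : M2) := by
  ext i j
  fin_cases i <;> fin_cases j <;>
    simp [Matrix.mul_apply, Fin.sum_univ_two, Matrix.trace_fin_two, Matrix.det_fin_two] <;> ring

/-- The square identity. -/
lemma sq_id {P Q : M2} (N : M2) {t d : ℝ} (hP : P * P = t • P - d • (1 : M2))
    (hQ : Q * Q = t • Q - d • (1 : M2)) :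
    (-d) • (P ^ 4 * N + N * Q ^ 4) + t ^ 2 • (P ^ 3 * N * Q + P * N * Q ^ 3)
      = (2 * t ^ 2 - 2 * d) • (P ^ 2 * N * Q ^ 2) := by
  have key : ∀ X : M2, X * X = t • X - d • (1 : M2) → X ^ 2 = t • X - d • (1 : M2) ∧
      X ^ 3 = (t ^ 2 - d) • X - (t * d) • (1 : M2) ∧
      X ^ 4 = (t ^ 3 - 2 * t * d) • X - (t ^ 2 * d - d ^ 2) • (1 : M2) := by
    intro X hX
    have h2 : X ^ 2 = t • X - d • (1 : M2) := by rw [sq, hX]
    have h3 : X ^ 3 = (t ^ 2 - d) • X - (t * d) • (1 : M2) := by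
      rw [pow_succ, h2, sub_mul, smul_mul_assoc, smul_mul_assoc, hX, one_mul]; module
    refine ⟨h2, h3, ?_⟩
    rw [pow_succ, h3, sub_mul, smul_mul_assoc, smul_mul_assoc, hX, one_mul]; module
  obtain ⟨p2, p3, p4⟩ := key P hP
  obtain ⟨q2, q3, q4⟩ := key Q hQ
  rw [p2, p3, p4, q2, q3, q4]
  simp only [sub_mul, mul_sub, smul_mul_assoc, mul_smul_comm, one_mul, mul_one]
  module

lemma sq_tie {P Q : M2} (U N V : M2) (f : (Fin 2 → ℝ) →ₗ[ℝ] ℝ) (a : Fin 2 → ℝ)
    (ht : P.trace = Q.trace) (hd : P.det = Q.det) (h0 : P.det < 0)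
    (h1 : f ((U * (P ^ 4 * N) * V) *ᵥ a) ≤ f ((U * (P ^ 2 * N * Q ^ 2) * V) *ᵥ a))
    (h2 : f ((U * (N * Q ^ 4) * V) *ᵥ a) ≤ f ((U * (P ^ 2 * N * Q ^ 2) * V) *ᵥ a))
    (h3 : f ((U * (P ^ 3 * N * Q) * V) *ᵥ a) ≤ f ((U * (P ^ 2 * N * Q ^ 2) * V) *ᵥ a))
    (h4 : f ((U * (P * N * Q ^ 3) * V) *ᵥ a) ≤ f ((U * (P ^ 2 * N * Q ^ 2) * V) *ᵥ a)) :
    f ((U * (P ^ 2 * N * Q ^ 2) * V) *ᵥ a) ≤ f ((U * (P ^ 4 * N) * V) *ᵥ a) ∧
    f ((U * (P ^ 2 * N * Q ^ 2) * V) *ᵥ a) ≤ f ((U * (N * Q ^ 4) * V) *ᵥ a) := by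
  have e := sq_id N (ch2 P) (ht ▸ hd ▸ ch2 Q)
  have e2 := congrArg (fun X : M2 => f ((U * X * V) *ᵥ a)) e
  simp only [Matrix.mul_add, Matrix.add_mul, Matrix.mul_smul, Matrix.smul_mul, Matrix.add_mulVec,
    Matrix.smul_mulVec, map_add, map_smul, smul_eq_mul, smul_add] at e2
  have s := sq_nonneg P.trace
  constructor <;> nlinarith [mul_le_mul_of_nonneg_left h3 s, mul_le_mul_of_nonneg_left h4 s]

variable {f : (Fin 2 → ℝ) →ₗ[ℝ] ℝ} {a : Fin 2 → ℝ}

lemma sq_list {L1 T L3 : List ℕ} {x v b x' b' : ℕ} (hv : (A ^ v * B).det < 0)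
    (h : Opt A B f a (L1 ++ x :: v :: b :: (T ++ x' :: v :: b' :: L3)))
    (h1 : v ≤ x + b) (h2 : v ≤ x' + b') : b = v := by
  obtain ⟨j, r, α, β, e1, rfl, rfl⟩ : ∃ j r α β, v = r + j ∧ x = α + j ∧ b = r + β :=
    ⟨min x v, v - min x v, x - min x v, b - (v - min x v), by omega, by omega, by omega⟩
  obtain ⟨j', r', α', β', e2, rfl, rfl⟩ : ∃ j r α β, v = r + j ∧ x' = α + j ∧ b' = r + β :=
    ⟨min x' v, v - min x' v, x' - min x' v, b' - (v - min x' v), by omega, by omega, by omega⟩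
  have hP : ∀ X : M2, A ^ r * (A ^ j * X) = A ^ v * X := fun X => by
    rw [e1, pow_add, mul_assoc]
  have hQ : ∀ X : M2, A ^ r' * (A ^ j' * X) = A ^ v * X := fun X => by
    rw [e2, pow_add, mul_assoc]
  set P : M2 := A ^ j * B * A ^ r with hPd
  set Q : M2 := A ^ j' * B * A ^ r' with hQd
  have tP : P.trace = (A ^ v * B).trace := by
    rw [hPd, Matrix.trace_mul_comm, hP]
  have tQ : Q.trace = (A ^ v * B).trace := by
    rw [hQd, Matrix.trace_mul_comm, hQ]
  have dP : P.det = (A ^ v * B).det := by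
    rw [hPd, ← hP]; simp only [Matrix.det_mul]; ring
  have dQ : Q.det = (A ^ v * B).det := by
    rw [hQd, ← hQ]; simp only [Matrix.det_mul]; ring
  set U : M2 := pl A B L1 * A ^ α with hU
  set N : M2 := A ^ β * B * pl A B T * A ^ α' with hN
  set V : M2 := A ^ β' * B * pl A B L3 with hV
  have p4 : ∀ X : M2, X ^ 4 = X * X * X * X := fun X => by simp [pow_succ]
  have p3 : ∀ X : M2, X ^ 3 = X * X * X := fun X => by simp [pow_succ]
  have p2 : ∀ X : M2, X ^ 2 = X * X := fun X => by simp [pow_succ]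
  have w0 : pl A B (L1 ++ (α + j) :: v :: (r + β) :: (T ++ (α' + j') :: v :: (r' + β') :: L3))
      = U * (P ^ 2 * N * Q ^ 2) * V := by
    simp only [p2, hU, hN, hV, hPd, hQd, pl_append, pl_cons, pow_add, mul_assoc, hP, hQ]
  have w1 : pl A B (L1 ++ (α + j) :: v :: v :: v :: (r + β) :: (T ++ (α' + β') :: L3))
      = U * (P ^ 4 * N) * V := by
    simp only [p4, hU, hN, hV, hPd, pl_append, pl_cons, pow_add, mul_assoc, hP]
  have w2 : pl A B (L1 ++ (α + β) :: (T ++ (α' + j') :: v :: v :: v :: (r' + β') :: L3))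
      = U * (N * Q ^ 4) * V := by
    simp only [p4, hU, hN, hV, hQd, pl_append, pl_cons, pow_add, mul_assoc, hQ]
  have w3 : pl A B (L1 ++ (α + j) :: v :: v :: (r + β) :: (T ++ (α' + j') :: (r' + β') :: L3))
      = U * (P ^ 3 * N * Q) * V := by
    simp only [p3, hU, hN, hV, hPd, hQd, pl_append, pl_cons, pow_add, mul_assoc, hP]
  have w4 : pl A B (L1 ++ (α + j) :: (r + β) :: (T ++ (α' + j') :: v :: v :: (r' + β') :: L3))
      = U * (P * N * Q ^ 3) * V := by
    simp only [p3, hU, hN, hV, hPd, hQd, pl_append, pl_cons, pow_add, mul_assoc, hQ]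
  have o1 := h (L1 ++ (α + j) :: v :: v :: v :: (r + β) :: (T ++ (α' + β') :: L3))
    (by simp; omega) (by simp; omega)
  have o2 := h (L1 ++ (α + β) :: (T ++ (α' + j') :: v :: v :: v :: (r' + β') :: L3))
    (by simp; omega) (by simp; omega)
  have o3 := h (L1 ++ (α + j) :: v :: v :: (r + β) :: (T ++ (α' + j') :: (r' + β') :: L3))
    (by simp; omega) (by simp; omega)
  have o4 := h (L1 ++ (α + j) :: (r + β) :: (T ++ (α' + j') :: v :: v :: (r' + β') :: L3))
    (by simp; omega) (by simp; omega)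
  rw [w0, w1] at o1
  rw [w0, w2] at o2
  rw [w0, w3] at o3
  rw [w0, w4] at o4
  obtain ⟨t1, t2⟩ := sq_tie U N V f a (tP.trans tQ.symm) (dP.trans dQ.symm) (dP ▸ hv)
    o1.1 o2.1 o3.1 o4.1
  have c2 := lex_head L1 (o2.2 t2)
  have c1 : v ≤ r + β := lex_head (L1 ++ [α + j, v]) (by simpa using o1.2 t1)
  omega

variable {n : ℕ → ℕ} {m : ℕ}

lemma sq_step (h : Opt A B f a (sg n 0 m)) {i q : ℕ} (hv : (A ^ n i * B).det < 0)
    (h1 : 1 ≤ i) (h2 : i + 3 ≤ q) (h3 : q + 1 < m) (e : n i = n q)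
    (c1 : n i ≤ n (i - 1) + n (i + 1)) (c2 : n q ≤ n (q - 1) + n (q + 1)) :
    n (i + 1) = n i := by
  obtain ⟨i, rfl⟩ : ∃ i', i = i' + 1 := ⟨i - 1, by omega⟩
  obtain ⟨q, rfl⟩ : ∃ q', q = q' + 1 := ⟨q - 1, by omega⟩
  have s1 := sg_split (n := n) (Nat.zero_le i) (show i < m by omega)
  rw [sg_cons (show i + 1 < m by omega), sg_cons (show i + 1 + 1 < m by omega),
    sg_split (show i + 1 + 1 + 1 ≤ q by omega) (show q < m by omega),
    sg_cons (show q + 1 < m by omega), sg_cons h3, ← e, Nat.sub_zero] at s1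
  rw [s1] at h
  exact sq_list hv h (by simpa using c1) (by simpa [e] using c2)

lemma two_split {i j : ℕ} (h1 : i < j) (h2 : j < m) : sg n 0 m =
    sg n 0 i ++ n i :: (sg n (i + 1) (j - (i + 1)) ++ n j :: sg n (j + 1) (m - (j + 1))) := by
  have s1 := sg_split (n := n) (Nat.zero_le i) (show i < m by omega)
  rwa [sg_split (show i + 1 ≤ j by omega) h2, Nat.sub_zero, Nat.sub_zero] at s1

lemma exists_bl (w : List Bool) : ∃ (l : List ℕ) (e : ℕ), w.length = l.sum + l.length + e ∧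
    mw A B w = pl A B l * A ^ e := by
  induction w with
  | nil => exact ⟨[], 0, rfl, by simp⟩
  | cons b w ih =>
    obtain ⟨l, e, h1, h2⟩ := ih
    cases b with
    | true => exact ⟨0 :: l, e, by simp [h1]; omega, by simp [h2, pl_cons, mul_assoc]⟩
    | false =>
      cases l with
      | nil => exact ⟨[], e + 1, by simp [h1], by simp [h2, pow_succ']⟩
      | cons x l =>
        exact ⟨(x + 1) :: l, e, by simp [h1]; omega, by simp [h2, pl_cons, pow_succ', mul_assoc]⟩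

lemma mw_rep (x : ℕ) (w : List Bool) :
    mw A B (List.replicate x false ++ w) = A ^ x * mw A B w := by
  induction x with
  | zero => simp
  | succ x ih => simp [List.replicate_succ, ih, pow_succ', mul_assoc]

lemma exists_wd (l : List ℕ) (e : ℕ) : ∃ w : List Bool, w.length = l.sum + l.length + e ∧
    mw A B w = pl A B l * A ^ e := by
  induction l with
  | nil => exact ⟨List.replicate e false ++ [], by simp, by rw [mw_rep]; simp⟩
  | cons x l ih =>
    obtain ⟨w, h1, h2⟩ := ih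
    exact ⟨List.replicate x false ++ true :: w, by simp [h1]; omega,
      by rw [mw_rep]; simp [h2, pl_cons, mul_assoc]⟩

lemma finite_lists (m N : ℕ) : {l : List ℕ | l.length = m ∧ l.sum ≤ N}.Finite := by
  induction m with
  | zero => exact (Set.finite_singleton []).subset fun l hl => List.length_eq_zero_iff.mp hl.1
  | succ m ih =>
    refine (Set.Finite.image2 List.cons (Set.finite_Iic N) ih).subset ?_
    rintro (_ | ⟨x, l⟩) ⟨h1, h2⟩
    · simp at h1
    · simp at h1 h2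
      exact ⟨x, by simp; omega, l, ⟨h1, by omega⟩, rfl⟩

lemma pb_of_few (h : Few A B) : PB A B := by
  classical
  obtain ⟨C, H⟩ := h
  refine ⟨1, 2 * (C + 1) + 1, fun k a => ?_⟩
  have := code_bound (ExM A B k a) (Finset.range (k + 1) ×ˢ runsN (C + 1) k)
    (fun c x => x = pl A B c.2 *ᵥ (A ^ c.1 *ᵥ a))
    (by
      rintro x ⟨f, ⟨w, hw, rfl⟩, hx⟩
      obtain ⟨l0, e, h1, h2⟩ := exists_bl (A := A) (B := B) w
      have hfin : {l : List ℕ | l.length = l0.length ∧ l.sum = l0.sum ∧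
          pl A B l *ᵥ (A ^ e *ᵥ a) = mw A B w *ᵥ a}.Finite :=
        (finite_lists l0.length l0.sum).subset fun l hl => ⟨hl.1, hl.2.1.le⟩
      obtain ⟨l, ⟨a1, a2, a3⟩, hmax⟩ := Set.exists_max_image _ id hfin
        ⟨l0, rfl, rfl, by rw [h2, Matrix.mulVec_mulVec]⟩
      have hopt : Opt A B f (A ^ e *ᵥ a) l := by
        intro l' b1 b2
        obtain ⟨w', c1, c2⟩ := exists_wd (A := A) (B := B) l' e
        have := hx w' (by omega)
        rw [c2, ← Matrix.mulVec_mulVec] at this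
        rw [a3]
        rcases this with g | g
        · exact ⟨by rw [g], fun _ => hmax l' ⟨by omega, by omega, g⟩⟩
        · exact ⟨g.le, fun g' => absurd g' (not_le.mpr g)⟩
      obtain ⟨n, hn⟩ := exists_sg l
      refine ⟨(e, l), Finset.mem_product.mpr ⟨Finset.mem_range.mpr (by simp only; omega), ?_⟩,
        a3.symm⟩
      have := mem_runsN (n := n) (k := k) (e := l.length) (by omega) (fun i hi => by
        have : n i ∈ l := by rw [hn]; exact sg_mem (Nat.zero_le i) (by simpa using hi)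
        have := List.single_le_sum (fun x _ => Nat.zero_le x) _ this
        omega) C 0 (H f _ n l.length (hn ▸ hopt))
      rwa [Nat.sub_zero, ← hn] at this)
    (by rintro c x y rfl rfl; rfl)
  refine ⟨this.1, this.2.trans ?_⟩
  rw [Finset.card_product, Finset.card_range, one_mul, pow_succ', ]
  exact Nat.mul_le_mul_left _ (card_runsN _ _)

lemma pl_conj {A' B' S : M2} {s t : ℝ} (eA : A * S = s • (S * A')) (eB : B * S = t • (S * B'))
    (l : List ℕ) : pl A B l * S = (s ^ l.sum * t ^ l.length) • (S * pl A' B' l) := by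
  have pA : ∀ x : ℕ, A ^ x * S = s ^ x • (S * A' ^ x) := by
    intro x
    induction x with
    | zero => simp
    | succ x ih =>
      rw [pow_succ, mul_assoc, eA, Matrix.mul_smul, ← mul_assoc, ih, Matrix.smul_mul, smul_smul,
        pow_succ, pow_succ, mul_assoc, mul_comm s]
  induction l with
  | nil => simp
  | cons x l ih =>
    rw [pl_cons, pl_cons, mul_assoc, ih, Matrix.mul_smul, ← mul_assoc, mul_assoc (A ^ x), eB,
      Matrix.mul_smul, ← mul_assoc, pA]
    simp only [Matrix.smul_mul, smul_smul, mul_assoc, List.sum_cons, List.length_cons, pow_add,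
      pow_one]
    congr 1; ring

lemma Few.conj {A' B' S : M2} {s t : ℝ} (hS : S.det ≠ 0) (eA : A * S = s • (S * A'))
    (eB : B * S = t • (S * B')) (h : Few A' B') : Few A B := by
  obtain ⟨C, H⟩ := h
  refine ⟨C, fun f a n m ho => H ((s ^ (sg n 0 m).sum * t ^ (sg n 0 m).length) •
    (f ∘ₗ Matrix.mulVecLin S)) (S⁻¹ *ᵥ a) n m fun l' h1 h2 => ?_⟩
  have key : ∀ l : List ℕ, ((s ^ l.sum * t ^ l.length) • (f ∘ₗ Matrix.mulVecLin S))
      (pl A' B' l *ᵥ (S⁻¹ *ᵥ a)) = f (pl A B l *ᵥ a) := by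
    intro l
    have e : pl A B l = (s ^ l.sum * t ^ l.length) • (S * pl A' B' l * S⁻¹) := by
      rw [← Matrix.smul_mul, ← pl_conj eA eB, mul_assoc,
        Matrix.mul_nonsing_inv S (isUnit_iff_ne_zero.mpr hS), mul_one]
    rw [e, Matrix.smul_mulVec, map_smul]
    simp only [LinearMap.smul_apply, LinearMap.comp_apply, Matrix.mulVecLin_apply,
      Matrix.mulVec_mulVec, mul_assoc]
  have k1 := key l'
  rw [h1, h2] at k1
  rw [k1, key]
  exact ho l' h1 h2

lemma few_of_eqz (hA : 0 < A.det) (hB : B.det < 0) {L D : ℕ}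
    (h : ∀ f a n m, Opt A B f a (sg n 0 m) → Eqz L D n m) : Few A B := by
  obtain ⟨C, H⟩ := chg_bound L D
  refine ⟨C, fun f a n m ho => H n m (fun i q => sq_step ho ?_) (h f a n m ho)⟩
  rw [Matrix.det_mul, Matrix.det_pow]
  exact mul_neg_of_pos_of_neg (pow_pos hA _) hB

/-- The covector seen after the matrix `U`. -/
def cf (f : (Fin 2 → ℝ) →ₗ[ℝ] ℝ) (U : M2) (i : Fin 2) : ℝ := f (U *ᵥ Pi.single i 1)

lemma cf_eq (U : M2) (v : Fin 2 → ℝ) : f (U *ᵥ v) = cf f U 0 * v 0 + cf f U 1 * v 1 := by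
  have : v = v 0 • (Pi.single 0 1 : Fin 2 → ℝ) + v 1 • (Pi.single 1 1 : Fin 2 → ℝ) :=
    ext2 (by simp) (by simp)
  conv_lhs => rw [this]
  simp only [Matrix.mulVec_add, Matrix.mulVec_smul, map_add, map_smul, smul_eq_mul, cf]
  ring

/-- The vector seen before the run `j`. -/
noncomputable def yv (A B : M2) (a : Fin 2 → ℝ) (n : ℕ → ℕ) (m j : ℕ) : Fin 2 → ℝ :=
  pl A B (sg n j (m - j)) *ᵥ a

lemma yv_step {j : ℕ} (h : j < m) :
    yv A B a n m j = A ^ n j *ᵥ (B *ᵥ yv A B a n m (j + 1)) := by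
  simp only [yv]
  rw [sg_cons h, pl_cons, Matrix.mulVec_mulVec, Matrix.mulVec_mulVec]

/-- Moving one letter `A` between two nonempty runs. -/
lemma two_run (h : Opt A B f a (sg n 0 m)) {i j x z : ℕ} (h1 : i < j) (h2 : j < m)
    (hx : n i = x + 1) (hz : n j = z + 1) {U M : M2} {y : Fin 2 → ℝ}
    (hU : U = pl A B (sg n 0 i) * A ^ x) (hM : M = B * pl A B (sg n (i + 1) (j - (i + 1))))
    (hy : y = A ^ z *ᵥ (B *ᵥ yv A B a n m (j + 1))) :
    f (U *ᵥ (A *ᵥ (A *ᵥ (M *ᵥ y)))) < f (U *ᵥ (A *ᵥ (M *ᵥ (A *ᵥ y)))) ∧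
    f (U *ᵥ (M *ᵥ (A *ᵥ (A *ᵥ y)))) ≤ f (U *ᵥ (A *ᵥ (M *ᵥ (A *ᵥ y)))) := by
  rw [two_split h1 h2, hx, hz] at h
  generalize sg n 0 i = l1 at *
  generalize sg n (i + 1) (j - (i + 1)) = l2 at *
  simp only [yv] at hy
  generalize sg n (j + 1) (m - (j + 1)) = l3 at *
  have o1 := h (l1 ++ (x + 2) :: (l2 ++ z :: l3)) (by simp) (by simp; omega)
  have o2 := h (l1 ++ x :: (l2 ++ (z + 2) :: l3)) (by simp) (by simp; omega)
  have w0 : pl A B (l1 ++ (x + 1) :: (l2 ++ (z + 1) :: l3)) *ᵥ a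
      = U *ᵥ (A *ᵥ (M *ᵥ (A *ᵥ y))) := by
    simp only [hU, hM, hy, pl_append, pl_cons, Matrix.mulVec_mulVec, pow_succ A x, pow_succ' A z,
      mul_assoc]
  have w1 : pl A B (l1 ++ (x + 2) :: (l2 ++ z :: l3)) *ᵥ a
      = U *ᵥ (A *ᵥ (A *ᵥ (M *ᵥ y))) := by
    simp only [hU, hM, hy, pl_append, pl_cons, Matrix.mulVec_mulVec, pow_succ A x,
      pow_succ A (x + 1), mul_assoc]
  have w2 : pl A B (l1 ++ x :: (l2 ++ (z + 2) :: l3)) *ᵥ a
      = U *ᵥ (M *ᵥ (A *ᵥ (A *ᵥ y))) := by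
    simp only [hU, hM, hy, pl_append, pl_cons, Matrix.mulVec_mulVec, pow_succ' A z,
      pow_succ' A (z + 1), mul_assoc]
  rw [w0, w1] at o1
  rw [w0, w2] at o2
  refine ⟨lt_of_not_ge fun hc => ?_, o2.1⟩
  have := lex_head l1 (o1.2 hc)
  omega

/-- A transfer which does not change the product is impossible from right to left. -/
lemma no_tie (h : Opt A B f a (sg n 0 m)) {i j z q : ℕ} (h1 : i < j) (h2 : j < m) (hq : 0 < q)
    (hz : n j = q + z)
    (e : A ^ (n i + q) * (B * pl A B (sg n (i + 1) (j - (i + 1)))) * A ^ z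
      = A ^ n i * (B * pl A B (sg n (i + 1) (j - (i + 1)))) * A ^ (q + z)) : False := by
  rw [two_split h1 h2, hz] at h
  generalize sg n 0 i = l1 at *
  generalize sg n (i + 1) (j - (i + 1)) = l2 at *
  generalize sg n (j + 1) (m - (j + 1)) = l3 at *
  have o1 := h (l1 ++ (n i + q) :: (l2 ++ z :: l3)) (by simp) (by simp; omega)
  have w : pl A B (l1 ++ (n i + q) :: (l2 ++ z :: l3))
      = pl A B (l1 ++ n i :: (l2 ++ (q + z) :: l3)) := by
    have := congrArg (fun X => pl A B l1 * X * (B * pl A B l3)) e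
    simpa only [pl_append, pl_cons, mul_assoc] using this
  rw [w] at o1
  have := lex_head l1 (o1.2 le_rfl)
  omega

end Pool.Agent.Lib.MP_34a884_an.Neg
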