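import Mathlib
import Pool.Agent.Lib.MP_34a884_an.NMat
import Pool.Agent.Lib.MP_34a884_an.NIrr

/-! The plane as the complex line; optimality among all words of the same length; steering by an
irrational rotation. -/

namespace Pool.Agent.Lib.MP_34a884_an.Neg

open Matrix Complex ComplexConjugate

/-- A vector of the plane as a complex number. -/
def tc (v : Fin 2 → ℝ) : ℂ := ⟨v 0, v 1⟩

/-- The complex linear part of a matrix. -/
noncomputable def ga (M : M2) : ℂ := ⟨(M 0 0 + M 1 1) / 2, (M 1 0 - M 0 1) / 2⟩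

/-- The complex antilinear part of a matrix. -/
noncomputable def om (M : M2) : ℂ := ⟨(M 0 0 - M 1 1) / 2, (M 0 1 + M 1 0) / 2⟩

/-- The covector seen after `U`, as a complex number. -/
def dc (f : (Fin 2 → ℝ) →ₗ[ℝ] ℝ) (U : M2) : ℂ := ⟨cf f U 0, -cf f U 1⟩

/-- The point of the unit circle with a given angle. -/
noncomputable def ex (x : ℝ) : ℂ := Complex.exp (x * I)

variable {A B : M2} {f : (Fin 2 → ℝ) →ₗ[ℝ] ℝ} {τ : ℝ}

lemma tc_mul (M : M2) (v : Fin 2 → ℝ) : tc (M *ᵥ v) = ga M * tc v + om M * conj (tc v) := by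
  apply Complex.ext <;> simp [tc, ga, om, mulVec2] <;> ring

lemma tc_surj (z : ℂ) : ∃ v, tc v = z := ⟨![z.re, z.im], rfl⟩

lemma dc_eq (U : M2) (v : Fin 2 → ℝ) : f (U *ᵥ v) = (dc f U * tc v).re := by
  rw [cf_eq]; simp [dc, tc]

lemma dc_ext {D E : ℂ} (h : ∀ z : ℂ, (D * z).re = (E * z).re) : D = E := by
  have h1 := h 1
  have h2 := h I
  apply Complex.ext
  · simpa using h1
  · simpa using h2

lemma dc_mul (U M : M2) : dc f (U * M) = dc f U * ga M + conj (dc f U * om M) := by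
  refine dc_ext fun z => ?_
  obtain ⟨v, rfl⟩ := tc_surj z
  rw [← dc_eq, ← Matrix.mulVec_mulVec, dc_eq, tc_mul]
  simp; ring

lemma det_eq (M : M2) : M.det = ‖ga M‖ ^ 2 - ‖om M‖ ^ 2 := by
  rw [Complex.sq_norm, Complex.sq_norm, Matrix.det_fin_two]
  simp [ga, om, Complex.normSq_apply]; ring

lemma ex_add (x y : ℝ) : ex (x + y) = ex x * ex y := by
  simp [ex, add_mul, Complex.exp_add]

@[simp] lemma ex_norm (x : ℝ) : ‖ex x‖ = 1 := Complex.norm_exp_ofReal_mul_I x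

@[simp] lemma ex_re (x : ℝ) : (ex x).re = Real.cos x := Complex.exp_ofReal_mul_I_re x

@[simp] lemma ex_im (x : ℝ) : (ex x).im = Real.sin x := Complex.exp_ofReal_mul_I_im x

@[simp] lemma ex_zero : ex 0 = 1 := by simp [ex]

lemma ex_neg (x : ℝ) : ex (-x) = conj (ex x) := by
  apply Complex.ext <;> simp

lemma ex_pow (x : ℝ) (n : ℕ) : ex x ^ n = ex (n * x) := by
  induction n with
  | zero => simp
  | succ n ih => rw [pow_succ, ih, ← ex_add]; congr 1; push_cast; ring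

lemma ex_int (x : ℝ) (j : ℤ) : ex (x + j * (2 * Real.pi)) = ex x := by
  apply Complex.ext <;> simp

lemma ex_arg (z : ℂ) : z = ‖z‖ * ex (arg z) := (Complex.norm_mul_exp_arg_mul_I z).symm

lemma ex_sub_one (x : ℝ) : ‖ex x - 1‖ ≤ |x| := by
  have := Real.norm_exp_I_mul_ofReal_sub_one_le (x := x)
  rwa [mul_comm, Real.norm_eq_abs] at this

/-- `A` is the rotation by the angle `π τ`. -/
def Rot (A : M2) (τ : ℝ) : Prop := ∀ v, tc (A *ᵥ v) = ex (Real.pi * τ) * tc v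

lemma Rot.pow (h : Rot A τ) (n : ℕ) (v : Fin 2 → ℝ) :
    tc (A ^ n *ᵥ v) = ex (Real.pi * τ) ^ n * tc v := by
  induction n with
  | zero => simp
  | succ n ih => rw [pow_succ', ← Matrix.mulVec_mulVec, h, ih, pow_succ', mul_assoc]

lemma Rot.dc_pow (h : Rot A τ) (U : M2) (n : ℕ) :
    dc f (U * A ^ n) = dc f U * ex (Real.pi * τ) ^ n := by
  refine dc_ext fun z => ?_
  obtain ⟨v, rfl⟩ := tc_surj z
  rw [← dc_eq, ← Matrix.mulVec_mulVec, dc_eq, h.pow, mul_assoc]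

lemma Rot.det (h : Rot A τ) : A.det = 1 := by
  have h1 := h ![1, 0]
  have h2 := h ![0, 1]
  have a1 := congrArg Complex.re h1
  have a2 := congrArg Complex.im h1
  have a3 := congrArg Complex.re h2
  have a4 := congrArg Complex.im h2
  simp [tc, mulVec2] at a1 a2 a3 a4
  rw [Matrix.det_fin_two, a1, a2, a3, a4]
  nlinarith [Real.sin_sq_add_cos_sq (Real.pi * τ)]

lemma tc_norm (M : M2) (v : Fin 2 → ℝ) : ‖tc (M *ᵥ v)‖ ≤ (‖ga M‖ + ‖om M‖) * ‖tc v‖ := by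
  rw [tc_mul, add_mul]
  refine (norm_add_le _ _).trans ?_
  simp

lemma Rot.pl_norm (h : Rot A τ) (l : List ℕ) (v : Fin 2 → ℝ) :
    ‖tc (pl A B l *ᵥ v)‖ ≤ (‖ga B‖ + ‖om B‖) ^ l.length * ‖tc v‖ := by
  induction l with
  | nil => simp
  | cons x l ih =>
    rw [pl_cons, ← Matrix.mulVec_mulVec, ← Matrix.mulVec_mulVec, h.pow, norm_mul, norm_pow,
      ex_norm, one_pow, one_mul, List.length_cons, pow_succ', mul_assoc]
    exact (tc_norm _ _).trans (by gcongr)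

lemma approx (h : Irrational τ) {ε : ℝ} (hε : 0 < ε) : ∃ L : ℕ, ∀ φ : ℝ,
    ∃ n : ℕ, n ≤ L ∧ ∃ t : ℝ, |t| ≤ ε ∧ ex (Real.pi * τ) ^ n = ex (φ + t) := by
  have h2 : Irrational (τ / 2) := by simpa using h.div_natCast (m := 2) (by norm_num)
  have p0 := Real.pi_pos
  obtain ⟨L, hL⟩ := dense_mul h2 (ε := ε / (2 * Real.pi)) (by positivity)
  refine ⟨L, fun φ => ?_⟩
  obtain ⟨n, h1, j, hj⟩ := hL (φ / (2 * Real.pi))
  refine ⟨n, h1, (n * (τ / 2) - j - φ / (2 * Real.pi)) * (2 * Real.pi), ?_, ?_⟩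
  · rw [abs_mul, abs_of_pos (by positivity : 0 < 2 * Real.pi), ← le_div_iff₀ (by positivity)]
    exact hj
  · rw [ex_pow, ← ex_int (φ + _) j]
    congr 1
    field_simp
    ring

/-- A real eigenvector of the map `z ↦ μ z + ν conj z`. -/
lemma exists_eigen {μ ν : ℂ} (h : ‖μ‖ < ‖ν‖) {c : ℝ} (c0 : 0 ≤ c) (c1 : c ≤ 1)
    (hc : ‖μ‖ * c ≤ μ.re) :
    ∃ (Λ β : ℝ), (‖μ‖ + ‖ν‖) * c ≤ Λ ∧ μ * ex β + ν * conj (ex β) = Λ * ex β := by
  have m2 : μ.re ^ 2 + μ.im ^ 2 = ‖μ‖ ^ 2 := by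
    rw [Complex.sq_norm, Complex.normSq_apply]; ring
  have m0 := norm_nonneg μ
  have n0 : 0 < ‖ν‖ := lt_of_le_of_lt m0 h
  have d0 : (‖ν‖ * c) ^ 2 ≤ ‖ν‖ ^ 2 - μ.im ^ 2 := by
    have a1 : (‖μ‖ * c) ^ 2 ≤ μ.re ^ 2 := by gcongr
    have a2 : ‖μ‖ ^ 2 ≤ ‖ν‖ ^ 2 := by gcongr
    have b : c ^ 2 ≤ 1 := by nlinarith
    nlinarith [mul_le_mul_of_nonneg_right a2 (sub_nonneg.mpr b)]
  set z := Real.sqrt (‖ν‖ ^ 2 - μ.im ^ 2) with hz
  have z1 : ‖ν‖ * c ≤ z := Real.le_sqrt_of_sq_le d0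
  have z2 : z ^ 2 = ‖ν‖ ^ 2 - μ.im ^ 2 := Real.sq_sqrt ((sq_nonneg _).trans d0)
  have hn : ‖((μ.re + z : ℝ) : ℂ) - μ‖ = ‖ν‖ := by
    rw [← sq_eq_sq₀ (norm_nonneg _) (norm_nonneg _), Complex.sq_norm, Complex.normSq_apply]
    simp
    linarith
  refine ⟨μ.re + z, (arg ν - arg (((μ.re + z : ℝ) : ℂ) - μ)) / 2, by linarith, ?_⟩
  have e1 := ex_arg ν
  have e2 := ex_arg (((μ.re + z : ℝ) : ℂ) - μ)
  rw [hn] at e2
  generalize arg ν = x at *
  generalize arg (((μ.re + z : ℝ) : ℂ) - μ) = y at *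
  have e3 : ex x * conj (ex ((x - y) / 2)) = ex y * ex ((x - y) / 2) := by
    rw [← ex_neg, ← ex_add, ← ex_add]; congr 1; ring
  linear_combination conj (ex ((x - y) / 2)) * e1 - ex ((x - y) / 2) * e2 + (‖ν‖ : ℂ) * e3

lemma ga_lt (hB : B.det < 0) : ‖ga B‖ < ‖om B‖ := by
  rw [det_eq] at hB
  exact lt_of_pow_lt_pow_left₀ 2 (norm_nonneg _) (by linarith)

lemma one_sub_le_cos (x : ℝ) : 1 - |x| ≤ Real.cos x := by
  have a := ex_sub_one x
  have b := Complex.abs_re_le_norm (ex x - 1)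
  have c := neg_abs_le (ex x - 1).re
  simp at b c
  linarith

lemma tc_add (u v : Fin 2 → ℝ) : tc (u + v) = tc u + tc v := by
  apply Complex.ext <;> simp [tc]

lemma rep_eigen (h : Rot A τ) {i : ℕ} {Λ : ℝ} {z : ℂ}
    (e : ex (Real.pi * τ) ^ i * ga B * z + ex (Real.pi * τ) ^ i * om B * conj z = Λ * z)
    {N : ℝ} {u : Fin 2 → ℝ} (hu : tc u = N * z) (r : ℕ) :
    tc (pl A B (List.replicate r i) *ᵥ u) = Λ ^ r * N * z := by
  induction r with
  | zero => simp [hu]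
  | succ r ih =>
    rw [List.replicate_succ, pl_cons, ← Matrix.mulVec_mulVec, ← Matrix.mulVec_mulVec, h.pow,
      tc_mul, ih]
    simp only [map_mul, map_pow, Complex.conj_ofReal]
    linear_combination (Λ : ℂ) ^ r * N * e

/-- Steering: a word with `r` letters `B` and any large length almost attains the norm bound. -/
lemma steer (h : Rot A τ) (hτ : Irrational τ) (hB : B.det < 0) {δ : ℝ} (d0 : 0 < δ) (d1 : δ ≤ 1)
    (r1 : ℕ) : ∃ r L : ℕ, r1 ≤ r ∧ ∀ n, L ≤ n → ∀ (c : ℂ) (v : Fin 2 → ℝ),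
      ∃ (l : List ℕ) (e : ℕ), l.sum + l.length + e = n ∧
        (‖ga B‖ + ‖om B‖) ^ r * (1 - δ) * (‖c‖ * ‖tc v‖)
          ≤ (c * tc (pl A B l *ᵥ (A ^ e *ᵥ v))).re := by
  obtain ⟨r', hr⟩ := exists_nat_ge (50 / δ + r1)
  have hr1 : (50 : ℝ) ≤ 50 / δ := by rw [le_div_iff₀ d0]; linarith
  have hr0 : (0 : ℝ) ≤ r1 := Nat.cast_nonneg _
  have hr2 : r1 ≤ r' + 1 := by
    have : (r1 : ℝ) ≤ r' := by linarith
    have : r1 ≤ r' := by exact_mod_cast this
    omega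
  obtain ⟨R, hR⟩ : ∃ R : ℝ, R = ((r' + 1 : ℕ) : ℝ) := ⟨_, rfl⟩
  have R1 : 50 ≤ R := by rw [hR]; push_cast; linarith
  have R2 : 50 ≤ δ * R := by
    have : 50 / δ ≤ R := by rw [hR]; push_cast; linarith
    rwa [div_le_iff₀' d0] at this
  obtain ⟨L, hL⟩ := approx hτ (ε := δ / (4 * R)) (by positivity)
  refine ⟨r' + 1, (r' + 1) * (L + 1) + L, hr2, fun n hn c v => ?_⟩
  set ζ := ex (Real.pi * τ) with hζ
  set Θ := arg c + arg (tc v) + (n - R) * (Real.pi * τ) + R * arg (ga B) with hΘ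
  have t1 := ex_arg (ex Θ)
  have t2 := Complex.abs_arg_le_pi (ex Θ)
  rw [ex_norm, Complex.ofReal_one, one_mul] at t1
  generalize arg (ex Θ) = Θ' at t1 t2
  obtain ⟨i, i1, t, t3, i2⟩ := hL (-arg (ga B) + Θ' / R)
  have mu : ζ ^ i * ga B = ‖ga B‖ * ex (Θ' / R + t) := by
    have := ex_arg (ga B)
    have e : ex (Θ' / R + t) = ex (-arg (ga B) + Θ' / R + t) * ex (arg (ga B)) := by
      rw [← ex_add]; congr 1; ring
    rw [i2, e]
    linear_combination ex (-arg (ga B) + Θ' / R + t) * this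
  have n1 : ‖ζ ^ i * ga B‖ = ‖ga B‖ := by simp [hζ]
  have n2 : ‖ζ ^ i * om B‖ = ‖om B‖ := by simp [hζ]
  have ang : |Θ' / R + t| ≤ 5 / R := by
    refine (abs_add_le _ _).trans ?_
    rw [abs_div, abs_of_pos (by positivity : 0 < R)]
    have a1 : |Θ'| / R ≤ 4 / R := by gcongr; linarith [Real.pi_le_four]
    have a2 : δ / (4 * R) ≤ 1 / R := by
      rw [div_le_div_iff₀ (by positivity) (by positivity)]; nlinarith
    have : 5 / R = 4 / R + 1 / R := by ring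
    linarith
  have c1 : 25 / (2 * R ^ 2) ≤ 1 := by rw [div_le_one (by positivity)]; nlinarith
  have c2 : 1 - 25 / (2 * R ^ 2) ≤ Real.cos (Θ' / R + t) := by
    refine le_trans ?_ Real.one_sub_sq_div_two_le_cos
    have a1 : (Θ' / R + t) ^ 2 ≤ (5 / R) ^ 2 := by rw [← sq_abs]; gcongr
    have a2 : (5 / R) ^ 2 / 2 = 25 / (2 * R ^ 2) := by field_simp; norm_num
    linarith
  obtain ⟨Λ, β, l1, l2⟩ := exists_eigen (μ := ζ ^ i * ga B) (ν := ζ ^ i * om B)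
    (by rw [n1, n2]; exact ga_lt hB) (c := 1 - 25 / (2 * R ^ 2)) (by linarith)
    (by have : 0 ≤ 25 / (2 * R ^ 2) := by positivity
        linarith)
    (by rw [n1, mu, Complex.re_ofReal_mul, ex_re]; gcongr)
  rw [n1, n2] at l1
  set s := ‖ga B‖ + ‖om B‖ with hs
  have s0 : 0 ≤ s := by positivity
  have l3 : s ^ (r' + 1) * (1 - δ / 4) ≤ Λ ^ (r' + 1) := by
    have a1 := one_add_mul_le_pow (a := -(25 / (2 * R ^ 2))) (by linarith) (r' + 1)
    rw [← hR] at a1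
    have a2 : R * (25 / (2 * R ^ 2)) ≤ δ / 4 := by
      rw [show R * (25 / (2 * R ^ 2)) = 25 / (2 * R) by field_simp,
        div_le_div_iff₀ (by positivity) (by positivity)]
      linarith
    calc s ^ (r' + 1) * (1 - δ / 4) ≤ s ^ (r' + 1) * (1 + -(25 / (2 * R ^ 2))) ^ (r' + 1) := by
          gcongr; linarith
      _ = (s * (1 - 25 / (2 * R ^ 2))) ^ (r' + 1) := by rw [mul_pow, sub_eq_add_neg]
      _ ≤ Λ ^ (r' + 1) := by
          have : 0 ≤ s * (1 - 25 / (2 * R ^ 2)) := mul_nonneg s0 (by linarith)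
          gcongr
  obtain ⟨e, e1, t', t4, e2⟩ := hL (β - arg (tc v))
  obtain ⟨p, hp⟩ : ∃ p, n = p + ((r' + 1) * (i + 1) + e) := by
    refine ⟨n - ((r' + 1) * (i + 1) + e), ?_⟩
    have : (r' + 1) * (i + 1) ≤ (r' + 1) * (L + 1) := by gcongr
    omega
  refine ⟨(p + i) :: List.replicate r' i, e, by simp [hp]; ring, ?_⟩
  have w1 : pl A B ((p + i) :: List.replicate r' i)
      = A ^ p * pl A B (List.replicate (r' + 1) i) := by
    rw [List.replicate_succ, pl_cons, pl_cons, pow_add]; simp only [mul_assoc]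
  obtain ⟨u, hu⟩ := tc_surj (‖tc v‖ * ex β)
  obtain ⟨w, hw⟩ : ∃ w, A ^ e *ᵥ v = u + w := ⟨A ^ e *ᵥ v - u, by abel⟩
  have hw1 : tc w = ‖tc v‖ * ex β * (ex t' - 1) := by
    have a1 := congrArg tc hw
    have a2 := ex_arg (tc v)
    have a3 : ex (β - arg (tc v) + t') * ex (arg (tc v)) = ex β * ex t' := by
      rw [← ex_add, ← ex_add]; congr 1; ring
    rw [h.pow, tc_add, hu, ← hζ, e2] at a1
    linear_combination -a1 + ex (β - arg (tc v) + t') * a2 + ‖tc v‖ * a3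
  have hw2 : ‖tc w‖ ≤ ‖tc v‖ * (δ / (4 * R)) := by
    rw [hw1, norm_mul, norm_mul, ex_norm, mul_one, Complex.norm_real, norm_norm]
    gcongr
    exact (ex_sub_one t').trans t4
  have hw3 := h.pl_norm (B := B) (List.replicate (r' + 1) i) w
  rw [List.length_replicate, ← hs] at hw3
  have main : c * (ζ ^ p * ex β) = ‖c‖ * ex (-(t' + R * t)) := by
    obtain ⟨X, hX⟩ : ∃ X, X = R * (-arg (ga B) + Θ' / R + t) + R * (Real.pi * τ) +
      (β - arg (tc v) + t') := ⟨_, rfl⟩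
    have a1 : ex (n * (Real.pi * τ)) = ζ ^ p * ex X := by
      rw [hX, ex_add, ex_add, ← e2, ← ex_pow]
      nth_rewrite 1 [hR]
      nth_rewrite 2 [hR]
      rw [← ex_pow, ← ex_pow, ← i2, ← hζ, hp]
      ring
    have a2 := ex_arg c
    have a3 : ex (n * (Real.pi * τ)) * ex (arg c + β - X) = ex Θ * ex (-Θ' + -(t' + R * t)) := by
      rw [← ex_add, ← ex_add]; congr 1; rw [hΘ, hX]; field_simp; ring
    have a4 : ex X * ex (arg c + β - X) = ex (arg c) * ex β := by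
      rw [← ex_add, ← ex_add]; congr 1; ring
    have a5 : ex Θ' * ex (-Θ' + -(t' + R * t)) = ex (-(t' + R * t)) := by
      rw [← ex_add]; congr 1; ring
    rw [a1, t1, a5, mul_assoc, a4] at a3
    linear_combination ζ ^ p * ex β * a2 + ‖c‖ * a3
  rw [w1, hw, ← Matrix.mulVec_mulVec, h.pow, Matrix.mulVec_add, tc_add,
    rep_eigen h l2 hu, ← hζ]
  have e3 : c * (ζ ^ p * (Λ ^ (r' + 1) * ‖tc v‖ * ex β +
      tc (pl A B (List.replicate (r' + 1) i) *ᵥ w))) =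
      ((Λ ^ (r' + 1) * ‖tc v‖ * ‖c‖ : ℝ) : ℂ) * ex (-(t' + R * t)) +
        c * ζ ^ p * tc (pl A B (List.replicate (r' + 1) i) *ᵥ w) := by
    push_cast
    linear_combination (Λ : ℂ) ^ (r' + 1) * ‖tc v‖ * main
  rw [e3, Complex.add_re, Complex.re_ofReal_mul, ex_re]
  have b1 := neg_abs_le (c * ζ ^ p * tc (pl A B (List.replicate (r' + 1) i) *ᵥ w)).re
  have b2 := Complex.abs_re_le_norm (c * ζ ^ p * tc (pl A B (List.replicate (r' + 1) i) *ᵥ w))
  rw [norm_mul, norm_mul, norm_pow, hζ, ex_norm, one_pow, mul_one] at b2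
  have b3 : δ / (4 * R) ≤ δ / 4 := by gcongr; linarith
  have b4 : 1 - δ / 2 ≤ Real.cos (-(t' + R * t)) := by
    refine le_trans ?_ (one_sub_le_cos _)
    rw [abs_neg]
    have a1 := abs_add_le t' (R * t)
    rw [abs_mul, abs_of_pos (by positivity : 0 < R)] at a1
    have a2 : R * |t| ≤ R * (δ / (4 * R)) := by gcongr
    have a3 : R * (δ / (4 * R)) = δ / 4 := by field_simp
    linarith
  have b5 : ‖c‖ * ‖tc (pl A B (List.replicate (r' + 1) i) *ᵥ w)‖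
      ≤ ‖c‖ * (s ^ (r' + 1) * (‖tc v‖ * (δ / 4))) := by
    gcongr
    refine hw3.trans ?_
    gcongr
    exact hw2.trans (by gcongr)
  have b6 : s ^ (r' + 1) * (1 - δ / 4) * ‖tc v‖ * ‖c‖ * (1 - δ / 2)
      ≤ Λ ^ (r' + 1) * ‖tc v‖ * ‖c‖ * Real.cos (-(t' + R * t)) := by
    have : 0 ≤ s ^ (r' + 1) * (1 - δ / 4) := mul_nonneg (by positivity) (by linarith)
    have : 0 ≤ Λ ^ (r' + 1) := by linarith
    gcongr
    linarith
  have b7 : 0 ≤ s ^ (r' + 1) * (‖c‖ * ‖tc v‖) * δ ^ 2 := by positivity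
  rw [← hζ] at b2
  nlinarith

end Pool.Agent.Lib.MP_34a884_an.Neg
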