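import Mathlib
import Pool.Agent.Lib.MP_34a884_an.NMat

/-! The normal form `A = [[ρ, 1], [0, 1]]`, `B = [[0, p], [1, t]]`: long runs have almost equal
lengths. -/

namespace Pool.Agent.Lib.MP_34a884_an.Neg

open Matrix

lemma rev_symm {A B S : M2} (hA : Aᵀ * S = S * A) (hB : Bᵀ * S = S * B) (l : List ℕ) :
    (B * pl A B l.reverse)ᵀ * S = S * (B * pl A B l) := by
  have pA : ∀ x : ℕ, (A ^ x)ᵀ * S = S * A ^ x := by
    intro x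
    induction x with
    | zero => simp
    | succ x ih =>
      rw [pow_succ, Matrix.transpose_mul, mul_assoc, ih, ← mul_assoc, hA, mul_assoc, ← pow_succ',
        pow_succ]
  induction l with
  | nil => simpa using hB
  | cons x l ih =>
    rw [List.reverse_cons, pl_append, pl_cons, pl_cons, pl_nil, mul_one, ← mul_assoc B,
      Matrix.transpose_mul, mul_assoc, ih, Matrix.transpose_mul, mul_assoc, ← mul_assoc _ S, pA,
      ← mul_assoc, ← mul_assoc, ← mul_assoc, hB]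
    simp only [mul_assoc]

/-- The upper right entry of the powers of `A`. -/
def kk (ρ : ℝ) : ℕ → ℝ
  | 0 => 0
  | n + 1 => ρ * kk ρ n + 1

/-- The triangular matrix. -/
def tA (ρ : ℝ) : M2 := !![ρ, 1; 0, 1]

/-- The companion matrix. -/
def tB (p t : ℝ) : M2 := !![0, p; 1, t]

variable {ρ p t : ℝ}

lemma kk_succ (n : ℕ) : kk ρ (n + 1) = ρ * kk ρ n + 1 := rfl

lemma kk_succ' (n : ℕ) : kk ρ (n + 1) = kk ρ n + ρ ^ n := by
  induction n with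
  | zero => simp [kk]
  | succ n ih => rw [kk_succ (n + 1)]; nth_rewrite 1 [ih]; rw [kk_succ n]; ring

lemma kk_ge (h : 1 ≤ ρ) (n : ℕ) : (n : ℝ) ≤ kk ρ n := by
  induction n with
  | zero => simp [kk]
  | succ n ih => rw [kk_succ']; push_cast; linarith [one_le_pow₀ (n := n) h]

lemma kk_nonneg (h : 1 ≤ ρ) (n : ℕ) : 0 ≤ kk ρ n := (Nat.cast_nonneg n).trans (kk_ge h n)

lemma kk_mono (h : 1 ≤ ρ) : StrictMono (kk ρ) :=
  strictMono_nat_of_lt_succ fun n => by rw [kk_succ']; linarith [one_le_pow₀ (n := n) h]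

lemma tA_pow (n : ℕ) : tA ρ ^ n = !![ρ ^ n, kk ρ n; 0, 1] := by
  induction n with
  | zero => ext i j; fin_cases i <;> fin_cases j <;> simp [kk]
  | succ n ih =>
    rw [pow_succ', ih]
    ext i j
    fin_cases i <;> fin_cases j <;> simp [tA, Matrix.mul_apply, Fin.sum_univ_two, kk, pow_succ']

lemma tAp0 (n : ℕ) (y : Fin 2 → ℝ) : (tA ρ ^ n *ᵥ y) 0 = ρ ^ n * y 0 + kk ρ n * y 1 := by
  rw [tA_pow, mulVec2]; simp
lemma tAp1 (n : ℕ) (y : Fin 2 → ℝ) : (tA ρ ^ n *ᵥ y) 1 = y 1 := by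
  rw [tA_pow, mulVec2]; simp
lemma tA0 (y : Fin 2 → ℝ) : (tA ρ *ᵥ y) 0 = ρ * y 0 + y 1 := by rw [mulVec2]; simp [tA]
lemma tA1 (y : Fin 2 → ℝ) : (tA ρ *ᵥ y) 1 = y 1 := by rw [mulVec2]; simp [tA]
lemma tB0 (y : Fin 2 → ℝ) : (tB p t *ᵥ y) 0 = p * y 1 := by rw [mulVec2]; simp [tB]
lemma tB1 (y : Fin 2 → ℝ) : (tB p t *ᵥ y) 1 = y 0 + t * y 1 := by rw [mulVec2]; simp [tB]

/-- The slope lies on the good side of the pole of `B`. -/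
def Pos (t : ℝ) (y : Fin 2 → ℝ) : Prop := 0 ≤ y 1 * (y 0 + t * y 1) ∧ y 0 + t * y 1 ≠ 0

/-- The inverse slope is at least `L`. -/
def Big (L : ℝ) (y : Fin 2 → ℝ) : Prop := y 1 ≠ 0 ∧ L * (y 1 * y 1) ≤ y 0 * y 1

/-- The inverse slope lies in `[0, ε]`. -/
def Small (ε : ℝ) (z : Fin 2 → ℝ) : Prop := z 1 ≠ 0 ∧ ∃ r, z 0 = r * z 1 ∧ 0 ≤ r ∧ r ≤ ε

lemma Pos.big (h : 1 ≤ ρ) (hp : 0 < p) {y : Fin 2 → ℝ} (hy : Pos t y) {L n : ℕ} (hn : L ≤ n) :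
    Big L (tA ρ ^ n *ᵥ (tB p t *ᵥ y)) := by
  refine ⟨by rw [tAp1, tB1]; exact hy.2, ?_⟩
  rw [tAp0, tAp1, tB0, tB1]
  have a1 : (L : ℝ) ≤ kk ρ n := (Nat.cast_le.mpr hn).trans (kk_ge h n)
  have a2 : 0 ≤ ρ ^ n * p * (y 1 * (y 0 + t * y 1)) := by
    have := hy.1
    have : 0 ≤ ρ := by linarith
    positivity
  nlinarith [mul_le_mul_of_nonneg_right a1 (mul_self_nonneg (y 0 + t * y 1))]

lemma Big.pos {L : ℝ} (hL : 0 < L + t) {y : Fin 2 → ℝ} (hy : Big L y) : Pos t y := by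
  have a1 := mul_pos hL (mul_self_pos.mpr hy.1)
  have a2 : 0 < y 1 * (y 0 + t * y 1) := by nlinarith [hy.2]
  exact ⟨a2.le, fun h => by rw [h] at a2; simp at a2⟩

lemma Big.small {L ε : ℝ} (hp : 0 < p) (hL : 0 < L + t) (hε : p ≤ ε * (L + t))
    {y : Fin 2 → ℝ} (hy : Big L y) : Small ε (tB p t *ᵥ y) := by
  obtain ⟨a1, a2⟩ := hy.pos hL
  obtain ⟨ξ, hξ⟩ : ∃ ξ, y 0 = ξ * y 1 := ⟨y 0 / y 1, by field_simp [hy.1]⟩
  have a3 : L ≤ ξ := by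
    have := hy.2
    rw [hξ, mul_assoc] at this
    exact le_of_mul_le_mul_right this (mul_self_pos.mpr hy.1)
  have a4 : 0 < ξ + t := by linarith
  have a5 : 0 < ε := by by_contra hc; push Not at hc; nlinarith
  refine ⟨by rw [tB1]; exact a2, p / (ξ + t), ?_, by positivity, ?_⟩
  · rw [tB0, tB1, hξ]; field_simp
  · rw [div_le_iff₀ a4]; nlinarith

lemma Pos.chain (h : 1 ≤ ρ) (hp : 0 < p) {L : ℕ} (hL : 0 < L + t) {y : Fin 2 → ℝ} (hy : Pos t y)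
    (l : List ℕ) (hl : ∀ x ∈ l, L ≤ x) : Pos t (pl (tA ρ) (tB p t) l *ᵥ y) := by
  induction l with
  | nil => simpa using hy
  | cons x l ih =>
    rw [pl_cons, ← Matrix.mulVec_mulVec, ← Matrix.mulVec_mulVec]
    exact ((ih fun x hx => hl x (List.mem_cons_of_mem _ hx)).big h hp
      (hl x List.mem_cons_self)).pos hL

lemma col_small (h : 1 ≤ ρ) (hp : 0 < p) {L : ℕ} {ε : ℝ} (hL : 0 < L + t)
    (hε : p ≤ ε * (L + t)) (l : List ℕ) (hl : ∀ x ∈ l, L ≤ x) :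
    (tB p t * pl (tA ρ) (tB p t) l) 1 0 ≠ 0 ∧ ∃ r, (tB p t * pl (tA ρ) (tB p t) l) 0 0
      = r * (tB p t * pl (tA ρ) (tB p t) l) 1 0 ∧ 0 ≤ r ∧ r ≤ ε := by
  have a5 : 0 < ε := by by_contra hc; push Not at hc; nlinarith
  cases l with
  | nil => exact ⟨by simp [tB], 0, by simp [tB], le_rfl, a5.le⟩
  | cons x l =>
    have e0 : Pos t ![1, 0] := ⟨by simp, by simp⟩
    have := (((e0.chain h hp hL l fun x hx => hl x (List.mem_cons_of_mem _ hx)).big h hp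
      (hl x List.mem_cons_self))).small hp hL hε
    rw [Matrix.mulVec_mulVec, Matrix.mulVec_mulVec, Matrix.mulVec_mulVec, mul_assoc, mul_assoc,
      ← mul_assoc (tA ρ ^ x), ← pl_cons] at this
    simpa [Small, mulVec2] using this

variable {f : (Fin 2 → ℝ) →ₗ[ℝ] ℝ} {a : Fin 2 → ℝ} {n : ℕ → ℕ} {m : ℕ}

lemma gen (h : Opt (tA ρ) (tB p t) f a (sg n 0 m)) {i j x z : ℕ} (h1 : i < j) (h2 : j < m)
    (hx : n i = x + 1) (hz : n j = z + 1) {c0 c1 : ℝ} {M M' : M2} {y : Fin 2 → ℝ}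
    (h0 : c0 = cf f (pl (tA ρ) (tB p t) (sg n 0 i) * tA ρ ^ x) 0)
    (h0' : c1 = cf f (pl (tA ρ) (tB p t) (sg n 0 i) * tA ρ ^ x) 1)
    (hM : M = tB p t * pl (tA ρ) (tB p t) (sg n (i + 1) (j - (i + 1))))
    (hM' : M' = tB p t * pl (tA ρ) (tB p t) (sg n (i + 1) (j - (i + 1))).reverse)
    (hy : y = tA ρ ^ z *ᵥ (tB p t *ᵥ yv (tA ρ) (tB p t) a n m (j + 1))) :
    M' 1 0 = M 1 0 + (ρ - 1) * (M 0 0 - M' 0 0) ∧
    (c0 - (ρ - 1) * c1) * (M 1 0 * (y 0 - y 1) - (M 0 0 - M' 0 0) * ρ * y 1)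
      + ((p * (ρ - 1) + t) * c0 - c1) * (M' 1 0 * ρ * y 1) < 0 ∧
    0 ≤ (c0 - (ρ - 1) * c1) * (M 1 0 * (ρ * y 0 + y 1) - (M 0 0 - M' 0 0) * y 1)
      + ((p * (ρ - 1) + t) * c0 - c1) * (M' 1 0 * y 1) := by
  obtain ⟨r1, r2⟩ := two_run h h1 h2 hx hz rfl hM hy
  simp only [cf_eq, ← h0, ← h0', tA0, tA1, mulVec2 M] at r1 r2
  have sy := rev_symm (A := tA ρ) (B := tB p t) (S := !![ρ - 1, 1; 1, p * (ρ - 1) + t])
    (by ext i j; fin_cases i <;> fin_cases j <;>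
        simp [tA, Matrix.mul_apply, Fin.sum_univ_two] <;> ring)
    (by ext i j; fin_cases i <;> fin_cases j <;>
        simp [tB, Matrix.mul_apply, Fin.sum_univ_two] <;> ring) (sg n (i + 1) (j - (i + 1)))
  rw [← hM, ← hM'] at sy
  have E1 := congrFun (congrFun sy 0) 0
  have E2 := congrFun (congrFun sy 0) 1
  simp [Matrix.mul_apply, Fin.sum_univ_two] at E1 E2
  have E3 : M' 1 0 = M 1 0 + (ρ - 1) * (M 0 0 - M' 0 0) := by linear_combination E1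
  have E4 : M 1 1 = M' 0 0 + (p * (ρ - 1) + t) * M' 1 0 - (ρ - 1) * M 0 1 := by
    linear_combination -E2
  rw [E4, E3] at r1 r2
  refine ⟨E3, ?_, ?_⟩ <;> rw [E3] <;> nlinarith

lemma window {ψ1 ψ2 e y1 ξ θ k : ℝ} (h : 1 ≤ ρ) (he : e ≠ 0) (hy : y1 ≠ 0) (hk : 0 ≤ k)
    (θ1 : θ ≤ 1) (θ2 : -1 ≤ θ * ρ) (ξ1 : ρ * (ρ * k + 1) + 1 ≤ ξ)
    (ξ2 : ξ ≤ ρ * (ρ * (ρ * k + 1) + 1) + 1)
    (h1 : ψ1 * (e * (ξ * y1 - y1) - θ * e * ρ * y1)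
      + ψ2 * ((e + (ρ - 1) * (θ * e)) * ρ * y1) < 0)
    (h2 : 0 ≤ ψ1 * (e * (ρ * (ξ * y1) + y1) - θ * e * y1)
      + ψ2 * ((e + (ρ - 1) * (θ * e)) * y1)) :
    k ≤ -ψ2 / ψ1 ∧ -ψ2 / ψ1 ≤ ρ * (ρ * (ρ * (ρ * (ρ * k + 1) + 1) + 1) + 1) + 1 := by
  have hρ : 0 < ρ := by linarith
  have hu : 0 < 1 + θ * (ρ - 1) := by
    rcases le_or_gt 0 θ with c | c
    · have := mul_nonneg c (sub_nonneg.mpr h); linarith
    · nlinarith
  have hψ : ψ1 ≠ 0 := by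
    rintro rfl
    nlinarith [mul_nonneg hρ.le h2]
  obtain ⟨ξ0, rfl⟩ : ∃ ξ0, ψ2 = -ξ0 * ψ1 := ⟨-ψ2 / ψ1, by field_simp⟩
  rw [show -(-ξ0 * ψ1) / ψ1 = ξ0 by field_simp]
  have hs : e * y1 * ψ1 ≠ 0 := mul_ne_zero (mul_ne_zero he hy) hψ
  have g1 : e * y1 * ψ1 * (ξ - 1 - θ * ρ - ξ0 * ρ * (1 + θ * (ρ - 1))) < 0 := by linarith
  have g2 : 0 ≤ e * y1 * ψ1 * (ρ * ξ + 1 - θ - ξ0 * (1 + θ * (ρ - 1))) := by linarith
  generalize e * y1 * ψ1 = s at hs g1 g2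
  have k1 : 0 ≤ ρ * k := mul_nonneg hρ.le hk
  have ξ0' : 0 ≤ ξ := by nlinarith
  rcases lt_or_gt_of_ne hs with c | c
  · exfalso
    have a1 : 0 < ξ - 1 - θ * ρ - ξ0 * ρ * (1 + θ * (ρ - 1)) := by
      by_contra hc; push Not at hc; nlinarith
    have a2 : ρ * ξ + 1 - θ - ξ0 * (1 + θ * (ρ - 1)) ≤ 0 := by
      by_contra hc; push Not at hc; nlinarith
    have a3 := mul_nonneg hρ.le (neg_nonneg.mpr a2)
    have a4 : ξ ≤ ρ * (ρ * ξ) := by nlinarith [mul_nonneg ξ0' (sub_nonneg.mpr h)]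
    nlinarith
  have a1 : ξ - 1 - θ * ρ - ξ0 * ρ * (1 + θ * (ρ - 1)) < 0 := by
    by_contra hc; push Not at hc; nlinarith
  have a2 : 0 ≤ ρ * ξ + 1 - θ - ξ0 * (1 + θ * (ρ - 1)) := by
    by_contra hc; push Not at hc; nlinarith
  constructor
  · refine le_of_mul_le_mul_right ?_ (mul_pos hρ hu)
    have b1 := mul_nonneg hρ.le (mul_nonneg (add_nonneg (mul_nonneg (sub_nonneg.mpr h) hk)
      zero_le_one) (sub_nonneg.mpr θ1))
    nlinarith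
  · refine le_of_mul_le_mul_right ?_ hu
    set K := ρ * (ρ * (ρ * (ρ * k + 1) + 1) + 1) + 1 with hK
    have b0 : ρ * ξ + 1 ≤ K := by rw [hK]; nlinarith
    have b2 : 0 ≤ K := by nlinarith
    have b1 := mul_nonneg (add_nonneg (mul_nonneg (sub_nonneg.mpr h) b2) zero_le_one)
      (show 0 ≤ 1 + θ * ρ by linarith)
    nlinarith

lemma posy (h : Opt (tA ρ) (tB p t) f a (sg n 0 m)) (hρ : 1 ≤ ρ) {L : ℕ} (hL : 0 < L + t)
    {u : ℕ} (hu : u + 2 < m) (h1 : 1 ≤ n u) (h2 : L ≤ n (u + 1)) (h2' : 1 ≤ n (u + 1))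
    (h3 : 1 ≤ n (u + 2)) : Pos t (yv (tA ρ) (tB p t) a n m (u + 2)) := by
  obtain ⟨x, hx⟩ : ∃ x, n u = x + 1 := ⟨n u - 1, by omega⟩
  obtain ⟨z, hz⟩ : ∃ z, n (u + 1) = z + 1 := ⟨n (u + 1) - 1, by omega⟩
  obtain ⟨z', hz'⟩ : ∃ z, n (u + 2) = z + 1 := ⟨n (u + 2) - 1, by omega⟩
  obtain ⟨a0, a1, a2⟩ := gen h (show u < u + 1 by omega) (by omega) hx hz rfl rfl rfl rfl rfl
  obtain ⟨b0, b1, b2⟩ := gen h (show u < u + 2 by omega) hu hx hz' rfl rfl rfl rfl rfl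
  generalize cf f (pl (tA ρ) (tB p t) (sg n 0 u) * tA ρ ^ x) 0 = c0 at *
  generalize cf f (pl (tA ρ) (tB p t) (sg n 0 u) * tA ρ ^ x) 1 = c1 at *
  rw [show u + 2 - (u + 1) = 0 + 1 by omega, sg_succ, sg_zero, List.reverse_singleton] at b1 b2
  rw [Nat.sub_self, sg_zero, List.reverse_nil, pl_nil, mul_one] at a1 a2
  have e1 : tB p t 1 0 = 1 := by simp [tB]
  have e2 : (tB p t * pl (tA ρ) (tB p t) [n (u + 1)]) 1 0 = kk ρ (n (u + 1)) + t := by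
    rw [pl_cons, tA_pow]
    simp [tB, Matrix.mul_apply, Fin.sum_univ_two]
  have e3 : 0 < kk ρ (n (u + 1)) + t := by
    have := (Nat.cast_le.mpr h2).trans (kk_ge hρ (n (u + 1)))
    linarith
  rw [e2, sub_self] at b1 b2
  rw [e1, sub_self] at a1 a2
  have e4 : (tA ρ ^ z' *ᵥ (tB p t *ᵥ yv (tA ρ) (tB p t) a n m (u + 2 + 1))) 1
      = yv (tA ρ) (tB p t) a n m (u + 2) 1 := by rw [yv_step hu, tAp1, tAp1]
  rw [e4] at b1 b2
  rw [tAp1, tB1] at a1 a2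
  change _ < 0 at a1
  generalize (tA ρ ^ z' *ᵥ (tB p t *ᵥ yv (tA ρ) (tB p t) a n m (u + 2 + 1))) 0 = w' at *
  generalize (tA ρ ^ z *ᵥ (tB p t *ᵥ yv (tA ρ) (tB p t) a n m (u + 1 + 1))) 0 = w at *
  unfold Pos
  generalize yv (tA ρ) (tB p t) a n m (u + 2) 0 + t * yv (tA ρ) (tB p t) a n m (u + 2) 1 = s at *
  generalize yv (tA ρ) (tB p t) a n m (u + 2) 1 = y1 at *
  generalize kk ρ (n (u + 1)) + t = e at *
  have hρ0 : 0 < ρ := by linarith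
  set Θ := c0 * (1 - (ρ - 1) * (p * (ρ - 1) + t)) with hΘ
  have g1 : 0 < (ρ + 1) * (Θ * s) := by rw [hΘ]; nlinarith [mul_pos hρ0 (neg_pos.mpr a1)]
  have g2 : 0 < (ρ + 1) * e * (Θ * y1) := by rw [hΘ]; nlinarith [mul_pos hρ0 (neg_pos.mpr b1)]
  have g3 : 0 < Θ * s := (mul_pos_iff_of_pos_left (by linarith)).mp g1
  have g4 : 0 < Θ * y1 := (mul_pos_iff_of_pos_left (by positivity)).mp g2
  refine ⟨?_, fun h0 => by rw [h0] at g3; simp at g3⟩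
  by_contra hc
  push Not at hc
  nlinarith [mul_pos g3 g4, mul_self_nonneg Θ]

lemma win (h : Opt (tA ρ) (tB p t) f a (sg n 0 m)) (hρ : 1 ≤ ρ) (hp : 0 < p) {L : ℕ}
    (hL3 : 3 ≤ L) (hL : 2 * ρ * p ≤ L + t) {i x : ℕ} (hx : n i = x + 1) :
    ∃ ξ0 : ℝ, ∀ j, i < j → j + 2 < m → (∀ l, i ≤ l → l ≤ j + 2 → L ≤ n l) →
      kk ρ (n j - 3) ≤ ξ0 ∧ ξ0 ≤ kk ρ (n j + 2) := by
  have hρ0 : 0 < ρ := by linarith
  have hL0 : 0 < L + t := lt_of_lt_of_le (by positivity) hL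
  have hε : p ≤ 1 / (2 * ρ) * (L + t) := by
    rw [one_div, ← div_eq_inv_mul, le_div_iff₀ (by positivity)]; linarith
  have hε1 : 1 / (2 * ρ) * ρ = 1 / 2 := by field_simp
  have hε2 : 1 / (2 * ρ) ≤ 1 / 2 := by gcongr; linarith
  generalize 1 / (2 * ρ) = ε at *
  obtain ⟨c0, h0⟩ : ∃ c0, c0 = cf f (pl (tA ρ) (tB p t) (sg n 0 i) * tA ρ ^ x) 0 := ⟨_, rfl⟩
  obtain ⟨c1, h0'⟩ : ∃ c1, c1 = cf f (pl (tA ρ) (tB p t) (sg n 0 i) * tA ρ ^ x) 1 := ⟨_, rfl⟩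
  refine ⟨-((p * (ρ - 1) + t) * c0 - c1) / (c0 - (ρ - 1) * c1), fun j h1 h2 hl => ?_⟩
  have l0 := hl j (by omega) (by omega)
  have l1 := hl (j + 1) (by omega) (by omega)
  have l2 := hl (j + 2) (by omega) (by omega)
  obtain ⟨z, hz⟩ : ∃ z, n j = z + 2 + 1 := ⟨n j - 3, by omega⟩
  obtain ⟨a0, a1, a2⟩ := gen h h1 (by omega) hx hz h0 h0' rfl rfl rfl
  have hm : ∀ v ∈ sg n (i + 1) (j - (i + 1)), L ≤ v := by
    intro v hv
    obtain ⟨l, b1, b2, rfl⟩ := mem_sg hv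
    exact hl l (by omega) (by omega)
  obtain ⟨e0, r, r0, r1, r2⟩ := col_small hρ hp hL0 hε _ hm
  obtain ⟨e0', r', r0', r1', r2'⟩ := col_small hρ hp hL0 hε _
    (fun v hv => hm v (List.mem_reverse.mp hv))
  generalize tB p t * pl (tA ρ) (tB p t) (sg n (i + 1) (j - (i + 1))) = M at *
  generalize tB p t * pl (tA ρ) (tB p t) (sg n (i + 1) (j - (i + 1))).reverse = M' at *
  have big : Big L (yv (tA ρ) (tB p t) a n m (j + 1)) := by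
    rw [yv_step (show j + 1 < m by omega)]
    exact (posy h hρ hL0 h2 (by omega) l1 (by omega) (by omega)).big hρ hp l1
  obtain ⟨s0, s, s1, s2, s3⟩ := big.small hp hL0 hε
  generalize tB p t *ᵥ yv (tA ρ) (tB p t) a n m (j + 1) = w at *
  have y0 : (tA ρ ^ (z + 2) *ᵥ w) 0 = (ρ ^ (z + 2) * s + kk ρ (z + 2)) * w 1 := by
    rw [tAp0, s1]; ring
  rw [y0, tAp1] at a1 a2
  obtain ⟨θ, hθ⟩ : ∃ θ, M 0 0 - M' 0 0 = θ * M 1 0 := ⟨(M 0 0 - M' 0 0) / M 1 0, by field_simp⟩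
  rw [hθ] at a0
  rw [hθ, a0] at a1 a2
  have d0 : 0 ≤ ρ - 1 := by linarith
  have hθ2 : θ * (1 + (ρ - 1) * r') = r - r' := by
    refine mul_right_cancel₀ e0 ?_
    rw [r0, r0', a0] at hθ
    linear_combination -hθ
  have q0 := mul_nonneg d0 r1'
  have θ1 : θ ≤ 1 := by by_contra hc; push Not at hc; nlinarith
  have θ2 : -1 ≤ θ * ρ := by
    by_contra hc
    push Not at hc
    have q1 : r' * ρ ≤ 1 / 2 := by rw [← hε1]; gcongr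
    have q2 : θ * ρ * (1 + (ρ - 1) * r') = r * ρ - r' * ρ := by linear_combination ρ * hθ2
    nlinarith [mul_nonneg r1 hρ0.le]
  have pw := pow_pos hρ0 (z + 2)
  have := window (k := kk ρ z) (ξ := ρ ^ (z + 2) * s + kk ρ (z + 2)) hρ e0 s0 (kk_nonneg hρ z)
    θ1 θ2 (by rw [← kk_succ, ← kk_succ]; nlinarith)
    (by rw [← kk_succ, ← kk_succ, ← kk_succ, kk_succ' (z + 1 + 1)]; nlinarith) a1 a2
  rw [hz]
  exact this

lemma few_tri (hρ : 1 ≤ ρ) (hp : 0 < p) : Few (tA ρ) (tB p t) := by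
  obtain ⟨L, hL⟩ := exists_nat_ge (2 * ρ * p - t)
  refine few_of_eqz (by simp [tA, Matrix.det_fin_two]; linarith)
    (by simp [tB, Matrix.det_fin_two]; exact hp) (L := L + 3) (D := 5)
    fun f a n m h i j h1 h2 hl => ?_
  have l0 := hl i le_rfl (by omega)
  obtain ⟨ξ0, H⟩ := win h hρ hp (L := L + 3) (by omega) (by push_cast; linarith)
    (show n i = (n i - 1) + 1 by omega)
  obtain ⟨a1, a2⟩ := H j (by omega) h2 hl
  obtain ⟨b1, b2⟩ := H (i + 1) (by omega) (by omega) fun l c1 c2 => hl l c1 (by omega)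
  have c1 := (kk_mono hρ).le_iff_le.mp (a1.trans b2)
  have c2 := (kk_mono hρ).le_iff_le.mp (b1.trans a2)
  omega

end Pool.Agent.Lib.MP_34a884_an.Neg
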