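import Mathlib
import Pool.Agent.Lib.MP_34a884_an.NTri

/-! The degenerate normal form `A = diag (ρ, 1)`, `B = [[0, p], [1, t]]` with `t = 0` or `t = 1`. -/

namespace Pool.Agent.Lib.MP_34a884_an.Neg

open Matrix

/-- The diagonal matrix. -/
def dA (ρ : ℝ) : M2 := !![ρ, 0; 0, 1]

variable {ρ p : ℝ}

lemma dA_pow (n : ℕ) : dA ρ ^ n = !![ρ ^ n, 0; 0, 1] := by
  induction n with
  | zero => ext i j; fin_cases i <;> fin_cases j <;> simp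
  | succ n ih =>
    rw [pow_succ', ih]
    ext i j
    fin_cases i <;> fin_cases j <;> simp [dA, Matrix.mul_apply, Fin.sum_univ_two, pow_succ']

lemma dAp0 (n : ℕ) (y : Fin 2 → ℝ) : (dA ρ ^ n *ᵥ y) 0 = ρ ^ n * y 0 := by
  rw [dA_pow, mulVec2]; simp
lemma dAp1 (n : ℕ) (y : Fin 2 → ℝ) : (dA ρ ^ n *ᵥ y) 1 = y 1 := by
  rw [dA_pow, mulVec2]; simp
lemma dA0 (y : Fin 2 → ℝ) : (dA ρ *ᵥ y) 0 = ρ * y 0 := by rw [mulVec2]; simp [dA]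
lemma dA1 (y : Fin 2 → ℝ) : (dA ρ *ᵥ y) 1 = y 1 := by rw [mulVec2]; simp [dA]

lemma few_diag0 (hρ : 0 < ρ) (hp : 0 < p) : Few (dA ρ) (tB p 0) := by
  refine few_of_eqz (by simpa [dA, Matrix.det_fin_two] using hρ)
    (by simpa [tB, Matrix.det_fin_two] using hp) (L := 1) (D := 0)
    fun f a n m h i j h1 h2 hl => ?_
  exfalso
  have := hl (i + 2) (by omega) (by omega)
  refine no_tie h (show i < i + 2 by omega) (by omega) one_pos (z := n (i + 2) - 1) (by omega) ?_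
  rw [show i + 2 - (i + 1) = 0 + 1 by omega, sg_succ, sg_zero, pl_cons]
  simp only [dA_pow]
  ext r s
  fin_cases r <;> fin_cases s <;> simp [tB, Matrix.mul_apply, Fin.sum_univ_two] <;> ring

variable {f : (Fin 2 → ℝ) →ₗ[ℝ] ℝ} {a : Fin 2 → ℝ} {n : ℕ → ℕ} {m : ℕ}

lemma cf_mul (U X : M2) (i : Fin 2) : cf f (U * X) i = cf f U 0 * X 0 i + cf f U 1 * X 1 i := by
  rw [cf, ← Matrix.mulVec_mulVec, cf_eq]; simp

/-- The covector seen after the run `i`. -/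
noncomputable def cv (A B : M2) (f : (Fin 2 → ℝ) →ₗ[ℝ] ℝ) (n : ℕ → ℕ) (i : ℕ) : Fin 2 → ℝ :=
  cf f (pl A B (sg n 0 i) * A ^ n i)

lemma two_diag {B : M2} (hρ : 1 < ρ) (h : Opt (dA ρ) B f a (sg n 0 m)) {i j : ℕ} (h1 : i < j)
    (h2 : j < m) (hx : 1 ≤ n i) (hz : 1 ≤ n j) {M : M2}
    (hM : M = B * pl (dA ρ) B (sg n (i + 1) (j - (i + 1)))) :
    ρ * (cv (dA ρ) B f n i 0 * M 0 1 * yv (dA ρ) B a n m j 1)
      < cv (dA ρ) B f n i 1 * M 1 0 * yv (dA ρ) B a n m j 0 ∧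
    ρ * (cv (dA ρ) B f n i 1 * M 1 0 * yv (dA ρ) B a n m j 0)
      ≤ cv (dA ρ) B f n i 0 * M 0 1 * yv (dA ρ) B a n m j 1 := by
  obtain ⟨x, hx⟩ : ∃ x, n i = x + 1 := ⟨n i - 1, by omega⟩
  obtain ⟨z, hz⟩ : ∃ z, n j = z + 1 := ⟨n j - 1, by omega⟩
  obtain ⟨r1, r2⟩ := two_run h h1 h2 hx hz rfl hM rfl
  simp only [cf_eq, dA0, dA1, mulVec2 M] at r1 r2
  rw [yv_step h2, hz, pow_succ', ← Matrix.mulVec_mulVec, dA0, dA1, cv, hx, pow_succ,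
    ← mul_assoc (pl _ _ _), cf_mul _ (dA ρ), cf_mul _ (dA ρ)]
  generalize cf f (pl (dA ρ) B (sg n 0 i) * dA ρ ^ x) = c at *
  generalize dA ρ ^ z *ᵥ (B *ᵥ yv (dA ρ) B a n m (j + 1)) = y at *
  simp only [dA, Matrix.of_apply, Matrix.cons_val', Matrix.cons_val_zero, Matrix.cons_val_one,
    Matrix.cons_val_fin_one]
  have d : 0 < ρ - 1 := by linarith
  have d' : 0 < ρ := by linarith
  constructor
  · have : ρ * (c 0 * M 0 1 * y 1) < c 1 * M 1 0 * y 0 := by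
      refine lt_of_mul_lt_mul_left ?_ d.le; nlinarith
    nlinarith
  · have : ρ * (c 1 * M 1 0 * y 0) ≤ c 0 * M 0 1 * y 1 := by
      refine le_of_mul_le_mul_left ?_ d; nlinarith
    nlinarith

lemma neg_pair {u v : ℝ} (hρ : 1 < ρ) (h1 : ρ * u < v) (h2 : ρ * v ≤ u) : u < 0 ∧ v < 0 := by
  have a : u < 0 := by
    by_contra hc
    push Not at hc
    nlinarith [mul_nonneg hc (sub_nonneg.mpr hρ.le)]
  exact ⟨a, by by_contra hc; push Not at hc; nlinarith⟩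

lemma slope_pair {c0 c1 y0 y1 : ℝ} (hρ : 1 < ρ) (hy : 0 < y0 * y1)
    (h1 : ρ * (c0 * y1) < c1 * y0) (h2 : ρ * (c1 * y0) ≤ c0 * y1) :
    c1 * y1 < 0 ∧ 0 < y0 / y1 ∧ y0 / y1 ≤ ρ * (c0 / c1) ∧ c0 / c1 ≤ ρ * (y0 / y1) := by
  obtain ⟨a1, a2⟩ := neg_pair hρ h1 h2
  have y1' : y1 ≠ 0 := by rintro rfl; simp at hy
  have c1' : c1 ≠ 0 := by rintro rfl; simp at a2
  obtain ⟨ξ, rfl⟩ : ∃ ξ, y0 = ξ * y1 := ⟨y0 / y1, by field_simp⟩
  obtain ⟨γ, rfl⟩ : ∃ γ, c0 = γ * c1 := ⟨c0 / c1, by field_simp⟩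
  rw [mul_div_cancel_right₀ _ y1', mul_div_cancel_right₀ _ c1']
  have b1 : 0 < ξ := by
    rw [mul_assoc] at hy
    exact (mul_pos_iff_of_pos_right (mul_self_pos.mpr y1')).mp hy
  have b2 : c1 * y1 < 0 := by by_contra hc; push Not at hc; nlinarith
  refine ⟨b2, b1, ?_, ?_⟩
  · by_contra hc; push Not at hc; nlinarith
  · by_contra hc; push Not at hc; nlinarith

lemma val_split {A B : M2} {u : ℕ} (hu : u < m) : f (pl A B (sg n 0 m) *ᵥ a) =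
    cv A B f n u 0 * (B *ᵥ yv A B a n m (u + 1)) 0
      + cv A B f n u 1 * (B *ᵥ yv A B a n m (u + 1)) 1 := by
  have s := sg_split (n := n) (Nat.zero_le u) hu
  rw [Nat.sub_zero, Nat.sub_zero] at s
  rw [s, cv, ← cf_eq, yv]
  simp only [pl_append, pl_cons, Matrix.mulVec_mulVec, mul_assoc]

lemma tri (hρ : 1 < ρ) (hp : 0 < p) (h : Opt (dA ρ) (tB p 1) f a (sg n 0 m)) {u : ℕ}
    (hu : u + 2 < m) (h1 : 1 ≤ n u) (h2 : 1 ≤ n (u + 1)) (h3 : 1 ≤ n (u + 2))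
    {Y : ℕ → Fin 2 → ℝ} (hY : Y = yv (dA ρ) (tB p 1) a n m) {ξ : ℕ → ℝ}
    (hξ : ξ = fun l => Y l 0 / Y l 1) {Δ F : ℝ}
    (hΔ : Δ = -(cv (dA ρ) (tB p 1) f n u 1 * Y (u + 1) 1))
    (hF : F = -f (pl (dA ρ) (tB p 1) (sg n 0 m) *ᵥ a)) :
    0 < Y (u + 2) 0 * Y (u + 2) 1 ∧ 0 < ξ (u + 1) ∧ 0 < ξ (u + 2) ∧
      ξ (u + 1) ≤ ρ * (ρ * ξ (u + 2)) ∧ ξ (u + 2) ≤ ρ * (ρ * ξ (u + 1)) ∧
      p * ρ ^ n (u + 1) = ξ (u + 1) * (ξ (u + 2) + 1) ∧ 0 < Δ ∧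
      (ξ (u + 1) + 1) * Δ ≤ F ∧ F ≤ (ρ + 1) * (ξ (u + 1) + 1) * Δ := by
  obtain ⟨a1, a2⟩ := two_diag hρ h (show u < u + 1 by omega) (by omega) h1 h2 rfl
  obtain ⟨b1, b2⟩ := two_diag hρ h (show u < u + 2 by omega) hu h1 h3 rfl
  rw [val_split (show u < m by omega), tB0, tB1] at hF
  rw [Nat.sub_self, sg_zero, pl_nil, mul_one] at a1 a2
  rw [show u + 2 - (u + 1) = 0 + 1 by omega, sg_succ, sg_zero, pl_cons] at b1 b2
  have e1 : tB p 1 1 0 = 1 := by simp [tB]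
  have e2 : tB p 1 0 1 = p := by simp [tB]
  have e3 : (tB p 1 * (dA ρ ^ n (u + 1) * tB p 1 * pl (dA ρ) (tB p 1) [])) 1 0 = 1 := by
    rw [dA_pow]; simp [tB, Matrix.mul_apply, Fin.sum_univ_two]
  have e4 : (tB p 1 * (dA ρ ^ n (u + 1) * tB p 1 * pl (dA ρ) (tB p 1) [])) 0 1 = p := by
    rw [dA_pow]; simp [tB, Matrix.mul_apply, Fin.sum_univ_two]
  rw [e1, e2, mul_one] at a1 a2
  rw [e3, e4, mul_one] at b1 b2
  have s := yv_step (A := dA ρ) (B := tB p 1) (a := a) (n := n) (show u + 1 < m by omega)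
  have s0 := congrFun s 0
  have s1 := congrFun s 1
  rw [dAp0, tB0] at s0
  rw [dAp1, tB1, one_mul] at s1
  rw [← hY] at a1 a2 b1 b2 s0 s1 hF
  change Y (u + 1) 0 = _ * (p * Y (u + 2) 1) at s0
  change Y (u + 1) 1 = Y (u + 2) 0 + Y (u + 2) 1 at s1
  simp only [hξ]
  generalize cv (dA ρ) (tB p 1) f n u = c at *
  generalize Y (u + 1) = y at *
  generalize Y (u + 2) = y' at *
  have hρ0 : 0 < ρ := by linarith
  have pw : 0 < ρ ^ n (u + 1) * p := by positivity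
  obtain ⟨-, n2⟩ := neg_pair hρ a1 a2
  obtain ⟨-, n4⟩ := neg_pair hρ b1 b2
  have n5 : c 1 * y' 1 < 0 := by
    by_contra hc
    push Not at hc
    rw [s0] at n2
    nlinarith [mul_nonneg pw.le hc]
  have q1 : 0 < y' 0 * y' 1 := by
    by_contra hc
    push Not at hc
    nlinarith [mul_pos_of_neg_of_neg n4 n5, mul_self_nonneg (c 1)]
  have y1' : y' 1 ≠ 0 := by intro h0; rw [h0] at q1; simp at q1
  have q2 : 0 < y 0 * y 1 := by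
    rw [s0, s1]
    nlinarith [mul_pos pw q1, mul_pos pw (mul_self_pos.mpr y1')]
  obtain ⟨g1, g2, g3, g4⟩ := slope_pair hρ q2 a1 a2
  obtain ⟨k1, k2, k3, k4⟩ := slope_pair hρ q1 b1 b2
  have y1 : y 1 ≠ 0 := by intro h0; rw [h0] at q2; simp at q2
  have c1 : c 1 ≠ 0 := by intro h0; rw [h0] at g1; simp at g1
  have eF : F = (c 0 * p / c 1 + y 0 / y 1 + 1) * Δ := by rw [hF, hΔ]; field_simp; ring
  have eP : p * ρ ^ n (u + 1) = y 0 / y 1 * (y' 0 / y' 1 + 1) := by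
    have : y' 0 / y' 1 + 1 = y 1 / y' 1 := by rw [s1]; field_simp
    rw [this, s0]; field_simp
  have dΔ : 0 < Δ := by rw [hΔ]; linarith
  generalize c 0 * p / c 1 = γ at *
  generalize y 0 / y 1 = x at *
  generalize y' 0 / y' 1 = x' at *
  have γ0 : 0 < γ := by by_contra hc; push Not at hc; nlinarith
  refine ⟨q1, g2, k2, by nlinarith, by nlinarith, eP, dΔ, ?_, ?_⟩
  · rw [eF]; gcongr; linarith
  · rw [eF]; gcongr; nlinarith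

lemma same_sign (hρ : 0 < ρ) (hp : 0 < p) {j : ℕ} (hj : j ≤ m) {s : ℝ}
    (h0 : 0 < yv (dA ρ) (tB p 1) a n m j 0 * s) (h1 : 0 < yv (dA ρ) (tB p 1) a n m j 1 * s)
    (d : ℕ) : ∀ l, l + d = j →
      0 < yv (dA ρ) (tB p 1) a n m l 0 * s ∧ 0 < yv (dA ρ) (tB p 1) a n m l 1 * s := by
  induction d with
  | zero => rintro l rfl; exact ⟨h0, h1⟩
  | succ d ih =>
    intro l hl
    obtain ⟨a1, a2⟩ := ih (l + 1) (by omega)
    rw [yv_step (show l < m by omega), dAp0, dAp1, tB0, tB1]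
    exact ⟨by have := mul_pos (mul_pos (pow_pos hρ (n l)) hp) a2; linarith, by linarith⟩

lemma nn_mul {X Y : M2} (hX : ∀ i j, 0 ≤ X i j) (hY : ∀ i j, 0 ≤ Y i j) (i j : Fin 2) :
    0 ≤ (X * Y) i j := by
  rw [Matrix.mul_apply]
  exact Finset.sum_nonneg fun k _ => mul_nonneg (hX i k) (hY k j)

lemma four (hρ : 1 < ρ) (hp : 0 < p) (h : Opt (dA ρ) (tB p 1) f a (sg n 0 m)) {u v : ℕ}
    (huv : u + 2 ≤ v) (hv : v + 1 < m) (h1 : 1 ≤ n u) (h2 : 1 ≤ n (u + 1)) (h3 : 1 ≤ n v)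
    (h4 : 1 ≤ n (v + 1))
    (hs : cv (dA ρ) (tB p 1) f n u 1 * yv (dA ρ) (tB p 1) a n m (v + 1) 1 ≤ 0) {Δ Δ' : ℝ}
    (hΔ : Δ = -(cv (dA ρ) (tB p 1) f n u 1 * yv (dA ρ) (tB p 1) a n m (u + 1) 1))
    (hΔ' : Δ' = -(cv (dA ρ) (tB p 1) f n v 1 * yv (dA ρ) (tB p 1) a n m (v + 1) 1)) :
    Δ ≤ ρ * Δ' ∧ Δ' ≤ ρ * Δ := by
  obtain ⟨x, hx⟩ : ∃ x, n u = x + 1 := ⟨n u - 1, by omega⟩
  obtain ⟨x', hx'⟩ : ∃ x, n (u + 1) = x + 1 := ⟨n (u + 1) - 1, by omega⟩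
  obtain ⟨z, hz⟩ : ∃ x, n v = x + 1 := ⟨n v - 1, by omega⟩
  obtain ⟨z', hz'⟩ : ∃ x, n (v + 1) = x + 1 := ⟨n (v + 1) - 1, by omega⟩
  have s3 := sg_cons (n := n) hv
  have s2 := sg_cons (n := n) (show u + 1 < m by omega)
  rw [sg_split (show u + 1 + 1 ≤ v by omega) (show v < m by omega), s3] at s2
  have s1 := sg_split (n := n) (Nat.zero_le u) (show u < m by omega)
  rw [s2, Nat.sub_zero, Nat.sub_zero] at s1
  have s0 := sg_split (n := n) (Nat.zero_le u) (show u < v by omega)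
  rw [sg_cons (show u + 1 < v by omega), Nat.sub_zero, Nat.sub_zero] at s0
  simp only [cv, yv] at hs hΔ hΔ'
  rw [s1] at h
  rw [s2] at hΔ
  rw [s3] at hs
  rw [s3, s0] at hΔ'
  rw [hx, hz'] at hs
  rw [hx, hx', hz, hz'] at h hΔ hΔ'
  generalize sg n 0 u = l1 at *
  generalize sg n (u + 1 + 1) (v - (u + 1 + 1)) = l2 at *
  generalize sg n (v + 1 + 1) (m - (v + 1 + 1)) = l3 at *
  have hρ0 : 0 < ρ := by linarith
  have nA : ∀ (k : ℕ) i j, 0 ≤ (dA ρ ^ k) i j := by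
    intro k i j
    rw [dA_pow]
    fin_cases i <;> fin_cases j <;> simp
    positivity
  have nB : ∀ i j, 0 ≤ tB p 1 i j := by
    intro i j
    fin_cases i <;> fin_cases j <;> simp [tB]
    exact hp.le
  have nP : ∀ (l : List ℕ) i j, 0 ≤ pl (dA ρ) (tB p 1) l i j := by
    intro l
    induction l with
    | nil => intro i j; fin_cases i <;> fin_cases j <;> simp
    | cons k l ih => rw [pl_cons]; exact nn_mul (nn_mul (nA k) nB) ih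
  obtain ⟨M, hM⟩ : ∃ M, M = dA ρ ^ x' * tB p 1 * pl (dA ρ) (tB p 1) l2 * dA ρ ^ z := ⟨_, rfl⟩
  have nM : 0 ≤ M 1 1 := hM ▸ nn_mul (nn_mul (nn_mul (nA _) nB) (nP _)) (nA _) 1 1
  obtain ⟨U, hU⟩ : ∃ U, U = pl (dA ρ) (tB p 1) l1 * dA ρ ^ x := ⟨_, rfl⟩
  obtain ⟨y, hy⟩ : ∃ y, y = (dA ρ ^ z' * tB p 1 * pl (dA ρ) (tB p 1) l3) *ᵥ a := ⟨_, rfl⟩
  have w : ∀ r s : ℕ, pl (dA ρ) (tB p 1) (l1 ++ (x + r) :: (r + x') :: (l2 ++ (z + s) ::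
      (s + z') :: l3)) *ᵥ a = U *ᵥ (dA ρ ^ r *ᵥ (tB p 1 *ᵥ (dA ρ ^ r *ᵥ (M *ᵥ (dA ρ ^ s *ᵥ
        (tB p 1 *ᵥ (dA ρ ^ s *ᵥ y))))))) := by
    intro r s
    simp only [hU, hM, hy, pl_append, pl_cons, pow_add, Matrix.mulVec_mulVec, mul_assoc]
  have o1 := (h (l1 ++ (x + 2) :: (2 + x') :: (l2 ++ (z + 0) :: (0 + z') :: l3)) (by simp)
    (by simp; omega)).1
  have o2 := (h (l1 ++ (x + 0) :: (0 + x') :: (l2 ++ (z + 2) :: (2 + z') :: l3)) (by simp)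
    (by simp; omega)).1
  rw [add_comm x' 1, add_comm z' 1, w, w] at o1 o2
  have e1 : pl (dA ρ) (tB p 1) ((x' + 1) :: (l2 ++ (z + 1) :: (z' + 1) :: l3)) *ᵥ a
      = dA ρ *ᵥ (M *ᵥ (dA ρ *ᵥ (tB p 1 *ᵥ (dA ρ *ᵥ y)))) := by
    simp only [hM, hy, pl_append, pl_cons, pow_succ' _ x', pow_succ _ z, pow_succ' _ z',
      Matrix.mulVec_mulVec, mul_assoc]
  have e2 : pl (dA ρ) (tB p 1) ((z' + 1) :: l3) *ᵥ a = dA ρ *ᵥ y := by
    simp only [hy, pl_cons, pow_succ' _ z', Matrix.mulVec_mulVec, mul_assoc]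
  have e3 : pl (dA ρ) (tB p 1) l1 * dA ρ ^ (x + 1) = U * dA ρ := by
    rw [hU, pow_succ, mul_assoc]
  have e4 : pl (dA ρ) (tB p 1) (l1 ++ (x + 1) :: (x' + 1) :: l2) * dA ρ ^ (z + 1)
      = U * (dA ρ * tB p 1 * dA ρ * M * dA ρ) := by
    simp only [hU, hM, pl_append, pl_cons, pow_succ _ x, pow_succ' _ x', pow_succ _ z, mul_assoc]
  rw [e1, e3, cf_mul] at hΔ
  rw [e2, e4, cf_mul] at hΔ'
  rw [e2, e3, cf_mul] at hs
  have e5 : (dA ρ * tB p 1 * dA ρ * M * dA ρ) 0 1 = ρ * p * M 1 1 := by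
    simp [dA, tB, Matrix.mul_apply, Fin.sum_univ_two, Matrix.vecMul, dotProduct]
  have e6 : (dA ρ * tB p 1 * dA ρ * M * dA ρ) 1 1 = ρ * M 0 1 + M 1 1 := by
    simp [dA, tB, Matrix.mul_apply, Fin.sum_univ_two, Matrix.vecMul, dotProduct]
  have e7 : dA ρ 0 1 = 0 := by simp [dA]
  have e8 : dA ρ 1 1 = 1 := by simp [dA]
  rw [e5, e6] at hΔ'
  rw [e7, e8] at hΔ hs
  simp only [cf_eq, dAp0, dAp1, dA0, dA1, tB0, tB1, mulVec2 M] at o1 o2 hΔ hΔ' hs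
  generalize cf f U = c at *
  have d : 0 < ρ - 1 := by linarith
  set G10 := c 1 * (M 1 0 * (p * y 1) + M 1 1 * y 0) with h10
  set G01 := (c 0 * p * M 1 1 + c 1 * M 0 1) * y 1 with h01
  set G11 := c 1 * M 1 1 * y 1 with h11
  have g1 : ρ * G01 ≤ G10 := by
    refine le_of_mul_le_mul_left ?_ d; rw [h10, h01]; nlinarith
  have g2 : ρ * G10 ≤ G01 := by
    refine le_of_mul_le_mul_left ?_ d; rw [h10, h01]; nlinarith
  have g3 : G11 ≤ 0 := by rw [h11]; nlinarith [mul_nonneg nM (neg_nonneg.mpr hs)]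
  have g4 : Δ = -(ρ * G10 + G11) := by rw [hΔ, h10, h11]; ring
  have g5 : Δ' = -(ρ * G01 + G11) := by rw [hΔ', h01, h11]; ring
  rw [g4, g5]
  constructor <;> nlinarith [mul_nonneg d.le (neg_nonneg.mpr g3)]

lemma few_diag1 (hρ : 1 < ρ) (hp : 0 < p) : Few (dA ρ) (tB p 1) := by
  have hρ0 : 0 < ρ := by linarith
  obtain ⟨L, hL⟩ := pow_unbounded_of_one_lt (2 * ρ ^ 2 / p) hρ
  obtain ⟨D, hD⟩ := pow_unbounded_of_one_lt (2 * ρ ^ 4 * (ρ * (ρ + 1)) ^ 2) hρ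
  rw [div_lt_iff₀ hp] at hL
  refine few_of_eqz (by simpa [dA, Matrix.det_fin_two] using hρ0)
    (by simpa [tB, Matrix.det_fin_two] using hp) (L := L + 1) (D := D)
    fun f a n m h i j h1 h2 hl => ?_
  obtain ⟨Y, hY⟩ : ∃ Y, Y = yv (dA ρ) (tB p 1) a n m := ⟨_, rfl⟩
  obtain ⟨ξ, hξ⟩ : ∃ ξ : ℕ → ℝ, ξ = fun l => Y l 0 / Y l 1 := ⟨_, rfl⟩
  have T := fun u (c1 : i ≤ u) (c2 : u ≤ j) => tri hρ hp h (u := u) (by omega)
    (by have := hl u c1 (by omega); omega) (by have := hl (u + 1) (by omega) (by omega); omega)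
    (by have := hl (u + 2) (by omega) (by omega); omega) hY hξ rfl rfl
  have est : ∀ u, i ≤ u → u + 1 ≤ j → 0 < ξ (u + 2) + 1 ∧
      (ξ (u + 2) + 1) ^ 2 ≤ 2 * ρ ^ 2 * (p * ρ ^ n (u + 1)) ∧
      p * ρ ^ n (u + 1) ≤ ρ ^ 2 * (ξ (u + 2) + 1) ^ 2 := by
    intro u c1 c2
    obtain ⟨-, t1, t2, t3, t4, t5, -⟩ := T u c1 (by omega)
    have b0 : ρ ^ L ≤ ρ ^ n (u + 1) :=
      pow_le_pow_right₀ hρ.le (by have := hl (u + 1) (by omega) (by omega); omega)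
    have b1 : 2 * ρ ^ 2 < p * ρ ^ n (u + 1) := by nlinarith
    rw [t5] at b1 ⊢
    generalize ξ (u + 1) = x at *
    generalize ξ (u + 2) = x' at *
    have r2 : 0 < ρ ^ 2 := by positivity
    have b2 : x * (x' + 1) ≤ ρ ^ 2 * (x' * (x' + 1)) := by nlinarith
    have b3 : 1 ≤ x' := by
      by_contra hc
      push Not at hc
      have : x' * (x' + 1) ≤ 2 := by nlinarith
      nlinarith
    refine ⟨by linarith, ?_, by nlinarith⟩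
    have : x' + 1 ≤ 2 * ρ ^ 2 * x := by nlinarith
    nlinarith
  have cmp : ∀ (X X' : ℝ) (k k' : ℕ), 0 < X → X ≤ ρ * (ρ + 1) * X' →
      p * ρ ^ k ≤ ρ ^ 2 * X ^ 2 → X' ^ 2 ≤ 2 * ρ ^ 2 * (p * ρ ^ k') → k ≤ k' + D := by
    intro X X' k k' c0 c1 c2 c3
    have c4 : X ^ 2 ≤ (ρ * (ρ + 1) * X') ^ 2 := by gcongr
    have c5 : p * ρ ^ k ≤ p * (2 * ρ ^ 4 * (ρ * (ρ + 1)) ^ 2 * ρ ^ k') :=
      calc p * ρ ^ k ≤ ρ ^ 2 * ((ρ * (ρ + 1)) ^ 2 * X' ^ 2) := by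
            rw [← mul_pow (ρ * (ρ + 1))]; exact c2.trans (by gcongr)
        _ ≤ ρ ^ 2 * ((ρ * (ρ + 1)) ^ 2 * (2 * ρ ^ 2 * (p * ρ ^ k'))) := by gcongr
        _ = _ := by ring
    have c6 : ρ ^ k ≤ ρ ^ (k' + D) := by
      refine (le_of_mul_le_mul_left c5 hp).trans ?_
      rw [pow_add, mul_comm (ρ ^ k')]
      gcongr
    exact (pow_le_pow_iff_right₀ hρ).mp c6
  obtain ⟨j, rfl⟩ : ∃ j', j = j' + 1 := ⟨j - 1, by omega⟩
  obtain ⟨a0, a1, a2⟩ := est i le_rfl h1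
  obtain ⟨b0, b1, b2⟩ := est j (by omega) le_rfl
  suffices ξ (j + 2) + 1 ≤ ρ * (ρ + 1) * (ξ (i + 2) + 1) ∧
      ξ (i + 2) + 1 ≤ ρ * (ρ + 1) * (ξ (j + 2) + 1) from
    ⟨cmp _ _ _ _ b0 this.1 b2 a1, cmp _ _ _ _ a0 this.2 a2 b1⟩
  have R1 : 1 ≤ ρ * (ρ + 1) := by nlinarith
  rcases (show j = i ∨ j = i + 1 ∨ i + 2 ≤ j by omega) with rfl | rfl | c
  · exact ⟨by nlinarith, by nlinarith⟩
  · obtain ⟨-, t1, t2, t3, t4, -⟩ := T (i + 1) (by omega) (by omega)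
    change 0 < ξ (i + 2) at t1
    change ξ (i + 2) ≤ _ at t3
    change _ ≤ ρ * (ρ * ξ (i + 2)) at t4
    constructor <;> nlinarith [mul_pos hρ0 t1, mul_pos hρ0 t2]
  obtain ⟨-, -, -, -, -, -, t1, t2, t3⟩ := T (i + 1) (by omega) (by omega)
  obtain ⟨-, -, -, -, -, -, r1, r2, r3⟩ := T (j + 1) (by omega) (by omega)
  obtain ⟨q0, -⟩ := T j (by omega) (by omega)
  have q1 : Y (j + 2) 1 ≠ 0 := by intro h0; rw [h0] at q0; simp at q0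
  have q2 := (same_sign (a := a) (n := n) hρ0 hp (show j + 2 ≤ m by omega) (s := Y (j + 2) 1)
    (hY ▸ q0) (hY ▸ mul_self_pos.mpr q1) (j - i) (i + 2) (by omega)).2
  rw [← hY] at q2
  obtain ⟨f1, f2⟩ := four hρ hp h (u := i + 1) (v := j + 1) (by omega) (by omega)
    (by have := hl (i + 1) (by omega) (by omega); omega)
    (by have := hl (i + 1 + 1) (by omega) (by omega); omega)
    (by have := hl (j + 1) (by omega) (by omega); omega)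
    (by have := hl (j + 1 + 1) (by omega) (by omega); omega)
    (by
      rw [← hY]
      change _ * Y (j + 2) 1 ≤ 0
      change 0 < -(_ * Y (i + 2) 1) at t1
      by_contra hc
      push Not at hc
      nlinarith [mul_pos hc t1, mul_self_nonneg (cv (dA ρ) (tB p 1) f n (i + 1) 1)]) rfl rfl
  rw [← hY] at f1 f2
  change (ξ (i + 2) + 1) * _ ≤ _ at t2
  change _ ≤ (ρ + 1) * (ξ (i + 2) + 1) * _ at t3
  change (ξ (j + 2) + 1) * _ ≤ _ at r2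
  change _ ≤ (ρ + 1) * (ξ (j + 2) + 1) * _ at r3
  generalize -(cv (dA ρ) (tB p 1) f n (i + 1) 1 * Y (i + 1 + 1) 1) = Δ at *
  generalize -(cv (dA ρ) (tB p 1) f n (j + 1) 1 * Y (j + 1 + 1) 1) = Δ' at *
  constructor
  · refine le_of_mul_le_mul_right ?_ r1
    have : (ρ + 1) * (ξ (i + 2) + 1) * Δ ≤ (ρ + 1) * (ξ (i + 2) + 1) * (ρ * Δ') := by gcongr
    nlinarith
  · refine le_of_mul_le_mul_right ?_ t1
    have : (ρ + 1) * (ξ (j + 2) + 1) * Δ' ≤ (ρ + 1) * (ξ (j + 2) + 1) * (ρ * Δ) := by gcongr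
    nlinarith

end Pool.Agent.Lib.MP_34a884_an.Neg
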