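import Mathlib
import Pool.Agent.Lib.MP_34a884_an.NMat

/-! The cases `det A ≤ 0` and `A ^ q` scalar. -/

namespace Pool.Agent.Lib.MP_34a884_an.Neg

open Matrix

lemma chg_bound2 {n : ℕ → ℕ} {m : ℕ}
    (h0 : ∀ i q, 1 ≤ i → i + 3 ≤ q → q + 1 < m → n i = 0 → n q = 0 → n (i + 1) = 0)
    (h1 : ∀ i j, i < j → j < m → 2 ≤ n i → 2 ≤ n j → False) : (Ch n 0 m).card ≤ 9 := by
  classical
  have h2 : ∀ i j, j ≤ i ∨ m ≤ j ∨ n i < 2 ∨ n j < 2 := fun i j => by
    by_contra hc
    exact h1 i j (by omega) (by omega) (by omega) (by omega)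
  have prop : ∀ u q, 1 ≤ u → q + 1 < m → n u = 0 → n q = 0 → ∀ d, u + d + 2 ≤ q →
      n (u + d) = 0 := by
    intro u q a1 a2 a3 a4 d
    induction d with
    | zero => exact fun _ => a3
    | succ d ih => exact fun h => h0 (u + d) q (by omega) (by omega) a2 (ih (by omega)) a4
  let X1 := (Ch n 0 m).filter fun i => 2 ≤ n i
  let X2 := (Ch n 0 m).filter fun i => 2 ≤ n (i + 1)
  let X3 := (Ch n 0 m).filter fun i => 1 ≤ i ∧ n i = 0
  let X4 := (Ch n 0 m).filter fun i => i + 2 < m ∧ n (i + 1) = 0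
  have c1 : X1.card ≤ 1 := Finset.card_le_one.mpr fun i hi j hj => by
    simp only [X1, Finset.mem_filter, mem_Ch] at hi hj
    have := h2 i j
    have := h2 j i
    omega
  have c2 : X2.card ≤ 1 := Finset.card_le_one.mpr fun i hi j hj => by
    simp only [X2, Finset.mem_filter, mem_Ch] at hi hj
    have := h2 (i + 1) (j + 1)
    have := h2 (j + 1) (i + 1)
    omega
  have c3 : X3.card ≤ 3 := by
    have := Finset.card_le_card_of_injOn (s := X3) (t := Finset.range 3) (fun i => i % 3)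
      (fun i _ => by simpa using Nat.mod_lt _ (by norm_num))
      (fun i hi j hj e => by
        simp only [X3, Finset.coe_filter, mem_Ch, Set.mem_ofPred_eq] at hi hj e
        have := h0 i j
        have := h0 j i
        omega)
    simpa using this
  have c4 : X4.card ≤ 2 := by
    by_contra hc
    obtain ⟨x, hx, y, hy, z, hz, d1, d2, d3⟩ := Finset.two_lt_card.mp (not_le.mp hc)
    have key : ∀ x ∈ X4, ∀ y ∈ X4, ∀ z ∈ X4, y ≤ x ∨ z ≤ y := by
      intro x hx y hy z hz
      by_contra hc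
      simp only [X4, Finset.mem_filter, mem_Ch] at hx hy hz
      have := prop (x + 1) (z + 1) (by omega) (by omega) hx.2.2 hz.2.2 (y - (x + 1)) (by omega)
      rw [show x + 1 + (y - (x + 1)) = y by omega] at this
      omega
    have := key x hx y hy z hz
    have := key x hx z hz y hy
    have := key y hy x hx z hz
    have := key y hy z hz x hx
    have := key z hz x hx y hy
    have := key z hz y hy x hx
    omega
  have hs : Ch n 0 m ⊆ insert 0 (insert (m - 2) (X1 ∪ X2 ∪ X3 ∪ X4)) := by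
    intro i hi
    simp only [Finset.mem_insert, Finset.mem_union, X1, X2, X3, X4, Finset.mem_filter, hi,
      true_and]
    obtain ⟨-, a2, a3⟩ := mem_Ch.mp hi
    omega
  have a0 := Finset.card_le_card hs
  have a1 := Finset.card_insert_le 0 (insert (m - 2) (X1 ∪ X2 ∪ X3 ∪ X4))
  have a2 := Finset.card_insert_le (m - 2) (X1 ∪ X2 ∪ X3 ∪ X4)
  have a3 := Finset.card_union_le (X1 ∪ X2 ∪ X3) X4
  have a4 := Finset.card_union_le (X1 ∪ X2) X3
  have a5 := Finset.card_union_le X1 X2
  omega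

variable {A B : M2}

lemma few_nonpos (hA : A.det ≤ 0) (hB : B.det < 0) : Few A B := by
  refine ⟨9, fun f a n m h => chg_bound2 (fun i q a1 a2 a3 a4 a5 => ?_)
    (fun i j h1 h2 a1 a2 => ?_)⟩
  · rw [← a4]
    exact sq_step h (by rw [a4]; simpa using hB) a1 a2 a3 (by omega) (by omega) (by omega)
  obtain ⟨x, hx⟩ : ∃ x, n i = x + 2 := ⟨n i - 2, by omega⟩
  obtain ⟨z, hz⟩ : ∃ z, n j = 2 + z := ⟨n j - 2, by omega⟩
  rcases hA.eq_or_lt with h0 | h0
  · have e : A * A = A.trace • A := by rw [ch2, h0]; simp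
    refine no_tie h h1 h2 (q := 1) (z := 1 + z) one_pos (by omega) ?_
    rw [hx, pow_succ A (x + 2), pow_succ A (x + 1), pow_add A 1 (1 + z), pow_add A 1 z, pow_one,
      ← mul_assoc A A, mul_assoc _ A A, e]
    simp only [Matrix.mul_smul, Matrix.smul_mul]
  rw [two_split h1 h2, hx, hz] at h
  generalize sg n 0 i = l1 at *
  generalize sg n (i + 1) (j - (i + 1)) = l2 at *
  generalize sg n (j + 1) (m - (j + 1)) = l3 at *
  have w : ∀ r s : ℕ, pl A B (l1 ++ (x + r) :: (l2 ++ (s + z) :: l3))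
      = pl A B l1 * A ^ x * (A ^ r * (B * pl A B l2) * A ^ s) * (A ^ z * B * pl A B l3) := by
    intro r s
    simp only [pl_append, pl_cons, pow_add, mul_assoc]
  have o1 := h (l1 ++ (x + 4) :: (l2 ++ (0 + z) :: l3)) (by simp) (by simp; omega)
  have o2 := h (l1 ++ (x + 0) :: (l2 ++ (4 + z) :: l3)) (by simp) (by simp; omega)
  have o3 := h (l1 ++ (x + 3) :: (l2 ++ (1 + z) :: l3)) (by simp) (by simp; omega)
  have o4 := h (l1 ++ (x + 1) :: (l2 ++ (3 + z) :: l3)) (by simp) (by simp; omega)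
  rw [w, w] at o1 o2 o3 o4
  rw [pow_zero, mul_one] at o1
  rw [pow_zero, one_mul] at o2
  rw [pow_one] at o3 o4
  have := lex_head l1 (o1.2 (sq_tie _ _ _ f a rfl rfl h0 o1.1 o2.1 o3.1 o4.1).1)
  omega

lemma few_pow (hB : B.det < 0) {q : ℕ} (hq : 0 < q) {c : ℝ} (h : A ^ q = c • (1 : M2)) :
    Few A B := by
  rcases le_or_gt A.det 0 with hA | hA
  · exact few_nonpos hA hB
  refine few_of_eqz hA hB (L := q) (D := 0) fun f a n m ho i j h1 h2 hl => ?_
  exfalso
  have := hl (i + 1) (by omega) (by omega)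
  refine no_tie ho (show i < i + 1 by omega) (by omega) hq (z := n (i + 1) - q) (by omega) ?_
  simp only [pow_add, h, Matrix.mul_smul, Matrix.smul_mul, mul_one, one_mul]

end Pool.Agent.Lib.MP_34a884_an.Neg
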