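import Mathlib
import Pool.Agent.Lib.MP_34a884_an.NEasy
import Pool.Agent.Lib.MP_34a884_an.NDiag

/-! Reduction to the normal forms. -/

namespace Pool.Agent.Lib.MP_34a884_an.Neg

open Matrix

variable {A B : M2}

lemma conj_of_basis {X X' : M2} {u v : Fin 2 → ℝ} {s : ℝ}
    (h1 : X *ᵥ u = (s * X' 0 0) • u + (s * X' 1 0) • v)
    (h2 : X *ᵥ v = (s * X' 0 1) • u + (s * X' 1 1) • v) :
    X * !![u 0, v 0; u 1, v 1] = s • (!![u 0, v 0; u 1, v 1] * X') := by
  have a0 := congrFun h1 0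
  have a1 := congrFun h1 1
  have b0 := congrFun h2 0
  have b1 := congrFun h2 1
  simp only [mulVec2, Pi.add_apply, Pi.smul_apply, smul_eq_mul] at a0 a1 b0 b1
  ext i j
  fin_cases i <;> fin_cases j <;>
    simp [Matrix.mul_apply, Fin.sum_univ_two, Matrix.vecMul, dotProduct]
  · linear_combination a0
  · linear_combination b0
  · linear_combination a1
  · linear_combination b1

lemma exists_eig (hA : 0 < A.det) (h : 4 * A.det ≤ A.trace ^ 2) :
    ∃ μ ρ : ℝ, μ ≠ 0 ∧ 1 ≤ ρ ∧ A.trace = μ * ρ + μ ∧ A.det = μ * ρ * μ := by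
  generalize A.det = d at *
  generalize A.trace = τ at *
  set z := Real.sqrt (τ ^ 2 - 4 * d) with hz
  have z0 : 0 ≤ z := Real.sqrt_nonneg _
  have z2 : z * z = τ ^ 2 - 4 * d := Real.mul_self_sqrt (by linarith)
  clear_value z
  rcases le_or_gt 0 τ with c | c
  · have a : 0 < τ - z := by by_contra hc; push Not at hc; nlinarith
    refine ⟨(τ - z) / 2, (τ + z) / (τ - z), by positivity, ?_, ?_, ?_⟩
    · rw [le_div_iff₀ a]; linarith
    · field_simp; ring
    · field_simp; linarith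
  · have a : 0 < -τ - z := by by_contra hc; push Not at hc; nlinarith
    refine ⟨-(-τ - z) / 2, (-τ + z) / (-τ - z), by intro h0; linarith, ?_, ?_, ?_⟩
    · rw [le_div_iff₀ a]; linarith
    · field_simp; ring
    · field_simp; linarith

lemma pb_real (hB : B.det < 0) (h : 4 * A.det ≤ A.trace ^ 2) : PB A B := by
  rcases le_or_gt A.det 0 with hA | hA
  · exact pb_of_few (few_nonpos hA hB)
  obtain ⟨μ, ρ, m0, r1, e1, e2⟩ := exists_eig hA h
  by_cases hs : A ^ 1 = μ • (1 : M2)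
  · exact pb_of_few (few_pow hB one_pos hs)
  obtain ⟨u, hu, Au⟩ : ∃ u : Fin 2 → ℝ, u ≠ 0 ∧ A *ᵥ u = (μ * ρ) • u := by
    have e : A * (A - μ • (1 : M2)) = (μ * ρ) • (A - μ • (1 : M2)) := by
      rw [Matrix.mul_sub, ch2, e1, e2, Matrix.mul_smul, mul_one]; module
    by_contra hc
    push Not at hc
    have z : ∀ y, (A - μ • (1 : M2)) *ᵥ y = 0 := fun y => by
      by_contra h0
      exact hc _ h0 (by rw [Matrix.mulVec_mulVec, e, Matrix.smul_mulVec])
    apply hs
    rw [pow_one, ← sub_eq_zero]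
    ext i j
    simpa using congrFun (z (Pi.single j 1)) i
  by_cases hd : d2 u (B *ᵥ u) = 0
  · obtain ⟨c, hc⟩ := par_of_d2 hu hd
    exact pb_eig hu Au hc
  obtain ⟨κ, hκ⟩ : ∃ κ : ℝ, A *ᵥ (B *ᵥ u) - μ • (B *ᵥ u) = κ • u := by
    refine par_of_d2 hu ?_
    have := d2_eig Au (B *ᵥ u)
    rw [← Matrix.trace_fin_two, e1] at this
    simp only [d2, Pi.sub_apply, Pi.smul_apply, smul_eq_mul] at this ⊢
    linear_combination this
  have hBB : B *ᵥ (B *ᵥ u) = B.trace • (B *ᵥ u) - B.det • u := by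
    rw [Matrix.mulVec_mulVec, ch2, Matrix.sub_mulVec, Matrix.smul_mulVec, Matrix.smul_mulVec,
      Matrix.one_mulVec]
  have key : ∀ β : ℝ, β ≠ 0 → 0 < -B.det / β ^ 2 ∧
      (Few !![ρ, κ / (β * μ); 0, 1] (tB (-B.det / β ^ 2) (B.trace / β)) → PB A B) := by
    intro β hβ
    refine ⟨div_pos (neg_pos.mpr hB) (by positivity), fun H => pb_of_few (Few.conj
      (S := !![u 0, (β⁻¹ • (B *ᵥ u)) 0; u 1, (β⁻¹ • (B *ᵥ u)) 1]) (s := μ) (t := β) ?_
      (conj_of_basis ?_ ?_) (conj_of_basis ?_ ?_) H)⟩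
    · intro h0
      apply hd
      simp only [Matrix.det_fin_two_of, Pi.smul_apply, smul_eq_mul] at h0
      field_simp at h0
      unfold d2
      linear_combination h0
    · simp [Au]
    · rw [Matrix.mulVec_smul, sub_eq_iff_eq_add.mp hκ]
      generalize B *ᵥ u = v
      refine ext2 ?_ ?_ <;> simp <;> field_simp
    · generalize B *ᵥ u = v
      refine ext2 ?_ ?_ <;> simp [tB] <;> field_simp
    · rw [Matrix.mulVec_smul, hBB]
      generalize B *ᵥ u = v
      refine ext2 ?_ ?_ <;> simp [tB] <;> field_simp <;> ring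
  by_cases hk : κ = 0
  · rcases r1.eq_or_lt with rfl | r2
    · obtain ⟨-, k2⟩ := key 1 one_ne_zero
      refine k2 (few_pow (by simpa [tB, Matrix.det_fin_two] using hB) one_pos (c := 1) ?_)
      ext i j
      fin_cases i <;> fin_cases j <;> simp [hk]
    by_cases ht : B.trace = 0
    · obtain ⟨k1, k2⟩ := key 1 one_ne_zero
      refine k2 ?_
      rw [hk, ht, zero_div, zero_div]
      exact few_diag0 (by linarith) k1
    · obtain ⟨k1, k2⟩ := key _ ht
      refine k2 ?_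
      rw [hk, zero_div, div_self ht]
      exact few_diag1 r2 k1
  · obtain ⟨k1, k2⟩ := key (κ / μ) (div_ne_zero hk m0)
    refine k2 ?_
    rw [div_mul_cancel₀ _ m0, div_self hk]
    exact few_tri r1 k1

/-- A pair with a negative determinant whose other member is not an irrational rotation. -/
theorem pb_neg (hB : B.det < 0)
    (h : 4 * A.det ≤ A.trace ^ 2 ∨ ∃ q : ℕ, 0 < q ∧ ∃ c : ℝ, A ^ q = c • (1 : M2)) : PB A B := by
  rcases h with h | ⟨q, hq, c, h⟩
  · exact pb_real hB h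
  · exact pb_of_few (few_pow hB hq h)

lemma mw_not (w : List Bool) : mw B A (w.map not) = mw A B w := by
  induction w with
  | nil => rfl
  | cons b w ih => cases b <;> simp [ih]

lemma pb_swap (h : PB A B) : PB B A := by
  obtain ⟨C, D, H⟩ := h
  refine ⟨C, D, fun k a => ?_⟩
  have hs : ExM B A k a ⊆ ExM A B k a := by
    rintro x ⟨f, ⟨w, hw, rfl⟩, hx⟩
    refine ⟨f, ⟨w.map not, by simpa using hw, by rw [mw_not]⟩, fun w' hw' => ?_⟩
    rw [← mw_not]
    exact hx _ (by simpa using hw')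
  exact ⟨(H k a).1.subset hs, (Set.ncard_le_ncard hs (H k a).1).trans (H k a).2⟩

lemma pb_sing (hB : B.det = 0) : PB A B := by
  classical
  obtain ⟨u, hu⟩ : ∃ u : Fin 2 → ℝ, ∀ z, ∃ τ : ℝ, B *ᵥ z = τ • u := by
    by_cases h0 : ∀ z, B *ᵥ z = 0
    · exact ⟨0, fun z => ⟨0, by simp [h0]⟩⟩
    push Not at h0
    obtain ⟨z0, h0⟩ := h0
    refine ⟨B *ᵥ z0, fun z => par_of_d2 h0 ?_⟩
    rw [Matrix.det_fin_two] at hB
    simp only [d2, mulVec2]
    linear_combination (z0 0 * z 1 - z0 1 * z 0) * hB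
  refine ⟨4, 1, fun k a => ?_⟩
  have := code_bound (ExM A B k a) (Finset.range (k + 2) ×ˢ (Finset.univ : Finset Bool))
    (fun c x => (c.1 = k + 1 ∧ x = A ^ k *ᵥ a) ∨ (c.1 ≤ k ∧ ∃ (f : (Fin 2 → ℝ) →ₗ[ℝ] ℝ) (τ : ℝ),
      x = τ • (A ^ c.1 *ᵥ u) ∧ (∃ w : List Bool, w.length = k ∧ x = mw A B w *ᵥ a) ∧
      (c.2 = true ↔ 0 < f (A ^ c.1 *ᵥ u)) ∧
      ∀ w' : List Bool, w'.length = k → mw A B w' *ᵥ a = x ∨ f (mw A B w' *ᵥ a) < f x))
    (by
      rintro x ⟨f, ⟨w, h1, rfl⟩, h2⟩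
      obtain ⟨l, e, g1, g2⟩ := exists_bl (A := A) (B := B) w
      cases l with
      | nil =>
        refine ⟨(k + 1, true), by simp, Or.inl ⟨rfl, ?_⟩⟩
        rw [g2, ← h1, g1]; simp
      | cons j l =>
        simp only [List.sum_cons, List.length_cons] at g1
        obtain ⟨τ, hτ⟩ := hu ((pl A B l * A ^ e) *ᵥ a)
        have hj : j ≤ k := by omega
        refine ⟨(j, decide (0 < f (A ^ j *ᵥ u))), Finset.mem_product.mpr
          ⟨Finset.mem_range.mpr (Nat.lt_succ_of_le (Nat.le_succ_of_le hj)), Finset.mem_univ _⟩,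
          Or.inr ⟨hj, f, τ, ?_, ⟨w, h1, rfl⟩, by simp, h2⟩⟩
        rw [g2, pl_cons, ← Matrix.mulVec_smul, ← hτ]
        simp only [Matrix.mulVec_mulVec, mul_assoc])
    (by
      rintro c x y (⟨c1, rfl⟩ | ⟨c1, f, τ, e1, ⟨w, h1, rfl⟩, h3, h4⟩)
        (⟨c2, rfl⟩ | ⟨c2, f', τ', e2, ⟨w', h1', rfl⟩, h3', h4'⟩)
      · rfl
      · omega
      · omega
      rcases h4 w' h1' with g1 | g1
      · exact g1.symm
      rcases h4' w h1 with g2 | g2
      · exact g2
      rw [e1, e2] at g1 g2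
      simp only [map_smul, smul_eq_mul] at g1 g2
      exfalso
      by_cases hc : c.2 = true
      · have := h3.mp hc
        have := h3'.mp hc
        nlinarith
      · have a1 := not_lt.mp (fun h => hc (h3.mpr h))
        have a2 := not_lt.mp (fun h => hc (h3'.mpr h))
        rcases le_total τ τ' with b | b
        · nlinarith [mul_nonneg (sub_nonneg.mpr b) (neg_nonneg.mpr a2)]
        · nlinarith [mul_nonneg (sub_nonneg.mpr b) (neg_nonneg.mpr a1)])
  refine ⟨this.1, this.2.trans ?_⟩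
  simp only [Finset.card_product, Finset.card_range, Finset.card_univ, Fintype.card_bool, pow_one]
  omega

end Pool.Agent.Lib.MP_34a884_an.Neg
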