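import Mathlib
import Pool.Agent.Lib.MP_34a884_an.NCx

/-! Words that are optimal among all words of the same length; the easy cases of an irrational
rotation. -/

namespace Pool.Agent.Lib.MP_34a884_an.Neg

open Matrix Complex ComplexConjugate

/-- The word given by `l` and `e` maximises the functional among all words of its length. -/
def Top (A B : M2) (f : (Fin 2 → ℝ) →ₗ[ℝ] ℝ) (a : Fin 2 → ℝ) (l : List ℕ) (e : ℕ) : Prop :=
  ∀ (l' : List ℕ) (e' : ℕ), l'.sum + l'.length + e' = l.sum + l.length + e →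
    f (pl A B l' *ᵥ (A ^ e' *ᵥ a)) ≤ f (pl A B l *ᵥ (A ^ e *ᵥ a))

/-- Lists of words that are optimal in both senses have boundedly many changes. -/
def Few2 (A B : M2) : Prop :=
  ∃ C : ℕ, ∀ f a e n m, Opt A B f (A ^ e *ᵥ a) (sg n 0 m) → Top A B f a (sg n 0 m) e →
    (Ch n 0 m).card ≤ C

variable {A B : M2} {τ : ℝ}

lemma pb_of_few2 (h : Few2 A B) : PB A B := by
  classical
  obtain ⟨C, H⟩ := h
  refine ⟨1, 2 * (C + 1) + 1, fun k a => ?_⟩
  have := code_bound (ExM A B k a) (Finset.range (k + 1) ×ˢ runsN (C + 1) k)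
    (fun c x => x = pl A B c.2 *ᵥ (A ^ c.1 *ᵥ a))
    (by
      rintro x ⟨f, ⟨w, hw, rfl⟩, hx⟩
      obtain ⟨l0, e, h1, h2⟩ := exists_bl (A := A) (B := B) w
      have hfin : {l : List ℕ | l.length = l0.length ∧ l.sum = l0.sum ∧
          pl A B l *ᵥ (A ^ e *ᵥ a) = mw A B w *ᵥ a}.Finite :=
        (finite_lists l0.length l0.sum).subset fun l hl => ⟨hl.1, hl.2.1.le⟩
      obtain ⟨l, ⟨a1, a2, a3⟩, hmax⟩ := Set.exists_max_image _ id hfin
        ⟨l0, rfl, rfl, by rw [h2, Matrix.mulVec_mulVec]⟩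
      have hopt : Opt A B f (A ^ e *ᵥ a) l := by
        intro l' b1 b2
        obtain ⟨w', c1, c2⟩ := exists_wd (A := A) (B := B) l' e
        have := hx w' (by omega)
        rw [c2, ← Matrix.mulVec_mulVec] at this
        rw [a3]
        rcases this with g | g
        · exact ⟨by rw [g], fun _ => hmax l' ⟨by omega, by omega, g⟩⟩
        · exact ⟨g.le, fun g' => absurd g' (not_le.mpr g)⟩
      have htop : Top A B f a l e := by
        intro l' e' b1
        obtain ⟨w', c1, c2⟩ := exists_wd (A := A) (B := B) l' e'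
        have := hx w' (by omega)
        rw [c2, ← Matrix.mulVec_mulVec] at this
        rw [a3]
        rcases this with g | g
        · rw [g]
        · exact g.le
      obtain ⟨n, hn⟩ := exists_sg l
      refine ⟨(e, l), Finset.mem_product.mpr ⟨Finset.mem_range.mpr (by simp only; omega), ?_⟩,
        a3.symm⟩
      have := mem_runsN (n := n) (k := k) (e := l.length) (by omega) (fun i hi => by
        have : n i ∈ l := by rw [hn]; exact sg_mem (Nat.zero_le i) (by simpa using hi)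
        have := List.single_le_sum (fun x _ => Nat.zero_le x) _ this
        omega) C 0 (H f _ e n l.length (hn ▸ hopt) (hn ▸ htop))
      rwa [Nat.sub_zero, ← hn] at this)
    (by rintro c x y rfl rfl; rfl)
  refine ⟨this.1, this.2.trans ?_⟩
  rw [Finset.card_product, Finset.card_range, one_mul, pow_succ', ]
  exact Nat.mul_le_mul_left _ (card_runsN _ _)

lemma Few2.conj {A' B' S : M2} {s : ℝ} (hS : S.det ≠ 0) (eA : A * S = s • (S * A'))
    (eB : B * S = s • (S * B')) (h : Few2 A' B') : Few2 A B := by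
  obtain ⟨C, H⟩ := h
  have pA : ∀ x : ℕ, A ^ x * S = s ^ x • (S * A' ^ x) := by
    intro x
    induction x with
    | zero => simp
    | succ x ih =>
      rw [pow_succ, mul_assoc, eA, Matrix.mul_smul, ← mul_assoc, ih, Matrix.smul_mul, smul_smul,
        pow_succ, pow_succ, mul_assoc, mul_comm s]
  refine ⟨C, fun f a e n m ho ht => ?_⟩
  have key : ∀ (l : List ℕ) (e : ℕ), (s ^ (l.sum + l.length + e) • (f ∘ₗ Matrix.mulVecLin S))
      (pl A' B' l *ᵥ (A' ^ e *ᵥ (S⁻¹ *ᵥ a))) = f (pl A B l *ᵥ (A ^ e *ᵥ a)) := by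
    intro l e
    have e1 : pl A B l * A ^ e = s ^ (l.sum + l.length + e) • (S * pl A' B' l * A' ^ e * S⁻¹) := by
      have : pl A B l * A ^ e * S = s ^ (l.sum + l.length + e) • (S * pl A' B' l * A' ^ e) := by
        rw [mul_assoc, pA, Matrix.mul_smul, ← mul_assoc, pl_conj eA eB, Matrix.smul_mul, smul_smul]
        congr 1; ring
      rw [← Matrix.smul_mul, ← this, mul_assoc,
        Matrix.mul_nonsing_inv S (isUnit_iff_ne_zero.mpr hS), mul_one]
    rw [Matrix.mulVec_mulVec a (pl A B l), e1, Matrix.smul_mulVec, map_smul]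
    simp only [LinearMap.smul_apply, LinearMap.comp_apply, Matrix.mulVecLin_apply,
      Matrix.mulVec_mulVec, mul_assoc]
  refine H (s ^ ((sg n 0 m).sum + (sg n 0 m).length + e) • (f ∘ₗ Matrix.mulVecLin S))
    (S⁻¹ *ᵥ a) e n m (fun l' h1 h2 => ?_) (fun l' e' h1 => ?_)
  · have k1 := key l' e
    rw [h1, h2] at k1
    rw [k1, key]
    exact ho l' h1 h2
  · have k1 := key l' e'
    rw [h1] at k1
    rw [k1, key]
    exact ht l' e' h1

variable {f : (Fin 2 → ℝ) →ₗ[ℝ] ℝ} {a : Fin 2 → ℝ} {n : ℕ → ℕ} {m e : ℕ}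

lemma Rot.sq (h : Rot A τ) (hB : B.det < 0) (ho : Opt A B f a (sg n 0 m)) : Sq n m :=
  fun i q => sq_step ho (by rw [Matrix.det_mul, Matrix.det_pow, h.det]; simpa using hB)

lemma ch_le (n : ℕ → ℕ) (m : ℕ) : (Ch n 0 m).card ≤ m :=
  (Finset.card_filter_le _ _).trans (by simp)

lemma f_eq (v : Fin 2 → ℝ) : f v = (dc f 1 * tc v).re := by rw [← dc_eq, Matrix.one_mulVec]

lemma f_le (v : Fin 2 → ℝ) : f v ≤ ‖dc f 1‖ * ‖tc v‖ := by
  rw [f_eq, ← norm_mul]; exact Complex.re_le_norm _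

lemma Rot.norm_pow (h : Rot A τ) (e : ℕ) (a : Fin 2 → ℝ) : ‖tc (A ^ e *ᵥ a)‖ = ‖tc a‖ := by
  rw [h.pow]; simp

/-- If the functional or the vector vanishes, long runs are not adjacent. -/
lemma eqz_zero (ho : Opt A B f a (sg n 0 m)) (h0 : ‖dc f 1‖ * ‖tc a‖ = 0)
    {L : ℕ} (hL : 1 ≤ L) : Eqz L 0 n m := by
  intro i j h1 h2 h3
  exfalso
  obtain ⟨x, hx⟩ : ∃ x, n i = x + 1 := ⟨n i - 1, by have := h3 i le_rfl (by omega); omega⟩
  obtain ⟨z, hz⟩ : ∃ z, n (i + 1) = z + 1 :=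
    ⟨n (i + 1) - 1, by have := h3 (i + 1) (by omega) (by omega); omega⟩
  have := (two_run ho (Nat.lt_succ_self i) (by omega) hx hz rfl rfl rfl).1
  simp only [yv, Matrix.mulVec_mulVec] at this
  have z0 : ∀ U : M2, f (U *ᵥ a) = 0 := fun U => by
    rcases mul_eq_zero.mp h0 with c | c
    · rw [f_eq, norm_eq_zero.mp c]; simp
    · rw [dc_eq, norm_eq_zero.mp c]; simp
  rw [z0, z0] at this
  exact lt_irrefl _ this

lemma few2_of_eqz (h : Rot A τ) (hB : B.det < 0) {L K : ℕ} (hL : 1 ≤ L)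
    (H : ∀ f a e n m, Opt A B f (A ^ e *ᵥ a) (sg n 0 m) → Top A B f a (sg n 0 m) e →
      0 < ‖dc f 1‖ * ‖tc a‖ → Eqz L 0 n m ∨ (Ch n 0 m).card ≤ K) : Few2 A B := by
  obtain ⟨C, hC⟩ := chg_bound L 0
  refine ⟨C + K, fun f a e n m ho ht => ?_⟩
  rcases (show 0 ≤ ‖dc f 1‖ * ‖tc a‖ by positivity).eq_or_lt with c | c
  · have := hC n m (h.sq hB ho) (eqz_zero ho (by rw [h.norm_pow, ← c]) hL)
    omega
  rcases H f a e n m ho ht c with d | d
  · have := hC n m (h.sq hB ho) d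
    omega
  · omega

/-- The case of an antilinear `B`. -/
lemma few2_anti (h : Rot A τ) (hB : B.det < 0) (hg : ga B = 0) : Few2 A B := by
  refine few2_of_eqz h hB (K := 0) le_rfl fun f a e n m ho _ _ => Or.inl fun i j h1 h2 h3 => ?_
  exfalso
  obtain ⟨x, hx⟩ : ∃ x, n i = x + 1 := ⟨n i - 1, by have := h3 i le_rfl (by omega); omega⟩
  obtain ⟨z, hz⟩ : ∃ z, n (i + 2) = z + 1 :=
    ⟨n (i + 2) - 1, by have := h3 (i + 2) (by omega) (by omega); omega⟩
  have := (two_run ho (show i < i + 2 by omega) (by omega) hx hz rfl rfl rfl).1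
  rw [show i + 2 - (i + 1) = 0 + 1 by omega, sg_succ, sg_zero, pl_cons, pl_nil, mul_one] at this
  generalize A ^ z *ᵥ (B *ᵥ yv A B (A ^ e *ᵥ a) n m (i + 2 + 1)) = y at this
  rw [dc_eq, dc_eq] at this
  simp only [← Matrix.mulVec_mulVec, h.pow, h _, tc_mul B, hg, zero_mul, zero_add, map_mul,
    conj_conj] at this
  refine absurd this (not_lt.mpr (le_of_eq ?_))
  congr 1
  ring

lemma top_lower (ht : Top A B f a (sg n 0 m) e) {κ : ℝ} {L : ℕ}
    (H : ∀ n, L ≤ n → ∀ (c : ℂ) (v : Fin 2 → ℝ), ∃ (l : List ℕ) (e : ℕ),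
      l.sum + l.length + e = n ∧ κ * (‖c‖ * ‖tc v‖) ≤ (c * tc (pl A B l *ᵥ (A ^ e *ᵥ v))).re)
    (hm : L ≤ m) : κ * (‖dc f 1‖ * ‖tc a‖) ≤ f (pl A B (sg n 0 m) *ᵥ (A ^ e *ᵥ a)) := by
  obtain ⟨l, e', h1, h2⟩ := H ((sg n 0 m).sum + (sg n 0 m).length + e) (by simp; omega) (dc f 1) a
  rw [← f_eq] at h2
  exact h2.trans (ht l e' h1)

/-- The case of a contracting `B`. -/
lemma few2_small (h : Rot A τ) (hτ : Irrational τ) (hB : B.det < 0)
    (hs : ‖ga B‖ + ‖om B‖ < 1) : Few2 A B := by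
  obtain ⟨r, L, -, H⟩ := steer h hτ hB (δ := 1 / 2) (by norm_num) (by norm_num) 0
  have s0 : 0 < ‖ga B‖ + ‖om B‖ := by linarith [ga_lt hB, norm_nonneg (ga B)]
  obtain ⟨N, hN⟩ := exists_pow_lt_of_lt_one
    (show 0 < (‖ga B‖ + ‖om B‖) ^ r * (1 - 1 / 2) by positivity) hs
  refine few2_of_eqz h hB (K := L + N) le_rfl fun f a e n m ho ht c => Or.inr ?_
  refine (ch_le n m).trans ?_
  by_contra hc
  have a1 := top_lower ht H (by omega)
  have a2 := f_le (f := f) (pl A B (sg n 0 m) *ᵥ (A ^ e *ᵥ a))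
  have a3 := h.pl_norm (B := B) (sg n 0 m) (A ^ e *ᵥ a)
  rw [h.norm_pow, sg_length] at a3
  have a4 : (‖ga B‖ + ‖om B‖) ^ m ≤ (‖ga B‖ + ‖om B‖) ^ N :=
    pow_le_pow_of_le_one s0.le hs.le (by omega)
  have a5 : ‖dc f 1‖ * ‖tc (pl A B (sg n 0 m) *ᵥ (A ^ e *ᵥ a))‖
      ≤ ‖dc f 1‖ * ((‖ga B‖ + ‖om B‖) ^ N * ‖tc a‖) := by
    gcongr
    exact a3.trans (by gcongr)
  nlinarith

/-- The case of an expanding `B`. -/
lemma few2_large (h : Rot A τ) (hτ : Irrational τ) (hB : B.det < 0)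
    (hs : 1 < ‖ga B‖ + ‖om B‖) : Few2 A B := by
  obtain ⟨r1, hr⟩ := pow_unbounded_of_one_lt 2 hs
  obtain ⟨r, L, r2, H⟩ := steer h hτ hB (δ := 1 / 2) (by norm_num) (by norm_num) r1
  obtain ⟨r0, L0, -, H0⟩ := steer h hτ hB (δ := 1 / 2) (by norm_num) (by norm_num) 0
  have a0 : (‖ga B‖ + ‖om B‖) ^ r1 ≤ (‖ga B‖ + ‖om B‖) ^ r := pow_le_pow_right₀ hs.le r2
  refine few2_of_eqz h hB (L := L + 1) (K := L0) (by omega) fun f a e n m ho ht c => ?_
  rcases le_or_gt L0 m with hm | hm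
  swap
  · exact Or.inr ((ch_le n m).trans hm.le)
  have F0 := top_lower ht H0 hm
  have F1 : 0 < (‖ga B‖ + ‖om B‖) ^ r0 * (1 - 1 / 2) * (‖dc f 1‖ * ‖tc a‖) := by positivity
  refine Or.inl fun i j h1 h2 h3 => ?_
  exfalso
  have s1 := sg_split (n := n) (Nat.zero_le i) (show i < m by omega)
  rw [Nat.sub_zero, Nat.sub_zero] at s1
  rw [s1] at ht F0
  generalize sg n 0 i = l1 at ht F0
  generalize sg n (i + 1) (m - (i + 1)) = l2 at ht F0
  obtain ⟨l, e', b1, b2⟩ := H (n i) (by have := h3 i le_rfl (by omega); omega)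
    (dc f (pl A B l1)) (B *ᵥ (pl A B l2 *ᵥ (A ^ e *ᵥ a)))
  have b3 := ht (l1 ++ (l ++ e' :: l2)) e (by simp; omega)
  simp only [pl_append, pl_cons, ← Matrix.mulVec_mulVec] at b3 F0
  rw [dc_eq, dc_eq (pl A B l1)] at b3
  rw [dc_eq] at F0
  have b4 := Complex.re_le_norm (dc f (pl A B l1) *
    tc (A ^ n i *ᵥ (B *ᵥ (pl A B l2 *ᵥ (A ^ e *ᵥ a)))))
  rw [norm_mul, h.norm_pow] at b4
  nlinarith

end Pool.Agent.Lib.MP_34a884_an.Neg
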