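import Mathlib
import Pool.Agent.Lib.MP_34a884_an.NTop

/-! The tangent case of an irrational rotation: estimates for complex numbers. -/

namespace Pool.Agent.Lib.MP_34a884_an.Neg

open Matrix Complex ComplexConjugate

lemma ang_aux {Z : ℂ} {α : ℝ} (a0 : 0 < α) (a1 : α ≤ 1) (h : (Z * ex α).re ≤ Z.re) :
    -Z.im ≤ α * ‖Z‖ := by
  simp only [Complex.mul_re, ex_re, ex_im] at h
  have s := Real.sin_gt_sub_cube a0
  have s2 : α / 2 ≤ Real.sin α := by nlinarith [mul_pos a0 a0]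
  have c := Real.one_sub_sq_div_two_le_cos (x := α)
  have c1 := Real.cos_le_one α
  have r := Complex.re_le_norm Z
  have n0 := norm_nonneg Z
  have b : Z.re * (1 - Real.cos α) ≤ ‖Z‖ * (α ^ 2 / 2) :=
    (mul_le_mul_of_nonneg_right r (by linarith)).trans (by gcongr; linarith)
  by_contra hc
  push Not at hc
  have d : α * ‖Z‖ * Real.sin α < -Z.im * Real.sin α := by gcongr; linarith
  have d2 : α * ‖Z‖ * (α / 2) ≤ α * ‖Z‖ * Real.sin α := by gcongr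
  nlinarith

lemma ang {Z : ℂ} {α β η : ℝ} (h1 : (Z * ex α).re ≤ Z.re) (h2 : (Z * ex β).re ≤ Z.re)
    (hs : α * β < 0) (a : |α| ≤ η) (b : |β| ≤ η) (e : η ≤ 1) (z : ‖Z‖ ≤ 1) : |Z.im| ≤ η := by
  wlog h0 : 0 < α generalizing α β
  · refine this h2 h1 (by linarith) b a ?_
    by_contra hc
    nlinarith
  have b0 : β < 0 := by by_contra hc; nlinarith
  rw [abs_of_pos h0] at a
  rw [abs_of_neg b0] at b
  have c1 := ang_aux h0 (a.trans e) h1
  have c2 := ang_aux (Z := conj Z) (α := -β) (by linarith) (b.trans e)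
    (by rw [ex_neg, ← map_mul]; simpa using h2)
  simp only [Complex.conj_im, neg_neg, Complex.norm_conj] at c2
  have n0 := norm_nonneg Z
  rw [abs_le]
  constructor <;> nlinarith

/-- Two points of the unit disc at distance at most `e`. -/
def Near (e : ℝ) (x y : ℂ) : Prop := ‖x‖ ≤ 1 ∧ ‖y‖ ≤ 1 ∧ ‖x - y‖ ≤ e

lemma Near.mul {e e' : ℝ} {x y x' y' : ℂ} (h : Near e x y) (h' : Near e' x' y') :
    Near (e + e') (x * x') (y * y') := by
  obtain ⟨a1, a2, a3⟩ := h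
  obtain ⟨b1, b2, b3⟩ := h'
  refine ⟨by rw [norm_mul]; exact mul_le_one₀ a1 (norm_nonneg _) b1,
    by rw [norm_mul]; exact mul_le_one₀ a2 (norm_nonneg _) b2, ?_⟩
  rw [show x * x' - y * y' = (x - y) * x' + y * (x' - y') by ring]
  refine (norm_add_le _ _).trans ?_
  rw [norm_mul, norm_mul]
  nlinarith [norm_nonneg (x - y), norm_nonneg (x' - y')]

lemma Near.conj {e : ℝ} {x y : ℂ} (h : Near e x y) : Near e (conj x) (conj y) := by
  obtain ⟨a1, a2, a3⟩ := h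
  exact ⟨by simpa using a1, by simpa using a2, by rwa [← map_sub, Complex.norm_conj]⟩

/-- The data at one letter `B`. -/
structure Site (g w F T κ : ℝ) (X Y : ℂ) : Prop where
  rat : ‖X‖ * w = ‖Y‖ * g
  x1 : ‖X‖ ≤ 1
  y1 : ‖Y‖ ≤ 1
  pos : 0 ≤ X.re
  val : X.re + Y.re = F
  t0 : |X.im + Y.im - T| ≤ κ
  t1 : |X.im - Y.im - T| ≤ κ
  x0 : g / 2 ≤ ‖X‖
  y0 : g / 2 ≤ ‖Y‖

lemma Site.near {g w F T κ : ℝ} {X Y X' Y' : ℂ} (g0 : 0 < g) (gw : g ≤ w) (w1 : w ≤ 1)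
    (hF : 1 / 2 ≤ F) (h : Site g w F T κ X Y) (h' : Site g w F T κ X' Y') :
    Near (10 * κ / g ^ 2) X X' ∧ Near (10 * κ / g ^ 2) Y Y' := by
  have sq : ∀ z : ℂ, ‖z‖ ^ 2 = z.re ^ 2 + z.im ^ 2 := fun z => by
    rw [Complex.sq_norm, Complex.normSq_apply]; ring
  have e : ∀ {X Y : ℂ}, Site g w F T κ X Y →
      (X.re ^ 2 + X.im ^ 2) * w ^ 2 = ((F - X.re) ^ 2 + Y.im ^ 2) * g ^ 2 := by
    intro X Y h
    rw [← sq, show F - X.re = Y.re by linarith [h.val], ← sq, ← mul_pow, h.rat, mul_pow]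
  have e1 := e h
  have e2 := e h'
  have k0 : 0 ≤ κ := (abs_nonneg _).trans h.t0
  obtain ⟨a1, a2⟩ := abs_le.mp h.t0
  obtain ⟨a3, a4⟩ := abs_le.mp h.t1
  obtain ⟨b1, b2⟩ := abs_le.mp h'.t0
  obtain ⟨b3, b4⟩ := abs_le.mp h'.t1
  have p1 : |X.im - X'.im| ≤ 2 * κ := by rw [abs_le]; constructor <;> linarith
  have q1 : |Y.im - Y'.im| ≤ 2 * κ := by rw [abs_le]; constructor <;> linarith
  have p2 : |X.im + X'.im| ≤ 2 := (abs_add_le _ _).trans (by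
    linarith [Complex.abs_im_le_norm X, Complex.abs_im_le_norm X', h.x1, h'.x1])
  have q2 : |Y.im + Y'.im| ≤ 2 := (abs_add_le _ _).trans (by
    linarith [Complex.abs_im_le_norm Y, Complex.abs_im_le_norm Y', h.y1, h'.y1])
  have p3 : |(X.im - X'.im) * (X.im + X'.im)| ≤ 2 * κ * 2 := by rw [abs_mul]; gcongr
  have q3 : |(Y.im - Y'.im) * (Y.im + Y'.im)| ≤ 2 * κ * 2 := by rw [abs_mul]; gcongr
  have w2 : w ^ 2 ≤ 1 := by nlinarith
  have g2 : g ^ 2 ≤ w ^ 2 := by gcongr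
  have g3 : 0 < g ^ 2 := by positivity
  have br : g ^ 2 ≤ 2 * g ^ 2 * F + (w ^ 2 - g ^ 2) * (X.re + X'.re) := by
    have := mul_nonneg (sub_nonneg.mpr g2) (add_nonneg h.pos h'.pos)
    nlinarith
  have id : (X.re - X'.re) * (2 * g ^ 2 * F + (w ^ 2 - g ^ 2) * (X.re + X'.re)) =
      g ^ 2 * ((Y.im - Y'.im) * (Y.im + Y'.im)) - w ^ 2 * ((X.im - X'.im) * (X.im + X'.im)) := by
    linear_combination e1 - e2
  have r1 : |X.re - X'.re| * g ^ 2 ≤ 8 * κ := by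
    have c := congrArg (fun t : ℝ => |t|) id
    rw [abs_mul, abs_of_pos (g3.trans_le br)] at c
    have c1 := abs_sub (g ^ 2 * ((Y.im - Y'.im) * (Y.im + Y'.im)))
      (w ^ 2 * ((X.im - X'.im) * (X.im + X'.im)))
    rw [abs_mul (g ^ 2), abs_mul (w ^ 2), abs_of_pos g3, abs_of_pos (g3.trans_le g2)] at c1
    have c2 : g ^ 2 * |(Y.im - Y'.im) * (Y.im + Y'.im)| ≤ 1 * (2 * κ * 2) := by gcongr; linarith
    have c3 : w ^ 2 * |(X.im - X'.im) * (X.im + X'.im)| ≤ 1 * (2 * κ * 2) := by gcongr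
    have c4 := mul_le_mul_of_nonneg_left br (abs_nonneg (X.re - X'.re))
    linarith
  have r2 : |Y.re - Y'.re| = |X.re - X'.re| := by
    rw [← abs_neg]; congr 1; linarith [h.val, h'.val]
  have fin : ∀ z : ℂ, |z.re| * g ^ 2 ≤ 8 * κ → |z.im| ≤ 2 * κ → ‖z‖ ≤ 10 * κ / g ^ 2 := by
    intro z c1 c2
    rw [le_div_iff₀ g3]
    have c3 := mul_le_mul_of_nonneg_right (Complex.norm_le_abs_re_add_abs_im z) g3.le
    have c4 : |z.im| * g ^ 2 ≤ 2 * κ * 1 := by gcongr; linarith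
    linarith
  exact ⟨⟨h.x1, h'.x1, fin _ (by simpa using r1) (by simpa using p1)⟩,
    ⟨h.y1, h'.y1, fin _ (by simpa [r2] using r1) (by simpa using q1)⟩⟩

lemma dir_le {ρ ρ' : ℝ} {G u u' : ℂ} (r : 0 ≤ ρ) (r' : 0 ≤ ρ') (h : ‖u‖ = 1) (h' : ‖u'‖ = 1) :
    ‖ρ * G * u‖ * ‖u - u'‖ ≤ 2 * ‖ρ * G * u - ρ' * G * u'‖ := by
  have a1 : ‖ρ * G * u‖ = ρ * ‖G‖ := by simp [h, abs_of_nonneg r]
  have a2 : ‖ρ' * G * u'‖ = ρ' * ‖G‖ := by simp [h', abs_of_nonneg r']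
  have a3 := abs_norm_sub_norm_le (ρ * G * u) (ρ' * G * u')
  have a4 : ‖((ρ' - ρ : ℝ) : ℂ) * G * u'‖ = |‖ρ * G * u‖ - ‖ρ' * G * u'‖| := by
    rw [a1, a2, ← sub_mul, abs_mul, abs_norm, norm_mul, norm_mul, h', mul_one, Complex.norm_real,
      Real.norm_eq_abs, abs_sub_comm]
  have a5 : ‖ρ * G * u‖ * ‖u - u'‖ = ‖ρ * G * (u - u')‖ := by
    rw [norm_mul, h, mul_one, ← norm_mul]
  have a6 : ρ * G * (u - u') = (ρ * G * u - ρ' * G * u') + ((ρ' - ρ : ℝ) : ℂ) * G * u' := by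
    push_cast; ring
  rw [a5, a6]
  refine (norm_add_le _ _).trans ?_
  linarith

lemma near_int (x y : ℝ) : ∃ j : ℤ,
    4 * |x - y - j| ≤ ‖ex (2 * Real.pi * x) - ex (2 * Real.pi * y)‖ := by
  refine ⟨round (x - y), ?_⟩
  have a := abs_sub_round (x - y)
  generalize round (x - y) = j at a
  obtain ⟨t, ht⟩ : ∃ t, t = x - y - j := ⟨_, rfl⟩
  rw [← ht] at a ⊢
  have e : ex (2 * Real.pi * x) = ex (2 * Real.pi * y) * ex (2 * Real.pi * t) := by
    rw [← ex_add, ← ex_int (2 * Real.pi * y + _) j, ht]; congr 1; ring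
  have p0 := Real.pi_pos
  rw [e, ← mul_sub_one, norm_mul, ex_norm, one_mul, ex, mul_comm _ I,
    Complex.norm_exp_I_mul_ofReal_sub_one, show 2 * Real.pi * t / 2 = Real.pi * t by ring,
    Real.norm_eq_abs, abs_mul, abs_two]
  have b := Real.mul_abs_le_abs_sin (x := Real.pi * t)
    (by rw [abs_mul, abs_of_pos p0]; nlinarith)
  rw [abs_mul, abs_of_pos p0, show 2 / Real.pi * (Real.pi * |t|) = 2 * |t| by field_simp] at b
  linarith

/-- Two pairs of consecutive sites with nearly equal tangential parts give nearly equal angles. -/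
lemma close_ang {g w F T κ x y ρ ρ' : ℝ} {G X Y X' Y' Z V Z' V' : ℂ} (g0 : 0 < g) (gw : g ≤ w)
    (w1 : w ≤ 1) (hF : 1 / 2 ≤ F) (h0 : Site g w F T κ X Y) (h1 : Site g w F T κ X' Y')
    (k0 : Site g w F T κ Z V) (k1 : Site g w F T κ Z' V') (n0 : ‖X' + Y'‖ ≤ 1)
    (n1 : ‖Z' + V'‖ ≤ 1) (r : 0 ≤ ρ) (r' : 0 ≤ ρ')
    (e : X' * Y' * X * conj Y * conj (X' + Y') * conj (X' + Y') = ρ * G * ex (2 * Real.pi * x))
    (e' : Z' * V' * Z * conj V * conj (Z' + V') * conj (Z' + V') = ρ' * G * ex (2 * Real.pi * y)) :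
    ∃ j : ℤ, |x - y - j| ≤ 1920 * κ / g ^ 6 := by
  obtain ⟨a1, a2⟩ := h0.near g0 gw w1 hF k0
  obtain ⟨a3, a4⟩ := h1.near g0 gw w1 hF k1
  have c0 : 0 ≤ κ := (abs_nonneg _).trans h0.t0
  have g2 : 0 < g ^ 2 := by positivity
  have a5 : Near (10 * κ / g ^ 2) (X' + Y') (Z' + V') := by
    refine ⟨n0, n1, (Complex.norm_le_abs_re_add_abs_im _).trans ?_⟩
    obtain ⟨b1, b2⟩ := abs_le.mp h1.t0
    obtain ⟨b3, b4⟩ := abs_le.mp k1.t0
    have b5 : |(X' + Y' - (Z' + V')).im| ≤ 2 * κ := by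
      simp only [Complex.sub_im, Complex.add_im]
      rw [abs_le]; constructor <;> linarith
    have b6 : (X' + Y' - (Z' + V')).re = 0 := by
      simp only [Complex.sub_re, Complex.add_re]; linarith [h1.val, k1.val]
    have b7 : 2 * κ ≤ 10 * κ / g ^ 2 := by
      rw [le_div_iff₀ g2]
      have : g ^ 2 ≤ 1 := by nlinarith
      nlinarith
    rw [b6, abs_zero]
    linarith
  have a6 := (((((a3.mul a4).mul a1).mul a2.conj).mul a5.conj).mul a5.conj).2.2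
  have a7 : g ^ 4 / 64 ≤ ‖X' * Y' * X * conj Y * conj (X' + Y') * conj (X' + Y')‖ := by
    have b1 : 1 / 2 ≤ ‖X' + Y'‖ :=
      le_trans (by simp only [Complex.add_re]; linarith [h1.val]) (Complex.re_le_norm _)
    simp only [norm_mul, Complex.norm_conj]
    calc g ^ 4 / 64 = g / 2 * (g / 2) * (g / 2) * (g / 2) * (1 / 2) * (1 / 2) := by ring
      _ ≤ _ := by gcongr; exacts [h1.x0, h1.y0, h0.x0, h0.y0]
  rw [e, e'] at a6
  rw [e] at a7
  have a8 := dir_le (G := G) r r' (ex_norm (2 * Real.pi * x)) (ex_norm (2 * Real.pi * y))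
  obtain ⟨j, hj⟩ := near_int x y
  refine ⟨j, ?_⟩
  have a9 : g ^ 4 / 64 * (4 * |x - y - j|) ≤ 120 * κ / g ^ 2 := by
    refine le_trans (mul_le_mul a7 hj (by positivity) (norm_nonneg _)) (a8.trans ?_)
    have : 120 * κ / g ^ 2 = 12 * (10 * κ / g ^ 2) := by ring
    linarith
  rw [le_div_iff₀ g2] at a9
  rw [le_div_iff₀ (by positivity)]
  linarith

end Pool.Agent.Lib.MP_34a884_an.Neg
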