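import Mathlib
import Pool.Agent.Lib.MP_34a884_an.NTan

/-! The tangent case of an irrational rotation. -/

namespace Pool.Agent.Lib.MP_34a884_an.Neg

open Matrix Complex ComplexConjugate

variable {A B : M2} {τ : ℝ} {f : (Fin 2 → ℝ) →ₗ[ℝ] ℝ} {a : Fin 2 → ℝ} {n : ℕ → ℕ} {m e : ℕ}

/-- The matrix does not increase lengths. -/
def Con (U : M2) : Prop := ∀ v, ‖tc (U *ᵥ v)‖ ≤ ‖tc v‖

lemma Con.dc_le {U : M2} (h : Con U) : ‖dc f U‖ ≤ ‖dc f 1‖ := by
  obtain ⟨v, hv⟩ := tc_surj (conj (dc f U))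
  have a1 := f_le (f := f) (U *ᵥ v)
  have a2 := h v
  rw [dc_eq, hv, Complex.mul_conj, Complex.ofReal_re, Complex.normSq_eq_norm_sq] at a1
  rw [hv, Complex.norm_conj] at a2
  have a3 := mul_le_mul_of_nonneg_left a2 (norm_nonneg (dc f 1))
  by_contra hc
  push Not at hc
  nlinarith [norm_nonneg (dc f 1)]

lemma Con.om_le {U : M2} (h : Con U) : ‖om U‖ ≤ 1 := by
  obtain ⟨u, hu⟩ := tc_surj 1
  obtain ⟨v, hv⟩ := tc_surj I
  have a1 := h u
  have a2 := h v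
  rw [tc_mul, hu, norm_one] at a1
  rw [tc_mul, hv, Complex.norm_I] at a2
  have e : (2 : ℂ) * om U = (ga U * 1 + om U * conj 1) + I * (ga U * I + om U * conj I) := by
    simp only [map_one, Complex.conj_I]
    linear_combination (om U - ga U) * Complex.I_mul_I
  have a3 := norm_add_le (ga U * 1 + om U * conj 1) (I * (ga U * I + om U * conj I))
  rw [← e, norm_mul, norm_mul, Complex.norm_I, Complex.norm_ofNat] at a3
  linarith

lemma Rot.con (h : Rot A τ) (hs : ‖ga B‖ + ‖om B‖ = 1) (l : List ℕ) : Con (pl A B l) :=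
  fun v => by simpa [hs] using h.pl_norm (B := B) l v

lemma con_B (hs : ‖ga B‖ + ‖om B‖ = 1) : Con B := fun v => by simpa [hs] using tc_norm B v

/-- The complex value seen before the run `j`. -/
noncomputable def Wv (A B : M2) (f : (Fin 2 → ℝ) →ₗ[ℝ] ℝ) (a : Fin 2 → ℝ) (n : ℕ → ℕ)
    (m j : ℕ) : ℂ := dc f (pl A B (sg n 0 j)) * tc (yv A B a n m j)

lemma Wv_re {j : ℕ} (hj : j ≤ m) : (Wv A B f a n m j).re = f (pl A B (sg n 0 m) *ᵥ a) := by
  rw [Wv, ← dc_eq, yv, Matrix.mulVec_mulVec, ← pl_append]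
  congr 3
  have := sg_add (n := n) 0 j (m - j)
  rw [zero_add, show j + (m - j) = m by omega] at this
  exact this.symm

lemma ex_sq (x : ℕ) (k : ℤ) : ex (Real.pi * τ) ^ x * ex (Real.pi * τ) ^ x
    = ex (2 * Real.pi * (x * τ - k)) := by
  rw [ex_pow, ← ex_add, ← ex_int (2 * Real.pi * _) k]; congr 1; ring

lemma ex_conj (x : ℝ) : ex x * conj (ex x) = 1 := by
  rw [← ex_neg, ← ex_add]; simp

/-- Transfers between two runs. -/
lemma transfer (h : Rot A τ) (hs : ‖ga B‖ + ‖om B‖ = 1) (ho : Opt A B f a (sg n 0 m))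
    (hM : ‖dc f 1‖ * ‖tc a‖ = 1) {i j : ℕ} (h1 : i < j) (h2 : j < m) :
    ∃ Z : ℂ, ‖Z‖ ≤ 1 ∧ (Wv A B f a n m i).im - (Wv A B f a n m j).im = 2 * Z.im ∧
      (∀ x, x ≤ n j → ∀ k : ℤ, (Z * ex (2 * Real.pi * (x * τ - k))).re ≤ Z.re) ∧
      ∀ x, x ≤ n i → ∀ k : ℤ, (Z * ex (-(2 * Real.pi * (x * τ - k)))).re ≤ Z.re := by
  have s1 : sg n 0 j = sg n 0 i ++ n i :: sg n (i + 1) (j - (i + 1)) := by
    simpa using sg_split (n := n) (Nat.zero_le i) h1
  have s2 : sg n i (m - i) =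
      n i :: (sg n (i + 1) (j - (i + 1)) ++ n j :: sg n (j + 1) (m - (j + 1))) := by
    rw [sg_cons (show i < m by omega), sg_split (show i + 1 ≤ j by omega) h2]
  have s3 := sg_cons (n := n) h2
  rw [two_split h1 h2] at ho
  simp only [Wv, yv]
  rw [s1, s2, s3]
  generalize sg n 0 i = l1 at *
  generalize sg n (i + 1) (j - (i + 1)) = l2 at *
  generalize sg n (j + 1) (m - (j + 1)) = l3 at *
  generalize n i = p at *
  generalize n j = q at *
  obtain ⟨M, hM'⟩ : ∃ M, M = B * pl A B l2 := ⟨_, rfl⟩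
  obtain ⟨y, hy⟩ : ∃ y, y = B *ᵥ (pl A B l3 *ᵥ a) := ⟨_, rfl⟩
  obtain ⟨D, hD⟩ : ∃ D, D = dc f (pl A B l1) := ⟨_, rfl⟩
  set ζ := ex (Real.pi * τ) with hζ
  have v1 : ∀ x z, tc (pl A B (x :: (l2 ++ z :: l3)) *ᵥ a) =
      ζ ^ x * (ga M * (ζ ^ z * tc y) + om M * conj (ζ ^ z * tc y)) := by
    intro x z
    rw [← h.pow, ← tc_mul, ← h.pow, hM', hy]
    simp only [pl_append, pl_cons, Matrix.mulVec_mulVec, mul_assoc]
  have v2 : ∀ x z, f (pl A B (l1 ++ x :: (l2 ++ z :: l3)) *ᵥ a) =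
      (D * (ζ ^ x * (ga M * (ζ ^ z * tc y) + om M * conj (ζ ^ z * tc y)))).re := by
    intro x z
    rw [pl_append, ← Matrix.mulVec_mulVec, dc_eq, v1, hD]
  have v3 : dc f (pl A B (l1 ++ p :: l2)) = D * ζ ^ p * ga M + conj (D * ζ ^ p * om M) := by
    rw [pl_append, pl_cons, mul_assoc (A ^ p), ← mul_assoc, ← hM', dc_mul, h.dc_pow, hD]
  have v4 : tc (pl A B (q :: l3) *ᵥ a) = ζ ^ q * tc y := by
    rw [← h.pow, hy]
    simp only [pl_cons, Matrix.mulVec_mulVec, mul_assoc]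
  have u1 : ∀ x : ℕ, ζ ^ x * conj ζ ^ x = 1 := fun x => by rw [← mul_pow, ex_conj, one_pow]
  rw [v1, v3, v4, ← hD]
  refine ⟨D * ζ ^ p * om M * conj (ζ ^ q * tc y), ?_, ?_, fun x hx k => ?_, fun x hx k => ?_⟩
  · have b1 : ‖D‖ ≤ ‖dc f 1‖ := hD ▸ (h.con hs l1).dc_le
    have b2 : ‖om M‖ ≤ 1 := Con.om_le fun v => by
      rw [hM', ← Matrix.mulVec_mulVec]
      exact (con_B hs _).trans (h.con hs l2 v)
    have b3 : ‖tc y‖ ≤ ‖tc a‖ := hy ▸ (con_B hs _).trans (h.con hs l3 a)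
    simp only [norm_mul, norm_pow, Complex.norm_conj, hζ, ex_norm, one_pow, mul_one, one_mul]
    calc ‖D‖ * ‖om M‖ * ‖tc y‖ ≤ ‖dc f 1‖ * 1 * ‖tc a‖ := by gcongr
      _ = 1 := by rw [mul_one, hM]
  · generalize ζ ^ q * tc y = Y
    generalize ζ ^ p = P
    simp; ring
  · obtain ⟨z, rfl⟩ : ∃ z, q = z + x := ⟨q - x, by omega⟩
    have o := (ho (l1 ++ (p + x) :: (l2 ++ z :: l3)) (by simp) (by simp; omega)).1
    rw [v2, v2] at o
    have e1 : D * (ζ ^ (p + x) * (ga M * (ζ ^ z * tc y) + om M * conj (ζ ^ z * tc y))) =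
        D * ζ ^ p * ga M * (ζ ^ (z + x) * tc y) +
          D * ζ ^ p * om M * conj (ζ ^ (z + x) * tc y) * (ζ ^ x * ζ ^ x) := by
      simp only [map_mul, map_pow, pow_add]
      linear_combination (-(D * ζ ^ p * om M * conj ζ ^ z * conj (tc y) * ζ ^ x)) * u1 x
    rw [e1, ex_sq x k, mul_add, mul_add, Complex.add_re, Complex.add_re] at o
    simp only [← mul_assoc] at o ⊢
    linarith
  · obtain ⟨z, rfl⟩ : ∃ z, p = z + x := ⟨p - x, by omega⟩
    have o := (ho (l1 ++ z :: (l2 ++ (q + x) :: l3)) (by simp) (by simp; omega)).1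
    rw [v2, v2] at o
    have e1 : D * (ζ ^ z * (ga M * (ζ ^ (q + x) * tc y) + om M * conj (ζ ^ (q + x) * tc y))) =
        D * ζ ^ (z + x) * ga M * (ζ ^ q * tc y) +
          D * ζ ^ (z + x) * om M * conj (ζ ^ q * tc y) * conj (ζ ^ x * ζ ^ x) := by
      simp only [map_mul, map_pow, pow_add]
      linear_combination (-(D * ζ ^ z * om M * conj ζ ^ q * conj (tc y) * conj ζ ^ x)) * u1 x
    rw [e1, ex_sq x k, ← ex_neg, mul_add, mul_add, Complex.add_re, Complex.add_re] at o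
    simp only [← mul_assoc] at o ⊢
    linarith

lemma two_pi_le {u η : ℝ} (h : |u| ≤ η) : |2 * Real.pi * u| ≤ 8 * η := by
  rw [abs_mul, abs_of_pos (by positivity : 0 < 2 * Real.pi)]
  gcongr
  linarith [Real.pi_le_four]

/-- Every run against a run that admits two steps of opposite sign. -/
lemma tan_one (h : Rot A τ) (hs : ‖ga B‖ + ‖om B‖ = 1) (ho : Opt A B f a (sg n 0 m))
    (hM : ‖dc f 1‖ * ‖tc a‖ = 1) {J q q' : ℕ} {k k' : ℤ} {η : ℝ} (hJ : J < m) (q1 : q ≤ n J)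
    (q2 : q' ≤ n J) (sg0 : (q * τ - k) * (q' * τ - k') < 0) (b1 : |q * τ - k| ≤ η)
    (b2 : |q' * τ - k'| ≤ η) (e : η ≤ 1 / 8) {i : ℕ} (hi : i < m) :
    |(Wv A B f a n m i).im - (Wv A B f a n m J).im| ≤ 16 * η := by
  have p0 : 0 < (2 * Real.pi) ^ 2 := by positivity
  have p1 := mul_neg_of_pos_of_neg p0 sg0
  rcases lt_trichotomy i J with c | rfl | c
  · obtain ⟨Z, z1, z2, z3, -⟩ := transfer h hs ho hM c hJ
    have := ang (z3 q q1 k) (z3 q' q2 k') (by linarith) (two_pi_le b1) (two_pi_le b2)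
      (by linarith) z1
    rw [z2, abs_mul, abs_two]; linarith
  · rw [sub_self, abs_zero]; linarith [abs_nonneg (q * τ - k)]
  · obtain ⟨Z, z1, z2, -, z3⟩ := transfer h hs ho hM c hi
    have := ang (z3 q q1 k) (z3 q' q2 k') (by linarith) ((abs_neg _).trans_le (two_pi_le b1))
      ((abs_neg _).trans_le (two_pi_le b2)) (by linarith) z1
    rw [abs_sub_comm, z2, abs_mul, abs_two]; linarith

/-- Two runs that both admit the same step. -/
lemma tan_two (h : Rot A τ) (hs : ‖ga B‖ + ‖om B‖ = 1) (ho : Opt A B f a (sg n 0 m))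
    (hM : ‖dc f 1‖ * ‖tc a‖ = 1) {i j q : ℕ} {k : ℤ} {η : ℝ} (h1 : i ≤ j) (h2 : j < m)
    (q1 : q ≤ n i) (q2 : q ≤ n j) (u0 : q * τ - k ≠ 0) (b1 : |q * τ - k| ≤ η) (e : η ≤ 1 / 8) :
    |(Wv A B f a n m j).im - (Wv A B f a n m i).im| ≤ 16 * η := by
  rcases h1.eq_or_lt with rfl | c
  · rw [sub_self, abs_zero]; linarith [abs_nonneg (q * τ - k)]
  obtain ⟨Z, z1, z2, z3, z4⟩ := transfer h hs ho hM c h2
  have p0 : 0 < (2 * Real.pi * (q * τ - k)) ^ 2 := by have := Real.pi_pos; positivity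
  have := ang (z3 q q2 k) (z4 q q1 k) (by linarith) (two_pi_le b1)
    ((abs_neg _).trans_le (two_pi_le b1)) (by linarith) z1
  rw [abs_sub_comm, z2, abs_mul, abs_two]; linarith

/-- The covector seen after the run `j`. -/
noncomputable def Cv (A B : M2) (f : (Fin 2 → ℝ) →ₗ[ℝ] ℝ) (n : ℕ → ℕ) (τ : ℝ) (j : ℕ) : ℂ :=
  dc f (pl A B (sg n 0 j)) * ex (Real.pi * τ) ^ n j

lemma dc_step (h : Rot A τ) (j : ℕ) : dc f (pl A B (sg n 0 (j + 1))) =
    Cv A B f n τ j * ga B + conj (Cv A B f n τ j * om B) := by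
  rw [sg_add, zero_add, sg_succ, sg_zero, pl_append, pl_cons, pl_nil, mul_one, ← mul_assoc,
    dc_mul, h.dc_pow, Cv]

lemma Wv_site (h : Rot A τ) {j : ℕ} (hj : j < m) :
    Wv A B f a n m j = Cv A B f n τ j * ga B * tc (yv A B a n m (j + 1)) +
      Cv A B f n τ j * om B * conj (tc (yv A B a n m (j + 1))) ∧
    Wv A B f a n m (j + 1) = Cv A B f n τ j * ga B * tc (yv A B a n m (j + 1)) +
      conj (Cv A B f n τ j * om B * conj (tc (yv A B a n m (j + 1)))) := by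
  constructor
  · rw [Wv, yv_step hj, h.pow, tc_mul, Cv]; ring
  · rw [Wv, dc_step h, map_mul _ (_ * _), conj_conj]; ring

lemma Wv_norm (h : Rot A τ) (hs : ‖ga B‖ + ‖om B‖ = 1) (hM : ‖dc f 1‖ * ‖tc a‖ = 1) (i j : ℕ) :
    ‖dc f (pl A B (sg n 0 i))‖ * ‖tc (yv A B a n m j)‖ ≤ 1 := by
  rw [← hM]
  gcongr
  · exact (h.con hs _).dc_le
  · exact h.con hs _ a

lemma site_of (h : Rot A τ) (hs : ‖ga B‖ + ‖om B‖ = 1) (hg : ‖ga B‖ ≤ ‖om B‖)
    (hM : ‖dc f 1‖ * ‖tc a‖ = 1) (hF : ‖om B‖ ≤ f (pl A B (sg n 0 m) *ᵥ a)) {j : ℕ} (hj : j < m)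
    {T κ : ℝ} (t0 : |(Wv A B f a n m j).im - T| ≤ κ) (t1 : |(Wv A B f a n m (j + 1)).im - T| ≤ κ) :
    Site ‖ga B‖ ‖om B‖ (f (pl A B (sg n 0 m) *ᵥ a)) T κ
      (Cv A B f n τ j * ga B * tc (yv A B a n m (j + 1)))
      (Cv A B f n τ j * om B * conj (tc (yv A B a n m (j + 1)))) := by
  obtain ⟨w0, w1⟩ := Wv_site (B := B) (f := f) (a := a) (n := n) h hj
  have r0 := Wv_re (A := A) (B := B) (f := f) (a := a) (n := n) hj.le
  have N1 := Wv_norm (n := n) (m := m) h hs hM j (j + 1)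
  have c1 : ‖Cv A B f n τ j‖ = ‖dc f (pl A B (sg n 0 j))‖ := by simp [Cv]
  rw [← c1] at N1
  rw [w0] at t0 r0
  rw [w1] at t1
  generalize Cv A B f n τ j = C at *
  generalize tc (yv A B a n m (j + 1)) = y at *
  generalize f (pl A B (sg n 0 m) *ᵥ a) = F at *
  have nx : ‖C * ga B * y‖ = ‖ga B‖ * (‖C‖ * ‖y‖) := by simp only [norm_mul]; ring
  have ny : ‖C * om B * conj y‖ = ‖om B‖ * (‖C‖ * ‖y‖) := by
    simp only [norm_mul, Complex.norm_conj]; ring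
  have rx := Complex.re_le_norm (C * ga B * y)
  have ry := Complex.re_le_norm (C * om B * conj y)
  rw [Complex.add_re] at r0
  rw [Complex.add_im] at t0
  rw [Complex.add_im, Complex.conj_im, ← sub_eq_add_neg] at t1
  generalize C * ga B * y = X at *
  generalize C * om B * conj y = Y at *
  have g0 := norm_nonneg (ga B)
  generalize ‖C‖ * ‖y‖ = N at *
  generalize ‖ga B‖ = g at *
  generalize ‖om B‖ = w at *
  have N0 : 1 / 2 ≤ N := by nlinarith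
  exact ⟨by rw [nx, ny]; ring, by nlinarith, by nlinarith, by nlinarith, r0, t0, t1,
    by nlinarith, by nlinarith⟩

lemma close (h : Rot A τ) (hs : ‖ga B‖ + ‖om B‖ = 1) (g0 : 0 < ‖ga B‖) (hg : ‖ga B‖ ≤ ‖om B‖)
    (hM : ‖dc f 1‖ * ‖tc a‖ = 1) (hF : ‖om B‖ ≤ f (pl A B (sg n 0 m) *ᵥ a)) {i j : ℕ}
    (i0 : 1 ≤ i) (hi : i + 1 < m) (j0 : 1 ≤ j) (hj : j + 1 < m) {T κ : ℝ}
    (ti : ∀ l, i ≤ l + 1 → l ≤ i + 1 → |(Wv A B f a n m l).im - T| ≤ κ)
    (tj : ∀ l, j ≤ l + 1 → l ≤ j + 1 → |(Wv A B f a n m l).im - T| ≤ κ) :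
    ∃ r : ℤ, |n i * τ - n j * τ - r| ≤ 1920 * κ / ‖ga B‖ ^ 6 := by
  have key : ∀ p, p + 1 + 1 < m → ∃ (X Y X' Y' : ℂ) (ρ : ℝ),
      ((∀ l, p + 1 ≤ l + 1 → l ≤ p + 1 + 1 → |(Wv A B f a n m l).im - T| ≤ κ) →
        Site ‖ga B‖ ‖om B‖ (f (pl A B (sg n 0 m) *ᵥ a)) T κ X Y ∧
        Site ‖ga B‖ ‖om B‖ (f (pl A B (sg n 0 m) *ᵥ a)) T κ X' Y') ∧ ‖X' + Y'‖ ≤ 1 ∧ 0 ≤ ρ ∧
      X' * Y' * X * conj Y * conj (X' + Y') * conj (X' + Y')
        = ρ * ga B ^ 2 * ex (2 * Real.pi * (n (p + 1) * τ)) := by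
    intro p hp
    have w := (Wv_site (B := B) (f := f) (a := a) (n := n) h (show p + 1 < m by omega)).1
    refine ⟨_, _, _, _, Complex.normSq (om B * tc (yv A B a n m (p + 1 + 1)) * Cv A B f n τ p *
      Wv A B f a n m (p + 1) ^ 2), fun H => ⟨site_of h hs hg hM hF (show p < m by omega)
        (H _ (by omega) (by omega)) (H _ (by omega) (by omega)),
        site_of h hs hg hM hF (show p + 1 < m by omega) (H _ (by omega) (by omega))
        (H _ (by omega) (by omega))⟩, ?_, Complex.normSq_nonneg _, ?_⟩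
    · rw [← w, Wv, norm_mul]; exact Wv_norm h hs hM _ _
    · have e := ex_sq (τ := τ) (n (p + 1)) 0
      rw [Int.cast_zero, sub_zero] at e
      rw [← w, ← e, ← Complex.mul_conj, Cv.eq_1 A B f n τ (p + 1), Wv]
      simp only [map_mul, map_pow, conj_conj]
      ring
  obtain ⟨i, rfl⟩ : ∃ p, i = p + 1 := ⟨i - 1, by omega⟩
  obtain ⟨j, rfl⟩ : ∃ p, j = p + 1 := ⟨j - 1, by omega⟩
  obtain ⟨X, Y, X', Y', ρ, a1, a2, a3, a4⟩ := key i hi
  obtain ⟨Z, V, Z', V', ρ', b1, b2, b3, b4⟩ := key j hj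
  exact close_ang g0 hg (by linarith) (by linarith) (a1 ti).1 (a1 ti).2 (b1 tj).1 (b1 tj).2 a2 b2
    a3 b3 a4 b4

lemma dc_smul (t : ℝ) (U : M2) : dc (t • f) U = t * dc f U := by
  apply Complex.ext <;> simp [dc, cf]

/-- The case in which `B` has norm one. -/
lemma few2_tan (h : Rot A τ) (hτ : Irrational τ) (hB : B.det < 0) (hg : ga B ≠ 0)
    (hs : ‖ga B‖ + ‖om B‖ = 1) : Few2 A B := by
  have g0 := norm_pos_iff.mpr hg
  have g1 := ga_lt hB
  obtain ⟨r, L, -, H⟩ := steer h hτ hB g0 (by linarith) 0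
  obtain ⟨H0, hH⟩ := steps hτ (ε := 1 / 8) (by norm_num) (by norm_num)
  obtain ⟨K, hK⟩ := exists_nat_ge (1920 * 16 / ‖ga B‖ ^ 6)
  have hK' : ∀ u : ℝ, 1920 * (16 * |u|) / ‖ga B‖ ^ 6 ≤ K * |u| := fun u => by
    have := mul_le_mul_of_nonneg_right hK (abs_nonneg u)
    refine le_trans (le_of_eq ?_) this
    ring
  refine few2_of_eqz h hB (L := H0 + 1) (K := L + 1 +
    (2 * ((2 * K + 1 + ((2 * K + 1) * 3 + 2) * (3 + (2 * K + 1))) * 3) + 2)) (by omega)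
    fun f a e n m ho ht c => ?_
  wlog hM : ‖dc f 1‖ * ‖tc a‖ = 1 generalizing f
  · have t0 : 0 < (‖dc f 1‖ * ‖tc a‖)⁻¹ := inv_pos.mpr c
    have t1 : ‖dc ((‖dc f 1‖ * ‖tc a‖)⁻¹ • f) 1‖ * ‖tc a‖ = 1 := by
      rw [dc_smul, norm_mul, Complex.norm_real, Real.norm_eq_abs, abs_of_pos t0, mul_assoc,
        inv_mul_cancel₀ c.ne']
    refine this ((‖dc f 1‖ * ‖tc a‖)⁻¹ • f) (fun l' h1 h2 => ?_) (fun l' e' h1 => ?_)
      (by rw [t1]; exact one_pos) t1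
    · simpa only [LinearMap.smul_apply, smul_eq_mul, mul_le_mul_iff_right₀ t0] using ho l' h1 h2
    · simpa only [LinearMap.smul_apply, smul_eq_mul, mul_le_mul_iff_right₀ t0] using ht l' e' h1
  rcases lt_or_ge m (L + 1) with hm | hm
  · exact Or.inr ((ch_le n m).trans (by omega))
  have hF := top_lower ht H (by omega)
  rw [hs, hM, one_pow, one_mul, mul_one, show 1 - ‖ga B‖ = ‖om B‖ by linarith] at hF
  rw [← h.norm_pow e] at hM
  generalize A ^ e *ᵥ a = b at ho hM hF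
  obtain ⟨J, hJ, hmax⟩ := (Finset.range m).exists_max_image n ⟨0, by simp; omega⟩
  simp only [Finset.mem_range] at hJ hmax
  rcases lt_or_ge (n J) H0 with c0 | c0
  · refine Or.inl fun i j h1 h2 h3 => ?_
    have := h3 i le_rfl (by omega)
    have := hmax i (by omega)
    omega
  obtain ⟨q, q', k, k', q0, q1, q2, s0, s1, s2, s3, s4⟩ := hH (n J) c0
  have u0 := irr_ne hτ q0 k
  have u1 : 0 < |q * τ - k| := abs_pos.mpr u0
  obtain ⟨Vs, v1, v2⟩ := pack (u1.trans_le s2) K q s4 (n 1 * τ)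
  obtain ⟨V, w1, w2⟩ := values3 (L := q) (h.sq hB ho) v1
    (fun i i0 i1 i2 => by
      refine v2 _ i2 ?_
      obtain ⟨r, hr⟩ := close h hs g0 g1.le hM hF i0 i1 le_rfl (by omega)
        (fun l _ _ => tan_one h hs ho hM hJ q1 q2 s0 s2 le_rfl s1 (show l < m by omega))
        (fun l _ _ => tan_one h hs ho hM hJ q1 q2 s0 s2 le_rfl s1 (show l < m by omega))
      exact ⟨r, hr.trans (hK' _)⟩)
    (fun u => by
      obtain ⟨V, a1, a2⟩ := pack u1 K (n J + 1) s3 (n (u + 1) * τ)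
      refine ⟨V, a1, fun j j1 j2 j3 => a2 _ (Nat.lt_succ_of_le (hmax j (by omega))) ?_⟩
      have tt : ∀ l, u ≤ l → l ≤ j + 1 →
          |(Wv A B f b n m l).im - (Wv A B f b n m u).im| ≤ 16 * |q * τ - k| := fun l l1 l2 =>
        tan_two h hs ho hM l1 (by omega) (j3 u le_rfl (by omega)) (j3 l l1 (by omega)) u0 le_rfl
          (s2.trans s1)
      obtain ⟨r, hr⟩ := close h hs g0 g1.le hM hF (i := j) (j := u + 1) (by omega) (by omega)
        (by omega) (by omega) (fun l _ _ => tt l (by omega) (by omega))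
        (fun l _ _ => tt l (by omega) (by omega))
      exact ⟨r, hr.trans (hK' _)⟩)
  have := chg_of_values (h.sq hB ho) w2
  right
  omega

theorem few2_rot (h : Rot A τ) (hτ : Irrational τ) (hB : B.det < 0) : Few2 A B := by
  by_cases hg : ga B = 0
  · exact few2_anti h hB hg
  rcases lt_trichotomy (‖ga B‖ + ‖om B‖) 1 with c | c | c
  · exact few2_small h hτ hB c
  · exact few2_tan h hτ hB hg c
  · exact few2_large h hτ hB c

end Pool.Agent.Lib.MP_34a884_an.Neg
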