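import Mathlib
import Pool.Agent.Lib.MP_34a884_an.NMain
import Pool.Agent.Lib.MP_34a884_an.NRot

/-! The elliptic normal form; all pairs with a nonpositive determinant. -/

namespace Pool.Agent.Lib.MP_34a884_an.Neg

open Matrix

variable {A B : M2} {τ : ℝ}

lemma tc_inj {u v : Fin 2 → ℝ} (h : tc u = tc v) : u = v :=
  ext2 (congrArg Complex.re h) (congrArg Complex.im h)

lemma few2_rot_all (h : Rot A τ) (hB : B.det < 0) : Few2 A B := by
  by_cases hτ : Irrational τ
  · exact few2_rot h hτ hB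
  obtain ⟨x, hx⟩ : ∃ x : ℚ, (x : ℝ) = τ := by simpa [Irrational] using hτ
  have e : A ^ (2 * x.den) = (1 : ℝ) • (1 : M2) := by
    have e1 : ex (Real.pi * τ) ^ (2 * x.den) = 1 := by
      rw [ex_pow, ← ex_zero, ← ex_int 0 x.num, ← hx]
      congr 1
      have := Rat.mul_den_eq_num x
      have : (x : ℝ) * x.den = x.num := by exact_mod_cast this
      push_cast
      linear_combination 2 * Real.pi * this
    rw [one_smul]
    ext i j
    have := h.pow (2 * x.den) (Pi.single j 1)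
    rw [e1, one_mul] at this
    simpa [Matrix.one_apply, Pi.single_apply] using congrFun (tc_inj this) i
  obtain ⟨C, H⟩ := few_pow hB (Nat.mul_pos two_pos x.den_pos) e
  exact ⟨C, fun f a e n m ho _ => H f _ n m ho⟩

lemma pb_ell (hB : B.det < 0) (h : A.trace ^ 2 < 4 * A.det) : PB A B := by
  have d0 : 0 < A.det := by nlinarith [sq_nonneg A.trace]
  obtain ⟨ρ, r0, r2⟩ : ∃ ρ : ℝ, 0 < ρ ∧ ρ ^ 2 = A.det :=
    ⟨Real.sqrt A.det, Real.sqrt_pos.mpr d0, Real.sq_sqrt d0.le⟩
  have c1 : (A.trace / (2 * ρ)) ^ 2 < 1 := by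
    rw [div_pow, div_lt_one (by positivity)]; linarith
  obtain ⟨c2, c3⟩ := abs_lt.mp (sq_lt_one_iff_abs_lt_one _ |>.mp c1)
  obtain ⟨θ, t1, t2⟩ : ∃ θ : ℝ, A.trace = 2 * ρ * Real.cos θ ∧ Real.sin θ ≠ 0 := by
    refine ⟨Real.arccos (A.trace / (2 * ρ)), ?_, fun h0 => ?_⟩
    · rw [Real.cos_arccos c2.le c3.le]; field_simp
    · have := Real.sin_sq_add_cos_sq (Real.arccos (A.trace / (2 * ρ)))
      rw [h0, Real.cos_arccos c2.le c3.le] at this
      linarith
  have t3 := Real.sin_sq_add_cos_sq θ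
  have a10 : A 1 0 ≠ 0 := by
    intro h0
    rw [Matrix.trace_fin_two, Matrix.det_fin_two, h0] at h
    nlinarith [sq_nonneg (A 0 0 - A 1 1)]
  let R : M2 := !![Real.cos θ, -Real.sin θ; Real.sin θ, Real.cos θ]
  have hR : Rot R (θ / Real.pi) := fun v => by
    rw [mul_div_cancel₀ _ Real.pi_ne_zero]
    apply Complex.ext <;> simp [tc, R, mulVec2] <;> ring
  let S : M2 := !![1, (A 0 0 - ρ * Real.cos θ) / (ρ * Real.sin θ); 0, A 1 0 / (ρ * Real.sin θ)]
  have hS : S.det ≠ 0 := by
    simp only [S, Matrix.det_fin_two_of, one_mul, mul_zero, sub_zero]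
    positivity
  have hU := isUnit_iff_ne_zero.mpr hS
  refine pb_of_few2 (Few2.conj (A' := R) (B' := ρ⁻¹ • (S⁻¹ * B * S)) (s := ρ) hS ?_ ?_
    (few2_rot_all hR ?_))
  · rw [Matrix.trace_fin_two] at t1
    rw [Matrix.det_fin_two] at r2
    ext i j
    fin_cases i <;> fin_cases j <;> simp [S, R, Matrix.mul_apply, Fin.sum_univ_two] <;> field_simp
    · ring
    · linear_combination A 0 0 * t1 + r2 + ρ ^ 2 * t3
    · linear_combination t1
  · rw [Matrix.mul_smul, smul_smul, mul_inv_cancel₀ r0.ne', one_smul, ← mul_assoc, ← mul_assoc,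
      Matrix.mul_nonsing_inv S hU, one_mul]
  · rw [Matrix.det_smul, Matrix.det_mul, Matrix.det_mul, mul_right_comm, ← Matrix.det_mul,
      Matrix.nonsing_inv_mul S hU, Matrix.det_one, one_mul]
    exact mul_neg_of_pos_of_neg (by positivity) hB

/-- Every pair with a nonpositive determinant has the polynomial bound. -/
theorem pb_nonpos (h : A.det ≤ 0 ∨ B.det ≤ 0) : PB A B := by
  have key : ∀ A B : M2, B.det ≤ 0 → PB A B := by
    intro A B hB
    rcases hB.eq_or_lt with c | c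
    · exact pb_sing c
    rcases le_or_gt (4 * A.det) (A.trace ^ 2) with d | d
    · exact pb_real c d
    · exact pb_ell c d
  rcases h with h | h
  · exact pb_swap (key B A h)
  · exact key A B h

end Pool.Agent.Lib.MP_34a884_an.Neg
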