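import Mathlib

/-! Counting tools and plane convexity lemmas for the unimodular case. -/

namespace Pool.Agent.Lib.MP_34a884_an.Uni

open Matrix

/-- Plane vectors. -/
abbrev V := Fin 2 → ℝ
/-- Real two by two matrices. -/
abbrev M := Matrix (Fin 2) (Fin 2) ℝ

/-- The set has at most `n` elements. -/
def Le {α : Type} (S : Set α) (n : ℕ) : Prop := ∃ F : Finset α, F.card ≤ n ∧ S ⊆ ↑F

namespace Le
variable {α β : Type}

lemma mono {S T : Set α} {n m : ℕ} (h : Le T n) (hs : S ⊆ T) (hn : n ≤ m) : Le S m := by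
  obtain ⟨F, h1, h2⟩ := h
  exact ⟨F, h1.trans hn, hs.trans h2⟩

lemma union {S T : Set α} {n m : ℕ} (h : Le S n) (h' : Le T m) : Le (S ∪ T) (n + m) := by
  classical
  obtain ⟨F, h1, h2⟩ := h
  obtain ⟨G, g1, g2⟩ := h'
  refine ⟨F ∪ G, (Finset.card_union_le _ _).trans (add_le_add h1 g1), ?_⟩
  rw [Finset.coe_union]
  exact Set.union_subset_union h2 g2

lemma cover {S : Set α} {T : Set β} {n m : ℕ} (A : β → Set α) (hT : Le T n)
    (hA : ∀ t ∈ T, Le (A t) m) (h : ∀ x ∈ S, ∃ t ∈ T, x ∈ A t) : Le S (n * m) := by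
  classical
  obtain ⟨F, h1, h2⟩ := hT
  have : ∀ t, ∃ G : Finset α, G.card ≤ m ∧ (t ∈ T → A t ⊆ ↑G) := by
    intro t
    by_cases ht : t ∈ T
    · obtain ⟨G, g1, g2⟩ := hA t ht
      exact ⟨G, g1, fun _ => g2⟩
    · exact ⟨∅, by simp, fun h => absurd h ht⟩
  choose G g1 g2 using this
  refine ⟨F.biUnion G, ?_, ?_⟩
  · refine Finset.card_biUnion_le.trans ?_
    refine (Finset.sum_le_card_nsmul _ _ m fun t _ => g1 t).trans ?_
    rw [smul_eq_mul]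
    exact Nat.mul_le_mul_right _ h1
  · intro x hx
    obtain ⟨t, ht, hxt⟩ := h x hx
    simp only [Finset.coe_biUnion, Set.mem_iUnion]
    exact ⟨t, h2 ht, g2 t ht hxt⟩

lemma one {S : Set α} (h : ∀ x ∈ S, ∀ y ∈ S, x = y) : Le S 1 := by
  rcases S.eq_empty_or_nonempty with rfl | ⟨x, hx⟩
  · exact ⟨∅, by simp, by simp⟩
  · exact ⟨{x}, by simp, fun y hy => by simp [h y hy x hx]⟩

lemma code {S : Set α} {T : Set β} {n : ℕ} (R : β → α → Prop) (hT : Le T n)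
    (h1 : ∀ x ∈ S, ∃ t ∈ T, R t x) (h2 : ∀ t x y, R t x → R t y → x = y) : Le S n := by
  have := cover (S := S) (fun t => {x | R t x}) hT
    (fun t _ => one fun x hx y hy => h2 t x y hx hy) h1
  rwa [mul_one] at this

lemma image {S : Set α} {n : ℕ} (h : Le S n) (f : α → β) : Le (f '' S) n :=
  code (fun t x => x = f t) h (by rintro _ ⟨t, ht, rfl⟩; exact ⟨t, ht, rfl⟩)
    (by rintro t x y rfl rfl; rfl)

lemma prod {S : Set α} {T : Set β} {n m : ℕ} (h : Le S n) (h' : Le T m) : Le (S ×ˢ T) (n * m) :=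
  cover (fun s => (fun t => (s, t)) '' T) h (fun _ _ => h'.image _)
    (fun x hx => ⟨x.1, hx.1, x.2, hx.2, rfl⟩)

lemma univ [Fintype α] : Le (Set.univ : Set α) (Fintype.card α) :=
  ⟨Finset.univ, le_rfl, by simp⟩

lemma bool : Le (Set.univ : Set Bool) 2 := univ

lemma nat (n : ℕ) : Le {i : ℕ | i ≤ n} (n + 1) :=
  ⟨Finset.range (n + 1), by simp, fun i hi => by simpa [Nat.lt_succ_iff] using hi⟩

lemma mset [Fintype α] (k : ℕ) :
    Le {σ : Multiset α | Multiset.card σ ≤ k} ((k + 1) ^ Fintype.card α) := by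
  classical
  refine code (T := ↑(Fintype.piFinset fun _ : α => Finset.range (k + 1)))
    (fun (t : α → ℕ) σ => ∀ e, σ.count e = t e)
    ⟨Fintype.piFinset fun _ : α => Finset.range (k + 1), by simp, subset_rfl⟩ ?_ ?_
  · intro σ hσ
    refine ⟨fun e => σ.count e, ?_, fun _ => rfl⟩
    simp only [Finset.mem_coe, Fintype.mem_piFinset, Finset.mem_range]
    exact fun e => Nat.lt_succ_of_le ((Multiset.count_le_card e σ).trans hσ)
  · intro t x y hx hy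
    ext e
    rw [hx, hy]

lemma of_finite {S : Set α} (h : S.Finite) : ∃ n, Le S n :=
  ⟨h.toFinset.card, h.toFinset, le_rfl, by simp⟩

lemma ncard {S : Set α} {n : ℕ} (h : Le S n) : S.Finite ∧ S.ncard ≤ n := by
  obtain ⟨F, h1, h2⟩ := h
  refine ⟨F.finite_toSet.subset h2, (Set.ncard_le_ncard h2 F.finite_toSet).trans ?_⟩
  rwa [Set.ncard_coe_finset]

end Le

/-- The set is covered by at most `n` open rays. -/
def Cov (S : Set V) (n : ℕ) : Prop :=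
  ∃ F : Set V, Le F n ∧ ∀ c ∈ S, ∃ d ∈ F, ∃ s : ℝ, 0 < s ∧ c = s • d

lemma Cov.code {β : Type} {S : Set V} {T : Set β} {n : ℕ} (R : β → V → Prop) (hT : Le T n)
    (h1 : ∀ x ∈ S, ∃ t ∈ T, R t x)
    (h2 : ∀ t x y, R t x → R t y → ∃ s : ℝ, 0 < s ∧ x = s • y) : Cov S n := by
  classical
  refine ⟨(fun t => Classical.epsilon (R t)) '' T, hT.image _, fun c hc => ?_⟩
  obtain ⟨t, ht, hr⟩ := h1 c hc
  exact ⟨_, ⟨t, ht, rfl⟩, h2 t _ _ hr (Classical.epsilon_spec ⟨c, hr⟩)⟩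

lemma Cov.cover {β : Type} {S : Set V} {T : Set β} {n m : ℕ} (A : β → Set V) (hT : Le T n)
    (hA : ∀ t ∈ T, Cov (A t) m) (h : ∀ x ∈ S, ∃ t ∈ T, x ∈ A t) : Cov S (n * m) := by
  classical
  have : ∀ t, ∃ F : Set V, t ∈ T →
      (Le F m ∧ ∀ c ∈ A t, ∃ d ∈ F, ∃ s : ℝ, 0 < s ∧ c = s • d) := by
    intro t
    by_cases ht : t ∈ T
    · obtain ⟨F, hF⟩ := hA t ht
      exact ⟨F, fun _ => hF⟩
    · exact ⟨∅, fun h => absurd h ht⟩
  choose F hF using this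
  refine ⟨{d | ∃ t ∈ T, d ∈ F t}, Le.cover F hT (fun t ht => (hF t ht).1) fun x hx => hx, ?_⟩
  intro c hc
  obtain ⟨t, ht, hct⟩ := h c hc
  obtain ⟨d, hd, hs⟩ := (hF t ht).2 c hct
  exact ⟨d, ⟨t, ht, hd⟩, hs⟩

lemma Cov.union {S T : Set V} {n m : ℕ} (h : Cov S n) (h' : Cov T m) : Cov (S ∪ T) (n + m) := by
  obtain ⟨F, h1, h2⟩ := h
  obtain ⟨G, g1, g2⟩ := h'
  refine ⟨F ∪ G, h1.union g1, ?_⟩
  rintro c (hc | hc)
  · obtain ⟨d, hd, hs⟩ := h2 c hc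
    exact ⟨d, Or.inl hd, hs⟩
  · obtain ⟨d, hd, hs⟩ := g2 c hc
    exact ⟨d, Or.inr hd, hs⟩

/-- Polynomially bounded functions. -/
def PolyB (f : ℕ → ℕ) : Prop := ∃ C D : ℕ, ∀ k, f k ≤ C * (k + 1) ^ D

lemma PolyB.const (c : ℕ) : PolyB fun _ => c := ⟨c, 0, fun _ => by simp⟩
lemma PolyB.id : PolyB fun k => k := ⟨1, 1, fun _ => by simp⟩
lemma PolyB.add {f g : ℕ → ℕ} (h : PolyB f) (h' : PolyB g) : PolyB fun k => f k + g k := by
  obtain ⟨C, D, h⟩ := h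
  obtain ⟨C', D', h'⟩ := h'
  refine ⟨C + C', D + D', fun k => ?_⟩
  have a1 : (k + 1) ^ D ≤ (k + 1) ^ (D + D') := Nat.pow_le_pow_right (by omega) (by omega)
  have a2 : (k + 1) ^ D' ≤ (k + 1) ^ (D + D') := Nat.pow_le_pow_right (by omega) (by omega)
  calc f k + g k ≤ C * (k + 1) ^ D + C' * (k + 1) ^ D' := add_le_add (h k) (h' k)
    _ ≤ C * (k + 1) ^ (D + D') + C' * (k + 1) ^ (D + D') := by gcongr
    _ = _ := by ring
lemma PolyB.mul {f g : ℕ → ℕ} (h : PolyB f) (h' : PolyB g) : PolyB fun k => f k * g k := by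
  obtain ⟨C, D, h⟩ := h
  obtain ⟨C', D', h'⟩ := h'
  refine ⟨C * C', D + D', fun k => ?_⟩
  calc f k * g k ≤ C * (k + 1) ^ D * (C' * (k + 1) ^ D') := Nat.mul_le_mul (h k) (h' k)
    _ = _ := by ring
lemma PolyB.pow (D : ℕ) : PolyB fun k => (k + 1) ^ D := ⟨1, D, fun _ => by simp⟩

lemma mv (A : M) (x : V) (i : Fin 2) : (A *ᵥ x) i = A i 0 * x 0 + A i 1 * x 1 := by
  simp [Matrix.mulVec, dotProduct, Fin.sum_univ_two]

lemma dot (c x : V) : c ⬝ᵥ x = c 0 * x 0 + c 1 * x 1 := by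
  simp [dotProduct, Fin.sum_univ_two]

lemma ext2 {x y : V} (h0 : x 0 = y 0) (h1 : x 1 = y 1) : x = y := by
  ext i; fin_cases i
  · exact h0
  · exact h1

lemma dotT (A : M) (c x : V) : c ⬝ᵥ (A *ᵥ x) = (Aᵀ *ᵥ c) ⬝ᵥ x := by
  simp only [dot, mv, transpose_apply]; ring

lemma inj {A : M} (h : A.det ≠ 0) {x y : V} (e : A *ᵥ x = A *ᵥ y) : x = y := by
  have a0 := congrFun e 0
  have a1 := congrFun e 1
  simp only [mv] at a0 a1
  rw [det_fin_two] at h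
  refine ext2 (mul_left_cancel₀ h ?_) (mul_left_cancel₀ h ?_)
  · linear_combination (A 1 1) * a0 - (A 0 1) * a1
  · linear_combination (A 0 0) * a1 - (A 1 0) * a0

lemma ne0 {A : M} (h : A.det ≠ 0) {x : V} (hx : x ≠ 0) : A *ᵥ x ≠ 0 := fun e =>
  hx (inj h (e.trans (Matrix.mulVec_zero A).symm))

/-- Rotation by a right angle. -/
def rot (d : V) : V := ![-d 1, d 0]
@[simp] lemma rot0 (d : V) : rot d 0 = -d 1 := rfl
@[simp] lemma rot1 (d : V) : rot d 1 = d 0 := rfl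

lemma sq_pos' {c : V} (hc : c ≠ 0) : 0 < c 0 ^ 2 + c 1 ^ 2 := by
  by_contra h
  exact hc (ext2 (by simp; nlinarith [sq_nonneg (c 0), sq_nonneg (c 1)])
    (by simp; nlinarith [sq_nonneg (c 0), sq_nonneg (c 1)]))

lemma perp {c u : V} (hc : c ≠ 0) (h : c ⬝ᵥ u = 0) : ∃ τ : ℝ, u = τ • rot c := by
  have hp := sq_pos' hc
  rw [dot] at h
  refine ⟨(c 0 * u 1 - c 1 * u 0) / (c 0 ^ 2 + c 1 ^ 2), ext2 ?_ ?_⟩
  · simp only [Pi.smul_apply, smul_eq_mul, rot0]; field_simp; linear_combination (c 0) * h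
  · simp only [Pi.smul_apply, smul_eq_mul, rot1]; field_simp; linear_combination (c 1) * h

/-- Exposed points. -/
def Ex (S : Set V) : Set V := {x | x ∈ S ∧ ∃ f : V, ∀ y ∈ S, y = x ∨ f ⬝ᵥ y < f ⬝ᵥ x}

lemma Ex.sub {S T : Set V} {x : V} (h : x ∈ Ex S) (hT : T ⊆ S) (hx : x ∈ T) : x ∈ Ex T := by
  obtain ⟨-, f, hf⟩ := h
  exact ⟨hx, f, fun y hy => hf y (hT hy)⟩

lemma Ex.img {S : Set V} {A : M} (hA : A.det ≠ 0) {n : ℕ} (h : Le (Ex S) n) :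
    Le (Ex ((fun v => A *ᵥ v) '' S)) n := by
  refine (h.image fun v => A *ᵥ v).mono ?_ le_rfl
  rintro _ ⟨⟨p, hp, rfl⟩, f, hf⟩
  refine ⟨p, ⟨hp, Aᵀ *ᵥ f, fun y hy => ?_⟩, rfl⟩
  rcases hf _ ⟨y, hy, rfl⟩ with e | e
  · exact Or.inl (inj hA e)
  · right; rwa [← dotT, ← dotT]

/-- Normals of edges. -/
def Edge (S : Set V) : Set V :=
  {c | c ≠ 0 ∧ ∃ p ∈ S, ∃ q ∈ S, p ≠ q ∧ c ⬝ᵥ q = c ⬝ᵥ p ∧ ∀ y ∈ S, c ⬝ᵥ y ≤ c ⬝ᵥ p}

lemma edge_aux {S : Set V} (hS : S.Finite) {x f g : V} (hf : ∀ y ∈ S, y = x ∨ f ⬝ᵥ y < f ⬝ᵥ x)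
    (hg : f ⬝ᵥ g = 0) {y : V} (hy : y ∈ S) (hpos : g ⬝ᵥ x < g ⬝ᵥ y) :
    ∃ c : V, c ≠ 0 ∧ ∃ q ∈ S, x ≠ q ∧ c ⬝ᵥ q = c ⬝ᵥ x ∧ ∀ y ∈ S, c ⬝ᵥ y ≤ c ⬝ᵥ x := by
  obtain ⟨q, ⟨hq, hq'⟩, hmin⟩ := Set.exists_min_image {y ∈ S | g ⬝ᵥ x < g ⬝ᵥ y}
    (fun y => (f ⬝ᵥ x - f ⬝ᵥ y) / (g ⬝ᵥ y - g ⬝ᵥ x)) (hS.subset fun _ h => h.1) ⟨y, hy, hpos⟩
  have hne : x ≠ q := by rintro rfl; exact lt_irrefl _ hq'
  have hfq : f ⬝ᵥ q < f ⬝ᵥ x := (hf q hq).resolve_left hne.symm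
  set t := (f ⬝ᵥ x - f ⬝ᵥ q) / (g ⬝ᵥ q - g ⬝ᵥ x) with ht
  have t0 : 0 < t := div_pos (by linarith) (by linarith)
  have e : ∀ z : V, (f + t • g) ⬝ᵥ z = f ⬝ᵥ z + t * (g ⬝ᵥ z) := fun z => by
    simp only [dot, Pi.add_apply, Pi.smul_apply, smul_eq_mul]; ring
  refine ⟨f + t • g, fun h0 => ?_, q, hq, hne, ?_, fun z hz => ?_⟩
  · have h1 := e f
    rw [h0, dotProduct_comm g f, hg, zero_dotProduct] at h1
    have : f ≠ 0 := by rintro rfl; simp at hfq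
    have := sq_pos' this
    rw [dot] at h1
    nlinarith
  · rw [e, e]
    have : t * (g ⬝ᵥ q - g ⬝ᵥ x) = f ⬝ᵥ x - f ⬝ᵥ q := by
      rw [ht]; exact div_mul_cancel₀ _ (by linarith)
    linarith
  · rw [e, e]
    rcases hf z hz with rfl | h1
    · exact le_rfl
    by_cases h2 : g ⬝ᵥ x < g ⬝ᵥ z
    · have := hmin z ⟨hz, h2⟩
      rw [le_div_iff₀ (by linarith)] at this
      linarith
    · nlinarith [mul_nonneg t0.le (sub_nonneg.mpr (not_lt.mp h2))]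

lemma ex_edge {S : Set V} (hS : S.Finite) {x y : V} (hx : x ∈ Ex S) (hy : y ∈ S) (hne : y ≠ x) :
    ∃ c : V, c ≠ 0 ∧ ∃ q ∈ S, x ≠ q ∧ c ⬝ᵥ q = c ⬝ᵥ x ∧ ∀ y ∈ S, c ⬝ᵥ y ≤ c ⬝ᵥ x := by
  obtain ⟨-, f, hf⟩ := hx
  have f0 : f ≠ 0 := by
    rintro rfl
    simpa using (hf y hy).resolve_left hne
  by_cases h1 : ∃ z ∈ S, rot f ⬝ᵥ x < rot f ⬝ᵥ z
  · obtain ⟨z, hz, h⟩ := h1
    exact edge_aux hS hf (by simp only [dot, rot0, rot1]; ring) hz h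
  by_cases h2 : ∃ z ∈ S, (-rot f) ⬝ᵥ x < (-rot f) ⬝ᵥ z
  · obtain ⟨z, hz, h⟩ := h2
    exact edge_aux hS hf (by simp only [dot, rot0, rot1, Pi.neg_apply]; ring) hz h
  push Not at h1 h2
  refine ⟨rot f, fun h => f0 (ext2 (congrFun h 1) (by simpa using congrFun h 0)), y, hy,
    hne.symm, ?_, h1⟩
  have := h2 y hy
  rw [neg_dotProduct, neg_dotProduct] at this
  linarith [h1 y hy]

lemma ex_le {S : Set V} (hS : S.Finite) {n : ℕ} (h : Cov (Edge S) n) : Le (Ex S) (n * 2 + 1) := by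
  obtain ⟨F, hF, hc⟩ := h
  by_cases h1 : ∀ x ∈ S, ∀ y ∈ S, x = y
  · exact (Le.one fun x hx y hy => h1 x hx.1 y hy.1).mono subset_rfl (by omega)
  refine Le.mono (n := n * 2) ?_ subset_rfl (by omega)
  refine Le.code (fun (t : V × Bool) x => x ∈ Ex S ∧ t.1 ≠ 0 ∧ (∀ y ∈ S, t.1 ⬝ᵥ y ≤ t.1 ⬝ᵥ x) ∧
    ∃ q ∈ S, ∃ τ : ℝ, τ ≠ 0 ∧ q - x = τ • rot t.1 ∧ (t.2 = true ↔ 0 < τ)) (hF.prod Le.bool) ?_ ?_
  · intro x hx
    obtain ⟨y, hy, hne⟩ : ∃ y ∈ S, y ≠ x := by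
      by_contra h
      push Not at h
      exact h1 fun a ha b hb => (h a ha).trans (h b hb).symm
    obtain ⟨c, c0, q, hq, hxq, e, hm⟩ := ex_edge hS hx hy hne
    obtain ⟨d, hd, s, hs, rfl⟩ := hc c ⟨c0, x, hx.1, q, hq, hxq, e, hm⟩
    have d0 : d ≠ 0 := by rintro rfl; simp at c0
    simp only [smul_dotProduct, smul_eq_mul] at e hm
    obtain ⟨τ, hτ⟩ := perp (u := q - x) d0 (by
      rw [dotProduct_sub, mul_left_cancel₀ hs.ne' e, sub_self])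
    refine ⟨(d, decide (0 < τ)), ⟨hd, trivial⟩, hx, d0,
      fun y hy => le_of_mul_le_mul_left (hm y hy) hs, q, hq, τ, ?_, hτ, by simp⟩
    rintro rfl
    exact hxq (by simpa [sub_eq_zero, eq_comm] using hτ)
  · rintro ⟨d, b⟩ x x' ⟨⟨hx, f, hf⟩, d0, m, q, hq, τ, t0, e, hb⟩
      ⟨⟨hx', f', hf'⟩, -, m', q', hq', τ', t0', e', hb'⟩
    simp only at d0 m m' e e' hb hb'
    obtain ⟨σ, hσ⟩ := perp (u := x' - x) d0 (by
      rw [dotProduct_sub, le_antisymm (m x' hx') (m' x hx), sub_self])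
    by_contra hne
    have r0 : rot d ≠ 0 := fun h => d0 (ext2 (congrFun h 1) (by simpa using congrFun h 0))
    have nq : q ≠ x := by
      rintro rfl
      rw [sub_self] at e
      exact r0 ((smul_eq_zero.mp e.symm).resolve_left t0)
    have nq' : q' ≠ x' := by
      rintro rfl
      rw [sub_self] at e'
      exact r0 ((smul_eq_zero.mp e'.symm).resolve_left t0')
    have a1 := (hf q hq).resolve_left nq
    have a2 := (hf x' hx').resolve_left (Ne.symm hne)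
    have a3 := (hf' q' hq').resolve_left nq'
    have a4 := (hf' x hx).resolve_left hne
    have b1 := congrArg (f ⬝ᵥ ·) e
    have b2 := congrArg (f ⬝ᵥ ·) hσ
    have b3 := congrArg (f' ⬝ᵥ ·) e'
    have b4 := congrArg (f' ⬝ᵥ ·) hσ
    simp only [dotProduct_sub, dotProduct_smul, smul_eq_mul] at b1 b2 b3 b4
    have s1 : 0 < τ * τ' := by
      rcases lt_or_gt_of_ne t0 with h | h
      · have : τ' < 0 := lt_of_le_of_ne (not_lt.mp fun h' => h.not_gt (hb.mp (hb'.mpr h'))) t0'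
        exact mul_pos_of_neg_of_neg h this
      · exact mul_pos h (hb'.mp (hb.mpr h))
    have c1 : τ * (f ⬝ᵥ rot d) < 0 := by linarith
    have c2 : σ * (f ⬝ᵥ rot d) < 0 := by linarith
    have c3 : τ' * (f' ⬝ᵥ rot d) < 0 := by linarith
    have c4 : 0 < σ * (f' ⬝ᵥ rot d) := by linarith
    have d1 : 0 < τ * σ := by
      have := mul_pos_of_neg_of_neg c1 c2
      by_contra h
      nlinarith [mul_nonneg (sq_nonneg (f ⬝ᵥ rot d)) (neg_nonneg.mpr (not_lt.mp h))]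
    have d2 : τ' * σ < 0 := by
      have := mul_neg_of_neg_of_pos c3 c4
      by_contra h
      nlinarith [mul_nonneg (sq_nonneg (f' ⬝ᵥ rot d)) (not_lt.mp h)]
    nlinarith [mul_neg_of_pos_of_neg d1 d2, mul_nonneg s1.le (sq_nonneg σ)]

/-- Common support directions of two sets. -/
def Tie (S S' : Set V) : Set V :=
  {b | b ≠ 0 ∧ ∃ p ∈ S, ∃ q ∈ S', b ⬝ᵥ q = b ⬝ᵥ p ∧ (∀ y ∈ S, b ⬝ᵥ y ≤ b ⬝ᵥ p) ∧
    ∀ y ∈ S', b ⬝ᵥ y ≤ b ⬝ᵥ q}

lemma ray_of {φ b b' : V} (hφ : φ ≠ 0) {r : ℝ} (h1 : rot φ ⬝ᵥ b = r * (rot φ ⬝ᵥ b')) :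
    ∃ s : ℝ, b = r • b' + s • φ := by
  obtain ⟨τ, hτ⟩ := perp (c := rot φ) (u := b - r • b')
    (fun h => hφ (ext2 (congrFun h 1) (by simpa using congrFun h 0)))
    (by rw [dotProduct_sub, dotProduct_smul, h1, smul_eq_mul, sub_self])
  refine ⟨-τ, ext2 ?_ ?_⟩
  · have := congrFun hτ 0
    simp only [Pi.sub_apply, Pi.add_apply, Pi.smul_apply, smul_eq_mul, rot0, rot1] at this ⊢
    linarith
  · have := congrFun hτ 1
    simp only [Pi.sub_apply, Pi.add_apply, Pi.smul_apply, smul_eq_mul, rot0, rot1] at this ⊢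
    linarith

lemma tie_sep {S S' : Set V} {φ : V} (h : ∀ p ∈ S, 0 < φ ⬝ᵥ p) (h' : ∀ p ∈ S', φ ⬝ᵥ p < 0) :
    Cov (Tie S S') 2 := by
  have nz : ∀ b ∈ Tie S S', φ ≠ 0 ∧ rot φ ⬝ᵥ b ≠ 0 := by
    rintro b ⟨b0, p, hp, q, hq, e, -, -⟩
    have φ0 : φ ≠ 0 := by rintro rfl; simpa using h p hp
    refine ⟨φ0, fun h0 => ?_⟩
    obtain ⟨s, hs⟩ := ray_of (b' := 0) (r := 0) φ0 (by simpa using h0)
    rw [zero_smul, zero_add] at hs
    subst hs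
    have s0 : s ≠ 0 := by rintro rfl; simp at b0
    simp only [smul_dotProduct, smul_eq_mul] at e
    have := mul_left_cancel₀ s0 e
    linarith [h p hp, h' q hq]
  refine Cov.code (fun (t : Bool) b => b ∈ Tie S S' ∧ (t = true ↔ 0 < rot φ ⬝ᵥ b)) Le.bool
    (fun b hb => ⟨decide (0 < rot φ ⬝ᵥ b), trivial, hb, by simp⟩) ?_
  rintro t b b' ⟨hb, e⟩ ⟨hb', e'⟩
  obtain ⟨φ0, n1⟩ := nz b hb
  obtain ⟨-, n2⟩ := nz b' hb'
  have r0 : 0 < (rot φ ⬝ᵥ b) / (rot φ ⬝ᵥ b') := by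
    rcases lt_or_gt_of_ne n1 with g | g
    · exact div_pos_of_neg_of_neg g
        (lt_of_le_of_ne (not_lt.mp fun g' => g.not_gt (e.mp (e'.mpr g'))) n2)
    · exact div_pos g (e'.mp (e.mpr g))
  obtain ⟨s, hs⟩ := ray_of φ0 (div_mul_cancel₀ (rot φ ⬝ᵥ b) n2).symm
  set r := (rot φ ⬝ᵥ b) / (rot φ ⬝ᵥ b')
  refine ⟨r, r0, ?_⟩
  obtain ⟨-, p, hp, q, hq, e1, m1, m2⟩ := hb
  obtain ⟨-, p', hp', q', hq', e1', m1', m2'⟩ := hb'
  have E : ∀ z, b ⬝ᵥ z = r * (b' ⬝ᵥ z) + s * (φ ⬝ᵥ z) := fun z => by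
    rw [hs]; simp only [add_dotProduct, smul_dotProduct, smul_eq_mul]
  have a1 := m1 p' hp'
  have a2 := m2 q' hq'
  have a3 := mul_le_mul_of_nonneg_left (m1' p hp) r0.le
  have a4 := mul_le_mul_of_nonneg_left (m2' q hq) r0.le
  have a5 : r * (b' ⬝ᵥ q') = r * (b' ⬝ᵥ p') := by rw [e1']
  rw [E, E] at a1 a2 e1
  rcases lt_trichotomy s 0 with g | g | g
  · nlinarith [mul_pos (neg_pos.mpr g) (h p hp), mul_pos_of_neg_of_neg g (h' q' hq')]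
  · rw [hs, g, zero_smul, add_zero]
  · nlinarith [mul_pos g (h p' hp'), mul_neg_of_pos_of_neg g (h' q hq)]

/-- Support directions through a fixed point. -/
def TieP (q : V) (S : Set V) : Set V :=
  {b | b ≠ 0 ∧ ∃ p ∈ S, p ≠ q ∧ b ⬝ᵥ p = b ⬝ᵥ q ∧ ∀ y ∈ S, b ⬝ᵥ y ≤ b ⬝ᵥ q}

lemma tie_pt (q : V) (S : Set V) : Cov (TieP q S) 4 := by
  refine Cov.code (fun (t : Bool × Bool) b => b ≠ 0 ∧ (∀ y ∈ S, b ⬝ᵥ y ≤ b ⬝ᵥ q) ∧
    (t.1 = true ↔ (0 < b 0 ∨ (b 0 = 0 ∧ 0 < b 1))) ∧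
    ∃ p ∈ S, ∃ τ : ℝ, τ ≠ 0 ∧ p - q = τ • rot b ∧ (t.2 = true ↔ 0 < τ))
    (Le.bool.prod Le.bool) ?_ ?_
  · rintro b ⟨b0, p, hp, hne, e, m⟩
    obtain ⟨τ, hτ⟩ := perp (u := p - q) b0 (by rw [dotProduct_sub, e, sub_self])
    refine ⟨(decide (0 < b 0 ∨ (b 0 = 0 ∧ 0 < b 1)), decide (0 < τ)), ⟨trivial, trivial⟩, b0, m,
      by simp, p, hp, τ, ?_, hτ, by simp⟩
    rintro rfl
    exact hne (by simpa [sub_eq_zero] using hτ)
  · rintro ⟨t1, t2⟩ b b' ⟨b0, m, g, p, hp, τ, t0, e, hb⟩ ⟨b0', m', g', p', hp', τ', t0', e', hb'⟩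
    simp only at g g' hb hb'
    have s1 : 0 < τ * τ' := by
      rcases lt_or_gt_of_ne t0 with h | h
      · have : τ' < 0 := lt_of_le_of_ne (not_lt.mp fun h' => h.not_gt (hb.mp (hb'.mpr h'))) t0'
        exact mul_pos_of_neg_of_neg h this
      · exact mul_pos h (hb'.mp (hb.mpr h))
    have b1 := congrArg (b' ⬝ᵥ ·) e
    have b2 := congrArg (b ⬝ᵥ ·) e'
    simp only [dotProduct_sub, dotProduct_smul, smul_eq_mul] at b1 b2
    have a1 := m p' hp'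
    have a2 := m' p hp
    have an : b' ⬝ᵥ rot b = -(b ⬝ᵥ rot b') := by simp only [dot, rot0, rot1]; ring
    have z : b ⬝ᵥ rot b' = 0 := by
      rw [an] at b1
      have c1 : 0 ≤ τ * (b ⬝ᵥ rot b') := by linarith
      have c2 : τ' * (b ⬝ᵥ rot b') ≤ 0 := by linarith
      by_contra h
      nlinarith [mul_nonneg c1 (neg_nonneg.mpr c2), mul_pos s1 (sq_pos_of_ne_zero h)]
    obtain ⟨σ, hσ⟩ := perp (c := rot b') (u := b)
      (fun h => b0' (ext2 (congrFun h 1) (by simpa using congrFun h 0)))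
      (by rw [dotProduct_comm, z])
    have k0 : b 0 = -σ * b' 0 := by
      have := congrFun hσ 0
      simp only [Pi.smul_apply, smul_eq_mul, rot0, rot1] at this; linarith
    have k1 : b 1 = -σ * b' 1 := by
      have := congrFun hσ 1
      simp only [Pi.smul_apply, smul_eq_mul, rot0, rot1] at this; linarith
    refine ⟨-σ, ?_, ext2 k0 k1⟩
    rcases lt_trichotomy σ 0 with h | h | h
    · linarith
    · exact absurd (ext2 (by simp [k0, h]) (by simp [k1, h])) b0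
    · exfalso
      have gg := g.symm.trans g'
      rcases lt_trichotomy (b' 0) 0 with u | u | u
      · have := gg.mp (Or.inl (by nlinarith))
        rcases this with v | v <;> linarith [v]
      · have v0 : b 0 = 0 := by rw [k0, u, mul_zero]
        rcases lt_trichotomy (b' 1) 0 with w | w | w
        · have := gg.mp (Or.inr ⟨v0, by nlinarith⟩)
          rcases this with v | v <;> linarith [v]
        · exact b0' (ext2 u w)
        · have := gg.mpr (Or.inr ⟨u, w⟩)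
          rcases this with v | v <;> nlinarith [v]
      · have := gg.mpr (Or.inl u)
        rcases this with v | v <;> nlinarith [v]

end Pool.Agent.Lib.MP_34a884_an.Uni
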