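import Mathlib
import Pool.Agent.Lib.MP_34a884_an.UCount

/-! Words in the two elementary nonnegative unimodular matrices. -/

namespace Pool.Agent.Lib.MP_34a884_an.Uni

open Matrix

/-- The two elementary matrices. -/
def gen (b : Bool) : M := bif b then !![1, 1; 0, 1] else !![1, 0; 1, 1]
/-- The swap or the identity. -/
def Jp (b : Bool) : M := bif b then !![0, 1; 1, 0] else 1
/-- Product of a word in the elementary matrices. -/
def G (l : List Bool) : M := (l.map gen).prod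

@[simp] lemma G_nil : G [] = 1 := rfl
@[simp] lemma G_cons (b : Bool) (l : List Bool) : G (b :: l) = gen b * G l := by simp [G]
lemma G_append (l l' : List Bool) : G (l ++ l') = G l * G l' := by simp [G]

lemma Mext {A B : M} (h00 : A 0 0 = B 0 0) (h01 : A 0 1 = B 0 1) (h10 : A 1 0 = B 1 0)
    (h11 : A 1 1 = B 1 1) : A = B := by
  ext i j; fin_cases i <;> fin_cases j <;> assumption

lemma gen_det (b : Bool) : (gen b).det = 1 := by cases b <;> simp [gen, det_fin_two]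
lemma G_det (l : List Bool) : (G l).det = 1 := by
  induction l with
  | nil => simp
  | cons b l ih => simp [gen_det, ih]
lemma Jp_det (b : Bool) : (Jp b).det = bif b then -1 else 1 := by
  cases b <;> simp [Jp, det_fin_two]
lemma Jp_T (b : Bool) : (Jp b)ᵀ = Jp b := by
  cases b <;> refine Mext ?_ ?_ ?_ ?_ <;> simp [Jp]
lemma Jp_mul (b c : Bool) : Jp b * Jp c = Jp (xor b c) := by
  cases b <;> cases c <;> refine Mext ?_ ?_ ?_ ?_ <;> simp [Jp]
lemma Jp_sq (b : Bool) : Jp b * Jp b = 1 := by rw [Jp_mul]; simp [Jp]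
lemma Jp_gen (b c : Bool) : Jp b * gen c = gen (xor b c) * Jp b := by
  cases b <;> cases c <;> refine Mext ?_ ?_ ?_ ?_ <;> simp [Jp, gen]
lemma Jp_G (b : Bool) (l : List Bool) : Jp b * G l = G (l.map (xor b)) * Jp b := by
  induction l with
  | nil => simp
  | cons c l ih =>
    rw [G_cons, ← Matrix.mul_assoc, Jp_gen, Matrix.mul_assoc, ih, List.map_cons, G_cons,
      Matrix.mul_assoc]
lemma gen_T (b : Bool) : (gen b)ᵀ = gen (!b) := by
  cases b <;> refine Mext ?_ ?_ ?_ ?_ <;> simp [gen]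
lemma G_T (l : List Bool) : (G l)ᵀ = G (l.map not).reverse := by
  induction l with
  | nil => simp
  | cons c l ih => simp [G_append, ih, gen_T]

/-- Nonnegative vectors. -/
def Nn (v : V) : Prop := 0 ≤ v 0 ∧ 0 ≤ v 1
/-- Positive vectors. -/
def Pos (v : V) : Prop := 0 < v 0 ∧ 0 < v 1

lemma gt0 (v : V) : (gen true *ᵥ v) 0 = v 0 + v 1 := by simp [mv, gen]
lemma gt1 (v : V) : (gen true *ᵥ v) 1 = v 1 := by simp [mv, gen]
lemma gf0 (v : V) : (gen false *ᵥ v) 0 = v 0 := by simp [mv, gen]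
lemma gf1 (v : V) : (gen false *ᵥ v) 1 = v 0 + v 1 := by simp [mv, gen]

lemma G_ge (l : List Bool) {v : V} (h : Nn v) : v 0 ≤ (G l *ᵥ v) 0 ∧ v 1 ≤ (G l *ᵥ v) 1 := by
  induction l with
  | nil => simp
  | cons b l ih =>
    rw [G_cons, ← Matrix.mulVec_mulVec]
    cases b
    · rw [gf0, gf1]; exact ⟨ih.1, by linarith [ih.1, ih.2, h.1]⟩
    · rw [gt0, gt1]; exact ⟨by linarith [ih.1, ih.2, h.2], ih.2⟩

lemma Jp_nn (b : Bool) {v : V} (h : Nn v) : Nn (Jp b *ᵥ v) := by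
  cases b
  · simpa [Jp] using h
  · simpa [Jp, Nn, mv] using h.symm
lemma Jp_pos (b : Bool) {v : V} (h : Pos v) : Pos (Jp b *ᵥ v) := by
  cases b
  · simpa [Jp] using h
  · simpa [Jp, Pos, mv] using h.symm
lemma Jp_tr (b : Bool) {v : V} (h : v 0 * v 1 ≤ 0) : (Jp b *ᵥ v) 0 * (Jp b *ᵥ v) 1 ≤ 0 := by
  cases b
  · simpa [Jp] using h
  · simpa [Jp, mv, mul_comm] using h

/-- Determinant of two vectors. -/
def d2 (p q : V) : ℝ := p 0 * q 1 - p 1 * q 0

lemma d2_mul (A : M) (p q : V) : d2 (A *ᵥ p) (A *ᵥ q) = A.det * d2 p q := by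
  simp only [d2, mv, det_fin_two]; ring

lemma key_ineq (u s s' : List Bool) {p q : V} (hp : Nn p) (hq : Nn q) :
    p 0 * q 0 + p 0 * q 1 + p 1 * q 1 ≤
      d2 (G (u ++ true :: s) *ᵥ p) (G (u ++ false :: s') *ᵥ q) := by
  rw [G_append, G_append, ← Matrix.mulVec_mulVec, ← Matrix.mulVec_mulVec, d2_mul, G_det, one_mul,
    G_cons, G_cons, ← Matrix.mulVec_mulVec, ← Matrix.mulVec_mulVec]
  obtain ⟨a0, a1⟩ := G_ge s hp
  obtain ⟨b0, b1⟩ := G_ge s' hq
  simp only [d2, gt0, gt1, gf0, gf1]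
  have c1 := mul_le_mul a0 b0 hq.1 (hp.1.trans a0)
  have c2 := mul_le_mul a0 b1 hq.2 (hp.1.trans a0)
  have c3 := mul_le_mul a1 b1 hq.2 (hp.2.trans a1)
  linarith

lemma tri (l l' : List Bool) : (∃ r, l' = l ++ r) ∨ (∃ r, l = l' ++ r) ∨
    (∃ u s s', l = u ++ true :: s ∧ l' = u ++ false :: s') ∨
    (∃ u s s', l = u ++ false :: s ∧ l' = u ++ true :: s') := by
  induction l generalizing l' with
  | nil => exact Or.inl ⟨l', rfl⟩
  | cons b l ih =>
    cases l' with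
    | nil => exact Or.inr (Or.inl ⟨_, rfl⟩)
    | cons b' l' =>
      by_cases h : b = b'
      · subst h
        rcases ih l' with ⟨r, rfl⟩ | ⟨r, rfl⟩ | ⟨u, s, s', rfl, rfl⟩ | ⟨u, s, s', rfl, rfl⟩
        · exact Or.inl ⟨r, rfl⟩
        · exact Or.inr (Or.inl ⟨r, rfl⟩)
        · exact Or.inr (Or.inr (Or.inl ⟨b :: u, s, s', rfl, rfl⟩))
        · exact Or.inr (Or.inr (Or.inr ⟨b :: u, s, s', rfl, rfl⟩))
      · cases b <;> cases b'
        · exact absurd rfl h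
        · exact Or.inr (Or.inr (Or.inr ⟨[], l, l', rfl, rfl⟩))
        · exact Or.inr (Or.inr (Or.inl ⟨[], l, l', rfl, rfl⟩))
        · exact absurd rfl h

lemma tri_len {l l' : List Bool} (h : l.length = l'.length) : l = l' ∨
    (∃ u s s', l = u ++ true :: s ∧ l' = u ++ false :: s') ∨
    (∃ u s s', l = u ++ false :: s ∧ l' = u ++ true :: s') := by
  rcases tri l l' with ⟨r, rfl⟩ | ⟨r, rfl⟩ | h | h
  · left; simpa using h
  · left; simpa using h
  · exact Or.inr (Or.inl h)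
  · exact Or.inr (Or.inr h)

/-- A word of length at most `n` in the elementary matrices, times a swap or not. -/
def Rep (n : ℕ) (x : M) : Prop := ∃ (l : List Bool) (ε : Bool), l.length ≤ n ∧ x = G l * Jp ε

lemma Rep.mono {n m : ℕ} {x : M} (h : Rep n x) (hn : n ≤ m) : Rep m x := by
  obtain ⟨l, ε, h1, h2⟩ := h
  exact ⟨l, ε, h1.trans hn, h2⟩
lemma Rep.congr {n : ℕ} {x y : M} (h : Rep n x) (e : x = y) : Rep n y := e ▸ h
lemma Rep.one : Rep 0 1 := ⟨[], false, le_rfl, by simp [Jp]⟩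
lemma Rep.J (ε : Bool) : Rep 0 (Jp ε) := ⟨[], ε, le_rfl, by simp⟩
lemma Rep.G (l : List Bool) : Rep l.length (G l) := ⟨l, false, le_rfl, by simp [Jp]⟩
lemma Rep.mul {n m : ℕ} {x y : M} (h : Rep n x) (h' : Rep m y) : Rep (n + m) (x * y) := by
  obtain ⟨l, ε, h1, rfl⟩ := h
  obtain ⟨l', ε', h1', rfl⟩ := h'
  refine ⟨l ++ l'.map (xor ε), xor ε ε', by simp; omega, ?_⟩
  rw [Matrix.mul_assoc, ← Matrix.mul_assoc (Jp ε), Jp_G, G_append, Matrix.mul_assoc,
    Matrix.mul_assoc, Jp_mul]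
lemma Rep.T {n : ℕ} {x : M} (h : Rep n x) : Rep n xᵀ := by
  obtain ⟨l, ε, h1, rfl⟩ := h
  rw [transpose_mul, Jp_T, G_T]
  exact ((Rep.J ε).mul (Rep.G _)).mono (by simpa using h1)
lemma Rep.det {n : ℕ} {x : M} (h : Rep n x) : x.det ≠ 0 := by
  obtain ⟨l, ε, -, rfl⟩ := h
  cases ε <;> simp [G_det, Jp_det]
lemma G_pos (l : List Bool) {v : V} (hv : Pos v) : Pos (G l *ᵥ v) := by
  obtain ⟨a, b⟩ := G_ge l (v := v) ⟨hv.1.le, hv.2.le⟩
  exact ⟨hv.1.trans_le a, hv.2.trans_le b⟩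
lemma Rep.pos {n : ℕ} {x : M} (h : Rep n x) {v : V} (hv : Pos v) : Pos (x *ᵥ v) := by
  obtain ⟨l, ε, -, rfl⟩ := h
  rw [← Matrix.mulVec_mulVec]
  exact G_pos l (Jp_pos ε hv)
lemma Rep.nn {n : ℕ} {x : M} (h : Rep n x) {v : V} (hv : Nn v) : Nn (x *ᵥ v) := by
  obtain ⟨l, ε, -, rfl⟩ := h
  rw [← Matrix.mulVec_mulVec]
  have h1 := Jp_nn ε hv
  obtain ⟨a, b⟩ := G_ge l h1
  exact ⟨h1.1.trans a, h1.2.trans b⟩

lemma rep_fin (n : ℕ) : ∃ z, Le {x | Rep n x} z := by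
  refine Le.of_finite (((List.finite_length_le Bool n).prod (Set.finite_univ (α := Bool))).image
    (fun t => G t.1 * Jp t.2) |>.subset ?_)
  rintro _ ⟨l, ε, h, rfl⟩
  exact ⟨(l, ε), ⟨h, trivial⟩, rfl⟩

lemma chain_aux {u s s' : List Bool} {g g' d : V} (hd : d ≠ 0) (hg : Nn g) (hg' : Nn g')
    (e : G (u ++ true :: s) *ᵥ g = d) (e' : G (u ++ false :: s') *ᵥ g' = d) :
    g 0 = 0 ∧ g' 0 ≠ 0 := by
  have k := key_ineq u s s' hg hg'
  rw [e, e'] at k
  have z : d2 d d = 0 := by simp only [d2]; ring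
  have g0 : g ≠ 0 := by rintro rfl; exact hd (by simpa using e.symm)
  have g0' : g' ≠ 0 := by rintro rfl; exact hd (by simpa using e'.symm)
  have a1 := mul_nonneg hg.1 hg'.1
  have a2 := mul_nonneg hg.1 hg'.2
  have a3 := mul_nonneg hg.2 hg'.2
  have h1 : g 0 = 0 := by
    by_contra h
    exact g0' (ext2 ((mul_eq_zero.mp (by linarith : g 0 * g' 0 = 0)).resolve_left h)
      ((mul_eq_zero.mp (by linarith : g 0 * g' 1 = 0)).resolve_left h))
  refine ⟨h1, fun h2 => ?_⟩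
  rcases mul_eq_zero.mp (by linarith : g 1 * g' 1 = 0) with h | h
  · exact g0 (ext2 h1 h)
  · exact g0' (ext2 h2 h)

lemma chain (n : ℕ) {d : V} (hd : d ≠ 0) :
    Le {x | Rep n x ∧ ∃ g, Nn g ∧ x *ᵥ g = d} (2 * 2 * (n + 1)) := by
  classical
  refine Le.code (fun (t : (Bool × Bool) × ℕ) x => ∃ l g, l.length = t.2 ∧ x = G l * Jp t.1.1 ∧
    Nn g ∧ G l *ᵥ g = d ∧ (t.1.2 = true ↔ g 0 = 0)) ((Le.bool.prod Le.bool).prod (Le.nat n)) ?_ ?_
  · rintro _ ⟨⟨l, ε, h, rfl⟩, g, hg, e⟩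
    rw [← Matrix.mulVec_mulVec] at e
    exact ⟨((ε, decide ((Jp ε *ᵥ g) 0 = 0)), l.length), ⟨⟨trivial, trivial⟩, h⟩, l, _, rfl, rfl,
      Jp_nn ε hg, e, by simp⟩
  · rintro t _ _ ⟨l, g, h1, rfl, hg, e, b⟩ ⟨l', g', h1', rfl, hg', e', b'⟩
    rcases tri_len (h1.trans h1'.symm) with rfl | ⟨u, s, s', rfl, rfl⟩ | ⟨u, s, s', rfl, rfl⟩
    · rfl
    · obtain ⟨a1, a2⟩ := chain_aux hd hg hg' e e'
      exact absurd (b'.mp (b.mpr a1)) a2
    · obtain ⟨a1, a2⟩ := chain_aux hd hg' hg e' e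
      exact absurd (b.mp (b'.mpr a1)) a2

lemma chain_co (n : ℕ) {d : V} (hd : d ≠ 0) :
    Le {c : V | 0 < c 0 * c 1 ∧ ∃ x, Rep n x ∧ xᵀ *ᵥ c = d} (8 * (n + 1)) := by
  refine (Le.code (fun x c => x.det ≠ 0 ∧ x *ᵥ c = d)
    ((chain n hd).union (chain n (neg_ne_zero.mpr hd))) ?_ ?_).mono subset_rfl (by omega)
  · rintro c ⟨hc, x, hx, e⟩
    refine ⟨xᵀ, ?_, hx.T.det, e⟩
    rcases pos_and_pos_or_neg_and_neg_of_mul_pos hc with h | h
    · exact Or.inl ⟨hx.T, c, ⟨h.1.le, h.2.le⟩, e⟩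
    · exact Or.inr ⟨hx.T, -c, ⟨by simpa using h.1.le, by simpa using h.2.le⟩, by
        rw [Matrix.mulVec_neg, e]⟩
  · rintro x c c' ⟨h, e⟩ ⟨-, e'⟩
    exact inj h (e.trans e'.symm)

lemma chain_tr (n : ℕ) {a : V} (ha : a ≠ 0) :
    Le {x | Rep n x ∧ (x *ᵥ a) 0 * (x *ᵥ a) 1 ≤ 0} (8 * (n + 1)) := by
  have r0 : rot a ≠ 0 := fun h => ha (ext2 (congrFun h 1) (by simpa using congrFun h 0))
  refine (((chain n r0).union (chain n (neg_ne_zero.mpr r0))).image transpose).mono ?_ (by omega)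
  rintro x ⟨hx, h⟩
  refine ⟨xᵀ, ?_, transpose_transpose x⟩
  set u := x *ᵥ a with hu
  have u0 : u ≠ 0 := ne0 hx.det ha
  let ζ : V := ![|u 1|, |u 0|]
  have z0 : ζ ≠ 0 := fun h => u0 (ext2 (abs_eq_zero.mp (congrFun h 1))
    (abs_eq_zero.mp (congrFun h 0)))
  have e : ζ ⬝ᵥ u = 0 := by
    rw [dot]
    change |u 1| * u 0 + |u 0| * u 1 = 0
    rcases mul_nonpos_iff.mp h with ⟨h0, h1⟩ | ⟨h0, h1⟩
    · rw [abs_of_nonneg h0, abs_of_nonpos h1]; ring
    · rw [abs_of_nonpos h0, abs_of_nonneg h1]; ring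
  rw [hu, dotT, dotProduct_comm] at e
  obtain ⟨τ, hτ⟩ := perp ha e
  have t0 : τ ≠ 0 := by
    rintro rfl
    exact ne0 hx.T.det z0 (by simpa using hτ)
  have hn : Nn (|τ|⁻¹ • ζ) :=
    ⟨mul_nonneg (inv_nonneg.mpr (abs_nonneg _)) (abs_nonneg _),
      mul_nonneg (inv_nonneg.mpr (abs_nonneg _)) (abs_nonneg _)⟩
  rcases lt_or_gt_of_ne t0 with g | g
  · refine Or.inr ⟨hx.T, _, hn, ?_⟩
    rw [Matrix.mulVec_smul, hτ, smul_smul, abs_of_neg g, inv_neg, neg_mul, inv_mul_cancel₀ t0]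
    simp
  · refine Or.inl ⟨hx.T, _, hn, ?_⟩
    rw [Matrix.mulVec_smul, hτ, smul_smul, abs_of_pos g, inv_mul_cancel₀ t0, one_smul]

lemma dual {g : M} (hg : g.det = 1) {c d : V} (e : gᵀ *ᵥ c = d) (u : V) :
    c ⬝ᵥ u = d2 u (g *ᵥ rot d) := by
  subst e
  rw [det_fin_two] at hg
  simp only [dot, d2, mv, rot0, rot1, transpose_apply]
  linear_combination (-(c 0 * u 0) - c 1 * u 1) * hg

lemma no_div {u s s' : List Bool} {v v' c c' d : V} (hv : Pos v) (hv' : Pos v') (hd : d ≠ 0)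
    (ht : d 0 * d 1 ≤ 0) (e : (G (u ++ true :: s))ᵀ *ᵥ c = d)
    (e' : (G (u ++ false :: s'))ᵀ *ᵥ c' = d) (A : c' ⬝ᵥ (G (u ++ true :: s) *ᵥ v) ≤ d ⬝ᵥ v)
    (B : c ⬝ᵥ (G (u ++ false :: s') *ᵥ v') ≤ d ⬝ᵥ v') : False := by
  have hp := sq_pos' hd
  rcases mul_nonpos_iff.mp ht with ⟨h0, h1⟩ | ⟨h0, h1⟩
  · have k := key_ineq u s s' (p := v) (q := rot d) ⟨hv.1.le, hv.2.le⟩ ⟨by simpa using h1, h0⟩
    rw [← dual (G_det _) e'] at k
    have k2 := k.trans A
    simp only [dot, rot0, rot1] at k2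
    have a1 := mul_nonneg hv.1.le (neg_nonneg.mpr h1)
    have a2 := mul_nonneg hv.2.le h0
    have a3 := mul_nonneg hv.2.le (neg_nonneg.mpr h1)
    have b1 : d 1 = 0 := by
      have : v 0 * -d 1 = 0 := by nlinarith
      simpa [hv.1.ne'] using this
    have b2 : d 0 = 0 := by
      have : v 1 * d 0 = 0 := by nlinarith
      simpa [hv.2.ne'] using this
    exact hd (ext2 b2 b1)
  · have k := key_ineq u s s' (p := -rot d) (q := v') ⟨by simpa using h1, by simpa using h0⟩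
      ⟨hv'.1.le, hv'.2.le⟩
    have k1 := dual (G_det _) e (G (u ++ false :: s') *ᵥ v')
    have k3 : d2 (G (u ++ true :: s) *ᵥ (-rot d)) (G (u ++ false :: s') *ᵥ v') =
        d2 (G (u ++ false :: s') *ᵥ v') (G (u ++ true :: s) *ᵥ rot d) := by
      rw [Matrix.mulVec_neg]; simp only [d2, Pi.neg_apply]; ring
    rw [k3, ← k1] at k
    have k2 := k.trans B
    simp only [dot, rot0, rot1, Pi.neg_apply] at k2
    have a1 := mul_nonneg h1 hv'.1.le
    have a2 := mul_nonneg (neg_nonneg.mpr h0) hv'.2.le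
    have a3 := mul_nonneg (neg_nonneg.mpr h0) hv'.1.le
    have b1 : d 1 = 0 := by
      have : d 1 * v' 0 = 0 := by nlinarith
      simpa [hv'.1.ne'] using this
    have b2 : d 0 = 0 := by
      have : -d 0 * v' 1 = 0 := by nlinarith
      simpa [hv'.2.ne'] using this
    exact hd (ext2 b2 b1)

lemma sep (u : List Bool) : ∃ φ : V, (∀ s v, Pos v → 0 < φ ⬝ᵥ (G (u ++ true :: s) *ᵥ v)) ∧
    ∀ s v, Pos v → φ ⬝ᵥ (G (u ++ false :: s) *ᵥ v) < 0 := by
  have E : ∀ p, (-rot (G u *ᵥ ![1, 1])) ⬝ᵥ (G u *ᵥ p) = p 0 - p 1 := by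
    intro p
    have := d2_mul (G u) p ![1, 1]
    rw [G_det] at this
    simp only [d2, dot, rot0, rot1, Pi.neg_apply] at this ⊢
    simp only [cons_val_zero, cons_val_one] at this
    linarith
  refine ⟨-rot (G u *ᵥ ![1, 1]), fun s v hv => ?_, fun s v hv => ?_⟩
  · rw [G_append, G_cons, ← Matrix.mulVec_mulVec, ← Matrix.mulVec_mulVec, E, gt0, gt1]
    linarith [(G_pos s hv).1]
  · rw [G_append, G_cons, ← Matrix.mulVec_mulVec, ← Matrix.mulVec_mulVec, E, gf0, gf1]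
    linarith [(G_pos s hv).2]

lemma euclid_aux (N : ℕ) : ∀ a b c d : ℤ, 0 ≤ a → 0 ≤ b → 0 ≤ c → 0 ≤ d → a + b + c + d ≤ N →
    (a * d - b * c = 1 ∨ a * d - b * c = -1) →
    ∃ n, Rep n !![(a : ℝ), b; c, d] := by
  induction N with
  | zero =>
    intro a b c d ha hb hc hd h e
    have : a = 0 := by omega
    have : b = 0 := by omega
    subst_vars
    simp at e
  | succ N ih =>
    intro a b c d ha hb hc hd h e
    push_cast at h
    by_cases h1 : c ≤ a ∧ d ≤ b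
    · have : 0 < c + d := by
        by_contra g
        have : c = 0 := by omega
        have : d = 0 := by omega
        subst_vars
        simp at e
      obtain ⟨n, hn⟩ := ih (a - c) (b - d) c d (by omega) (by omega) hc hd (by omega)
        (by rcases e with e | e
            · left; linarith
            · right; linarith)
      refine ⟨_, Rep.congr ((Rep.G [true]).mul hn) ?_⟩
      refine Mext ?_ ?_ ?_ ?_ <;> simp [gen]
    by_cases h2 : a ≤ c ∧ b ≤ d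
    · have : 0 < a + b := by
        by_contra g
        have : a = 0 := by omega
        have : b = 0 := by omega
        subst_vars
        simp at e
      obtain ⟨n, hn⟩ := ih a b (c - a) (d - b) ha hb (by omega) (by omega) (by omega)
        (by rcases e with e | e
            · left; linarith
            · right; linarith)
      refine ⟨_, Rep.congr ((Rep.G [false]).mul hn) ?_⟩
      refine Mext ?_ ?_ ?_ ?_ <;> simp [gen]
    by_cases h3 : c < a
    · have h4 : b < d := by omega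
      have k : (c + 1) * (b + 1) ≤ a * d := mul_le_mul h3 h4 (by omega) ha
      have b0 : b = 0 := by rcases e with e | e <;> nlinarith
      have c0 : c = 0 := by rcases e with e | e <;> nlinarith
      subst_vars
      have ad : a * d = 1 := by rcases e with e | e <;> nlinarith
      have a1 : a = 1 := by nlinarith
      have d1 : d = 1 := by nlinarith
      subst_vars
      refine ⟨0, Rep.congr Rep.one ?_⟩
      refine Mext ?_ ?_ ?_ ?_ <;> simp
    · have h4 : d < b := by omega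
      have h5 : a < c := by omega
      have k : (d + 1) * (a + 1) ≤ b * c := mul_le_mul h4 h5 (by omega) hb
      have b0 : a = 0 := by rcases e with e | e <;> nlinarith
      have c0 : d = 0 := by rcases e with e | e <;> nlinarith
      subst_vars
      have ad : b * c = 1 := by rcases e with e | e <;> nlinarith
      have a1 : b = 1 := by nlinarith
      have d1 : c = 1 := by nlinarith
      subst_vars
      refine ⟨0, Rep.congr (Rep.J true) ?_⟩
      refine Mext ?_ ?_ ?_ ?_ <;> simp [Jp]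

lemma euclid (U : Matrix (Fin 2) (Fin 2) ℤ) (h : ∀ i j, 0 ≤ U i j) (e : U.det = 1 ∨ U.det = -1) :
    ∃ n, Rep n (U.map (Int.cast : ℤ → ℝ)) := by
  rw [det_fin_two] at e
  obtain ⟨n, hn⟩ := euclid_aux (U 0 0 + U 0 1 + U 1 0 + U 1 1).toNat (U 0 0) (U 0 1) (U 1 0)
    (U 1 1) (h _ _) (h _ _) (h _ _) (h _ _) (by omega) e
  refine ⟨n, Rep.congr hn ?_⟩
  refine Mext ?_ ?_ ?_ ?_ <;> simp

end Pool.Agent.Lib.MP_34a884_an.Uni
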