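import Mathlib
import Pool.Agent.Lib.MP_34a884_an.UFarey

/-! Graph directed systems of nonnegative unimodular matrices: counting exposed points. -/

namespace Pool.Agent.Lib.MP_34a884_an.Uni

open Matrix

/-- A directed multigraph whose edges carry nonnegative unimodular matrices. -/
structure Sys (E Ω : Type) where
  src : E → Ω
  tgt : E → Ω
  U : E → M
  len : ℕ
  hU : ∀ e, Rep len (U e)

namespace Sys

variable {E Ω : Type} (S : Sys E Ω)

/-- The product along a word. -/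
def W (w : List E) : M := (w.map S.U).prod

@[simp] lemma W_nil : S.W [] = 1 := rfl
@[simp] lemma W_cons (e : E) (w : List E) : S.W (e :: w) = S.U e * S.W w := by simp [W]
lemma W_append (x y : List E) : S.W (x ++ y) = S.W x * S.W y := by simp [W]

lemma W_rep (w : List E) : Rep (S.len * w.length) (S.W w) := by
  induction w with
  | nil => exact Rep.one
  | cons e w ih =>
    rw [W_cons]
    exact ((S.hU e).mul ih).mono (by simp [Nat.mul_succ, add_comm])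

lemma W_rep' {w : List E} {k : ℕ} (h : w.length ≤ k) : Rep (S.len * k) (S.W w) :=
  (S.W_rep w).mono (Nat.mul_le_mul_left _ h)

lemma W_det (w : List E) : (S.W w).det = ((w : Multiset E).map fun e => (S.U e).det).prod := by
  induction w with
  | nil => simp
  | cons e w ih => rw [W_cons, det_mul, ih]; simp

/-- Paths from `i` to `j`; the last letter acts first. -/
def Path (i : Ω) : Ω → List E → Prop
  | j, [] => j = i
  | j, e :: w => j = S.tgt e ∧ Path i (S.src e) w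

lemma path_append (i j : Ω) (x y : List E) :
    S.Path i j (x ++ y) ↔ ∃ m, S.Path i m y ∧ S.Path m j x := by
  induction x generalizing j with
  | nil => simp [Path]
  | cons e x ih =>
    simp only [List.cons_append, Path, ih]
    constructor
    · rintro ⟨h, m, h1, h2⟩; exact ⟨m, h1, h, h2⟩
    · rintro ⟨m, h1, h, h2⟩; exact ⟨h, m, h1, h2⟩

lemma path_uniq {i j j' : Ω} {w : List E} (h : S.Path i j w) (h' : S.Path i j' w) : j = j' := by
  cases w with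
  | nil => exact h.trans h'.symm
  | cons e w => exact h.1.trans h'.1.symm

/-- Paths with prescribed ends and prescribed multiset of edges. -/
def In (i j : Ω) (π : Multiset E) (w : List E) : Prop := S.Path i j w ∧ (w : Multiset E) = π

/-- The points of one class. -/
def Pts (i j : Ω) (π : Multiset E) (a : V) : Set V := {p | ∃ w, S.In i j π w ∧ p = S.W w *ᵥ a}

/-- Optimal words. -/
def Opt (i j : Ω) (π : Multiset E) (a c : V) (w : List E) : Prop :=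
  S.In i j π w ∧ ∀ w', S.In i j π w' → c ⬝ᵥ (S.W w' *ᵥ a) ≤ c ⬝ᵥ (S.W w *ᵥ a)

variable {S}

lemma In.len {i j : Ω} {π : Multiset E} {w : List E} (h : S.In i j π w) :
    w.length = Multiset.card π := by rw [← h.2]; rfl

lemma In.swap {i j m : Ω} {π : Multiset E} {x y y' : List E} (h : S.In i j π (x ++ y))
    (hx : S.Path m j x) (hy : S.In i m y y') : S.In i j π (x ++ y') :=
  ⟨(S.path_append ..).mpr ⟨m, hy.1, hx⟩, by
    rw [← h.2, ← Multiset.coe_add, ← Multiset.coe_add, hy.2]⟩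

lemma dotW (c a : V) (x y : List E) :
    c ⬝ᵥ (S.W (x ++ y) *ᵥ a) = ((S.W x)ᵀ *ᵥ c) ⬝ᵥ (S.W y *ᵥ a) := by
  rw [W_append, ← Matrix.mulVec_mulVec, dotT]

lemma pts_fin [Finite E] (i j : Ω) (π : Multiset E) (a : V) : (S.Pts i j π a).Finite := by
  refine ((List.finite_length_eq E (Multiset.card π)).image fun w => S.W w *ᵥ a).subset ?_
  rintro _ ⟨w, h, rfl⟩
  exact ⟨w, h.len, rfl⟩

/-- Covectors carried to `d` by an optimal prefix. -/
def Pre (S : Sys E Ω) (i j : Ω) (π : Multiset E) (a d : V) : Set V :=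
  {c | ∃ x y, S.Opt i j π a c (x ++ y) ∧ (S.W x)ᵀ *ᵥ c = d}

lemma exch {i j m : Ω} {π : Multiset E} {a c c' d : V} {x y x' y' : List E}
    (h : S.Opt i j π a c (x ++ y)) (h' : S.Opt i j π a c' (x' ++ y')) (p : S.Path m j x)
    (q' : S.Path i m y') (e : (x : Multiset E) = x') (e1 : (S.W x)ᵀ *ᵥ c = d)
    (e2 : (S.W x')ᵀ *ᵥ c' = d) : c' ⬝ᵥ (S.W x *ᵥ (S.W y *ᵥ a)) ≤ d ⬝ᵥ (S.W y *ᵥ a) := by
  have e3 : (y' : Multiset E) = y := by
    have := h.1.2.trans h'.1.2.symm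
    rw [← Multiset.coe_add, ← Multiset.coe_add, e] at this
    exact (add_left_cancel this).symm
  have a1 := h'.2 _ h.1
  have a2 := h.2 _ (h.1.swap p ⟨q', e3⟩)
  rw [dotW c' a x', e2, W_append, ← Matrix.mulVec_mulVec] at a1
  rw [dotW, dotW, e1] at a2
  exact a1.trans a2

lemma conv {l : List Bool} {ε : Bool} {c d : V} (e : (G l * Jp ε)ᵀ *ᵥ c = d) :
    (G l)ᵀ *ᵥ c = Jp ε *ᵥ d := by
  rw [← e, transpose_mul, Jp_T, Matrix.mulVec_mulVec, ← Matrix.mul_assoc, Jp_sq, Matrix.one_mul]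

lemma conv2 (ε : Bool) (d v : V) : (Jp ε *ᵥ d) ⬝ᵥ (Jp ε *ᵥ v) = d ⬝ᵥ v := by
  rw [dotT, Jp_T, Matrix.mulVec_mulVec, Jp_sq, Matrix.one_mulVec]

variable [Fintype E] [Fintype Ω]

/-- Number of pairs (state, multiset). -/
def cl (E Ω : Type) [Fintype E] [Fintype Ω] (k : ℕ) : ℕ :=
  Fintype.card Ω * (k + 1) ^ Fintype.card E

lemma le_cl (k : ℕ) :
    Le ((Set.univ : Set Ω) ×ˢ {σ : Multiset E | Multiset.card σ ≤ k}) (cl E Ω k) :=
  Le.univ.prod (Le.mset k)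

lemma pre_tr {i j : Ω} {π : Multiset E} {k : ℕ} (hk : Multiset.card π ≤ k) {a : V} (ha : Pos a)
    {d : V} (hd : d ≠ 0) (ht : d 0 * d 1 ≤ 0) :
    Le (Pre S i j π a d) (cl E Ω k * (S.len * k + 1)) := by
  refine Le.code (fun (t : (Ω × Multiset E) × ℕ) c => ∃ x y l ε, S.Opt i j π a c (x ++ y) ∧
    (S.W x)ᵀ *ᵥ c = d ∧ S.Path t.1.1 j x ∧ S.Path i t.1.1 y ∧ (x : Multiset E) = t.1.2 ∧
    l.length = t.2 ∧ S.W x = G l * Jp ε) ((le_cl k).prod (Le.nat _)) ?_ ?_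
  · rintro c ⟨x, y, h, e⟩
    obtain ⟨m, h1, h2⟩ := (S.path_append ..).mp h.1.1
    have hx : x.length ≤ k := by
      have := h.1.len
      rw [List.length_append] at this
      omega
    obtain ⟨l, ε, hl, e'⟩ := S.W_rep' hx
    exact ⟨((m, x), l.length), ⟨⟨trivial, hx⟩, hl⟩, x, y, l, ε, h, e, h2, h1, rfl, rfl, e'⟩
  · rintro t c c' ⟨x, y, l, ε, h, e, p, q, m, n, r⟩ ⟨x', y', l', ε', h', e', p', q', m', n', r'⟩
    have hε : ε = ε' := by
      have := S.W_det x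
      rw [m, ← m', ← S.W_det, r, r', det_mul, det_mul, G_det, G_det, Jp_det, Jp_det] at this
      cases ε <;> cases ε' <;> simp at this ⊢ <;> norm_num at this
    subst hε
    have A := exch h h' p q' (m.trans m'.symm) e e'
    have B := exch h' h p' q (m'.trans m.symm) e' e
    have v1 := Jp_pos ε ((S.W_rep y).pos ha)
    have v2 := Jp_pos ε ((S.W_rep y').pos ha)
    have d0 := ne0 (Rep.J ε).det hd
    have d1 := Jp_tr ε ht
    rw [r, ← Matrix.mulVec_mulVec, ← conv2 ε d] at A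
    rw [r', ← Matrix.mulVec_mulVec, ← conv2 ε d] at B
    rw [r] at e
    rw [r'] at e'
    rcases tri_len (n.trans n'.symm) with rfl | ⟨u, s, s', rfl, rfl⟩ | ⟨u, s, s', rfl, rfl⟩
    · exact inj ((Rep.G l).mul (Rep.J ε)).T.det (e.trans e'.symm)
    · exact (no_div v1 v2 d0 d1 (conv e) (conv e') A B).elim
    · exact (no_div v2 v1 d0 d1 (conv e') (conv e) B A).elim

omit [Fintype E] [Fintype Ω] in
lemma split_co (x : List E) (c : V) (hc : c 0 * c 1 ≤ 0) :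
    ((S.W x)ᵀ *ᵥ c) 0 * ((S.W x)ᵀ *ᵥ c) 1 ≤ 0 ∨ ∃ x1 t x2, x = x1 ++ t :: x2 ∧
      ((S.W x1)ᵀ *ᵥ c) 0 * ((S.W x1)ᵀ *ᵥ c) 1 ≤ 0 ∧
      0 < ((S.U t)ᵀ *ᵥ ((S.W x1)ᵀ *ᵥ c)) 0 * ((S.U t)ᵀ *ᵥ ((S.W x1)ᵀ *ᵥ c)) 1 := by
  induction x generalizing c with
  | nil => left; simpa using hc
  | cons t x ih =>
    by_cases h : ((S.U t)ᵀ *ᵥ c) 0 * ((S.U t)ᵀ *ᵥ c) 1 ≤ 0
    · have E : ∀ z : List E, (S.W (t :: z))ᵀ *ᵥ c = (S.W z)ᵀ *ᵥ ((S.U t)ᵀ *ᵥ c) := fun z => by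
        rw [W_cons, transpose_mul, Matrix.mulVec_mulVec]
      rcases ih _ h with g | ⟨x1, t', x2, rfl, g1, g2⟩
      · left; rwa [E]
      · exact Or.inr ⟨t :: x1, t', x2, rfl, by rwa [E], by rwa [E]⟩
    · exact Or.inr ⟨[], t, x, rfl, by simpa using hc, by simpa using h⟩

/-- Bound for the multiplicity. -/
def mult (S : Sys E Ω) (k : ℕ) : ℕ :=
  8 * (S.len * k + 1) + cl E Ω k * (S.len * k + 1) +
    8 * (S.len * k + 1) * Fintype.card E * (cl E Ω k * (S.len * k + 1))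

lemma pre_le {i j : Ω} {π : Multiset E} {k : ℕ} (hk : Multiset.card π ≤ k) {a : V} (ha : Pos a)
    {d : V} (hd : d ≠ 0) : Le (Pre S i j π a d) (mult S k) := by
  have h1 := chain_co (S.len * k) hd
  have h2 : Le {c | d 0 * d 1 ≤ 0 ∧ c ∈ Pre S i j π a d} (cl E Ω k * (S.len * k + 1)) := by
    by_cases ht : d 0 * d 1 ≤ 0
    · exact (pre_tr hk ha hd ht).mono (fun _ h => h.2) le_rfl
    · exact ⟨∅, by simp, fun _ h => absurd h.1 ht⟩
  have h3 : Le {d1 : V | d1 ≠ 0 ∧ d1 0 * d1 1 ≤ 0 ∧ ∃ t, (S.U t)ᵀ *ᵥ d1 ∈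
      {c : V | 0 < c 0 * c 1 ∧ ∃ x, Rep (S.len * k) x ∧ xᵀ *ᵥ c = d}}
      (8 * (S.len * k + 1) * Fintype.card E) := by
    refine Le.code (fun (t : V × E) d1 => (S.U t.2)ᵀ *ᵥ d1 = t.1) (h1.prod Le.univ) ?_ ?_
    · rintro d1 ⟨-, -, t, ht⟩
      exact ⟨(_, t), ⟨ht, trivial⟩, rfl⟩
    · rintro t x y e e'
      exact inj (S.hU t.2).T.det (e.trans e'.symm)
  have h4 := Le.cover (S := {c | ∃ d1 ∈ _, c ∈ Pre S i j π a d1}) (Pre S i j π a) h3
    (fun d1 h => pre_tr hk ha h.1 h.2.1) fun _ h => h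
  refine ((h1.union h2).union h4).mono ?_ le_rfl
  rintro c ⟨x, y, h, e⟩
  have hl := h.1.len
  rw [List.length_append] at hl
  by_cases hc : c 0 * c 1 ≤ 0
  · rcases split_co (S := S) x c hc with g | ⟨x1, t, x2, rfl, g1, g2⟩
    · rw [e] at g
      exact Or.inl (Or.inr ⟨g, x, y, h, e⟩)
    · refine Or.inr ⟨(S.W x1)ᵀ *ᵥ c, ⟨?_, g1, t, g2, S.W x2, S.W_rep' ?_, ?_⟩, x1, t :: x2 ++ y,
        by simpa using h, rfl⟩
      · refine ne0 (S.W_rep x1).T.det ?_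
        rintro rfl
        exact hd (by simpa using e.symm)
      · simp only [List.length_append, List.length_cons] at hl
        omega
      · rw [← e, W_append, W_cons, transpose_mul, transpose_mul, ← Matrix.mulVec_mulVec,
          ← Matrix.mulVec_mulVec]
  · exact Or.inl (Or.inl ⟨not_le.mp hc, S.W x, S.W_rep' (by omega), e⟩)

/-- Terminal directions of the ladder. -/
def Term (S : Sys E Ω) (i : Ω) (k : ℕ) (a : V) : Set V :=
  {b | ∃ t ∈ ((((Set.univ : Set Ω) ×ˢ {σ : Multiset E | Multiset.card σ ≤ k}) ×ˢ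
      ((Set.univ : Set Ω) ×ˢ {σ : Multiset E | Multiset.card σ ≤ k})) ×ˢ
      ({x | Rep S.len x} ×ˢ {x | Rep S.len x})),
      (∃ φ : V, (∀ p ∈ (fun v => t.2.1 *ᵥ v) '' S.Pts i t.1.1.1 t.1.1.2 a, 0 < φ ⬝ᵥ p) ∧
        ∀ p ∈ (fun v => t.2.2 *ᵥ v) '' S.Pts i t.1.2.1 t.1.2.2 a, φ ⬝ᵥ p < 0) ∧
      b ∈ Tie ((fun v => t.2.1 *ᵥ v) '' S.Pts i t.1.1.1 t.1.1.2 a)
        ((fun v => t.2.2 *ᵥ v) '' S.Pts i t.1.2.1 t.1.2.2 a)} ∪
  {b | ∃ t ∈ ((Set.univ : Set Ω) ×ˢ {σ : Multiset E | Multiset.card σ ≤ k}) ×ˢ {x | Rep S.len x},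
      b ∈ TieP a ((fun v => t.2 *ᵥ v) '' S.Pts i t.1.1 t.1.2 a)}

lemma term_cov {z : ℕ} (hz : Le {x | Rep S.len x} z) (i : Ω) (k : ℕ) (a : V) :
    Cov (Term S i k a) (cl E Ω k * cl E Ω k * (z * z) * 2 + cl E Ω k * z * 4) := by
  refine Cov.union ?_ ?_
  · refine Cov.cover _ (((le_cl k).prod (le_cl k)).prod (hz.prod hz)) ?_ fun _ h => h
    intro t _
    by_cases h : ∃ φ : V, (∀ p ∈ (fun v => t.2.1 *ᵥ v) '' S.Pts i t.1.1.1 t.1.1.2 a, 0 < φ ⬝ᵥ p) ∧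
        ∀ p ∈ (fun v => t.2.2 *ᵥ v) '' S.Pts i t.1.2.1 t.1.2.2 a, φ ⬝ᵥ p < 0
    · obtain ⟨φ, h1, h2⟩ := h
      obtain ⟨F, f1, f2⟩ := tie_sep h1 h2
      exact ⟨F, f1, fun c hc => f2 c hc.2⟩
    · exact ⟨∅, ⟨∅, by simp, by simp⟩, fun c hc => absurd hc.1 h⟩
  · exact Cov.cover _ ((le_cl k).prod hz) (fun t _ => tie_pt _ _) fun _ h => h

omit [Fintype E] [Fintype Ω] in
lemma supp {i j m : Ω} {π : Multiset E} {a c : V} {x x' y' : List E} {z : M}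
    (h' : S.Opt i j π a c (x' ++ y')) (p : S.Path m j x') (e : S.W x' = S.W x * z) :
    ((S.W x)ᵀ *ᵥ c) ⬝ᵥ (z *ᵥ (S.W y' *ᵥ a)) = c ⬝ᵥ (S.W (x' ++ y') *ᵥ a) ∧
    ∀ q ∈ (fun v => z *ᵥ v) '' S.Pts i m y' a,
      ((S.W x)ᵀ *ᵥ c) ⬝ᵥ q ≤ ((S.W x)ᵀ *ᵥ c) ⬝ᵥ (z *ᵥ (S.W y' *ᵥ a)) := by
  have E : ∀ y, ((S.W x)ᵀ *ᵥ c) ⬝ᵥ (z *ᵥ (S.W y *ᵥ a)) = c ⬝ᵥ (S.W (x' ++ y) *ᵥ a) := fun y => by
    rw [W_append, e, ← Matrix.mulVec_mulVec, ← Matrix.mulVec_mulVec, dotT (S.W x)]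
  refine ⟨E _, ?_⟩
  rintro _ ⟨_, ⟨y, hy, rfl⟩, rfl⟩
  simp only
  rw [E, E]
  exact h'.2 _ (h'.1.swap p hy)

omit [Fintype E] [Fintype Ω] in
lemma ladder {i j : Ω} {π : Multiset E} {k : ℕ} (hk : Multiset.card π ≤ k) {a c : V} (ha : Pos a)
    (hc : c ≠ 0) (N : ℕ) : ∀ (x y x' y' : List E) (z : M), y.length + y'.length ≤ N →
    S.Opt i j π a c (x ++ y) → S.Opt i j π a c (x' ++ y') →
    S.W (x ++ y) *ᵥ a ≠ S.W (x' ++ y') *ᵥ a → Rep S.len z → S.W x' = S.W x * z →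
    ∃ b ∈ Term S i k a, c ∈ Pre S i j π a b := by
  have base : ∀ (x x' y' : List E) (z : M), S.Opt i j π a c (x ++ []) →
      S.Opt i j π a c (x' ++ y') → S.W (x ++ []) *ᵥ a ≠ S.W (x' ++ y') *ᵥ a → Rep S.len z →
      S.W x' = S.W x * z → ∃ b ∈ Term S i k a, c ∈ Pre S i j π a b := by
    intro x x' y' z h h' hne hz e
    obtain ⟨m, q', p'⟩ := (S.path_append ..).mp h'.1.1
    obtain ⟨s1, s2⟩ := supp h' p' e
    have hl := h'.1.len
    rw [List.length_append] at hl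
    have v : ((S.W x)ᵀ *ᵥ c) ⬝ᵥ (z *ᵥ (S.W y' *ᵥ a)) = ((S.W x)ᵀ *ᵥ c) ⬝ᵥ a := by
      rw [s1, ← dotT, le_antisymm (h.2 _ h'.1) (h'.2 _ h.1), List.append_nil]
    refine ⟨_, Or.inr ⟨((m, y'), z), ⟨⟨trivial, by simp; omega⟩, hz⟩, ne0 (S.W_rep x).T.det hc,
      _, ⟨_, ⟨y', ⟨q', rfl⟩, rfl⟩, rfl⟩, fun g => hne ?_, v, fun q hq => v ▸ s2 q hq⟩,
      x, [], h, rfl⟩
    simp only at g
    rw [W_append _ x', e, ← Matrix.mulVec_mulVec, ← Matrix.mulVec_mulVec, g, List.append_nil]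
  induction N with
  | zero =>
    intro x y x' y' z hN h h' hne hz e
    obtain rfl : y = [] := List.length_eq_zero_iff.mp (by omega)
    exact base x x' y' z h h' hne hz e
  | succ N ih =>
    intro x y x' y' z hN h h' hne hz e
    cases y with
    | nil => exact base x x' y' z h h' hne hz e
    | cons t y =>
      have as : x ++ t :: y = (x ++ [t]) ++ y := by simp
      have ew : S.W (x ++ [t]) = S.W x * S.U t := by simp [W_append]
      obtain ⟨l, ε, hl, r⟩ := S.hU t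
      obtain ⟨l', ε', hl', r'⟩ := id hz
      simp only [List.length_cons] at hN
      have fin : (∃ φ : V, (∀ v, Pos v → 0 < φ ⬝ᵥ (G l *ᵥ v)) ∧
          ∀ v, Pos v → φ ⬝ᵥ (G l' *ᵥ v) < 0) → ∃ b ∈ Term S i k a, c ∈ Pre S i j π a b := by
        rintro ⟨φ, f1, f2⟩
        have h0 := h
        rw [as] at h
        obtain ⟨m, q, p⟩ := (S.path_append ..).mp h.1.1
        obtain ⟨m', q', p'⟩ := (S.path_append ..).mp h'.1.1
        obtain ⟨s1, s2⟩ := supp h p ew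
        obtain ⟨s1', s2'⟩ := supp h' p' e
        have n1 := h.1.len
        have n2 := h'.1.len
        rw [List.length_append] at n1 n2
        refine ⟨_, Or.inl ⟨(((m, y), (m', y')), (S.U t, z)),
          ⟨⟨⟨trivial, by simp; omega⟩, ⟨trivial, by simp; omega⟩⟩, S.hU t, hz⟩, ⟨φ, ?_, ?_⟩,
          ne0 (S.W_rep x).T.det hc, _, ⟨_, ⟨y, ⟨q, rfl⟩, rfl⟩, rfl⟩, _,
          ⟨_, ⟨y', ⟨q', rfl⟩, rfl⟩, rfl⟩, ?_, s2, s2'⟩, x, _, h0, rfl⟩
        · rintro _ ⟨_, ⟨w, -, rfl⟩, rfl⟩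
          simp only
          rw [r, ← Matrix.mulVec_mulVec]
          exact f1 _ (Jp_pos ε ((S.W_rep w).pos ha))
        · rintro _ ⟨_, ⟨w, -, rfl⟩, rfl⟩
          simp only
          rw [r', ← Matrix.mulVec_mulVec]
          exact f2 _ (Jp_pos ε' ((S.W_rep w).pos ha))
        · simp only
          rw [s1, s1']
          exact le_antisymm (h.2 _ h'.1) (h'.2 _ h.1)
      rcases tri l l' with ⟨u, rfl⟩ | ⟨u, rfl⟩ | ⟨u, s, s', rfl, rfl⟩ | ⟨u, s, s', rfl, rfl⟩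
      · rw [as] at h hne
        refine ih _ y x' y' (Jp ε * (G u * Jp ε')) (by omega) h h' hne
          (((Rep.J ε).mul ((Rep.G u).mul (Rep.J ε'))).mono (by simp at hl' ⊢; omega)) ?_
        rw [e, ew, r, r', G_append]
        simp only [Matrix.mul_assoc]
        rw [← Matrix.mul_assoc (Jp ε) (Jp ε), Jp_sq, Matrix.one_mul]
      · rw [as] at h hne
        refine ih x' y' _ y (Jp ε' * (G u * Jp ε)) (by omega) h' h hne.symm
          (((Rep.J ε').mul ((Rep.G u).mul (Rep.J ε))).mono (by simp at hl ⊢; omega)) ?_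
        rw [e, ew, r, r', G_append]
        simp only [Matrix.mul_assoc]
        rw [← Matrix.mul_assoc (Jp ε') (Jp ε'), Jp_sq, Matrix.one_mul]
      · obtain ⟨φ, f1, f2⟩ := sep u
        exact fin ⟨φ, f1 s, f2 s'⟩
      · obtain ⟨φ, f1, f2⟩ := sep u
        refine fin ⟨-φ, fun v hv => ?_, fun v hv => ?_⟩
        · rw [neg_dotProduct]; linarith [f2 s v hv]
        · rw [neg_dotProduct]; linarith [f1 s' v hv]

omit [Fintype E] [Fintype Ω] in
lemma term_ne {i : Ω} {k : ℕ} {a b : V} (h : b ∈ Term S i k a) : b ≠ 0 := by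
  rcases h with ⟨_, -, -, h⟩ | ⟨_, -, h⟩ <;> exact h.1

lemma core_pos : ∃ f, PolyB f ∧ ∀ (k : ℕ) (i j : Ω) (π : Multiset E) (a : V),
    Multiset.card π ≤ k → Pos a → Le (Ex (S.Pts i j π a)) (f k) := by
  obtain ⟨z, hz⟩ := rep_fin S.len
  refine ⟨fun k => (cl E Ω k * cl E Ω k * (z * z) * 2 + cl E Ω k * z * 4) * mult S k * 2 + 1,
    ?_, fun k i j π a hk ha => ex_le (pts_fin i j π a) ?_⟩
  · have h1 : PolyB (cl E Ω) := (PolyB.const _).mul (PolyB.pow _)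
    have h2 : PolyB fun k => S.len * k + 1 := ((PolyB.const _).mul PolyB.id).add (PolyB.const _)
    have h3 : PolyB (mult S) := (((PolyB.const _).mul h2).add (h1.mul h2)).add
      ((((PolyB.const _).mul h2).mul (PolyB.const _)).mul (h1.mul h2))
    exact ((((((h1.mul h1).mul (PolyB.const _)).mul (PolyB.const _)).add
      ((h1.mul (PolyB.const _)).mul (PolyB.const _))).mul h3).mul (PolyB.const _)).add
      (PolyB.const _)
  · obtain ⟨F, f1, f2⟩ := term_cov hz i k a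
    refine ⟨{c | ∃ d ∈ {d ∈ F | d ≠ 0}, c ∈ Pre S i j π a d},
      Le.cover (Pre S i j π a) (f1.mono (fun _ h => h.1) le_rfl)
        (fun d hd => pre_le hk ha hd.2) fun _ h => h, ?_⟩
    rintro c ⟨c0, _, ⟨w, hw, rfl⟩, _, ⟨w', hw', rfl⟩, hne, e, m⟩
    have o1 : S.Opt i j π a c ([] ++ w) := ⟨hw, fun v hv => m _ ⟨v, hv, rfl⟩⟩
    have o2 : S.Opt i j π a c ([] ++ w') := ⟨hw', fun v hv => (m _ ⟨v, hv, rfl⟩).trans e.ge⟩
    obtain ⟨b, hb, x, y, o, e'⟩ := ladder hk ha c0 _ [] w [] w' 1 le_rfl o1 o2 hne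
      (Rep.one.mono (Nat.zero_le _)) (by simp)
    obtain ⟨d, hd, s, hs, rfl⟩ := f2 b hb
    refine ⟨s⁻¹ • c, ⟨d, ⟨hd, ?_⟩, x, y, ⟨o.1, fun v hv => ?_⟩, ?_⟩, s, hs, ?_⟩
    · rintro rfl
      exact term_ne hb (by simp)
    · simp only [smul_dotProduct, smul_eq_mul]
      exact mul_le_mul_of_nonneg_left (o.2 v hv) (inv_nonneg.mpr hs.le)
    · rw [Matrix.mulVec_smul, e', smul_smul, inv_mul_cancel₀ hs.ne', one_smul]
    · rw [smul_smul, mul_inv_cancel₀ hs.ne', one_smul]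

omit [Fintype E] [Fintype Ω] in
lemma split_pt (a : V) (w : List E) : (S.W w *ᵥ a) 0 * (S.W w *ᵥ a) 1 ≤ 0 ∨
    ∃ x v, w = x ++ v ∧ 0 < (S.W v *ᵥ a) 0 * (S.W v *ᵥ a) 1 ∧ (v = [] ∨ ∃ t v', v = t :: v' ∧
      (S.W v' *ᵥ a) 0 * (S.W v' *ᵥ a) 1 ≤ 0) := by
  induction w with
  | nil =>
    by_cases h : (S.W [] *ᵥ a) 0 * (S.W [] *ᵥ a) 1 ≤ 0
    · exact Or.inl h
    · exact Or.inr ⟨[], [], rfl, not_le.mp h, Or.inl rfl⟩
  | cons t w ih =>
    rcases ih with g | ⟨x, v, rfl, g⟩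
    · by_cases h : (S.W (t :: w) *ᵥ a) 0 * (S.W (t :: w) *ᵥ a) 1 ≤ 0
      · exact Or.inl h
      · exact Or.inr ⟨[], t :: w, rfl, not_le.mp h, Or.inr ⟨t, w, rfl, g⟩⟩
    · exact Or.inr ⟨t :: x, v, rfl, g⟩

lemma core : ∃ f, PolyB f ∧ ∀ (k : ℕ) (i j : Ω) (π : Multiset E) (a : V),
    Multiset.card π ≤ k → Le (Ex (S.Pts i j π a)) (f k) := by
  obtain ⟨f, hf, H⟩ := core_pos (S := S)
  have H2 : ∀ (k : ℕ) (i j : Ω) (π : Multiset E) (a : V), Multiset.card π ≤ k → 0 < a 0 * a 1 →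
      Le (Ex (S.Pts i j π a)) (f k) := by
    intro k i j π a hk ha
    rcases pos_and_pos_or_neg_and_neg_of_mul_pos ha with h | h
    · exact H k i j π a hk h
    · have := Ex.img (A := -1) (by simp [det_fin_two])
        (H k i j π (-a) hk ⟨by simpa using h.1, by simpa using h.2⟩)
      refine this.mono (subset_of_eq (congrArg Ex ?_)) le_rfl
      ext p
      constructor
      · rintro ⟨w, hw, rfl⟩
        exact ⟨_, ⟨w, hw, rfl⟩, by simp [Matrix.mulVec_neg, Matrix.neg_mulVec]⟩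
      · rintro ⟨_, ⟨w, hw, rfl⟩, rfl⟩
        exact ⟨w, hw, by simp [Matrix.mulVec_neg, Matrix.neg_mulVec]⟩
  have h1 : PolyB (cl E Ω) := (PolyB.const _).mul (PolyB.pow _)
  have h2 : PolyB fun k => 8 * (S.len * k + 1) :=
    (PolyB.const _).mul (((PolyB.const _).mul PolyB.id).add (PolyB.const _))
  refine ⟨fun k => 1 + (8 * (S.len * k + 1) +
    cl E Ω k * (1 + Fintype.card E * (8 * (S.len * k + 1))) * f k),
    (PolyB.const _).add (h2.add ((h1.mul ((PolyB.const _).add ((PolyB.const _).mul h2))).mul hf)),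
    fun k i j π a hk => ?_⟩
  by_cases ha : a = 0
  · refine (Le.one ?_).mono subset_rfl (by simp)
    rintro _ ⟨⟨w, -, rfl⟩, -⟩ _ ⟨⟨w', -, rfl⟩, -⟩
    simp [ha]
  have c1 := chain_tr (S.len * k) ha
  have c2 := (Le.one (S := {a}) (by simp)).union
    (((Le.univ (α := E)).prod c1).image fun t => S.U t.1 *ᵥ (t.2 *ᵥ a))
  have c3 := Le.cover (S := {p | ∃ t ∈ _, p ∈ _})
    (fun t : (Ω × Multiset E) × V => {p | 0 < t.2 0 * t.2 1 ∧ p ∈ Ex (S.Pts t.1.1 j t.1.2 t.2)})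
    ((le_cl (E := E) (Ω := Ω) k).prod c2) (fun t ht => by
      by_cases h : 0 < t.2 0 * t.2 1
      · exact (H2 k _ _ _ _ ht.1.2 h).mono (fun _ h => h.2) le_rfl
      · exact ⟨∅, Nat.zero_le _, fun _ g => absurd g.1 h⟩) fun _ h => h
  refine ((c1.image fun x => x *ᵥ a).union c3).mono ?_ (Nat.le_add_left _ _)
  rintro p hp
  obtain ⟨w, hw, rfl⟩ := hp.1
  have hl := hw.len
  rcases split_pt (S := S) a w with g | ⟨x, v, rfl, g, g'⟩
  · exact Or.inl ⟨_, ⟨S.W_rep' (by omega), g⟩, rfl⟩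
  · obtain ⟨m, q, p⟩ := (S.path_append ..).mp hw.1
    rw [List.length_append] at hl
    refine Or.inr ⟨((m, x), S.W v *ᵥ a), ⟨⟨trivial, by simp; omega⟩, ?_⟩, g, Ex.sub hp ?_
      ⟨x, ⟨p, rfl⟩, by rw [W_append, Matrix.mulVec_mulVec]⟩⟩
    · rcases g' with rfl | ⟨t, v', rfl, g'⟩
      · left; simp
      · refine Or.inr ⟨(t, S.W v'), ⟨trivial, S.W_rep' ?_, g'⟩, by
          rw [W_cons, ← Matrix.mulVec_mulVec]⟩
        simp only [List.length_cons] at hl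
        omega
    · rintro _ ⟨x', hx', rfl⟩
      refine ⟨x' ++ v, ⟨(S.path_append ..).mpr ⟨m, q, hx'.1⟩, ?_⟩, by
        rw [W_append, Matrix.mulVec_mulVec]⟩
      rw [← hw.2, ← Multiset.coe_add, ← Multiset.coe_add, hx'.2]

end Sys

end Pool.Agent.Lib.MP_34a884_an.Uni
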