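import Mathlib
import Pool.Agent.Lib.MP_34a884_an.UCore

/-! From graph directed systems to property (PV). -/

namespace Pool.Agent.Lib.MP_34a884_an.Uni

open Matrix

/-- The points reached by products of length `k`. -/
def Orb (F : Set M) (k : ℕ) (a : V) : Set V :=
  {x | ∃ L : List M, L.length = k ∧ (∀ T ∈ L, T ∈ F) ∧ x = L.prod *ᵥ a}

/-- Polynomial bound on the number of exposed points. -/
def PB (F : Set M) : Prop := ∃ f, PolyB f ∧ ∀ k n a, n ≤ k → Le (Ex (Orb F n a)) (f k)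

lemma pb_graph (F : Finset M) {Ω : Type} [Fintype Ω] (i0 : Ω) (B : Ω → M)
    (hB : ∀ i, (B i).det ≠ 0) (hF : ∀ T ∈ F, T.det ≠ 0)
    (h : ∀ T ∈ F, ∀ i, ∃ (j : Ω) (c : ℝ) (U : M), (∃ n, Rep n U) ∧ T * B i = c • (B j * U)) :
    PB ↑F := by
  classical
  have h' : ∀ e : F × Ω, ∃ (j : Ω) (c : ℝ) (U : M) (n : ℕ), Rep n U ∧
      e.1.1 * B e.2 = c • (B j * U) := by
    intro e
    obtain ⟨j, c, U, ⟨n, hn⟩, hU⟩ := h e.1.1 e.1.2 e.2
    exact ⟨j, c, U, n, hn, hU⟩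
  choose δ lam U n hn hU using h'
  let S : Sys (F × Ω) Ω := ⟨Prod.snd, δ, U, Finset.univ.sup n, fun e =>
    (hn e).mono (Finset.le_sup (Finset.mem_univ e))⟩
  have key : ∀ (w : List (F × Ω)) (j : Ω), S.Path i0 j w →
      (w.map fun e => e.1.1).prod * B i0 = ((w : Multiset (F × Ω)).map lam).prod • (B j * S.W w) := by
    intro w
    induction w with
    | nil => rintro j rfl; simp
    | cons e w ih =>
      rintro j ⟨rfl, hp⟩
      rw [List.map_cons, List.prod_cons, Matrix.mul_assoc, ih _ hp, Matrix.mul_smul,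
        ← Matrix.mul_assoc, hU e, Sys.W_cons]
      simp [smul_smul, Matrix.mul_assoc, mul_comm, S]
  have ex : ∀ L : List M, (∀ T ∈ L, T ∈ F) → ∃ (w : List (F × Ω)) (j : Ω), S.Path i0 j w ∧
      (w.map fun e => e.1.1) = L := by
    intro L
    induction L with
    | nil => exact fun _ => ⟨[], i0, rfl, rfl⟩
    | cons T L ih =>
      intro hL
      obtain ⟨w, j, h1, h2⟩ := ih fun T hT => hL T (List.mem_cons_of_mem _ hT)
      exact ⟨(⟨T, hL T List.mem_cons_self⟩, j) :: w, _, ⟨rfl, h1⟩, by simp [h2]⟩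
  have l0 : ∀ e, lam e ≠ 0 := by
    intro e he
    have := congrArg Matrix.det (hU e)
    rw [he, zero_smul, det_mul, det_zero] at this
    exact mul_ne_zero (hF _ e.1.2) (hB _) this
  obtain ⟨f, hf, H⟩ := Sys.core (S := S)
  refine ⟨fun k => Sys.cl (F × Ω) Ω k * f k,
    ((PolyB.const _).mul (PolyB.pow _)).mul hf, fun k m a hm => ?_⟩
  obtain ⟨a', rfl⟩ : ∃ a', a = B i0 *ᵥ a' := ⟨(B i0)⁻¹ *ᵥ a, by
    rw [Matrix.mulVec_mulVec, Matrix.mul_nonsing_inv _ (isUnit_iff_ne_zero.mpr (hB i0)),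
      Matrix.one_mulVec]⟩
  have pt : ∀ (w : List (F × Ω)) (j : Ω), S.Path i0 j w →
      (w.map fun e => e.1.1).prod *ᵥ (B i0 *ᵥ a') =
        (((w : Multiset (F × Ω)).map lam).prod • B j) *ᵥ (S.W w *ᵥ a') := by
    intro w j hp
    rw [Matrix.mulVec_mulVec, key w j hp, Matrix.mulVec_mulVec, Matrix.smul_mul]
  refine Le.cover (fun t : Ω × Multiset (F × Ω) => Ex ((fun v => ((t.2.map lam).prod • B t.1) *ᵥ v) ''
    S.Pts i0 t.1 t.2 a')) (Sys.le_cl k) (fun t ht => Ex.img ?_ (H k _ _ _ _ ht.2)) ?_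
  · rw [det_smul]
    refine mul_ne_zero (pow_ne_zero _ (Multiset.prod_ne_zero ?_)) (hB _)
    simp only [Multiset.mem_map, not_exists, not_and]
    exact fun e _ => l0 e
  · intro x hx
    obtain ⟨L, hL, hL', rfl⟩ := hx.1
    obtain ⟨w, j, hp, rfl⟩ := ex L hL'
    rw [List.length_map] at hL
    refine ⟨(j, w), ⟨trivial, by simp; omega⟩, Ex.sub hx ?_ ⟨_, ⟨w, ⟨hp, rfl⟩, rfl⟩,
      (pt w j hp).symm⟩⟩
    rintro _ ⟨_, ⟨w', hw', rfl⟩, rfl⟩
    refine ⟨w'.map fun e => e.1.1, ?_, ?_, ?_⟩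
    · rw [List.length_map, hw'.len, ← hL]; rfl
    · intro T hT
      obtain ⟨e, -, rfl⟩ := List.mem_map.mp hT
      exact e.1.2
    · rw [pt w' j hw'.1, hw'.2]

lemma rank_one {T : M} (h : T.det = 0) : ∃ b φ : V, ∀ v, T *ᵥ v = (φ ⬝ᵥ v) • b := by
  rw [det_fin_two] at h
  by_cases h0 : T 0 0 = 0
  · by_cases h1 : T 1 0 = 0
    · exact ⟨![T 0 1, T 1 1], ![0, 1], fun v => ext2 (by rw [mv, dot]; simp [h0, mul_comm])
        (by rw [mv, dot]; simp [h1, mul_comm])⟩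
    · have h2 : T 0 1 = 0 := by
        rw [h0] at h
        exact (mul_eq_zero.mp (by linarith : T 0 1 * T 1 0 = 0)).resolve_right h1
      exact ⟨![0, 1], ![T 1 0, T 1 1], fun v => ext2 (by rw [mv, dot]; simp [h0, h2])
        (by rw [mv, dot]; simp)⟩
  · refine ⟨![1, T 1 0 / T 0 0], ![T 0 0, T 0 1], fun v => ext2 (by rw [mv, dot]; simp) ?_⟩
    simp only [mv, dot, Pi.smul_apply, smul_eq_mul, cons_val_zero, cons_val_one]
    field_simp
    linear_combination (v 1) * h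

lemma orb_fin {F : Set M} (hF : F.Finite) (k : ℕ) (a : V) : (Orb F k a).Finite := by
  have := hF.to_subtype
  refine ((List.finite_length_eq F k).image fun w => (w.map Subtype.val).prod *ᵥ a).subset ?_
  rintro _ ⟨L, h1, h2, rfl⟩
  exact ⟨L.attachWith _ h2, by simpa using h1, by simp⟩

lemma split_sing (L : List M) : (∀ T ∈ L, T.det ≠ 0) ∨
    ∃ L1 T L2, L = L1 ++ T :: L2 ∧ (∀ T ∈ L1, T.det ≠ 0) ∧ T.det = 0 := by
  induction L with
  | nil => left; simp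
  | cons T L ih =>
    by_cases h : T.det = 0
    · exact Or.inr ⟨[], T, L, rfl, by simp, h⟩
    rcases ih with g | ⟨L1, T', L2, rfl, g1, g2⟩
    · left; simpa [h] using g
    · exact Or.inr ⟨T :: L1, T', L2, rfl, by simpa [h] using g1, g2⟩

lemma pb_sing (F : Finset M) (h : PB {T | T ∈ F ∧ T.det ≠ 0}) : PB ↑F := by
  classical
  obtain ⟨f, hf, H⟩ := h
  have : ∀ T : M, ∃ b φ : V, T.det = 0 → ∀ v, T *ᵥ v = (φ ⬝ᵥ v) • b := by
    intro T
    by_cases h : T.det = 0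
    · obtain ⟨b, φ, e⟩ := rank_one h
      exact ⟨b, φ, fun _ => e⟩
    · exact ⟨0, 0, fun g => absurd g h⟩
  choose b φ hb using this
  refine ⟨fun k => f k + (k + 1) * F.card * 2 * f k, hf.add
    ((((PolyB.id.add (PolyB.const _)).mul (PolyB.const _)).mul (PolyB.const _)).mul hf),
    fun k n a hn => ?_⟩
  have ext : ∀ t : (ℕ × M) × Bool, ∃ s : ℝ, ∀ p ∈ Orb ↑F (n - t.1.1 - 1) a,
      (∃ q ∈ Orb ↑F (n - t.1.1 - 1) a, s = φ t.1.2 ⬝ᵥ q) ∧
        bif t.2 then φ t.1.2 ⬝ᵥ p ≤ s else s ≤ φ t.1.2 ⬝ᵥ p := by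
    rintro ⟨⟨m, T⟩, β⟩
    rcases (Orb ↑F (n - m - 1) a).eq_empty_or_nonempty with e | e
    · exact ⟨0, by simp [e]⟩
    cases β
    · obtain ⟨q, hq, g⟩ := Set.exists_min_image _ (φ T ⬝ᵥ ·) (orb_fin F.finite_toSet _ a) e
      exact ⟨_, fun p hp => ⟨⟨q, hq, rfl⟩, g p hp⟩⟩
    · obtain ⟨q, hq, g⟩ := Set.exists_max_image _ (φ T ⬝ᵥ ·) (orb_fin F.finite_toSet _ a) e
      exact ⟨_, fun p hp => ⟨⟨q, hq, rfl⟩, g p hp⟩⟩
  choose s hs using ext
  have c1 := Le.cover (S := {p | ∃ t ∈ _, p ∈ _})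
    (fun t : (ℕ × M) × Bool => Ex (Orb {T | T ∈ F ∧ T.det ≠ 0} t.1.1 (s t • b t.1.2)))
    (((Le.nat k).prod (⟨F, le_rfl, subset_rfl⟩ : Le (↑F : Set M) F.card)).prod Le.bool)
    (fun t ht => H k _ _ ht.1.1) fun _ h => h
  refine ((H k n a hn).union c1).mono ?_ le_rfl
  intro x hx
  obtain ⟨L, hL, hL', rfl⟩ := hx.1
  rcases split_sing L with g | ⟨L1, T, L2, rfl, g1, g2⟩
  · refine Or.inl (Ex.sub hx ?_ ⟨L, hL, fun T hT => ⟨hL' T hT, g T hT⟩, rfl⟩)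
    rintro _ ⟨L', h1, h2, rfl⟩
    exact ⟨L', h1, fun T hT => (h2 T hT).1, rfl⟩
  simp only [List.length_append, List.length_cons] at hL
  have hT : T ∈ F := hL' T (by simp)
  have m2 : L2.prod *ᵥ a ∈ Orb ↑F (n - L1.length - 1) a :=
    ⟨L2, by omega, fun T hT => hL' T (by simp [hT]), rfl⟩
  have E : ∀ L1 L2 : List M, (L1 ++ T :: L2).prod *ᵥ a =
      L1.prod *ᵥ ((φ T ⬝ᵥ (L2.prod *ᵥ a)) • b T) := fun L1 L2 => by
    rw [List.prod_append, List.prod_cons, ← Matrix.mulVec_mulVec, ← Matrix.mulVec_mulVec, hb T g2]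
  have sub : ∀ β, Orb {T | T ∈ F ∧ T.det ≠ 0} L1.length (s ((L1.length, T), β) • b T) ⊆
      Orb ↑F n a := by
    rintro β _ ⟨L', h1, h2, rfl⟩
    obtain ⟨⟨_, ⟨L3, h3, h4, rfl⟩, e⟩, -⟩ := hs ((L1.length, T), β) _ m2
    refine ⟨L' ++ T :: L3, by simp at h3 ⊢; omega, ?_, by rw [E, e]⟩
    intro T' hT'
    simp only [List.mem_append, List.mem_cons] at hT'
    rcases hT' with g | rfl | g
    · exact (h2 _ g).1
    · exact hT
    · exact h4 _ g
  have mem : ∀ β, L1.prod *ᵥ (s ((L1.length, T), β) • b T) ∈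
      Orb {T | T ∈ F ∧ T.det ≠ 0} L1.length (s ((L1.length, T), β) • b T) := fun β =>
    ⟨L1, rfl, fun T hT => ⟨hL' T (by simp [hT]), g1 T hT⟩, rfl⟩
  obtain ⟨g, hg⟩ := hx.2
  obtain ⟨β, hβ⟩ : ∃ β, L1.prod *ᵥ (s ((L1.length, T), β) • b T) = (L1 ++ T :: L2).prod *ᵥ a := by
    have u1 := (hs ((L1.length, T), true) _ m2).2
    have u2 := (hs ((L1.length, T), false) _ m2).2
    simp only [cond_true, cond_false] at u1 u2
    rcases le_total 0 (g ⬝ᵥ (L1.prod *ᵥ b T)) with u | u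
    · refine ⟨true, (hg _ (sub _ (mem _))).resolve_right (not_lt.mpr ?_)⟩
      rw [E]
      simp only [Matrix.mulVec_smul, dotProduct_smul, smul_eq_mul]
      exact mul_le_mul_of_nonneg_right u1 u
    · refine ⟨false, (hg _ (sub _ (mem _))).resolve_right (not_lt.mpr ?_)⟩
      rw [E]
      simp only [Matrix.mulVec_smul, dotProduct_smul, smul_eq_mul]
      exact mul_le_mul_of_nonpos_right u2 u
  exact Or.inr ⟨((L1.length, T), β), ⟨⟨by simp; omega, hT⟩, trivial⟩,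
    Ex.sub hx (sub β) (hβ ▸ mem β)⟩

lemma extreme_ex {X : Set V} (hX : X.Finite) {x : V}
    (hx : x ∈ (convexHull ℝ X).extremePoints ℝ) : x ∈ Ex X := by
  have h1 : x ∈ X := extremePoints_convexHull_subset hx
  refine ⟨h1, ?_⟩
  have h2 := ((convex_convexHull ℝ X).mem_extremePoints_iff_mem_sdiff_convexHull_sdiff.mp hx).2
  have h3 : x ∉ convexHull ℝ (X \ {x}) := fun h =>
    h2 (convexHull_mono (Set.sdiff_subset_sdiff_left (subset_convexHull ℝ X)) h)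
  have h4 : IsClosed (convexHull ℝ (X \ {x})) :=
    ((hX.subset Set.sdiff_subset).isCompact_convexHull ℝ).isClosed
  obtain ⟨f, c, f1, f2⟩ := geometric_hahn_banach_closed_point (convex_convexHull ℝ _) h4 h3
  have E : ∀ y : V, (![f ![1, 0], f ![0, 1]] : V) ⬝ᵥ y = f y := fun y => by
    have : y = y 0 • ![1, 0] + y 1 • ![0, 1] := ext2 (by simp) (by simp)
    conv_rhs => rw [this]
    simp only [dot, map_add, map_smul, smul_eq_mul, cons_val_zero, cons_val_one]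
    ring
  refine ⟨![f ![1, 0], f ![0, 1]], fun y hy => ?_⟩
  by_cases hyx : y = x
  · exact Or.inl hyx
  · rw [E, E]
    exact Or.inr ((f1 y (subset_convexHull ℝ _ ⟨hy, hyx⟩)).trans f2)

lemma pv_of_pb {F : Set M} (hF : F.Finite) (h : PB F) : ∃ α d : ℝ, 0 < α ∧ 0 < d ∧ ∃ k0 : ℕ,
    1 ≤ k0 ∧ ∀ k : ℕ, k0 ≤ k → ∀ a : V, ((convexHull ℝ (Orb F k a)).extremePoints ℝ).Finite ∧
      (((convexHull ℝ (Orb F k a)).extremePoints ℝ).ncard : ℝ) ≤ α * (k : ℝ) ^ d := by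
  obtain ⟨f, ⟨C, D, hf⟩, H⟩ := h
  refine ⟨(C + 1) * 2 ^ (D + 1), ((D + 1 : ℕ) : ℝ), by positivity, by positivity, 1, le_rfl,
    fun k hk a => ?_⟩
  obtain ⟨f1, f2⟩ := ((H k k a le_rfl).mono (fun x hx => extreme_ex (orb_fin hF k a) hx)
    (hf k)).ncard
  refine ⟨f1, ?_⟩
  have h2 : C * (k + 1) ^ D ≤ (C + 1) * 2 ^ (D + 1) * k ^ (D + 1) := by
    rw [mul_assoc, ← mul_pow]
    calc C * (k + 1) ^ D ≤ (C + 1) * (2 * k) ^ D := by gcongr <;> omega
      _ ≤ (C + 1) * (2 * k) ^ (D + 1) := by gcongr <;> omega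
  rw [Real.rpow_natCast]
  exact_mod_cast f2.trans h2

end Pool.Agent.Lib.MP_34a884_an.Uni
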