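import Mathlib
import Pool.Agent.Lib.MP_34a884_an.NEll
import Pool.Agent.Lib.MP_34a884_an.UMain

/-! Finite sets whose invertible members are multiples of two matrices. -/

namespace Pool.Agent.Lib.MP_34a884_an.Neg

open Matrix Uni

lemma uni_pair {A B : M2} (h : MP_34a884_an.PB A B) : Uni.PB {A, B} := by
  obtain ⟨C, D, H⟩ := h
  refine ⟨fun k => C * (k + 1) ^ D, ⟨C, D, fun _ => le_rfl⟩, fun k n a hn => ?_⟩
  obtain ⟨h1, h2⟩ := H n a
  refine Le.mono (T := ExM A B n a) (n := C * (n + 1) ^ D)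
    ⟨h1.toFinset, by rwa [← Set.ncard_eq_toFinset_card _ h1], by simp⟩ ?_ (by simp only; gcongr)
  rintro x ⟨hx, g, hg⟩
  rw [Orb, orbit_eq] at hx hg
  obtain ⟨w, hw, rfl⟩ := hx
  exact ⟨(dotProductBilin ℝ ℝ) g, ⟨w, hw, rfl⟩, fun w' hw' => hg _ ⟨w', hw', rfl⟩⟩

lemma uni_sub {A B : M2} (h : MP_34a884_an.PB A B) {G : Set M2} (hG : G ⊆ {A, B}) : Uni.PB G := by
  have one : ∀ T : M2, G ⊆ {T} → Uni.PB G := by
    intro T hT
    refine ⟨fun _ => 1, PolyB.const 1, fun k n a _ => Le.one ?_⟩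
    have : ∀ x ∈ Uni.Ex (Orb G n a), x = T ^ n *ᵥ a := by
      rintro x ⟨⟨L, h1, h2, rfl⟩, -⟩
      rw [List.eq_replicate_iff.mpr ⟨h1, fun b hb => hT (h2 b hb)⟩, List.prod_replicate]
    exact fun x hx y hy => (this x hx).trans (this y hy).symm
  by_cases hA : A ∈ G
  · by_cases hB : B ∈ G
    · rw [show G = {A, B} from hG.antisymm (by rintro T (rfl | rfl) <;> assumption)]
      exact uni_pair h
    · exact one A fun T hT => (hG hT).resolve_right fun e => hB (e ▸ hT)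
  · exact one B fun T hT => (hG hT).resolve_left fun e => hA (e ▸ hT)

lemma prod_map_smul (s : M2 → M2) (ρ : M2 → ℝ) (L : List M2) (h : ∀ T ∈ L, T = ρ T • s T) :
    L.prod = (L.map ρ).prod • (L.map s).prod := by
  induction L with
  | nil => simp
  | cons T L ih =>
    rw [List.prod_cons, ih fun T hT => h T (List.mem_cons_of_mem _ hT), List.map_cons,
      List.map_cons, List.prod_cons, List.prod_cons]
    nth_rewrite 1 [h T List.mem_cons_self]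
    rw [Matrix.smul_mul, Matrix.mul_smul, smul_smul]

lemma abs_prod_le (L : List ℝ) (h : ∀ t ∈ L, |t| ≤ 1) : |L.prod| ≤ 1 ∧
    (L.prod < 0 → ∃ t ∈ L, t ≤ L.prod) := by
  induction L with
  | nil => simp
  | cons t L ih =>
    obtain ⟨i1, i2⟩ := ih fun t ht => h t (List.mem_cons_of_mem _ ht)
    have h0 := h t List.mem_cons_self
    rw [List.prod_cons]
    refine ⟨by rw [abs_mul]; exact mul_le_one₀ h0 (abs_nonneg _) i1, fun hc => ?_⟩
    obtain ⟨a1, a2⟩ := abs_le.mp h0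
    obtain ⟨b1, b2⟩ := abs_le.mp i1
    rcases lt_or_ge L.prod 0 with c | c
    · obtain ⟨u, hu, e⟩ := i2 c
      exact ⟨u, List.mem_cons_of_mem _ hu, by nlinarith⟩
    · have : t < 0 := by by_contra hc; nlinarith
      exact ⟨t, List.mem_cons_self, by nlinarith⟩

lemma abs_prod_ge (L : List ℝ) (h : ∀ t ∈ L, 1 ≤ |t|) : 1 ≤ |L.prod| := by
  induction L with
  | nil => simp
  | cons t L ih =>
    rw [List.prod_cons, abs_mul]
    exact one_le_mul_of_one_le_of_one_le (h t List.mem_cons_self)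
      (ih fun t ht => h t (List.mem_cons_of_mem _ ht))

lemma first_occ {P Q T : M2} (L : List M2) (h : ∀ X ∈ L, X ∈ ({P, Q} : Set M2)) (hT : T ∈ L) :
    ∃ (U : M2) (j : ℕ) (L2 : List M2), (j = 0 ∨ U ∈ L) ∧ L = List.replicate j U ++ T :: L2 := by
  obtain ⟨U, hU⟩ : ∃ U : M2, ∀ X ∈ L, X = T ∨ X = U := by
    rcases h T hT with rfl | rfl
    · exact ⟨Q, h⟩
    · exact ⟨P, fun X hX => (h X hX).symm⟩
  refine ⟨U, ?_⟩
  clear h
  induction L with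
  | nil => simp at hT
  | cons X L ih =>
    by_cases e : X = T
    · exact ⟨0, L, Or.inl rfl, by simp [e]⟩
    obtain rfl := (hU X List.mem_cons_self).resolve_left e
    obtain ⟨j, L2, -, g⟩ := ih ((List.mem_cons.mp hT).resolve_left (Ne.symm e))
      fun Y hY => hU Y (List.mem_cons_of_mem _ hY)
    exact ⟨j + 1, L2, Or.inr List.mem_cons_self, by rw [List.replicate_succ, g]; rfl⟩

/-- Reduction to two sections of the projective classes. -/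
lemma pb_sections (F : Finset M2) (hF : ∀ T ∈ F, T.det ≠ 0) {P Q P' Q' : M2}
    (h : MP_34a884_an.PB P Q) (h' : MP_34a884_an.PB P' Q') (s s' : M2 → M2) (ρ ρ' : M2 → ℝ)
    (h1 : ∀ T ∈ F, s T ∈ F ∧ s T ∈ ({P, Q} : Set M2) ∧ T = ρ T • s T ∧ |ρ T| ≤ 1)
    (h2 : ∀ T ∈ F, s' T ∈ F ∧ s' T ∈ ({P', Q'} : Set M2) ∧ T = ρ' T • s' T ∧ 1 ≤ |ρ' T|) :
    Uni.PB ↑F := by
  obtain ⟨f, hf, H⟩ := uni_sub h (G := s '' ↑F) (by rintro _ ⟨T, hT, rfl⟩; exact (h1 T hT).2.1)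
  obtain ⟨f', hf', H'⟩ := uni_sub h' (G := s' '' ↑F)
    (by rintro _ ⟨T, hT, rfl⟩; exact (h2 T hT).2.1)
  refine ⟨fun k => f k + f' k + (k + 1) * F.card * F.card * f k, (hf.add hf').add
    ((((PolyB.id.add (PolyB.const _)).mul (PolyB.const _)).mul (PolyB.const _)).mul hf),
    fun k n a hn => ?_⟩
  have lF : Le (↑F : Set M2) F.card := ⟨F, le_rfl, subset_rfl⟩
  have c1 := Le.cover (S := {p | ∃ t ∈ _, p ∈ _})
    (fun t : (ℕ × M2) × M2 =>
      Uni.Ex ((fun v => (t.1.2 ^ t.1.1 * t.2) *ᵥ v) '' Orb (s '' ↑F) (n - t.1.1 - 1) a))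
    (((Le.nat k).prod lF).prod lF)
    (fun t ht => Uni.Ex.img (by
      rw [Matrix.det_mul, Matrix.det_pow]
      exact mul_ne_zero (pow_ne_zero _ (hF _ ht.1.2)) (hF _ ht.2)) (H k _ _ (by omega)))
    fun _ h => h
  refine (((H k n a hn).union (H' k n a hn)).union c1).mono ?_ le_rfl
  intro x hx
  obtain ⟨⟨L, hL, hL', rfl⟩, g, hg⟩ := id hx
  have sub : ∀ s : M2 → M2, (∀ T ∈ F, s T ∈ F) → Orb (s '' ↑F) n a ⊆ Orb ↑F n a := by
    rintro s hs _ ⟨L', a1, a2, rfl⟩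
    refine ⟨L', a1, fun T hT => ?_, rfl⟩
    obtain ⟨T', b, rfl⟩ := a2 T hT
    exact hs _ b
  have mem : ∀ s : M2 → M2, (L.map s).prod *ᵥ a ∈ Orb (s '' ↑F) n a := fun s =>
    ⟨L.map s, by simpa using hL, fun T hT => by
      obtain ⟨T', b, rfl⟩ := List.mem_map.mp hT
      exact ⟨T', hL' _ b, rfl⟩, rfl⟩
  have e1 := prod_map_smul s ρ L fun T hT => (h1 T (hL' T hT)).2.2.1
  have e2 := prod_map_smul s' ρ' L fun T hT => (h2 T (hL' T hT)).2.2.1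
  have s1 := sub s fun T hT => (h1 T hT).1
  have s2 := sub s' fun T hT => (h2 T hT).1
  rcases hg _ (s1 (mem s)) with d1 | d1
  · exact Or.inl (Or.inl (Uni.Ex.sub hx s1 (d1 ▸ mem s)))
  rcases hg _ (s2 (mem s')) with d2 | d2
  · exact Or.inl (Or.inr (Uni.Ex.sub hx s2 (d2 ▸ mem s')))
  obtain ⟨p1, p2⟩ := abs_prod_le (L.map ρ) fun t ht => by
    obtain ⟨T, b, rfl⟩ := List.mem_map.mp ht
    exact (h1 T (hL' T b)).2.2.2
  have p3 := abs_prod_ge (L.map ρ') fun t ht => by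
    obtain ⟨T, b, rfl⟩ := List.mem_map.mp ht
    exact (h2 T (hL' T b)).2.2.2
  have v1 : g ⬝ᵥ (L.prod *ᵥ a) = (L.map ρ).prod * (g ⬝ᵥ ((L.map s).prod *ᵥ a)) := by
    rw [e1, Matrix.smul_mulVec, dotProduct_smul, smul_eq_mul]
  have v2 : g ⬝ᵥ (L.prod *ᵥ a) = (L.map ρ').prod * (g ⬝ᵥ ((L.map s').prod *ᵥ a)) := by
    rw [e2, Matrix.smul_mulVec, dotProduct_smul, smul_eq_mul]
  have pos : 0 < g ⬝ᵥ (L.prod *ᵥ a) := by
    by_contra hc
    rcases le_abs'.mp p3 with c | c <;> nlinarith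
  obtain ⟨q1, q2⟩ := abs_le.mp p1
  have neg : g ⬝ᵥ ((L.map s).prod *ᵥ a) < 0 := by by_contra hc; nlinarith
  obtain ⟨t, ht, t2⟩ := p2 (by by_contra hc; nlinarith)
  obtain ⟨T, hT, rfl⟩ := List.mem_map.mp ht
  obtain ⟨U, j, L2, u1, u2⟩ := first_occ (P := P) (Q := Q) (T := s T) (L.map s) (fun X hX => by
    obtain ⟨T', b, rfl⟩ := List.mem_map.mp hX
    exact (h1 T' (hL' T' b)).2.1) (List.mem_map_of_mem hT)
  obtain ⟨U', u3, u4⟩ : ∃ U' ∈ F, U' ^ j = U ^ j := by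
    rcases u1 with rfl | u1
    · exact ⟨T, hL' T hT, by simp⟩
    · obtain ⟨T', b, rfl⟩ := List.mem_map.mp u1
      exact ⟨_, (h1 T' (hL' T' b)).1, rfl⟩
  have len : n = j + (L2.length + 1) := by simpa [hL] using congrArg List.length u2
  have s3 : (fun v => (U' ^ j * T) *ᵥ v) '' Orb (s '' ↑F) (n - j - 1) a ⊆ Orb ↑F n a := by
    rintro _ ⟨_, ⟨L', a1, a2, rfl⟩, rfl⟩
    refine ⟨List.replicate j U' ++ T :: L', by simp; omega, fun X hX => ?_, by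
      simp only [List.prod_append, List.prod_replicate, List.prod_cons, Matrix.mulVec_mulVec,
        mul_assoc]⟩
    simp only [List.mem_append, List.mem_cons] at hX
    rcases hX with b | rfl | b
    · rw [List.eq_of_mem_replicate b]; exact u3
    · exact hL' _ hT
    · obtain ⟨T', c, rfl⟩ := a2 X b
      exact (h1 T' c).1
  have m3 : (U' ^ j * T) *ᵥ (L2.prod *ᵥ a) ∈
      (fun v => (U' ^ j * T) *ᵥ v) '' Orb (s '' ↑F) (n - j - 1) a :=
    ⟨_, ⟨L2, by omega, fun X hX => by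
      obtain ⟨T', b, rfl⟩ := List.mem_map.mp (show X ∈ L.map s by rw [u2]; simp [hX])
      exact ⟨T', hL' _ b, rfl⟩, rfl⟩, rfl⟩
  have v3 : g ⬝ᵥ ((U' ^ j * T) *ᵥ (L2.prod *ᵥ a)) = ρ T * (g ⬝ᵥ ((L.map s).prod *ᵥ a)) := by
    rw [u2, u4]
    nth_rewrite 1 [(h1 T (hL' T hT)).2.2.1]
    simp only [List.prod_append, List.prod_replicate, List.prod_cons, Matrix.mulVec_mulVec,
      mul_assoc, Matrix.mul_smul, Matrix.smul_mul, Matrix.smul_mulVec, dotProduct_smul, smul_eq_mul]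
  rcases hg _ (s3 m3) with d3 | d3
  · exact Or.inr ⟨((j, U'), T), ⟨⟨by simp; omega, u3⟩, hL' T hT⟩, Uni.Ex.sub hx s3 (d3 ▸ m3)⟩
  · nlinarith

lemma exists_section (F : Finset M2) (hF : ∀ T ∈ F, T.det ≠ 0) (A : M2) (S : Finset M2)
    (hS : S ⊆ F) (h : ∀ T ∈ S, ∃ t : ℝ, T = t • A) :
    ∃ c c' : ℝ, c ≠ 0 ∧ c' ≠ 0 ∧ ∀ T ∈ S, c • A ∈ F ∧ c' • A ∈ F ∧
      (∃ r : ℝ, T = r • c • A ∧ |r| ≤ 1) ∧ ∃ r : ℝ, T = r • c' • A ∧ 1 ≤ |r| := by
  rcases S.eq_empty_or_nonempty with rfl | hne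
  · exact ⟨1, 1, one_ne_zero, one_ne_zero, by simp⟩
  choose! t ht using h
  have t0 : ∀ T ∈ S, t T ≠ 0 := fun T hT e => hF T (hS hT) (by rw [ht T hT, e]; simp)
  obtain ⟨X, x1, x2⟩ := S.exists_max_image (fun T => |t T|) hne
  obtain ⟨Y, y1, y2⟩ := S.exists_min_image (fun T => |t T|) hne
  refine ⟨t X, t Y, t0 X x1, t0 Y y1, fun T hT => ⟨ht X x1 ▸ hS x1, ht Y y1 ▸ hS y1,
    ⟨t T / t X, ?_, ?_⟩, t T / t Y, ?_, ?_⟩⟩
  · rw [smul_smul, div_mul_cancel₀ _ (t0 X x1)]; exact ht T hT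
  · rw [abs_div, div_le_one (abs_pos.mpr (t0 X x1))]; exact x2 T hT
  · rw [smul_smul, div_mul_cancel₀ _ (t0 Y y1)]; exact ht T hT
  · rw [abs_div, one_le_div (abs_pos.mpr (t0 Y y1))]; exact y2 T hT

/-- Every finite set whose invertible members are multiples of `A` or `B`, `det B < 0`. -/
theorem pb_two_classes (F : Finset M2) {A B : M2} (hB : B.det < 0)
    (h : ∀ T ∈ F, T.det ≠ 0 → ∃ t : ℝ, T = t • A ∨ T = t • B) : Uni.PB ↑F := by
  classical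
  refine Uni.pb_sing F ?_
  rw [show {T | T ∈ F ∧ T.det ≠ 0} = ↑(F.filter fun T => T.det ≠ 0) by simp]
  have hF : ∀ T ∈ F.filter fun T => T.det ≠ 0, T.det ≠ 0 := fun T hT => (Finset.mem_filter.mp hT).2
  have h' : ∀ T ∈ F.filter fun T => T.det ≠ 0, ∃ t : ℝ, T = t • A ∨ T = t • B := fun T hT =>
    h T (Finset.mem_filter.mp hT).1 (hF T hT)
  generalize F.filter (fun T => T.det ≠ 0) = G at hF h'
  obtain ⟨a, a', -, -, ha⟩ := exists_section G hF A (G.filter fun T => ∃ t : ℝ, T = t • A)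
    (Finset.filter_subset _ _) fun T hT => (Finset.mem_filter.mp hT).2
  obtain ⟨b, b', b0, b0', hb⟩ := exists_section G hF B (G.filter fun T => ∃ t : ℝ, T = t • B)
    (Finset.filter_subset _ _) fun T hT => (Finset.mem_filter.mp hT).2
  have pb : ∀ a b : ℝ, b ≠ 0 → MP_34a884_an.PB (a • A) (b • B) := fun a b b0 =>
    pb_nonpos (Or.inr (by
      rw [Matrix.det_smul, Fintype.card_fin]
      exact (mul_neg_of_pos_of_neg (by positivity) hB).le))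
  have key : ∀ T, ∃ (X X' : M2) (r r' : ℝ), T ∈ G →
      (X ∈ G ∧ X ∈ ({a • A, b • B} : Set M2) ∧ T = r • X ∧ |r| ≤ 1) ∧
      (X' ∈ G ∧ X' ∈ ({a' • A, b' • B} : Set M2) ∧ T = r' • X' ∧ 1 ≤ |r'|) := by
    intro T
    by_cases hT : T ∈ G
    swap
    · exact ⟨0, 0, 0, 0, fun c => absurd c hT⟩
    obtain ⟨t, e | e⟩ := h' T hT
    · obtain ⟨c1, c2, ⟨r, c3⟩, r', c4⟩ := ha T (Finset.mem_filter.mpr ⟨hT, t, e⟩)
      exact ⟨_, _, r, r', fun _ => ⟨⟨c1, Or.inl rfl, c3⟩, c2, Or.inl rfl, c4⟩⟩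
    · obtain ⟨c1, c2, ⟨r, c3⟩, r', c4⟩ := hb T (Finset.mem_filter.mpr ⟨hT, t, e⟩)
      exact ⟨_, _, r, r', fun _ => ⟨⟨c1, Or.inr rfl, c3⟩, c2, Or.inr rfl, c4⟩⟩
  choose s s' ρ ρ' hs using key
  exact pb_sections G hF (pb a b b0) (pb a' b' b0') s s' ρ ρ' (fun T hT => (hs T hT).1)
    fun T hT => (hs T hT).2

end Pool.Agent.Lib.MP_34a884_an.Neg
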