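import Mathlib
import Pool.Agent.Lib.MP_34a884_an.UMain

/-! Coloured graph directed systems with explicit bounds. -/

namespace Pool.Agent.Lib.MP_34a884_an.Uni

open Matrix

/-- A directed multigraph with coloured edges carrying nonnegative unimodular matrices. -/
structure Gys (E Ω C : Type) where
  src : E → Ω
  tgt : E → Ω
  lst : E → List Bool
  col : E → C
  ec : C → Bool
  len : ℕ
  hl : ∀ e, (lst e).length ≤ len

lemma Le.fin {α : Type} {n : ℕ} (h : Le (Set.univ : Set α) n) : Finite α :=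
  Set.finite_univ_iff.mp h.ncard.1

namespace Gys

variable {E Ω C : Type} (S : Gys E Ω C)

/-- The label of an edge. -/
def U (e : E) : M := G (S.lst e) * Jp (S.ec (S.col e))

lemma hU (e : E) : Rep S.len (S.U e) := ⟨_, _, S.hl e, rfl⟩

/-- The product along a word. -/
def W (w : List E) : M := (w.map S.U).prod

@[simp] lemma W_nil : S.W [] = 1 := rfl
@[simp] lemma W_cons (e : E) (w : List E) : S.W (e :: w) = S.U e * S.W w := by simp [W]
lemma W_append (x y : List E) : S.W (x ++ y) = S.W x * S.W y := by simp [W]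

lemma W_rep (w : List E) : Rep (S.len * w.length) (S.W w) := by
  induction w with
  | nil => exact Rep.one
  | cons e w ih =>
    rw [W_cons]
    exact ((S.hU e).mul ih).mono (by simp [Nat.mul_succ, add_comm])

lemma W_rep' {w : List E} {k : ℕ} (h : w.length ≤ k) : Rep (S.len * k) (S.W w) :=
  (S.W_rep w).mono (Nat.mul_le_mul_left _ h)

/-- The multiset of colours of a word. -/
def cm (w : List E) : Multiset C := (w.map S.col : List C)

lemma cm_append (x y : List E) : S.cm (x ++ y) = S.cm x + S.cm y := by simp [cm]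
lemma cm_cons (e : E) (y : List E) : S.cm (e :: y) = S.col e ::ₘ S.cm y := by simp [cm]
@[simp] lemma cm_card (x : List E) : Multiset.card (S.cm x) = x.length := by simp [cm]

lemma W_det (w : List E) : (S.W w).det = ((S.cm w).map fun c => (Jp (S.ec c)).det).prod := by
  induction w with
  | nil => simp [cm]
  | cons e w ih => rw [W_cons, det_mul, ih, cm_cons]; simp [U, G_det]

/-- Paths from `i` to `j`; the last letter acts first. -/
def Path (i : Ω) : Ω → List E → Prop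
  | j, [] => j = i
  | j, e :: w => j = S.tgt e ∧ Path i (S.src e) w

lemma path_append (i j : Ω) (x y : List E) :
    S.Path i j (x ++ y) ↔ ∃ m, S.Path i m y ∧ S.Path m j x := by
  induction x generalizing j with
  | nil => simp [Path]
  | cons e x ih =>
    simp only [List.cons_append, Path, ih]
    constructor
    · rintro ⟨h, m, h1, h2⟩; exact ⟨m, h1, h, h2⟩
    · rintro ⟨m, h1, h, h2⟩; exact ⟨h, m, h1, h2⟩

/-- Paths with prescribed ends and prescribed multiset of colours. -/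
def In (i j : Ω) (π : Multiset C) (w : List E) : Prop := S.Path i j w ∧ S.cm w = π

/-- The points of one class. -/
def Pts (i j : Ω) (π : Multiset C) (a : V) : Set V := {p | ∃ w, S.In i j π w ∧ p = S.W w *ᵥ a}

/-- Optimal words. -/
def Opt (i j : Ω) (π : Multiset C) (a c : V) (w : List E) : Prop :=
  S.In i j π w ∧ ∀ w', S.In i j π w' → c ⬝ᵥ (S.W w' *ᵥ a) ≤ c ⬝ᵥ (S.W w *ᵥ a)

/-- Suffixes of labels, up to the flip. -/
def Suf (r : List Bool) : Prop :=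
  ∃ b, r.map (xor b) = [] ∨ ∃ e u, S.lst e = u ++ r.map (xor b)

/-- States of the ladder. -/
def Z : Set M := {x | ∃ r ε, S.Suf r ∧ x = G r * Jp ε}

variable {S}

lemma Suf.suf {u r : List Bool} (h : S.Suf (u ++ r)) : S.Suf r := by
  obtain ⟨b, h | ⟨e, v, h⟩⟩ := h
  · exact ⟨b, Or.inl (by simp at h ⊢; exact h.2)⟩
  · exact ⟨b, Or.inr ⟨e, v ++ u.map (xor b), by simp [h]⟩⟩

lemma xor_xor (b : Bool) (r : List Bool) : (r.map (xor b)).map (xor b) = r := by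
  cases b <;> simp [List.map_map, Function.comp_def]

lemma Suf.flip {r : List Bool} (h : S.Suf r) (c : Bool) : S.Suf (r.map (xor c)) := by
  obtain ⟨b, h⟩ := h
  refine ⟨xor b c, ?_⟩
  have : (r.map (xor c)).map (xor (xor b c)) = r.map (xor b) := by
    rw [List.map_map]
    exact List.map_congr_left fun x _ => by cases b <;> cases c <;> cases x <;> rfl
  rwa [this]

lemma suf_lst (e : E) : S.Suf (S.lst e) := ⟨false, Or.inr ⟨e, [], by
  rw [List.nil_append, show xor false = id from funext fun x => by cases x <;> rfl, List.map_id]⟩⟩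

lemma Suf.mem {u : List Bool} (h : S.Suf u) (ε ε' : Bool) : Jp ε * (G u * Jp ε') ∈ S.Z :=
  ⟨_, xor ε ε', h.flip ε, by rw [← Matrix.mul_assoc, Jp_G, Matrix.mul_assoc, Jp_mul]⟩

lemma le_Z {m : ℕ} (hE : Le (Set.univ : Set E) m) : Le S.Z ((1 + m * (S.len + 1)) * 2 * 2) := by
  have h1 := (Le.one (S := {([] : List Bool)}) (by simp)).union
    ((hE.prod (Le.nat S.len)).image fun t => (S.lst t.1).drop t.2)
  refine (((h1.prod Le.bool).prod Le.bool).image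
    fun t => G (t.1.1.map (xor t.1.2)) * Jp t.2).mono ?_ le_rfl
  rintro _ ⟨r, ε, ⟨b, h⟩, rfl⟩
  refine ⟨((r.map (xor b), b), ε), ⟨⟨?_, trivial⟩, trivial⟩, by simp only [xor_xor]⟩
  rcases h with h | ⟨e, u, h⟩
  · exact Or.inl h
  · refine Or.inr ⟨(e, u.length), ⟨trivial, ?_⟩, by simp [h]⟩
    have := S.hl e
    rw [h, List.length_append] at this
    exact le_trans (Nat.le_add_right _ _) this

lemma In.len {i j : Ω} {π : Multiset C} {w : List E} (h : S.In i j π w) :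
    w.length = Multiset.card π := by rw [← h.2, cm_card]

lemma In.swap {i j m : Ω} {π : Multiset C} {x y y' : List E} (h : S.In i j π (x ++ y))
    (hx : S.Path m j x) (hy : S.In i m (S.cm y) y') : S.In i j π (x ++ y') :=
  ⟨(S.path_append ..).mpr ⟨m, hy.1, hx⟩, by rw [← h.2, cm_append, cm_append, hy.2]⟩

lemma dotW (c a : V) (x y : List E) :
    c ⬝ᵥ (S.W (x ++ y) *ᵥ a) = ((S.W x)ᵀ *ᵥ c) ⬝ᵥ (S.W y *ᵥ a) := by
  rw [W_append, ← Matrix.mulVec_mulVec, dotT]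

lemma pts_fin [Finite E] (i j : Ω) (π : Multiset C) (a : V) : (S.Pts i j π a).Finite := by
  refine ((List.finite_length_eq E (Multiset.card π)).image fun w => S.W w *ᵥ a).subset ?_
  rintro _ ⟨w, h, rfl⟩
  exact ⟨w, h.len, rfl⟩

/-- Covectors carried to `d` by an optimal prefix. -/
def Pre (S : Gys E Ω C) (i j : Ω) (π : Multiset C) (a d : V) : Set V :=
  {c | ∃ x y, S.Opt i j π a c (x ++ y) ∧ (S.W x)ᵀ *ᵥ c = d}

lemma exch {i j m : Ω} {π : Multiset C} {a c c' d : V} {x y x' y' : List E}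
    (h : S.Opt i j π a c (x ++ y)) (h' : S.Opt i j π a c' (x' ++ y')) (p : S.Path m j x)
    (q' : S.Path i m y') (e : S.cm x = S.cm x') (e1 : (S.W x)ᵀ *ᵥ c = d)
    (e2 : (S.W x')ᵀ *ᵥ c' = d) : c' ⬝ᵥ (S.W x *ᵥ (S.W y *ᵥ a)) ≤ d ⬝ᵥ (S.W y *ᵥ a) := by
  have e3 : S.cm y' = S.cm y := by
    have := h.1.2.trans h'.1.2.symm
    rw [cm_append, cm_append, e] at this
    exact (add_left_cancel this).symm
  have a1 := h'.2 _ h.1
  have a2 := h.2 _ (h.1.swap p ⟨q', e3⟩)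
  rw [dotW c' a x', e2, W_append, ← Matrix.mulVec_mulVec] at a1
  rw [dotW, dotW, e1] at a2
  exact a1.trans a2

/-- Pairs (state, multiset of colours). -/
def Cl (Ω C : Type) (k : ℕ) : Set (Ω × Multiset C) :=
  (Set.univ : Set Ω) ×ˢ {σ : Multiset C | Multiset.card σ ≤ k}

lemma pre_tr {n k : ℕ} (hn : Le (Cl Ω C k) n) {i j : Ω} {π : Multiset C}
    (hk : Multiset.card π ≤ k) {a : V} (ha : Pos a) {d : V} (hd : d ≠ 0) (ht : d 0 * d 1 ≤ 0) :
    Le (Pre S i j π a d) (n * (S.len * k + 1)) := by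
  refine Le.code (fun (t : (Ω × Multiset C) × ℕ) c => ∃ x y l ε, S.Opt i j π a c (x ++ y) ∧
    (S.W x)ᵀ *ᵥ c = d ∧ S.Path t.1.1 j x ∧ S.Path i t.1.1 y ∧ S.cm x = t.1.2 ∧
    l.length = t.2 ∧ S.W x = G l * Jp ε) (hn.prod (Le.nat _)) ?_ ?_
  · rintro c ⟨x, y, h, e⟩
    obtain ⟨m, h1, h2⟩ := (S.path_append ..).mp h.1.1
    have hx : x.length ≤ k := by
      have := h.1.len
      rw [List.length_append] at this
      omega
    obtain ⟨l, ε, hl, e'⟩ := S.W_rep' hx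
    exact ⟨((m, S.cm x), l.length), ⟨⟨trivial, by simpa using hx⟩, hl⟩, x, y, l, ε, h, e, h2, h1,
      rfl, rfl, e'⟩
  · rintro t c c' ⟨x, y, l, ε, h, e, p, q, m, n, r⟩ ⟨x', y', l', ε', h', e', p', q', m', n', r'⟩
    have hε : ε = ε' := by
      have := S.W_det x
      rw [m, ← m', ← S.W_det, r, r', det_mul, det_mul, G_det, G_det, Jp_det, Jp_det] at this
      cases ε <;> cases ε' <;> simp at this ⊢ <;> norm_num at this
    subst hε
    have A := exch h h' p q' (m.trans m'.symm) e e'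
    have B := exch h' h p' q (m'.trans m.symm) e' e
    have v1 := Jp_pos ε ((S.W_rep y).pos ha)
    have v2 := Jp_pos ε ((S.W_rep y').pos ha)
    have d0 := ne0 (Rep.J ε).det hd
    have d1 := Jp_tr ε ht
    rw [r, ← Matrix.mulVec_mulVec, ← Sys.conv2 ε d] at A
    rw [r', ← Matrix.mulVec_mulVec, ← Sys.conv2 ε d] at B
    rw [r] at e
    rw [r'] at e'
    rcases tri_len (n.trans n'.symm) with rfl | ⟨u, s, s', rfl, rfl⟩ | ⟨u, s, s', rfl, rfl⟩
    · exact inj ((Rep.G l).mul (Rep.J ε)).T.det (e.trans e'.symm)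
    · exact (no_div v1 v2 d0 d1 (Sys.conv e) (Sys.conv e') A B).elim
    · exact (no_div v2 v1 d0 d1 (Sys.conv e') (Sys.conv e) B A).elim

lemma split_co (x : List E) (c : V) (hc : c 0 * c 1 ≤ 0) :
    ((S.W x)ᵀ *ᵥ c) 0 * ((S.W x)ᵀ *ᵥ c) 1 ≤ 0 ∨ ∃ x1 t x2, x = x1 ++ t :: x2 ∧
      ((S.W x1)ᵀ *ᵥ c) 0 * ((S.W x1)ᵀ *ᵥ c) 1 ≤ 0 ∧
      0 < ((S.U t)ᵀ *ᵥ ((S.W x1)ᵀ *ᵥ c)) 0 * ((S.U t)ᵀ *ᵥ ((S.W x1)ᵀ *ᵥ c)) 1 := by
  induction x generalizing c with
  | nil => left; simpa using hc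
  | cons t x ih =>
    by_cases h : ((S.U t)ᵀ *ᵥ c) 0 * ((S.U t)ᵀ *ᵥ c) 1 ≤ 0
    · have E : ∀ z : List E, (S.W (t :: z))ᵀ *ᵥ c = (S.W z)ᵀ *ᵥ ((S.U t)ᵀ *ᵥ c) := fun z => by
        rw [W_cons, transpose_mul, Matrix.mulVec_mulVec]
      rcases ih _ h with g | ⟨x1, t', x2, rfl, g1, g2⟩
      · left; rwa [E]
      · exact Or.inr ⟨t :: x1, t', x2, rfl, by rwa [E], by rwa [E]⟩
    · exact Or.inr ⟨[], t, x, rfl, by simpa using hc, by simpa using h⟩

/-- Bound for the multiplicity. -/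
def mult (n m l : ℕ) : ℕ := 8 * l + n * l + 8 * l * m * (n * l)

lemma pre_le {n m k : ℕ} (hn : Le (Cl Ω C k) n) (hE : Le (Set.univ : Set E) m) {i j : Ω}
    {π : Multiset C} (hk : Multiset.card π ≤ k) {a : V} (ha : Pos a)
    {d : V} (hd : d ≠ 0) : Le (Pre S i j π a d) (mult n m (S.len * k + 1)) := by
  have h1 := chain_co (S.len * k) hd
  have h2 : Le {c | d 0 * d 1 ≤ 0 ∧ c ∈ Pre S i j π a d} (n * (S.len * k + 1)) := by
    by_cases ht : d 0 * d 1 ≤ 0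
    · exact (pre_tr hn hk ha hd ht).mono (fun _ h => h.2) le_rfl
    · exact ⟨∅, by simp, fun _ h => absurd h.1 ht⟩
  have h3 : Le {d1 : V | d1 ≠ 0 ∧ d1 0 * d1 1 ≤ 0 ∧ ∃ t, (S.U t)ᵀ *ᵥ d1 ∈
      {c : V | 0 < c 0 * c 1 ∧ ∃ x, Rep (S.len * k) x ∧ xᵀ *ᵥ c = d}}
      (8 * (S.len * k + 1) * m) := by
    refine Le.code (fun (t : V × E) d1 => (S.U t.2)ᵀ *ᵥ d1 = t.1) (h1.prod hE) ?_ ?_
    · rintro d1 ⟨-, -, t, ht⟩
      exact ⟨(_, t), ⟨ht, trivial⟩, rfl⟩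
    · rintro t x y e e'
      exact inj (S.hU t.2).T.det (e.trans e'.symm)
  have h4 := Le.cover (S := {c | ∃ d1 ∈ _, c ∈ Pre S i j π a d1}) (Pre S i j π a) h3
    (fun d1 h => pre_tr hn hk ha h.1 h.2.1) fun _ h => h
  refine ((h1.union h2).union h4).mono ?_ le_rfl
  rintro c ⟨x, y, h, e⟩
  have hl := h.1.len
  rw [List.length_append] at hl
  by_cases hc : c 0 * c 1 ≤ 0
  · rcases split_co (S := S) x c hc with g | ⟨x1, t, x2, rfl, g1, g2⟩
    · rw [e] at g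
      exact Or.inl (Or.inr ⟨g, x, y, h, e⟩)
    · refine Or.inr ⟨(S.W x1)ᵀ *ᵥ c, ⟨?_, g1, t, g2, S.W x2, S.W_rep' ?_, ?_⟩, x1, t :: x2 ++ y,
        by simpa using h, rfl⟩
      · refine ne0 (S.W_rep x1).T.det ?_
        rintro rfl
        exact hd (by simpa using e.symm)
      · simp only [List.length_append, List.length_cons] at hl
        omega
      · rw [← e, W_append, W_cons, transpose_mul, transpose_mul, ← Matrix.mulVec_mulVec,
          ← Matrix.mulVec_mulVec]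
  · exact Or.inl (Or.inl ⟨not_le.mp hc, S.W x, S.W_rep' (by omega), e⟩)

/-- Terminal directions of the ladder. -/
def Term (S : Gys E Ω C) (i : Ω) (k : ℕ) (a : V) : Set V :=
  {b | ∃ t ∈ (Cl Ω C k ×ˢ Cl Ω C k) ×ˢ (S.Z ×ˢ S.Z),
      (∃ φ : V, (∀ p ∈ (fun v => t.2.1 *ᵥ v) '' S.Pts i t.1.1.1 t.1.1.2 a, 0 < φ ⬝ᵥ p) ∧
        ∀ p ∈ (fun v => t.2.2 *ᵥ v) '' S.Pts i t.1.2.1 t.1.2.2 a, φ ⬝ᵥ p < 0) ∧
      b ∈ Tie ((fun v => t.2.1 *ᵥ v) '' S.Pts i t.1.1.1 t.1.1.2 a)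
        ((fun v => t.2.2 *ᵥ v) '' S.Pts i t.1.2.1 t.1.2.2 a)} ∪
  {b | ∃ t ∈ Cl Ω C k ×ˢ S.Z, b ∈ TieP a ((fun v => t.2 *ᵥ v) '' S.Pts i t.1.1 t.1.2 a)}

lemma term_cov {n z k : ℕ} (hn : Le (Cl Ω C k) n) (hz : Le S.Z z) (i : Ω) (a : V) :
    Cov (Term S i k a) (n * n * (z * z) * 2 + n * z * 4) := by
  refine Cov.union ?_ ?_
  · refine Cov.cover _ ((hn.prod hn).prod (hz.prod hz)) ?_ fun _ h => h
    intro t _
    by_cases h : ∃ φ : V, (∀ p ∈ (fun v => t.2.1 *ᵥ v) '' S.Pts i t.1.1.1 t.1.1.2 a, 0 < φ ⬝ᵥ p) ∧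
        ∀ p ∈ (fun v => t.2.2 *ᵥ v) '' S.Pts i t.1.2.1 t.1.2.2 a, φ ⬝ᵥ p < 0
    · obtain ⟨φ, h1, h2⟩ := h
      obtain ⟨F, f1, f2⟩ := tie_sep h1 h2
      exact ⟨F, f1, fun c hc => f2 c hc.2⟩
    · exact ⟨∅, ⟨∅, by simp, by simp⟩, fun c hc => absurd hc.1 h⟩
  · exact Cov.cover _ (hn.prod hz) (fun t _ => tie_pt _ _) fun _ h => h

lemma supp {i j m : Ω} {π : Multiset C} {a c : V} {x x' y' : List E} {z : M}
    (h' : S.Opt i j π a c (x' ++ y')) (p : S.Path m j x') (e : S.W x' = S.W x * z) :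
    ((S.W x)ᵀ *ᵥ c) ⬝ᵥ (z *ᵥ (S.W y' *ᵥ a)) = c ⬝ᵥ (S.W (x' ++ y') *ᵥ a) ∧
    ∀ q ∈ (fun v => z *ᵥ v) '' S.Pts i m (S.cm y') a,
      ((S.W x)ᵀ *ᵥ c) ⬝ᵥ q ≤ ((S.W x)ᵀ *ᵥ c) ⬝ᵥ (z *ᵥ (S.W y' *ᵥ a)) := by
  have E : ∀ y, ((S.W x)ᵀ *ᵥ c) ⬝ᵥ (z *ᵥ (S.W y *ᵥ a)) = c ⬝ᵥ (S.W (x' ++ y) *ᵥ a) := fun y => by
    rw [W_append, e, ← Matrix.mulVec_mulVec, ← Matrix.mulVec_mulVec, dotT (S.W x)]
  refine ⟨E _, ?_⟩
  rintro _ ⟨_, ⟨y, hy, rfl⟩, rfl⟩
  simp only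
  rw [E, E]
  exact h'.2 _ (h'.1.swap p hy)

lemma ladder {i j : Ω} {π : Multiset C} {k : ℕ} (hk : Multiset.card π ≤ k) {a c : V} (ha : Pos a)
    (hc : c ≠ 0) (N : ℕ) : ∀ (x y x' y' : List E) (z : M), y.length + y'.length ≤ N →
    S.Opt i j π a c (x ++ y) → S.Opt i j π a c (x' ++ y') →
    S.W (x ++ y) *ᵥ a ≠ S.W (x' ++ y') *ᵥ a → z ∈ S.Z → S.W x' = S.W x * z →
    ∃ b ∈ Term S i k a, c ∈ Pre S i j π a b := by
  have base : ∀ (x x' y' : List E) (z : M), S.Opt i j π a c (x ++ []) →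
      S.Opt i j π a c (x' ++ y') → S.W (x ++ []) *ᵥ a ≠ S.W (x' ++ y') *ᵥ a → z ∈ S.Z →
      S.W x' = S.W x * z → ∃ b ∈ Term S i k a, c ∈ Pre S i j π a b := by
    intro x x' y' z h h' hne hz e
    obtain ⟨m, q', p'⟩ := (S.path_append ..).mp h'.1.1
    obtain ⟨s1, s2⟩ := supp h' p' e
    have hl := h'.1.len
    rw [List.length_append] at hl
    have v : ((S.W x)ᵀ *ᵥ c) ⬝ᵥ (z *ᵥ (S.W y' *ᵥ a)) = ((S.W x)ᵀ *ᵥ c) ⬝ᵥ a := by
      rw [s1, ← dotT, le_antisymm (h.2 _ h'.1) (h'.2 _ h.1), List.append_nil]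
    refine ⟨_, Or.inr ⟨((m, S.cm y'), z), ⟨⟨trivial, by simp; omega⟩, hz⟩,
      ne0 (S.W_rep x).T.det hc,
      _, ⟨_, ⟨y', ⟨q', rfl⟩, rfl⟩, rfl⟩, fun g => hne ?_, v, fun q hq => v ▸ s2 q hq⟩,
      x, [], h, rfl⟩
    simp only at g
    rw [W_append _ x', e, ← Matrix.mulVec_mulVec, ← Matrix.mulVec_mulVec, g, List.append_nil]
  induction N with
  | zero =>
    intro x y x' y' z hN h h' hne hz e
    obtain rfl : y = [] := List.length_eq_zero_iff.mp (by omega)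
    exact base x x' y' z h h' hne hz e
  | succ N ih =>
    intro x y x' y' z hN h h' hne hz e
    cases y with
    | nil => exact base x x' y' z h h' hne hz e
    | cons t y =>
      have as : x ++ t :: y = (x ++ [t]) ++ y := by simp
      have ew : S.W (x ++ [t]) = S.W x * S.U t := by simp [W_append]
      obtain ⟨l, ε, hl, r⟩ : S.U t ∈ S.Z := ⟨_, _, suf_lst t, rfl⟩
      obtain ⟨l', ε', hl', r'⟩ := id hz
      simp only [List.length_cons] at hN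
      have fin : (∃ φ : V, (∀ v, Pos v → 0 < φ ⬝ᵥ (G l *ᵥ v)) ∧
          ∀ v, Pos v → φ ⬝ᵥ (G l' *ᵥ v) < 0) → ∃ b ∈ Term S i k a, c ∈ Pre S i j π a b := by
        rintro ⟨φ, f1, f2⟩
        have h0 := h
        rw [as] at h
        obtain ⟨m, q, p⟩ := (S.path_append ..).mp h.1.1
        obtain ⟨m', q', p'⟩ := (S.path_append ..).mp h'.1.1
        obtain ⟨s1, s2⟩ := supp h p ew
        obtain ⟨s1', s2'⟩ := supp h' p' e
        have n1 := h.1.len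
        have n2 := h'.1.len
        rw [List.length_append] at n1 n2
        refine ⟨_, Or.inl ⟨(((m, S.cm y), (m', S.cm y')), (S.U t, z)),
          ⟨⟨⟨trivial, by simp; omega⟩, ⟨trivial, by simp; omega⟩⟩, ⟨l, ε, hl, r⟩, hz⟩, ⟨φ, ?_, ?_⟩,
          ne0 (S.W_rep x).T.det hc, _, ⟨_, ⟨y, ⟨q, rfl⟩, rfl⟩, rfl⟩, _,
          ⟨_, ⟨y', ⟨q', rfl⟩, rfl⟩, rfl⟩, ?_, s2, s2'⟩, x, _, h0, rfl⟩
        · rintro _ ⟨_, ⟨w, -, rfl⟩, rfl⟩
          simp only
          rw [r, ← Matrix.mulVec_mulVec]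
          exact f1 _ (Jp_pos ε ((S.W_rep w).pos ha))
        · rintro _ ⟨_, ⟨w, -, rfl⟩, rfl⟩
          simp only
          rw [r', ← Matrix.mulVec_mulVec]
          exact f2 _ (Jp_pos ε' ((S.W_rep w).pos ha))
        · simp only
          rw [s1, s1']
          exact le_antisymm (h.2 _ h'.1) (h'.2 _ h.1)
      rcases tri l l' with ⟨u, rfl⟩ | ⟨u, rfl⟩ | ⟨u, s, s', rfl, rfl⟩ | ⟨u, s, s', rfl, rfl⟩
      · rw [as] at h hne
        refine ih _ y x' y' (Jp ε * (G u * Jp ε')) (by omega) h h' hne (hl'.suf.mem _ _) ?_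
        rw [e, ew, r, r', G_append]
        simp only [Matrix.mul_assoc]
        rw [← Matrix.mul_assoc (Jp ε) (Jp ε), Jp_sq, Matrix.one_mul]
      · rw [as] at h hne
        refine ih x' y' _ y (Jp ε' * (G u * Jp ε)) (by omega) h' h hne.symm (hl.suf.mem _ _) ?_
        rw [e, ew, r, r', G_append]
        simp only [Matrix.mul_assoc]
        rw [← Matrix.mul_assoc (Jp ε') (Jp ε'), Jp_sq, Matrix.one_mul]
      · obtain ⟨φ, f1, f2⟩ := sep u
        exact fin ⟨φ, f1 s, f2 s'⟩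
      · obtain ⟨φ, f1, f2⟩ := sep u
        refine fin ⟨-φ, fun v hv => ?_, fun v hv => ?_⟩
        · rw [neg_dotProduct]; linarith [f2 s v hv]
        · rw [neg_dotProduct]; linarith [f1 s' v hv]

lemma term_ne {i : Ω} {k : ℕ} {a b : V} (h : b ∈ Term S i k a) : b ≠ 0 := by
  rcases h with ⟨_, -, -, h⟩ | ⟨_, -, h⟩ <;> exact h.1

/-- Bound for positive starting vectors. -/
def bnd0 (n m l z : ℕ) : ℕ := (n * n * (z * z) * 2 + n * z * 4) * mult n m l * 2 + 1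

lemma core_pos {n m k : ℕ} (hn : Le (Cl Ω C k) n) (hE : Le (Set.univ : Set E) m) (i j : Ω)
    (π : Multiset C) (a : V) (hk : Multiset.card π ≤ k) (ha : Pos a) :
    Le (Ex (S.Pts i j π a)) (bnd0 n m (S.len * k + 1) ((1 + m * (S.len + 1)) * 2 * 2)) := by
  have := hE.fin
  refine ex_le (pts_fin i j π a) ?_
  obtain ⟨F, f1, f2⟩ := term_cov hn (le_Z (S := S) hE) i a
  refine ⟨{c | ∃ d ∈ {d ∈ F | d ≠ 0}, c ∈ Pre S i j π a d},
    Le.cover (Pre S i j π a) (f1.mono (fun _ h => h.1) le_rfl)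
      (fun d hd => pre_le hn hE hk ha hd.2) fun _ h => h, ?_⟩
  rintro c ⟨c0, _, ⟨w, hw, rfl⟩, _, ⟨w', hw', rfl⟩, hne, e, m⟩
  have o1 : S.Opt i j π a c ([] ++ w) := ⟨hw, fun v hv => m _ ⟨v, hv, rfl⟩⟩
  have o2 : S.Opt i j π a c ([] ++ w') := ⟨hw', fun v hv => (m _ ⟨v, hv, rfl⟩).trans e.ge⟩
  obtain ⟨b, hb, x, y, o, e'⟩ := ladder hk ha c0 _ [] w [] w' 1 le_rfl o1 o2 hne
    ⟨[], false, ⟨false, Or.inl rfl⟩, by simp [Jp]⟩ (by simp)
  obtain ⟨d, hd, s, hs, rfl⟩ := f2 b hb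
  refine ⟨s⁻¹ • c, ⟨d, ⟨hd, ?_⟩, x, y, ⟨o.1, fun v hv => ?_⟩, ?_⟩, s, hs, ?_⟩
  · rintro rfl
    exact term_ne hb (by simp)
  · simp only [smul_dotProduct, smul_eq_mul]
    exact mul_le_mul_of_nonneg_left (o.2 v hv) (inv_nonneg.mpr hs.le)
  · rw [Matrix.mulVec_smul, e', smul_smul, inv_mul_cancel₀ hs.ne', one_smul]
  · rw [smul_smul, mul_inv_cancel₀ hs.ne', one_smul]

lemma split_pt (a : V) (w : List E) : (S.W w *ᵥ a) 0 * (S.W w *ᵥ a) 1 ≤ 0 ∨
    ∃ x v, w = x ++ v ∧ 0 < (S.W v *ᵥ a) 0 * (S.W v *ᵥ a) 1 ∧ (v = [] ∨ ∃ t v', v = t :: v' ∧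
      (S.W v' *ᵥ a) 0 * (S.W v' *ᵥ a) 1 ≤ 0) := by
  induction w with
  | nil =>
    by_cases h : (S.W [] *ᵥ a) 0 * (S.W [] *ᵥ a) 1 ≤ 0
    · exact Or.inl h
    · exact Or.inr ⟨[], [], rfl, not_le.mp h, Or.inl rfl⟩
  | cons t w ih =>
    rcases ih with g | ⟨x, v, rfl, g⟩
    · by_cases h : (S.W (t :: w) *ᵥ a) 0 * (S.W (t :: w) *ᵥ a) 1 ≤ 0
      · exact Or.inl h
      · exact Or.inr ⟨[], t :: w, rfl, not_le.mp h, Or.inr ⟨t, w, rfl, g⟩⟩
    · exact Or.inr ⟨t :: x, v, rfl, g⟩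

/-- Bound for arbitrary starting vectors. -/
def bnd (n m l k : ℕ) : ℕ := 1 + (8 * (l * k + 1) +
  n * (1 + m * (8 * (l * k + 1))) * bnd0 n m (l * k + 1) ((1 + m * (l + 1)) * 2 * 2))

lemma bnd_poly {n m l : ℕ → ℕ} (hn : PolyB n) (hm : PolyB m) (hl : PolyB l) :
    PolyB fun k => bnd (n k) (m k) (l k) k := by
  have c := PolyB.const
  have h1 : PolyB fun k => l k * k + 1 := (hl.mul PolyB.id).add (c _)
  have h2 : PolyB fun k => (1 + m k * (l k + 1)) * 2 * 2 :=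
    (((c _).add (hm.mul (hl.add (c _)))).mul (c _)).mul (c _)
  have h3 : PolyB fun k => mult (n k) (m k) (l k * k + 1) :=
    (((c _).mul h1).add (hn.mul h1)).add ((((c _).mul h1).mul hm).mul (hn.mul h1))
  have h4 : PolyB fun k => bnd0 (n k) (m k) (l k * k + 1) ((1 + m k * (l k + 1)) * 2 * 2) :=
    ((((((hn.mul hn).mul (h2.mul h2)).mul (c _)).add ((hn.mul h2).mul (c _))).mul h3).mul
      (c _)).add (c _)
  exact (c _).add (((c _).mul h1).add ((hn.mul ((c _).add (hm.mul ((c _).mul h1)))).mul h4))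

lemma core {n m k : ℕ} (hn : Le (Cl Ω C k) n) (hE : Le (Set.univ : Set E) m) (i j : Ω)
    (π : Multiset C) (a : V) (hk : Multiset.card π ≤ k) :
    Le (Ex (S.Pts i j π a)) (bnd n m S.len k) := by
  have H2 : ∀ (i j : Ω) (π : Multiset C) (a : V), Multiset.card π ≤ k → 0 < a 0 * a 1 →
      Le (Ex (S.Pts i j π a)) (bnd0 n m (S.len * k + 1) ((1 + m * (S.len + 1)) * 2 * 2)) := by
    intro i j π a hk ha
    rcases pos_and_pos_or_neg_and_neg_of_mul_pos ha with h | h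
    · exact core_pos hn hE i j π a hk h
    · have := Ex.img (A := -1) (by simp [det_fin_two])
        (core_pos (S := S) hn hE i j π (-a) hk ⟨by simpa using h.1, by simpa using h.2⟩)
      refine this.mono (subset_of_eq (congrArg Ex ?_)) le_rfl
      ext p
      constructor
      · rintro ⟨w, hw, rfl⟩
        exact ⟨_, ⟨w, hw, rfl⟩, by simp [Matrix.mulVec_neg, Matrix.neg_mulVec]⟩
      · rintro ⟨_, ⟨w, hw, rfl⟩, rfl⟩
        exact ⟨w, hw, by simp [Matrix.mulVec_neg, Matrix.neg_mulVec]⟩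
  by_cases ha : a = 0
  · refine (Le.one ?_).mono subset_rfl (by simp [bnd])
    rintro _ ⟨⟨w, -, rfl⟩, -⟩ _ ⟨⟨w', -, rfl⟩, -⟩
    simp [ha]
  have c1 := chain_tr (S.len * k) ha
  have c2 := (Le.one (S := {a}) (by simp)).union
    ((hE.prod c1).image fun t => S.U t.1 *ᵥ (t.2 *ᵥ a))
  have c3 := Le.cover (S := {p | ∃ t ∈ _, p ∈ _})
    (fun t : (Ω × Multiset C) × V => {p | 0 < t.2 0 * t.2 1 ∧ p ∈ Ex (S.Pts t.1.1 j t.1.2 t.2)})
    (hn.prod c2) (fun t ht => by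
      by_cases h : 0 < t.2 0 * t.2 1
      · exact (H2 _ _ _ _ ht.1.2 h).mono (fun _ h => h.2) le_rfl
      · exact ⟨∅, Nat.zero_le _, fun _ g => absurd g.1 h⟩) fun _ h => h
  refine ((c1.image fun x => x *ᵥ a).union c3).mono ?_ (Nat.le_add_left _ _)
  rintro p hp
  obtain ⟨w, hw, rfl⟩ := hp.1
  have hl := hw.len
  rcases split_pt (S := S) a w with g | ⟨x, v, rfl, g, g'⟩
  · exact Or.inl ⟨_, ⟨S.W_rep' (by omega), g⟩, rfl⟩
  · obtain ⟨m, q, p⟩ := (S.path_append ..).mp hw.1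
    rw [List.length_append] at hl
    refine Or.inr ⟨((m, S.cm x), S.W v *ᵥ a), ⟨⟨trivial, by simp; omega⟩, ?_⟩, g, Ex.sub hp ?_
      ⟨x, ⟨p, rfl⟩, by rw [W_append, Matrix.mulVec_mulVec]⟩⟩
    · rcases g' with rfl | ⟨t, v', rfl, g'⟩
      · left; simp
      · refine Or.inr ⟨(t, S.W v'), ⟨trivial, S.W_rep' ?_, g'⟩, by
          rw [W_cons, ← Matrix.mulVec_mulVec]⟩
        simp only [List.length_cons] at hl
        omega
    · rintro _ ⟨x', hx', rfl⟩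
      refine ⟨x' ++ v, ⟨(S.path_append ..).mpr ⟨m, q, hx'.1⟩, ?_⟩, by
        rw [W_append, Matrix.mulVec_mulVec]⟩
      rw [← hw.2, cm_append, cm_append, hx'.2]

lemma graph_bound {n m k : ℕ} (hn : Le (Cl Ω C k) n) (hE : Le (Set.univ : Set E) m) (F : Set M)
    (lt : C → M) (lam : C → ℝ) (B : Ω → M) (i0 : Ω) (hB : ∀ i, (B i).det ≠ 0)
    (l0 : ∀ e, lam (S.col e) ≠ 0) (hF : ∀ e, lt (S.col e) ∈ F)
    (hU : ∀ e, lt (S.col e) * B (S.src e) = lam (S.col e) • (B (S.tgt e) * S.U e))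
    (ex : ∀ L : List M, L.length ≤ k → (∀ T ∈ L, T ∈ F) → ∃ (w : List E) (j : Ω), S.Path i0 j w ∧
      (w.map fun e => lt (S.col e)) = L) (r : ℕ) (hr : r ≤ k) (a : V) :
    Le (Ex (Orb F r a)) (n * bnd n m S.len k) := by
  have key : ∀ (w : List E) (j : Ω), S.Path i0 j w →
      (w.map fun e => lt (S.col e)).prod * B i0 = ((S.cm w).map lam).prod • (B j * S.W w) := by
    intro w
    induction w with
    | nil => rintro j rfl; simp [cm]
    | cons e w ih =>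
      rintro j ⟨rfl, hp⟩
      rw [List.map_cons, List.prod_cons, Matrix.mul_assoc, ih _ hp, Matrix.mul_smul,
        ← Matrix.mul_assoc, hU e, W_cons, cm_cons]
      simp [smul_smul, Matrix.mul_assoc, mul_comm]
  obtain ⟨a', rfl⟩ : ∃ a', a = B i0 *ᵥ a' := ⟨(B i0)⁻¹ *ᵥ a, by
    rw [Matrix.mulVec_mulVec, Matrix.mul_nonsing_inv _ (isUnit_iff_ne_zero.mpr (hB i0)),
      Matrix.one_mulVec]⟩
  have pt : ∀ (w : List E) (j : Ω), S.Path i0 j w →
      (w.map fun e => lt (S.col e)).prod *ᵥ (B i0 *ᵥ a') =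
        (((S.cm w).map lam).prod • B j) *ᵥ (S.W w *ᵥ a') := by
    intro w j hp
    rw [Matrix.mulVec_mulVec, key w j hp, Matrix.mulVec_mulVec, Matrix.smul_mul]
  refine Le.cover (fun t : Ω × Multiset C => {x | (t.2.map lam).prod ≠ 0 ∧
    x ∈ Ex ((fun v => ((t.2.map lam).prod • B t.1) *ᵥ v) '' S.Pts i0 t.1 t.2 a')}) hn
    (fun t ht => ?_) ?_
  · by_cases h : (t.2.map lam).prod = 0
    · exact ⟨∅, Nat.zero_le _, fun _ g => absurd h g.1⟩
    refine (Ex.img ?_ (core hn hE _ _ _ _ ht.2)).mono (fun _ g => g.2) le_rfl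
    rw [det_smul]
    exact mul_ne_zero (pow_ne_zero _ h) (hB _)
  · intro x hx
    obtain ⟨L, hL, hL', rfl⟩ := hx.1
    obtain ⟨w, j, hp, rfl⟩ := ex L (by omega) hL'
    rw [List.length_map] at hL
    refine ⟨(j, S.cm w), ⟨trivial, by simp; omega⟩, Multiset.prod_ne_zero ?_,
      Ex.sub hx ?_ ⟨_, ⟨w, ⟨hp, rfl⟩, rfl⟩, (pt w j hp).symm⟩⟩
    · simp only [cm, Multiset.map_coe, Multiset.mem_coe, List.mem_map, not_exists, not_and]
      rintro _ ⟨e, -, rfl⟩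
      exact l0 e
    rintro _ ⟨_, ⟨w', hw', rfl⟩, rfl⟩
    refine ⟨w'.map fun e => lt (S.col e), ?_, ?_, ?_⟩
    · rw [List.length_map, hw'.len, ← hL, cm_card]
    · intro T hT
      obtain ⟨e, -, rfl⟩ := List.mem_map.mp hT
      exact hF e
    · rw [pt w' j hw'.1, hw'.2]

end Gys

end Pool.Agent.Lib.MP_34a884_an.Uni
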