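import Mathlib
import Pool.Agent.Lib.MP_34a884_an.VCore

/-! Sets with a time dependent invariant cone. -/

namespace Pool.Agent.Lib.MP_34a884_an.Uni

open Matrix

/-- Diagonal sign matrices. -/
def Dg (a b : Bool) : M := !![bif a then -1 else 1, 0; 0, bif b then -1 else 1]

lemma Dg_mul (a b c d : Bool) : Dg a b * Dg c d = Dg (xor a c) (xor b d) := by
  cases a <;> cases b <;> cases c <;> cases d <;> refine Mext ?_ ?_ ?_ ?_ <;> simp [Dg]
lemma Dg_one : Dg false false = 1 := by refine Mext ?_ ?_ ?_ ?_ <;> simp [Dg]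
lemma Dg_neg : Dg true true = -1 := by refine Mext ?_ ?_ ?_ ?_ <;> simp [Dg]
lemma Dg_sq (a b : Bool) : Dg a b * Dg a b = 1 := by rw [Dg_mul]; simp [Dg_one]
lemma Dg_det (a b : Bool) : (Dg a b).det ≠ 0 := by cases a <;> cases b <;> simp [Dg, det_fin_two]
lemma Jp_Dg (ε a b : Bool) : ∃ a' b', Jp ε * Dg a b = Dg a' b' * Jp ε := by
  cases ε
  · exact ⟨a, b, by simp [Jp]⟩
  · exact ⟨b, a, by cases a <;> cases b <;> refine Mext ?_ ?_ ?_ ?_ <;> simp [Dg, Jp]⟩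
lemma Dg_Jp (ε a b : Bool) : ∃ a' b', Dg a b * Jp ε = Jp ε * Dg a' b' := by
  cases ε
  · exact ⟨a, b, by simp [Jp]⟩
  · exact ⟨b, a, by cases a <;> cases b <;> refine Mext ?_ ?_ ?_ ?_ <;> simp [Dg, Jp]⟩

/-- Signed representation. -/
def SR (n : ℕ) (g : M) : Prop := ∃ a b c d x, Rep n x ∧ g = Dg a b * x * Dg c d

lemma SR.mono {n m : ℕ} {g : M} (h : SR n g) (hn : n ≤ m) : SR m g := by
  obtain ⟨a, b, c, d, x, h1, h2⟩ := h
  exact ⟨a, b, c, d, x, h1.mono hn, h2⟩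
lemma SR.det {n : ℕ} {g : M} (h : SR n g) : g.det ≠ 0 := by
  obtain ⟨a, b, c, d, x, h1, rfl⟩ := h
  rw [det_mul, det_mul]
  exact mul_ne_zero (mul_ne_zero (Dg_det _ _) h1.det) (Dg_det _ _)
lemma SR.D {n : ℕ} {g : M} (h : SR n g) (p q : Bool) : SR n (Dg p q * g) := by
  obtain ⟨a, b, c, d, x, h1, rfl⟩ := h
  exact ⟨_, _, c, d, x, h1, by rw [← Matrix.mul_assoc, ← Matrix.mul_assoc, Dg_mul]⟩
lemma SR.D' {n : ℕ} {g : M} (h : SR n g) (p q : Bool) : SR n (g * Dg p q) := by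
  obtain ⟨a, b, c, d, x, h1, rfl⟩ := h
  exact ⟨a, b, _, _, x, h1, by rw [Matrix.mul_assoc, Dg_mul]⟩
lemma SR.J {n : ℕ} {g : M} (h : SR n g) (ε : Bool) : SR n (Jp ε * g) := by
  obtain ⟨a, b, c, d, x, h1, rfl⟩ := h
  obtain ⟨a', b', e⟩ := Jp_Dg ε a b
  exact ⟨a', b', c, d, _, ((Rep.J ε).mul h1).mono (by omega), by
    rw [← Matrix.mul_assoc, ← Matrix.mul_assoc, e, Matrix.mul_assoc (Dg a' b')]⟩
lemma Rep.sr {n : ℕ} {x : M} (h : Rep n x) : SR n x :=
  ⟨false, false, false, false, x, h, by simp [Dg_one]⟩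

lemma sr_gen_aux (β : Bool) {n : ℕ} {x : M} (h : Rep n x) :
    SR (n + 1) (gen β * (Dg false true * x)) := by
  obtain ⟨l, ε, hl, rfl⟩ := h
  cases l with
  | nil =>
    obtain ⟨a', b', e⟩ := Dg_Jp ε false true
    rw [G_nil, Matrix.one_mul, e, ← Matrix.mul_assoc]
    refine (Rep.sr ?_).D' _ _
    exact (Rep.congr ((Rep.G [β]).mul (Rep.J ε)) (by simp)).mono (by simp)
  | cons γ l =>
    simp only [List.length_cons] at hl
    have r := ((Rep.G l).mul (Rep.J ε))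
    rw [G_cons, Matrix.mul_assoc, ← Matrix.mul_assoc (Dg _ _), ← Matrix.mul_assoc]
    cases β <;> cases γ
    · have : gen false * (Dg false true * gen false) = Dg false true := by
        refine Mext ?_ ?_ ?_ ?_ <;> simp [Dg, gen]
      rw [this]
      exact (r.sr.D _ _).mono (by omega)
    · have : gen false * (Dg false true * gen true) = Jp true * gen false := by
        refine Mext ?_ ?_ ?_ ?_ <;> simp [Dg, gen, Jp]
      rw [this]
      exact ((Rep.congr ((Rep.J true).mul (Rep.G [false])) (by simp)).mul r).sr.mono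
        (by simp; omega)
    · have : gen true * (Dg false true * gen false) = Dg true true * (Jp true * gen true) := by
        refine Mext ?_ ?_ ?_ ?_ <;> simp [Dg, gen, Jp]
      rw [this, Matrix.mul_assoc]
      exact (((Rep.congr ((Rep.J true).mul (Rep.G [true])) (by simp)).mul r).sr.D _ _).mono
        (by simp; omega)
    · have : gen true * (Dg false true * gen true) = Dg false true := by
        refine Mext ?_ ?_ ?_ ?_ <;> simp [Dg, gen]
      rw [this]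
      exact (r.sr.D _ _).mono (by omega)

lemma SR.neg {n : ℕ} {g : M} (h : SR n g) : SR n (-g) := by
  have := h.D true true
  rwa [Dg_neg, Matrix.neg_mul, Matrix.one_mul] at this

lemma SR.gen {n : ℕ} {g : M} (h : SR n g) (β : Bool) : SR (n + 1) (gen β * g) := by
  obtain ⟨a, b, c, d, x, h1, rfl⟩ := h
  rw [← Matrix.mul_assoc]
  refine SR.D' ?_ _ _
  have r : SR (n + 1) (Uni.gen β * x) :=
    (Rep.congr ((Rep.G [β]).mul h1) (by simp)).sr.mono (by simp; omega)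
  cases a <;> cases b
  · simpa [Dg_one] using r
  · exact sr_gen_aux β h1
  · have : Dg true false = -Dg false true := by refine Mext ?_ ?_ ?_ ?_ <;> simp [Dg]
    rw [this, Matrix.neg_mul, Matrix.mul_neg]
    exact (sr_gen_aux β h1).neg
  · simpa [Dg_neg] using r.neg

lemma SR.mul {n m : ℕ} {g h : M} (hg : SR n g) (hh : SR m h) : SR (n + m) (g * h) := by
  obtain ⟨a, b, c, d, _, ⟨l, ε, hl, rfl⟩, rfl⟩ := hg
  have : ∀ l : List Bool, ∀ y, SR m y → SR (l.length + m) (G l * y) := by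
    intro l y hy
    induction l with
    | nil => simpa using hy
    | cons β l ih =>
      rw [G_cons, Matrix.mul_assoc]
      exact (ih.gen β).mono (by simp only [List.length_cons]; omega)
  simp only [Matrix.mul_assoc]
  exact ((this l _ ((hh.D c d).J ε)).D a b).mono (by omega)

lemma sign_ex (a b c d : ℤ) (h : a * d - b * c = 1 ∨ a * d - b * c = -1) : ∃ r t s : ℤ,
    (r = 1 ∨ r = -1) ∧ (t = 1 ∨ t = -1) ∧ (s = 1 ∨ s = -1) ∧
      0 ≤ r * a ∧ 0 ≤ r * s * b ∧ 0 ≤ t * c ∧ 0 ≤ t * s * d := by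
  rcases lt_trichotomy a 0 with ha | ha | ha <;> rcases lt_trichotomy b 0 with hb | hb | hb <;>
    rcases lt_trichotomy c 0 with hc | hc | hc <;> rcases lt_trichotomy d 0 with hd | hd | hd <;>
    first
    | exact ⟨1, 1, 1, by omega⟩
    | exact ⟨1, 1, -1, by omega⟩
    | exact ⟨1, -1, 1, by omega⟩
    | exact ⟨1, -1, -1, by omega⟩
    | exact ⟨-1, 1, 1, by omega⟩
    | exact ⟨-1, 1, -1, by omega⟩
    | exact ⟨-1, -1, 1, by omega⟩
    | exact ⟨-1, -1, -1, by omega⟩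
    | (exfalso; rcases h with h | h <;> nlinarith)

lemma sr_int (U : Matrix (Fin 2) (Fin 2) ℤ) (e : U.det = 1 ∨ U.det = -1) :
    ∃ n, SR n (U.map (Int.cast : ℤ → ℝ)) := by
  rw [det_fin_two] at e
  obtain ⟨r, t, s, hr, ht, hs, h1, h2, h3, h4⟩ := sign_ex _ _ _ _ e
  obtain ⟨n, hn⟩ := euclid_aux (r * U 0 0 + r * s * U 0 1 + t * U 1 0 + t * s * U 1 1).toNat
    _ _ _ _ h1 h2 h3 h4 (by omega) (by
      rcases hr with rfl | rfl <;> rcases ht with rfl | rfl <;> rcases hs with rfl | rfl <;>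
        rcases e with e | e <;> first | (left; linarith) | (right; linarith))
  refine ⟨n, decide (r = -1), decide (t = -1), false, decide (s = -1), _, hn, ?_⟩
  rcases hr with rfl | rfl <;> rcases ht with rfl | rfl <;> rcases hs with rfl | rfl <;>
    refine Mext ?_ ?_ ?_ ?_ <;> simp [Dg]

/-- Entrywise nonnegative matrices. -/
def NnM (P : M) : Prop := ∀ i j, 0 ≤ P i j

lemma NnM.mul {P Q : M} (h : NnM P) (h' : NnM Q) : NnM (P * Q) := fun i j => by
  rw [Matrix.mul_apply, Fin.sum_univ_two]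
  exact add_nonneg (mul_nonneg (h _ _) (h' _ _)) (mul_nonneg (h _ _) (h' _ _))
lemma NnM.J (ε : Bool) : NnM (Jp ε) := fun i j => by
  cases ε <;> fin_cases i <;> fin_cases j <;> simp [Jp]

lemma surj {A : M} (h : A.det ≠ 0) (v : V) : ∃ g, A *ᵥ g = v := ⟨A⁻¹ *ᵥ v, by
  rw [Matrix.mulVec_mulVec, Matrix.mul_nonsing_inv _ (isUnit_iff_ne_zero.mpr h), Matrix.one_mulVec]⟩

lemma exit0 {P : M} (hd : P.det ≠ 0) (h0 : 0 ≤ P 0 0) (h1 : 0 ≤ P 1 0) (hn : ¬ NnM P) :
    ∃ α, Nn α ∧ ∃ i : Fin 2, P *ᵥ α = Pi.single i 1 := by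
  have hn' : P 0 1 < 0 ∨ P 1 1 < 0 := by
    by_contra g
    push Not at g
    exact hn fun i j => by fin_cases i <;> fin_cases j <;> simp [h0, h1, g.1, g.2]
  rw [det_fin_two] at hd
  rcases lt_or_gt_of_ne hd with g | g
  · have q : P 1 1 ≤ 0 := by
      by_contra q
      push Not at q
      rcases hn' with u | u <;> nlinarith
    refine ⟨![P 1 1 / (P 0 0 * P 1 1 - P 0 1 * P 1 0), -P 1 0 / (P 0 0 * P 1 1 - P 0 1 * P 1 0)],
      ⟨div_nonneg_of_nonpos q g.le, div_nonneg_of_nonpos (neg_nonpos.mpr h1) g.le⟩, 0,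
      ext2 ?_ ?_⟩
    · rw [mv]; simp only [cons_val_zero, cons_val_one, Pi.single_eq_same]; field_simp; ring
    · rw [mv]; simp only [cons_val_zero, cons_val_one]; simp; field_simp; ring
  · have q : P 0 1 ≤ 0 := by
      by_contra q
      push Not at q
      rcases hn' with u | u <;> nlinarith
    refine ⟨![-P 0 1 / (P 0 0 * P 1 1 - P 0 1 * P 1 0), P 0 0 / (P 0 0 * P 1 1 - P 0 1 * P 1 0)],
      ⟨div_nonneg (neg_nonneg.mpr q) g.le, div_nonneg h0 g.le⟩, 1, ext2 ?_ ?_⟩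
    · rw [mv]; simp only [cons_val_zero, cons_val_one]; simp; field_simp; ring
    · rw [mv]; simp only [cons_val_zero, cons_val_one, Pi.single_eq_same]
      rw [← mul_div_assoc, ← mul_div_assoc, ← add_div, div_eq_one_iff_eq hd]; ring

lemma exit {P : M} (hd : P.det ≠ 0) (β : Bool) (h : NnM (P * gen β)) (hn : ¬ NnM P) :
    ∃ α, Nn α ∧ ∃ i : Fin 2, P *ᵥ α = Pi.single i 1 := by
  cases β
  · have h0 := h 0 1
    have h1 := h 1 1
    obtain ⟨α, a1, i, a2⟩ := exit0 (P := P * Jp true) (by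
      rw [det_mul]; exact mul_ne_zero hd (Rep.J true).det)
      (by simpa [gen, Jp, Matrix.mul_apply, Fin.sum_univ_two] using h0)
      (by simpa [gen, Jp, Matrix.mul_apply, Fin.sum_univ_two] using h1)
      (fun g => hn (by simpa [Matrix.mul_assoc, Jp_sq] using g.mul (NnM.J true)))
    exact ⟨_, Jp_nn true a1, i, by rw [Matrix.mulVec_mulVec, a2]⟩
  · exact exit0 hd (by simpa [gen, Matrix.mul_apply, Fin.sum_univ_two] using h 0 0)
      (by simpa [gen, Matrix.mul_apply, Fin.sum_univ_two] using h 1 0) hn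

/-- Canonical unimodular cones inside a given cone. -/
def St (Q : M) (n : ℕ) : Set M :=
  {A | NnM (Q * A) ∧ ((∃ a b, A = Dg a b) ∨
    (∃ a b x β, Rep n x ∧ Rep n (x * gen β) ∧ A = Dg a b * (x * gen β) ∧
      ¬ NnM (Q * (Dg a b * x))) ∨ ∃ a b x, Rep n x ∧ A = Dg a b * x * Dg false true)}

lemma St.sr {Q A : M} {n : ℕ} (h : A ∈ St Q n) : SR n A := by
  obtain ⟨-, ⟨a, b, rfl⟩ | ⟨a, b, x, β, -, h, rfl, -⟩ | ⟨a, b, x, h, rfl⟩⟩ := h
  · simpa using (Rep.one.sr.D a b).mono (Nat.zero_le n)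
  · exact h.sr.D a b
  · exact (h.sr.D a b).D' _ _

lemma st_norm {Q A : M} {n : ℕ} (h : SR n A) (hq : NnM (Q * A)) :
    ∃ A' ∈ St Q n, ∃ l ε, l.length ≤ n ∧ A = A' * (G l * Jp ε) := by
  have main : ∀ (a b : Bool) (l : List Bool), l.length ≤ n → NnM (Q * (Dg a b * G l)) →
      ∃ A' ∈ St Q n, ∃ r : List Bool, r.length ≤ l.length ∧ Dg a b * G l = A' * G r := by
    intro a b l
    induction l using List.reverseRecOn with
    | nil => exact fun _ h => ⟨Dg a b, ⟨by simpa using h, Or.inl ⟨a, b, rfl⟩⟩, [], le_rfl, rfl⟩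
    | append_singleton l β ih =>
      intro hl h
      have e : G (l ++ [β]) = G l * gen β := by simp [G_append]
      simp only [List.length_append, List.length_singleton] at hl
      by_cases g : NnM (Q * (Dg a b * G l))
      · obtain ⟨A', h1, r, h2, h3⟩ := ih (by omega) g
        exact ⟨A', h1, r ++ [β], by simpa using h2, by
          rw [e, ← Matrix.mul_assoc, h3, G_append, Matrix.mul_assoc]; simp⟩
      · refine ⟨_, ⟨h, Or.inr (Or.inl ⟨a, b, G l, β, (Rep.G l).mono (by omega), ?_, by rw [e], g⟩)⟩,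
          [], by simp, by simp⟩
        rw [← e]
        exact (Rep.G _).mono (by simpa using hl)
  have m1 : ∀ a b x, Rep n x → A = Dg a b * x →
      ∃ A' ∈ St Q n, ∃ l ε, l.length ≤ n ∧ A = A' * (G l * Jp ε) := by
    rintro a b _ ⟨l, ε, hl, rfl⟩ rfl
    obtain ⟨A', h1, r, h2, h3⟩ := main a b l hl (by
      simpa [Matrix.mul_assoc, Jp_sq] using hq.mul (NnM.J ε))
    exact ⟨A', h1, r, ε, h2.trans hl, by rw [← Matrix.mul_assoc, h3, Matrix.mul_assoc]⟩
  have m2 : ∀ a b x, Rep n x → A = Dg a b * x * Dg false true →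
      ∃ A' ∈ St Q n, ∃ l ε, l.length ≤ n ∧ A = A' * (G l * Jp ε) := fun a b x hx e =>
    ⟨A, ⟨hq, Or.inr (Or.inr ⟨a, b, x, hx, e⟩)⟩, [], false, by simp, by simp [Jp]⟩
  have ng : ∀ a b, Dg (!a) (!b) = -Dg a b := fun a b => by
    cases a <;> cases b <;> refine Mext ?_ ?_ ?_ ?_ <;> simp [Dg]
  obtain ⟨a, b, c, d, x, hx, e⟩ := h
  cases c <;> cases d
  · exact m1 a b x hx (by simpa [Dg_one] using e)
  · exact m2 a b x hx e
  · refine m2 (!a) (!b) x hx ?_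
    rw [e, ng, show Dg true false = -Dg false true from ng false true]
    simp
  · exact m1 (!a) (!b) x hx (by rw [e, ng, Dg_neg]; simp)

lemma le_St {Q : M} (hQ : Q.det ≠ 0) (n : ℕ) : Le (St Q n) (100 * (n + 1)) := by
  have bb := Le.bool.prod Le.bool
  have hQD : ∀ a b, (Q * Dg a b).det ≠ 0 := fun a b => by
    rw [det_mul]; exact mul_ne_zero hQ (Dg_det a b)
  choose v hv using fun (t : (Bool × Bool) × V) => surj (hQD t.1.1 t.1.2) t.2
  have v0 : ∀ t, t.2 ≠ 0 → v t ≠ 0 := fun t h g => h (by rw [← hv t, g, Matrix.mulVec_zero])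
  have s0 : ∀ i : Fin 2, (Pi.single i 1 : V) ≠ 0 := fun i h => by simpa using congrFun h i
  have w0 : (![1, -1] : V) ≠ 0 := fun h => by simpa using congrFun h 0
  have c1 := bb.image fun t => Dg t.1 t.2
  have c2 := Le.cover (S := {A | ∃ t ∈ _, A ∈ _}) (fun t : ((Bool × Bool) × Fin 2) × Bool =>
    (fun x => Dg t.1.1.1 t.1.1.2 * (x * gen t.2)) ''
      {x | Rep n x ∧ ∃ g, Nn g ∧ x *ᵥ g = v (t.1.1, Pi.single t.1.2 1)})
    ((bb.prod Le.univ).prod Le.bool) (fun t _ => (chain n (v0 _ (s0 _))).image _) fun _ h => h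
  have c3 := Le.cover (S := {A | ∃ t ∈ _, A ∈ _}) (fun t : Bool × Bool =>
    (fun x => Dg t.1 t.2 * x * Dg false true) ''
      ({x | Rep n x ∧ ∃ g, Nn g ∧ x *ᵥ g = v (t, ![1, -1])} ∪
        {x | Rep n x ∧ ∃ g, Nn g ∧ x *ᵥ g = -v (t, ![1, -1])}))
    bb (fun t _ => ((chain n (v0 _ w0)).union (chain n (neg_ne_zero.mpr (v0 _ w0)))).image _)
    fun _ h => h
  refine ((c1.union c2).union c3).mono ?_ (by simp; omega)
  rintro A ⟨hA, ⟨a, b, rfl⟩ | ⟨a, b, x, β, hx, -, rfl, hn⟩ | ⟨a, b, x, hx, rfl⟩⟩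
  · exact Or.inl (Or.inl ⟨(a, b), ⟨trivial, trivial⟩, rfl⟩)
  · obtain ⟨α, a1, i, a2⟩ := exit (P := Q * (Dg a b * x)) (by
      rw [← Matrix.mul_assoc, det_mul]; exact mul_ne_zero (hQD a b) hx.det) β
      (by simpa [Matrix.mul_assoc] using hA) hn
    refine Or.inl (Or.inr ⟨(((a, b), i), β), ⟨⟨⟨trivial, trivial⟩, trivial⟩, trivial⟩, x,
      ⟨hx, α, a1, inj (hQD a b) ?_⟩, rfl⟩)
    rw [hv ((a, b), Pi.single i 1), Matrix.mulVec_mulVec, Matrix.mul_assoc, a2]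
  · obtain ⟨g, hg⟩ := surj (A := Q * (Dg a b * x * Dg false true)) (by
      rw [det_mul]; exact mul_ne_zero hQ ((hx.sr.D a b).D' _ _).det) ![1, -1]
    have g0 := congrFun hg 0
    have g1 := congrFun hg 1
    rw [mv] at g0 g1
    simp only [cons_val_zero, cons_val_one] at g0 g1
    have e : x *ᵥ (Dg false true *ᵥ g) = v ((a, b), ![1, -1]) := inj (hQD a b) (by
      rw [hv ((a, b), ![1, -1]), ← hg]
      simp only [Matrix.mulVec_mulVec, Matrix.mul_assoc])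
    have d0 : (Dg false true *ᵥ g) 0 = g 0 := by simp [mv, Dg]
    have d1 : (Dg false true *ᵥ g) 1 = -g 1 := by simp [mv, Dg]
    have a00 := hA 0 0
    have a01 := hA 0 1
    have a10 := hA 1 0
    have a11 := hA 1 1
    refine Or.inr ⟨(a, b), ⟨trivial, trivial⟩, x, ?_, rfl⟩
    rcases le_total 0 (g 0) with p | p <;> rcases le_total 0 (g 1) with q | q
    · nlinarith [mul_nonneg a10 p, mul_nonneg a11 q]
    · exact Or.inl ⟨hx, _, ⟨by rw [d0]; exact p, by rw [d1]; linarith⟩, e⟩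
    · exact Or.inr ⟨hx, -(Dg false true *ᵥ g), ⟨by rw [Pi.neg_apply, d0]; linarith,
        by rw [Pi.neg_apply, d1]; linarith⟩, by rw [Matrix.mulVec_neg, e]⟩
    · nlinarith [mul_nonneg a00 (neg_nonneg.mpr p), mul_nonneg a01 (neg_nonneg.mpr q)]

lemma start {Q : M} (hQ : Q.det ≠ 0) : ∃ n A, SR n A ∧ NnM (Q * A) := by
  obtain ⟨v, hv⟩ := surj hQ ![1, 1]
  obtain ⟨N, hN⟩ := exists_nat_gt (|Q 0 0| + |Q 0 1| + |Q 1 0| + |Q 1 1|)
  have v0 := congrFun hv 0
  have v1 := congrFun hv 1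
  rw [mv] at v0 v1
  simp only [cons_val_zero, cons_val_one] at v0 v1
  obtain ⟨p, q, h0, h1⟩ : ∃ p q : ℤ, 0 < Q 0 0 * p + Q 0 1 * q ∧ 0 < Q 1 0 * p + Q 1 1 * q := by
    have f : ∀ c x : ℝ, c * x - |c| ≤ c * ⌊x⌋ := fun c x => by
      have := Int.floor_le x
      have := Int.lt_floor_add_one x
      rcases le_total 0 c with h | h
      · rw [abs_of_nonneg h]; nlinarith
      · rw [abs_of_nonpos h]; nlinarith
    refine ⟨⌊N * v 0⌋, ⌊N * v 1⌋, ?_, ?_⟩
    · have := congrArg ((N : ℝ) * ·) v0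
      nlinarith [f (Q 0 0) (N * v 0), f (Q 0 1) (N * v 1), abs_nonneg (Q 1 0), abs_nonneg (Q 1 1)]
    · have := congrArg ((N : ℝ) * ·) v1
      nlinarith [f (Q 1 0) (N * v 0), f (Q 1 1) (N * v 1), abs_nonneg (Q 0 0), abs_nonneg (Q 0 1)]
  have g0 : 0 < Int.gcd p q := Int.gcd_pos_iff.mpr (by
    by_contra h
    push Not at h
    simp [h.1, h.2] at h0)
  obtain ⟨g, p', q', hg, hc, rfl, rfl⟩ := Int.exists_gcd_one' g0
  obtain ⟨x, y, hxy⟩ := Int.isCoprime_iff_gcd_eq_one.mpr hc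
  have hg' : (0 : ℝ) < g := by exact_mod_cast hg
  push_cast at h0 h1
  have k0 : 0 < Q 0 0 * p' + Q 0 1 * q' := by
    by_contra h
    nlinarith
  have k1 : 0 < Q 1 0 * p' + Q 1 1 * q' := by
    by_contra h
    nlinarith
  obtain ⟨n0, hn0⟩ := exists_nat_gt ((Q 0 0 * y - Q 0 1 * x) / (Q 0 0 * p' + Q 0 1 * q'))
  obtain ⟨n1, hn1⟩ := exists_nat_gt ((Q 1 0 * y - Q 1 1 * x) / (Q 1 0 * p' + Q 1 1 * q'))
  rw [div_lt_iff₀ k0] at hn0
  rw [div_lt_iff₀ k1] at hn1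
  obtain ⟨n, hn⟩ := sr_int !![p', -y + (n0 + n1 : ℕ) * p'; q', x + (n0 + n1 : ℕ) * q'] (by
    left; rw [det_fin_two]; simp only [of_apply, cons_val', cons_val_zero, cons_val_one,
      cons_val_fin_one]; linear_combination hxy)
  refine ⟨n, _, hn, fun i j => ?_⟩
  have m0 := mul_nonneg (Nat.cast_nonneg (α := ℝ) n1) k0.le
  have m1 := mul_nonneg (Nat.cast_nonneg (α := ℝ) n0) k1.le
  rw [Matrix.mul_apply, Fin.sum_univ_two]
  fin_cases i <;> fin_cases j <;> simp <;> nlinarith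

lemma Le.subtype {α : Type} {S : Set α} {n : ℕ} (h : Le S n) :
    Le (Set.univ : Set {x // x ∈ S}) n :=
  Le.code (fun t x => x.1 = t) h (fun x _ => ⟨x.1, x.2, rfl⟩)
    fun _ _ _ h h' => Subtype.ext (h.trans h'.symm)

lemma pb_cone (F : Finset M) {Ω : Type} [Fintype Ω] (i0 : Ω) (B : Ω → M)
    (hB : ∀ i, (B i).det ≠ 0) (hF : ∀ T ∈ F, T.det ≠ 0)
    (h : ∀ T ∈ F, ∀ i, ∃ (j : Ω) (c : ℝ) (U : M), (∃ n, SR n U) ∧ T * B i = c • (B j * U))
    (X : ℕ → M) (hX : ∀ s, (X s).det ≠ 0) (hP : ∀ s, ∀ T ∈ F, ∃ P, NnM P ∧ T * X s = X (s + 1) * P) :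
    PB ↑F := by
  classical
  have h' : ∀ e : F × Ω, ∃ (j : Ω) (c : ℝ) (U : M) (n : ℕ), 0 < c ∧ SR n U ∧
      e.1.1 * B e.2 = c • (B j * U) := by
    intro e
    obtain ⟨j, c, U, ⟨n, hn⟩, hU⟩ := h e.1.1 e.1.2 e.2
    rcases lt_trichotomy c 0 with g | g | g
    · exact ⟨j, -c, -U, n, by linarith, hn.neg, by simp [hU]⟩
    · have := congrArg Matrix.det hU
      rw [g, zero_smul, det_mul, det_zero] at this
      exact absurd this (mul_ne_zero (hF _ e.1.2) (hB _))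
    · exact ⟨j, c, U, n, g, hn, hU⟩
  choose δ lam U n hlam hn hU using h'
  set l0 := Finset.univ.sup n with hl0
  have hn' : ∀ e, SR l0 (U e) := fun e => (hn e).mono (Finset.le_sup (Finset.mem_univ e))
  let Q : ℕ → Ω → M := fun s i => (X s)⁻¹ * B i
  have hQ : ∀ s i, (Q s i).det ≠ 0 := fun s i => by
    simp only [Q, det_mul, det_nonsing_inv, Ring.inverse_eq_inv']
    exact mul_ne_zero (inv_ne_zero (hX s)) (hB i)
  obtain ⟨n0, A0, a1, a2⟩ := start (hQ 0 i0)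
  obtain ⟨A1, a3, -⟩ := st_norm a1 a2
  have step : ∀ s (e : F × Ω) A, A ∈ St (Q s e.2) (n0 + l0 * s) →
      ∃ A' ∈ St (Q (s + 1) (δ e)) (n0 + l0 * (s + 1)), ∃ l ε, l.length ≤ n0 + l0 * (s + 1) ∧
        e.1.1 * (B e.2 * A) = lam e • (B (δ e) * A' * (G l * Jp ε)) := by
    intro s e A hA
    obtain ⟨P, p1, p2⟩ := hP s _ e.1.2
    have e1 : e.1.1 * (B e.2 * A) = lam e • (B (δ e) * (U e * A)) := by
      rw [← Matrix.mul_assoc, hU e, Matrix.smul_mul, Matrix.mul_assoc]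
    have e2 : lam e • (Q (s + 1) (δ e) * (U e * A)) = P * (Q s e.2 * A) := by
      have u1 := Matrix.mul_nonsing_inv _ (isUnit_iff_ne_zero.mpr (hX s))
      have u2 := Matrix.nonsing_inv_mul _ (isUnit_iff_ne_zero.mpr (hX (s + 1)))
      have : P * (X s)⁻¹ = (X (s + 1))⁻¹ * e.1.1 := by
        calc P * (X s)⁻¹ = (X (s + 1))⁻¹ * (X (s + 1) * P) * (X s)⁻¹ := by
              rw [← Matrix.mul_assoc, u2, Matrix.one_mul]
          _ = _ := by rw [← p2, Matrix.mul_assoc, Matrix.mul_assoc, u1, Matrix.mul_one]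
      simp only [Q]
      rw [Matrix.mul_assoc, ← Matrix.mul_smul, ← e1, Matrix.mul_assoc, ← Matrix.mul_assoc P, this,
        Matrix.mul_assoc]
    obtain ⟨A', b1, l, ε, b2, b3⟩ := st_norm (Q := Q (s + 1) (δ e))
      (((hn' e).mul (St.sr hA)).mono (by rw [Nat.mul_succ]; omega : _ ≤ n0 + l0 * (s + 1)))
      (fun i j => by
        have := (p1.mul hA.1) i j
        rw [← e2, Matrix.smul_apply, smul_eq_mul] at this
        exact nonneg_of_mul_nonneg_right this (hlam e))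
    exact ⟨A', b1, l, ε, b2, by rw [e1, b3, Matrix.mul_assoc]⟩
  let sz : ℕ → ℕ := fun k => (k + 1) * Fintype.card Ω * (100 * (n0 + l0 * k + 1))
  let cs : ℕ → ℕ := fun k => sz k * (k + 1) ^ Fintype.card ((F × Ω) × Bool)
  have c := PolyB.const
  have p0 : PolyB fun k => n0 + l0 * k := (c _).add ((c _).mul PolyB.id)
  have p1 : PolyB sz := ((PolyB.id.add (c _)).mul (c _)).mul ((c _).mul (p0.add (c _)))
  have p2 : PolyB cs := p1.mul (PolyB.pow _)
  refine ⟨fun k => cs k * Gys.bnd (cs k) (Fintype.card F * sz k) (n0 + l0 * k) k,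
    p2.mul (Gys.bnd_poly p2 ((c _).mul p1) p0), fun k r a hr => ?_⟩
  let SS : Set ((ℕ × Ω) × M) := {ω | ω.1.1 ≤ k ∧ ω.2 ∈ St (Q ω.1.1 ω.1.2) (n0 + l0 * ω.1.1)}
  have hS : Le SS (sz k) := by
    refine Le.cover (fun t : ℕ × Ω => (fun A => (t, A)) '' St (Q t.1 t.2) (n0 + l0 * t.1))
      ((Le.nat k).prod Le.univ) (fun t ht => ((le_St (hQ _ _) _).image _).mono subset_rfl ?_)
      fun ω hω => ⟨ω.1, ⟨hω.1, trivial⟩, ω.2, hω.2, rfl⟩
    have : l0 * t.1 ≤ l0 * k := Nat.mul_le_mul_left _ ht.1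
    omega
  let EE : Set (F × {ω // ω ∈ SS}) := {e | e.2.1.1.1 < k}
  have hE : Le (Set.univ : Set {e // e ∈ EE}) (Fintype.card F * sz k) :=
    Le.subtype ((Le.univ.prod hS.subtype).mono (fun _ _ => ⟨trivial, trivial⟩) le_rfl)
  have st2 : ∀ e : {e // e ∈ EE}, ∃ (ω : {ω // ω ∈ SS}) (l : List Bool) (ε : Bool),
      ω.1.1.1 = e.1.2.1.1.1 + 1 ∧ l.length ≤ n0 + l0 * k ∧
      e.1.1.1 * (B e.1.2.1.1.2 * e.1.2.1.2) =
        lam (e.1.1, e.1.2.1.1.2) • (B ω.1.1.2 * ω.1.2 * (G l * Jp ε)) := by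
    rintro ⟨⟨T, ⟨⟨s, i⟩, A⟩, hs, hA⟩, he⟩
    obtain ⟨A', b1, l, ε, b2, b3⟩ := step s (T, i) A hA
    have he' : s + 1 ≤ k := he
    exact ⟨⟨((s + 1, δ (T, i)), A'), he', b1⟩, l, ε, rfl,
      b2.trans (Nat.add_le_add_left (Nat.mul_le_mul_left _ he') _), b3⟩
  choose tg ls ep t1 t2 t3 using st2
  let S : Gys {e // e ∈ EE} {ω // ω ∈ SS} ((F × Ω) × Bool) :=
    ⟨fun e => e.1.2, tg, ls, fun e => ((e.1.1, e.1.2.1.1.2), ep e), Prod.snd, n0 + l0 * k, t2⟩
  let ω0 : {ω // ω ∈ SS} := ⟨((0, i0), A1), Nat.zero_le _, by simpa using a3⟩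
  refine Gys.graph_bound (S := S) (hS.subtype.prod (Le.mset k)) hE ↑F (fun c => c.1.1.1)
    (fun c => lam c.1) (fun ω => B ω.1.1.2 * ω.1.2) ω0 (fun ω => ?_) (fun e => (hlam _).ne')
    (fun e => e.1.1.2) (fun e => t3 e) ?_ r hr a
  · rw [det_mul]
    exact mul_ne_zero (hB _) (St.sr ω.2.2).det
  · have : ∀ L : List M, L.length ≤ k → (∀ T ∈ L, T ∈ F) → ∃ w j, S.Path ω0 j w ∧
        j.1.1.1 = L.length ∧ (w.map fun e => (S.col e).1.1.1) = L := by
      intro L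
      induction L with
      | nil => exact fun _ _ => ⟨[], ω0, rfl, rfl, rfl⟩
      | cons T L ih =>
        intro hL hL'
        simp only [List.length_cons] at hL
        obtain ⟨w, j, h1, h2, h3⟩ := ih (by omega) fun T hT => hL' T (List.mem_cons_of_mem _ hT)
        let e : {e // e ∈ EE} := ⟨(⟨T, hL' T List.mem_cons_self⟩, j), by
          change j.1.1.1 < k
          omega⟩
        exact ⟨e :: w, tg e, ⟨rfl, h1⟩, by rw [t1, List.length_cons, ← h2], by simp [h3, S, e]⟩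
    intro L hL hL'
    obtain ⟨w, j, h1, -, h3⟩ := this L hL hL'
    exact ⟨w, j, h1, h3⟩

end Pool.Agent.Lib.MP_34a884_an.Uni
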