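import Mathlib
import Pool.Agent.Lib.MP_34a884_an.UMain

/-! Estimates for the round case: long thin images and bounded quotients. -/

namespace Pool.Agent.Lib.MP_34a884_an.Uni

open Matrix

/-- The sum of the absolute values of the coordinates. -/
def n1 (v : V) : ℝ := |v 0| + |v 1|

lemma n1_nn (v : V) : 0 ≤ n1 v := add_nonneg (abs_nonneg _) (abs_nonneg _)
lemma n1_pos {v : V} (h : v ≠ 0) : 0 < n1 v := by
  refine lt_of_le_of_ne (n1_nn v) fun g => h (ext2 ?_ ?_)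
  · have : |v 0| = 0 := by unfold n1 at g; linarith [abs_nonneg (v 0), abs_nonneg (v 1)]
    simpa using this
  · have : |v 1| = 0 := by unfold n1 at g; linarith [abs_nonneg (v 0), abs_nonneg (v 1)]
    simpa using this
lemma n1_rot (v : V) : n1 (rot v) = n1 v := by simp [n1, add_comm]
lemma n1_smul (c : ℝ) (v : V) : n1 (c • v) = |c| * n1 v := by simp [n1, abs_mul, mul_add]
lemma le_n1 (v : V) (i : Fin 2) : |v i| ≤ n1 v := by
  fin_cases i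
  · exact le_add_of_nonneg_right (abs_nonneg _)
  · exact le_add_of_nonneg_left (abs_nonneg _)
lemma dot_le (c v : V) : |c ⬝ᵥ v| ≤ n1 c * n1 v := by
  rw [dot]
  refine (abs_add_le _ _).trans ?_
  rw [abs_mul, abs_mul, n1, n1]
  nlinarith [mul_nonneg (abs_nonneg (c 0)) (abs_nonneg (v 1)),
    mul_nonneg (abs_nonneg (c 1)) (abs_nonneg (v 0))]
lemma d2_rot (u p : V) : d2 u p = rot u ⬝ᵥ p := by simp only [d2, dot, rot0, rot1]; ring
lemma d2_le (u p : V) : |d2 u p| ≤ n1 u * n1 p := by rw [d2_rot, ← n1_rot u]; exact dot_le _ _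
lemma n1_sq (u : V) : n1 u ^ 2 ≤ 2 * (u ⬝ᵥ u) := by
  rw [n1, dot]
  nlinarith [sq_nonneg (|u 0| - |u 1|), sq_abs (u 0), sq_abs (u 1)]

/-- Entries are bounded in terms of the determinant. -/
def Nu (K : ℝ) (e : M) : Prop := ∀ i j, e i j ^ 2 ≤ K * |e.det|

lemma Nu.mul {K K' : ℝ} {e g : M} (h : Nu K e) (h' : Nu K' g) : Nu (4 * K * K') (e * g) := by
  intro i j
  rw [Matrix.mul_apply, Fin.sum_univ_two, det_mul, abs_mul]
  have a1 := mul_le_mul (h i 0) (h' 0 j) (sq_nonneg _) ((sq_nonneg _).trans (h i 0))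
  have a2 := mul_le_mul (h i 1) (h' 1 j) (sq_nonneg _) ((sq_nonneg _).trans (h i 0))
  nlinarith [sq_nonneg (e i 0 * g 0 j - e i 1 * g 1 j)]

lemma Nu.mono {K K' : ℝ} {e : M} (h : Nu K e) (hK : K ≤ K') : Nu K' e := fun i j =>
  (h i j).trans (mul_le_mul_of_nonneg_right hK (abs_nonneg _))

lemma Nu.inv {K : ℝ} {e : M} (h : Nu K e) (hd : e.det ≠ 0) : Nu K e⁻¹ := by
  intro i j
  have a : (e.adjugate i j) ^ 2 ≤ K * |e.det| := by
    rw [adjugate_fin_two]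
    fin_cases i <;> fin_cases j <;> simp [h _ _]
  rw [det_nonsing_inv, Matrix.inv_def, Ring.inverse_eq_inv', Matrix.smul_apply, smul_eq_mul,
    mul_pow, abs_inv, ← sq_abs e.det⁻¹, abs_inv]
  have p : 0 < |e.det| := abs_pos.mpr hd
  calc |e.det|⁻¹ ^ 2 * e.adjugate i j ^ 2 ≤ |e.det|⁻¹ ^ 2 * (K * |e.det|) := by gcongr
    _ = _ := by field_simp

lemma Nu.one : Nu 1 1 := fun i j => by fin_cases i <;> fin_cases j <;> simp

lemma thin_aux {δ κ R R' Δ ν β η s bu bn pu pn qu qn : ℝ} (hδ : 0 < δ) (hκ : 0 < κ) (hR : 0 < R)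
    (hR' : 0 < R') (hΔ : 0 < Δ) (hν : 0 < ν) (hβ : 0 < β)
    (big : (16 * κ / δ ^ 3 + 32 / δ ^ 2) * Δ < ν ^ 2)
    (r1 : δ * R ^ 2 ≤ κ * Δ * R' ^ 2) (r2 : δ * Δ * R' ^ 2 ≤ κ * R ^ 2) (hs : ν ^ 2 ≤ 2 * s)
    (e1 : δ * β * R ≤ η) (e2 : δ * |bu| * R' ≤ η) (hbn : |bn| ≤ ν * β) (hpu : |pu| ≤ ν * R)
    (hqn : |qn| ≤ Δ * R') (ip : s * η = bu * pu + bn * pn) (iq : s * η = bu * qu + bn * qn) :
    δ / 8 * |pu| < |pn| ∧ |qn| < δ / 8 * |qu| := by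
  have η0 : 0 < η := lt_of_lt_of_le (by positivity) e1
  have b1 : 16 * κ * Δ < δ ^ 3 * ν ^ 2 := by
    have : 16 * κ / δ ^ 3 * Δ < ν ^ 2 := lt_of_le_of_lt (by
      rw [add_mul]; exact le_add_of_nonneg_right (by positivity)) big
    rw [div_mul_eq_mul_div, div_lt_iff₀ (by positivity)] at this
    linarith
  have b2 : 32 * Δ < δ ^ 2 * ν ^ 2 := by
    have : 32 / δ ^ 2 * Δ < ν ^ 2 := lt_of_le_of_lt (by
      rw [add_mul]; exact le_add_of_nonneg_left (by positivity)) big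
    rw [div_mul_eq_mul_div, div_lt_iff₀ (by positivity)] at this
    linarith
  have c1 : 4 * R ≤ δ * R' * ν := by
    refine abs_le_of_sq_le_sq' ?_ (by positivity) |>.2
    refine le_of_mul_le_mul_left ?_ hδ
    nlinarith [mul_le_mul_of_nonneg_right b1.le (sq_nonneg R')]
  have c2 : 4 * Δ * R' ≤ δ * R * ν := by
    refine abs_le_of_sq_le_sq' ?_ (by positivity) |>.2
    refine le_of_mul_le_mul_left ?_ hδ
    nlinarith [mul_le_mul_of_nonneg_right b1.le (sq_nonneg R), mul_le_mul_of_nonneg_left r2 hΔ.le]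
  have s1 : ν ^ 2 * η ≤ 2 * (s * η) := by nlinarith
  have t1 : s * η ≤ |bu| * |pu| + |bn| * |pn| := by
    rw [ip, ← abs_mul, ← abs_mul]; exact add_le_add (le_abs_self _) (le_abs_self _)
  have t2 : s * η ≤ |bu| * |qu| + |bn| * |qn| := by
    rw [iq, ← abs_mul, ← abs_mul]; exact add_le_add (le_abs_self _) (le_abs_self _)
  have u0 := abs_nonneg bu
  constructor
  · have d1 : 4 * (|bu| * |pu|) ≤ ν ^ 2 * η := by
      have := mul_le_mul_of_nonneg_left hpu u0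
      have := mul_le_mul_of_nonneg_left c1 (mul_nonneg u0 hν.le)
      have := mul_le_mul_of_nonneg_left e2 (sq_nonneg ν)
      nlinarith
    have d2 : |bn| * |pn| ≤ ν * β * |pn| := mul_le_mul_of_nonneg_right hbn (abs_nonneg _)
    have d3 : ν ^ 2 * (δ * β * R) ≤ ν ^ 2 * η := mul_le_mul_of_nonneg_left e1 (sq_nonneg ν)
    have d4 : ν * β * (ν * δ * R) ≤ ν * β * (4 * |pn|) := by nlinarith
    have d5 := le_of_mul_le_mul_left d4 (by positivity)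
    have d6 := mul_le_mul_of_nonneg_left hpu hδ.le
    have : 0 < ν * δ * R := by positivity
    nlinarith
  · have d1 : |bn| * |qn| ≤ ν * β * (Δ * R') :=
      mul_le_mul hbn hqn (abs_nonneg _) (by positivity)
    have d2 := mul_le_mul_of_nonneg_left c2 (mul_nonneg hν.le hβ.le)
    have d3 : ν ^ 2 * (δ * β * R) ≤ ν ^ 2 * η := mul_le_mul_of_nonneg_left e1 (sq_nonneg ν)
    have d4 : ν ^ 2 * η ≤ 4 * (|bu| * |qu|) := by nlinarith
    have d5 := mul_le_mul_of_nonneg_right e2 (abs_nonneg qu)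
    have d6 := mul_le_mul_of_nonneg_left d4 (mul_pos hδ hR').le
    have d7 : η * (δ * R' * ν ^ 2) ≤ η * (4 * |qu|) := by nlinarith
    have d8 := le_of_mul_le_mul_left d7 η0
    have d9 := mul_le_mul_of_nonneg_left d8 hδ.le
    have := mul_lt_mul_of_pos_right b2 hR'
    nlinarith

lemma sgn_ex (x : ℝ) : ∃ b : Bool, (bif b then 1 else -1 : ℝ) * x = |x| := by
  rcases le_total 0 x with h | h
  · exact ⟨true, by simp [abs_of_nonneg h]⟩
  · exact ⟨false, by simp [abs_of_nonpos h]⟩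

lemma sgn_le (b : Bool) (x : ℝ) : |(bif b then 1 else -1 : ℝ) * x| = |x| := by cases b <;> simp

lemma thin {S S' : Set V} {e : M} {δ κ R R' : ℝ} (hδ : 0 < δ) (hκ : 0 < κ) (hR : 0 < R)
    (hR' : 0 < R') (he : e.det ≠ 0) (big : ¬ Nu (16 * κ / δ ^ 3 + 32 / δ ^ 2) e)
    (r1 : δ * R ^ 2 ≤ κ * |e.det| * R' ^ 2) (r2 : δ * |e.det| * R' ^ 2 ≤ κ * R ^ 2)
    (u1 : ∀ p ∈ S, n1 p ≤ R) (u2 : ∀ p ∈ S', n1 p ≤ R')
    (l1 : ∀ d, ∃ p ∈ S, δ * n1 d * R ≤ d ⬝ᵥ p) (l2 : ∀ d, ∃ p ∈ S', δ * n1 d * R' ≤ d ⬝ᵥ p) :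
    Cov (Tie S ((fun v => e *ᵥ v) '' S')) (2 * 2 * 2) := by
  simp only [Nu, not_forall, not_le] at big
  obtain ⟨i, j, big⟩ := big
  set u := e *ᵥ Pi.single j 1 with hu
  have ui : u i = e i j := by simp [hu]
  have hΔ : 0 < |e.det| := abs_pos.mpr he
  have b0 : e i j ^ 2 ≤ n1 u ^ 2 := by
    rw [← ui, ← sq_abs]
    exact pow_le_pow_left₀ (abs_nonneg _) (le_n1 u i) 2
  have ns : n1 (Pi.single j 1 : V) = 1 := by fin_cases j <;> simp [n1]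
  have u0 : u ≠ 0 := ne0 he fun h => by simp [h, n1] at ns
  let φ : Bool × Bool → V := fun t => (bif t.1 then 1 else -1 : ℝ) • rot u -
    ((bif t.2 then 1 else -1 : ℝ) * (δ / 8)) • u
  have hφ : ∀ t p, φ t ⬝ᵥ p = (bif t.1 then 1 else -1 : ℝ) * d2 u p -
      δ / 8 * ((bif t.2 then 1 else -1 : ℝ) * (u ⬝ᵥ p)) := fun t p => by
    simp only [φ, sub_dotProduct, smul_dotProduct, smul_eq_mul, d2_rot]; ring
  refine Cov.cover (fun t => Tie {p ∈ S | 0 < φ t ⬝ᵥ p}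
    {p ∈ (fun v => e *ᵥ v) '' S' | φ t ⬝ᵥ p < 0}) (Le.bool.prod Le.bool)
    (fun t _ => tie_sep (fun _ h => h.2) fun _ h => h.2) ?_
  rintro b ⟨b0, p, hp, _, ⟨v, hv, rfl⟩, e1, m1, m2⟩
  simp only at e1 m2
  obtain ⟨p1, g1, g2⟩ := l1 b
  obtain ⟨p2, g3, g4⟩ := l2 (eᵀ *ᵥ b)
  have g5 := m2 _ ⟨p2, g3, rfl⟩
  simp only at g5
  rw [dotT e b p2, e1] at g5
  have bu : b ⬝ᵥ u = (eᵀ *ᵥ b) j := by rw [hu, dotT]; simp
  have id : ∀ z, u ⬝ᵥ u * (b ⬝ᵥ z) = b ⬝ᵥ u * (u ⬝ᵥ z) + d2 u b * d2 u z := fun z => by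
    simp only [dot, d2]; ring
  obtain ⟨k1, k2⟩ := thin_aux (η := b ⬝ᵥ p) (bu := b ⬝ᵥ u) (bn := d2 u b) (pu := u ⬝ᵥ p)
    (pn := d2 u p) (qu := u ⬝ᵥ (e *ᵥ v)) (qn := d2 u (e *ᵥ v)) hδ hκ hR hR' hΔ (n1_pos u0)
    (n1_pos b0) (big.trans_le ‹_›) r1 r2 (n1_sq u) (g2.trans (m1 p1 g1))
    (le_trans (by rw [bu]; gcongr; exact le_n1 _ _) (g4.trans g5)) (d2_le u b)
    ((dot_le u p).trans (by gcongr; exacts [n1_nn _, u1 p hp]))
    (by
      rw [hu, d2_mul, abs_mul]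
      have := d2_le (Pi.single j 1) v
      rw [ns, one_mul] at this
      exact mul_le_mul_of_nonneg_left (this.trans (u2 v hv)) hΔ.le)
    (id p) (by rw [← e1]; exact id _)
  obtain ⟨s1, h1⟩ := sgn_ex (d2 u p)
  obtain ⟨s2, h2⟩ := sgn_ex (u ⬝ᵥ (e *ᵥ v))
  refine ⟨(s1, s2), ⟨trivial, trivial⟩, b0, p, ⟨hp, ?_⟩, _, ⟨⟨v, hv, rfl⟩, ?_⟩, e1,
    fun y hy => m1 y hy.1, fun y hy => m2 y hy.1⟩
  · rw [hφ, h1]
    have := le_abs_self ((bif s2 then 1 else -1 : ℝ) * (u ⬝ᵥ p))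
    rw [sgn_le] at this
    nlinarith
  · rw [hφ, h2]
    have := le_abs_self ((bif s1 then 1 else -1 : ℝ) * d2 u (e *ᵥ v))
    rw [sgn_le] at this
    linarith

lemma quot_bound {g : M} {c c0 p0 : V} {δ R : ℝ} (hδ : 0 < δ) (hR : 0 < R) (hg : g.det = 1)
    (h0 : c0 ≠ 0) (e : gᵀ *ᵥ c = c0) (u1 : n1 p0 ≤ R) (u2 : n1 (g *ᵥ p0) ≤ R)
    (l1 : δ * n1 c0 * R ≤ c0 ⬝ᵥ p0) (l2 : δ * n1 c * R ≤ c0 ⬝ᵥ p0) : Nu (4 / δ ^ 2) g := by
  intro i j
  have η0 : 0 < c0 ⬝ᵥ p0 := lt_of_lt_of_le (by have := n1_pos h0; positivity) l1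
  have ns : n1 (Pi.single j 1 : V) = 1 := by fin_cases j <;> simp [n1]
  have id : c0 ⬝ᵥ p0 * g i j = c0 j * (g *ᵥ p0) i + d2 p0 (Pi.single j 1) * rot c i := by
    subst e
    rw [det_fin_two] at hg
    rw [dot]
    fin_cases i <;> fin_cases j <;> simp [mv, d2]
    · linear_combination (c 1 * p0 1) * hg
    · linear_combination (-(c 1 * p0 0)) * hg
    · linear_combination (-(c 0 * p0 1)) * hg
    · linear_combination (c 0 * p0 0) * hg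
  have a1 : |c0 j * (g *ᵥ p0) i| ≤ n1 c0 * R := by
    rw [abs_mul]
    exact mul_le_mul (le_n1 _ _) ((le_n1 _ _).trans u2) (abs_nonneg _) (n1_nn _)
  have a2 : |d2 p0 (Pi.single j 1) * rot c i| ≤ R * n1 c := by
    rw [abs_mul, ← n1_rot c]
    have := d2_le p0 (Pi.single j 1)
    rw [ns, mul_one] at this
    exact mul_le_mul (this.trans u1) (le_n1 _ _) (abs_nonneg _) hR.le
  have a3 : c0 ⬝ᵥ p0 * |g i j| ≤ n1 c0 * R + R * n1 c := by
    rw [← abs_of_pos η0, ← abs_mul, id]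
    exact (abs_add_le _ _).trans (add_le_add a1 a2)
  have a4 : c0 ⬝ᵥ p0 * (δ * |g i j|) ≤ c0 ⬝ᵥ p0 * 2 := by
    nlinarith [mul_le_mul_of_nonneg_left a3 hδ.le]
  have a5 := le_of_mul_le_mul_left a4 η0
  rw [hg, abs_one, mul_one, le_div_iff₀ (by positivity), ← sq_abs]
  nlinarith [mul_nonneg hδ.le (abs_nonneg (g i j))]

/-- Matrices with integer entries. -/
def IntM (X : M) : Prop := ∀ i j, ∃ z : ℤ, X i j = z

lemma IntM.mul {X Y : M} (h : IntM X) (h' : IntM Y) : IntM (X * Y) := fun i j => by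
  obtain ⟨a, ha⟩ := h i 0
  obtain ⟨b, hb⟩ := h i 1
  obtain ⟨c, hc⟩ := h' 0 j
  obtain ⟨d, hd⟩ := h' 1 j
  exact ⟨a * c + b * d, by rw [Matrix.mul_apply, Fin.sum_univ_two, ha, hb, hc, hd]; push_cast; rfl⟩

lemma IntM.adj {X : M} (h : IntM X) : IntM X.adjugate := fun i j => by
  rw [adjugate_fin_two]
  fin_cases i <;> fin_cases j
  · simpa using h 1 1
  · obtain ⟨a, ha⟩ := h 0 1
    exact ⟨-a, by simp [ha]⟩
  · obtain ⟨a, ha⟩ := h 1 0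
    exact ⟨-a, by simp [ha]⟩
  · simpa using h 0 0

lemma box_fin (K : ℝ) : {X : M | IntM X ∧ ∀ i j, X i j ^ 2 ≤ K}.Finite := by
  have h : {x : ℝ | (∃ z : ℤ, x = z) ∧ x ^ 2 ≤ K}.Finite := by
    refine ((Set.finite_Icc (-⌈K⌉) ⌈K⌉).image (Int.cast : ℤ → ℝ)).subset ?_
    rintro _ ⟨⟨z, rfl⟩, h⟩
    have : z ^ 2 ≤ ⌈K⌉ := by exact_mod_cast h.trans (Int.le_ceil K)
    exact ⟨z, ⟨by nlinarith [sq_nonneg (z + 1), sq_nonneg z], by
      nlinarith [sq_nonneg (z - 1), sq_nonneg z]⟩, rfl⟩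
  exact (Set.Finite.pi' fun _ : Fin 2 => Set.Finite.pi' fun _ : Fin 2 => h).subset
    fun X hX i j => ⟨hX.1 i j, hX.2 i j⟩

end Pool.Agent.Lib.MP_34a884_an.Uni
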