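import Mathlib
import Pool.Agent.Lib.MP_34a884_an.VThin

/-! The round case. -/

namespace Pool.Agent.Lib.MP_34a884_an.Uni

open Matrix

/-- Words in the set. -/
def Sub (F : Finset M) (L : List M) : Prop := ∀ T ∈ L, T ∈ (F : Set M)

/-- All products are multiples of integer matrices of bounded determinant. -/
def BD (F : Finset M) (N : ℝ) : Prop :=
  ∀ L, Sub F L → ∃ (c : ℝ) (X : M), IntM X ∧ |X.det| ≤ N ∧ L.prod = c • X

variable {F : Finset M}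

lemma Sub.append {x y : List M} : Sub F (x ++ y) ↔ Sub F x ∧ Sub F y := by
  simp only [Sub, List.mem_append]
  exact ⟨fun h => ⟨fun T g => h T (Or.inl g), fun T g => h T (Or.inr g)⟩,
    fun h T g => g.elim (h.1 T) (h.2 T)⟩

lemma Sub.cons {t : M} {y : List M} : Sub F (t :: y) ↔ t ∈ F ∧ Sub F y := by simp [Sub]

lemma Sub.det (hF : ∀ T ∈ F, T.det ≠ 0) {L : List M} (h : Sub F L) : L.prod.det ≠ 0 := by
  induction L with
  | nil => simp
  | cons T L ih =>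
    rw [List.prod_cons, det_mul]
    exact mul_ne_zero (hF T (Sub.cons.mp h).1) (ih (Sub.cons.mp h).2)

/-- Determinants of short words. -/
def Dets (F : Finset M) (k : ℕ) : Set ℝ := {r | ∃ L, Sub F L ∧ L.length ≤ k ∧ r = L.prod.det}

lemma le_dets (k : ℕ) : Le (Dets F k) ((k + 1) ^ Fintype.card F) := by
  refine ((Le.mset (α := F) k).image fun σ => (σ.map fun T => T.1.det).prod).mono ?_ le_rfl
  rintro _ ⟨L, h1, h2, rfl⟩
  have : ∀ w : List F, (((w : Multiset F)).map fun T => T.1.det).prod =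
      (w.map Subtype.val).prod.det := by
    intro w
    induction w with
    | nil => simp
    | cons T w ih => rw [List.map_cons, List.prod_cons, det_mul, ← ih]; simp
  exact ⟨(L.attachWith (· ∈ F) h1 : List F), by simpa using h2, by
    simp only []; rw [this]; simp⟩

/-- Possible quotients. -/
def QSet (F : Finset M) (N K : ℝ) (k : ℕ) : Set M :=
  {e | (∃ (μ : ℝ) (X : M), IntM X ∧ |X.det| ≤ N ^ 2 ∧ e = μ • X) ∧ Nu K e ∧
    ∃ r ∈ Dets F k, ∃ r' ∈ Dets F k, r ≠ 0 ∧ r' ≠ 0 ∧ e.det * r = r'}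

lemma le_Q (N : ℝ) {K : ℝ} (hK : 0 ≤ K) : ∃ f, PolyB f ∧ ∀ k, Le (QSet F N K k) (f k) := by
  obtain ⟨z, hz⟩ := Le.of_finite (box_fin (K * N ^ 2))
  refine ⟨fun k => (k + 1) ^ Fintype.card F * (k + 1) ^ Fintype.card F * z * 2,
    (((PolyB.pow _).mul (PolyB.pow _)).mul (PolyB.const _)).mul (PolyB.const _), fun k => ?_⟩
  classical
  refine Le.code (fun (t : ((ℝ × ℝ) × M) × Bool) e => ∃ μ : ℝ, e = μ • t.1.2 ∧ t.1.1.1 ≠ 0 ∧
    t.1.1.2 ≠ 0 ∧ e.det * t.1.1.1 = t.1.1.2 ∧ (t.2 = true ↔ 0 < μ))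
    ((((le_dets k).prod (le_dets k)).prod hz).prod Le.bool) ?_ ?_
  · rintro _ ⟨⟨μ, X, h1, h2, rfl⟩, h3, r, hr, r', hr', g1, g2, g3⟩
    refine ⟨(((r, r'), X), decide (0 < μ)), ⟨⟨⟨hr, hr'⟩, h1, fun i j => ?_⟩, trivial⟩, μ, rfl, g1,
      g2, g3, by simp⟩
    have m0 : μ ≠ 0 := by rintro rfl; simp at g3; exact g2 g3.symm
    have := h3 i j
    rw [det_smul, Matrix.smul_apply, smul_eq_mul, Fintype.card_fin, abs_mul, abs_pow, sq_abs,
      mul_pow] at this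
    have p := sq_pos_of_ne_zero m0
    refine le_of_mul_le_mul_left (this.trans ?_) p
    nlinarith [mul_le_mul_of_nonneg_left h2 (mul_nonneg hK p.le)]
  · rintro ⟨⟨⟨r, r'⟩, X⟩, b⟩ _ _ ⟨μ, rfl, g1, g2, g3, g4⟩ ⟨μ', rfl, -, -, g3', g4'⟩
    simp only [det_smul, Fintype.card_fin] at *
    have x0 : X.det ≠ 0 := by rintro h; simp [h] at g3; exact g2 g3.symm
    have e : μ ^ 2 = μ' ^ 2 := mul_right_cancel₀ x0 (mul_right_cancel₀ g1 (g3.trans g3'.symm))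
    rcases sq_eq_sq_iff_eq_or_eq_neg.mp e with h | h
    · rw [h]
    · have m0 : μ' ≠ 0 := by rintro rfl; simp at g3'; exact g2 g3'.symm
      rcases lt_or_gt_of_ne m0 with u | u
      · have := g4'.mp (g4.mpr (by linarith)); linarith
      · have := g4.mp (g4'.mpr u); linarith

lemma mem_Q {N K : ℝ} {k : ℕ} (hF : ∀ T ∈ F, T.det ≠ 0) (hB : BD F N) {x x' : List M} {e : M}
    (hx : Sub F x) (hx' : Sub F x') (l : x.length ≤ k) (l' : x'.length ≤ k) (hK : Nu K e)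
    (h : x'.prod = x.prod * e ∨ x'.prod = e * x.prod) : e ∈ QSet F N K k := by
  obtain ⟨c, X, a1, a2, a3⟩ := hB x hx
  obtain ⟨c', X', b1, b2, b3⟩ := hB x' hx'
  have d1 := hx.det hF
  have n0 : c * X.det ≠ 0 := by
    rw [a3, det_smul, Fintype.card_fin] at d1
    exact mul_ne_zero (fun h => d1 (by simp [h])) (right_ne_zero_of_mul d1)
  have bd : |X.det * X'.det| ≤ N ^ 2 := by
    rw [abs_mul, sq]
    exact mul_le_mul a2 b2 (abs_nonneg _) ((abs_nonneg _).trans a2)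
  refine ⟨?_, hK, _, ⟨x, hx, l, rfl⟩, _, ⟨x', hx', l', rfl⟩, d1, hx'.det hF, ?_⟩
  · rcases h with h | h
    · refine ⟨c' / (c * X.det), X.adjugate * X', a1.adj.mul b1, by
        simpa [det_mul, det_adjugate] using bd, ?_⟩
      have : (c * X.det) • e = c' • (X.adjugate * X') := by
        rw [← Matrix.mul_smul, ← b3, h, a3, ← Matrix.mul_assoc, Matrix.mul_smul, adjugate_mul,
          smul_smul, Matrix.smul_mul, Matrix.one_mul]
      rw [div_eq_inv_mul, ← smul_smul, ← this, smul_smul, inv_mul_cancel₀ n0, one_smul]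
    · refine ⟨c' / (c * X.det), X' * X.adjugate, b1.mul a1.adj, by
        simpa [det_mul, det_adjugate, mul_comm] using bd, ?_⟩
      have : (c * X.det) • e = c' • (X' * X.adjugate) := by
        rw [← Matrix.smul_mul, ← b3, h, a3, Matrix.mul_assoc, Matrix.smul_mul, mul_adjugate,
          smul_smul, Matrix.mul_smul, Matrix.mul_one]
      rw [div_eq_inv_mul, ← smul_smul, ← this, smul_smul, inv_mul_cancel₀ n0, one_smul]
  · rcases h with h | h <;> rw [h, det_mul] <;> ring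

/-- Circumradius of the orbit. -/
noncomputable def Rr (F : Finset M) (j : ℕ) (a : V) : ℝ := sSup (n1 '' Orb F j a)
/-- Largest determinant of two orbit points. -/
noncomputable def Aa (F : Finset M) (j : ℕ) (a : V) : ℝ :=
  sSup ((fun t : V × V => |d2 t.1 t.2|) '' (Orb F j a ×ˢ Orb F j a))

lemma orb_ne (hne : F.Nonempty) (j : ℕ) (a : V) : (Orb F j a).Nonempty := by
  obtain ⟨T, hT⟩ := hne
  exact ⟨_, List.replicate j T, by simp, fun S hS => (List.eq_of_mem_replicate hS) ▸ hT, rfl⟩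

lemma le_R {j : ℕ} {a p : V} (h : p ∈ Orb F j a) : n1 p ≤ Rr F j a :=
  le_csSup ((orb_fin F.finite_toSet j a).image _).bddAbove ⟨p, h, rfl⟩
lemma R_mem (hne : F.Nonempty) (j : ℕ) (a : V) : ∃ p ∈ Orb F j a, n1 p = Rr F j a :=
  ((orb_ne hne j a).image _).csSup_mem ((orb_fin F.finite_toSet j a).image _)
lemma le_A {j : ℕ} {a p q : V} (h : p ∈ Orb F j a) (h' : q ∈ Orb F j a) : |d2 p q| ≤ Aa F j a :=
  le_csSup (((orb_fin F.finite_toSet j a).prod (orb_fin F.finite_toSet j a)).image _).bddAbove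
    ⟨(p, q), ⟨h, h'⟩, rfl⟩
lemma A_mem (hne : F.Nonempty) (j : ℕ) (a : V) :
    ∃ p ∈ Orb F j a, ∃ q ∈ Orb F j a, |d2 p q| = Aa F j a := by
  obtain ⟨t, h1, h2⟩ := (((orb_ne hne j a).prod (orb_ne hne j a)).image
    fun t : V × V => |d2 t.1 t.2|).csSup_mem
    (((orb_fin F.finite_toSet j a).prod (orb_fin F.finite_toSet j a)).image _)
  exact ⟨t.1, h1.1, t.2, h1.2, h2⟩

lemma orb_step {j : ℕ} {a p : V} {T : M} (hT : T ∈ F) (h : p ∈ Orb F j a) :
    T *ᵥ p ∈ Orb F (j + 1) a := by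
  obtain ⟨L, h1, h2, rfl⟩ := h
  exact ⟨T :: L, by simp [h1], Sub.cons.mpr ⟨hT, h2⟩, by rw [List.prod_cons, Matrix.mulVec_mulVec]⟩

lemma R_pos (hne : F.Nonempty) (hF : ∀ T ∈ F, T.det ≠ 0) (j : ℕ) {a : V} (ha : a ≠ 0) :
    0 < Rr F j a := by
  obtain ⟨_, L, h1, h2, rfl⟩ := orb_ne hne j a
  exact (n1_pos (ne0 (Sub.det hF h2) ha)).trans_le (le_R ⟨L, h1, h2, rfl⟩)

lemma A_le (hne : F.Nonempty) (j : ℕ) (a : V) : Aa F j a ≤ Rr F j a ^ 2 := by
  obtain ⟨p, hp, q, hq, e⟩ := A_mem hne j a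
  rw [← e, sq]
  exact (d2_le p q).trans (mul_le_mul (le_R hp) (le_R hq) (n1_nn _) ((n1_nn _).trans (le_R hp)))

lemma A_step (hne : F.Nonempty) (j : ℕ) (a : V) {T : M} (hT : T ∈ F) :
    |T.det| * Aa F j a ≤ Aa F (j + 1) a := by
  obtain ⟨p, hp, q, hq, e⟩ := A_mem hne j a
  rw [← e, ← abs_mul, ← d2_mul]
  exact le_A (orb_step hT hp) (orb_step hT hq)

/-- Roundness of the orbits. -/
def RND (F : Finset M) (k0 : ℕ) (δ : ℝ) : Prop :=
  ∀ j, k0 ≤ j → ∀ a d : V, ∃ p ∈ Orb F j a, δ * n1 d * Rr F j a ≤ d ⬝ᵥ p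

lemma A_ge (hne : F.Nonempty) {k0 : ℕ} {δ : ℝ} (h : RND F k0 δ) {j : ℕ} (hj : k0 ≤ j) (a : V) :
    δ * Rr F j a ^ 2 ≤ Aa F j a := by
  obtain ⟨q, hq, e⟩ := R_mem hne j a
  obtain ⟨p, hp, g⟩ := h j hj a (rot q)
  rw [n1_rot, e, ← d2_rot] at g
  linarith [le_abs_self (d2 q p), le_A hq hp]

lemma exists_H (F : Finset M) : ∃ H : ℝ, 1 ≤ H ∧ ∀ T ∈ F, ∀ v, n1 (T *ᵥ v) ≤ H * n1 v := by
  obtain ⟨H, hH⟩ := (F.finite_toSet.image fun T : M =>
    |T 0 0| + |T 0 1| + |T 1 0| + |T 1 1|).bddAbove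
  refine ⟨max H 1, le_max_right _ _, fun T hT v => ?_⟩
  have h := (hH ⟨T, hT, rfl⟩).trans (le_max_left H 1)
  refine le_trans ?_ (mul_le_mul_of_nonneg_right h (n1_nn v))
  simp only [n1, mv]
  have a1 := abs_add_le (T 0 0 * v 0) (T 0 1 * v 1)
  have a2 := abs_add_le (T 1 0 * v 0) (T 1 1 * v 1)
  simp only [abs_mul] at a1 a2
  nlinarith [mul_nonneg (abs_nonneg (T 0 0)) (abs_nonneg (v 1)),
    mul_nonneg (abs_nonneg (T 0 1)) (abs_nonneg (v 0)),
    mul_nonneg (abs_nonneg (T 1 0)) (abs_nonneg (v 1)),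
    mul_nonneg (abs_nonneg (T 1 1)) (abs_nonneg (v 0))]

lemma exists_kappa (hne : F.Nonempty) (hF : ∀ T ∈ F, T.det ≠ 0) {k0 : ℕ} {δ : ℝ} (hδ : 0 < δ)
    (h : RND F k0 δ) : ∃ κ : ℝ, 1 ≤ κ ∧ ∀ j, k0 ≤ j → ∀ a, ∀ T ∈ F,
      Aa F (j + 1) a ≤ κ * (|T.det| * Aa F j a) := by
  obtain ⟨H, h1, hH⟩ := exists_H F
  obtain ⟨m, hm⟩ := (F.finite_toSet.image fun T : M => H ^ 2 / (δ * |T.det|)).bddAbove
  refine ⟨max m 1, le_max_right _ _, fun j hj a T hT => ?_⟩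
  have p : 0 < |T.det| := abs_pos.mpr (hF T hT)
  have g := (hm ⟨T, hT, rfl⟩).trans (le_max_left m 1)
  rw [div_le_iff₀ (by positivity)] at g
  have r : Rr F (j + 1) a ≤ H * Rr F j a := by
    obtain ⟨_, ⟨L, l1, l2, rfl⟩, e⟩ := R_mem hne (j + 1) a
    cases L with
    | nil => simp at l1
    | cons S L =>
      rw [← e, List.prod_cons, ← Matrix.mulVec_mulVec]
      exact (hH S (Sub.cons.mp l2).1 _).trans (mul_le_mul_of_nonneg_left
        (le_R ⟨L, by simpa using l1, (Sub.cons.mp l2).2, rfl⟩) (by linarith))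
  have r0 : 0 ≤ Rr F (j + 1) a := by
    obtain ⟨p, -, e⟩ := R_mem hne (j + 1) a
    exact e ▸ n1_nn p
  have a1 := A_le hne (j + 1) a
  have a2 := A_ge hne h hj a
  have a3 := pow_le_pow_left₀ r0 r 2
  have a4 := mul_le_mul_of_nonneg_right g (sq_nonneg (Rr F j a))
  have a5 := mul_le_mul_of_nonneg_left a2 (mul_nonneg (le_trans zero_le_one (le_max_right m 1)) p.le)
  nlinarith

lemma exists_Gam (hF : ∀ T ∈ F, T.det ≠ 0) : ∃ Γ : ℝ, 1 ≤ Γ ∧ ∀ T ∈ F, Nu Γ T := by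
  obtain ⟨m, hm⟩ := (F.finite_toSet.image fun T : M =>
    (T 0 0 ^ 2 + T 0 1 ^ 2 + T 1 0 ^ 2 + T 1 1 ^ 2) / |T.det|).bddAbove
  refine ⟨max m 1, le_max_right _ _, fun T hT i j => ?_⟩
  have g := (hm ⟨T, hT, rfl⟩).trans (le_max_left m 1)
  rw [div_le_iff₀ (abs_pos.mpr (hF T hT))] at g
  refine le_trans ?_ g
  fin_cases i <;> fin_cases j <;> simp <;>
    nlinarith [sq_nonneg (T 0 0), sq_nonneg (T 0 1), sq_nonneg (T 1 0), sq_nonneg (T 1 1)]

lemma Nu_list {Γ : ℝ} (h1 : 1 ≤ Γ) (h : ∀ T ∈ F, Nu Γ T) {L : List M} (hL : Sub F L) {n : ℕ}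
    (hn : L.length ≤ n) : Nu ((4 * Γ) ^ n) L.prod := by
  refine Nu.mono ?_ (pow_le_pow_right₀ (by linarith) hn)
  clear hn
  induction L with
  | nil => simpa using Nu.one
  | cons T L ih =>
    rw [List.prod_cons, List.length_cons, pow_succ']
    exact (h T (Sub.cons.mp hL).1).mul (ih (Sub.cons.mp hL).2)

/-- Optimal words. -/
def Op (F : Finset M) (k : ℕ) (a c : V) (w : List M) : Prop :=
  Sub F w ∧ w.length = k ∧ ∀ p ∈ Orb F k a, c ⬝ᵥ p ≤ c ⬝ᵥ (w.prod *ᵥ a)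

/-- Covectors carried to `d` by an optimal prefix. -/
def Pr (F : Finset M) (k : ℕ) (a d : V) : Set V :=
  {c | ∃ x y, Op F k a c (x ++ y) ∧ x.prodᵀ *ᵥ c = d}

lemma Op.supp {k : ℕ} {a c : V} {x x' y' : List M} {e : M} (h : Op F k a c (x' ++ y'))
    (he : x'.prod = x.prod * e) :
    (x.prodᵀ *ᵥ c) ⬝ᵥ (e *ᵥ (y'.prod *ᵥ a)) = c ⬝ᵥ ((x' ++ y').prod *ᵥ a) ∧
    ∀ q ∈ Orb F y'.length a, (x.prodᵀ *ᵥ c) ⬝ᵥ (e *ᵥ q) ≤ c ⬝ᵥ ((x' ++ y').prod *ᵥ a) := by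
  have E : ∀ y : List M, (x.prodᵀ *ᵥ c) ⬝ᵥ (e *ᵥ (y.prod *ᵥ a)) = c ⬝ᵥ ((x' ++ y).prod *ᵥ a) :=
    fun y => by
      rw [List.prod_append, he, ← Matrix.mulVec_mulVec, ← Matrix.mulVec_mulVec, dotT x.prod]
  refine ⟨E _, ?_⟩
  rintro _ ⟨y, h1, h2, rfl⟩
  rw [E]
  exact h.2.2 _ ⟨x' ++ y, by rw [← h.2.1]; simp [h1], Sub.append.mpr ⟨(Sub.append.mp h.1).1, h2⟩,
    rfl⟩

lemma pr_le (hne : F.Nonempty) (hF : ∀ T ∈ F, T.det ≠ 0) {N δ : ℝ} (hB : BD F N) {k0 : ℕ}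
    (hδ : 0 < δ) (h : RND F k0 δ) : ∃ f, PolyB f ∧ ∀ k, k0 ≤ k → ∀ a d : V, a ≠ 0 → d ≠ 0 →
      Le (Pr F k a d) (f k) := by
  obtain ⟨f, hf, H⟩ := le_Q (F := F) N (K := 4 / δ ^ 2) (by positivity)
  refine ⟨fun k => (k + 1) * (k + 1) ^ Fintype.card F * f k,
    ((PolyB.id.add (PolyB.const _)).mul (PolyB.pow _)).mul hf, fun k hk a d ha hd => ?_⟩
  refine Le.cover (fun t : ℕ × ℝ => {c | ∃ x y, Op F k a c (x ++ y) ∧ x.prodᵀ *ᵥ c = d ∧
    x.length = t.1 ∧ x.prod.det = t.2}) ((Le.nat k).prod (le_dets k)) (fun t _ => ?_) ?_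
  · rcases Set.eq_empty_or_nonempty {c | ∃ x y, Op F k a c (x ++ y) ∧ x.prodᵀ *ᵥ c = d ∧
      x.length = t.1 ∧ x.prod.det = t.2} with e | ⟨c0, x0, y0, o0, e0, l0, r0⟩
    · rw [e]; exact ⟨∅, Nat.zero_le _, by simp⟩
    refine Le.code (fun g c => g.det ≠ 0 ∧ gᵀ *ᵥ c = c0) (H k) ?_
      fun g c c' h h' => inj (by simpa using h.1) (h.2.trans h'.2.symm)
    rintro c ⟨x, y, o, e, l, r⟩
    have s0 := Sub.append.mp o0.1
    have s := Sub.append.mp o.1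
    have d0 := s0.1.det hF
    have eg : x.prod = x.prod * x0.prod⁻¹ * x0.prod := by
      rw [Matrix.mul_assoc, Matrix.nonsing_inv_mul _ (isUnit_iff_ne_zero.mpr d0), Matrix.mul_one]
    set g := x.prod * x0.prod⁻¹
    have g1 : g.det = 1 := by
      have := congrArg Matrix.det eg
      rw [det_mul, r, ← r0] at this
      exact mul_right_cancel₀ d0 (by linarith)
    have g2 : gᵀ *ᵥ c = c0 := inj (A := x0.prodᵀ) (by simpa using d0) (by
      rw [Matrix.mulVec_mulVec, ← transpose_mul, ← eg, e, e0])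
    have n0 := o0.2.1
    have n := o.2.1
    rw [List.length_append] at n0 n
    obtain ⟨a1, a2⟩ := o0.supp (x := x0) (e := 1) (by simp)
    obtain ⟨b1, -⟩ := o.supp (x := x) (e := 1) (by simp)
    simp only [Matrix.one_mulVec] at a1 a2 b1
    have a3 := a2 _ ⟨y, by omega, s.2, rfl⟩
    rw [e0, ← e, b1] at a3
    obtain ⟨p1, q1, w1⟩ := h k hk a c0
    obtain ⟨p2, q2, w2⟩ := h k hk a c
    refine ⟨g, mem_Q hF hB s0.1 s.1 (by omega) (by omega) ?_ (Or.inr eg), by simp [g1], g2⟩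
    refine quot_bound (p0 := (x0 ++ y0).prod *ᵥ a) hδ (R_pos hne hF k ha) g1 ?_ g2
      (le_R ⟨_, o0.2.1, o0.1, rfl⟩) (le_R ⟨x ++ y0, by simp; omega,
        Sub.append.mpr ⟨s.1, s0.2⟩, ?_⟩) (w1.trans (o0.2.2 _ q1))
      (w2.trans ((o.2.2 _ q2).trans a3))
    · rintro rfl
      exact hd (by simpa using e0.symm)
    · rw [List.prod_append, List.prod_append, Matrix.mulVec_mulVec, ← Matrix.mul_assoc, ← eg]
  · rintro c ⟨x, y, o, e⟩
    have n := o.2.1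
    rw [List.length_append] at n
    exact ⟨(x.length, x.prod.det), ⟨by simp; omega, x, (Sub.append.mp o.1).1, by omega, rfl⟩,
      x, y, o, e, rfl, rfl⟩

/-- Terminal directions. -/
def Tm (F : Finset M) (N δ κ K1 K2 : ℝ) (k0 k : ℕ) (a : V) : Set V :=
  {b | ∃ t ∈ ({i : ℕ | i ≤ k} ×ˢ {i : ℕ | i ≤ k}) ×ˢ QSet F N K1 k, (k0 ≤ t.1.1 ∧ k0 ≤ t.1.2 ∧
      t.2.det ≠ 0 ∧ ¬ Nu (16 * κ / δ ^ 3 + 32 / δ ^ 2) t.2 ∧
      Aa F t.1.1 a ≤ κ * (|t.2.det| * Aa F t.1.2 a) ∧ |t.2.det| * Aa F t.1.2 a ≤ κ * Aa F t.1.1 a) ∧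
      b ∈ Tie (Orb F t.1.1 a) ((fun v => t.2 *ᵥ v) '' Orb F t.1.2 a)} ∪
  {b | ∃ t ∈ {i : ℕ | i ≤ k} ×ˢ QSet F N K2 k, b ∈ TieP (t.2 *ᵥ a) (Orb F t.1 a)}

lemma tm_cov (hne : F.Nonempty) (hF : ∀ T ∈ F, T.det ≠ 0) {N δ κ K1 K2 : ℝ} {k0 : ℕ}
    (hδ : 0 < δ) (hκ : 1 ≤ κ) (h : RND F k0 δ) (h1 : 0 ≤ K1) (h2 : 0 ≤ K2) :
    ∃ f, PolyB f ∧ ∀ k, ∀ a : V, a ≠ 0 → Cov (Tm F N δ κ K1 K2 k0 k a) (f k) := by
  obtain ⟨f1, p1, H1⟩ := le_Q (F := F) N h1
  obtain ⟨f2, p2, H2⟩ := le_Q (F := F) N h2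
  have p0 : PolyB fun k => k + 1 := PolyB.id.add (PolyB.const _)
  refine ⟨fun k => (k + 1) * (k + 1) * f1 k * (2 * 2 * 2) + (k + 1) * f2 k * 4,
    (((p0.mul p0).mul p1).mul (PolyB.const _)).add ((p0.mul p2).mul (PolyB.const _)),
    fun k a ha => Cov.union ?_ ?_⟩
  · refine Cov.cover _ (((Le.nat k).prod (Le.nat k)).prod (H1 k)) ?_ fun _ h => h
    intro t _
    by_cases g : k0 ≤ t.1.1 ∧ k0 ≤ t.1.2 ∧ t.2.det ≠ 0 ∧ ¬ Nu (16 * κ / δ ^ 3 + 32 / δ ^ 2) t.2 ∧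
      Aa F t.1.1 a ≤ κ * (|t.2.det| * Aa F t.1.2 a) ∧ |t.2.det| * Aa F t.1.2 a ≤ κ * Aa F t.1.1 a
    · obtain ⟨g1, g2, g3, g4, g5, g6⟩ := g
      have p := abs_nonneg t.2.det
      have a1 := A_ge hne h g1 a
      have a2 := mul_le_mul_of_nonneg_left (A_ge hne h g2 a) p
      have a3 := mul_le_mul_of_nonneg_left (A_le hne t.1.1 a) (zero_le_one.trans hκ)
      have a4 := mul_le_mul_of_nonneg_left (A_le hne t.1.2 a) (mul_nonneg (zero_le_one.trans hκ) p)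
      obtain ⟨G, f1, f2⟩ := thin hδ (by linarith) (R_pos hne hF t.1.1 ha) (R_pos hne hF t.1.2 ha)
        g3 g4 (by linarith) (by linarith) (fun _ => le_R) (fun _ => le_R) (h _ g1 a) (h _ g2 a)
      exact ⟨G, f1, fun c hc => f2 c hc.2⟩
    · exact ⟨∅, ⟨∅, by simp, by simp⟩, fun c hc => absurd hc.1 g⟩
  · exact Cov.cover _ ((Le.nat k).prod (H2 k)) (fun t _ => tie_pt _ _) fun _ h => h

lemma ladder_round (hne : F.Nonempty) (hF : ∀ T ∈ F, T.det ≠ 0) {N δ κ Γ K : ℝ} (hB : BD F N)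
    {k0 k : ℕ} (hκ : 1 ≤ κ) (hΓ : ∀ T ∈ F, Nu Γ T) (h1 : 1 ≤ Γ)
    (hK : K = 16 * κ / δ ^ 3 + 32 / δ ^ 2) {a c : V} (hc : c ≠ 0)
    (hs : ∀ j, k0 ≤ j → ∀ T ∈ F, Aa F (j + 1) a ≤ κ * (|T.det| * Aa F j a)) (n : ℕ) :
    ∀ (x y x' y' : List M) (e : M), y.length + y'.length ≤ n → Op F k a c (x ++ y) →
      Op F k a c (x' ++ y') → (x ++ y).prod *ᵥ a ≠ (x' ++ y').prod *ᵥ a →
      x'.prod = x.prod * e → Nu K e → Aa F y.length a ≤ κ * (|e.det| * Aa F y'.length a) →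
      |e.det| * Aa F y'.length a ≤ κ * Aa F y.length a →
      ∃ b ∈ Tm F N δ κ (4 * Γ * K) (4 * K * (4 * Γ) ^ k0) k0 k a, c ∈ Pr F k a b := by
  have A0 : ∀ j, 0 ≤ Aa F j a := fun j => by
    obtain ⟨p, -, q, -, e⟩ := A_mem hne j a
    exact e ▸ abs_nonneg _
  have base : ∀ (x y x' y' : List M) (e : M), y'.length ≤ k0 → Op F k a c (x ++ y) →
      Op F k a c (x' ++ y') → (x ++ y).prod *ᵥ a ≠ (x' ++ y').prod *ᵥ a →
      x'.prod = x.prod * e → Nu K e →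
      ∃ b ∈ Tm F N δ κ (4 * Γ * K) (4 * K * (4 * Γ) ^ k0) k0 k a, c ∈ Pr F k a b := by
    intro x y x' y' e hy o o' hne' he hN
    have s := Sub.append.mp o.1
    have n := o.2.1
    rw [List.length_append] at n
    obtain ⟨a1, a2⟩ := o.supp (x := x) (e := 1) (by simp)
    obtain ⟨b1, -⟩ := o'.supp he
    simp only [Matrix.one_mulVec] at a1 a2
    have eq : c ⬝ᵥ ((x ++ y).prod *ᵥ a) = c ⬝ᵥ ((x' ++ y').prod *ᵥ a) :=
      le_antisymm (o'.2.2 _ ⟨_, o.2.1, o.1, rfl⟩) (o.2.2 _ ⟨_, o'.2.1, o'.1, rfl⟩)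
    rw [Matrix.mulVec_mulVec, ← eq] at b1
    refine ⟨_, Or.inr ⟨(y.length, e * y'.prod), ⟨by simp; omega, mem_Q hF hB s.1 o'.1 (by omega)
      o'.2.1.le (hN.mul (Nu_list h1 hΓ (Sub.append.mp o'.1).2 hy)) (Or.inl (by
        rw [List.prod_append, he, Matrix.mul_assoc]))⟩, ne0 (by simpa using s.1.det hF) hc, _,
      ⟨y, rfl, s.2, rfl⟩, fun g => hne' ?_, a1.trans b1.symm, fun q hq => b1 ▸ a2 q hq⟩,
      x, y, o, rfl⟩
    simp only at g
    rw [List.prod_append, List.prod_append, he, ← Matrix.mulVec_mulVec, g, Matrix.mulVec_mulVec,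
      Matrix.mul_assoc]
  have sw : ∀ (x y x' y' : List M) (e : M), Op F k a c (x ++ y) → Op F k a c (x' ++ y') →
      x'.prod = x.prod * e → e.det ≠ 0 ∧ x.prod = x'.prod * e⁻¹ := by
    intro x y x' y' e o o' he
    have d : e.det ≠ 0 := by
      have := (Sub.append.mp o'.1).1.det hF
      rw [he, det_mul] at this
      exact right_ne_zero_of_mul this
    exact ⟨d, by rw [he, Matrix.mul_assoc, Matrix.mul_nonsing_inv _ (isUnit_iff_ne_zero.mpr d),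
      Matrix.mul_one]⟩
  induction n with
  | zero =>
    intro x y x' y' e hn o o' hne' he hN _ _
    exact base x y x' y' e (by omega) o o' hne' he hN
  | succ n ih =>
    have step : ∀ (x y x' y' : List M) (e : M), y.length + y'.length ≤ n + 1 → k0 < y.length →
        k0 < y'.length → Op F k a c (x ++ y) →
        Op F k a c (x' ++ y') → (x ++ y).prod *ᵥ a ≠ (x' ++ y').prod *ᵥ a →
        x'.prod = x.prod * e → Nu K e → Aa F y.length a ≤ κ * (|e.det| * Aa F y'.length a) →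
        |e.det| * Aa F y'.length a ≤ Aa F y.length a →
        ∃ b ∈ Tm F N δ κ (4 * Γ * K) (4 * K * (4 * Γ) ^ k0) k0 k a, c ∈ Pr F k a b := by
      intro x y x' y' e hn l l' o o' hne' he hN r1 r2
      cases y with
      | nil => simp at l
      | cons t y =>
        simp only [List.length_cons] at hn l r1 r2
        have ht : t ∈ F := (Sub.cons.mp (Sub.append.mp o.1).2).1
        have dt := hF t ht
        have pt : 0 < |t.det| := abs_pos.mpr dt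
        have as : x ++ t :: y = (x ++ [t]) ++ y := by simp
        rw [as] at o hne'
        have he1 : x'.prod = (x ++ [t]).prod * (t⁻¹ * e) := by
          rw [he, List.prod_append, List.prod_singleton, Matrix.mul_assoc, ← Matrix.mul_assoc t,
            Matrix.mul_nonsing_inv _ (isUnit_iff_ne_zero.mpr dt), Matrix.one_mul]
        have ed : |e.det| = |t.det| * |(t⁻¹ * e).det| := by
          rw [← abs_mul, ← det_mul, ← Matrix.mul_assoc,
            Matrix.mul_nonsing_inv _ (isUnit_iff_ne_zero.mpr dt), Matrix.one_mul]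
        have q1 : Aa F y.length a ≤ κ * (|(t⁻¹ * e).det| * Aa F y'.length a) := by
          refine le_of_mul_le_mul_left ?_ pt
          have := (A_step hne y.length a ht).trans r1
          rw [ed] at this
          linarith
        have q2 : |(t⁻¹ * e).det| * Aa F y'.length a ≤ κ * Aa F y.length a := by
          refine le_of_mul_le_mul_left ?_ pt
          have := r2.trans (hs y.length (by omega) t ht)
          rw [ed] at this
          linarith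
        by_cases g : Nu K (t⁻¹ * e)
        · exact ih _ y x' y' _ (by omega) o o' hne' he1 g q1 q2
        have s := Sub.append.mp o.1
        have s' := Sub.append.mp o'.1
        have n1 := o.2.1
        have n2 := o'.2.1
        rw [List.length_append] at n1 n2
        obtain ⟨a1, a2⟩ := o.supp (x := x ++ [t]) (e := 1) (by simp)
        obtain ⟨b1, b2⟩ := o'.supp he1
        simp only [Matrix.one_mulVec] at a1 a2
        refine ⟨_, Or.inl ⟨((y.length, y'.length), t⁻¹ * e), ⟨⟨by simp; omega, by simp; omega⟩,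
          mem_Q hF hB s.1 s'.1 (by omega) (by omega) (((hΓ t ht).inv dt).mul hN) (Or.inl he1)⟩,
          ⟨by simp; omega, l'.le, (sw _ _ _ _ _ o o' he1).1, hK ▸ g, q1, q2⟩,
          ne0 (by rw [det_transpose]; exact s.1.det hF) hc, _, ⟨y, rfl, s.2, rfl⟩, _,
          ⟨_, ⟨y', rfl, s'.2, rfl⟩, rfl⟩, ?_, fun q hq => a1 ▸ a2 q hq, ?_⟩, _, y, o, rfl⟩
        · simp only
          rw [a1, b1]
          exact le_antisymm (o.2.2 _ ⟨_, o'.2.1, o'.1, rfl⟩) (o'.2.2 _ ⟨_, o.2.1, o.1, rfl⟩)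
        · rintro _ ⟨q, hq, rfl⟩
          simp only
          rw [b1]
          exact b2 q hq
    intro x y x' y' e hn o o' hne' he hN r1 r2
    obtain ⟨d, he'⟩ := sw x y x' y' e o o' he
    by_cases l' : y'.length ≤ k0
    · exact base x y x' y' e l' o o' hne' he hN
    by_cases l : y.length ≤ k0
    · exact base x' y' x y e⁻¹ l o' o hne'.symm he' (hN.inv d)
    rcases le_total (|e.det| * Aa F y'.length a) (Aa F y.length a) with g | g
    · exact step x y x' y' e hn (by omega) (by omega) o o' hne' he hN r1 g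
    · have p : 0 < |e.det| := abs_pos.mpr d
      have ei : |e.det| * |e⁻¹.det| = 1 := by
        rw [← abs_mul, ← det_mul, Matrix.mul_nonsing_inv _ (isUnit_iff_ne_zero.mpr d)]; simp
      refine step x' y' x y e⁻¹ (by omega) (by omega) (by omega) o' o hne'.symm he' (hN.inv d)
        (le_of_mul_le_mul_left ?_ p) (le_of_mul_le_mul_left ?_ p)
      · calc _ ≤ κ * Aa F y.length a := r2
          _ = κ * ((|e.det| * |e⁻¹.det|) * Aa F y.length a) := by rw [ei, one_mul]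
          _ = _ := by ring
      · rw [← mul_assoc, ei, one_mul]; exact g

lemma pb_round (hne : F.Nonempty) (hF : ∀ T ∈ F, T.det ≠ 0) {N δ : ℝ} (hB : BD F N) {k0 : ℕ}
    (hδ : 0 < δ) (h : RND F k0 δ) : PB ↑F := by
  obtain ⟨κ, k1, hκ⟩ := exists_kappa hne hF hδ h
  obtain ⟨Γ, g1, hΓ⟩ := exists_Gam hF
  have d1 : δ ≤ 1 := by
    have e0 : (![1, 0] : V) ≠ 0 := fun h => by simpa using congrFun h 0
    have p := R_pos hne hF k0 e0
    have := (A_ge hne h le_rfl ![1, 0]).trans (A_le hne k0 _)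
    by_contra g
    nlinarith [sq_pos_of_pos p]
  set K := 16 * κ / δ ^ 3 + 32 / δ ^ 2 with hK
  have K1 : 1 ≤ K := by
    have : 1 ≤ 32 / δ ^ 2 := by rw [le_div_iff₀ (by positivity)]; nlinarith
    have : 0 ≤ 16 * κ / δ ^ 3 := by positivity
    linarith
  obtain ⟨f1, p1, H1⟩ := pr_le hne hF hB hδ h
  obtain ⟨f2, p2, H2⟩ := tm_cov (N := N) (K1 := 4 * Γ * K) (K2 := 4 * K * (4 * Γ) ^ k0) hne hF hδ
    k1 h (by positivity) (by positivity)
  obtain ⟨C, D, hC⟩ := ((p2.mul p1).mul (PolyB.const 2)).add (PolyB.const 1)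
  have small : ∀ n, ∃ z, ∀ a, Le (Orb F n a) z := fun n => by
    obtain ⟨z, hz⟩ := Le.of_finite (List.finite_length_eq F n)
    refine ⟨z, fun a => (hz.image fun w => (w.map Subtype.val).prod *ᵥ a).mono ?_ le_rfl⟩
    rintro _ ⟨L, h1, h2, rfl⟩
    exact ⟨L.attachWith _ h2, by simpa using h1, by simp⟩
  choose z hz using small
  refine ⟨fun k => C * (k + 1) ^ D + (Finset.range k0).sup z + 1, (((PolyB.const _).mul
    (PolyB.pow _)).add (PolyB.const _)).add (PolyB.const _), fun k n a hn => ?_⟩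
  by_cases ha : a = 0
  · refine (Le.one ?_).mono subset_rfl (by simp)
    rintro _ ⟨⟨w, -, -, rfl⟩, -⟩ _ ⟨⟨w', -, -, rfl⟩, -⟩
    simp [ha]
  by_cases hk : n < k0
  · refine (hz n a).mono (fun _ h => h.1) ?_
    have := Finset.le_sup (f := z) (Finset.mem_range.mpr hk)
    simp only
    omega
  refine (ex_le (n := f2 n * f1 n) (orb_fin F.finite_toSet n a) ?_).mono subset_rfl ?_
  · obtain ⟨G, c1, c2⟩ := H2 n a ha
    refine ⟨{c | ∃ d ∈ {d ∈ G | d ≠ 0}, c ∈ Pr F n a d},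
      Le.cover (Pr F n a) (c1.mono (fun _ h => h.1) le_rfl)
        (fun d hd => H1 n (by omega) a d ha hd.2) fun _ h => h, ?_⟩
    rintro c ⟨c0, _, ⟨w, hw, sw, rfl⟩, _, ⟨w', hw', sw', rfl⟩, hne', e, m⟩
    have A0 : 0 ≤ Aa F n a := by
      obtain ⟨p, -, q, -, e⟩ := A_mem hne n a
      exact e ▸ abs_nonneg _
    obtain ⟨b, hb, x, y, o, e'⟩ := ladder_round (k := n) hne hF hB k1 hΓ g1 hK c0
      (fun j hj => hκ j hj a) _ [] w [] w' 1 le_rfl ⟨sw, hw, m⟩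
      ⟨sw', hw', fun p hp => (m p hp).trans e.ge⟩ hne' (by simp) (Nu.one.mono K1)
      (by simp only [hw, hw', det_one, abs_one, one_mul]; nlinarith)
      (by simp only [hw, hw', det_one, abs_one, one_mul]; nlinarith)
    obtain ⟨d, hd, s, hs, rfl⟩ := c2 b hb
    refine ⟨s⁻¹ • c, ⟨d, ⟨hd, ?_⟩, x, y, ⟨o.1, o.2.1, fun v hv => ?_⟩, ?_⟩, s, hs, ?_⟩
    · rintro rfl
      rcases hb with ⟨_, -, -, h⟩ | ⟨_, -, h⟩ <;> exact h.1 (by simp)
    · simp only [smul_dotProduct, smul_eq_mul]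
      exact mul_le_mul_of_nonneg_left (o.2.2 v hv) (inv_nonneg.mpr hs.le)
    · rw [Matrix.mulVec_smul, e', smul_smul, inv_mul_cancel₀ hs.ne', one_smul]
    · rw [smul_smul, mul_inv_cancel₀ hs.ne', one_smul]
  · have := hC n
    have : C * (n + 1) ^ D ≤ C * (k + 1) ^ D := by gcongr
    simp only at *
    omega

end Pool.Agent.Lib.MP_34a884_an.Uni
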