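import Mathlib
import Pool.Agent.Lib.MP_34a884_an.VCone
import Pool.Agent.Lib.MP_34a884_an.VRound

/-! The trichotomy: round, reducible in lockstep, or a time dependent cone. -/

namespace Pool.Agent.Lib.MP_34a884_an.Uni

open Matrix

variable {F : Finset M}

lemma par {f x : V} (hf : f ≠ 0) (h : d2 f x = 0) : ∃ μ : ℝ, x = μ • f := by
  obtain ⟨τ, hτ⟩ := perp (c := rot f) (u := x)
    (fun h => hf (ext2 (congrFun h 1) (by simpa using congrFun h 0))) (by rwa [← d2_rot])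
  exact ⟨-τ, by rw [hτ]; exact ext2 (by simp) (by simp)⟩

lemma ex_line {S : Set V} {f : V} (hf : f ≠ 0) {r : ℝ} (h : ∀ p ∈ S, d2 f p = r) :
    Le (Ex S) 2 := by
  classical
  refine Le.code (fun (t : Bool) x => x ∈ S ∧ ∃ g : V, (∀ y ∈ S, y = x ∨ g ⬝ᵥ y < g ⬝ᵥ x) ∧
    (t = true ↔ 0 < g ⬝ᵥ f)) Le.bool
    (fun x ⟨hx, g, hg⟩ => ⟨decide (0 < g ⬝ᵥ f), trivial, hx, g, hg, by simp⟩) ?_
  rintro t x x' ⟨hx, g, hg, e⟩ ⟨hx', g', hg', e'⟩
  obtain ⟨τ, hτ⟩ := par (x := x' - x) hf (by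
    have a := h x hx
    have b := h x' hx'
    simp only [d2, Pi.sub_apply] at a b ⊢
    linarith)
  by_contra hne
  have a1 := (hg x' hx').resolve_left (Ne.symm hne)
  have a2 := (hg' x hx).resolve_left hne
  have b1 := congrArg (g ⬝ᵥ ·) hτ
  have b2 := congrArg (g' ⬝ᵥ ·) hτ
  simp only [dotProduct_sub, dotProduct_smul, smul_eq_mul] at b1 b2
  by_cases u : 0 < g ⬝ᵥ f
  · have u' := e'.mp (e.mpr u)
    nlinarith [mul_pos u u']
  · have u' : ¬ 0 < g' ⬝ᵥ f := fun v => u (e.mp (e'.mpr v))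
    push Not at u u'
    rcases le_total τ 0 with v | v
    · nlinarith [mul_nonneg_of_nonpos_of_nonpos v u]
    · nlinarith [mul_nonneg v (neg_nonneg.mpr u')]

lemma pb_red (hF : ∀ T ∈ F, T.det ≠ 0) (f : Bool → V) (hf : ∀ b, f b ≠ 0)
    (h : ∀ T ∈ F, ∀ b, d2 (f (!b)) (T *ᵥ f b) = 0) : PB ↑F := by
  classical
  have h' : ∀ e : F × Bool, ∃ ρ : ℝ, ∀ p, d2 (f (!e.2)) (e.1.1 *ᵥ p) = ρ * d2 (f e.2) p := by
    rintro ⟨⟨T, hT⟩, b⟩
    obtain ⟨μ, hμ⟩ := par (hf _) (h T hT b)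
    have m0 : μ ≠ 0 := by
      rintro rfl
      exact ne0 (hF T hT) (hf b) (by simpa using hμ)
    refine ⟨T.det / μ, fun p => ?_⟩
    have := d2_mul T (f b) p
    rw [hμ] at this
    simp only [d2, Pi.smul_apply, smul_eq_mul] at this ⊢
    field_simp
    linarith
  choose ρ hρ using h'
  have key : ∀ (a : V) (L : List M), Sub F L → ∃ w : List (F × Bool), w.length = L.length ∧
      d2 (f (Nat.bodd L.length)) (L.prod *ᵥ a) =
        ((w : Multiset (F × Bool)).map ρ).prod * d2 (f false) a := by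
    intro a L
    induction L with
    | nil => exact fun _ => ⟨[], rfl, by simp⟩
    | cons T L ih =>
      intro hL
      obtain ⟨w, h1, h2⟩ := ih (Sub.cons.mp hL).2
      refine ⟨(⟨T, (Sub.cons.mp hL).1⟩, Nat.bodd L.length) :: w, by simp [h1], ?_⟩
      rw [List.prod_cons, ← Matrix.mulVec_mulVec, List.length_cons, Nat.bodd_succ,
        hρ (⟨T, (Sub.cons.mp hL).1⟩, Nat.bodd L.length), h2]
      simp [mul_assoc]
  refine ⟨fun k => (k + 1) ^ Fintype.card (F × Bool) * 2, (PolyB.pow _).mul (PolyB.const _),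
    fun k n a hn => ?_⟩
  refine Le.cover (fun σ : Multiset (F × Bool) => Ex {p ∈ Orb ↑F n a |
    d2 (f (Nat.bodd n)) p = (σ.map ρ).prod * d2 (f false) a}) (Le.mset k)
    (fun σ _ => ex_line (hf _) fun p hp => hp.2) fun x hx => ?_
  obtain ⟨L, h1, h2, rfl⟩ := hx.1
  obtain ⟨w, g1, g2⟩ := key a L h2
  exact ⟨w, by simp; omega, Ex.sub hx (fun _ h => h.1) ⟨hx.1, h1 ▸ g2⟩⟩

lemma pb_scal (hF : ∀ T ∈ F, T.det ≠ 0) {T0 : M} (h0 : T0 ∈ F)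
    (h : ∀ T ∈ F, ∃ μ : ℝ, T = μ • T0) : PB ↑F := by
  refine ⟨fun _ => 2, PolyB.const _, fun k n a _ => ?_⟩
  by_cases ha : a = 0
  · refine (Le.one ?_).mono subset_rfl (by simp)
    rintro _ ⟨⟨w, -, -, rfl⟩, -⟩ _ ⟨⟨w', -, -, rfl⟩, -⟩
    simp [ha]
  have key : ∀ L : List M, Sub F L → ∃ μ : ℝ, L.prod = μ • T0 ^ L.length := by
    intro L
    induction L with
    | nil => exact fun _ => ⟨1, by simp⟩
    | cons T L ih =>
      intro hL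
      obtain ⟨μ, h1⟩ := ih (Sub.cons.mp hL).2
      obtain ⟨ν, h2⟩ := h T (Sub.cons.mp hL).1
      exact ⟨ν * μ, by simp [h1, h2, smul_smul, pow_succ', mul_comm]⟩
  refine ex_line (f := T0 ^ n *ᵥ a) (r := 0) (ne0 (by simp [hF T0 h0]) ha) ?_
  rintro _ ⟨L, rfl, h2, rfl⟩
  obtain ⟨μ, h1⟩ := key L h2
  rw [h1, Matrix.smul_mulVec]
  simp only [d2, Pi.smul_apply, smul_eq_mul]
  ring

lemma d2_trans {f x y : V} (hf : f ≠ 0) (h : d2 f x = 0) (h' : d2 f y = 0) : d2 x y = 0 := by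
  obtain ⟨μ, rfl⟩ := par hf h
  obtain ⟨ν, rfl⟩ := par hf h'
  simp only [d2, Pi.smul_apply, smul_eq_mul]; ring

lemma d2_symm {x y : V} (h : d2 x y = 0) : d2 y x = 0 := by simp only [d2] at *; linarith

lemma pb_lock (hne : F.Nonempty) (hF : ∀ T ∈ F, T.det ≠ 0) {p : V} (hp : p ≠ 0)
    (h : ∀ n, ∀ x ∈ Orb F n p, ∀ y ∈ Orb F n p, d2 x y = 0) : PB ↑F := by
  obtain ⟨T0, h0⟩ := hne
  have o0 : p ∈ Orb F 0 p := ⟨[], rfl, by simp, by simp⟩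
  have o1 := orb_step h0 o0
  have o2 := orb_step h0 o1
  have n1 := ne0 (hF T0 h0) hp
  have n2 := ne0 (hF T0 h0) n1
  have n3 := ne0 (hF T0 h0) n2
  have s0 : ∀ T ∈ F, d2 (T0 *ᵥ p) (T *ᵥ p) = 0 := fun T hT => h _ _ o1 _ (orb_step hT o0)
  have s1 : ∀ T ∈ F, d2 (T0 *ᵥ (T0 *ᵥ p)) (T *ᵥ (T0 *ᵥ p)) = 0 := fun T hT =>
    h _ _ o2 _ (orb_step hT o1)
  have s2 : ∀ T ∈ F, d2 (T0 *ᵥ (T0 *ᵥ (T0 *ᵥ p))) (T *ᵥ (T0 *ᵥ (T0 *ᵥ p))) = 0 := fun T hT =>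
    h _ _ (orb_step h0 o2) _ (orb_step hT o2)
  by_cases c1 : d2 (T0 *ᵥ p) p = 0
  · exact pb_red hF (fun _ => p) (fun _ => hp) fun T hT _ => d2_trans n1 c1 (s0 T hT)
  by_cases c2 : d2 (T0 *ᵥ (T0 *ᵥ p)) (T0 *ᵥ p) = 0
  · exact pb_red hF (fun _ => T0 *ᵥ p) (fun _ => n1) fun T hT _ => d2_trans n2 c2 (s1 T hT)
  by_cases c3 : d2 (T0 *ᵥ (T0 *ᵥ p)) p = 0
  · refine pb_red hF (fun b => bif b then T0 *ᵥ p else p) (fun b => by cases b <;> assumption)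
      fun T hT b => ?_
    cases b
    · exact s0 T hT
    · exact d2_trans n2 c3 (s1 T hT)
  refine pb_scal hF h0 fun T hT => ?_
  obtain ⟨μ0, e0⟩ := par n1 (s0 T hT)
  obtain ⟨μ1, e1⟩ := par n2 (s1 T hT)
  obtain ⟨μ2, e2⟩ := par n3 (s2 T hT)
  set q := T0 *ᵥ p
  set r := T0 *ᵥ q
  have pl : d2 q p • r = d2 q r • p + d2 r p • q := ext2 (by simp [d2]; ring) (by simp [d2]; ring)
  have a1 := congrArg (T *ᵥ ·) pl
  have a2 := congrArg (T0 *ᵥ ·) pl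
  simp only [Matrix.mulVec_smul, Matrix.mulVec_add] at a1 a2
  rw [e0, e1, e2, smul_comm, a2] at a1
  have b1 := congrArg (d2 q) a1
  have b2 := congrArg (d2 r) a1
  change d2 q (μ2 • (d2 q r • q + d2 r p • r)) = d2 q (d2 q r • μ0 • q + d2 r p • μ1 • r) at b1
  change d2 r (μ2 • (d2 q r • q + d2 r p • r)) = d2 r (d2 q r • μ0 • q + d2 r p • μ1 • r) at b2
  have c2' : d2 q r ≠ 0 := fun g => c2 (d2_symm g)
  have m1 : μ2 = μ1 := by
    refine mul_left_cancel₀ (mul_ne_zero c2' c3) ?_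
    simp only [d2, Pi.smul_apply, Pi.add_apply, smul_eq_mul] at b1 ⊢
    linarith
  have m0 : μ2 = μ0 := by
    refine mul_left_cancel₀ (mul_ne_zero c2' c2) ?_
    simp only [d2, Pi.smul_apply, Pi.add_apply, smul_eq_mul] at b2 ⊢
    linarith
  refine ⟨μ0, ?_⟩
  have z0 : (T - μ0 • T0) *ᵥ p = 0 := by rw [Matrix.sub_mulVec, Matrix.smul_mulVec, e0, sub_self]
  have z1 : (T - μ0 • T0) *ᵥ q = 0 := by
    rw [Matrix.sub_mulVec, Matrix.smul_mulVec, e1, ← m1, m0, sub_self]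
  rw [← sub_eq_zero]
  ext i j
  have u0 := congrFun z0 i
  have u1 := congrFun z1 i
  rw [mv, Pi.zero_apply] at u0 u1
  unfold d2 at c1
  have w0 : (T - μ0 • T0) i 0 = 0 :=
    mul_right_cancel₀ c1 (by linear_combination (p 1) * u1 - (q 1) * u0)
  have w1 : (T - μ0 • T0) i 1 = 0 :=
    mul_right_cancel₀ c1 (by linear_combination (q 0) * u0 - (p 0) * u1)
  fin_cases j
  · exact w0
  · exact w1

lemma ext_ray {S : Set V} (hS : S.Finite) (hne : S.Nonempty) (h0 : ∀ p ∈ S, p ≠ 0) {c : V}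
    (hc : c ≠ 0) (h : ∀ p ∈ S, c ⬝ᵥ p ≤ 0) (σ : ℝ) (hσ : σ ≠ 0) :
    ∃ ξ ∈ S, ∀ q ∈ S, 0 ≤ σ * d2 ξ q := by
  obtain ⟨ξ, hξ, m⟩ := Set.exists_max_image S
    (fun p => σ * d2 c p / (-(c ⬝ᵥ p) + |σ * d2 c p|)) hS hne
  have pos : ∀ p ∈ S, 0 < -(c ⬝ᵥ p) + |σ * d2 c p| := by
    intro p hp
    by_contra g
    have a1 : c ⬝ᵥ p = 0 := by linarith [h p hp, abs_nonneg (σ * d2 c p)]
    have a2 : d2 c p = 0 := by
      have : |σ * d2 c p| = 0 := by linarith [abs_nonneg (σ * d2 c p)]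
      simpa [hσ] using this
    obtain ⟨μ, rfl⟩ := par hc a2
    have := sq_pos' hc
    rw [dot] at a1
    simp only [Pi.smul_apply, smul_eq_mul] at a1
    have : μ = 0 := by
      by_contra g
      exact absurd (mul_left_cancel₀ g (by linarith : μ * (c 0 ^ 2 + c 1 ^ 2) = μ * 0)) this.ne'
    exact h0 _ hp (by simp [this])
  refine ⟨ξ, hξ, fun q hq => ?_⟩
  have k := m q hq
  rw [div_le_div_iff₀ (pos q hq) (pos ξ hξ)] at k
  have id : (c 0 ^ 2 + c 1 ^ 2) * (σ * d2 ξ q) =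
      σ * d2 c ξ * -(c ⬝ᵥ q) - -(c ⬝ᵥ ξ) * (σ * d2 c q) := by simp only [d2, dot]; ring
  refine nonneg_of_mul_nonneg_right ?_ (sq_pos' hc) |> fun h => h
  rw [id]
  have s1 := neg_nonneg.mpr (h ξ hξ)
  have s2 := neg_nonneg.mpr (h q hq)
  have p1 := pos ξ hξ
  have p2 := pos q hq
  generalize σ * d2 c ξ = t at *
  generalize σ * d2 c q = t' at *
  generalize -(c ⬝ᵥ ξ) = s at *
  generalize -(c ⬝ᵥ q) = s' at *
  rcases le_total 0 t with a | a <;> rcases le_total 0 t' with b | b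
  · rw [abs_of_nonneg a, abs_of_nonneg b] at k; linarith
  · nlinarith [mul_nonneg a s2, mul_nonneg s1 (neg_nonneg.mpr b)]
  · nlinarith [mul_nonneg b p1.le, mul_nonneg (neg_nonneg.mpr a) p2.le, mul_nonneg b s1,
      mul_nonneg (neg_nonneg.mpr a) s2, mul_nonneg b (abs_nonneg t),
      mul_nonneg (neg_nonneg.mpr a) (abs_nonneg t')]
  · rw [abs_of_nonpos a, abs_of_nonpos b] at k; linarith

lemma orb_app {s n : ℕ} {a p q : V} (hp : p ∈ Orb F s a) (hq : q ∈ Orb F n p) :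
    q ∈ Orb F (n + s) a := by
  obtain ⟨L, rfl, h2, rfl⟩ := hp
  obtain ⟨L', rfl, h2', rfl⟩ := hq
  exact ⟨L' ++ L, by simp, Sub.append.mpr ⟨h2', h2⟩, by
    rw [List.prod_append, Matrix.mulVec_mulVec]⟩

lemma orb_nz (hF : ∀ T ∈ F, T.det ≠ 0) {s : ℕ} {a p : V} (ha : a ≠ 0) (hp : p ∈ Orb F s a) :
    p ≠ 0 := by
  obtain ⟨L, -, h2, rfl⟩ := hp
  exact ne0 (Sub.det hF h2) ha

lemma cones (hne : F.Nonempty) (hF : ∀ T ∈ F, T.det ≠ 0) {a : V} (ha : a ≠ 0)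
    (h : ∀ s, ∃ c : V, c ≠ 0 ∧ ∀ p ∈ Orb F s a, c ⬝ᵥ p ≤ 0)
    (hl : ∀ p : V, p ≠ 0 → ∃ n, ∃ x ∈ Orb F n p, ∃ y ∈ Orb F n p, d2 x y ≠ 0) :
    ∃ X : ℕ → M, (∀ s, (X s).det ≠ 0) ∧ ∀ s, ∀ T ∈ F, ∃ P, NnM P ∧ T * X s = X (s + 1) * P := by
  obtain ⟨s0, x0, hx0, y0, hy0, d0⟩ := hl a ha
  have sp : ∀ s, ∃ x ∈ Orb F (s + s0) a, ∃ y ∈ Orb F (s + s0) a, d2 x y ≠ 0 := by
    obtain ⟨T, hT⟩ := hne
    intro s
    induction s with
    | zero => exact ⟨x0, by simpa using hx0, y0, by simpa using hy0, d0⟩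
    | succ s ih =>
      obtain ⟨x, hx, y, hy, d⟩ := ih
      rw [Nat.add_right_comm]
      exact ⟨_, orb_step hT hx, _, orb_step hT hy, by
        rw [d2_mul]; exact mul_ne_zero (hF T hT) d⟩
  have ex : ∀ s, ∃ ξ ∈ Orb F (s + s0) a, ∃ ζ ∈ Orb F (s + s0) a, 0 < d2 ξ ζ ∧
      ∀ q ∈ Orb F (s + s0) a, 0 ≤ d2 ξ q ∧ 0 ≤ d2 q ζ := by
    intro s
    obtain ⟨c, c0, hc⟩ := h (s + s0)
    obtain ⟨ξ, h1, h2⟩ := ext_ray (orb_fin F.finite_toSet _ a) (orb_ne hne _ a)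
      (fun p => orb_nz hF ha) c0 hc 1 one_ne_zero
    obtain ⟨ζ, g1, g2⟩ := ext_ray (orb_fin F.finite_toSet _ a) (orb_ne hne _ a)
      (fun p => orb_nz hF ha) c0 hc (-1) (by norm_num)
    have g3 : ∀ q ∈ Orb F (s + s0) a, 0 ≤ d2 q ζ := fun q hq => by
      have := g2 q hq
      simp only [d2] at this ⊢
      linarith
    simp only [one_mul] at h2
    refine ⟨ξ, h1, ζ, g1, lt_of_le_of_ne (h2 ζ g1) fun e => ?_, fun q hq => ⟨h2 q hq, g3 q hq⟩⟩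
    have x0 := orb_nz hF ha h1
    obtain ⟨τ, rfl⟩ := par x0 e.symm
    rcases lt_trichotomy τ 0 with t | t | t
    · obtain ⟨n, x, hx, y, hy, d⟩ := hl ξ x0
      obtain ⟨c', c0', hc'⟩ := h (n + (s + s0))
      have z : ∀ x ∈ Orb F n ξ, d2 (rot c') x = 0 := by
        rintro _ ⟨L, l1, l2, rfl⟩
        have a1 := hc' _ (orb_app h1 ⟨L, l1, l2, rfl⟩)
        have a2 := hc' _ (orb_app g1 ⟨L, l1, l2, rfl⟩)
        rw [Matrix.mulVec_smul, dotProduct_smul, smul_eq_mul] at a2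
        have : c' ⬝ᵥ (L.prod *ᵥ ξ) = 0 := by nlinarith
        rw [dot] at this
        simp only [d2, rot0, rot1]
        linarith
      exact d (d2_trans (fun h => c0' (ext2 (congrFun h 1) (by simpa using congrFun h 0)))
        (z x hx) (z y hy))
    · exact orb_nz hF ha g1 (by simp [t])
    · obtain ⟨x, hx, y, hy, d⟩ := sp s
      have z : ∀ x ∈ Orb F (s + s0) a, d2 ξ x = 0 := fun x hx => by
        have a1 := h2 x hx
        have a2 := g3 x hx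
        simp only [d2, Pi.smul_apply, smul_eq_mul] at a1 a2 ⊢
        nlinarith
      exact d (d2_trans x0 (z x hx) (z y hy))
  choose ξ h1 ζ h2 h3 h4 using ex
  refine ⟨fun s => !![ξ s 0, ζ s 0; ξ s 1, ζ s 1], fun s => ?_, fun s T hT => ?_⟩
  · have := h3 s
    rw [det_fin_two]
    simp only [d2] at this
    simp only [of_apply, cons_val', cons_val_zero, cons_val_one, cons_val_fin_one]
    linarith
  · have o1 := orb_step hT (h1 s)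
    have o2 := orb_step hT (h2 s)
    rw [← Nat.add_right_comm] at o1 o2
    have p := h3 (s + 1)
    refine ⟨!![d2 (T *ᵥ ξ s) (ζ (s + 1)) / d2 (ξ (s + 1)) (ζ (s + 1)),
      d2 (T *ᵥ ζ s) (ζ (s + 1)) / d2 (ξ (s + 1)) (ζ (s + 1));
      d2 (ξ (s + 1)) (T *ᵥ ξ s) / d2 (ξ (s + 1)) (ζ (s + 1)),
      d2 (ξ (s + 1)) (T *ᵥ ζ s) / d2 (ξ (s + 1)) (ζ (s + 1))], fun i j => ?_, ?_⟩
    · fin_cases i <;> fin_cases j
      · exact div_nonneg (h4 _ _ o1).2 p.le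
      · exact div_nonneg (h4 _ _ o2).2 p.le
      · exact div_nonneg (h4 _ _ o1).1 p.le
      · exact div_nonneg (h4 _ _ o2).1 p.le
    · refine Mext ?_ ?_ ?_ ?_ <;> simp only [Matrix.mul_apply, Fin.sum_univ_two, of_apply,
        cons_val', cons_val_zero, cons_val_one, cons_val_fin_one] <;> field_simp <;>
        simp only [d2, mv] <;> ring

lemma K_compact : IsCompact {v : V | n1 v = 1} := by
  refine Metric.isCompact_of_isClosed_isBounded (isClosed_eq (by unfold n1; fun_prop)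
    continuous_const) ((Metric.isBounded_closedBall (x := (0 : V)) (r := 1)).subset fun v hv => ?_)
  rw [mem_closedBall_zero_iff, pi_norm_le_iff_of_nonneg zero_le_one]
  exact fun i => hv ▸ le_n1 v i

lemma n1_unit {v : V} (h : v ≠ 0) : n1 ((n1 v)⁻¹ • v) = 1 := by
  rw [n1_smul, abs_of_pos (inv_pos.mpr (n1_pos h)), inv_mul_cancel₀ (n1_pos h).ne']

lemma n1_ne {v : V} (h : n1 v = 1) : v ≠ 0 := by rintro rfl; simp [n1] at h

lemma lists_fin (k : ℕ) : {L : List M | L.length = k ∧ Sub F L}.Finite := by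
  refine ((List.finite_length_eq F k).image fun w => w.map Subtype.val).subset ?_
  rintro L ⟨h1, h2⟩
  exact ⟨L.attachWith _ h2, by simpa using h1, by simp⟩

lemma rnd_of (hne : F.Nonempty) {k0 : ℕ}
    (h : ∀ a c : V, a ≠ 0 → c ≠ 0 → ∃ p ∈ Orb F k0 a, 0 < c ⬝ᵥ p) : ∃ δ, 0 < δ ∧ RND F k0 δ := by
  classical
  set A := (lists_fin (F := F) k0).toFinset with hA
  have mA : ∀ L, L ∈ A ↔ L.length = k0 ∧ Sub F L := fun L => by simp [hA]
  have e0 : n1 ![1, 0] = 1 := by simp [n1]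
  obtain ⟨x, hx, m⟩ := (K_compact.prod K_compact).exists_isMinOn ⟨(![1, 0], ![1, 0]), e0, e0⟩
    (f := fun x : V × V => ∑ L ∈ A, max (x.2 ⬝ᵥ (L.prod *ᵥ x.1)) 0) (by
      simp only [dot, mv]; fun_prop)
  set g := ∑ L ∈ A, max (x.2 ⬝ᵥ (L.prod *ᵥ x.1)) 0 with hg
  obtain ⟨_, ⟨L0, l1, l2, rfl⟩, l3⟩ := h x.1 x.2 (n1_ne hx.1) (n1_ne hx.2)
  have g0 : 0 < g := lt_of_lt_of_le (lt_max_of_lt_left l3) (Finset.single_le_sum
    (f := fun L : List M => max (x.2 ⬝ᵥ (L.prod *ᵥ x.1)) 0) (fun _ _ => le_max_right _ _)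
    ((mA L0).mpr ⟨l1, l2⟩))
  have An : A.Nonempty := ⟨L0, (mA L0).mpr ⟨l1, l2⟩⟩
  have c0 : (0 : ℝ) < A.card := by exact_mod_cast An.card_pos
  have key : ∀ a d : V, ∃ L ∈ A, g / A.card * n1 d * n1 a ≤ d ⬝ᵥ (L.prod *ᵥ a) := by
    intro a d
    by_cases ha : a = 0
    · exact ⟨L0, (mA L0).mpr ⟨l1, l2⟩, by simp [ha, n1]⟩
    by_cases hd : d = 0
    · exact ⟨L0, (mA L0).mpr ⟨l1, l2⟩, by simp [hd, n1]⟩
    have := m (a := ((n1 a)⁻¹ • a, (n1 d)⁻¹ • d)) ⟨n1_unit ha, n1_unit hd⟩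
    obtain ⟨L, hL, e⟩ := Finset.exists_le_of_sum_le (f := fun _ => g / A.card) An
      (le_trans (by
        rw [Finset.sum_const, nsmul_eq_mul, mul_div_cancel₀ _ c0.ne']) this)
    refine ⟨L, hL, ?_⟩
    have e' := (le_max_iff.mp e).resolve_right (not_le.mpr (by positivity))
    simp only [Matrix.mulVec_smul, dotProduct_smul, smul_dotProduct, smul_eq_mul] at e'
    have p1 := n1_pos ha
    have p2 := n1_pos hd
    calc _ ≤ (n1 a)⁻¹ * ((n1 d)⁻¹ * (d ⬝ᵥ L.prod *ᵥ a)) * n1 d * n1 a := by gcongr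
      _ = _ := by field_simp
  obtain ⟨H, h1, hH⟩ := exists_H F
  have HL : ∀ L : List M, Sub F L → ∀ v, n1 (L.prod *ᵥ v) ≤ H ^ L.length * n1 v := by
    intro L
    induction L with
    | nil => simp
    | cons T L ih =>
      intro hL v
      rw [List.prod_cons, ← Matrix.mulVec_mulVec, List.length_cons, pow_succ', mul_assoc]
      exact (hH T (Sub.cons.mp hL).1 _).trans
        (mul_le_mul_of_nonneg_left (ih (Sub.cons.mp hL).2 v) (by linarith))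
  refine ⟨g / A.card / H ^ k0, by positivity, fun j hj a d => ?_⟩
  obtain ⟨_, ⟨L, r1, r2, rfl⟩, e⟩ := R_mem hne j a
  rw [← List.take_append_drop k0 L] at r2 e
  have s := Sub.append.mp r2
  obtain ⟨L', m1, m2⟩ := key ((L.drop k0).prod *ᵥ a) d
  refine ⟨_, ⟨L' ++ L.drop k0, by simp [((mA _).mp m1).1]; omega,
    Sub.append.mpr ⟨((mA _).mp m1).2, s.2⟩, rfl⟩, ?_⟩
  rw [List.prod_append, ← Matrix.mulVec_mulVec]
  refine le_trans ?_ m2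
  have := HL _ s.1 ((L.drop k0).prod *ᵥ a)
  rw [Matrix.mulVec_mulVec, ← List.prod_append, e, List.length_take, min_eq_left (by omega)] at this
  have q := n1_nn d
  calc _ ≤ g / A.card / H ^ k0 * n1 d * (H ^ k0 * n1 ((L.drop k0).prod *ᵥ a)) := by gcongr
    _ = _ := by field_simp

lemma cantor (hne : F.Nonempty) (hF : ∀ T ∈ F, T.det ≠ 0)
    (h : ∀ k, ∃ a c : V, a ≠ 0 ∧ c ≠ 0 ∧ ∀ p ∈ Orb F k a, c ⬝ᵥ p ≤ 0) :
    ∃ a : V, a ≠ 0 ∧ ∀ s, ∃ c : V, c ≠ 0 ∧ ∀ p ∈ Orb F s a, c ⬝ᵥ p ≤ 0 := by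
  let Z : ℕ → Set V := fun k => Prod.fst '' ({v : V | n1 v = 1} ×ˢ {v : V | n1 v = 1} ∩
    ⋂ L ∈ {L : List M | L.length = k ∧ Sub F L}, {x : V × V | x.2 ⬝ᵥ (L.prod *ᵥ x.1) ≤ 0})
  have mZ : ∀ k a, a ∈ Z k ↔ n1 a = 1 ∧ ∃ c : V, c ≠ 0 ∧ ∀ p ∈ Orb F k a, c ⬝ᵥ p ≤ 0 := by
    intro k a
    constructor
    · rintro ⟨x, ⟨⟨h1, h2⟩, h3⟩, rfl⟩
      simp only [Set.mem_iInter] at h3
      exact ⟨h1, x.2, n1_ne h2, by rintro _ ⟨L, l1, l2, rfl⟩; exact h3 L ⟨l1, l2⟩⟩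
    · rintro ⟨h1, c, c0, hc⟩
      refine ⟨(a, (n1 c)⁻¹ • c), ⟨⟨h1, n1_unit c0⟩, ?_⟩, rfl⟩
      simp only [Set.mem_iInter, Set.mem_ofPred_eq, smul_dotProduct, smul_eq_mul]
      exact fun L hL => mul_nonpos_of_nonneg_of_nonpos (inv_nonneg.mpr (n1_nn c))
        (hc _ ⟨L, hL.1, hL.2, rfl⟩)
  have cZ : ∀ k, IsCompact (Z k) := fun k =>
    ((K_compact.prod K_compact).inter_right (isClosed_biInter fun L _ =>
      isClosed_le (by simp only [dot, mv]; fun_prop) continuous_const)).image continuous_fst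
  obtain ⟨a, ha⟩ := IsCompact.nonempty_iInter_of_sequence_nonempty_isCompact_isClosed Z
    (fun k a ha => by
      obtain ⟨h1, c, c0, hc⟩ := (mZ _ a).mp ha
      obtain ⟨T, hT⟩ := hne
      exact (mZ _ a).mpr ⟨h1, Tᵀ *ᵥ c, ne0 (by simpa using hF T hT) c0, fun p hp => by
        rw [← dotT]; exact hc _ (orb_step hT hp)⟩)
    (fun k => by
      obtain ⟨a, c, a0, c0, hc⟩ := h k
      refine ⟨(n1 a)⁻¹ • a, (mZ _ _).mpr ⟨n1_unit a0, c, c0, ?_⟩⟩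
      rintro _ ⟨L, l1, l2, rfl⟩
      rw [Matrix.mulVec_smul, dotProduct_smul, smul_eq_mul]
      exact mul_nonpos_of_nonneg_of_nonpos (inv_nonneg.mpr (n1_nn a)) (hc _ ⟨L, l1, l2, rfl⟩))
    (cZ 0) fun k => (cZ k).isClosed
  rw [Set.mem_iInter] at ha
  exact ⟨a, n1_ne ((mZ 0 a).mp (ha 0)).1, fun s => ((mZ s a).mp (ha s)).2⟩

lemma hnf {X Y : Matrix (Fin 2) (Fin 2) ℤ} (h : X.det = Y.det) (h0 : Y.det ≠ 0)
    (e : ∀ i j, X i j % Y.det = Y i j % Y.det) : ∃ U : Matrix (Fin 2) (Fin 2) ℤ,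
      U.det = 1 ∧ X = Y * U := by
  choose Z hZ using fun i j => (Int.ModEq.dvd (e i j).symm : Y.det ∣ X i j - Y i j)
  have : X = Y * (1 + Y.adjugate * Matrix.of Z) := by
    rw [Matrix.mul_add, Matrix.mul_one, ← Matrix.mul_assoc, mul_adjugate, Matrix.smul_mul,
      Matrix.one_mul]
    ext i j
    simp only [Matrix.add_apply, Matrix.smul_apply, of_apply, smul_eq_mul]
    linarith [hZ i j]
  refine ⟨_, mul_left_cancel₀ h0 ?_, this⟩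
  rw [← det_mul, ← this, h, mul_one]

lemma family (hF : ∀ T ∈ F, T.det ≠ 0) {N : ℝ} (hB : BD F N) : ∃ (Ω : Type) (_ : Fintype Ω)
    (_ : Ω) (B : Ω → M), (∀ i, (B i).det ≠ 0) ∧ ∀ T ∈ F, ∀ i, ∃ (j : Ω) (c : ℝ) (U : M),
      (∃ n, SR n U) ∧ T * B i = c • (B j * U) := by
  let 𝒳 : Set (Matrix (Fin 2) (Fin 2) ℤ) := {X | X.det ≠ 0 ∧ |X.det| ≤ ⌈N⌉ ∧
    ∃ L, Sub F L ∧ ∃ c : ℝ, c ≠ 0 ∧ L.prod = c • X.map (Int.cast : ℤ → ℝ)}
  have cd : ∀ X : Matrix (Fin 2) (Fin 2) ℤ, (X.map (Int.cast : ℤ → ℝ)).det = (X.det : ℝ) :=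
    fun X => by simp [det_fin_two]
  have ex : ∀ L, Sub F L → ∃ X ∈ 𝒳, ∃ c : ℝ, L.prod = c • X.map (Int.cast : ℤ → ℝ) := by
    intro L hL
    obtain ⟨c, X, h1, h2, h3⟩ := hB L hL
    choose Z hZ using h1
    have e : X = (Matrix.of Z).map (Int.cast : ℤ → ℝ) := by ext i j; exact hZ i j
    have d := hL.det hF
    rw [h3, det_smul] at d
    rw [e, cd] at h2 d
    refine ⟨Matrix.of Z, ⟨by exact_mod_cast right_ne_zero_of_mul d, by
      exact_mod_cast h2.trans (Int.le_ceil N), L, hL, c, ?_, e ▸ h3⟩, c, e ▸ h3⟩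
    rintro rfl
    simp at d
  let code : Matrix (Fin 2) (Fin 2) ℤ → ℤ × (Fin 2 → Fin 2 → ℤ) :=
    fun X => (X.det, fun i j => X i j % X.det)
  have fin : (code '' 𝒳).Finite := by
    refine ((Set.finite_Icc (-⌈N⌉) ⌈N⌉).prod (Set.Finite.pi' fun _ : Fin 2 =>
      Set.Finite.pi' fun _ : Fin 2 => Set.finite_Icc 0 ⌈N⌉)).subset ?_
    rintro _ ⟨X, ⟨h1, h2, -⟩, rfl⟩
    exact ⟨abs_le.mp h2, fun i j => ⟨Int.emod_nonneg _ h1, (Int.emod_lt_abs _ h1).le.trans h2⟩⟩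
  choose rep r1 r2 using fun t : code '' 𝒳 => t.2
  obtain ⟨X0, hX0, -⟩ := ex [] (by simp [Sub])
  refine ⟨code '' 𝒳, fin.fintype, ⟨_, X0, hX0, rfl⟩, fun t => (rep t).map (Int.cast : ℤ → ℝ),
    fun t => by rw [cd]; exact_mod_cast (r1 t).1, fun T hT t => ?_⟩
  obtain ⟨-, -, L, hL, c, c0, e⟩ := r1 t
  obtain ⟨X, hX, c', e'⟩ := ex (T :: L) (Sub.cons.mpr ⟨hT, hL⟩)
  have q := r2 ⟨_, X, hX, rfl⟩
  have q1 : (rep ⟨_, X, hX, rfl⟩).det = X.det := congrArg Prod.fst q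
  obtain ⟨U, u1, u2⟩ := hnf q1.symm (r1 _).1 fun i j => by
    have := congrFun (congrFun (congrArg Prod.snd q) i) j
    simp only [code] at this
    rw [this, q1]
  refine ⟨⟨_, X, hX, rfl⟩, c⁻¹ * c', _, sr_int U (Or.inl u1), ?_⟩
  have m : X.map (Int.cast : ℤ → ℝ) = (rep ⟨_, X, hX, rfl⟩).map (Int.cast : ℤ → ℝ) *
      U.map (Int.cast : ℤ → ℝ) := by
    conv_lhs => rw [u2]
    exact Matrix.map_mul (f := Int.castRingHom ℝ)
  rw [← m, ← smul_smul, ← e', List.prod_cons, e, Matrix.mul_smul, smul_smul, inv_mul_cancel₀ c0,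
    one_smul]

theorem pb_bd (hF : ∀ T ∈ F, T.det ≠ 0) {N : ℝ} (hB : BD F N) : PB ↑F := by
  rcases F.eq_empty_or_nonempty with rfl | hne
  · refine ⟨fun _ => 1, PolyB.const _, fun k n a _ => Le.one ?_⟩
    rintro _ ⟨⟨w, -, h, rfl⟩, -⟩ _ ⟨⟨w', -, h', rfl⟩, -⟩
    simp only [Finset.coe_empty, Set.mem_empty_iff_false, imp_false] at h h'
    rw [List.eq_nil_iff_forall_not_mem.mpr h, List.eq_nil_iff_forall_not_mem.mpr h']
  by_cases h1 : ∃ k0, ∀ a c : V, a ≠ 0 → c ≠ 0 → ∃ p ∈ Orb F k0 a, 0 < c ⬝ᵥ p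
  · obtain ⟨k0, h⟩ := h1
    obtain ⟨δ, d0, hδ⟩ := rnd_of hne h
    exact pb_round hne hF hB d0 hδ
  push Not at h1
  obtain ⟨a, a0, ha⟩ := cantor hne hF h1
  by_cases h2 : ∃ p : V, p ≠ 0 ∧ ∀ n, ∀ x ∈ Orb F n p, ∀ y ∈ Orb F n p, d2 x y = 0
  · obtain ⟨p, p0, hp⟩ := h2
    exact pb_lock hne hF p0 hp
  push Not at h2
  obtain ⟨X, x1, x2⟩ := cones hne hF a0 ha h2
  obtain ⟨Ω, _, i0, B, b1, b2⟩ := family hF hB
  exact pb_cone F i0 B b1 hF b2 X x1 x2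

lemma pb_conj (F : Finset M) {S : M} (hS : S.det ≠ 0)
    (h : PB ((fun T => S⁻¹ * T * S) '' (F : Set M))) : PB ↑F := by
  obtain ⟨f, hf, H⟩ := h
  have u1 := Matrix.mul_nonsing_inv _ (isUnit_iff_ne_zero.mpr hS)
  have key : ∀ L : List M, L.prod * S = S * (L.map fun T => S⁻¹ * T * S).prod := by
    intro L
    induction L with
    | nil => simp
    | cons T L ih =>
      rw [List.prod_cons, List.map_cons, List.prod_cons, Matrix.mul_assoc, ih]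
      simp only [← Matrix.mul_assoc, u1, Matrix.one_mul]
  refine ⟨f, hf, fun k n a hn => ?_⟩
  obtain ⟨a', rfl⟩ := surj hS a
  refine (Ex.img hS (H k n a' hn)).mono (subset_of_eq (congrArg Ex ?_)) le_rfl
  ext p
  constructor
  · rintro ⟨L, h1, h2, rfl⟩
    refine ⟨_, ⟨L.map fun T => S⁻¹ * T * S, by simpa using h1, ?_, rfl⟩, by
      simp only [Matrix.mulVec_mulVec, key]⟩
    intro T hT
    obtain ⟨T', g, rfl⟩ := List.mem_map.mp hT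
    exact ⟨T', h2 T' g, rfl⟩
  · rintro ⟨_, ⟨L, h1, h2, rfl⟩, rfl⟩
    obtain ⟨L', g1, rfl⟩ : ∃ L' : List M, (∀ T ∈ L', T ∈ (F : Set M)) ∧
        (L'.map fun T => S⁻¹ * T * S) = L := by
      clear h1
      induction L with
      | nil => exact ⟨[], by simp, rfl⟩
      | cons T L ih =>
        obtain ⟨L', g1, rfl⟩ := ih fun T hT => h2 T (List.mem_cons_of_mem _ hT)
        obtain ⟨T', g, rfl⟩ := h2 T List.mem_cons_self
        exact ⟨T' :: L', by simpa [g] using ⟨g, g1⟩, rfl⟩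
    exact ⟨L', by simpa using h1, g1, by simp only [Matrix.mulVec_mulVec, key]⟩

end Pool.Agent.Lib.MP_34a884_an.Uni
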