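import Mathlib
import Pool.Agent.Lib.MP_34a884_an.VMain

/-! Vertices with two visible children are critical points; the linear and the quadratic count. -/

namespace Pool.Agent.Lib.MP_34a884_an.Uni

open Matrix

/-- `e` exposes `y` in `K`. -/
def Exp (K : Set V) (e y : V) : Prop := ∀ z ∈ K, z = y ∨ e ⬝ᵥ z < e ⬝ᵥ y

/-- `w` lies in the hull of `Z`, has the outer normal `e` on the far side, and `e` is orthogonal
to `N w`. -/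
def Crit (Z : Set V) (N : M) (e w : V) : Prop :=
  (∀ (g : V) (m : ℝ), (∀ z ∈ Z, g ⬝ᵥ z ≤ m) → g ⬝ᵥ w ≤ m) ∧ (∀ z ∈ Z, e ⬝ᵥ z ≤ e ⬝ᵥ w) ∧
    0 < e ⬝ᵥ w ∧ e ⬝ᵥ (N *ᵥ w) = 0

lemma split_basis {N : M} (hN : N.det < 0) : ∃ (α β : ℝ) (b1 b2 φ1 φ2 : V), 0 < α ∧ 0 < β ∧
    ∀ e v : V, e ⬝ᵥ v = (e ⬝ᵥ b1) * (φ1 ⬝ᵥ v) + (e ⬝ᵥ b2) * (φ2 ⬝ᵥ v) ∧
      e ⬝ᵥ (N *ᵥ v) = α * ((e ⬝ᵥ b1) * (φ1 ⬝ᵥ v)) - β * ((e ⬝ᵥ b2) * (φ2 ⬝ᵥ v)) := by
  rw [det_fin_two] at hN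
  obtain ⟨t, ht⟩ : ∃ t, t = N 0 0 + N 1 1 := ⟨_, rfl⟩
  obtain ⟨δ, hδ⟩ : ∃ δ, δ = N 0 0 * N 1 1 - N 0 1 * N 1 0 := ⟨_, rfl⟩
  rw [← hδ] at hN
  have z2 : Real.sqrt (t ^ 2 - 4 * δ) ^ 2 = t ^ 2 - 4 * δ := Real.sq_sqrt (by nlinarith)
  have z0 := Real.sqrt_nonneg (t ^ 2 - 4 * δ)
  generalize Real.sqrt (t ^ 2 - 4 * δ) = z at z2 z0
  have a0 : 0 < z + t := by by_contra hc; nlinarith
  have b0 : 0 < z - t := by by_contra hc; nlinarith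
  have z1 : z ≠ 0 := by intro h; linarith
  obtain ⟨b1, φ1, h1⟩ := rank_one (T := z⁻¹ • (N + ((z - t) / 2) • (1 : M))) (by
    rw [det_smul, det_fin_two]
    simp
    right
    rw [ht, hδ] at z2; rw [ht]; nlinarith)
  obtain ⟨b2, φ2, h2⟩ := rank_one (T := z⁻¹ • (((z + t) / 2) • (1 : M) - N)) (by
    rw [det_smul, det_fin_two]
    simp
    right
    rw [ht, hδ] at z2; rw [ht]; nlinarith)
  refine ⟨(z + t) / 2, (z - t) / 2, b1, b2, φ1, φ2, by positivity, by positivity, fun e v => ?_⟩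
  have e1 := congrArg (e ⬝ᵥ ·) (h1 v)
  have e2 := congrArg (e ⬝ᵥ ·) (h2 v)
  simp only [Matrix.smul_mulVec, Matrix.add_mulVec, Matrix.sub_mulVec, Matrix.one_mulVec,
    dotProduct_smul, dotProduct_add, dotProduct_sub, smul_eq_mul] at e1 e2
  rw [mul_comm (e ⬝ᵥ b1), mul_comm (e ⬝ᵥ b2), ← e1, ← e2]
  constructor <;> field_simp <;> ring

lemma crit_le (K Z : Set V) {N : M} (hN : N.det < 0) :
    Le {y | y ∈ K ∧ ∃ e w, Exp K e y ∧ Crit Z N e w} 4 := by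
  classical
  obtain ⟨α, β, b1, b2, φ1, φ2, a0, b0, H⟩ := split_basis hN
  refine Le.code (T := Set.univ ×ˢ Set.univ) (n := 2 * 2)
    (fun (t : Bool × Bool) y => y ∈ K ∧ ∃ e w, Exp K e y ∧ Crit Z N e w ∧
      (t.1 = true ↔ 0 < φ1 ⬝ᵥ w) ∧ (t.2 = true ↔ 0 < φ2 ⬝ᵥ w)) (Le.bool.prod Le.bool)
    (fun y ⟨hy, e, w, h1, h2⟩ => ⟨(decide (0 < φ1 ⬝ᵥ w), decide (0 < φ2 ⬝ᵥ w)),
      ⟨trivial, trivial⟩, hy, e, w, h1, h2, by simp, by simp⟩) ?_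
  rintro t y y' ⟨hy, e, w, h1, ⟨c1, c2, c3, c4⟩, s1, s2⟩ ⟨hy', e', w', h1', ⟨d1, d2, d3, d4⟩, r1, r2⟩
  have i1 := d1 e _ c2
  have i2 := c1 e' _ d2
  rw [(H e w).2] at c4
  rw [(H e' w').2] at d4
  rw [(H e w).1] at c3
  rw [(H e' w').1] at d3
  rw [(H e w').1, (H e w).1] at i1
  rw [(H e' w).1, (H e' w').1] at i2
  have key : ∃ τ : ℝ, 0 < τ ∧ e' ⬝ᵥ b1 = τ * (e ⬝ᵥ b1) ∧ e' ⬝ᵥ b2 = τ * (e ⬝ᵥ b2) := by
    have u1 : 0 < φ1 ⬝ᵥ w ↔ 0 < φ1 ⬝ᵥ w' := s1.symm.trans r1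
    have u2 : 0 < φ2 ⬝ᵥ w ↔ 0 < φ2 ⬝ᵥ w' := s2.symm.trans r2
    generalize φ1 ⬝ᵥ w = x at *
    generalize φ2 ⬝ᵥ w = y at *
    generalize φ1 ⬝ᵥ w' = x' at *
    generalize φ2 ⬝ᵥ w' = y' at *
    generalize e ⬝ᵥ b1 = p at *
    generalize e ⬝ᵥ b2 = q at *
    generalize e' ⬝ᵥ b1 = p' at *
    generalize e' ⬝ᵥ b2 = q' at *
    have pos : ∀ u v : ℝ, α * u - β * v = 0 → 0 < u + v → 0 < u ∧ 0 < v := fun u v h1 h2 => by
      constructor <;> (by_contra hc; nlinarith)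
    obtain ⟨m1, m2⟩ := pos _ _ c4 c3
    obtain ⟨n1, n2⟩ := pos _ _ d4 d3
    have x0 : x ≠ 0 := by rintro rfl; simp at m1
    have y0 : y ≠ 0 := by rintro rfl; simp at m2
    have x0' : x' ≠ 0 := by rintro rfl; simp at n1
    have y0' : y' ≠ 0 := by rintro rfl; simp at n2
    have rat : ∀ {u u' : ℝ}, u ≠ 0 → u' ≠ 0 → (0 < u ↔ 0 < u') → ∃ r : ℝ, 0 < r ∧ u' = r * u := by
      intro u u' h h' g
      refine ⟨u' / u, ?_, by field_simp⟩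
      rcases lt_or_gt_of_ne h with c | c
      · exact div_pos_of_neg_of_neg (lt_of_le_of_ne (not_lt.mp fun d => by
          linarith [g.mpr d]) h') c
      · exact div_pos (g.mp c) c
    obtain ⟨r, r0, rfl⟩ := rat x0 x0' u1
    obtain ⟨s, s0, rfl⟩ := rat y0 y0' u2
    have j1 : β * r + α * s ≤ β + α := by
      have : p * x * (β * r + α * s) ≤ p * x * (β + α) := by
        have := mul_le_mul_of_nonneg_left i1 b0.le
        linear_combination this + (s - 1) * c4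
      exact le_of_mul_le_mul_left this m1
    have j2 : β * s + α * r ≤ (β + α) * (r * s) := by
      have : p' * (r * x) * (β * s + α * r) ≤ p' * (r * x) * ((β + α) * (r * s)) := by
        have := mul_le_mul_of_nonneg_left i2 (show 0 ≤ β * (r * s) by positivity)
        linear_combination this + r * (1 - s) * d4
      exact le_of_mul_le_mul_left this n1
    have j3 : β * s * (r - 1) ^ 2 + α * r * (s - 1) ^ 2 ≤ 0 := by
      have := mul_le_mul_of_nonneg_left j1 (show 0 ≤ r * s by positivity)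
      linear_combination this + j2
    have k1 : 0 ≤ β * s * (r - 1) ^ 2 := by positivity
    have k2 : 0 ≤ α * r * (s - 1) ^ 2 := by positivity
    have r1 : r = 1 := by
      have : β * s * (r - 1) ^ 2 = 0 := by linarith
      simpa [b0.ne', s0.ne', sub_eq_zero] using this
    have s1 : s = 1 := by
      have : α * r * (s - 1) ^ 2 = 0 := by linarith
      simpa [a0.ne', r0.ne', sub_eq_zero] using this
    subst r1 s1
    simp only [one_mul] at *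
    have p0 : p ≠ 0 := by rintro rfl; simp at m1
    refine ⟨p' * x / (p * x), div_pos n1 m1, by field_simp, ?_⟩
    field_simp
    refine mul_left_cancel₀ (mul_ne_zero b0.ne' y0) ?_
    linear_combination p' * c4 - p * d4
  obtain ⟨τ, t0, t1, t2⟩ := key
  have E : ∀ v, e' ⬝ᵥ v = τ * (e ⬝ᵥ v) := fun v => by
    rw [(H e' v).1, (H e v).1, t1, t2]; ring
  by_contra hne
  have g1 := (h1 y' hy').resolve_left (Ne.symm hne)
  have g2 := (h1' y hy).resolve_left hne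
  rw [E, E] at g2
  nlinarith

lemma crit_le0 (K Z : Set V) {N : M} (hN : N.det = 0) (h0 : N ≠ 0) :
    Le {y | y ∈ K ∧ ∃ e w, Exp K e y ∧ Crit Z N e w ∧ (N *ᵥ w = 0 → w = y)} 4 := by
  classical
  obtain ⟨b, φ, H⟩ := rank_one hN
  have nz : b ≠ 0 ∧ φ ≠ 0 := by
    constructor <;> rintro rfl <;>
      exact h0 (Matrix.ext_of_mulVec_single fun i => by rw [H, Matrix.zero_mulVec]; simp)
  have rat : ∀ {u u' : ℝ}, u ≠ 0 → u' ≠ 0 → (0 < u ↔ 0 < u') → ∃ r : ℝ, 0 < r ∧ u' = r * u := by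
    intro u u' h h' g
    refine ⟨u' / u, ?_, by field_simp⟩
    rcases lt_or_gt_of_ne h with c | c
    · exact div_pos_of_neg_of_neg (lt_of_le_of_ne (not_lt.mp fun d => by
        linarith [g.mpr d]) h') c
    · exact div_pos (g.mp c) c
  refine Le.code (T := Set.univ ×ˢ Set.univ) (n := 2 * 2)
    (fun (t : Bool × Bool) y => y ∈ K ∧ ∃ (e : V) (τ : ℝ), Exp K e y ∧ τ ≠ 0 ∧
      (t.2 = true ↔ 0 < τ) ∧ bif t.1 then e = τ • rot b else y = τ • rot φ ∧ 0 < e ⬝ᵥ y)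
    (Le.bool.prod Le.bool) ?_ ?_
  · rintro y ⟨hy, e, w, h1, ⟨-, -, c3, c4⟩, c5⟩
    rw [H, dotProduct_smul, smul_eq_mul] at c4
    rcases mul_eq_zero.mp c4 with c | c
    · obtain rfl := c5 (by rw [H, c, zero_smul])
      obtain ⟨τ, hτ⟩ := perp nz.2 c
      exact ⟨(false, decide (0 < τ)), ⟨trivial, trivial⟩, hy, e, τ, h1,
        by rintro rfl; simp [hτ] at c3, by simp, hτ, c3⟩
    · obtain ⟨τ, hτ⟩ := perp nz.1 (dotProduct_comm e b ▸ c)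
      exact ⟨(true, decide (0 < τ)), ⟨trivial, trivial⟩, hy, e, τ, h1,
        by rintro rfl; simp [hτ] at c3, by simp, hτ⟩
  rintro ⟨t, t'⟩ y y' ⟨hy, e, τ, h1, a1, a2, a3⟩ ⟨hy', e', τ', h1', b1, b2, b3⟩
  obtain ⟨r, r0, rfl⟩ := rat a1 b1 (a2.symm.trans b2)
  by_contra hne
  have g1 := (h1 y' hy').resolve_left (Ne.symm hne)
  have g2 := (h1' y hy).resolve_left hne
  cases t
  · obtain ⟨a3, a4⟩ := a3
    obtain ⟨b3, b4⟩ := b3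
    rw [mul_smul, ← a3] at b3
    rw [b3, dotProduct_smul, smul_eq_mul] at g1 g2 b4
    have : 0 < e' ⬝ᵥ y := (mul_pos_iff_of_pos_left r0).mp b4
    have : r < 1 := by by_contra hc; nlinarith
    nlinarith
  · simp only [cond_true] at a3 b3
    rw [mul_smul, ← a3] at b3
    rw [b3, smul_dotProduct, smul_dotProduct, smul_eq_mul, smul_eq_mul] at g2
    nlinarith

/-- The eigenvalues of `G` are separated by one, and `G` is not the identity. -/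
def Sp (G : M) : Prop := (G - 1).det ≤ 0 ∧ G - 1 ≠ 0

lemma crit_le' (K Z : Set V) {G : M} (h : Sp G) : Le {y | y ∈ K ∧ ∃ e w, Exp K e y ∧
    Crit Z (G - 1) e w ∧ ((G - 1) *ᵥ w = 0 → w = y)} 4 := by
  rcases h.1.eq_or_lt with c | c
  · exact crit_le0 K Z c h.2
  · exact (crit_le K Z c).mono (fun y ⟨a, e, w, b1, b2, _⟩ => ⟨a, e, w, b1, b2⟩) le_rfl

/-- `w` lies on a segment between two points of `Z` at the same height. -/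
def Mid (Z : Set V) (e w : V) : Prop := ∃ u ∈ Z, ∃ v ∈ Z, ∃ θ : ℝ, 0 ≤ θ ∧ θ ≤ 1 ∧
  w = (1 - θ) • u + θ • v ∧ e ⬝ᵥ u = e ⬝ᵥ w ∧ e ⬝ᵥ v = e ⬝ᵥ w

lemma mid_lt {f a b t : V} {θ : ℝ} (t0 : 0 ≤ θ) (t1 : θ ≤ 1) (ha : a = t ∨ f ⬝ᵥ a < f ⬝ᵥ t)
    (hb : b = t ∨ f ⬝ᵥ b < f ⬝ᵥ t) :
    (1 - θ) • a + θ • b = t ∨ f ⬝ᵥ ((1 - θ) • a + θ • b) < f ⬝ᵥ t := by
  rcases t0.eq_or_lt with rfl | p
  · simpa using ha
  rcases t1.eq_or_lt with rfl | q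
  · simpa using hb
  rw [dotProduct_add, dotProduct_smul, dotProduct_smul, smul_eq_mul, smul_eq_mul]
  rcases ha with rfl | ha <;> rcases hb with rfl | hb
  · left; rw [← add_smul]; simp
  all_goals right; nlinarith

lemma seg_crit {Z : Set V} (hZ : Z.Finite) {N : M} {d d' z0 z1 : V} (h0 : z0 ∈ Z) (h1 : z1 ∈ Z)
    (m0 : ∀ z ∈ Z, d ⬝ᵥ z ≤ d ⬝ᵥ z0) (m1 : ∀ z ∈ Z, d' ⬝ᵥ z ≤ d' ⬝ᵥ z1)
    (n0 : d ⬝ᵥ (N *ᵥ z0) ≤ 0) (n1 : 0 ≤ d' ⬝ᵥ (N *ᵥ z1))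
    (pos : ∀ s : ℝ, 0 ≤ s → s ≤ 1 → ∃ z ∈ Z, 0 < ((1 - s) • d + s • d') ⬝ᵥ z) :
    ∃ (s : ℝ) (w : V), 0 ≤ s ∧ s ≤ 1 ∧ Crit Z N ((1 - s) • d + s • d') w ∧
      Mid Z ((1 - s) • d + s • d') w := by
  have cont : ∀ v : V, Continuous fun s : ℝ => ((1 - s) • d + s • d') ⬝ᵥ v := fun v => by
    simp only [add_dotProduct, smul_dotProduct, smul_eq_mul]; fun_prop
  have cl : ∀ σ : ℝ, IsClosed (⋃ z ∈ Z, {s : ℝ | (∀ z' ∈ Z, ((1 - s) • d + s • d') ⬝ᵥ z' ≤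
      ((1 - s) • d + s • d') ⬝ᵥ z) ∧ σ * (((1 - s) • d + s • d') ⬝ᵥ (N *ᵥ z)) ≤ 0}) := by
    intro σ
    refine hZ.isClosed_biUnion fun z _ => ?_
    have := (isClosed_biInter (s := Z) fun z' _ => isClosed_le (cont z') (cont z)).inter
      (isClosed_le ((continuous_const (y := σ)).mul (cont (N *ᵥ z))) (continuous_const (y := 0)))
    convert this using 1
    ext s
    simp only [Set.mem_ofPred_eq, Set.mem_inter_iff, Set.mem_iInter, Pi.mul_apply]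
  obtain ⟨s, ⟨s0, s1⟩, a, b⟩ := isPreconnected_closed_iff.mp (isPreconnected_Icc (a := (0 : ℝ))
    (b := 1)) _ _ (cl 1) (cl (-1))
    (fun s _ => by
      obtain ⟨z, hz, hm⟩ := Set.exists_max_image Z (((1 - s) • d + s • d') ⬝ᵥ ·) hZ ⟨z0, h0⟩
      rcases le_total (((1 - s) • d + s • d') ⬝ᵥ (N *ᵥ z)) 0 with c | c
      · exact Or.inl (Set.mem_biUnion hz ⟨hm, by linarith⟩)
      · exact Or.inr (Set.mem_biUnion hz ⟨hm, by linarith⟩))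
    ⟨0, by simp, Set.mem_biUnion h0 ⟨by simpa using m0, by simpa using n0⟩⟩
    ⟨1, by simp, Set.mem_biUnion h1 ⟨by simpa using m1, by
      simp only [sub_self, zero_smul, one_smul, zero_add]; linarith⟩⟩
  simp only [Set.mem_iUnion, Set.mem_ofPred_eq] at a b
  obtain ⟨u, hu, a1, a2⟩ := a
  obtain ⟨v, hv, b1, b2⟩ := b
  obtain ⟨z, hz, p⟩ := pos s s0 s1
  refine ⟨s, ?_⟩
  generalize (1 - s) • d + s • d' = e at *
  have e1 : e ⬝ᵥ u = e ⬝ᵥ v := le_antisymm (b1 u hu) (a1 v hv)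
  obtain ⟨θ, t0, t1, t2⟩ : ∃ θ : ℝ, 0 ≤ θ ∧ θ ≤ 1 ∧
      (1 - θ) * (e ⬝ᵥ (N *ᵥ u)) + θ * (e ⬝ᵥ (N *ᵥ v)) = 0 := by
    generalize e ⬝ᵥ (N *ᵥ u) = x at *
    generalize e ⬝ᵥ (N *ᵥ v) = y at *
    rcases (show 0 ≤ y - x by linarith).eq_or_lt with c | c
    · exact ⟨0, le_rfl, zero_le_one, by linarith⟩
    · exact ⟨-x / (y - x), div_nonneg (by linarith) c.le, by rw [div_le_one c]; linarith, by
        field_simp; ring⟩
  have ew : e ⬝ᵥ ((1 - θ) • u + θ • v) = e ⬝ᵥ u := by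
    simp only [dotProduct_add, dotProduct_smul, smul_eq_mul, ← e1]; ring
  refine ⟨(1 - θ) • u + θ • v, s0, s1, ⟨fun g m hg => ?_, fun z hz => ew ▸ a1 z hz,
    ew ▸ p.trans_le (a1 z hz), ?_⟩, u, hu, v, hv, θ, t0, t1, rfl, ew.symm, e1.symm.trans ew.symm⟩
  · simp only [dotProduct_add, dotProduct_smul, smul_eq_mul]
    nlinarith [hg u hu, hg v hv]
  · simpa only [Matrix.mulVec_add, Matrix.mulVec_smul, dotProduct_add, dotProduct_smul,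
      smul_eq_mul] using t2

lemma Exp.seg {K : Set V} {d d' y : V} (h : Exp K d y) (h' : Exp K d' y) {s : ℝ} (s0 : 0 ≤ s)
    (s1 : s ≤ 1) : Exp K ((1 - s) • d + s • d') y := by
  intro z hz
  by_cases e : z = y
  · exact Or.inl e
  have a := (h z hz).resolve_left e
  have b := (h' z hz).resolve_left e
  right
  simp only [add_dotProduct, smul_dotProduct, smul_eq_mul]
  rcases s0.eq_or_lt with rfl | c
  · simpa using a
  · nlinarith [mul_pos c (sub_pos.mpr b), mul_nonneg (sub_nonneg.mpr s1) (sub_pos.mpr a).le]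

/-- The step from two visibility conditions to a critical point. -/
lemma two_child {Z : Set V} (hZ : Z.Finite) {G : M} (g0 : 0 < G.det) (g1 : (G - 1).det ≤ 0)
    {d d2 z0 z1 : V} (h0 : z0 ∈ Z) (h1 : z1 ∈ Z) (m0 : ∀ z ∈ Z, d ⬝ᵥ z ≤ d ⬝ᵥ z0)
    (m1 : ∀ z ∈ Z, (Gᵀ *ᵥ d2) ⬝ᵥ z ≤ (Gᵀ *ᵥ d2) ⬝ᵥ z1) (n0 : d ⬝ᵥ (G *ᵥ z0) ≤ d ⬝ᵥ z0)
    (n1 : d2 ⬝ᵥ z1 ≤ (Gᵀ *ᵥ d2) ⬝ᵥ z1)
    (pos : ∀ s : ℝ, 0 ≤ s → s ≤ 1 → ∃ z ∈ Z, 0 < ((1 - s) • d + s • (Gᵀ *ᵥ d2)) ⬝ᵥ z) :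
    ∃ (s : ℝ) (w : V), 0 ≤ s ∧ s ≤ 1 ∧ Crit Z (G - 1) ((1 - s) • d + s • (Gᵀ *ᵥ d2)) w ∧
      Mid Z ((1 - s) • d + s • (Gᵀ *ᵥ d2)) w := by
  refine seg_crit hZ h0 h1 m0 m1 ?_ ?_ pos
  · rw [Matrix.sub_mulVec, Matrix.one_mulVec, dotProduct_sub]; linarith
  · obtain ⟨z, hz, p⟩ := pos 1 zero_le_one le_rfl
    have p1 : 0 < (Gᵀ *ᵥ d2) ⬝ᵥ z1 := lt_of_lt_of_le (by simpa using p) (m1 z hz)
    have e : (Gᵀ *ᵥ d2) ⬝ᵥ ((G - 1) *ᵥ z1) = -(G - 1).det * ((Gᵀ *ᵥ d2) ⬝ᵥ z1) +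
        G.det * ((Gᵀ *ᵥ d2) ⬝ᵥ z1 - d2 ⬝ᵥ z1) := by
      simp only [dot, mv, det_fin_two, Matrix.sub_apply, Matrix.transpose_apply, Matrix.one_apply]
      simp; ring
    rw [e]
    have := mul_nonneg (neg_nonneg.mpr g1) p1.le
    have := mul_nonneg g0.le (sub_nonneg.mpr n1)
    linarith

end Pool.Agent.Lib.MP_34a884_an.Uni
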