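import Mathlib
import Pool.Agent.Lib.MP_34a884_an.OCrit

/-! The count of exposed points when all quotients are split. -/

namespace Pool.Agent.Lib.MP_34a884_an.Uni

open Matrix Pointwise

/-- Exposed points; if `p` holds, only those on the far side. -/
def ExP (p : Prop) (K : Set V) : Set V := {x | x ∈ K ∧ ∃ c, Exp K c x ∧ (p → 0 < c ⬝ᵥ x)}

/-- The union of the images of `K`. -/
def Nxt (F : Finset M) (K : Set V) : Set V := {x | ∃ T ∈ F, ∃ y ∈ K, x = T *ᵥ y}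

lemma Exp.parent {K Y : Set V} {T : M} (hT : ∀ z ∈ K, T *ᵥ z ∈ Y) (h0 : T.det ≠ 0)
    {c y : V} (h : Exp Y c (T *ᵥ y)) : Exp K (Tᵀ *ᵥ c) y := by
  intro z hz
  rcases h _ (hT z hz) with e | e
  · exact Or.inl (inj h0 e)
  · right; rwa [← dotT, ← dotT]

lemma step_le {p : Prop} {F : Finset M} (hF : ∀ T ∈ F, T.det ≠ 0) {K Bad : Set V} {n b : ℕ}
    (h1 : Le (ExP p K) n) (h2 : Le Bad b)
    (h : ∀ y ∈ K, y ∉ Bad → ∀ T ∈ F, ∀ T' ∈ F, T *ᵥ y ∈ ExP p (Nxt F K) →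
      T' *ᵥ y ∈ ExP p (Nxt F K) → T *ᵥ y = T' *ᵥ y) :
    Le (ExP p (Nxt F K)) (n + b * F.card) := by
  have c1 : Le {x | ∃ y ∈ ExP p K, y ∉ Bad ∧ x ∈ ExP p (Nxt F K) ∧ ∃ T ∈ F, x = T *ᵥ y} n :=
    Le.code (fun y x => y ∈ K ∧ y ∉ Bad ∧ x ∈ ExP p (Nxt F K) ∧ ∃ T ∈ F, x = T *ᵥ y) h1
      (fun x ⟨y, a, b⟩ => ⟨y, a, a.1, b⟩) (by
        rintro y _ _ ⟨a1, a2, a3, T, a4, rfl⟩ ⟨-, -, b3, T', b4, rfl⟩
        exact h y a1 a2 T a4 T' b4 a3 b3)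
  have c2 := (h2.prod (⟨F, le_rfl, subset_rfl⟩ : Le (↑F : Set M) F.card)).image
    fun t => t.2 *ᵥ t.1
  refine (c1.union c2).mono ?_ le_rfl
  intro x hx
  obtain ⟨⟨T, hT, y, hy, rfl⟩, c, c1, c2⟩ := id hx
  by_cases hb : y ∈ Bad
  · exact Or.inr ⟨(y, T), ⟨hb, hT⟩, rfl⟩
  · have m : ∀ z ∈ K, T *ᵥ z ∈ Nxt F K := fun z hz => ⟨T, hT, z, hz, rfl⟩
    exact Or.inl ⟨y, ⟨hy, _, c1.parent m (hF T hT), fun q => by
      rw [← dotT]; exact c2 q⟩, hb, hx, T, hT, rfl⟩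

/-- The quotient has positive eigenvalues on both sides of one. -/
def Spl (T T' : M) : Prop := ∃ G : M, T' = T * G ∧ 0 < G.det ∧ Sp G

lemma exp_le {K : Set V} {c x z : V} (h : Exp K c x) (hz : z ∈ K) : c ⬝ᵥ z ≤ c ⬝ᵥ x := by
  rcases h z hz with rfl | e
  · exact le_rfl
  · exact e.le

lemma crit_pos {K Y : Set V} (hK : K.Finite) {T G : M} (h0 : T.det ≠ 0)
    (hT : ∀ z ∈ K, T *ᵥ z ∈ Y) (hT' : ∀ z ∈ K, (T * G) *ᵥ z ∈ Y) (g0 : 0 < G.det)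
    (g1 : Sp G) {y : V} (hy : y ∈ K) (a : T *ᵥ y ∈ ExP True Y)
    (b : (T * G) *ᵥ y ∈ ExP True Y) :
    ∃ e w, Exp K e y ∧ Crit K (G - 1) e w ∧ ((G - 1) *ᵥ w = 0 → w = y) := by
  obtain ⟨-, c, c1, c2⟩ := a
  obtain ⟨-, c', d1, d2⟩ := b
  have p1 := c1.parent hT h0
  have p2 := d1.parent hT' (by rw [det_mul]; exact mul_ne_zero h0 g0.ne')
  have q1 := exp_le c1 (hT' y hy)
  have q2 := exp_le d1 (hT y hy)
  have r1 := c2 trivial
  have r2 := d2 trivial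
  rw [Matrix.transpose_mul, ← Matrix.mulVec_mulVec] at p2
  rw [← Matrix.mulVec_mulVec, dotT T, dotT T] at q1
  rw [← Matrix.mulVec_mulVec, dotT T, dotT T, dotT G] at q2
  rw [dotT] at r1
  rw [← Matrix.mulVec_mulVec, dotT T, dotT G] at r2
  obtain ⟨s, w, s0, s1, h, u, hu, v, hv, θ, -, -, m1, m2, m3⟩ := two_child hK g0 g1.1 hy hy
    (fun z => exp_le p1) (fun z => exp_le p2) q1 q2 fun s s0 s1 => ⟨y, hy, by
      simp only [add_dotProduct, smul_dotProduct, smul_eq_mul]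
      rcases s0.eq_or_lt with rfl | c
      · simpa using r1
      · nlinarith [mul_pos c r2, mul_nonneg (sub_nonneg.mpr s1) r1.le]⟩
  refine ⟨_, w, p1.seg p2 s0 s1, h, fun _ => ?_⟩
  have k := h.2.1 y hy
  have k1 := (p1.seg p2 s0 s1 u hu).resolve_right (by rw [m2]; exact not_lt.mpr k)
  have k2 := (p1.seg p2 s0 s1 v hv).resolve_right (by rw [m3]; exact not_lt.mpr k)
  rw [m1, k1, k2, ← add_smul]; simp

lemma non_dom {K : Set V} (hK : K.Finite) {e y : V} (hy : y ∈ K) (h : Exp K e y)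
    (h1 : y ∉ ExP True (K ∪ -K)) (h2 : ¬ K ⊆ {y}) :
    ∃ z ∈ -K, (∀ z' ∈ -K, e ⬝ᵥ z' ≤ e ⬝ᵥ z) ∧ e ⬝ᵥ y ≤ e ⬝ᵥ z ∧ 0 < e ⬝ᵥ z := by
  have ny : -y ∈ -K := by simpa using hy
  obtain ⟨z, hz, hm⟩ := Set.exists_max_image (-K) (e ⬝ᵥ ·) hK.neg ⟨_, ny⟩
  have a := hm _ ny
  rw [dotProduct_neg] at a
  have b : e ⬝ᵥ y ≤ e ⬝ᵥ z := by
    by_contra hc
    refine h1 ⟨Or.inl hy, e, fun u hu => ?_, fun _ => by linarith⟩
    rcases hu with hu | hu
    · exact h u hu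
    · exact Or.inr (by linarith [hm u hu])
  refine ⟨z, hz, hm, b, ?_⟩
  obtain ⟨u, hu, e1⟩ := Set.not_subset.mp h2
  have c := (h u hu).resolve_left e1
  have d := hm (-u) (by simpa using hu)
  rw [dotProduct_neg] at d
  linarith

lemma crit_neg {p : Prop} {K Y : Set V} (hK : K.Finite) {T G : M} (h0 : T.det ≠ 0)
    (hT : ∀ z ∈ K, T *ᵥ z ∈ Y) (hT' : ∀ z ∈ K, (-(T * G)) *ᵥ z ∈ Y) (g0 : 0 < G.det)
    (g1 : Sp G) {y : V} (hy : y ∈ K) (a : T *ᵥ y ∈ ExP p Y)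
    (b : (-(T * G)) *ᵥ y ∈ ExP p Y) (h1 : y ∉ ExP True (K ∪ -K)) (h2 : ¬ K ⊆ {y}) :
    ∃ e w, Exp K e y ∧ Crit (-K) (G - 1) e w ∧ ((G - 1) *ᵥ w = 0 → w = y) := by
  obtain ⟨-, c, c1, -⟩ := a
  obtain ⟨-, c', d1, -⟩ := b
  have p1 := c1.parent hT h0
  have p2 := d1.parent hT' (by
    rw [det_neg, det_mul]; exact mul_ne_zero (by simp) (mul_ne_zero h0 g0.ne'))
  have E : (-(T * G))ᵀ *ᵥ c' = Gᵀ *ᵥ (-(Tᵀ *ᵥ c')) := by
    rw [transpose_neg, neg_mulVec, mulVec_neg, transpose_mul, mulVec_mulVec]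
  obtain ⟨z0, a1, a2, a3, -⟩ := non_dom hK hy p1 h1 h2
  obtain ⟨z1, b1, b2, b3, -⟩ := non_dom hK hy p2 h1 h2
  have q1 := exp_le c1 (hT' _ (Set.mem_neg.mp a1))
  have q2 := exp_le d1 (hT _ (Set.mem_neg.mp b1))
  rw [neg_mulVec, mulVec_neg, neg_neg, ← Matrix.mulVec_mulVec, dotT T, dotT T] at q1
  rw [dotT, dotT, dotProduct_neg, ← neg_dotProduct] at q2
  rw [E] at p2 b2 b3 q2
  obtain ⟨s, w, s0, s1, h, u, hu, v, hv, θ, t0, t1, m1, -⟩ := two_child hK.neg g0 g1.1 a1 b1 a2 b2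
    (q1.trans a3) (q2.trans b3) fun s s0 s1 => by
      obtain ⟨z, e1, -, -, e2⟩ := non_dom hK hy (p1.seg p2 s0 s1) h1 h2
      exact ⟨z, e1, e2⟩
  refine ⟨_, w, p1.seg p2 s0 s1, h, fun hw => ?_⟩
  rw [Matrix.sub_mulVec, Matrix.one_mulVec, sub_eq_zero] at hw
  have A : ∀ z ∈ -K, G *ᵥ z = y ∨ (Tᵀ *ᵥ c) ⬝ᵥ G *ᵥ z < (Tᵀ *ᵥ c) ⬝ᵥ y := fun z hz => by
    have := c1 _ (hT' _ (Set.mem_neg.mp hz))
    rw [neg_mulVec, mulVec_neg, neg_neg, ← Matrix.mulVec_mulVec, dotT T, dotT T] at this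
    exact this.imp_left (inj h0)
  have B : ∀ z ∈ -K, z = G *ᵥ y ∨ -(Tᵀ *ᵥ c') ⬝ᵥ z < -(Tᵀ *ᵥ c') ⬝ᵥ G *ᵥ y := fun z hz => by
    have := d1 _ (hT _ (Set.mem_neg.mp hz))
    rw [neg_mulVec, ← Matrix.mulVec_mulVec, ← mulVec_neg, dotT T, dotT T] at this
    exact this.imp (fun e => neg_injective (inj h0 e)) fun e => by
      simpa only [neg_dotProduct, dotProduct_neg] using e
  by_contra ne
  have k1 := mid_lt t0 t1 (A u hu) (A v hv)
  rw [← mulVec_smul, ← mulVec_smul, ← mulVec_add, ← m1, hw] at k1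
  have k2 := mid_lt t0 t1 (B u hu) (B v hv)
  rw [← m1] at k2
  replace k1 := k1.resolve_left ne
  replace k2 := k2.resolve_left fun e => ne (inj g0.ne' (hw.trans e))
  rw [← hw, dotT G, dotT G] at k2
  obtain ⟨z, e1, -, e3, -⟩ := non_dom hK hy (p1.seg p2 s0 s1) h1 h2
  have k3 := e3.trans (h.2.1 z e1)
  simp only [add_dotProduct, smul_dotProduct, smul_eq_mul] at k3
  rcases s0.eq_or_lt with rfl | c
  · linarith
  · nlinarith [mul_pos c (sub_pos.mpr k2), mul_nonneg (sub_nonneg.mpr s1) (sub_pos.mpr k1).le]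

lemma crit_all (F : Finset M) (K Z : Set V) (σ : M → M) :
    Le {y | ∃ T ∈ F, ∃ T' ∈ F, ∃ G, T.det ≠ 0 ∧ σ T' = T * G ∧ Sp G ∧ y ∈ K ∧
      ∃ e w, Exp K e y ∧ Crit Z (G - 1) e w ∧ ((G - 1) *ᵥ w = 0 → w = y)}
      (F.card * F.card * 4) := by
  have lF : Le (↑F : Set M) F.card := ⟨F, le_rfl, subset_rfl⟩
  refine Le.cover (fun t : M × M => {y | Sp (t.1⁻¹ * σ t.2) ∧ y ∈ K ∧
    ∃ e w, Exp K e y ∧ Crit Z (t.1⁻¹ * σ t.2 - 1) e w ∧
      ((t.1⁻¹ * σ t.2 - 1) *ᵥ w = 0 → w = y)}) (lF.prod lF) (fun t _ => ?_) ?_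
  · by_cases h : Sp (t.1⁻¹ * σ t.2)
    · exact (crit_le' K Z h).mono (fun y hy => hy.2) le_rfl
    · exact ⟨∅, by simp, fun y hy => absurd hy.1 h⟩
  · rintro y ⟨T, hT, T', hT', G, h0, e, h⟩
    refine ⟨(T, T'), ⟨hT, hT'⟩, ?_⟩
    simp only [e, ← Matrix.mul_assoc, Matrix.nonsing_inv_mul T (isUnit_iff_ne_zero.mpr h0),
      Matrix.one_mul]
    exact h

lemma orb_succ (F : Finset M) (k : ℕ) (a : V) : Orb ↑F (k + 1) a = Nxt F (Orb ↑F k a) := by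
  ext x
  constructor
  · rintro ⟨L, h1, h2, rfl⟩
    obtain ⟨T, L, rfl⟩ := List.exists_cons_of_length_eq_add_one h1
    exact ⟨T, h2 T List.mem_cons_self, _, ⟨L, by simpa using h1,
      fun X hX => h2 X (List.mem_cons_of_mem _ hX), rfl⟩, by
        rw [List.prod_cons, Matrix.mulVec_mulVec]⟩
  · rintro ⟨T, hT, y, hy, rfl⟩
    exact orb_step hT hy

lemma orb_zero (F : Set M) (a : V) : Orb F 0 a ⊆ {a} := by
  rintro _ ⟨L, h1, -, rfl⟩
  rw [List.length_eq_zero_iff.mp h1]; simp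

lemma ExP.neg {Y : Set V} (hY : ∀ z ∈ Y, -z ∈ Y) {x : V} (h : x ∈ ExP True Y) :
    -x ∈ ExP True Y := by
  obtain ⟨h1, c, c1, c2⟩ := h
  refine ⟨hY x h1, -c, fun z hz => ?_, fun _ => by simpa using c2 trivial⟩
  rcases c1 _ (hY z hz) with e | e
  · exact Or.inl (by rw [← e, neg_neg])
  · right; simpa using e

lemma exists_sign : ∃ σ : M → M, (∀ T, σ T = T ∨ σ T = -T) ∧ ∀ T, σ (-T) = σ T := by
  classical
  let r : M → M → Prop := WellOrderingRel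
  refine ⟨fun T => if r T (-T) then T else -T, fun T => by dsimp only; split_ifs <;> simp,
    fun T => ?_⟩
  simp only [neg_neg]
  rcases trichotomous_of r T (-T) with h | h | h
  · rw [if_pos h, if_neg (asymm h)]
  · rw [← h]
  · rw [if_pos h, if_neg (asymm h)]

lemma Spl.neg {T T' : M} (h : Spl T T') : Spl (-T) (-T') := by
  obtain ⟨G, rfl, h⟩ := h
  exact ⟨G, by simp, h⟩

lemma sym_le {F : Finset M} (hF : ∀ T ∈ F, T.det ≠ 0)
    (h : ∀ T ∈ F, ∀ T' ∈ F, T' = T ∨ T' = -T ∨ Spl T T' ∨ Spl T (-T')) :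
    ∃ C : ℕ, ∀ k a, Le (ExP True (Orb ↑F k a ∪ -Orb ↑F k a)) (2 + k * C) := by
  classical
  obtain ⟨σ, s1, s2⟩ := exists_sign
  have hF0 : ∀ T ∈ F.image σ, T.det ≠ 0 := by
    intro T hT
    obtain ⟨X, hX, rfl⟩ := Finset.mem_image.mp hT
    rcases s1 X with e | e <;> rw [e]
    · exact hF X hX
    · rw [det_neg]; exact mul_ne_zero (by simp) (hF X hX)
  have h0 : ∀ T ∈ F.image σ, ∀ T' ∈ F.image σ, T' = T ∨ Spl T T' ∨ Spl T (-T') := by
    intro T hT T' hT'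
    obtain ⟨X, hX, rfl⟩ := Finset.mem_image.mp hT
    obtain ⟨X', hX', rfl⟩ := Finset.mem_image.mp hT'
    rcases h X hX X' hX' with rfl | rfl | g
    · exact Or.inl rfl
    · exact Or.inl (s2 X)
    right
    rcases s1 X with e | e <;> rcases s1 X' with e' | e' <;> rw [e, e']
    · exact g
    · rw [neg_neg]; exact g.symm
    · exact g.symm.imp (fun g => by simpa using g.neg) Spl.neg
    · exact g.imp Spl.neg Spl.neg
  have nx : ∀ K : Set V, Nxt F K ∪ -Nxt F K = Nxt (F.image σ) (K ∪ -K) := by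
    intro K
    ext x
    constructor
    · have : ∀ T ∈ F, ∀ y ∈ K, T *ᵥ y ∈ Nxt (F.image σ) (K ∪ -K) ∧
          -(T *ᵥ y) ∈ Nxt (F.image σ) (K ∪ -K) := by
        intro T hT y hy
        have m := Finset.mem_image_of_mem σ hT
        have ny : -y ∈ K ∪ -K := Or.inr (by simpa using hy)
        rcases s1 T with e | e
        · exact ⟨⟨_, m, y, Or.inl hy, by rw [e]⟩, ⟨_, m, -y, ny, by rw [e, mulVec_neg]⟩⟩
        · exact ⟨⟨_, m, -y, ny, by rw [e, neg_mulVec, mulVec_neg, neg_neg]⟩,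
            ⟨_, m, y, Or.inl hy, by rw [e, neg_mulVec]⟩⟩
      rintro (⟨T, hT, y, hy, rfl⟩ | ⟨T, hT, y, hy, e⟩)
      · exact (this T hT y hy).1
      · rw [← neg_neg x, e]; exact (this T hT y hy).2
    · rintro ⟨_, hU, y, hy, rfl⟩
      obtain ⟨T, hT, rfl⟩ := Finset.mem_image.mp hU
      rcases s1 T with e | e <;> rw [e] <;> rcases hy with hy | hy
      · exact Or.inl ⟨T, hT, y, hy, rfl⟩
      · exact Or.inr ⟨T, hT, -y, hy, by rw [mulVec_neg]⟩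
      · exact Or.inr ⟨T, hT, y, hy, by rw [neg_mulVec, neg_neg]⟩
      · exact Or.inl ⟨T, hT, -y, hy, by rw [neg_mulVec, mulVec_neg]⟩
  generalize F.image σ = F0 at hF0 h0 nx
  refine ⟨(F0.card * F0.card * 4 + F0.card * F0.card * 4) * F0.card, fun k a => ?_⟩
  induction k with
  | zero =>
    refine ⟨{a, -a}, Finset.card_le_two.trans (by simp), ?_⟩
    rintro x ⟨hx | hx, -⟩
    · simp [show x = a from orb_zero _ a hx]
    · have : -x = a := orb_zero _ a hx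
      simp [← this]
  | succ k ih =>
    rw [orb_succ, nx]
    have fin : (Orb ↑F k a ∪ -Orb ↑F k a).Finite :=
      (orb_fin F.finite_toSet k a).union (orb_fin F.finite_toSet k a).neg
    have sym : ∀ z ∈ Orb ↑F k a ∪ -Orb ↑F k a, -z ∈ Orb ↑F k a ∪ -Orb ↑F k a := by
      rintro z (hz | hz)
      · exact Or.inr (by simpa using hz)
      · exact Or.inl hz
    generalize Orb ↑F k a ∪ -Orb ↑F k a = S at ih fin sym
    refine (step_le hF0 ih ((crit_all F0 S S id).union (crit_all F0 S S Neg.neg))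
      fun y hy hb T hT T' hT' a1 a2 => ?_).mono subset_rfl (le_of_eq (by ring))
    have m : ∀ U ∈ F0, ∀ z ∈ S, U *ᵥ z ∈ Nxt F0 S := fun U hU z hz => ⟨U, hU, z, hz, rfl⟩
    rcases h0 T hT T' hT' with rfl | ⟨G, rfl, g0, g1⟩ | ⟨G, e, g0, g1⟩
    · rfl
    · exact absurd (Or.inl ⟨T, hT, _, hT', G, hF0 T hT, rfl, g1, hy,
        crit_pos fin (hF0 T hT) (m T hT) (m _ hT') g0 g1 hy a1 a2⟩) hb
    · refine absurd (Or.inr ⟨T, hT, _, hT', G, hF0 T hT, e, g1, hy,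
        crit_pos fin (hF0 T hT) (m T hT) (fun z hz => ?_) g0 g1 hy a1 ?_⟩) hb
      · rw [← e, neg_mulVec, ← mulVec_neg]; exact m _ hT' _ (sym z hz)
      · rw [← e, neg_mulVec]
        refine ExP.neg ?_ a2
        rintro _ ⟨U, hU, z, hz, rfl⟩
        exact ⟨U, hU, -z, sym z hz, by rw [mulVec_neg]⟩

theorem count_le {p : Prop} {F : Finset M} (hF : ∀ T ∈ F, T.det ≠ 0)
    (h : ∀ T ∈ F, ∀ T' ∈ F, T' = T ∨ T' = -T ∨ (p ∧ Spl T T') ∨ Spl T (-T')) :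
    ∃ C : ℕ, ∀ k a, Le (ExP p (Orb ↑F k a)) (1 + k * (k + 1) * C) := by
  obtain ⟨C, hC⟩ := sym_le hF fun T hT T' hT' =>
    (h T hT T' hT').imp_right fun g => g.imp_right fun g => g.imp_left And.right
  refine ⟨(C + (3 + F.card * F.card * 8)) * F.card, fun k a => ?_⟩
  induction k with
  | zero => exact ⟨{a}, by simp, fun x hx => by simpa using orb_zero _ a hx.1⟩
  | succ k ih =>
    rw [orb_succ]
    have fin := orb_fin F.finite_toSet k a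
    have sy := hC k a
    generalize Orb ↑F k a = K at ih fin sy
    have one : Le {y | y ∈ K ∧ K ⊆ {y}} 1 := Le.one fun x hx y hy => hy.2 hx.1
    refine (step_le hF ih (((sy.union one).union (crit_all F K K id)).union
      (crit_all F K (-K) Neg.neg)) fun y hy hb T hT T' hT' a1 a2 => ?_).mono subset_rfl ?_
    · simp only [Set.mem_union, not_or] at hb
      obtain ⟨⟨⟨b1, b2⟩, b3⟩, b4⟩ := hb
      have b2' : ¬ K ⊆ {y} := fun c => b2 ⟨hy, c⟩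
      have m : ∀ U ∈ F, ∀ z ∈ K, U *ᵥ z ∈ Nxt F K := fun U hU z hz => ⟨U, hU, z, hz, rfl⟩
      rcases h T hT T' hT' with rfl | rfl | ⟨hp, G, rfl, g0, g1⟩ | ⟨G, e, g0, g1⟩
      · rfl
      · exfalso
        obtain ⟨-, c, c1, -⟩ := a1
        have p1 := c1.parent (m T hT) (hF T hT)
        obtain ⟨z, z1, z2, z3, z4⟩ := non_dom fin hy p1 b1 b2'
        have z5 : ∀ u ∈ -K, T *ᵥ u ∈ Nxt F K := fun u hu =>
          ⟨_, hT', -u, hu, by rw [neg_mulVec, mulVec_neg, neg_neg]⟩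
        have p2 := c1.parent z5 (hF T hT)
        refine b1 ⟨Or.inl hy, _, fun u hu => hu.elim (p1 u) (p2 u), fun _ => ?_⟩
        exact z4.trans_le (exp_le p2 z1)
      · simp only [hp] at a1 a2
        exact absurd ⟨T, hT, _, hT', G, hF T hT, rfl, g1, hy,
          crit_pos fin (hF T hT) (m T hT) (m _ hT') g0 g1 hy a1 a2⟩ b3
      · obtain rfl : T' = -(T * G) := by rw [← e, neg_neg]
        exact absurd ⟨T, hT, _, hT', G, hF T hT, e, g1, hy,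
          crit_neg fin (hF T hT) (m T hT) (m _ hT') g0 g1 hy a1 a2 b1 b2'⟩ b4
    · have : (2 + k * C + 1 + F.card * F.card * 4 + F.card * F.card * 4) * F.card
          ≤ (k + 1) * 2 * ((C + (3 + F.card * F.card * 8)) * F.card) := by
        rw [← mul_assoc]; gcongr; nlinarith
      nlinarith

lemma polyB_sq (C D : ℕ) : PolyB fun k => 1 + k * (k + 1) * C + D :=
  ((PolyB.const 1).add ((PolyB.id.mul (PolyB.id.add (PolyB.const 1))).mul (PolyB.const C))).add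
    (PolyB.const D)

theorem pb_split_neg {F : Finset M} (hF : ∀ T ∈ F, T.det ≠ 0)
    (h : ∀ T ∈ F, ∀ T' ∈ F, T' = T ∨ T' = -T ∨ Spl T (-T')) : PB ↑F := by
  obtain ⟨C, hC⟩ := count_le (p := False) hF fun T hT T' hT' =>
    (h T hT T' hT').imp_right fun g => g.imp_right Or.inr
  refine ⟨_, polyB_sq C 0, fun k n a hn => (hC n a).mono
    (fun x ⟨h1, c, h2⟩ => ⟨h1, c, h2, False.elim⟩) ?_⟩
  simp only [add_zero]; gcongr

end Pool.Agent.Lib.MP_34a884_an.Uni
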