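import Mathlib
import Pool.Agent.Lib.MP_34a884_an.NMul
import Pool.Agent.Lib.MP_34a884_an.OCount

/-! Lifts of the action on directions; a pair is round or all lifted words stay together. -/

namespace Pool.Agent.Lib.MP_34a884_an.Neg

open Matrix Complex ComplexConjugate Real

/-- The unit vector with a given angle. -/
noncomputable def uv (x : ℝ) : Fin 2 → ℝ := ![Real.cos x, Real.sin x]

@[simp] lemma uv0 (x : ℝ) : uv x 0 = Real.cos x := rfl
@[simp] lemma uv1 (x : ℝ) : uv x 1 = Real.sin x := rfl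

lemma tc_uv (x : ℝ) : tc (uv x) = ex x := by apply Complex.ext <;> simp [tc]

lemma tc_smul (r : ℝ) (v : Fin 2 → ℝ) : tc (r • v) = r * tc v := by
  apply Complex.ext <;> simp [tc]

lemma polar {v : Fin 2 → ℝ} (h : v ≠ 0) : ∃ r x : ℝ, 0 < r ∧ v = r • uv x := by
  refine ⟨‖tc v‖, arg (tc v), norm_pos_iff.mpr fun e => h (tc_inj (e.trans ?_)), tc_inj ?_⟩
  · apply Complex.ext <;> simp [tc]
  · rw [tc_smul, tc_uv]; exact ex_arg _

lemma uv_par {r μ a b : ℝ} (h : r • uv a = μ • uv b) :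
    r * Real.sin (a - b) = 0 ∧ r * Real.cos (a - b) = μ := by
  have h0 := congrFun h 0
  have h1 := congrFun h 1
  simp only [Pi.smul_apply, smul_eq_mul, uv0, uv1] at h0 h1
  rw [Real.sin_sub, Real.cos_sub]
  constructor
  · linear_combination Real.cos b * h1 - Real.sin b * h0
  · linear_combination Real.cos b * h0 + Real.sin b * h1 + μ * Real.sin_sq_add_cos_sq b

/-- A strictly increasing map that commutes with the half turn. -/
def Pm (φ : ℝ → ℝ) : Prop := StrictMono φ ∧ ∀ x, φ (x + π) = φ x + π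

lemma Pm.comp {φ ψ : ℝ → ℝ} (h : Pm φ) (h' : Pm ψ) : Pm fun x => φ (ψ x) :=
  ⟨h.1.comp h'.1, fun x => by simp only [h'.2, h.2]⟩

lemma per_int {φ : ℝ → ℝ} (h : ∀ x, φ (x + π) = φ x + π) (n : ℤ) (x : ℝ) :
    φ (x + n * π) = φ x + n * π := by
  induction n using Int.induction_on with
  | zero => simp
  | succ n ih => push_cast at ih ⊢; rw [add_mul, one_mul, ← add_assoc, h, ih, add_assoc]
  | pred n ih =>
    push_cast at ih ⊢
    have := h (x + (-n - 1) * π)
    rw [show x + (-n - 1) * π + π = x + -n * π by ring, ih] at this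
    linarith

lemma exists_cell (x0 x : ℝ) : ∃ n : ℤ, x0 + n * π ≤ x ∧ x < x0 + n * π + π := by
  have p0 := Real.pi_pos
  refine ⟨⌊(x - x0) / π⌋, ?_, ?_⟩
  · have := Int.floor_le ((x - x0) / π)
    rw [le_div_iff₀ p0] at this; linarith
  · have := Int.lt_floor_add_one ((x - x0) / π)
    rw [div_lt_iff₀ p0] at this; linarith

lemma Pm.close {χ : ℝ → ℝ} (h : Pm χ) {x y : ℝ} (e : |x - y| < π) : |χ x - χ y| < π := by
  obtain ⟨e1, e2⟩ := abs_lt.mp e
  have a := h.1 (show x < y + π by linarith)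
  have b := h.1 (show y < x + π by linarith)
  rw [h.2] at a b
  rw [abs_lt]; constructor <;> linarith

lemma Pm.fix {g : ℝ → ℝ} (h : Pm g) {x0 : ℝ} {c : ℝ} (e : g x0 = x0 + c) (x : ℝ) :
    |g x - (x + c)| < π := by
  obtain ⟨n, a, b⟩ := exists_cell x0 x
  have a1 := h.1.monotone a
  have b1 := h.1 b
  rw [h.2, per_int h.2, e] at b1
  rw [per_int h.2, e] at a1
  rw [abs_lt]; constructor <;> linarith

/-- `φ` is a lift of the action of `X` on directions. -/
structure Lf (X : M2) (φ : ℝ → ℝ) : Prop where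
  dir : ∀ x, ∃ r : ℝ, 0 < r ∧ X *ᵥ uv x = r • uv (φ x)
  pm : Pm φ
  cont : Continuous φ

lemma Lf.comp {X Y : M2} {φ ψ : ℝ → ℝ} (h : Lf X φ) (h' : Lf Y ψ) :
    Lf (X * Y) fun x => φ (ψ x) := by
  refine ⟨fun x => ?_, h.pm.comp h'.pm, h.cont.comp h'.cont⟩
  obtain ⟨r, r0, e⟩ := h'.dir x
  obtain ⟨s, s0, e'⟩ := h.dir (ψ x)
  exact ⟨r * s, mul_pos r0 s0, by
    rw [← Matrix.mulVec_mulVec, e, Matrix.mulVec_smul, e', smul_smul]⟩

lemma Lf.shift {X : M2} {φ : ℝ → ℝ} (h : Lf X φ) (n : ℤ) :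
    Lf X fun x => φ x - n * (2 * π) := by
  refine ⟨fun x => ?_, ⟨fun x y e => by linarith [h.pm.1 e], fun x => by simp only [h.pm.2]; ring⟩,
    h.cont.sub continuous_const⟩
  obtain ⟨r, r0, e⟩ := h.dir x
  exact ⟨r, r0, by rw [e]; simp [uv]⟩

lemma exists_lift {X : M2} (h : 0 < X.det) : ∃ φ, Lf X φ := by
  have p0 := Real.pi_pos
  have lt : ‖om X‖ < ‖ga X‖ := by
    rw [det_eq] at h
    exact lt_of_pow_lt_pow_left₀ 2 (norm_nonneg _) (by linarith)
  have g0 : ga X ≠ 0 := norm_pos_iff.mp ((norm_nonneg _).trans_lt lt)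
  let q : ℝ → ℂ := fun x => 1 + om X / ga X * ex (-(2 * x))
  have re : ∀ x, 0 < (q x).re := fun x => by
    have a := Complex.abs_re_le_norm (om X / ga X * ex (-(2 * x)))
    rw [norm_mul, ex_norm, mul_one, norm_div] at a
    have b : ‖om X‖ / ‖ga X‖ < 1 := (div_lt_one (norm_pos_iff.mpr g0)).mpr lt
    have c := neg_abs_le (om X / ga X * ex (-(2 * x))).re
    simp only [q, Complex.add_re, Complex.one_re]
    linarith
  have dir : ∀ x, ∃ r : ℝ, 0 < r ∧ X *ᵥ uv x = r • uv (x + arg (ga X) + arg (q x)) := by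
    intro x
    refine ⟨‖ga X‖ * ‖q x‖, mul_pos (norm_pos_iff.mpr g0) (norm_pos_iff.mpr fun e => by
      simpa [e] using re x), tc_inj ?_⟩
    rw [tc_mul, tc_smul, tc_uv, tc_uv, ex_add, ex_add, ← ex_neg]
    have e1 := ex_arg (ga X)
    have e2 := ex_arg (q x)
    have e3 : ex (-x) = ex x * ex (-(2 * x)) := by rw [← ex_add]; congr 1; ring
    have e4 : ga X * q x = ga X + om X * ex (-(2 * x)) := by simp only [q]; field_simp
    push_cast
    linear_combination om X * e3 - ex x * e4 + ex x * q x * e1 +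
      ex x * (‖ga X‖ * ex (arg (ga X))) * e2
  have per : ∀ x, x + π + arg (ga X) + arg (q (x + π)) = x + arg (ga X) + arg (q x) + π := by
    intro x
    have : q (x + π) = q x := by
      simp only [q]
      rw [← ex_int (-(2 * (x + π))) 1]; congr 3; push_cast; ring
    rw [this]; ring
  have bd : ∀ x, |arg (q x)| < π / 2 := fun x =>
    Complex.abs_arg_lt_pi_div_two_iff.mpr (Or.inl (re x))
  have loc : ∀ x y, x < y → y < x + π →
      x + arg (ga X) + arg (q x) < y + arg (ga X) + arg (q y) := by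
    intro x y h1 h2
    obtain ⟨r, r0, e⟩ := dir x
    obtain ⟨s, s0, e'⟩ := dir y
    have a0 := congrFun e 0
    have a1 := congrFun e 1
    have b0 := congrFun e' 0
    have b1 := congrFun e' 1
    simp only [mulVec2, Pi.smul_apply, smul_eq_mul, uv0, uv1] at a0 a1 b0 b1
    obtain ⟨c1, c2⟩ := abs_lt.mp (bd x)
    obtain ⟨c3, c4⟩ := abs_lt.mp (bd y)
    generalize arg (q x) = u at *
    generalize arg (q y) = v at *
    have k : r * s * Real.sin (y + arg (ga X) + v - (x + arg (ga X) + u))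
        = X.det * Real.sin (y - x) := by
      rw [Real.sin_sub, Real.sin_sub, Matrix.det_fin_two]
      linear_combination -(r * Real.cos (x + arg (ga X) + u)) * b1 -
        (X 1 0 * Real.cos y + X 1 1 * Real.sin y) * a0 + (r * Real.sin (x + arg (ga X) + u)) * b0 +
        (X 0 0 * Real.cos y + X 0 1 * Real.sin y) * a1
    have k2 := mul_pos h (Real.sin_pos_of_pos_of_lt_pi (x := y - x) (by linarith) (by linarith))
    by_contra hc
    have := Real.sin_nonpos_of_nonpos_of_neg_pi_le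
      (x := y + arg (ga X) + v - (x + arg (ga X) + u)) (by linarith) (by linarith)
    nlinarith [mul_pos r0 s0]
  refine ⟨fun x => x + arg (ga X) + arg (q x), dir, ⟨fun x y h1 => ?_, per⟩, ?_⟩
  · obtain ⟨n, a, b⟩ := exists_cell x y
    have n0 : (0 : ℝ) ≤ n := by
      have : (-1 : ℝ) < n := by by_contra hc; nlinarith
      have : -1 < n := by exact_mod_cast this
      exact_mod_cast (show 0 ≤ n by omega)
    have e := per_int (φ := fun x => x + arg (ga X) + arg (q x)) per n x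
    simp only at e ⊢
    rcases a.eq_or_lt with c | c
    · rw [← c, e]; linarith
    · have := loc _ _ c b
      nlinarith
  · refine (continuous_id.add continuous_const).add (continuous_iff_continuousAt.mpr fun x => ?_)
    refine (Complex.continuousAt_arg (Or.inl (re x))).comp (f := q) ?_
    simp only [q, ex]
    fun_prop

lemma Lf.eigen {X : M2} {φ : ℝ → ℝ} (h : Lf X φ) {u : Fin 2 → ℝ} (hu : u ≠ 0) {μ : ℝ}
    (e : X *ᵥ u = μ • u) : ∃ (x : ℝ) (j : ℤ), φ x = x + j * π ∧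
      (0 < μ → ∃ n : ℤ, φ x = x + n * (2 * π)) := by
  obtain ⟨ρ, x, r0, rfl⟩ := polar hu
  obtain ⟨r, r1, e1⟩ := h.dir x
  rw [Matrix.mulVec_smul, smul_comm, e1] at e
  obtain ⟨a, b⟩ := uv_par (smul_right_injective _ r0.ne' e)
  have a1 := (mul_eq_zero.mp a).resolve_left r1.ne'
  obtain ⟨j, hj⟩ := Real.sin_eq_zero_iff.mp a1
  refine ⟨x, j, by linarith, fun m0 => ?_⟩
  have c : Real.cos (φ x - x) = 1 := by
    have := Real.sin_sq_add_cos_sq (φ x - x)
    have : 0 < Real.cos (φ x - x) := by by_contra hc; nlinarith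
    nlinarith
  obtain ⟨n, hn⟩ := (Real.cos_eq_one_iff _).mp c
  exact ⟨n, by linarith⟩

lemma real_eigen {X : M2} (h : 4 * X.det ≤ X.trace ^ 2) : ∃ u : Fin 2 → ℝ, u ≠ 0 ∧
    X *ᵥ u = ((X.trace + Real.sqrt (X.trace ^ 2 - 4 * X.det)) / 2) • u := by
  have z2 : Real.sqrt (X.trace ^ 2 - 4 * X.det) ^ 2 = X.trace ^ 2 - 4 * X.det :=
    Real.sq_sqrt (by linarith)
  generalize Real.sqrt (X.trace ^ 2 - 4 * X.det) = z at z2
  obtain ⟨u, h1, h2⟩ := Matrix.exists_mulVec_eq_zero_iff.mpr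
    (show (X - ((X.trace + z) / 2) • (1 : M2)).det = 0 by
      rw [Matrix.trace_fin_two, Matrix.det_fin_two] at z2
      rw [Matrix.trace_fin_two, Matrix.det_fin_two]
      simp
      linarith)
  rw [Matrix.sub_mulVec, Matrix.smul_mulVec, Matrix.one_mulVec, sub_eq_zero] at h2
  exact ⟨u, h1, h2⟩

lemma split_eigen {G : M2} (g0 : 0 < G.det) (g1 : (G - 1).det ≤ 0) :
    ∃ (u : Fin 2 → ℝ) (μ : ℝ), u ≠ 0 ∧ 0 < μ ∧ G *ᵥ u = μ • u := by
  have e : (G - 1).det = G.det - G.trace + 1 := by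
    simp [Matrix.det_fin_two, Matrix.trace_fin_two]; ring
  obtain ⟨u, h1, h2⟩ := real_eigen (X := G) (by nlinarith [sq_nonneg (G.det - 1)])
  exact ⟨u, _, h1, by linarith [Real.sqrt_nonneg (G.trace ^ 2 - 4 * G.det)], h2⟩

lemma split_lift {G : M2} (g0 : 0 < G.det) (g1 : (G - 1).det ≤ 0) :
    ∃ g, Lf G g ∧ ∀ x, |g x - x| < π := by
  obtain ⟨g, hg⟩ := exists_lift g0
  obtain ⟨u, μ, h1, h2, h3⟩ := split_eigen g0 g1
  obtain ⟨x, -, -, H⟩ := hg.eigen h1 h3
  obtain ⟨n, hn⟩ := H h2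
  exact ⟨_, hg.shift n, fun y => by
    simpa using (hg.shift n).pm.fix (x0 := x) (c := 0) (by linarith) y⟩

/-- The lift of a word. -/
def lw (φ ψ : ℝ → ℝ) (w : List Bool) (x : ℝ) : ℝ :=
  w.foldr (fun b y => bif b then ψ y else φ y) x

variable {A B : M2} {φ ψ : ℝ → ℝ}

@[simp] lemma lw_nil (x : ℝ) : lw φ ψ [] x = x := rfl
@[simp] lemma lw_true (w : List Bool) (x : ℝ) : lw φ ψ (true :: w) x = ψ (lw φ ψ w x) := rfl
@[simp] lemma lw_false (w : List Bool) (x : ℝ) : lw φ ψ (false :: w) x = φ (lw φ ψ w x) := rfl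

lemma band {θ : ℝ} (h : Real.cos θ ≤ 0) :
    ∃ n : ℤ, π / 2 + n * (2 * π) ≤ θ ∧ θ ≤ 3 * π / 2 + n * (2 * π) := by
  have p0 := Real.pi_pos
  have a := Int.floor_le ((θ - π / 2) / (2 * π))
  have b := Int.lt_floor_add_one ((θ - π / 2) / (2 * π))
  rw [le_div_iff₀ (by positivity)] at a
  rw [div_lt_iff₀ (by positivity)] at b
  generalize ⌊(θ - π / 2) / (2 * π)⌋ = n at a b
  refine ⟨n, by linarith, ?_⟩
  by_contra hc
  have := Real.cos_pos_of_mem_Ioo (x := θ - (n + 1 : ℤ) * (2 * π))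
    ⟨by push_cast; linarith, by push_cast; linarith⟩
  rw [Real.cos_sub_int_mul_two_pi] at this
  linarith

/-- All lifted words of the same length stay together. -/
def Tog (φ ψ : ℝ → ℝ) : Prop :=
  ∀ w w' : List Bool, w.length = w'.length → ∀ x, lw φ ψ w x ≤ lw φ ψ w' x + 2 * π

end Pool.Agent.Lib.MP_34a884_an.Neg
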