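import Mathlib
import Pool.Agent.Lib.MP_34a884_an.OLift

/-! Pairs with a split quotient: round, a common cone, or two lines that are exchanged. -/

namespace Pool.Agent.Lib.MP_34a884_an.Neg

open Matrix Real

variable {A B : M2} {φ ψ : ℝ → ℝ}

lemma lw_rep (k : ℕ) (w : List Bool) (x : ℝ) :
    lw φ ψ (List.replicate k false ++ w) x = φ^[k] (lw φ ψ w x) := by
  induction k with
  | zero => rfl
  | succ k ih => rw [List.replicate_succ, List.cons_append, lw_false, ih,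
      Function.iterate_succ_apply']

lemma Tog.no_gain (h : Tog φ ψ) {x0 ω σ ε : ℝ} (hσ : σ = 1 ∨ σ = -1) (e0 : 0 < ε)
    (hx : ∀ k : ℕ, φ^[k] x0 = x0 + k * ω)
    (hg : ∀ w : List Bool, ∃ u : List Bool,
      σ * (lw φ ψ w x0 + u.length * ω) + ε ≤ σ * lw φ ψ (u ++ w) x0) : False := by
  have key : ∀ j : ℕ, ∃ w : List Bool, σ * (x0 + w.length * ω) + j * ε ≤ σ * lw φ ψ w x0 := by
    intro j
    induction j with
    | zero => exact ⟨[], by simp⟩
    | succ j ih =>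
      obtain ⟨w, hw⟩ := ih
      obtain ⟨u, hu⟩ := hg w
      refine ⟨u ++ w, ?_⟩
      rw [List.length_append]; push_cast; linarith
  obtain ⟨j, hj⟩ := exists_nat_gt (2 * π / ε)
  rw [div_lt_iff₀ e0] at hj
  obtain ⟨w, hw⟩ := key j
  have e := lw_rep (φ := φ) (ψ := ψ) w.length [] x0
  rw [lw_nil, hx] at e
  have a := h w (List.replicate w.length false ++ []) (by simp) x0
  have b := h (List.replicate w.length false ++ []) w (by simp) x0
  rw [e] at a b
  rcases hσ with rfl | rfl <;> linarith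

lemma iter_fix (hφ : Pm φ) {x0 : ℝ} {j : ℤ} (e : φ x0 = x0 + j * π) (k : ℕ) :
    φ^[k] x0 = x0 + k * (j * π) := by
  induction k with
  | zero => simp
  | succ k ih =>
    have := per_int hφ.2 (k * j) x0
    push_cast at this ⊢
    rw [Function.iterate_succ_apply', ih, ← mul_assoc, this, e]; ring

lemma uv_int (x : ℝ) (j : ℤ) : uv (x + j * π) = ((-1 : ℝ) ^ j) • uv x :=
  ext2 (by simp [Real.cos_add_int_mul_pi]) (by simp [Real.sin_add_int_mul_pi])

lemma uv_comb {x y θ : ℝ} (h : Real.sin (y - x) ≠ 0) : uv θ =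
    (Real.sin (y - θ) / Real.sin (y - x)) • uv x + (Real.sin (θ - x) / Real.sin (y - x)) • uv y := by
  refine ext2 ?_ ?_ <;> simp only [Pi.add_apply, Pi.smul_apply, smul_eq_mul, uv0, uv1] <;>
    field_simp <;> simp only [Real.sin_sub] <;> ring

lemma hit {θ : ℝ} (h : Real.sin θ ≠ 0) (v : ℝ) :
    ∃ i : ℕ, |Real.cos θ| ≤ Real.cos (v + 2 * i * θ) := by
  have p0 := Real.pi_pos
  obtain ⟨n, n1, n2⟩ := exists_cell (-(π / 2)) θ
  obtain ⟨l, rfl⟩ : ∃ l, θ = l + n * π := ⟨θ - n * π, by ring⟩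
  have l0 : l ≠ 0 := by rintro rfl; simp at h
  have l1 : |l| ≤ π / 2 := by rw [abs_le]; constructor <;> linarith
  have c1 : |Real.cos (l + n * π)| = Real.cos |l| := by
    rw [Real.cos_add_int_mul_pi, abs_mul, abs_zpow, abs_neg, abs_one, _root_.one_zpow, one_mul,
      Real.cos_abs, abs_of_nonneg (Real.cos_nonneg_of_mem_Icc (abs_le.mp l1))]
  obtain ⟨j, hj⟩ : ∃ j : ℤ, 0 ≤ (j * (2 * π) - v) / (2 * l) := by
    rcases lt_or_gt_of_ne l0 with c | c
    · refine ⟨⌊v / (2 * π)⌋, div_nonneg_of_nonpos ?_ (by linarith)⟩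
      have := Int.floor_le (v / (2 * π))
      rw [le_div_iff₀ (by positivity)] at this; linarith
    · refine ⟨⌈v / (2 * π)⌉, div_nonneg ?_ (by linarith)⟩
      have := Int.le_ceil (v / (2 * π))
      rw [div_le_iff₀ (by positivity)] at this; linarith
  have f1 := Nat.floor_le (show 0 ≤ (j * (2 * π) - v) / (2 * l) + 1 / 2 by linarith)
  have f2 := Nat.lt_floor_add_one ((j * (2 * π) - v) / (2 * l) + 1 / 2)
  generalize ⌊(j * (2 * π) - v) / (2 * l) + 1 / 2⌋₊ = i at f1 f2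
  refine ⟨i, ?_⟩
  have e : v + 2 * i * (l + n * π) =
      (i - (j * (2 * π) - v) / (2 * l)) * (2 * l) + ((j + i * n : ℤ) : ℝ) * (2 * π) := by
    push_cast; field_simp; ring
  rw [c1, e, Real.cos_add_int_mul_two_pi, ← Real.cos_abs (_ * _)]
  refine Real.cos_le_cos_of_nonneg_of_le_pi (abs_nonneg _) (by linarith) ?_
  have : |i - (j * (2 * π) - v) / (2 * l)| ≤ 1 / 2 := by rw [abs_le]; constructor <;> linarith
  rw [abs_mul, abs_mul, abs_two]
  nlinarith [abs_nonneg l]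

lemma tog_rot {G : M2} {g : ℝ → ℝ} {θ : ℝ} (hs : Real.sin θ ≠ 0) (g1 : Uni.Sp G)
    (hG : Lf G g) (hc : ∀ x, |g x - x| < π) (h : Tog (fun x => x + θ) fun x => g x + θ) :
    Real.cos θ = 0 ∧ G 1 0 = G 0 1 := by
  obtain ⟨W, η, W0, e⟩ := polar (v := ![(G 1 0 + G 0 1) / 2, (G 1 1 - G 0 0) / 2]) (by
    intro h0
    have a := congrFun h0 0
    have b := congrFun h0 1
    simp at a b
    have c1 : G 1 0 = -G 0 1 := by linarith
    have c2 : G 1 1 = G 0 0 := by linarith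
    obtain ⟨g1, g2⟩ := g1
    simp [Matrix.det_fin_two, c1, c2] at g1
    have d1 : G 0 0 = 1 := by nlinarith [sq_nonneg (G 0 0 - 1), sq_nonneg (G 0 1)]
    have d2 : G 0 1 = 0 := by nlinarith [sq_nonneg (G 0 0 - 1), sq_nonneg (G 0 1)]
    refine g2 ?_
    ext i j
    fin_cases i <;> fin_cases j <;> simp [c1, c2, d1, d2])
  have e0 := congrFun e 0
  have e1 := congrFun e 1
  simp only [Matrix.cons_val_zero, Matrix.cons_val_one, Pi.smul_apply, smul_eq_mul, uv0,
    uv1] at e0 e1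
  obtain ⟨R, R0, hR⟩ : ∃ R : ℝ, 0 < R ∧ ∀ x, ∃ r : ℝ, 0 < r ∧ r ≤ R ∧
      r * Real.sin (g x - x) = (G 1 0 - G 0 1) / 2 + W * Real.cos (2 * x - η) := by
    refine ⟨|G 0 0| + |G 0 1| + |G 1 0| + |G 1 1| + 1, by positivity, fun x => ?_⟩
    obtain ⟨r, r0, d⟩ := hG.dir x
    have d0 := congrFun d 0
    have d1 := congrFun d 1
    simp only [mulVec2, Pi.smul_apply, smul_eq_mul, uv0, uv1] at d0 d1
    refine ⟨r, r0, ?_, ?_⟩
    · have b : ∀ a s t : ℝ, |s| ≤ 1 → |t| ≤ 1 → a * s * t ≤ |a| := fun a s t h1 h2 => by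
        refine (le_abs_self _).trans ?_
        rw [abs_mul, abs_mul, mul_assoc]
        exact mul_le_of_le_one_right (abs_nonneg a) (mul_le_one₀ h1 (abs_nonneg _) h2)
      have b1 := b (G 0 0) _ _ (Real.abs_cos_le_one x) (Real.abs_cos_le_one (g x))
      have b2 := b (G 0 1) _ _ (Real.abs_sin_le_one x) (Real.abs_cos_le_one (g x))
      have b3 := b (G 1 0) _ _ (Real.abs_cos_le_one x) (Real.abs_sin_le_one (g x))
      have b4 := b (G 1 1) _ _ (Real.abs_sin_le_one x) (Real.abs_sin_le_one (g x))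
      have : r = G 0 0 * Real.cos x * Real.cos (g x) + G 0 1 * Real.sin x * Real.cos (g x) +
          G 1 0 * Real.cos x * Real.sin (g x) + G 1 1 * Real.sin x * Real.sin (g x) := by
        linear_combination -Real.cos (g x) * d0 - Real.sin (g x) * d1 -
          r * Real.sin_sq_add_cos_sq (g x)
      linarith
    · rw [Real.sin_sub, Real.cos_sub, Real.cos_two_mul, Real.sin_two_mul]
      linear_combination -Real.cos x * d1 + Real.sin x * d0 + (2 * Real.cos x ^ 2 - 1) * e0 +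
        2 * Real.sin x * Real.cos x * e1 - G 0 1 * Real.sin_sq_add_cos_sq x
  by_contra hn
  have k0 : 0 < |(G 1 0 - G 0 1) / 2| + W * |Real.cos θ| := by
    rcases not_and_or.mp hn with c | c
    · have := mul_pos W0 (abs_pos.mpr c)
      linarith [abs_nonneg ((G 1 0 - G 0 1) / 2)]
    · have : 0 < |(G 1 0 - G 0 1) / 2| := abs_pos.mpr fun d => c (by linarith)
      have := mul_nonneg W0.le (abs_nonneg (Real.cos θ))
      linarith
  have it : ∀ (k : ℕ) (x : ℝ), (fun x => x + θ)^[k] x = x + k * θ := fun k x => by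
    rw [add_right_iterate]; simp
  obtain ⟨σ, ξ, hσ, s1, s2⟩ : ∃ σ ξ : ℝ, (σ = 1 ∨ σ = -1) ∧
      σ * ((G 1 0 - G 0 1) / 2) = |(G 1 0 - G 0 1) / 2| ∧
      ∀ t, σ * Real.cos t = Real.cos (t + ξ) := by
    rcases le_total 0 ((G 1 0 - G 0 1) / 2) with c | c
    · exact ⟨1, 0, Or.inl rfl, by rw [abs_of_nonneg c, one_mul], by simp⟩
    · exact ⟨-1, π, Or.inr rfl, by rw [abs_of_nonpos c, neg_one_mul], by simp⟩
  refine h.no_gain (x0 := 0) hσ (div_pos k0 R0) (it · 0) fun w => ?_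
  generalize hx : lw (fun x => x + θ) (fun x => g x + θ) w 0 = x
  obtain ⟨i, hi⟩ := hit hs (2 * x - η + ξ)
  refine ⟨true :: List.replicate i false, ?_⟩
  rw [List.cons_append, lw_true, lw_rep, hx, it]
  obtain ⟨r, r0, r1, r2⟩ := hR (x + i * θ)
  have c := hc (x + i * θ)
  generalize g (x + i * θ) = y at r2 c ⊢
  have a1 : |(G 1 0 - G 0 1) / 2| + W * |Real.cos θ| ≤ r * Real.sin (σ * (y - (x + i * θ))) := by
    have b1 : Real.sin (σ * (y - (x + i * θ))) = σ * Real.sin (y - (x + i * θ)) := by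
      rcases hσ with rfl | rfl <;> simp only [one_mul, neg_one_mul, Real.sin_neg]
    have b2 := s2 (2 * (x + i * θ) - η)
    rw [show 2 * (x + i * θ) - η + ξ = 2 * x - η + ξ + 2 * i * θ by ring] at b2
    have b3 := mul_le_mul_of_nonneg_left hi W0.le
    rw [b1, mul_left_comm, r2, mul_add, s1, mul_left_comm, b2]
    linarith
  have a2 : |σ * (y - (x + i * θ))| < π := by
    rcases hσ with rfl | rfl <;> simpa only [one_mul, neg_one_mul, abs_neg] using c
  have a3 : 0 < Real.sin (σ * (y - (x + i * θ))) := by by_contra d; nlinarith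
  have a4 : 0 ≤ σ * (y - (x + i * θ)) := by
    by_contra d
    have := Real.sin_nonpos_of_nonpos_of_neg_pi_le (not_le.mp d).le (abs_lt.mp a2).1.le
    linarith
  have a5 := Real.sin_le a4
  have a6 : (|(G 1 0 - G 0 1) / 2| + W * |Real.cos θ|) / R ≤ σ * (y - (x + i * θ)) := by
    rw [div_le_iff₀ R0]; nlinarith
  simp only [List.length_cons, List.length_replicate]
  push_cast
  linarith

lemma ell_form (h : A.trace ^ 2 < 4 * A.det) : ∃ (S : M2) (ρ θ : ℝ), S.det ≠ 0 ∧ 0 < ρ ∧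
    Real.sin θ ≠ 0 ∧ A * S = ρ • (S * !![Real.cos θ, -Real.sin θ; Real.sin θ, Real.cos θ]) := by
  have d0 : 0 < A.det := by nlinarith [sq_nonneg A.trace]
  obtain ⟨ρ, r0, r2⟩ : ∃ ρ : ℝ, 0 < ρ ∧ ρ ^ 2 = A.det :=
    ⟨Real.sqrt A.det, Real.sqrt_pos.mpr d0, Real.sq_sqrt d0.le⟩
  have c1 : (A.trace / (2 * ρ)) ^ 2 < 1 := by
    rw [div_pow, div_lt_one (by positivity)]; linarith
  obtain ⟨c2, c3⟩ := abs_lt.mp (sq_lt_one_iff_abs_lt_one _ |>.mp c1)
  obtain ⟨θ, t1, t2⟩ : ∃ θ : ℝ, A.trace = 2 * ρ * Real.cos θ ∧ Real.sin θ ≠ 0 := by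
    refine ⟨Real.arccos (A.trace / (2 * ρ)), ?_, fun h0 => ?_⟩
    · rw [Real.cos_arccos c2.le c3.le]; field_simp
    · have := Real.sin_sq_add_cos_sq (Real.arccos (A.trace / (2 * ρ)))
      rw [h0, Real.cos_arccos c2.le c3.le] at this
      linarith
  have t3 := Real.sin_sq_add_cos_sq θ
  have a10 : A 1 0 ≠ 0 := by
    intro h0
    rw [Matrix.trace_fin_two, Matrix.det_fin_two, h0] at h
    nlinarith [sq_nonneg (A 0 0 - A 1 1)]
  refine ⟨!![1, (A 0 0 - ρ * Real.cos θ) / (ρ * Real.sin θ); 0, A 1 0 / (ρ * Real.sin θ)], ρ, θ,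
    ?_, r0, t2, ?_⟩
  · simp only [Matrix.det_fin_two_of, one_mul, mul_zero, sub_zero]
    positivity
  · rw [Matrix.trace_fin_two] at t1
    rw [Matrix.det_fin_two] at r2
    ext i j
    fin_cases i <;> fin_cases j <;> simp [Matrix.mul_apply, Fin.sum_univ_two] <;> field_simp
    · ring
    · linear_combination A 0 0 * t1 + r2 + ρ ^ 2 * t3
    · linear_combination t1

open Uni in
lemma spl_of {S T : M2} (h0 : 0 < S.det * T.det) (h1 : (S - T).det * S.det ≤ 0)
    (ne : T ≠ S) : Spl S T := by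
  have s0 : S.det ≠ 0 := by rintro e; simp [e] at h0
  have u := Matrix.mul_nonsing_inv S (isUnit_iff_ne_zero.mpr s0)
  have e : T = S * (S⁻¹ * T) := by rw [← mul_assoc, u, one_mul]
  refine ⟨S⁻¹ * T, e, ?_, ?_, fun c => ne (by rw [e, sub_eq_zero.mp c, mul_one])⟩
  · generalize S⁻¹ * T = G at e
    rw [e, Matrix.det_mul] at h0
    by_contra hc
    nlinarith [sq_nonneg S.det]
  · generalize S⁻¹ * T = G at e
    rw [e, show S - S * G = -(S * (G - 1)) by noncomm_ring, Matrix.det_neg, Matrix.det_mul] at h1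
    simp only [Fintype.card_fin, even_two, Even.neg_pow, one_pow, one_mul] at h1
    by_contra hc
    nlinarith [mul_pos (not_le.mp hc) (show 0 < S.det ^ 2 by positivity)]

open Uni in
theorem pb_split_hull {F : Finset M2} (hF : ∀ T ∈ F, T.det ≠ 0)
    (h : ∀ T ∈ F, ∀ T' ∈ F, T' = T ∨ T' = -T ∨ Spl T T' ∨ Spl T (-T')) {k0 : ℕ}
    (hR : ∀ a, (0 : Fin 2 → ℝ) ∈ convexHull ℝ (Orb ↑F k0 a)) : Uni.PB ↑F := by
  obtain ⟨C, hC⟩ := count_le (p := True) hF fun T hT T' hT' =>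
    (h T hT T' hT').imp_right fun g => g.imp_right fun g => g.imp_left fun g => ⟨trivial, g⟩
  have small : ∀ n, ∃ D, ∀ a, Le (Orb ↑F n a) D := fun n => by
    obtain ⟨D, hD⟩ := Le.of_finite (lists_fin (F := F) n)
    exact ⟨D, fun a => (hD.image fun L => L.prod *ᵥ a).mono
      (by rintro _ ⟨L, h1, h2, rfl⟩; exact ⟨L, ⟨h1, h2⟩, rfl⟩) le_rfl⟩
  choose D hD using small
  refine ⟨_, polyB_sq C ((Finset.range k0).sup D + 1), fun k n a hn => ?_⟩
  rcases lt_or_ge n k0 with c | c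
  · exact (hD n a).mono (fun x hx => hx.1)
      ((Finset.le_sup (f := D) (Finset.mem_range.mpr c)).trans (by omega))
  obtain ⟨j, rfl⟩ := Nat.exists_eq_add_of_le c
  have one : Le ({0} : Set (Fin 2 → ℝ)) 1 := Le.one fun x hx y hy => hx.trans hy.symm
  refine ((hC (k0 + j) a).union one).mono ?_ (by
    have : (k0 + j) * (k0 + j + 1) * C ≤ k * (k + 1) * C := by gcongr
    omega)
  rintro x ⟨h1, g, h2⟩
  by_cases hx : x = 0
  · exact Or.inr hx
  refine Or.inl ⟨h1, g, h2, fun _ => ?_⟩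
  obtain ⟨L, l1, l2, -⟩ := h1
  have m : (L.take j).prod *ᵥ a ∈ Orb ↑F j a :=
    ⟨L.take j, by simp [l1], fun T hT => l2 T (List.mem_of_mem_take hT), rfl⟩
  have cv : Convex ℝ {y : Fin 2 → ℝ | y = x ∨ g ⬝ᵥ y < g ⬝ᵥ x} := by
    intro y hy z hz s t hs ht st
    have e : g ⬝ᵥ (s • y + t • z) = s * g ⬝ᵥ y + t * g ⬝ᵥ z := by
      rw [dotProduct_add, dotProduct_smul, dotProduct_smul]; rfl
    have e' : g ⬝ᵥ x = s * g ⬝ᵥ x + t * g ⬝ᵥ x := by rw [← add_mul, st, one_mul]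
    rcases hs.eq_or_lt with rfl | hs'
    · rw [zero_add] at st; simpa [st] using hz
    rcases ht.eq_or_lt with rfl | ht'
    · rw [add_zero] at st; simpa [st] using hy
    rcases hy with rfl | hy <;> rcases hz with rfl | hz
    · left; rw [← add_smul, st, one_smul]
    all_goals right; rw [e, e']; nlinarith
  have := convexHull_min (fun y hy => h2 y (orb_app m hy)) cv (hR _)
  simpa using this.resolve_left (Ne.symm hx)

end Pool.Agent.Lib.MP_34a884_an.Neg
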