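import Mathlib
import Pool.Agent.Lib.MP_34a884_an.OMain

/-! Families of lifts that stay together. -/

namespace Pool.Agent.Lib.MP_34a884_an.Neg

open Matrix Real

variable {ι : Type} {φ : ι → ℝ → ℝ}

/-- The lift of a word in a family. -/
def lf (φ : ι → ℝ → ℝ) (L : List ι) (x : ℝ) : ℝ := L.foldr (fun i y => φ i y) x

@[simp] lemma lf_nil (x : ℝ) : lf φ [] x = x := rfl
@[simp] lemma lf_cons (i : ι) (L : List ι) (x : ℝ) : lf φ (i :: L) x = φ i (lf φ L x) := rfl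

/-- All lifted words of the same length stay together. -/
def Tg (φ : ι → ℝ → ℝ) : Prop :=
  ∀ L L' : List ι, L.length = L'.length → ∀ x, lf φ L x ≤ lf φ L' x + 2 * π

lemma Tg.pair (h : Tg φ) (i j : ι) : Tog (φ i) (φ j) := by
  have e : ∀ (w : List Bool) (x : ℝ),
      lw (φ i) (φ j) w x = lf φ (w.map fun b => bif b then j else i) x := by
    intro w x
    induction w with
    | nil => rfl
    | cons b w ih => cases b <;> simp [ih]
  intro w w' hw x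
  rw [e, e]
  exact h _ _ (by simpa using hw) x

lemma sq_word (L : List (ι × ι)) : ∃ L' : List ι, L'.length = 2 * L.length ∧
    ∀ x, lf (fun (p : ι × ι) x => φ p.1 (φ p.2 x)) L x = lf φ L' x := by
  induction L with
  | nil => exact ⟨[], rfl, fun _ => rfl⟩
  | cons p L ih =>
    obtain ⟨L', h1, h2⟩ := ih
    exact ⟨p.1 :: p.2 :: L', by simp [h1]; ring, fun x => by simp [h2]⟩

lemma Tg.sq (h : Tg φ) : Tg fun (p : ι × ι) x => φ p.1 (φ p.2 x) := by
  intro L L' hL x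
  obtain ⟨U, u1, u2⟩ := sq_word (φ := φ) L
  obtain ⟨U', v1, v2⟩ := sq_word (φ := φ) L'
  rw [u2, v2]
  exact h _ _ (by rw [u1, v1, hL]) x

/-- For every length the lifted words are near each other at some point. -/
def Nr (φ : ι → ℝ → ℝ) : Prop :=
  ∀ k, ∃ x, ∀ L L' : List ι, L.length = k → L'.length = k → lf φ L x ≤ lf φ L' x + π

lemma Nr.sq (h : Nr φ) : Nr fun (p : ι × ι) x => φ p.1 (φ p.2 x) := by
  intro k
  obtain ⟨x, hx⟩ := h (2 * k)
  refine ⟨x, fun L L' e e' => ?_⟩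
  obtain ⟨U, u1, u2⟩ := sq_word (φ := φ) L
  obtain ⟨U', v1, v2⟩ := sq_word (φ := φ) L'
  rw [u2, v2]
  exact hx _ _ (by rw [u1, e]) (by rw [v1, e'])

lemma Nr.tg (h : Nr φ) (hp : ∀ i, Pm (φ i)) : Tg φ := by
  have pm : ∀ L : List ι, Pm (lf φ L) := fun L => by
    induction L with
    | nil => exact ⟨fun x y h => h, fun x => rfl⟩
    | cons i L ih => exact (hp i).comp ih
  intro L L' e y
  obtain ⟨x, hx⟩ := h L.length
  obtain ⟨j, j1, j2⟩ := exists_cell x y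
  have a1 := (pm L).1 j2
  have a2 := (pm L').1.monotone j1
  rw [(pm L).2, per_int (pm L).2] at a1
  rw [per_int (pm L').2] at a2
  linarith [hx L L' rfl e.symm]

/-- `χ` describes the action of `X` on directions. -/
def Dir (X : M2) (χ : ℝ → ℝ) : Prop := ∀ x, ∃ r : ℝ, 0 < r ∧ X *ᵥ uv x = r • uv (χ x)

lemma Dir.comp {X Y : M2} {χ ψ : ℝ → ℝ} (h : Dir X χ) (h' : Dir Y ψ) :
    Dir (X * Y) fun x => χ (ψ x) := fun x => by
  obtain ⟨r, r0, e⟩ := h' x
  obtain ⟨s, s0, e'⟩ := h (ψ x)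
  exact ⟨r * s, mul_pos r0 s0, by
    rw [← Matrix.mulVec_mulVec, e, Matrix.mulVec_smul, e', smul_smul]⟩

lemma lf_dir {X : ι → M2} (h : ∀ i, Dir (X i) (φ i)) (L : List ι) :
    Dir (L.map X).prod (lf φ L) := by
  induction L with
  | nil => exact fun x => ⟨1, one_pos, by simp⟩
  | cons i L ih => rw [List.map_cons, List.prod_cons]; exact (h i).comp ih

/-- Points at distance less than a half turn stay so. -/
def Cl (χ : ℝ → ℝ) : Prop := ∀ x y, |x - y| < π → |χ x - χ y| < π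

lemma lf_rep (i : ι) (k : ℕ) (x : ℝ) : lf φ (List.replicate k i) x = (φ i)^[k] x := by
  induction k with
  | zero => rfl
  | succ k ih => rw [List.replicate_succ, lf_cons, ih, Function.iterate_succ_apply']

lemma Tg.stop [Fintype ι] (h : Tg φ) (hp : ∀ i, Pm (φ i)) (hc : ∀ i, Continuous (φ i)) (i0 : ι)
    {x0 ω σ : ℝ} (hx : ∀ k : ℕ, (φ i0)^[k] x0 = x0 + k * ω) (hσ : σ = 1 ∨ σ = -1) :
    ∃ x, ∀ i, σ * (φ i x - x - ω) ≤ 0 := by
  by_contra hn
  have ne : (Finset.univ : Finset ι).Nonempty := ⟨i0, Finset.mem_univ _⟩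
  have cont : Continuous fun x => Finset.univ.sup' ne fun i => σ * (φ i x - x - ω) :=
    Continuous.finset_sup'_apply ne fun i _ =>
      continuous_const.mul (((hc i).sub continuous_id).sub continuous_const)
  obtain ⟨y, -, hy⟩ := (isCompact_Icc (a := 0) (b := π)).exists_isMinOn
    ⟨0, le_rfl, Real.pi_pos.le⟩ cont.continuousOn
  have e0 : 0 < Finset.univ.sup' ne fun i => σ * (φ i y - y - ω) := by
    by_contra c
    exact hn ⟨y, fun i => (Finset.sup'_le_iff ne _).mp (not_lt.mp c) i (Finset.mem_univ _)⟩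
  generalize he : (Finset.univ.sup' ne fun i => σ * (φ i y - y - ω)) = ε at e0
  have step : ∀ x, ∃ i, ε ≤ σ * (φ i x - x - ω) := by
    intro x
    obtain ⟨n, n1, n2⟩ := exists_cell 0 x
    have m := hy (show x - n * π ∈ Set.Icc 0 π from ⟨by linarith, by linarith⟩)
    simp only [Set.mem_ofPred_eq, he] at m
    obtain ⟨i, -, hi⟩ := (Finset.le_sup'_iff ne).mp m
    have p1 := per_int (hp i).2 n (x - n * π)
    rw [sub_add_cancel] at p1
    exact ⟨i, by rw [p1]; linarith⟩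
  have key : ∀ j : ℕ, ∃ L : List ι, L.length = j ∧ σ * (x0 + j * ω) + j * ε ≤ σ * lf φ L x0 := by
    intro j
    induction j with
    | zero => exact ⟨[], rfl, by simp⟩
    | succ j ih =>
      obtain ⟨L, h1, h2⟩ := ih
      obtain ⟨i, hi⟩ := step (lf φ L x0)
      exact ⟨i :: L, by simp [h1], by rw [lf_cons]; push_cast; linarith⟩
  obtain ⟨j, hj⟩ := exists_nat_gt (2 * π / ε)
  rw [div_lt_iff₀ e0] at hj
  obtain ⟨L, h1, h2⟩ := key j
  have a := h L (List.replicate j i0) (by simp [h1]) x0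
  have b := h (List.replicate j i0) L (by simp [h1]) x0
  rw [lf_rep, hx] at a b
  rcases hσ with rfl | rfl <;> linarith

lemma chain' (hp : ∀ i, Cl (φ i)) (i0 : ι) (x : ℝ) (k : ℕ)
    (hc : ∀ j < k, ∀ i, |φ i ((φ i0)^[j] x) - φ i0 ((φ i0)^[j] x)| < π) :
    ∀ χ, Cl χ → (∀ L : List ι, L.length = k → Real.cos (χ (lf φ L x)) ≤ 0) →
      ∃ n : ℤ, ∀ L : List ι, L.length = k → π / 2 + n * (2 * π) ≤ χ (lf φ L x) ∧
        χ (lf φ L x) ≤ 3 * π / 2 + n * (2 * π) := by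
  induction k with
  | zero =>
    intro χ _ h
    obtain ⟨n, hn⟩ := band (h [] rfl)
    exact ⟨n, fun w hw => by rw [List.length_eq_zero_iff.mp hw]; exact hn⟩
  | succ k ih =>
    intro χ hχ h
    choose n hn using fun i => ih (fun j hj => hc j (by omega)) (fun x => χ (φ i x))
      (fun x y e => hχ _ _ (hp i x y e)) fun w hw => h (i :: w) (by simp [hw])
    refine ⟨n i0, fun w hw => ?_⟩
    obtain ⟨i, w, rfl⟩ := List.exists_cons_of_length_eq_add_one hw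
    obtain ⟨a1, a2⟩ := hn i0 (List.replicate k i0) (by simp)
    obtain ⟨b1, b2⟩ := hn i (List.replicate k i0) (by simp)
    obtain ⟨c1, c2⟩ := abs_lt.mp (hχ _ _ (hc k (by omega) i))
    rw [lf_rep] at a1 a2 b1 b2
    have p0 := Real.pi_pos
    have e : n i0 = n i := by
      have d1 : (n i0 : ℝ) < n i + 1 := by by_contra hc; nlinarith
      have d2 : (n i : ℝ) < n i0 + 1 := by by_contra hc; nlinarith
      have d3 : n i0 < n i + 1 := by exact_mod_cast d1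
      have d4 : n i < n i0 + 1 := by exact_mod_cast d2
      omega
    rw [e]
    exact hn i w (by simpa using hw)

lemma Lf.neg {X : M2} {χ : ℝ → ℝ} (h : Lf X χ) {σ : ℝ} (hσ : σ = 1 ∨ σ = -1) :
    Lf (-X) fun x => χ x + σ * π := by
  refine ⟨fun x => ?_, ⟨fun x y e => by linarith [h.pm.1 e], fun x => by simp only [h.pm.2]; ring⟩,
    h.cont.add continuous_const⟩
  obtain ⟨r, r0, e⟩ := h.dir x
  refine ⟨r, r0, ?_⟩
  rw [Matrix.neg_mulVec, e]
  rcases hσ with rfl | rfl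
  · exact ext2 (by simp [Real.cos_add_pi]) (by simp [Real.sin_add_pi])
  · rw [neg_one_mul, ← sub_eq_add_neg]
    exact ext2 (by simp [Real.cos_sub_pi]) (by simp [Real.sin_sub_pi])

lemma Lf.sin {X : M2} {χ : ℝ → ℝ} (h : Lf X χ) (x : ℝ) :
    ∃ r : ℝ, 0 < r ∧ Uni.d2 (uv x) (X *ᵥ uv x) = r * Real.sin (χ x - x) := by
  obtain ⟨r, r0, e⟩ := h.dir x
  exact ⟨r, r0, by rw [e, Real.sin_sub]; simp [Uni.d2]; ring⟩

lemma type_const {A G : M2} (g0 : 0 < G.det) (g1 : (G - 1).det ≤ 0) {u y x c : Fin 2 → ℝ} {μ : ℝ}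
    (y0 : y ≠ 0) (m0 : 0 < μ) (hu : G *ᵥ u = μ • u) (hy : A *ᵥ y = u)
    (p1 : 0 < c ⬝ᵥ A *ᵥ A *ᵥ x) (p2 : 0 < c ⬝ᵥ A *ᵥ (-(A * G)) *ᵥ x)
    (p3 : 0 < c ⬝ᵥ (-(A * G)) *ᵥ A *ᵥ x) (p4 : 0 < c ⬝ᵥ (-(A * G)) *ᵥ (-(A * G)) *ᵥ x) :
    0 < Uni.d2 x (G *ᵥ x) * Uni.d2 y (G *ᵥ y) := by
  have tr : 0 < G 0 0 + G 1 1 := by
    rw [Matrix.det_fin_two] at g0 g1
    simp at g1
    nlinarith
  have hb : c ⬝ᵥ (-(A * G)) *ᵥ A *ᵥ y = -μ * (c ⬝ᵥ A *ᵥ A *ᵥ y) := by
    rw [hy, Matrix.neg_mulVec, ← Matrix.mulVec_mulVec, hu, Matrix.mulVec_smul, dotProduct_neg,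
      dotProduct_smul, smul_eq_mul, neg_mul]
  rw [Matrix.neg_mulVec x (A * G), ← Matrix.mulVec_mulVec, Matrix.mulVec_neg, dotProduct_neg]
    at p2 p4
  rw [Uni.dotT, Uni.dotT A] at p1 p2 p3 p4 hb
  rw [Uni.dotT A c, Uni.dotT A] at hb
  generalize Aᵀ *ᵥ Aᵀ *ᵥ c = α at *
  generalize Aᵀ *ᵥ (-(A * G))ᵀ *ᵥ c = β at *
  have id1 : Uni.d2 x (G *ᵥ x) * Uni.d2 y (G *ᵥ y) = Uni.d2 y (G *ᵥ x) ^ 2 +
      Uni.d2 y (G *ᵥ x) * Uni.d2 x y * (G 0 0 + G 1 1) + Uni.d2 x y ^ 2 * G.det := by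
    simp only [Uni.d2, mulVec2, Matrix.det_fin_two]; ring
  have id2 : Uni.d2 y (G *ᵥ x) * (μ * (α ⬝ᵥ x) + β ⬝ᵥ x) =
      Uni.d2 x y * (μ * -(α ⬝ᵥ G *ᵥ x) + -(β ⬝ᵥ G *ᵥ x)) := by
    generalize G *ᵥ x = z
    simp only [Uni.d2, Uni.dot] at hb ⊢
    linear_combination (x 0 * z 1 - x 1 * z 0) * hb
  have q1 : 0 < μ * (α ⬝ᵥ x) + β ⬝ᵥ x := by positivity
  have q2 : 0 < μ * -(α ⬝ᵥ G *ᵥ x) + -(β ⬝ᵥ G *ᵥ x) := by positivity
  by_cases t0 : Uni.d2 x y = 0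
  · exfalso
    have s0 : Uni.d2 y (G *ᵥ x) = 0 := by
      rw [t0, zero_mul] at id2
      exact (mul_eq_zero.mp id2).resolve_right q1.ne'
    obtain ⟨a, ha⟩ := Uni.par y0 s0
    obtain ⟨b, rfl⟩ := Uni.par y0 (x := x) (by simp only [Uni.d2] at t0 ⊢; linarith)
    rw [ha] at p2
    have a0 := congrFun ha 0
    have a1 := congrFun ha 1
    simp only [dotProduct_smul, smul_eq_mul, mulVec2, Pi.smul_apply] at p1 p2 a0 a1
    have ab : a * b < 0 := by by_contra hc; nlinarith [mul_pos p1 p2, sq_nonneg (α ⬝ᵥ y)]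
    have k : 0 < a ^ 2 - a * b * (G 0 0 + G 1 1) + b ^ 2 * G.det := by
      nlinarith [sq_nonneg a, mul_pos (neg_pos.mpr ab) tr, mul_nonneg (sq_nonneg b) g0.le]
    rw [Matrix.det_fin_two] at k
    refine y0 (ext2 (mul_left_cancel₀ k.ne' ?_) (mul_left_cancel₀ k.ne' ?_)) <;>
      simp only [Pi.zero_apply]
    · linear_combination (b * G 1 1 - a) * a0 - b * G 0 1 * a1
    · linear_combination (b * G 0 0 - a) * a1 - b * G 1 0 * a0
  · rw [id1]
    generalize Uni.d2 y (G *ᵥ x) = s at *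
    generalize Uni.d2 x y = t at *
    have t2 : 0 < t ^ 2 := by positivity
    have st : 0 < s * t := by
      refine (mul_pos_iff_of_pos_right q1).mp ((mul_pos t2 q2).trans_eq ?_)
      linear_combination -t * id2
    nlinarith [sq_nonneg s, mul_pos st tr, mul_pos t2 g0]

end Pool.Agent.Lib.MP_34a884_an.Neg
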