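import Mathlib
import Pool.Agent.Lib.MP_34a884_an.OFam

/-! Finite sets with split quotients and without an invariant pointed cone. -/

namespace Pool.Agent.Lib.MP_34a884_an.Neg

open Matrix Real Uni

variable {F : Finset M2}

/-- The orbit of length `m` lies in an open half plane. -/
def Pt (F : Finset M2) (m : ℕ) (v : Fin 2 → ℝ) : Prop := ∃ c, ∀ z ∈ Orb ↑F m v, 0 < c ⬝ᵥ z

lemma Pt.down {A : M2} (hA : A ∈ F) {m : ℕ} (d : ℕ) {v : Fin 2 → ℝ} (h : Pt F (m + d) v) :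
    Pt F m v := by
  induction d with
  | zero => exact h
  | succ d ih =>
    obtain ⟨c, hc⟩ := h
    exact ih ⟨Aᵀ *ᵥ c, fun z hz => by rw [← dotT]; exact hc _ (orb_step hA hz)⟩

lemma Pt.app {m j : ℕ} {v w : Fin 2 → ℝ} (h : Pt F (m + j) v) (hw : w ∈ Orb ↑F j v) :
    Pt F m w := by
  obtain ⟨c, hc⟩ := h
  exact ⟨c, fun z hz => hc z (orb_app hw hz)⟩

lemma Pt.smul {m : ℕ} {v : Fin 2 → ℝ} {r : ℝ} (r0 : 0 < r) (h : Pt F m (r • v)) : Pt F m v := by
  obtain ⟨c, hc⟩ := h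
  refine ⟨c, ?_⟩
  rintro _ ⟨L, h1, h2, rfl⟩
  have := hc _ ⟨L, h1, h2, rfl⟩
  rw [Matrix.mulVec_smul, dotProduct_smul, smul_eq_mul] at this
  exact (mul_pos_iff_of_pos_left r0).mp this

lemma pt_of {k : ℕ} {a : Fin 2 → ℝ} (h : (0 : Fin 2 → ℝ) ∉ convexHull ℝ (Orb ↑F k a)) :
    Pt F k a := by
  obtain ⟨f, u, h1, h2⟩ := geometric_hahn_banach_point_closed (convex_convexHull ℝ _)
    ((orb_fin F.finite_toSet k a).isClosed_convexHull ℝ) h
  refine ⟨![f ![1, 0], f ![0, 1]], fun z hz => ?_⟩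
  have e : z = z 0 • ![1, 0] + z 1 • ![0, 1] := ext2 (by simp) (by simp)
  have := h2 z (subset_convexHull ℝ _ hz)
  rw [e, map_add, map_smul, map_smul] at this
  rw [map_zero] at h1
  simp only [dot, Matrix.cons_val_zero, Matrix.cons_val_one, smul_eq_mul] at this ⊢
  linarith

lemma orb_map (L : List F) (a : Fin 2 → ℝ) :
    (L.map fun T : F => (T : M2)).prod *ᵥ a ∈ Orb ↑F L.length a :=
  ⟨_, by simp, fun T hT => by obtain ⟨X, -, rfl⟩ := List.mem_map.mp hT; exact X.2, rfl⟩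

lemma near_of {φ : F → ℝ → ℝ} (hφ : ∀ T : F, Dir T (φ T)) (cl : ∀ T, Cl (φ T)) (A : F)
    (hc : ∀ (T : F) x, Pt F 2 (uv x) → |φ T x - φ A x| < π) (hn : ∀ k, ∃ a, Pt F k a) :
    Nr φ := by
  intro k
  obtain ⟨a, ha⟩ := hn (k + 1)
  have m0 : ∀ n v, (List.map (fun T : F => (T : M2)) (List.replicate n A)).prod *ᵥ v
      ∈ Orb ↑F n v := fun n v => by
    simpa only [List.length_replicate] using orb_map (List.replicate n A) v
  have a0 : a ≠ 0 := by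
    rintro rfl
    obtain ⟨c, hc⟩ := ha
    simpa using hc _ (m0 _ 0)
  obtain ⟨r, x, r0, rfl⟩ := polar a0
  replace ha := ha.smul r0
  obtain ⟨c, hc'⟩ := ha.down A.2 1
  have c0 : -c ≠ 0 := by
    intro h0
    simpa [neg_eq_zero.mp h0] using hc' _ (m0 _ _)
  obtain ⟨s, t, s0, ec⟩ := polar c0
  obtain ⟨n, hn⟩ := chain' cl A x k (fun j hj T => by
      refine hc T _ ?_
      obtain ⟨ρ, p0, e⟩ := lf_dir hφ (List.replicate j A) x
      have m := m0 j (uv x)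
      rw [e, lf_rep] at m
      obtain ⟨d, hd⟩ := Nat.exists_eq_add_of_lt hj
      rw [show k + 1 = 2 + d + j by omega] at ha
      exact ((ha.app m).down A.2 d).smul p0) (fun θ => θ - t)
    (fun x y h => by simpa using h) fun U hU => by
      obtain ⟨ρ, p0, e⟩ := lf_dir hφ U x
      have := hc' _ (hU ▸ orb_map U (uv x))
      rw [e, ← neg_neg c, ec, dot] at this
      simp only [Pi.neg_apply, Pi.smul_apply, smul_eq_mul, uv0, uv1] at this
      rw [Real.cos_sub]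
      by_contra hc
      nlinarith [mul_pos (mul_pos s0 p0) (not_le.mp hc)]
  exact ⟨x, fun L L' e e' => by linarith [(hn L e).2, (hn L' e').1]⟩

/-- How the lift of the quotient is obtained. -/
def Rel (A T : M2) (ψ : ℝ → ℝ) : Prop := (T = A ∧ ψ = fun x => x) ∨ ∃ (G : M2) (g : ℝ → ℝ),
  Lf G g ∧ (∀ x, |g x - x| < π) ∧ Sp G ∧ T ≠ A ∧
    (ψ = g ∨ ∃ σ : ℝ, (σ = 1 ∨ σ = -1) ∧ ψ = fun x => g x + σ * π)

lemma quot_lift {A : M2} (hA : A ∈ F) (dA : A.det ≠ 0)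
    (h : ∀ T ∈ F, T = A ∨ T = -A ∨ Spl A T ∨ Spl A (-T)) (hn : ∀ k, ∃ a, Pt F k a) :
    ∃ (U : F → M2) (ψ : F → ℝ → ℝ), (∀ T : F, T = A * U T ∧ Lf (U T) (ψ T) ∧ Rel A T (ψ T) ∧
      ∀ x, Pt F 2 (uv x) → |ψ T x - x| < π) ∧ ψ ⟨A, hA⟩ = fun x => x := by
  have one : ∀ T ∈ F, ∀ v, T *ᵥ v ∈ Orb ↑F 1 v := fun T hT v =>
    ⟨[T], rfl, by simpa using hT, by simp⟩
  have key : ∀ T : F, ∃ U ψ, T = A * U ∧ Lf U ψ ∧ Rel A T ψ ∧
      ∀ x, Pt F 2 (uv x) → |ψ x - x| < π := by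
    rintro ⟨T, hT⟩
    by_cases e : T = A
    · exact ⟨1, fun x => x, by simpa using e, ⟨fun x => ⟨1, one_pos, by simp⟩,
        ⟨fun x y h => h, fun x => rfl⟩, continuous_id⟩, Or.inl ⟨e, rfl⟩,
        fun x _ => by simpa using Real.pi_pos⟩
    rcases h T hT with e' | rfl | ⟨G, rfl, g0, g1⟩ | ⟨G, e', g0, g1⟩
    · exact absurd e' e
    · obtain ⟨a, c, hc⟩ := hn 1
      have a1 := hc _ (one A hA a)
      have a2 := hc _ (one _ hT a)
      rw [Matrix.neg_mulVec, dotProduct_neg] at a2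
      linarith
    · obtain ⟨g, hg, cl⟩ := split_lift g0 g1.1
      exact ⟨G, g, rfl, hg, Or.inr ⟨G, g, hg, cl, g1, e, Or.inl rfl⟩, fun x _ => cl x⟩
    obtain rfl : T = -(A * G) := by rw [← e', neg_neg]
    obtain ⟨g, hg, cl⟩ := split_lift g0 g1.1
    obtain ⟨u, μ, u0, m0, hu⟩ := split_eigen g0 g1.1
    have hy : A *ᵥ A⁻¹ *ᵥ u = u := by
      rw [Matrix.mulVec_mulVec, Matrix.mul_nonsing_inv A (isUnit_iff_ne_zero.mpr dA),
        Matrix.one_mulVec]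
    generalize A⁻¹ *ᵥ u = y at hy
    have y0 : y ≠ 0 := by rintro rfl; exact u0 (by simpa using hy.symm)
    have ty : ∀ x, Pt F 2 (uv x) → 0 < Real.sin (g x - x) * Uni.d2 y (G *ᵥ y) := by
      rintro x ⟨c, hc⟩
      have := type_const g0 g1.1 y0 m0 hu hy (hc _ (orb_step hA (one A hA (uv x))))
        (hc _ (orb_step hA (one _ hT _))) (hc _ (orb_step hT (one A hA _)))
        (hc _ (orb_step hT (one _ hT _)))
      obtain ⟨r, r0, er⟩ := hg.sin x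
      rw [er, mul_assoc] at this
      exact (mul_pos_iff_of_pos_left r0).mp this
    rcases le_total (Uni.d2 y (G *ᵥ y)) 0 with c | c
    · refine ⟨-G, _, by simp, hg.neg (Or.inl rfl), Or.inr ⟨G, g, hg, cl, g1, e,
        Or.inr ⟨1, Or.inl rfl, rfl⟩⟩, fun x hx => ?_⟩
      have lt : g x < x := by
        by_contra d
        have := Real.sin_nonneg_of_nonneg_of_le_pi (x := g x - x) (by linarith)
          (abs_lt.mp (cl x)).2.le
        nlinarith [ty x hx]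
      have b := abs_lt.mp (cl x)
      rw [abs_lt]; constructor <;> linarith [b.1, b.2, Real.pi_pos]
    · refine ⟨-G, _, by simp, hg.neg (Or.inr rfl), Or.inr ⟨G, g, hg, cl, g1, e,
        Or.inr ⟨-1, Or.inr rfl, rfl⟩⟩, fun x hx => ?_⟩
      have lt : x < g x := by
        by_contra d
        have := Real.sin_nonpos_of_nonpos_of_neg_pi_le (x := g x - x) (by linarith)
          (abs_lt.mp (cl x)).1.le
        nlinarith [ty x hx]
      have b := abs_lt.mp (cl x)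
      rw [abs_lt]; constructor <;> linarith [b.1, b.2, Real.pi_pos]
  choose U ψ h1 using key
  refine ⟨U, ψ, h1, ?_⟩
  rcases (h1 ⟨A, hA⟩).2.2.1 with g | ⟨_, _, _, _, _, g, _⟩
  · exact g.2
  · exact absurd rfl g

lemma exists_fam {A : M2} (hA : A ∈ F) (dA : 0 < A.det) {χ : ℝ → ℝ} (hχ : Lf A χ)
    (h : ∀ T ∈ F, T = A ∨ T = -A ∨ Spl A T ∨ Spl A (-T)) (hn : ∀ k, ∃ a, Pt F k a) :
    ∃ φ : F → ℝ → ℝ, (∀ T : F, Lf T (φ T)) ∧ Tg φ ∧ φ ⟨A, hA⟩ = χ ∧
      ∀ T : F, ∃ ψ, Rel A T ψ ∧ φ T = fun x => χ (ψ x) := by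
  obtain ⟨U, ψ, h1, h2⟩ := quot_lift hA dA.ne' h hn
  have l : ∀ T : F, Lf T fun x => χ (ψ T x) := fun T => by
    rw [(h1 T).1]; exact hχ.comp (h1 T).2.1
  exact ⟨_, l, (near_of (fun T => (l T).dir) (fun T x y => (l T).pm.close) ⟨A, hA⟩
    (fun T x hx => by simpa only [h2] using hχ.pm.close ((h1 T).2.2.2 x hx)) hn).tg
    fun T => (l T).pm, by simp only [h2], fun T => ⟨_, (h1 T).2.2.1, rfl⟩⟩

lemma cone_of_stop {X : M2} {χ : ℝ → ℝ} (hX : Dir X χ) {z y v : ℝ} {j : ℤ} (n1 : z ≤ y)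
    (n2 : y < z + π) (v1 : z + j * π ≤ χ v) (v2 : χ v ≤ y + j * π) :
    ∃ p q : ℝ, 0 ≤ p ∧ 0 ≤ q ∧ X *ᵥ uv v = ((-1 : ℝ) ^ j) • (p • uv z + q • uv y) := by
  obtain ⟨r, r0, e⟩ := hX v
  rcases n1.eq_or_lt with rfl | lt
  · exact ⟨r, 0, r0.le, le_rfl, by rw [e, le_antisymm v2 v1, uv_int]; module⟩
  have sp : 0 < Real.sin (y - z) := Real.sin_pos_of_pos_of_lt_pi (by linarith) (by linarith)
  have t1 := Real.sin_nonneg_of_nonneg_of_le_pi (x := y - (χ v - j * π)) (by linarith)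
    (by linarith)
  have t2 := Real.sin_nonneg_of_nonneg_of_le_pi (x := χ v - j * π - z) (by linarith)
    (by linarith)
  refine ⟨r * (Real.sin (y - (χ v - j * π)) / Real.sin (y - z)),
    r * (Real.sin (χ v - j * π - z) / Real.sin (y - z)), by positivity, by positivity, ?_⟩
  have e2 := uv_int (χ v - j * π) j
  rw [sub_add_cancel, uv_comb sp.ne' (θ := χ v - j * π)] at e2
  rw [e, e2]
  module

lemma pb_rot {ρ θ : ℝ} (r0 : 0 < ρ) (t0 : Real.sin θ ≠ 0) {R : M2}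
    (hR : R = ρ • !![Real.cos θ, -Real.sin θ; Real.sin θ, Real.cos θ]) (hA : R ∈ F)
    (hF : ∀ T ∈ F, 0 < T.det)
    (h : ∀ S ∈ F, ∀ T ∈ F, T = S ∨ T = -S ∨ Spl S T ∨ Spl S (-T)) : Uni.PB ↑F := by
  by_cases hull : ∃ k, ∀ a, (0 : Fin 2 → ℝ) ∈ convexHull ℝ (Orb ↑F k a)
  · obtain ⟨k, hk⟩ := hull
    exact pb_split_hull (fun T hT => (hF T hT).ne') h hk
  simp only [not_exists, not_forall] at hull
  have hχ : Lf R fun x => x + θ := by
    refine ⟨fun x => ⟨ρ, r0, ext2 ?_ ?_⟩, ⟨fun x y h => by linarith, fun x => by ring⟩,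
      by fun_prop⟩
    · simp only [mulVec2, hR, Pi.smul_apply, uv0, uv1, Real.cos_add]; simp; ring
    · simp only [mulVec2, hR, Pi.smul_apply, uv0, uv1, Real.sin_add]; simp; ring
  obtain ⟨φ, h1, h2, h3, h4⟩ := exists_fam hA (hF R hA) hχ (h R hA)
    fun k => (hull k).imp fun a => pt_of
  have h5 : ∀ T : F, (T : M2) = R ∧ φ T = (fun x => x + θ) ∨ ∃ (G : M2) (g : ℝ → ℝ), Lf G g ∧
      (∀ x, |g x - x| < π) ∧ (φ T = fun x => g x + θ) ∧ Real.cos θ = 0 ∧ G 1 0 = G 0 1 := by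
    intro T
    obtain ⟨ψ, ⟨g, rfl⟩ | ⟨G, g, a1, a2, a3, -, rfl | ⟨σ, hσ, rfl⟩⟩, a4⟩ := h4 T
    · exact Or.inl ⟨g, a4⟩
    · refine Or.inr ⟨G, _, a1, a2, a4, tog_rot t0 a3 a1 a2 ?_⟩
      have := h2.pair ⟨R, hA⟩ T
      rwa [h3, a4] at this
    · obtain ⟨x, hx⟩ := h2.stop (fun T => (h1 T).pm) (fun T => (h1 T).cont) ⟨R, hA⟩ (x0 := 0)
        (ω := θ) (fun k => by rw [h3, add_right_iterate]; simp) hσ
      have := hx T
      have b := abs_lt.mp (a2 x)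
      rw [a4] at this
      rcases hσ with rfl | rfl <;> simp only at this <;> linarith [b.1, b.2]
  by_cases c0 : Real.cos θ = 0
  swap
  · have : ∀ T ∈ F, T = R := fun T hT => by
      rcases h5 ⟨T, hT⟩ with g | ⟨_, _, _, _, _, g, _⟩
      · exact g.1
      · exact absurd g c0
    exact pb_split_neg (fun T hT => (hF T hT).ne') fun S hS T hT =>
      Or.inl ((this T hT).trans (this S hS).symm)
  obtain ⟨x, hx⟩ := h2.sq.stop (fun p => (h1 p.1).pm.comp (h1 p.2).pm)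
    (fun p => (h1 p.1).cont.comp (h1 p.2).cont) (⟨R, hA⟩, ⟨R, hA⟩) (x0 := 0) (ω := θ + θ)
    (fun k => by simp only [h3, add_assoc]; rw [add_right_iterate]; simp; ring) (Or.inl rfl)
  have s2 : Real.sin θ ^ 2 = 1 := by rw [← Real.sin_sq_add_cos_sq θ, c0]; ring
  have fx : ∀ T : F, φ T x = x + θ ∧ φ T (x + θ) = x + θ + θ := by
    intro T
    have b1 := hx (⟨R, hA⟩, T)
    have b2 := hx (T, ⟨R, hA⟩)
    rcases h5 T with g | ⟨G, g, a1, a2, a3, -, sy⟩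
    · rw [g.2]; exact ⟨rfl, rfl⟩
    simp only [h3, a3] at b1 b2 ⊢
    obtain ⟨r, p0, e⟩ := a1.sin x
    obtain ⟨r', p0', e'⟩ := a1.sin (x + θ)
    have i1 := Real.sin_nonpos_of_nonpos_of_neg_pi_le (x := g x - x) (by linarith)
      (abs_lt.mp (a2 x)).1.le
    have i2 := Real.sin_nonpos_of_nonpos_of_neg_pi_le (x := g (x + θ) - (x + θ)) (by linarith)
      (abs_lt.mp (a2 _)).1.le
    have i3 : r * Real.sin (g x - x) + r' * Real.sin (g (x + θ) - (x + θ)) = 0 := by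
      rw [← e, ← e']
      simp only [Uni.d2, mulVec2, uv0, uv1, Real.cos_add, Real.sin_add, c0, sy]
      linear_combination (G 0 1 * Real.sin x ^ 2 - G 0 1 * Real.cos x ^ 2 +
        (G 0 0 - G 1 1) * Real.sin x * Real.cos x) * s2
    have j1 : Real.sin (g x - x) = 0 := by nlinarith
    have j2 : Real.sin (g (x + θ) - (x + θ)) = 0 := by nlinarith
    rw [Real.sin_eq_zero_iff_of_lt_of_lt (abs_lt.mp (a2 _)).1 (abs_lt.mp (a2 _)).2] at j1 j2
    constructor <;> linarith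
  have nz : ∀ t, uv t ≠ 0 := fun t h0 => by
    have a := congrFun h0 0
    have b := congrFun h0 1
    have := Real.sin_sq_add_cos_sq t
    simp only [uv0, uv1, Pi.zero_apply] at a b
    simp [a, b] at this
  refine pb_red (fun T hT => (hF T hT).ne') (fun b => bif b then uv (x + θ) else uv x)
    (fun b => by cases b <;> exact nz _) fun T hT b => ?_
  obtain ⟨f1, f2⟩ := fx ⟨T, hT⟩
  cases b
  · obtain ⟨r, -, e⟩ := (h1 ⟨T, hT⟩).dir x
    simp only [Bool.not_false, cond_true, cond_false, e, f1, Uni.d2, Pi.smul_apply, smul_eq_mul]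
    ring
  · obtain ⟨r, -, e⟩ := (h1 ⟨T, hT⟩).dir (x + θ)
    simp only [Bool.not_true, cond_true, cond_false, e, f2, Uni.d2, Pi.smul_apply, smul_eq_mul,
      uv0, uv1, Real.cos_add, Real.sin_add, c0]
    ring

/-- No pointed cone is mapped into itself, or into its negative, by all members of `F`. -/
def NoCone (F : Finset M2) : Prop :=
  ∀ (u v c : Fin 2 → ℝ) (σ : ℝ), 0 < c ⬝ᵥ u → 0 < c ⬝ᵥ v → σ = 1 ∨ σ = -1 →
    ∃ T ∈ F, ∃ w, (w = u ∨ w = v) ∧ ∀ p q : ℝ, 0 ≤ p → 0 ≤ q → T *ᵥ w ≠ σ • (p • u + q • v)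

lemma NoCone.elim (hN : NoCone F) {φ : F → ℝ → ℝ} (hφ : ∀ T : F, Dir T (φ T)) {z y : ℝ} {j : ℤ}
    (n1 : z ≤ y) (n2 : y < z + π) (h : ∀ T, (z + j * π ≤ φ T z ∧ φ T z ≤ y + j * π) ∧
      z + j * π ≤ φ T y ∧ φ T y ≤ y + j * π) : False := by
  have cp : 0 < Real.cos ((y - z) / 2) :=
    Real.cos_pos_of_mem_Ioo ⟨by linarith [Real.pi_pos], by linarith⟩
  obtain ⟨T, hT, w, hw, H⟩ := hN (uv z) (uv y) (uv ((z + y) / 2)) ((-1) ^ j)
    (by rw [dot]; simp only [uv0, uv1]; rw [← Real.cos_sub]; convert cp using 2; ring)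
    (by rw [dot]; simp only [uv0, uv1]
        rw [← Real.cos_sub, ← Real.cos_neg]; convert cp using 2; ring)
    (by rcases Int.even_or_odd j with h | h
        · exact Or.inl h.neg_one_zpow
        · exact Or.inr h.neg_one_zpow)
  obtain ⟨a, b⟩ := h ⟨T, hT⟩
  rcases hw with rfl | rfl
  · obtain ⟨p, q, p0, q0, e⟩ := cone_of_stop (hφ ⟨T, hT⟩) n1 n2 a.1 a.2
    exact H p q p0 q0 e
  · obtain ⟨p, q, p0, q0, e⟩ := cone_of_stop (hφ ⟨T, hT⟩) n1 n2 b.1 b.2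
    exact H p q p0 q0 e

lemma cone_neg {A : M2} (hA : A ∈ F) (dA : A.det < 0)
    (h : ∀ T ∈ F, T = A ∨ T = -A ∨ Spl A T ∨ Spl A (-T)) (hn : ∀ k, ∃ a, Pt F k a)
    (hN : NoCone F) : False := by
  have p0 := Real.pi_pos
  obtain ⟨U, g, h1, h2⟩ := quot_lift hA dA.ne h hn
  obtain ⟨χ, hχ⟩ := exists_lift (X := A * !![1, 0; 0, -1]) (by
    rw [Matrix.det_mul, Matrix.det_fin_two_of]; linarith)
  have dA' : Dir A fun x => χ (-x) := fun x => by
    obtain ⟨r, r0, e⟩ := hχ.dir (-x)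
    refine ⟨r, r0, ?_⟩
    rw [← e, ← Matrix.mulVec_mulVec]
    congr 1
    exact ext2 (by simp [mulVec2]) (by simp [mulVec2])
  obtain ⟨ψ, hψ⟩ : ∃ ψ : F → ℝ → ℝ, ψ = fun T x => χ (-g T x) := ⟨_, rfl⟩
  have d : ∀ T : F, Dir T (ψ T) := fun T => by
    rw [(h1 T).1, hψ]; exact dA'.comp (h1 T).2.1.dir
  have an : ∀ T x y, x < y → ψ T y < ψ T x := fun T x y e => by
    rw [hψ]; exact hχ.pm.1 (neg_lt_neg ((h1 T).2.1.pm.1 e))
  have an' : ∀ T x y, x ≤ y → ψ T y ≤ ψ T x := fun T x y e =>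
    e.eq_or_lt.elim (fun e => e ▸ le_rfl) fun e => (an T x y e).le
  have per : ∀ T (n : ℤ) x, ψ T (x + n * π) = ψ T x - n * π := fun T n x => by
    have := per_int hχ.pm.2 (-n) (-g T x)
    simp only [hψ, per_int (h1 T).2.1.pm.2]
    push_cast at this
    rw [neg_add, ← neg_mul, this]; ring
  have co : ∀ T, Continuous (ψ T) := fun T => by
    rw [hψ]; exact hχ.cont.comp (h1 T).2.1.cont.neg
  have ng : ∀ a b : ℝ, |a - b| < π → |χ (-a) - χ (-b)| < π := fun a b e =>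
    hχ.pm.close (by rwa [neg_sub_neg, abs_sub_comm])
  have pm : ∀ p : F × F, Pm fun x => ψ p.1 (ψ p.2 x) := fun p =>
    ⟨fun x y e => an _ _ _ (an _ _ _ e), fun x => by
      have a := per p.2 1 x
      have b := per p.1 (-1) (ψ p.2 x)
      push_cast at a b
      rw [one_mul] at a
      simp only
      rw [a, sub_eq_add_neg, ← neg_one_mul, b]; ring⟩
  have tg := (near_of d (fun T x y e => by
      rw [hψ]; exact ng _ _ ((h1 T).2.1.pm.close e)) ⟨A, hA⟩ (fun T x hx => by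
      simpa only [hψ, h2] using ng _ _ ((h1 T).2.2.2 x hx)) hn).sq.tg pm
  obtain ⟨x0, e0⟩ : ∃ x0, ψ ⟨A, hA⟩ x0 - x0 = 0 := by
    obtain ⟨n, n1, n2⟩ := exists_cell 0 (ψ ⟨A, hA⟩ 0 / 2)
    refine intermediate_value_univ (f := fun x => ψ ⟨A, hA⟩ x - x) (0 + (n + 1 : ℤ) * π)
      (0 + n * π) ((co _).sub continuous_id) ⟨?_, ?_⟩ <;> simp only [per] <;> push_cast <;>
      linarith
  rw [sub_eq_zero] at e0
  have st := fun σ => tg.stop (σ := σ) pm (fun p => (co p.1).comp (co p.2)) (⟨A, hA⟩, ⟨A, hA⟩)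
    (x0 := x0) (ω := 0) fun k => by
      rw [Function.iterate_fixed (by simp only [e0]), mul_zero, add_zero]
  obtain ⟨y, hy⟩ := st 1 (Or.inl rfl)
  obtain ⟨x, hx⟩ := st (-1) (Or.inr rfl)
  obtain ⟨n, n1, n2⟩ := exists_cell x y
  have hz : ∀ p : F × F, x + n * π ≤ ψ p.1 (ψ p.2 (x + n * π)) := fun p => by
    have := per_int (φ := fun x => ψ p.1 (ψ p.2 x)) (pm p).2 n x
    rw [this]; linarith [hx p]
  generalize x + n * π = z at n1 n2 hz
  have : Nonempty F := ⟨⟨A, hA⟩⟩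
  obtain ⟨T1, m1⟩ := Finite.exists_min fun T => ψ T y
  obtain ⟨T2, m2⟩ := Finite.exists_max fun T => ψ T z
  have c1 : ∀ T, ψ T (ψ T1 y) ≤ y := fun T => by linarith [hy (T, T1)]
  have c2 : ∀ T, z ≤ ψ T (ψ T2 z) := fun T => hz (T, T2)
  have c3 : ψ T1 y ≤ ψ T2 z := (an' T1 z y n1).trans (m2 T1)
  generalize ψ T1 y = z' at c1 c3 m1
  generalize ψ T2 z = y' at c2 c3 m2
  have c4 : y' < z' + π := by
    by_contra hc
    have a := an' T1 _ _ (not_lt.mp hc)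
    have b := per T1 1 z'
    push_cast at b
    rw [one_mul] at b
    linarith [c1 T1, c2 T1]
  obtain ⟨m, k1, k2⟩ := exists_cell z z'
  have c5 : ∀ T, ψ T (y' - m * π) = ψ T y' + m * π := fun T => by
    have := per T (-m) y'
    push_cast at this
    rw [sub_eq_add_neg, ← neg_mul, this]; ring
  rcases lt_or_ge (y' - m * π) (z + π) with c | c
  · refine hN.elim d (z := z) (y := y' - m * π) (j := m) (by linarith) c fun T => ?_
    have := an' T z (y' - m * π) (by linarith)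
    refine ⟨⟨?_, ?_⟩, ?_, ?_⟩ <;> linarith [c5 T, c2 T, m2 T]
  · refine hN.elim d (z := z + π) (y := y' - m * π) (j := m - 1) c (by linarith) fun T => ?_
    have := an' T _ _ c
    have b := per T 1 z
    push_cast at b ⊢
    rw [one_mul] at b
    refine ⟨⟨?_, ?_⟩, ?_, ?_⟩ <;> linarith [c5 T, c2 T, m2 T]

/-- Finite sets with split quotients and no invariant pointed cone. -/
theorem pb_no_cone (F : Finset M2)
    (h : ∀ S ∈ F, ∀ T ∈ F, 0 < S.det * T.det ∧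
      ((S - T).det * S.det ≤ 0 ∨ (S + T).det * S.det ≤ 0)) (hN : NoCone F) : Uni.PB ↑F := by
  classical
  have h' : ∀ S ∈ F, ∀ T ∈ F, T = S ∨ T = -S ∨ Spl S T ∨ Spl S (-T) := fun S hS T hT =>
    or_iff_not_imp_left.mpr fun n1 => or_iff_not_imp_left.mpr fun n2 => (h S hS T hT).2.imp
      (fun c => spl_of (h S hS T hT).1 c n1) fun c =>
      spl_of (by simpa [Matrix.det_neg] using (h S hS T hT).1) (by rwa [sub_neg_eq_add])
        fun e => n2 (by rw [← e, neg_neg])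
  have h0 : ∀ T ∈ F, T.det ≠ 0 := fun T hT e => by simpa [e] using (h T hT T hT).1
  by_cases hull : ∃ k, ∀ a, (0 : Fin 2 → ℝ) ∈ convexHull ℝ (Orb ↑F k a)
  · obtain ⟨k, hk⟩ := hull
    exact pb_split_hull h0 h' hk
  simp only [not_exists, not_forall] at hull
  have hn : ∀ k, ∃ a, Pt F k a := fun k => (hull k).imp fun a => pt_of
  obtain ⟨A, hA, -⟩ := hN ![1, 0] ![1, 0] ![1, 0] 1 (by simp) (by simp) (Or.inl rfl)
  rcases lt_or_gt_of_ne (h0 A hA) with dA | dA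
  · exact (cone_neg hA dA (h' A hA) hn hN).elim
  have hF : ∀ T ∈ F, 0 < T.det := fun T hT => (mul_pos_iff_of_pos_left dA).mp (h A hA T hT).1
  rcases le_or_gt (4 * A.det) (A.trace ^ 2) with c | c
  · exfalso
    obtain ⟨χ, hχ⟩ := exists_lift dA
    obtain ⟨φ, h1, h2, h3, -⟩ := exists_fam hA dA hχ (h' A hA) hn
    obtain ⟨u, u0, hu⟩ := real_eigen c
    obtain ⟨x0, j, e, -⟩ := hχ.eigen u0 hu
    have st := fun σ => h2.stop (σ := σ) (fun T => (h1 T).pm) (fun T => (h1 T).cont) ⟨A, hA⟩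
      (by rw [h3]; exact iter_fix hχ.pm e)
    obtain ⟨y, hy⟩ := st 1 (Or.inl rfl)
    obtain ⟨x, hx⟩ := st (-1) (Or.inr rfl)
    obtain ⟨n, n1, n2⟩ := exists_cell x y
    have hz : ∀ T : F, x + n * π + j * π ≤ φ T (x + n * π) := fun T => by
      rw [per_int (h1 T).pm.2]; linarith [hx T]
    generalize x + n * π = z at n1 n2 hz
    refine hN.elim (fun T => (h1 T).dir) (j := j) n1 n2 fun T => ?_
    have m := (h1 T).pm.1.monotone n1
    refine ⟨⟨?_, ?_⟩, ?_, ?_⟩ <;> linarith [hz T, hy T]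
  obtain ⟨S, ρ, θ, s0, r0, t0, e⟩ := ell_form c
  have u1 := Matrix.mul_nonsing_inv S (isUnit_iff_ne_zero.mpr s0)
  have u2 := Matrix.nonsing_inv_mul S (isUnit_iff_ne_zero.mpr s0)
  have dc : ∀ X : M2, (S⁻¹ * X * S).det = X.det := fun X => by
    rw [Matrix.det_mul, Matrix.det_mul, mul_right_comm, ← Matrix.det_mul, u2, Matrix.det_one,
      one_mul]
  have sp : ∀ X Y : M2, Spl X Y → Spl (S⁻¹ * X * S) (S⁻¹ * Y * S) := by
    rintro X _ ⟨G, rfl, g0, g1⟩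
    refine ⟨S⁻¹ * G * S, ?_, by rwa [dc], ?_, fun c => g1.2 ?_⟩
    · simp only [mul_assoc]
      rw [← mul_assoc S, u1, one_mul]
    · rw [← u2, show S⁻¹ * G * S - S⁻¹ * S = S⁻¹ * (G - 1) * S by noncomm_ring, dc]; exact g1.1
    · calc G - 1 = S * S⁻¹ * G * (S * S⁻¹) - S * S⁻¹ := by rw [u1, one_mul, mul_one]
        _ = S * (S⁻¹ * G * S - 1) * S⁻¹ := by noncomm_ring
        _ = 0 := by rw [c]; simp
  refine pb_conj F s0 ?_
  rw [← Finset.coe_image]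
  refine pb_rot r0 t0 rfl (Finset.mem_image.mpr ⟨A, hA, ?_⟩) (fun T hT => ?_) fun X hX' Y hY' => ?_
  · rw [mul_assoc, e, Matrix.mul_smul, ← mul_assoc, u2, one_mul]
  · obtain ⟨X, hX, rfl⟩ := Finset.mem_image.mp hT
    rw [dc]; exact hF X hX
  · obtain ⟨X, hX, rfl⟩ := Finset.mem_image.mp hX'
    obtain ⟨Y, hY, rfl⟩ := Finset.mem_image.mp hY'
    rcases h' X hX Y hY with rfl | rfl | g | g
    · exact Or.inl rfl
    · exact Or.inr (Or.inl (by simp))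
    · exact Or.inr (Or.inr (Or.inl (sp _ _ g)))
    · exact Or.inr (Or.inr (Or.inr (by simpa using sp _ _ g)))

end Pool.Agent.Lib.MP_34a884_an.Neg
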